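import Mathlib

/-! Linear algebra of symmetric pencils whose coefficients have Witt index at most one:
a two-variable local minimum of a kernel potential is a global minimum of the corank, certified
by a shrunk subspace. -/

namespace Pool.Agent.P.MP_08e617_lc

open Module LinearMap Function

variable {V W : Type} [AddCommGroup V] [Module ℚ V] [FiniteDimensional ℚ V] [AddCommGroup W]
  [Module ℚ W]

/-- Semicontinuity of the kernel dimension along a pencil. -/
theorem card_bad_le (f g : V →ₗ[ℚ] W) (S : Finset ℚ)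
    (h : ∀ t ∈ S, finrank ℚ (ker f) < finrank ℚ (ker (f + t • g))) : S.card ≤ finrank ℚ V := by
  obtain ⟨C, hC⟩ := Submodule.exists_isCompl (ker f)
  have hinj : ker (f ∘ₗ C.subtype) = ⊥ := by
    rw [eq_bot_iff]
    intro x hx
    have h1 : (x : V) ∈ ker f ⊓ C := ⟨hx, x.2⟩
    rw [hC.inf_eq_bot] at h1
    simpa using h1
  obtain ⟨p, hp⟩ := LinearMap.exists_leftInverse_of_injective _ hinj
  have hdim := Submodule.finrank_add_eq_of_isCompl hC
  have hex : ∀ t : S, ∃ x : V, Module.End.HasEigenvector (C.subtype ∘ₗ p ∘ₗ g) (-(t : ℚ)⁻¹) x := by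
    rintro ⟨t, ht⟩
    have h1 := h t ht
    have ht0 : t ≠ 0 := by rintro rfl; rw [zero_smul, add_zero] at h1; exact lt_irrefl _ h1
    have h2 : ¬ Disjoint C (ker (f + t • g)) := fun hd => by
      have := Submodule.finrank_add_finrank_le_of_disjoint hd
      omega
    rw [Submodule.disjoint_def] at h2
    push Not at h2
    obtain ⟨x, hxC, hxk, hx0⟩ := h2
    refine ⟨x, ?_, hx0⟩
    rw [Module.End.mem_eigenspace_iff]
    have h3 : f x = -t • g x := by
      rw [mem_ker, LinearMap.add_apply, LinearMap.smul_apply] at hxk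
      rw [neg_smul]; exact eq_neg_of_add_eq_zero_left hxk
    have h4 : p (f x) = ⟨x, hxC⟩ := congrArg (fun F => F ⟨x, hxC⟩) hp
    rw [h3, map_smul] at h4
    have h5 : x = -t • (p (g x) : V) := by
      have := congrArg Subtype.val h4
      simpa using this.symm
    show (p (g x) : V) = _
    conv_rhs => rw [h5]
    rw [smul_smul]
    simp [ht0]
  choose v hv using hex
  have hli := Module.End.eigenvectors_linearIndependent' _ (fun t : S => -(t : ℚ)⁻¹)
    (fun a b hab => Subtype.ext (by simpa using hab)) v hv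
  simpa using hli.fintype_card_le_finrank

theorem card_bad_inf_le (f g c : V →ₗ[ℚ] W) (S : Finset ℚ)
    (h : ∀ t ∈ S, finrank ℚ ↥(ker f ⊓ ker c) < finrank ℚ ↥(ker (f + t • g) ⊓ ker c)) :
    S.card ≤ finrank ℚ V := by
  refine card_bad_le (f.prod c) (g.prod 0) S fun t ht => ?_
  have : f.prod c + t • g.prod 0 = (f + t • g).prod c := by ext <;> simp
  rw [this, ker_prod, ker_prod]
  exact h t ht

/-- Bilinear forms. -/
abbrev Fm (V : Type) [AddCommGroup V] [Module ℚ V] := V →ₗ[ℚ] V →ₗ[ℚ] ℚ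

/-- Symmetry of a form. -/
def Sym (B : Fm V) : Prop := ∀ x y, B x y = B y x

/-- Witt index at most one (modulo the radical). -/
def Witt (B : Fm V) : Prop :=
  ∀ v w, B v v = 0 → B v w = 0 → B w w = 0 → B v ≠ 0 → ∃ c : ℚ, B w = c • B v

/-- A kernel vector that is not isotropic for `B` makes the kernel drop along the pencil. -/
theorem card_iso_le {A B : Fm V} (hA : Sym A) (hB : Sym B) {κ : V} (hκ : A κ = 0)
    (hb : B κ κ ≠ 0) (S : Finset ℚ)
    (h : ∀ t ∈ S, finrank ℚ (ker A) ≤ finrank ℚ (ker (A + t • B))) :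
    S.card ≤ finrank ℚ V + 1 := by
  let R : Fm V := A + (B κ).smulRight (B κ)
  have hR : ker R < ker A := by
    have key : ∀ x, R x = 0 → B κ x = 0 := by
      intro x hx
      have h1 := congrArg (fun F => F κ) hx
      simp only [R, LinearMap.add_apply, smulRight_apply, LinearMap.smul_apply, smul_eq_mul, LinearMap.zero_apply] at h1
      rw [hA x κ, hκ] at h1
      simpa [hb] using h1
    refine lt_of_le_of_ne (fun x hx => ?_) fun he => ?_
    · have h1 := key x hx
      have h2 : R x = 0 := hx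
      simpa [R, h1] using h2
    · have : κ ∈ ker R := he ▸ hκ
      exact hb (key κ this)
  have hR' := Submodule.finrank_lt_finrank_of_lt hR
  have h1 := card_bad_le R B (S.erase 0) fun t ht => by
    obtain ⟨ht0, htS⟩ := Finset.mem_erase.1 ht
    refine (hR'.trans_le (h t htS)).trans_le (Submodule.finrank_mono fun x hx => ?_)
    have h2 : A x + t • B x = 0 := hx
    have h3 := congrArg (fun F => F κ) h2
    simp only [LinearMap.add_apply, LinearMap.smul_apply, smul_eq_mul, LinearMap.zero_apply] at h3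
    rw [hA x κ, hκ, hB x κ] at h3
    have h4 : B κ x = 0 := by simpa [ht0] using h3
    show (R + t • B) x = 0
    simpa [R, h4] using h2
  have := Finset.pred_card_le_card_erase (s := S) (a := 0)
  omega

omit [FiniteDimensional ℚ V] in
theorem polar_zero {B : Fm V} (hB : Sym B) {U : Submodule ℚ V} (h : ∀ x ∈ U, B x x = 0) {x y : V}
    (hx : x ∈ U) (hy : y ∈ U) : B x y = 0 := by
  have h1 := h _ (U.add_mem hx hy)
  simp only [map_add, LinearMap.add_apply] at h1
  rw [h x hx, h y hy, hB y x] at h1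
  linarith

/-- What a good value `τ` of the pencil in direction `i` satisfies. -/
def Good {ι : Type} (A : Fm V) (B : ι → Fm V) (i : ι) (τ : ℚ) : Prop :=
  τ ≠ 0 ∧ finrank ℚ (ker (A + τ • B i)) = finrank ℚ (ker A) ∧
    (∀ j, ker A ≤ ker (B j) → ker (A + τ • B i) ≤ ker (B j)) ∧
    ∀ j, ∀ x ∈ ker (A + τ • B i), B j x x = 0

theorem exists_vec {ι : Type} {A : Fm V} {B : ι → Fm V} (hA : Sym A) (hB : ∀ j, Sym (B j))
    (hW : ∀ j, Witt (B j)) (iso : ∀ j, ∀ x ∈ ker A, B j x x = 0) (i : ι) {τ₁ τ₂ : ℚ}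
    (hne : τ₁ ≠ τ₂) (g₁ : Good A B i τ₁) (g₂ : Good A B i τ₂) :
    ∃ w, (∀ κ ∈ ker A, ∃ c : ℚ, B i κ = c • A w) ∧ ∀ j, ∃ κ ∈ ker A, B j w = B j κ := by
  by_cases hz : ker A ≤ ker (B i)
  · exact ⟨0, fun κ hκ => ⟨0, by simpa using hz hκ⟩, fun j => ⟨0, Submodule.zero_mem _, rfl⟩⟩
  obtain ⟨κ, hκ, hu⟩ := SetLike.not_le_iff_exists.1 hz
  have hu' : B i κ ≠ 0 := hu
  have hκ' : A κ = 0 := hκ
  have hlam : ∀ κ' ∈ ker A, ∃ c : ℚ, B i κ' = c • B i κ := fun κ' h' =>
    hW i κ κ' (iso i κ hκ) (polar_zero (hB i) (iso i) hκ h') (iso i κ' h') hu'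
  have hτ := g₁.1
  -- a new kernel vector
  obtain ⟨v, hv, hvn⟩ : ∃ v ∈ ker (A + τ₁ • B i), v ∉ ker A ⊓ ker (B i) := by
    by_contra hcon
    push Not at hcon
    have h1 := Submodule.finrank_mono (show ker (A + τ₁ • B i) ≤ ker A ⊓ ker (B i) from hcon)
    have h2 : ker A ⊓ ker (B i) < ker A :=
      lt_of_le_of_ne inf_le_left fun he => hz (he ▸ inf_le_right)
    have h3 := Submodule.finrank_lt_finrank_of_lt h2
    have h4 := g₁.2.1
    omega
  have hv' : A v = -τ₁ • B i v := by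
    have : A v + τ₁ • B i v = 0 := hv
    rw [neg_smul]; exact eq_neg_of_add_eq_zero_left this
  have hκv : B i κ v = 0 := by
    have h1 := congrArg (fun F => F κ) hv'
    simp only [LinearMap.smul_apply, smul_eq_mul] at h1
    rw [hA v κ, hκ', hB i v κ] at h1
    simpa [hτ] using h1
  obtain ⟨l, hl⟩ := hW i κ v (iso i κ hκ) hκv (g₁.2.2.2 i v hv) hu'
  have hl0 : l ≠ 0 := by
    rintro rfl
    refine hvn ⟨?_, ?_⟩
    · show A v = 0
      rw [hv', hl]; simp
    · show B i v = 0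
      rw [hl]; simp
  obtain ⟨w, hAw, hBw⟩ : ∃ w, A w = B i κ ∧ B i w = 0 := by
    refine ⟨-(τ₁ * l)⁻¹ • v + τ₁⁻¹ • κ, ?_, ?_⟩
    · rw [map_add, map_smul, map_smul, hκ', hv', hl, smul_zero, add_zero, smul_smul, smul_smul]
      rw [show -(τ₁ * l)⁻¹ * -τ₁ * l = 1 by field_simp, one_smul]
    · rw [map_add, map_smul, map_smul, hl, smul_smul, ← add_smul]
      rw [show -(τ₁ * l)⁻¹ * l + τ₁⁻¹ = 0 by field_simp; ring, zero_smul]
  have hmem : ∀ (τ c : ℚ) (κ' : V), A κ' = 0 → B i κ' = c • B i κ →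
      κ' - (τ * c) • w ∈ ker (A + τ • B i) := by
    intro τ c κ' h1 h2
    rw [mem_ker]
    simp only [LinearMap.add_apply, LinearMap.smul_apply, map_sub, map_smul, h1, h2, hAw, hBw, smul_smul]
    simp
  refine ⟨w, fun κ' h' => hAw ▸ hlam κ' h', fun j => ?_⟩
  have hx : ∀ τ : ℚ, κ - (τ * 1) • w ∈ ker (A + τ • B i) := fun τ =>
    hmem τ 1 κ hκ' (one_smul _ _).symm
  by_cases hj : ker A ≤ ker (B j)
  · refine ⟨0, Submodule.zero_mem _, ?_⟩
    have h1 : B j (κ - (τ₁ * 1) • w) = 0 := g₁.2.2.1 j hj (hx τ₁)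
    have h2 : B j κ = 0 := hj hκ
    simpa [h2, hτ] using h1
  obtain ⟨κj, hκj, huj⟩ := SetLike.not_le_iff_exists.1 hj
  have e1 := g₁.2.2.2 j _ (hx τ₁)
  have e2 := g₂.2.2.2 j _ (hx τ₂)
  simp only [map_sub, map_smul, LinearMap.sub_apply, LinearMap.smul_apply, smul_eq_mul, iso j κ hκ, hB j w κ] at e1 e2
  have hτ2 := g₂.1
  have f1 : τ₁ * B j w w = 2 * B j κ w := by
    apply mul_left_cancel₀ hτ; linear_combination e1
  have f2 : τ₂ * B j w w = 2 * B j κ w := by
    apply mul_left_cancel₀ hτ2; linear_combination e2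
  have hww : B j w w = 0 := by
    apply mul_left_cancel₀ (sub_ne_zero.2 hne); linear_combination f1 - f2
  have hκw : B j κ w = 0 := by rw [hww] at f1; linarith
  obtain ⟨c, hc⟩ := hlam κj hκj
  have e3 := polar_zero (hB j) (g₁.2.2.2 j) (hmem τ₁ c κj hκj hc) (hx τ₁)
  simp only [map_sub, map_smul, LinearMap.sub_apply, LinearMap.smul_apply, smul_eq_mul, hB j w κ, hww, hκw,
    polar_zero (hB j) (iso j) hκj hκ] at e3
  have hjw : B j κj w = 0 := by simpa [hτ] using e3
  obtain ⟨c', hc'⟩ := hW j κj w (iso j κj hκj) hjw hww huj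
  exact ⟨c' • κj, Submodule.smul_mem _ _ hκj, by rw [map_smul, hc']⟩

theorem exists_shrunk {ι : Type} {A : Fm V} {B : ι → Fm V} (hA : Sym A) (hB : ∀ j, Sym (B j))
    (hW : ∀ j, Witt (B j)) (iso : ∀ j, ∀ x ∈ ker A, B j x x = 0)
    (hg : ∀ i, ∃ τ₁ τ₂, τ₁ ≠ τ₂ ∧ Good A B i τ₁ ∧ Good A B i τ₂) :
    ∃ U : Submodule ℚ V, ker A ≤ U ∧ ∀ j, U.map (B j) ≤ U.map A := by
  have h : ∀ i, ∃ w, (∀ κ ∈ ker A, ∃ c : ℚ, B i κ = c • A w) ∧
      ∀ j, ∃ κ ∈ ker A, B j w = B j κ := fun i => by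
    obtain ⟨τ₁, τ₂, hne, g₁, g₂⟩ := hg i
    exact exists_vec hA hB hW iso i hne g₁ g₂
  choose w hw1 hw2 using h
  refine ⟨ker A ⊔ Submodule.span ℚ (Set.range w), le_sup_left, fun j => ?_⟩
  have h1 : ∀ κ ∈ ker A, B j κ ∈ (ker A ⊔ Submodule.span ℚ (Set.range w)).map A := by
    intro κ hκ
    obtain ⟨c, hc⟩ := hw1 j κ hκ
    rw [hc]
    exact Submodule.smul_mem _ _ (Submodule.mem_map_of_mem
      (Submodule.mem_sup_right (Submodule.subset_span ⟨j, rfl⟩)))
  rw [Submodule.map_le_iff_le_comap]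
  refine sup_le h1 (Submodule.span_le.2 ?_)
  rintro _ ⟨i, rfl⟩
  obtain ⟨κ, hκ, he⟩ := hw2 i j
  rw [SetLike.mem_coe, Submodule.mem_comap, he]
  exact h1 κ hκ

/-- The affine pencil. -/
def pen (A0 : Fm V) (A : ℕ → Fm V) (k : ℕ) (a : ℕ → ℚ) : Fm V :=
  A0 + ∑ i ∈ Finset.range k, a i • A i

/-- The potential minimised by the local search. -/
noncomputable def pot (A0 : Fm V) (A : ℕ → Fm V) (k : ℕ) (a : ℕ → ℚ) : ℕ :=
  (k * finrank ℚ V + 1) * finrank ℚ (ker (pen A0 A k a)) +
    ∑ i ∈ Finset.range k, finrank ℚ ↥(ker (pen A0 A k a) ⊓ ker (A i))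

omit [FiniteDimensional ℚ V] in
theorem pen_update (A0 : Fm V) (A : ℕ → Fm V) {k i : ℕ} (hi : i < k) (a : ℕ → ℚ) (s : ℚ) :
    pen A0 A k (update a i s) = pen A0 A k a + (s - a i) • A i := by
  unfold pen
  have h : ∀ j, update a i s j • A j = a j • A j + if j = i then (s - a i) • A i else 0 := by
    intro j
    by_cases hj : j = i
    · subst hj; simp [← add_smul]
    · simp [hj]
  simp only [h, Finset.sum_add_distrib, Finset.sum_ite_eq', Finset.mem_range, hi, if_true,
    add_assoc]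

omit [FiniteDimensional ℚ V] in
theorem pen_sym {A0 : Fm V} {A : ℕ → Fm V} {k : ℕ} (h0 : Sym A0) (hA : ∀ i < k, Sym (A i))
    (a : ℕ → ℚ) : Sym (pen A0 A k a) := by
  intro x y
  simp only [pen, LinearMap.add_apply, LinearMap.sum_apply, LinearMap.smul_apply, h0 x y]
  congr 1
  exact Finset.sum_congr rfl fun i hi => by rw [hA i (Finset.mem_range.1 hi) x y]

theorem pot_le (A0 : Fm V) (A : ℕ → Fm V) (k : ℕ) (a : ℕ → ℚ) :
    ∑ i ∈ Finset.range k, finrank ℚ ↥(ker (pen A0 A k a) ⊓ ker (A i)) ≤ k * finrank ℚ V := by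
  have := Finset.sum_le_card_nsmul (Finset.range k)
    (fun i => finrank ℚ ↥(ker (pen A0 A k a) ⊓ ker (A i))) (finrank ℚ V)
    fun i _ => Submodule.finrank_le _
  simpa using this

theorem ker_le_of_pot_le {A0 : Fm V} {A : ℕ → Fm V} {k : ℕ} {a b : ℕ → ℚ}
    (h : pot A0 A k a ≤ pot A0 A k b) :
    finrank ℚ (ker (pen A0 A k a)) ≤ finrank ℚ (ker (pen A0 A k b)) := by
  by_contra hc
  have h1 := pot_le A0 A k b
  have h2 := Nat.mul_le_mul_left (k * finrank ℚ V + 1) (Nat.succ_le_of_lt (not_le.1 hc))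
  unfold pot at h
  rw [Nat.mul_succ] at h2
  omega

/-- The image of `range T` under the shift by `c`. -/
def shifts (T : ℕ) (c : ℚ) : Finset ℚ := (Finset.range T).image fun s : ℕ => (s : ℚ) - c

theorem card_shifts (T : ℕ) (c : ℚ) : (shifts T c).card = T := by
  unfold shifts
  rw [Finset.card_image_of_injective _ fun x y h => by simpa using h, Finset.card_range]

theorem local_min {A0 : Fm V} {A : ℕ → Fm V} {k T : ℕ} (h0 : Sym A0) (hA : ∀ i < k, Sym (A i))
    (hW : ∀ i < k, Witt (A i)) (hT : (k + 1) * finrank ℚ V + 3 ≤ T) (a : ℕ → ℚ)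
    (hloc : ∀ i < k, ∀ j < k, ∀ s < T, ∀ t < T,
      pot A0 A k a ≤ pot A0 A k (update (update a i (s : ℕ)) j (t : ℕ))) :
    ∃ U : Submodule ℚ V, ker (pen A0 A k a) ≤ U ∧
      ∀ j < k, U.map (A j) ≤ U.map (pen A0 A k a) := by
  classical
  have hT' : finrank ℚ V + 1 < T := by rw [Nat.succ_mul] at hT; omega
  -- isotropy at a point whose neighbours do not have a smaller kernel
  have isoAt : ∀ b : ℕ → ℚ, ∀ j < k, (∀ t < T, finrank ℚ (ker (pen A0 A k b)) ≤
      finrank ℚ (ker (pen A0 A k (update b j (t : ℕ))))) →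
      ∀ x ∈ ker (pen A0 A k b), A j x x = 0 := by
    intro b j hj hb x hx
    by_contra hne
    have := card_iso_le (pen_sym h0 hA b) (hA j hj) hx hne (shifts T (b j)) fun t ht => by
      obtain ⟨s, hs, rfl⟩ := Finset.mem_image.1 ht
      rw [← pen_update A0 A hj]
      exact hb s (Finset.mem_range.1 hs)
    rw [card_shifts] at this
    omega
  have hone : ∀ i < k, ∀ s < T, pot A0 A k a ≤ pot A0 A k (update a i (s : ℕ)) := by
    intro i hi s hs
    simpa using hloc i hi i hi s hs s hs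
  obtain ⟨U, h1, h2⟩ := exists_shrunk (A := pen A0 A k a) (B := fun j : Fin k => A j)
    (pen_sym h0 hA a) (fun j => hA j j.2) (fun j => hW j j.2)
    (fun j => isoAt a j j.2 fun t ht => ker_le_of_pot_le (hone j j.2 t ht)) (fun i => by
      let P := pen A0 A k a
      let S := shifts T (a i)
      let b0 := S.filter fun t => finrank ℚ (ker P) < finrank ℚ (ker (P + t • A i))
      let b1 := (Finset.range k).biUnion fun j => S.filter fun t =>
        finrank ℚ ↥(ker P ⊓ ker (A j)) < finrank ℚ ↥(ker (P + t • A i) ⊓ ker (A j))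
      have c0 : b0.card ≤ finrank ℚ V :=
        card_bad_le P (A i) b0 fun t ht => (Finset.mem_filter.1 ht).2
      have c1 : b1.card ≤ k * finrank ℚ V := by
        have := Finset.card_biUnion_le_card_mul (Finset.range k) (fun j => S.filter fun t =>
          finrank ℚ ↥(ker P ⊓ ker (A j)) < finrank ℚ ↥(ker (P + t • A i) ⊓ ker (A j)))
          (finrank ℚ V) fun j _ =>
            card_bad_inf_le P (A i) (A j) _ fun t ht => (Finset.mem_filter.1 ht).2
        simpa using this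
      have c2 : 1 < (S \ (insert 0 (b0 ∪ b1))).card := by
        have e1 := Finset.le_card_sdiff (insert 0 (b0 ∪ b1)) S
        have e2 := Finset.card_insert_le 0 (b0 ∪ b1)
        have e3 := Finset.card_union_le b0 b1
        have e4 : S.card = T := card_shifts _ _
        rw [Nat.succ_mul] at hT
        omega
      have hgood : ∀ τ ∈ S \ (insert 0 (b0 ∪ b1)), Good P (fun j : Fin k => A j) i τ := by
        intro τ hτ
        obtain ⟨hS, hn⟩ := Finset.mem_sdiff.1 hτ
        simp only [Finset.mem_insert, Finset.mem_union, not_or, b0, b1, Finset.mem_filter,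
          Finset.mem_biUnion, Finset.mem_range, not_exists, not_and, not_lt] at hn
        obtain ⟨hτ0, hn0, hn1⟩ := hn
        obtain ⟨s, hs, rfl⟩ := Finset.mem_image.1 hS
        have hs' := Finset.mem_range.1 hs
        have hpen := pen_update A0 A i.2 a (s : ℕ)
        have hp := hone i i.2 s hs'
        have hd : finrank ℚ (ker (P + ((s : ℚ) - a i) • A i)) = finrank ℚ (ker P) := by
          refine le_antisymm (hn0 hS) ?_
          rw [← hpen]; exact ker_le_of_pot_le hp
        refine ⟨hτ0, hd, fun j hj => ?_, fun j => ?_⟩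
        · unfold pot at hp
          rw [hpen, hd] at hp
          have hs2 := (Finset.sum_eq_sum_iff_of_le (s := Finset.range k)
            fun j hj => hn1 j (Finset.mem_range.1 hj) hS).1
            (le_antisymm (Finset.sum_le_sum fun j hj => hn1 j (Finset.mem_range.1 hj) hS)
              (Nat.le_of_add_le_add_left hp)) j (Finset.mem_range.2 j.2)
          rw [inf_eq_left.2 hj, ← hd] at hs2
          exact inf_eq_left.1 (Submodule.eq_of_le_of_finrank_eq inf_le_left hs2)
        · rw [← hpen]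
          refine isoAt _ j j.2 fun t ht => ?_
          rw [hpen, hd]
          exact ker_le_of_pot_le (hloc i i.2 j j.2 s hs' t ht)
      obtain ⟨τ₁, h1, τ₂, h2, hne⟩ := Finset.one_lt_card.1 c2
      exact ⟨τ₁, τ₂, hne, hgood _ h1, hgood _ h2⟩)
  exact ⟨U, h1, fun j hj => h2 ⟨j, hj⟩⟩

theorem finrank_map_add (f : V →ₗ[ℚ] W) (U : Submodule ℚ V) :
    finrank ℚ (U.map f) + finrank ℚ ↥(ker f ⊓ U) = finrank ℚ U := by
  have h := (f ∘ₗ U.subtype).finrank_range_add_finrank_ker
  rw [range_comp, Submodule.range_subtype, ker_comp] at h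
  rw [← h, ← Submodule.finrank_map_subtype_eq U, Submodule.map_comap_subtype, inf_comm]

omit [FiniteDimensional ℚ V] in
theorem pen_map_le {A0 : Fm V} {A : ℕ → Fm V} {k : ℕ} {a : ℕ → ℚ} {U : Submodule ℚ V}
    (h : ∀ j < k, U.map (A j) ≤ U.map (pen A0 A k a)) (b : ℕ → ℚ) :
    U.map (pen A0 A k b) ≤ U.map (pen A0 A k a) := by
  rintro _ ⟨x, hx, rfl⟩
  have : pen A0 A k b x = pen A0 A k a x + ∑ i ∈ Finset.range k, (b i - a i) • A i x := by
    simp only [pen, LinearMap.add_apply, LinearMap.sum_apply, LinearMap.smul_apply, add_assoc,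
      ← Finset.sum_add_distrib, ← add_smul, add_sub_cancel]
  rw [this]
  exact Submodule.add_mem _ (Submodule.mem_map_of_mem hx) (Submodule.sum_mem _ fun i hi =>
    Submodule.smul_mem _ _ (h i (Finset.mem_range.1 hi) (Submodule.mem_map_of_mem hx)))

theorem ker_min {A0 : Fm V} {A : ℕ → Fm V} {k : ℕ} {a : ℕ → ℚ} {U : Submodule ℚ V}
    (h1 : ker (pen A0 A k a) ≤ U) (h : ∀ j < k, U.map (A j) ≤ U.map (pen A0 A k a)) (b : ℕ → ℚ) :
    finrank ℚ (ker (pen A0 A k a)) ≤ finrank ℚ (ker (pen A0 A k b)) := by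
  have e1 := finrank_map_add (pen A0 A k a) U
  have e2 := finrank_map_add (pen A0 A k b) U
  rw [inf_eq_left.2 h1] at e1
  have e3 := Submodule.finrank_mono (pen_map_le h b)
  have e4 := Submodule.finrank_mono (inf_le_left : ker (pen A0 A k b) ⊓ U ≤ _)
  omega

end Pool.Agent.P.MP_08e617_lc
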