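import Mathlib

/-! A division-free Faddeev-LeVerrier recursion computes the rank of a Gram matrix. -/

namespace Pool.Agent.P.MP_08e617_lc

open Matrix Polynomial Module

variable {n : Type} [Fintype n] [DecidableEq n]

/-- Division-free Faddeev-LeVerrier recursion. -/
def flM {R : Type} [CommRing R] (B : Matrix n n R) : ℕ → Matrix n n R
  | 0 => 1
  | j + 1 => trace (B * flM B j) • (1 : Matrix n n R) - ((j + 1 : ℕ) : R) • (B * flM B j)

theorem flM_map {R S : Type} [CommRing R] [CommRing S] (φ : R →+* S) (B : Matrix n n R) (j : ℕ) :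
    flM (B.map φ) j = (flM B j).map φ := by
  induction j with
  | zero => simp [flM]
  | succ j ih =>
    rw [flM, flM, ih, ← Matrix.map_mul, ← AddMonoidHom.map_trace]
    generalize B * flM B j = N
    ext p q
    by_cases h : p = q <;> simp [h, one_apply]

theorem flM_conj {R : Type} [CommRing R] (U U' D : Matrix n n R) (h1 : U' * U = 1)
    (h2 : U * U' = 1) (j : ℕ) : flM (U * D * U') j = U * flM D j * U' ∧
      U * D * U' * flM (U * D * U') j = U * (D * flM D j) * U' := by
  have key : ∀ N : Matrix n n R, U * D * U' * (U * N * U') = U * (D * N) * U' := fun N => by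
    calc _ = U * D * (U' * U) * N * U' := by simp only [Matrix.mul_assoc]
      _ = _ := by rw [h1]; simp only [Matrix.mul_assoc, Matrix.mul_one]
  have : flM (U * D * U') j = U * flM D j * U' := by
    induction j with
    | zero => simp [flM, h2]
    | succ j ih =>
      rw [flM, flM, ih, key, trace_mul_cycle, h1, Matrix.one_mul]
      simp [Matrix.mul_sub, Matrix.sub_mul, h2]
  exact ⟨this, by rw [this, key]⟩

/-- Generating polynomial of the elementary symmetric functions. -/
noncomputable def chi (l : n → ℝ) (s : Finset n) : ℝ[X] := ∏ i ∈ s, (1 + C (l i) * X)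

omit [Fintype n] in
theorem chi_insert (l : n → ℝ) {s : Finset n} {i : n} (hi : i ∉ s) (j : ℕ) :
    (chi l (insert i s)).coeff (j + 1) = (chi l s).coeff (j + 1) + l i * (chi l s).coeff j := by
  unfold chi
  rw [Finset.prod_insert hi, add_mul, one_mul, coeff_add, mul_assoc, coeff_C_mul, coeff_X_mul]

omit [Fintype n] [DecidableEq n] in
theorem chi_zero (l : n → ℝ) (s : Finset n) : (chi l s).coeff 0 = 1 := by
  simp [chi, coeff_zero_eq_eval_zero, eval_prod]

theorem chi_deriv (l : n → ℝ) (j : ℕ) :
    ∑ i, l i * (chi l (Finset.univ.erase i)).coeff j =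
      (j + 1) * (chi l Finset.univ).coeff (j + 1) := by
  have h := congrArg (fun p => coeff p j)
    (derivative_prod_finset (s := Finset.univ) (f := fun i => (1 + C (l i) * X : ℝ[X])))
  simp only [coeff_derivative, finsetSum_coeff] at h
  rw [mul_comm]
  refine Eq.trans (Finset.sum_congr rfl fun i _ => ?_) h.symm
  rw [derivative_add, derivative_one, zero_add, derivative_C_mul_X, coeff_mul_C, mul_comm, chi]

theorem flM_diag (l : n → ℝ) (j : ℕ) :
    flM (diagonal l) j = diagonal (fun i => j.factorial * (chi l (Finset.univ.erase i)).coeff j) ∧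
      trace (diagonal l * flM (diagonal l) j) =
        (j + 1).factorial * (chi l Finset.univ).coeff (j + 1) := by
  have key : ∀ j : ℕ, flM (diagonal l) j =
      diagonal (fun i => j.factorial * (chi l (Finset.univ.erase i)).coeff j) →
      trace (diagonal l * flM (diagonal l) j) =
        (j + 1).factorial * (chi l Finset.univ).coeff (j + 1) := by
    intro j hj
    rw [hj, diagonal_mul_diagonal, trace_diagonal, Nat.factorial_succ, Nat.cast_mul,
      mul_right_comm, Nat.cast_succ, ← chi_deriv, Finset.sum_mul]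
    exact Finset.sum_congr rfl fun i _ => by ring
  have : flM (diagonal l) j =
      diagonal (fun i => j.factorial * (chi l (Finset.univ.erase i)).coeff j) := by
    induction j with
    | zero => simp [flM, chi_zero]
    | succ j ih =>
      rw [flM, key j ih, ih, diagonal_mul_diagonal]
      ext p q
      by_cases h : p = q
      · subst h
        have := chi_insert l (Finset.notMem_erase p Finset.univ) j
        rw [Finset.insert_erase (Finset.mem_univ p)] at this
        simp only [Matrix.sub_apply, Matrix.smul_apply, one_apply_eq, diagonal_apply_eq,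
          smul_eq_mul, this, Nat.factorial_succ, Nat.cast_mul]
        ring
      · simp [h]
  exact ⟨this, key j this⟩

omit [Fintype n] in
theorem chi_pos (l : n → ℝ) (hl : ∀ i, 0 ≤ l i) (s : Finset n) : ∀ j,
    0 ≤ (chi l s).coeff j ∧ (0 < (chi l s).coeff j ↔ j ≤ (s.filter fun i => l i ≠ 0).card) := by
  classical
  induction s using Finset.induction_on with
  | empty =>
    intro j
    cases j with
    | zero => simp [chi]
    | succ j => simp [chi, coeff_one]
  | insert i s hi ih =>
    intro j
    cases j with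
    | zero => simp [chi_zero]
    | succ j =>
      rw [chi_insert l hi, Finset.filter_insert]
      obtain ⟨a1, a2⟩ := ih (j + 1)
      obtain ⟨b1, b2⟩ := ih j
      refine ⟨add_nonneg a1 (mul_nonneg (hl i) b1), ?_⟩
      by_cases h : l i = 0
      · simpa [h] using a2
      · have hp : 0 < l i := lt_of_le_of_ne (hl i) (Ne.symm h)
        rw [if_pos h, Finset.card_insert_of_notMem (by simp [hi])]
        constructor
        · intro h1
          by_contra h2
          have c1 : ¬ 0 < (chi l s).coeff (j + 1) := fun h => h2 (by have := a2.1 h; omega)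
          have c2 : ¬ 0 < (chi l s).coeff j := fun h => h2 (by have := b2.1 h; omega)
          rw [le_antisymm (not_lt.1 c1) a1, le_antisymm (not_lt.1 c2) b1] at h1
          simp at h1
        · intro h1
          exact add_pos_of_nonneg_of_pos a1 (mul_pos hp (b2.2 (by omega)))

theorem trace_flM_real {B : Matrix n n ℝ} (hB : B.PosSemidef) (j : ℕ) :
    trace (B * flM B j) ≠ 0 ↔ j < B.rank := by
  classical
  have hs := hB.1.spectral_theorem
  rw [Unitary.conjStarAlgAut_apply] at hs
  have h1 := Unitary.coe_star_mul_self hB.1.eigenvectorUnitary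
  have h2 : _ * star (hB.1.eigenvectorUnitary : Matrix n n ℝ) = 1 :=
    Unitary.coe_mul_star_self hB.1.eigenvectorUnitary
  generalize (hB.1.eigenvectorUnitary : Matrix n n ℝ) = U at hs h1 h2
  have hd : (RCLike.ofReal ∘ hB.1.eigenvalues : n → ℝ) = hB.1.eigenvalues := rfl
  rw [hd] at hs
  have h3 := (flM_conj U (star U) (diagonal hB.1.eigenvalues) h1 h2 j).2
  rw [← hs] at h3
  rw [h3, trace_mul_cycle, h1, Matrix.one_mul, (flM_diag _ j).2, hB.1.rank_eq_card_non_zero_eigs,
    Fintype.card_subtype]
  obtain ⟨a1, a2⟩ := chi_pos _ hB.eigenvalues_nonneg Finset.univ (j + 1)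
  rw [mul_ne_zero_iff, Nat.lt_iff_add_one_le, ← a2]
  constructor
  · exact fun h => lt_of_le_of_ne a1 h.2.symm
  · exact fun h => ⟨Nat.cast_ne_zero.2 (Nat.factorial_ne_zero _), h.ne'⟩

theorem rank_map_real (B : Matrix n n ℚ) : (B.map (Rat.castHom ℝ)).rank = B.rank := by
  classical
  obtain ⟨L, L', D, h⟩ := Matrix.Pivot.exists_list_transvec_mul_diagonal_mul_list_transvec B
  have d1 := TransvectionStruct.det_toMatrix_prod L
  have d2 := TransvectionStruct.det_toMatrix_prod L'
  generalize (L.map TransvectionStruct.toMatrix).prod = P at h d1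
  generalize (L'.map TransvectionStruct.toMatrix).prod = Q at h d2
  have e1 : (P.map (Rat.castHom ℝ)).det = 1 := by
    rw [← RingHom.mapMatrix_apply, ← RingHom.map_det, d1, map_one]
  have e2 : (Q.map (Rat.castHom ℝ)).det = 1 := by
    rw [← RingHom.mapMatrix_apply, ← RingHom.map_det, d2, map_one]
  rw [h, Matrix.map_mul, Matrix.map_mul, rank_mul_eq_left_of_isUnit_det _ _ (e2 ▸ isUnit_one),
    rank_mul_eq_right_of_isUnit_det _ _ (e1 ▸ isUnit_one),
    rank_mul_eq_left_of_isUnit_det _ _ (d2 ▸ isUnit_one),
    rank_mul_eq_right_of_isUnit_det _ _ (d1 ▸ isUnit_one), diagonal_map (map_zero _),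
    rank_diagonal, rank_diagonal]
  simp

omit [DecidableEq n] in
theorem ker_gram (E A : Matrix n n ℚ) : LinearMap.ker (Eᵀ * E + Aᵀ * A).mulVecLin =
    LinearMap.ker E.mulVecLin ⊓ LinearMap.ker A.mulVecLin := by
  ext x
  simp only [LinearMap.mem_ker, mulVecLin_apply, Submodule.mem_inf, add_mulVec, ← mulVec_mulVec]
  constructor
  · intro h
    have h1 := congrArg (fun y => x ⬝ᵥ y) h
    simp only [dotProduct_add, dotProduct_mulVec, vecMul_transpose, dotProduct_zero] at h1
    rw [← dotProduct_mulVec, ← dotProduct_mulVec] at h1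
    have a1 : 0 ≤ (E *ᵥ x) ⬝ᵥ (E *ᵥ x) := Finset.sum_nonneg fun i _ => mul_self_nonneg _
    have a2 : 0 ≤ (A *ᵥ x) ⬝ᵥ (A *ᵥ x) := Finset.sum_nonneg fun i _ => mul_self_nonneg _
    exact ⟨dotProduct_self_eq_zero.1 (by linarith), dotProduct_self_eq_zero.1 (by linarith)⟩
  · rintro ⟨h1, h2⟩
    simp [h1, h2]

/-- The recursion counts the rank of an integer Gram matrix. -/
theorem count_flM {m : ℕ} (E A : Matrix (Fin m) (Fin m) ℤ) :
    m - ((List.range m).filter fun j =>
      !decide (trace ((Eᵀ * E + Aᵀ * A) * flM (Eᵀ * E + Aᵀ * A) j) = 0)).length =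
    finrank ℚ ↥(LinearMap.ker (E.map (Int.castRingHom ℚ)).mulVecLin ⊓
      LinearMap.ker (A.map (Int.castRingHom ℚ)).mulVecLin) := by
  set G := Eᵀ * E + Aᵀ * A with hG
  have hq : G.map (Int.castRingHom ℚ) = (E.map (Int.castRingHom ℚ))ᵀ * E.map (Int.castRingHom ℚ) +
      (A.map (Int.castRingHom ℚ))ᵀ * A.map (Int.castRingHom ℚ) := by
    rw [hG, Matrix.map_add _ (map_add _), Matrix.map_mul, Matrix.map_mul, transpose_map,
      transpose_map]
  have hr : G.map (Int.castRingHom ℝ) = (E.map (Int.castRingHom ℝ))ᴴ * E.map (Int.castRingHom ℝ) +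
      (A.map (Int.castRingHom ℝ))ᴴ * A.map (Int.castRingHom ℝ) := by
    rw [hG, Matrix.map_add _ (map_add _), Matrix.map_mul, Matrix.map_mul, transpose_map,
      transpose_map, conjTranspose_eq_transpose_of_trivial, conjTranspose_eq_transpose_of_trivial]
  have hpsd : (G.map (Int.castRingHom ℝ)).PosSemidef := by
    rw [hr]
    exact (posSemidef_conjTranspose_mul_self _).add (posSemidef_conjTranspose_mul_self _)
  have hrk : (G.map (Int.castRingHom ℝ)).rank = (G.map (Int.castRingHom ℚ)).rank := by
    rw [← rank_map_real]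
    congr 1
  have hj : ∀ j, (!decide (trace (G * flM G j) = 0)) =
      decide (j < (G.map (Int.castRingHom ℚ)).rank) := by
    intro j
    have h := trace_flM_real hpsd j
    rw [flM_map, ← Matrix.map_mul, ← AddMonoidHom.map_trace, hrk] at h
    rw [Bool.eq_iff_iff]
    simpa using h
  simp only [hj]
  rw [← ker_gram, ← hq]
  have h1 := (G.map (Int.castRingHom ℚ)).mulVecLin.finrank_range_add_finrank_ker
  have h2 : (G.map (Int.castRingHom ℚ)).rank = finrank ℚ (LinearMap.range
    (G.map (Int.castRingHom ℚ)).mulVecLin) := rfl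
  rw [← h2] at h1
  simp only [finrank_fintype_fun_eq_card, Fintype.card_fin] at h1
  have h3 : ∀ r ≤ m, ((List.range m).filter fun j => decide (j < r)).length = r := by
    intro r hr
    obtain ⟨d, rfl⟩ := Nat.exists_eq_add_of_le hr
    rw [List.range_add, List.filter_append, List.filter_eq_self.2 (by simp),
      List.filter_eq_nil_iff.2 (by simp)]
    simp
  rw [h3 _ (by omega)]
  omega

end Pool.Agent.P.MP_08e617_lc
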