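import Pool.Agent.Lib.helper21.PTInt
import Pool.Agent.P.MP_08e617_lc.Rank

/-! The local search algorithm on lists, and its polynomial running time. -/

namespace Pool.Agent.P.MP_08e617_lc

open Pool.Agent.Lib.helper21 Function Matrix Module

variable {α : Type} [Enc α]

/-- Entry of a list matrix. -/
def gm (M : List (List ℤ)) (i j : ℕ) : ℤ := (M.getD i []).getD j 0
/-- Square list matrix with given entries. -/
def mk (n : ℕ) (f : ℕ → ℕ → ℤ) : List (List ℤ) :=
  (List.range n).map fun i => (List.range n).map fun j => f i j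
/-- Finite sum. -/
def sm (n : ℕ) (f : ℕ → ℤ) : ℤ := ((List.range n).map f).sum
/-- The matrix of a list matrix. -/
def toM (n : ℕ) (M : List (List ℤ)) : Matrix (Fin n) (Fin n) ℤ := Matrix.of fun i j => gm M i j

@[fun_prop] theorem pt_gm {M : α → List (List ℤ)} {i j : α → ℕ} (hM : PT M) (hi : PT i)
    (hj : PT j) : PT fun a => gm (M a) (i a) (j a) := by unfold gm; fun_prop

@[fun_prop] theorem pt_mk {n : α → ℕ} {f : α → ℕ → ℕ → ℤ} (hn : PT n)
    (hf : PT fun p : α × ℕ × ℕ => f p.1 p.2.1 p.2.2) : PT fun a => mk (n a) (f a) := by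
  unfold mk
  have : PT fun p : (α × ℕ) × ℕ => f p.1.1 p.1.2 p.2 :=
    hf.comp (g := fun p : (α × ℕ) × ℕ => (p.1.1, p.1.2, p.2)) (by fun_prop)
  fun_prop

@[fun_prop] theorem pt_sm {n : α → ℕ} {f : α → ℕ → ℤ} (hn : PT n)
    (hf : PT fun p : α × ℕ => f p.1 p.2) : PT fun a => sm (n a) (f a) := by
  unfold sm; fun_prop

theorem gm_mk (n : ℕ) (f : ℕ → ℕ → ℤ) (i j : ℕ) :
    gm (mk n f) i j = if i < n ∧ j < n then f i j else 0 := by
  unfold gm mk
  by_cases hi : i < n <;> by_cases hj : j < n <;>
    simp [List.getD_eq_getElem?_getD, hi, hj]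

theorem toM_mk (n : ℕ) (f : ℕ → ℕ → ℤ) : toM n (mk n f) = Matrix.of fun i j : Fin n => f i j := by
  ext i j; simp [toM, gm_mk]

theorem list_sum_range {M : Type} [AddCommMonoid M] (n : ℕ) (f : ℕ → M) :
    ((List.range n).map f).sum = ∑ i ∈ Finset.range n, f i := by
  induction n with
  | zero => simp
  | succ n ih => simp [List.range_succ, Finset.sum_range_succ, ih]

theorem list_prod_range {M : Type} [CommMonoid M] (n : ℕ) (f : ℕ → M) :
    ((List.range n).map f).prod = ∏ i ∈ Finset.range n, f i := by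
  induction n with
  | zero => simp
  | succ n ih => simp [List.range_succ, Finset.prod_range_succ, ih]

theorem sm_eq (n : ℕ) (f : ℕ → ℤ) : sm n f = ∑ i : Fin n, f i := by
  rw [sm, ← Finset.sum_range (f := f), list_sum_range]

theorem sm_le (n : ℕ) (f : ℕ → ℤ) (x : ℕ) (h : ∀ r, (f r).natAbs ≤ x) :
    (sm n f).natAbs ≤ n * x := by
  unfold sm
  induction n with
  | zero => simp
  | succ n ih =>
    rw [List.range_succ, List.map_append, List.sum_append, Nat.succ_mul]
    have := Int.natAbs_add_le ((List.range n).map f).sum ([n].map f).sum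
    have := h n
    simp at *
    omega

theorem gm_le (M : List (List ℤ)) (i j : ℕ) : (gm M i j).natAbs ≤ 2 ^ sz M := by
  have h : ∀ (β : Type) (l : List β) (i : ℕ) (d : β), l.getD i d = d ∨ l.getD i d ∈ l := by
    intro β l i d
    rw [List.getD_eq_getElem?_getD]
    cases h : l[i]? with
    | none => exact Or.inl rfl
    | some x => exact Or.inr (List.mem_of_getElem? h)
  unfold gm
  rcases h _ (M.getD i []) j 0 with h1 | h1
  · rw [h1]; simp
  · rcases h _ M i [] with h2 | h2
    · rw [h2] at h1; simp at h1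
    · have h3 := (sz_mem h1).trans (sz_mem h2)
      rw [sz_int] at h3
      exact (Nat.lt_size_self _).le.trans (Nat.pow_le_pow_right (by norm_num) (by omega))

theorem sz_mk (n : ℕ) (f : ℕ → ℕ → ℤ) (s : ℕ) (h : ∀ i j, (f i j).natAbs ≤ 2 ^ s) :
    sz (mk n f) ≤ n * (2 * (n * (2 * (s + 2) + 2) + 1) + 2) + 1 := by
  have := sz_list_le (mk n f) (n * (2 * (s + 2) + 2) + 1) fun r hr => by
    obtain ⟨i, -, rfl⟩ := List.mem_map.1 hr
    have := sz_list_le ((List.range n).map fun j => f i j) (s + 2) fun x hx => by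
      obtain ⟨j, -, rfl⟩ := List.mem_map.1 hx
      have := Nat.size_le_size (h i j)
      rw [Nat.size_pow] at this
      rw [sz_int]; omega
    simpa using this
  simpa [mk] using this

/-- Product of list matrices. -/
def mulL (n : ℕ) (A B : List (List ℤ)) : List (List ℤ) :=
  mk n fun i j => sm n fun r => gm A i r * gm B r j
/-- Trace of a list matrix. -/
def trL (n : ℕ) (M : List (List ℤ)) : ℤ := sm n fun r => gm M r r
/-- One step of the recursion `flM`. -/
def flStep (n : ℕ) (B : List (List ℤ)) (s : ℕ × List (List ℤ)) : ℕ × List (List ℤ) :=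
  (s.1 + 1, mk n fun i j => cond (decide (i = j)) (trL n (mulL n B s.2)) 0 -
    ((s.1 + 1 : ℕ) : ℤ) * gm (mulL n B s.2) i j)
/-- The recursion `flM` on list matrices. -/
def fl (n : ℕ) (B : List (List ℤ)) (j : ℕ) : ℕ × List (List ℤ) :=
  (flStep n B)^[j] (0, mk n fun i j => cond (decide (i = j)) 1 0)

@[fun_prop] theorem pt_mulL {n : α → ℕ} {A B : α → List (List ℤ)} (hn : PT n) (hA : PT A)
    (hB : PT B) : PT fun a => mulL (n a) (A a) (B a) := by unfold mulL; fun_prop

@[fun_prop] theorem pt_trL {n : α → ℕ} {A : α → List (List ℤ)} (hn : PT n) (hA : PT A) :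
    PT fun a => trL (n a) (A a) := by unfold trL; fun_prop

theorem toM_mulL (n : ℕ) (A B : List (List ℤ)) : toM n (mulL n A B) = toM n A * toM n B := by
  rw [mulL, toM_mk]
  ext i j
  simp [sm_eq, mul_apply, toM]

theorem trL_eq (n : ℕ) (A : List (List ℤ)) : trL n A = trace (toM n A) := by
  simp [trL, sm_eq, trace, toM]

theorem fl_spec (n : ℕ) (B : List (List ℤ)) (j : ℕ) :
    (fl n B j).1 = j ∧ toM n (fl n B j).2 = flM (toM n B) j := by
  induction j with
  | zero =>
    refine ⟨rfl, ?_⟩
    rw [fl, iterate_zero, id, toM_mk]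
    ext p q
    by_cases h : p = q
    · subst h; simp [flM]
    · simp [flM, h, Fin.ext_iff.not.1 h]
  | succ j ih =>
    unfold fl at ih ⊢
    rw [iterate_succ_apply', flStep, ih.1, toM_mk, trL_eq, flM, ← ih.2, ← toM_mulL]
    refine ⟨rfl, ?_⟩
    ext p q
    by_cases h : p = q
    · subst h; simp [toM, Matrix.intCast_apply]
    · simp [h, toM, Fin.ext_iff.not.1 h, Matrix.intCast_apply]

theorem fl_bound (n : ℕ) (B : List (List ℤ)) (j : ℕ) : ∀ t ≤ j, ∃ f : ℕ → ℕ → ℤ,
    (fl n B t).2 = mk n f ∧ ∀ p q, (f p q).natAbs ≤ 2 ^ (t * (2 * n + j + sz B + 1)) := by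
  intro t
  induction t with
  | zero =>
    intro _
    refine ⟨_, rfl, fun p q => ?_⟩
    cases decide (p = q) <;> simp
  | succ t ih =>
    intro ht
    obtain ⟨f, hf, hb⟩ := ih (by omega)
    have h1 := (fl_spec n B t).1
    unfold fl at hf h1 ⊢
    rw [iterate_succ_apply', flStep, h1, hf]
    refine ⟨_, rfl, fun p q => ?_⟩
    set s := t * (2 * n + j + sz B + 1)
    have g1 : ∀ p q, (gm (mk n f) p q).natAbs ≤ 2 ^ s := fun p q => by
      rw [gm_mk]; split_ifs
      · exact hb p q
      · simp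
    have g2 : ∀ p q, (gm (mulL n B (mk n f)) p q).natAbs ≤ n * (2 ^ sz B * 2 ^ s) := fun p q => by
      rw [mulL, gm_mk]; split_ifs
      · exact sm_le _ _ _ fun r => by
          rw [Int.natAbs_mul]; exact Nat.mul_le_mul (gm_le _ _ _) (g1 _ _)
      · simp
    have g3 : (trL n (mulL n B (mk n f))).natAbs ≤ n * (n * (2 ^ sz B * 2 ^ s)) :=
      sm_le _ _ _ fun r => g2 r r
    have g4 : (cond (decide (p = q)) (trL n (mulL n B (mk n f))) 0).natAbs ≤
        n * (n * (2 ^ sz B * 2 ^ s)) := by
      cases decide (p = q)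
      · simp
      · exact g3
    refine (Int.natAbs_sub_le _ _).trans ?_
    rw [Int.natAbs_mul, Int.natAbs_natCast]
    have n1 : n ≤ 2 ^ n := Nat.lt_two_pow_self.le
    have n2 : t + 1 ≤ 2 ^ j := ht.trans Nat.lt_two_pow_self.le
    have n3 : 1 ≤ 2 ^ n := Nat.one_le_two_pow
    have n4 : 1 ≤ 2 ^ j := Nat.one_le_two_pow
    calc _ ≤ n * (n * (2 ^ sz B * 2 ^ s)) + (t + 1) * (n * (2 ^ sz B * 2 ^ s)) :=
          add_le_add g4 (Nat.mul_le_mul_left _ (g2 p q))
      _ ≤ 2 ^ n * 2 ^ j * (2 ^ n * (2 ^ sz B * 2 ^ s)) +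
          2 ^ n * 2 ^ j * (2 ^ n * (2 ^ sz B * 2 ^ s)) := by
          gcongr
          · nlinarith
          · nlinarith
      _ = _ := by rw [Nat.succ_mul]; ring

@[fun_prop] theorem pt_fl {n j : α → ℕ} {B : α → List (List ℤ)} (hn : PT n) (hB : PT B)
    (hj : PT j) : PT fun a => fl (n a) (B a) (j a) := by
  refine PT.iterate (f := fun a => flStep (n a) (B a)) (by unfold flStep; fun_prop) hj
    (by fun_prop) (fun a => 2 * j a + (n a * (2 * (n a * (2 * (j a *
      (2 * n a + j a + sz (B a) + 1) + 2) + 2) + 1) + 2) + 1) + 1) (PT.bdNat (by fun_prop))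
    fun a t ht => ?_
  obtain ⟨f, hf, hb⟩ := fl_bound (n a) (B a) (j a) t ht.le
  have h1 := (fl_spec (n a) (B a) t).1
  have h2 := sz_mk (n a) f (j a * (2 * n a + j a + sz (B a) + 1)) fun p q =>
    (hb p q).trans (Nat.pow_le_pow_right (by norm_num) (Nat.mul_le_mul_right _ ht.le))
  unfold fl at hf h1
  rw [sz_prod, hf, h1, sz_nat]
  omega

/-- Gram matrix of the stack of `E` and `A`. -/
def gram (n : ℕ) (E A : List (List ℤ)) : List (List ℤ) :=
  mk n fun p q => (sm n fun r => gm E r p * gm E r q) + sm n fun r => gm A r p * gm A r q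

/-- Dimension of the common kernel of `E` and `A`. -/
def kd (n : ℕ) (E A : List (List ℤ)) : ℕ :=
  n - ((List.range n).filter fun j =>
    !decide (trL n (mulL n (gram n E A) (fl n (gram n E A) j).2) = 0)).length

@[fun_prop] theorem pt_gram {n : α → ℕ} {E A : α → List (List ℤ)} (hn : PT n) (hE : PT E)
    (hA : PT A) : PT fun a => gram (n a) (E a) (A a) := by unfold gram; fun_prop

@[fun_prop] theorem pt_kd {n : α → ℕ} {E A : α → List (List ℤ)} (hn : PT n) (hE : PT E)
    (hA : PT A) : PT fun a => kd (n a) (E a) (A a) := by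
  exact hn.sub (PT.filter (PT.range hn) (by fun_prop)).length

theorem kd_spec (n : ℕ) (E A : List (List ℤ)) : kd n E A =
    finrank ℚ ↥(LinearMap.ker ((toM n E).map (Int.castRingHom ℚ)).mulVecLin ⊓
      LinearMap.ker ((toM n A).map (Int.castRingHom ℚ)).mulVecLin) := by
  have hg : toM n (gram n E A) = (toM n E)ᵀ * toM n E + (toM n A)ᵀ * toM n A := by
    rw [gram, toM_mk]
    ext p q
    simp [sm_eq, mul_apply, toM]
  rw [← count_flM, kd]
  simp only [trL_eq, toM_mulL, (fl_spec _ _ _).2, hg]

/-- Inputs: rows of entries, each a list of monomials (coefficient, exponent vector). -/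
abbrev Inp := List (List (List (ℚ × List ℕ)))

/-- A bound for the number of variables. -/
def nv (I : Inp) : ℕ := (I.flatten.flatten.map fun m => m.2.length).sum
/-- All denominators. -/
def dens (I : Inp) : List ℤ := I.flatten.flatten.map fun m => denZ m.1
/-- The product of `L` with one occurrence of `x` removed. -/
def cof (L : List ℤ) (x : ℤ) : ℤ :=
  (L.filter fun y => !decide (y = x)).prod * x ^ ((L.filter fun y => decide (y = x)).length - 1)
/-- Scaled value of a monomial. -/
def mval (L : List ℤ) (a : List ℕ) (m : ℚ × List ℕ) : ℤ :=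
  m.1.num * cof L (denZ m.1) *
    ((List.range m.2.length).map fun i => ((a.getD i 0 : ℕ) : ℤ) ^ m.2.getD i 0).prod
/-- Scaled value of the input matrix. -/
def ev (I : Inp) (a : List ℕ) : List (List ℤ) :=
  mk I.length fun p q => (((I.getD p []).getD q []).map (mval (dens I) a)).sum
/-- Changing one coordinate of a point. -/
def upd (k : ℕ) (a : List ℕ) (i s : ℕ) : List ℕ :=
  (List.range k).map fun j => cond (decide (j = i)) s (a.getD j 0)
/-- Scaled coefficient matrix. -/
def co (I : Inp) (i : ℕ) : List (List ℤ) :=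
  mk I.length fun p q => gm (ev I (upd (nv I) [] i 1)) p q - gm (ev I []) p q
/-- The potential. -/
def phi (I : Inp) (a : List ℕ) : ℕ :=
  (nv I * I.length + 1) * kd I.length (ev I a) (ev I a) +
    ((List.range (nv I)).map fun i => kd I.length (ev I a) (co I i)).sum
/-- Number of values tried for a variable. -/
def TT (I : Inp) : ℕ := (nv I + 1) * I.length + 3
/-- The neighbourhood of a point. -/
def nb (I : Inp) (a : List ℕ) : List (List ℕ) :=
  (List.range (nv I)).flatMap fun i => (List.range (nv I)).flatMap fun j =>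
    (List.range (TT I)).flatMap fun s => (List.range (TT I)).map fun t =>
      upd (nv I) (upd (nv I) a i s) j t
/-- One step of local search. -/
def stp (I : Inp) (a : List ℕ) : List ℕ :=
  ((nb I a).filter fun b => decide (phi I b < phi I a)).headD a
/-- The point found by local search. -/
def fin (I : Inp) : List ℕ := (stp I)^[phi I [] + 1] []
/-- The algorithm. -/
def alg (I : Inp) : Bool := decide (0 < kd I.length (ev I (fin I)) (ev I (fin I)))

@[fun_prop] theorem pt_nv : PT nv := by unfold nv; fun_prop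
@[fun_prop] theorem pt_dens : PT dens := by unfold dens; fun_prop
@[fun_prop] theorem pt_TT : PT TT := by unfold TT; fun_prop
@[fun_prop] theorem pt_cof {L : α → List ℤ} {x : α → ℤ} (hL : PT L) (hx : PT x) :
    PT fun a => cof (L a) (x a) := by unfold cof; fun_prop
@[fun_prop] theorem pt_mval {L : α → List ℤ} {b : α → List ℕ} {m : α → ℚ × List ℕ} (hL : PT L)
    (hb : PT b) (hm : PT m) : PT fun a => mval (L a) (b a) (m a) := by unfold mval; fun_prop
@[fun_prop] theorem pt_ev {I : α → Inp} {b : α → List ℕ} (hI : PT I) (hb : PT b) :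
    PT fun a => ev (I a) (b a) := by unfold ev; fun_prop
@[fun_prop] theorem pt_upd {k i s : α → ℕ} {b : α → List ℕ} (hk : PT k) (hb : PT b) (hi : PT i)
    (hs : PT s) : PT fun a => upd (k a) (b a) (i a) (s a) := by unfold upd; fun_prop
@[fun_prop] theorem pt_co {I : α → Inp} {i : α → ℕ} (hI : PT I) (hi : PT i) :
    PT fun a => co (I a) (i a) := by unfold co; fun_prop
@[fun_prop] theorem pt_phi {I : α → Inp} {b : α → List ℕ} (hI : PT I) (hb : PT b) :
    PT fun a => phi (I a) (b a) := by unfold phi; fun_prop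
@[fun_prop] theorem pt_nb {I : α → Inp} {b : α → List ℕ} (hI : PT I) (hb : PT b) :
    PT fun a => nb (I a) (b a) := by unfold nb; fun_prop
@[fun_prop] theorem pt_stp {I : α → Inp} {b : α → List ℕ} (hI : PT I) (hb : PT b) :
    PT fun a => stp (I a) (b a) := by unfold stp; fun_prop

theorem stp_cases (I : Inp) (a : List ℕ) :
    (stp I a = a ∧ ∀ b ∈ nb I a, phi I a ≤ phi I b) ∨
      (stp I a ∈ nb I a ∧ phi I (stp I a) < phi I a) := by
  unfold stp
  cases h : (nb I a).filter fun b => decide (phi I b < phi I a) with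
  | nil =>
    refine Or.inl ⟨rfl, fun b hb => ?_⟩
    simpa using List.filter_eq_nil_iff.1 h b hb
  | cons b l =>
    have : b ∈ (nb I a).filter fun b => decide (phi I b < phi I a) := h ▸ List.mem_cons_self
    exact Or.inr (by simpa using this)

theorem mem_nb {I : Inp} {a b : List ℕ} : b ∈ nb I a ↔ ∃ i < nv I, ∃ j < nv I, ∃ s < TT I,
    ∃ t < TT I, upd (nv I) (upd (nv I) a i s) j t = b := by
  simp [nb]

theorem getD_upd (k : ℕ) (a : List ℕ) (i s j : ℕ) :
    (upd k a i s).getD j 0 = if j < k then (if j = i then s else a.getD j 0) else 0 := by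
  unfold upd
  by_cases hj : j < k <;> by_cases h : j = i <;> (try subst h) <;>
    simp [List.getD_eq_getElem?_getD, *]

theorem pt_fin : PT fin := by
  refine PT.iterate (f := stp) (by fun_prop) (by fun_prop) (by fun_prop)
    (fun I => nv I * (2 * TT I + 2) + 1) (PT.bdNat (by fun_prop)) fun I t _ => ?_
  have hu : ∀ (a : List ℕ) (i s : ℕ), s < TT I → (∀ j, a.getD j 0 ≤ TT I) →
      ∀ j, (upd (nv I) a i s).getD j 0 ≤ TT I := by
    intro a i s hs ha j
    rw [getD_upd]
    have := ha j
    split_ifs <;> omega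
  have key : ∀ t, ((stp I)^[t] []).length ≤ nv I ∧ ∀ j, ((stp I)^[t] []).getD j 0 ≤ TT I := by
    intro t
    induction t with
    | zero => simp
    | succ t ih =>
      rw [iterate_succ_apply']
      rcases stp_cases I ((stp I)^[t] []) with h | h
      · rw [h.1]; exact ih
      · obtain ⟨i, -, j, -, s, hs, t, ht, he⟩ := mem_nb.1 h.1
        rw [← he]
        exact ⟨by simp [upd], hu _ _ _ ht (hu _ _ _ hs ih.2)⟩
  refine (sz_list_le _ (TT I) fun x hx => ?_).trans
    (Nat.add_le_add_right (Nat.mul_le_mul_right _ (key t).1) _)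
  obtain ⟨j, hj, rfl⟩ := List.getElem_of_mem hx
  have := (key t).2 j
  rw [List.getD_eq_getElem _ _ hj] at this
  simpa using this

theorem pt_alg : PT alg := by
  have := pt_fin
  unfold alg; fun_prop

theorem fin_min (I : Inp) : ∀ b ∈ nb I (fin I), phi I (fin I) ≤ phi I b := by
  have key : ∀ t, (∀ b ∈ nb I ((stp I)^[t] []), phi I ((stp I)^[t] []) ≤ phi I b) ∨
      phi I ((stp I)^[t] []) + t ≤ phi I [] := by
    intro t
    induction t with
    | zero => exact Or.inr le_rfl
    | succ t ih =>
      rw [iterate_succ_apply']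
      rcases stp_cases I ((stp I)^[t] []) with h | h
      · rw [h.1]; exact Or.inl h.2
      · rcases ih with h' | h'
        · exact absurd (h' _ h.1) (not_le.2 h.2)
        · exact Or.inr (by omega)
  rcases key (phi I [] + 1) with h | h
  · exact h
  · omega

end Pool.Agent.P.MP_08e617_lc
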