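import Pool.Agent.P.MP_08e617_lc.DvD

/-! The algebraic statement: a generator that preserves polynomials of bounded degree is faithful. -/

namespace Pool.Agent.P.MP_08e617_lc.Dv

open Finset MvPolynomial

theorem exists_val {A k : Type} [CommRing A] [Field k] (a : A →+* k) (ha : Function.Injective a)
    (P : Ideal A) [P.IsPrime] : ∃ V : ValuationSubring k,
    (∀ g, g ∉ P → V.valuation (a g) = 1) ∧ ∀ g, g ∈ P → V.valuation (a g) < 1 := by
  have h0 : ∀ y : P.primeCompl, IsUnit (a y) := fun y => IsUnit.mk0 _ fun e =>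
    y.2 (show (y : A) ∈ P by rw [ha (e.trans (map_zero a).symm)]; exact zero_mem _)
  obtain ⟨V, h1, h2⟩ := IsLocalRing.exists_factor_valuationRing
    (IsLocalization.lift (S := Localization.AtPrime P) h0)
  have h3 : ∀ g, a g ∈ V := fun g => by
    have := h1 (algebraMap A _ g)
    rwa [IsLocalization.lift_eq] at this
  have h4 : ∀ g, (IsLocalization.lift (S := Localization.AtPrime P) h0).codRestrict V.toSubring h1
      (algebraMap A _ g) = ⟨a g, h3 g⟩ := fun g => Subtype.ext (IsLocalization.lift_eq h0 g)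
  refine ⟨V, fun g hg => (V.valuation_eq_one_iff ⟨a g, h3 g⟩).1 ?_, fun g hg =>
    ((V.valuation_le_one_iff _).2 (h3 g)).lt_of_ne fun e => ?_⟩
  · exact h4 g ▸ ((IsLocalization.AtPrime.isUnit_to_map_iff _ P g).2 hg).map _
  · exact (IsLocalization.AtPrime.isUnit_to_map_iff _ P g).1
      (h2.map_nonunit _ (h4 g ▸ (V.valuation_eq_one_iff ⟨a g, h3 g⟩).2 e)) hg

theorem exists_lift {A S K ι : Type} [CommRing A] [Nontrivial A] [CommRing S] [IsDomain S]
    [Algebra A S] [Field K] [Algebra A K] [IsAlgClosed K] {x : ι → S} (hx : IsTranscendenceBasis A x)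
    {y : ι → K} (hy : AlgebraicIndependent A y) : ∃ ψ : S →ₐ[A] K, ∀ i, ψ (x i) = y i := by
  let ρ := (aeval y).comp hx.1.aevalEquiv.symm.toAlgHom
  let _ : Algebra (Algebra.adjoin A (Set.range x)) K := ρ.toRingHom.toAlgebra
  have : IsScalarTower A (Algebra.adjoin A (Set.range x)) K :=
    .of_algebraMap_eq fun c => (ρ.commutes c).symm
  have : FaithfulSMul (Algebra.adjoin A (Set.range x)) K :=
    (faithfulSMul_iff_algebraMap_injective _ _).2
      fun _ _ e => hx.1.aevalEquiv.symm.injective (hy e)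
  have := hx.isAlgebraic
  let ψ : S →ₐ[Algebra.adjoin A (Set.range x)] K := IsAlgClosed.lift
  refine ⟨ψ.restrictScalars A, fun i => ?_⟩
  have h1 := ψ.commutes (hx.1.aevalEquiv (X i))
  rw [hx.1.algebraMap_aevalEquiv, aeval_X] at h1
  exact h1.trans (by simp [RingHom.algebraMap_toAlgebra, ρ])

theorem exists_basis {r : ℕ} {T : Fin r → MvPolynomial ℕ ℚ} (hT : AlgebraicIndependent ℚ T) :
    ∃ J : Finset ℕ, J.card ≤ r ∧
      IsTranscendenceBasis ℚ (Sum.elim T fun i : {i // i ∉ J} => X i.1) := by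
  obtain ⟨B, h1, h2, h3⟩ := (AlgebraicIndependent.matroid_indep_iff.2
    hT.to_subtype_range).exists_isBase_subset_union_isBase
    (AlgebraicIndependent.matroid_isBase_iff.2
      (IsTranscendenceBasis.mvPolynomial ℕ ℚ).to_subtype_range)
  have h4 := h1.encard_sdiff_comm (AlgebraicIndependent.matroid_isBase_iff.2
      (IsTranscendenceBasis.mvPolynomial ℕ ℚ).to_subtype_range)
  let J : Set ℕ := {i | X i ∉ B ∨ X i ∈ Set.range T}
  have h5 : J.encard ≤ r := by
    rw [← (X_injective (R := ℚ)).encard_image]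
    calc _ ≤ ((Set.range X \ B) ∪ (Set.range T ∩ Set.range X)).encard := Set.encard_le_encard (by
          rintro _ ⟨i, hi | hi, rfl⟩
          · exact Or.inl ⟨⟨i, rfl⟩, hi⟩
          · exact Or.inr ⟨hi, i, rfl⟩)
      _ ≤ (Set.range T \ Set.range X).encard + (Set.range T ∩ Set.range X).encard :=
          (Set.encard_union_le _ _).trans (add_le_add_left (h4 ▸ Set.encard_le_encard
            fun b hb => ⟨(h3 hb.1).resolve_right hb.2, hb.2⟩) _)
      _ = r := by
          rw [Set.encard_sdiff_add_encard_inter, ← Set.image_univ, hT.injective.encard_image]; simp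
  have h6 : J.Finite := Set.finite_of_encard_le_coe h5
  refine ⟨h6.toFinset, by rwa [h6.encard_eq_coe_toFinset_card, Nat.cast_le] at h5, ?_⟩
  have h7 : ∀ i : {i // i ∉ h6.toFinset}, X i.1 ∈ B ∧ X i.1 ∉ Set.range T := fun i => by
    have := i.2
    rwa [h6.mem_toFinset, Set.mem_ofPred_eq, not_or, not_not] at this
  refine .of_subtype_range (hT.injective.sumElim (X_injective.comp Subtype.val_injective)
    fun a b e => (h7 b).2 ⟨a, e⟩) ?_
  rw [show Set.range (Sum.elim T fun i : {i // i ∉ h6.toFinset} => X i.1) = B from ?_]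
  · exact h1
  rw [Set.Sum.elim_range]
  refine (Set.union_subset h2 (Set.range_subset_iff.2 fun i => (h7 i).1)).antisymm fun b hb => ?_
  by_cases h : b ∈ Set.range T
  · exact Or.inl h
  · obtain ⟨i, rfl⟩ := (h3 hb).resolve_left h
    exact Or.inr ⟨⟨i, fun h8 => (h6.mem_toFinset.1 h8).elim (· hb) h⟩, rfl⟩

theorem Fil.deg {K σ : Type} [Field K] (G : Fil K) (ψ : MvPolynomial σ ℚ →+* K)
    (h0 : ∀ c, ψ (C c) ∈ G.F 0) (h1 : ∀ i, ψ (X i) ∈ G.F 1) (g : MvPolynomial σ ℚ) :
    ψ g ∈ G.F g.totalDegree := by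
  conv_rhs => rw [g.as_sum]
  rw [map_sum]
  refine sum_mem fun μ hμ => G.mono (le_trans (le_of_eq ?_) (le_totalDegree hμ))
    (by
      rw [monomial_eq, map_mul, Finsupp.prod, map_prod]
      exact G.mul (h0 _) (G.prod _ _ (fun i => μ i * 1) fun i _ => map_pow ψ _ _ ▸ G.pow (h1 i) _))
  simp [Finsupp.sum]

/-- The filtration by total degree. -/
noncomputable def degFil {K σ : Type} [Field K] (b : MvPolynomial σ ℚ →+* K) : Fil K where
  F e := (restrictTotalDegree σ ℚ e).toAddSubgroup.map b.toAddMonoidHom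
  one := ⟨1, (mem_restrictTotalDegree _ _ _).2 (by simp), map_one b⟩
  mono h := by
    rintro _ ⟨g, hg, rfl⟩
    exact ⟨g, (mem_restrictTotalDegree _ _ _).2 (((mem_restrictTotalDegree _ _ _).1 hg).trans h),
      rfl⟩
  mul := by
    rintro _ _ _ _ ⟨g, hg, rfl⟩ ⟨g', hg', rfl⟩
    exact ⟨g * g', (mem_restrictTotalDegree _ _ _).2 ((totalDegree_mul _ _).trans (add_le_add
      ((mem_restrictTotalDegree _ _ _).1 hg) ((mem_restrictTotalDegree _ _ _).1 hg'))),
      map_mul b _ _⟩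

theorem exists_ne {σ : Type} {g : MvPolynomial σ ℚ} (h : g ≠ 0) : ∃ x, eval x g ≠ 0 := by
  by_contra h1
  push Not at h1
  exact h (MvPolynomial.funext fun x => by rw [h1 x, map_zero])

theorem faithful {r δ : ℕ} (L : Fin r → List (MvPolynomial ℕ ℚ))
    (hL : ∀ i, ∀ g ∈ L i, g.totalDegree ≤ δ) (hT : AlgebraicIndependent ℚ fun i => (L i).prod)
    {σ : Type} (φ : ℕ → MvPolynomial σ ℚ)
    (hφ : ∀ g : MvPolynomial ℕ ℚ, g ≠ 0 → g.totalDegree ≤ dD r (δ + 1) → aeval φ g ≠ 0)
    {p : MvPolynomial (Fin r) ℚ} (hp : p ≠ 0) :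
    ∃ (J : Finset ℕ) (s : σ → ℚ) (x : ℕ → ℚ), J.card ≤ r ∧ (∀ i ∉ J, x i = eval s (φ i)) ∧
      eval x (aeval (fun i => (L i).prod) p) ≠ 0 := by
  obtain ⟨J, hJ, hB⟩ := exists_basis hT
  let A := MvPolynomial {i // i ∉ J} ℚ
  let k := AlgebraicClosure (FractionRing A)
  let a : A →+* k := (algebraMap (FractionRing A) k).comp (algebraMap A _)
  have ha : Function.Injective a :=
    (algebraMap (FractionRing A) k).injective.comp (IsFractionRing.injective A _)
  let φ' : A →+* MvPolynomial σ ℚ := (aeval fun i => φ i.1 : A →ₐ[ℚ] _)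
  have := RingHom.ker_isPrime φ'
  obtain ⟨V, hV1, hV2⟩ := exists_val a ha (RingHom.ker φ')
  have hV : ∀ g, V.valuation (a g) ≤ 1 := fun g =>
    (em (g ∈ RingHom.ker φ')).elim (fun h => (hV2 g h).le) fun h => (hV1 g h).le
  obtain ⟨K, _, _, _, j, τ, hj, hτ⟩ := exists_field k
  have : CharZero K := charZero_of_injective_ringHom j.injective
  obtain ⟨ξ, hξ⟩ := exists_xi (Fin r)
  have hτ0 : ∀ i, τ (ξ i) ≠ 0 := fun i => norm_pos_iff.1 (hτ _ ▸ Real.exp_pos _)
  have hξ' : LinearIndependent ℚ fun i => Real.log ‖τ (ξ i)‖ := by simpa [hτ] using hξ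
  let _ : Algebra k K := j.toAlgebra
  obtain ⟨ψ', hψ⟩ := exists_lift hB (((algebraicIndependent_X _ ℚ).map' (f := a.toRatAlgHom)
    ha).sumElim_comp (tau_indep hj hτ0 hξ'))
  let ψ := ψ'.toRingHom
  have hψ1 : ∀ i, ((L i).map ψ).prod = τ (ξ i) := fun i => by
    rw [← map_list_prod]; exact hψ (Sum.inl i)
  have hψ2 : ∀ i (h : i ∉ J), ψ (X i) = j (a (X ⟨i, h⟩)) := fun i h => hψ (Sum.inr ⟨i, h⟩)
  let e : MvPolynomial ℕ ℚ →ₐ[ℚ] MvPolynomial J A :=
    aeval fun i => if h : i ∈ J then X ⟨i, h⟩ else C (X ⟨i, h⟩)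
  have hQ : ∀ c : ℚ, (c : K) ∈ (degFil (j.comp a)).F 0 := fun c =>
    ⟨C c, (mem_restrictTotalDegree _ _ _).2 (by simp), eq_ratCast ((j.comp a).comp C) c⟩
  have h2 : ∃ μ, φ' ((e (aeval (fun i => (L i).prod) p)).coeff μ) ≠ 0 := by
    by_contra h
    push Not at h
    have h5 : ∀ g : K, (∃ l, g ∈ (L l).map ψ) →
        g ∈ ((degFil (j.comp a)).ext fun i : J => ψ (X i)).F (δ + 1) := fun g ⟨i, hg⟩ => by
      obtain ⟨g, hg', rfl⟩ := List.mem_map.1 hg
      refine Fil.mono _ (Nat.le_succ_of_le (hL i g hg')) (Fil.deg _ ψ (fun c => ?_) (fun l => ?_) g)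
      · rw [show ψ (C c) = c from eq_ratCast (ψ.comp C) c]
        exact Fil.ext_coef _ _ (hQ c)
      · by_cases hl : l ∈ J
        · exact Fil.ext_var _ (fun i : J => ψ (X i)) ⟨l, hl⟩
        · exact Fil.ext_coef _ _ ⟨X ⟨l, hl⟩, (mem_restrictTotalDegree _ _ _).2 (by simp),
            (hψ2 l hl).symm⟩
    refine mid j hj V.valuation (fun c => eq_ratCast (a.comp C) c ▸ hV (C c))
      (fun i : J => ψ (X i)) (by simpa using hJ) (fun i => (L i).map ψ) (fun i => hψ1 i ▸ hτ0 i)
      (by simpa only [hψ1] using hξ') (fun q g hq hg => ⟨degFil (j.comp a), δ + 1, δ.succ_pos, ?_,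
        ?_, fun i => h5 _ (hq i), h5 g hg⟩) hp
      (map a (e (aeval (fun i => (L i).prod) p))) (fun μ => by rw [coeff_map]; exact hV2 _ (h μ)) ?_
    · rintro _ _ ⟨g, -, rfl⟩
      exact ⟨a g, hV g, rfl⟩
    · rintro _ ⟨g, hg, rfl⟩ h0
      rw [Fintype.card_fin] at hg
      refine ⟨a g, hV1 g fun h3 => hφ (rename Subtype.val g) (fun h4 => h0 ?_)
        ((totalDegree_rename_le _ _).trans ((mem_restrictTotalDegree _ _ _).1 hg)) ?_, rfl⟩
      · rw [rename_injective _ Subtype.val_injective (h4.trans (map_zero _).symm), map_zero]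
      · rw [aeval_rename]; exact h3
    · have h3 : (eval₂Hom j fun i : J => ψ (X i)).comp ((map a).comp e.toRingHom) = ψ := by
        refine ringHom_ext' (Subsingleton.elim _ _) fun i => ?_
        by_cases hi : i ∈ J <;> simp [e, hi, hψ2]
      have h4 : ψ.toRatAlgHom.comp (aeval fun i => (L i).prod) =
          aeval fun i => ((L i).map ψ).prod := algHom_ext fun i => by
        rw [AlgHom.comp_apply, aeval_X, aeval_X]; exact map_list_prod ψ _
      exact (DFunLike.congr_fun h4 p).symm.trans (DFunLike.congr_fun h3 _).symm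
  obtain ⟨μ, hμ⟩ := h2
  obtain ⟨s, hs⟩ := exists_ne hμ
  obtain ⟨u, hu⟩ := exists_ne (g := map ((eval s).comp φ') (e (aeval (fun i => (L i).prod) p)))
    fun h => hs (by simpa [coeff_map] using congrArg (coeff μ) h)
  refine ⟨J, s, fun i => if h : i ∈ J then u ⟨i, h⟩ else eval s (φ i), hJ,
    fun i hi => dif_neg hi, ?_⟩
  have h3 : (eval u).comp ((map ((eval s).comp φ')).comp e.toRingHom) =
      eval fun i => if h : i ∈ J then u ⟨i, h⟩ else eval s (φ i) := by
    refine ringHom_ext' (Subsingleton.elim _ _) fun i => ?_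
    by_cases hi : i ∈ J <;> simp [e, hi, φ', A]
  rw [← h3]
  exact hu

theorem reduce {k : ℕ} (T : Fin k → MvPolynomial ℕ ℚ) {f : MvPolynomial ℕ ℚ} (h0 : f ≠ 0)
    (h : IsAlgebraic (Algebra.adjoin ℚ (Set.range T)) f) :
    ∃ r ≤ k, ∃ e : Fin r → Fin k, AlgebraicIndependent ℚ (fun i => T (e i)) ∧
      ∃ p : MvPolynomial (Fin r) ℚ, p ≠ 0 ∧ f ∣ aeval (fun i => T (e i)) p := by
  obtain ⟨B, hB⟩ := (AlgebraicIndependent.matroid ℚ (MvPolynomial ℕ ℚ)).exists_isBasis (Set.range T)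
  have := ((Set.finite_range T).subset hB.subset).fintype
  choose u hu using fun b : B => hB.subset b.2
  have h1 : Function.Injective u := fun b c e => Subtype.ext (by rw [← hu, e, hu])
  let v := (Fintype.equivFin B).symm
  have h2 : (fun i => T (u (v i))) = Subtype.val ∘ v := funext fun i => hu _
  have h3 : AlgebraicIndependent ℚ fun i => T (u (v i)) :=
    h2 ▸ (AlgebraicIndependent.matroid_indep_iff.1 hB.indep).comp v v.injective
  have h4 : Set.range (fun i => T (u (v i))) = B := by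
    rw [h2, v.surjective.range_comp, Subtype.range_val]
  rw [← AlgebraicIndependent.isAlgebraic_adjoin_iff_of_matroid_isBasis hB, ← h4] at h
  obtain ⟨c, h5, h6⟩ := h.exists_nonzero_dvd (mem_nonZeroDivisors_of_ne_zero h0)
  refine ⟨_, by simpa using Fintype.card_le_of_injective u h1, fun i => u (v i), h3,
    h3.aevalEquiv.symm c, by simpa using h5, ?_⟩
  rwa [← h3.algebraMap_aevalEquiv, AlgEquiv.apply_symm_apply]

end Pool.Agent.P.MP_08e617_lc.Dv
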