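import Mathlib

/-! Definitions used in the statements. -/

namespace Pool.Agent.P.MP_08e617_lc

open Matrix

/-- The form `vᵀ B w` has Witt index at most one over `ℚ` (modulo its radical): whenever it
vanishes on the span of `v, w`, the vectors `B v, B w` are linearly dependent. -/
def WittLeOne {n : ℕ} (B : Matrix (Fin n) (Fin n) ℚ) : Prop :=
  ∀ v w : Fin n → ℚ, v ⬝ᵥ B *ᵥ v = 0 → v ⬝ᵥ B *ᵥ w = 0 → w ⬝ᵥ B *ᵥ w = 0 →
    ¬ LinearIndependent ℚ ![B *ᵥ v, B *ᵥ w]

/-- Symmetric, and of rank at most 3, or with at most one negative eigenvalue, or with at most one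
positive eigenvalue, or of Witt index at most one over `ℚ`. -/
def Gen {n : ℕ} (B : Matrix (Fin n) (Fin n) ℚ) : Prop :=
  B.IsSymm ∧ (B.rank ≤ 3 ∨
    (B.map (Rat.castHom ℝ)).charpoly.roots.countP (fun x => x < 0) ≤ 1 ∨
    (B.map (Rat.castHom ℝ)).charpoly.roots.countP (fun x => 0 < x) ≤ 1 ∨ WittLeOne B)

/-- After left multiplication by an invertible `P`, the matrix `A₀` is symmetric and
`A 0, …, A (k - 1)` satisfy `Gen`. -/
def InClass {n : ℕ} (k : ℕ) (A₀ : Matrix (Fin n) (Fin n) ℚ) (A : ℕ → Matrix (Fin n) (Fin n) ℚ) :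
    Prop :=
  ∃ P : Matrix (Fin n) (Fin n) ℚ, P.det ≠ 0 ∧ (P * A₀).IsSymm ∧ ∀ i < k, Gen (P * A i)

/-- Self-delimiting code of a pair of bit strings. -/
def encPair (x y : List Bool) : List Bool := x.flatMap (fun c => [true, c]) ++ false :: y

/-- Code of a list, given codes of its members. -/
def encList {α : Type} (e : α → List Bool) (l : List α) : List Bool :=
  l.foldr (fun a w => true :: encPair (e a) w) [false]

/-- Code of a monomial: sign, numerator and denominator in binary, exponents in unary. -/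
def encMono (m : ℚ × List ℕ) : List Bool :=
  encPair (encPair (decide (m.1.num < 0) :: m.1.num.natAbs.bits) m.1.den.bits)
    (encList (fun e => List.replicate e true) m.2)

/-- Code of an input: a list of rows, each a list of entries, each a list of monomials. -/
def encInput (I : List (List (List (ℚ × List ℕ)))) : List Bool :=
  encList (encList (encList encMono)) I

/-- The monomial with coefficient `m.1` and exponent vector `m.2`. -/
noncomputable def monoPoly (m : ℚ × List ℕ) : MvPolynomial ℕ ℚ :=
  MvPolynomial.C m.1 * ∏ i ∈ Finset.range m.2.length, MvPolynomial.X i ^ m.2.getD i 0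

/-- The square polynomial matrix described by an input. -/
noncomputable def polyMatrix (I : List (List (List (ℚ × List ℕ)))) :
    Matrix (Fin I.length) (Fin I.length) (MvPolynomial ℕ ℚ) :=
  Matrix.of fun p q => (((I.getD p []).getD q []).map monoPoly).sum

/-- The polynomial matrix `A₀ + ∑_{i < k} x_i A_i`. -/
noncomputable def pencil {n : ℕ} (k : ℕ) (A₀ : Matrix (Fin n) (Fin n) ℚ)
    (A : ℕ → Matrix (Fin n) (Fin n) ℚ) : Matrix (Fin n) (Fin n) (MvPolynomial ℕ ℚ) :=
  A₀.map MvPolynomial.C +
    ∑ i ∈ Finset.range k, (MvPolynomial.X i : MvPolynomial ℕ ℚ) • (A i).map MvPolynomial.C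

end Pool.Agent.P.MP_08e617_lc
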