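import Mathlib

/-! Frames in an ultrametric field: good elements, the closed group `J`, the closed ring `Lam`. -/

set_option linter.unusedSectionVars false

namespace Pool.Agent.P.MP_08e617_lc.Dv

open Finset Polynomial Filter Topology IsUltrametricDist

variable {K : Type} [NormedField K] [IsUltrametricDist K]

theorem norm_sum_lt {ι : Type} (s : Finset ι) (f : ι → K) {c : ℝ} (hc : 0 < c)
    (h : ∀ i ∈ s, ‖f i‖ < c) : ‖∑ i ∈ s, f i‖ < c := by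
  rcases s.eq_empty_or_nonempty with rfl | hs
  · simpa using hc
  · obtain ⟨i, hi, h1⟩ := exists_norm_finsetSum_le_of_nonempty hs f
    exact h1.trans_lt (h i hi)

theorem norm_add_lt {x y : K} {c : ℝ} (hx : ‖x‖ < c) (hy : ‖y‖ < c) : ‖x + y‖ < c :=
  (norm_add_le_max x y).trans_lt (max_lt hx hy)

theorem norm_sub_lt {x y : K} {c : ℝ} (hx : ‖x‖ < c) (hy : ‖y‖ < c) : ‖x - y‖ < c := by
  rw [sub_eq_add_neg]; exact norm_add_lt hx (by rwa [norm_neg])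

theorem norm_eq_of_lt {x y : K} (h : ‖x - y‖ < ‖y‖) : ‖x‖ = ‖y‖ := by
  have := norm_add_eq_max_of_norm_ne_norm h.ne
  rwa [sub_add_cancel, max_eq_right h.le] at this

theorem lead {ι : Type} (s : Finset ι) (f : ι → K)
    (h : ∀ i ∈ s, ∀ j ∈ s, f i ≠ 0 → f j ≠ 0 → ‖f i‖ = ‖f j‖ → i = j) {i0 : ι} (h0 : i0 ∈ s)
    (hf : f i0 ≠ 0) : ∃ i ∈ s, f i ≠ 0 ∧ ‖∑ j ∈ s, f j - f i‖ < ‖f i‖ ∧ ‖f i0‖ ≤ ‖f i‖ := by
  classical
  obtain ⟨i, hi, hm⟩ := exists_max_image s (fun j => ‖f j‖) ⟨i0, h0⟩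
  have hp : 0 < ‖f i‖ := (norm_pos_iff.2 hf).trans_le (hm i0 h0)
  refine ⟨i, hi, norm_pos_iff.1 hp, ?_, hm i0 h0⟩
  rw [← add_sum_erase s f hi, add_sub_cancel_left]
  refine norm_sum_lt _ _ hp fun j hj => ?_
  rcases eq_or_ne (f j) 0 with e | e
  · rwa [e, norm_zero]
  · exact (hm j (mem_of_mem_erase hj)).lt_of_ne fun e' =>
      ne_of_mem_erase hj (h j (mem_of_mem_erase hj) i hi e (norm_pos_iff.1 hp) e')

theorem norm_prod_sub_one {ι : Type} (s : Finset ι) (f : ι → K) (h : ∀ i ∈ s, ‖f i - 1‖ < 1) :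
    ‖∏ i ∈ s, f i - 1‖ < 1 := by
  refine prod_induction f (fun x => ‖x - 1‖ < 1) (fun a b ha hb => ?_) (by simp) h
  have h1 : ‖a‖ = 1 := by rw [norm_eq_of_lt (y := 1) (by rwa [norm_one]), norm_one]
  rw [show a * b - 1 = a * (b - 1) + (a - 1) by ring]
  exact norm_add_lt (by rwa [norm_mul, h1, one_mul]) ha

/-- A frame: a ring of constants, an ideal of it, and a group of monomials. -/
structure Fr (K : Type) [NormedField K] where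
  R : Subring K
  m : AddSubgroup K
  M : Set K
  normR : ∀ c ∈ R, c ≠ 0 → ‖c‖ = 1
  mR : ∀ a ∈ m, a ∈ R
  mul_m : ∀ c ∈ R, ∀ a ∈ m, c * a ∈ m
  one_not : (1 : K) ∉ m
  ne0 : ∀ x ∈ M, x ≠ 0
  oneM : (1 : K) ∈ M
  mulM : ∀ x ∈ M, ∀ y ∈ M, x * y ∈ M
  invM : ∀ x ∈ M, x⁻¹ ∈ M
  rad : ∀ (x : K) (n : ℕ), 0 < n → x ^ n ∈ M → x ∈ M
  unit : ∀ x ∈ M, ‖x‖ = 1 → x ∈ R
  inv_nat : ∀ n : ℕ, (n : K)⁻¹ ∈ R
  root : ∀ p : K[X], p ≠ 0 → (∀ i, p.coeff i = 0 ∨ (p.coeff i ∈ M ∧ ‖p.coeff i‖ = 1)) →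
    ∀ z, z ≠ 0 → p.IsRoot z → z ∈ M

namespace Fr

variable (Φ : Fr K)

/-- Elements whose leading term is a monomial. -/
def Good (x : K) : Prop := ∃ μ ∈ Φ.M, ‖x - μ‖ < ‖μ‖

/-- The closed group generated by the products of the ideal with monomials. -/
def J : AddSubgroup K :=
  (AddSubgroup.closure {y | ∃ a ∈ Φ.m, ∃ μ ∈ Φ.M, y = a * μ}).topologicalClosure

/-- The ring of multipliers of `J`. -/
def Lam : Subring K where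
  carrier := {x | ∀ y ∈ Φ.J, x * y ∈ Φ.J}
  mul_mem' ha hb y hy := by rw [mul_assoc]; exact ha _ (hb y hy)
  one_mem' y hy := by rwa [one_mul]
  add_mem' ha hb y hy := by rw [add_mul]; exact add_mem (ha y hy) (hb y hy)
  zero_mem' y _ := by rw [zero_mul]; exact zero_mem _
  neg_mem' ha y hy := by rw [neg_mul]; exact neg_mem (ha y hy)

variable {Φ}

theorem powM {x : K} (h : x ∈ Φ.M) (n : ℕ) : x ^ n ∈ Φ.M := by
  induction n with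
  | zero => rw [pow_zero]; exact Φ.oneM
  | succ n ih => rw [pow_succ]; exact Φ.mulM _ ih _ h

theorem good_of_mem {x : K} (h : x ∈ Φ.M) : Φ.Good x :=
  ⟨x, h, by simpa using Φ.ne0 x h⟩

theorem Good.ne_zero {x : K} (h : Φ.Good x) : x ≠ 0 := by
  rintro rfl
  obtain ⟨μ, -, h⟩ := h
  simp at h

theorem Good.close {x y : K} (h : Φ.Good y) (hx : ‖x - y‖ < ‖y‖) : Φ.Good x := by
  obtain ⟨μ, h1, h2⟩ := h
  refine ⟨μ, h1, ?_⟩
  rw [show x - μ = (x - y) + (y - μ) by ring]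
  exact norm_add_lt (by rwa [← norm_eq_of_lt h2]) h2

theorem Good.mul {x y : K} (hx : Φ.Good x) (hy : Φ.Good y) : Φ.Good (x * y) := by
  have h0 := norm_pos_iff.2 hx.ne_zero
  obtain ⟨μ, h1, h2⟩ := hx
  obtain ⟨ν, h3, h4⟩ := hy
  refine ⟨μ * ν, Φ.mulM _ h1 _ h3, ?_⟩
  rw [show x * y - μ * ν = x * (y - ν) + (x - μ) * ν by ring, norm_mul]
  refine norm_add_lt ?_ ?_
  · rw [norm_mul, ← norm_eq_of_lt h2]; exact mul_lt_mul_of_pos_left h4 h0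
  · rw [norm_mul]; exact mul_lt_mul_of_pos_right h2 (norm_pos_iff.2 (Φ.ne0 _ h3))

theorem Good.inv {x : K} (hx : Φ.Good x) : Φ.Good x⁻¹ := by
  have h0 := hx.ne_zero
  obtain ⟨μ, h1, h2⟩ := hx
  have h3 := Φ.ne0 _ h1
  refine ⟨μ⁻¹, Φ.invM _ h1, ?_⟩
  rw [show x⁻¹ - μ⁻¹ = -(x - μ) * x⁻¹ * μ⁻¹ by field_simp; ring, norm_mul, norm_mul, norm_neg]
  refine mul_lt_of_lt_one_left (norm_pos_iff.2 (inv_ne_zero h3)) ?_
  rw [norm_inv, ← div_eq_mul_inv, div_lt_one (norm_pos_iff.2 h0), norm_eq_of_lt h2]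
  exact h2

theorem Good.pow {x : K} (hx : Φ.Good x) (n : ℕ) : Φ.Good (x ^ n) := by
  induction n with
  | zero => rw [pow_zero]; exact good_of_mem Φ.oneM
  | succ n ih => rw [pow_succ]; exact ih.mul hx

theorem good_sum {ι : Type} (s : Finset ι) (f : ι → K) (hg : ∀ i ∈ s, f i ≠ 0 → Φ.Good (f i))
    (h : ∀ i ∈ s, ∀ j ∈ s, f i ≠ 0 → f j ≠ 0 → ‖f i‖ = ‖f j‖ → i = j) {i0 : ι} (h0 : i0 ∈ s)
    (hf : f i0 ≠ 0) : Φ.Good (∑ j ∈ s, f j) := by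
  obtain ⟨i, hi, h1, h2, -⟩ := lead s f h h0 hf
  exact (hg i hi h1).close h2

theorem closed_J : IsClosed (Φ.J : Set K) := AddSubgroup.isClosed_topologicalClosure _

theorem closed_Lam : IsClosed (Φ.Lam : Set K) := by
  have : (Φ.Lam : Set K) = ⋂ y ∈ Φ.J, (fun x => x * y) ⁻¹' Φ.J := by
    ext x; simp only [Set.mem_iInter]; rfl
  rw [this]
  exact isClosed_biInter fun y _ => closed_J.preimage (continuous_mul_const y)

theorem gen_mem {a μ : K} (ha : a ∈ Φ.m) (hμ : μ ∈ Φ.M) : a * μ ∈ Φ.J :=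
  AddSubgroup.le_topologicalClosure _ (AddSubgroup.subset_closure ⟨a, ha, μ, hμ, rfl⟩)

theorem mem_Lam {x : K} (h : ∀ a ∈ Φ.m, ∀ μ ∈ Φ.M, x * (a * μ) ∈ Φ.J) : x ∈ Φ.Lam :=
  AddSubgroup.topologicalClosure_minimal _ (t := Φ.J.comap (AddMonoidHom.mulLeft x))
    ((AddSubgroup.closure_le _).2 fun _ ⟨a, ha, μ, hμ, e⟩ => e ▸ h a ha μ hμ)
    (closed_J.preimage (continuous_const_mul x))

theorem R_Lam {c : K} (h : c ∈ Φ.R) : c ∈ Φ.Lam :=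
  mem_Lam fun a ha μ hμ => by rw [← mul_assoc]; exact gen_mem (Φ.mul_m c h a ha) hμ

theorem M_Lam {c : K} (h : c ∈ Φ.M) : c ∈ Φ.Lam :=
  mem_Lam fun a ha μ hμ => by rw [mul_left_comm]; exact gen_mem ha (Φ.mulM c h μ hμ)

theorem m_J {a x : K} (ha : a ∈ Φ.m) (hx : x ∈ Φ.Lam) : a * x ∈ Φ.J := by
  have := hx _ (gen_mem ha Φ.oneM)
  rwa [mul_one, mul_comm] at this

theorem one_far {y : K} (hy : y ∈ AddSubgroup.closure {y | ∃ a ∈ Φ.m, ∃ μ ∈ Φ.M, y = a * μ}) :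
    1 ≤ ‖1 - y‖ := by
  classical
  obtain ⟨s, hs⟩ : ∃ s : ℝ → K, ∀ ρ, (s ρ = 0 ∨ ‖s ρ‖ = ρ) ∧
      ∀ μ ∈ Φ.M, ‖μ‖ = ρ → s ρ ∈ Φ.M ∧ ‖s ρ‖ = ρ := by
    refine ⟨fun ρ => if h : ∃ μ ∈ Φ.M, ‖μ‖ = ρ then h.choose else 0, fun ρ => ?_⟩
    by_cases h : ∃ μ ∈ Φ.M, ‖μ‖ = ρ
    · simp only [dif_pos h]
      exact ⟨Or.inr h.choose_spec.2, fun _ _ _ => h.choose_spec⟩
    · simp only [dif_neg h]
      exact ⟨Or.inl trivial, fun μ h1 h2 => absurd ⟨μ, h1, h2⟩ h⟩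
  have hu : ∀ μ ∈ Φ.M, μ * (s ‖μ‖)⁻¹ ∈ Φ.R ∧ μ = μ * (s ‖μ‖)⁻¹ * s ‖μ‖ := fun μ hμ => by
    obtain ⟨h1, h2⟩ := (hs _).2 μ hμ rfl
    refine ⟨Φ.unit _ (Φ.mulM _ hμ _ (Φ.invM _ h1)) ?_, ?_⟩
    · rw [norm_mul, norm_inv, h2, mul_inv_cancel₀ (norm_ne_zero_iff.2 (Φ.ne0 _ hμ))]
    · rw [inv_mul_cancel_right₀ (Φ.ne0 _ h1)]
  obtain ⟨b, hb, rfl⟩ : ∃ b : ℝ →₀ K, (∀ ρ, b ρ ∈ Φ.m) ∧ y = b.sum fun ρ c => c * s ρ := by
    induction hy using AddSubgroup.closure_induction with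
    | mem x hx =>
      obtain ⟨a, ha, μ, hμ, rfl⟩ := hx
      refine ⟨Finsupp.single ‖μ‖ (μ * (s ‖μ‖)⁻¹ * a), fun ρ => ?_, ?_⟩
      · rw [Finsupp.single_apply]
        split_ifs
        · exact Φ.mul_m _ (hu μ hμ).1 a ha
        · exact zero_mem _
      · rw [Finsupp.sum_single_index (zero_mul _), mul_right_comm, ← (hu μ hμ).2, mul_comm]
    | zero => exact ⟨0, fun _ => zero_mem _, by simp⟩
    | add x y _ _ hx hy =>
      obtain ⟨b, h1, rfl⟩ := hx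
      obtain ⟨c, h2, rfl⟩ := hy
      exact ⟨b + c, fun ρ => add_mem (h1 ρ) (h2 ρ),
        (Finsupp.sum_add_index' (fun _ => zero_mul _) fun _ _ _ => add_mul _ _ _).symm⟩
    | neg x _ hx =>
      obtain ⟨b, h1, rfl⟩ := hx
      exact ⟨-b, fun ρ => neg_mem (h1 ρ), by rw [Finsupp.sum_neg_index (fun _ => zero_mul _)]; simp [Finsupp.sum]⟩
  obtain ⟨h1, h2⟩ := (hs 1).2 1 Φ.oneM norm_one
  have h3 : (s 1)⁻¹ ∈ Φ.R := Φ.unit _ (Φ.invM _ h1) (by rw [norm_inv, h2, inv_one])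
  let c : ℝ →₀ K := Finsupp.single 1 (s 1)⁻¹ - b
  have hc : ∀ ρ, c ρ ∈ Φ.R := fun ρ => by
    refine sub_mem ?_ (Φ.mR _ (hb ρ))
    rw [Finsupp.single_apply]
    split_ifs
    · exact h3
    · exact zero_mem _
  have e : (1 - b.sum fun ρ c => c * s ρ) = ∑ ρ ∈ c.support, c ρ * s ρ := by
    show _ = c.sum fun ρ c => c * s ρ
    rw [Finsupp.sum_sub_index (fun _ _ _ => sub_mul _ _ _), Finsupp.sum_single_index (zero_mul _),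
      inv_mul_cancel₀ (Φ.ne0 _ h1)]
  have hn : ∀ ρ, c ρ * s ρ ≠ 0 → ‖c ρ * s ρ‖ = ρ := fun ρ h => by
    rw [norm_mul, Φ.normR _ (hc ρ) (left_ne_zero_of_mul h), one_mul]
    exact (hs ρ).1.resolve_left (right_ne_zero_of_mul h)
  have h4 : c 1 ≠ 0 := fun h => Φ.one_not <| by
    have h5 : (s 1)⁻¹ = b 1 := by simpa [c, sub_eq_zero] using h
    have := Φ.mul_m _ (Φ.unit _ h1 h2) _ (hb 1)
    rwa [← h5, mul_inv_cancel₀ (Φ.ne0 _ h1)] at this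
  have h5 := mul_ne_zero h4 (Φ.ne0 _ h1)
  obtain ⟨i, -, -, h6, h7⟩ := lead c.support (fun ρ => c ρ * s ρ)
    (fun i _ j _ hi hj e => by rw [← hn i hi, e, hn j hj]) (Finsupp.mem_support_iff.2 h4) h5
  rw [e, norm_eq_of_lt h6]
  rwa [hn 1 h5] at h7

theorem Good.not_J {x : K} (hx : Φ.Good x) : x ∉ Φ.J := fun h => by
  obtain ⟨μ, h1, h2⟩ := hx
  have h0 := Φ.ne0 _ h1
  have h3 : μ⁻¹ * x ∈ Φ.J := M_Lam (Φ.invM _ h1) x h
  obtain ⟨y, hy, h4⟩ := Metric.mem_closure_iff.1 h3 1 one_pos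
  refine absurd (one_far hy) (not_le.2 ?_)
  rw [show 1 - y = (μ⁻¹ * x - y) - (x - μ) * μ⁻¹ by field_simp; ring]
  refine norm_sub_lt (by rwa [← dist_eq_norm]) ?_
  rwa [norm_mul, norm_inv, ← div_eq_mul_inv, div_lt_one (norm_pos_iff.2 h0)]

theorem Good.inv_Lam {x : K} (hx : Φ.Good x) (h : x ∈ Φ.Lam) : x⁻¹ ∈ Φ.Lam := by
  have hx0 := hx.ne_zero
  obtain ⟨μ, h1, h2⟩ := hx
  have h0 := Φ.ne0 _ h1
  have h3 : μ⁻¹ ∈ Φ.Lam := M_Lam (Φ.invM _ h1)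
  have h4 : ‖1 - x * μ⁻¹‖ < 1 := by
    rw [show 1 - x * μ⁻¹ = -(x - μ) * μ⁻¹ by field_simp; ring]
    rwa [norm_mul, norm_neg, norm_inv, ← div_eq_mul_inv, div_lt_one (norm_pos_iff.2 h0)]
  have h5 := (hasSum_geometric_of_norm_lt_one h4).tendsto_sum_nat
  have h6 : (1 - (1 - x * μ⁻¹))⁻¹ ∈ Φ.Lam := closed_Lam.mem_of_tendsto h5 (Eventually.of_forall fun n =>
    sum_mem fun i _ => Φ.Lam.pow_mem (sub_mem (one_mem _) (mul_mem h h3)) i)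
  have := mul_mem h6 h3
  rwa [show (1 - (1 - x * μ⁻¹))⁻¹ * μ⁻¹ = x⁻¹ by rw [sub_sub_cancel]; field_simp] at this

end Fr

end Pool.Agent.P.MP_08e617_lc.Dv
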