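import Pool.Agent.P.MP_08e617_lc.DvA

/-! Roots of polynomials with good coefficients are good; the cluster lemma. -/

set_option linter.unusedSectionVars false

namespace Pool.Agent.P.MP_08e617_lc.Dv

open Finset Polynomial Filter Topology IsUltrametricDist

variable {K : Type} [NormedField K] [IsUltrametricDist K]

theorem near_root [IsAlgClosed K] {p : K[X]} (h1 : ‖p.leadingCoeff‖ = 1) {y : K}
    (h2 : ‖p.eval y‖ < 1) : ∃ z, p.IsRoot z ∧ ‖y - z‖ < 1 := by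
  by_contra h
  push Not at h
  rw [(IsAlgClosed.splits p).eval_eq_prod_roots, norm_mul, h1, one_mul] at h2
  refine absurd h2 (not_lt.2 ?_)
  refine Multiset.prod_induction (fun x => 1 ≤ ‖x‖) _ (fun a b ha hb => ?_) (by simp) fun x hx => ?_
  · rw [norm_mul]; exact one_le_mul_of_one_le_of_one_le ha hb
  · obtain ⟨z, hz, rfl⟩ := Multiset.mem_map.1 hx
    exact h z (mem_roots'.1 hz).2

theorem norm_one_sub_pow {u : K} (h : ‖u‖ ≤ 1) (n : ℕ) : ‖1 - u ^ n‖ ≤ ‖1 - u‖ := by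
  rw [← mul_neg_geom_sum, norm_mul]
  refine mul_le_of_le_one_right (norm_nonneg _) ?_
  exact norm_sum_le_of_forall_le_of_nonneg zero_le_one fun i _ => by
    rw [norm_pow]; exact pow_le_one₀ (norm_nonneg _) h

theorem lim_one {z : K} (h : ‖z - 1‖ < 1) :
    Tendsto (fun n : ℕ => 1 - (1 - z ^ n) ^ n) atTop (𝓝 1) := by
  have h1 : ‖z‖ = 1 := by rw [norm_eq_of_lt (y := 1) (by rwa [norm_one]), norm_one]
  have h2 : Tendsto (fun n : ℕ => (1 - z ^ n) ^ n) atTop (𝓝 0) := by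
    refine squeeze_zero_norm (fun n => ?_) (tendsto_pow_atTop_nhds_zero_of_lt_one (norm_nonneg _) h)
    rw [norm_pow, norm_sub_rev z]
    exact pow_le_pow_left₀ (norm_nonneg _) (norm_one_sub_pow h1.le n) n
  simpa using h2.const_sub 1

theorem lim_zero {z : K} (h : ‖z‖ < 1) :
    Tendsto (fun n : ℕ => 1 - (1 - z ^ n) ^ n) atTop (𝓝 0) := by
  refine squeeze_zero_norm (fun n => ?_) (tendsto_pow_atTop_nhds_zero_of_lt_one (norm_nonneg _) h)
  have h1 : ‖1 - z ^ n‖ ≤ 1 := by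
    rw [sub_eq_add_neg]
    refine (norm_add_le_max _ _).trans (max_le norm_one.le ?_)
    rw [norm_neg, norm_pow]; exact pow_le_one₀ (norm_nonneg _) h.le
  simpa using norm_one_sub_pow h1 n

namespace Fr

variable {Φ : Fr K}

theorem norm_mono [IsAlgClosed K] {n : ℕ} {c : ℕ → K} (hc : ∀ i < n, c i ≠ 0 → Φ.Good (c i))
    {i0 : ℕ} (h0 : i0 < n) (hi0 : c i0 ≠ 0) {x : K} (hx : x ≠ 0)
    (h : ∑ i ∈ range n, c i * x ^ i = 0) : ∃ ν ∈ Φ.M, ‖ν‖ = ‖x‖ := by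
  by_contra hn
  have key : ∀ i j, i < n → j < n → c i ≠ 0 → c j ≠ 0 → ‖c i * x ^ i‖ = ‖c j * x ^ j‖ →
      ¬ i < j := fun i j hi hj h1 h2 e hij => by
    obtain ⟨μ, h3, h4⟩ := hc i hi h1
    obtain ⟨μ', h5, h6⟩ := hc j hj h2
    obtain ⟨d, rfl⟩ := Nat.exists_eq_add_of_lt hij
    obtain ⟨ν, hν⟩ := IsAlgClosed.exists_pow_nat_eq (μ * μ'⁻¹) d.succ_pos
    refine hn ⟨ν, Φ.rad ν _ d.succ_pos (hν ▸ Φ.mulM _ h3 _ (Φ.invM _ h5)), ?_⟩
    rw [← pow_left_inj₀ (norm_nonneg _) (norm_nonneg _) d.succ_ne_zero, ← norm_pow, hν, norm_mul,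
      norm_inv, ← norm_eq_of_lt h4, ← norm_eq_of_lt h6,
      mul_inv_eq_iff_eq_mul₀ (norm_ne_zero_iff.2 h2)]
    rw [add_assoc, pow_add, norm_mul, norm_mul, norm_mul, ← add_assoc] at e
    refine mul_right_cancel₀ (norm_ne_zero_iff.2 (pow_ne_zero i hx)) (e.trans ?_)
    rw [norm_pow x (d + 1), Nat.succ_eq_add_one]; ring
  obtain ⟨i, -, -, h1, -⟩ := lead (range n) (fun i => c i * x ^ i) (fun i hi j hj h1 h2 e =>
    le_antisymm
      (not_lt.1 (key j i (mem_range.1 hj) (mem_range.1 hi) (left_ne_zero_of_mul h2)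
        (left_ne_zero_of_mul h1) e.symm))
      (not_lt.1 (key i j (mem_range.1 hi) (mem_range.1 hj) (left_ne_zero_of_mul h1)
        (left_ne_zero_of_mul h2) e))) (mem_range.2 h0) (mul_ne_zero hi0 (pow_ne_zero _ hx))
  rw [h, zero_sub, norm_neg] at h1
  exact lt_irrefl _ h1

theorem good_root [IsAlgClosed K] {n : ℕ} {c : ℕ → K} (hc : ∀ i < n, c i ≠ 0 → Φ.Good (c i))
    {i0 : ℕ} (h0 : i0 < n) (hi0 : c i0 ≠ 0) {x : K} (hx : x ≠ 0)
    (h : ∑ i ∈ range n, c i * x ^ i = 0) : Φ.Good x := by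
  obtain ⟨ν, h1, h2⟩ := norm_mono hc h0 hi0 hx h
  have hν := Φ.ne0 _ h1
  obtain ⟨i1, h3, h4⟩ := exists_max_image (range n) (fun i => ‖c i * ν ^ i‖) ⟨i0, mem_range.2 h0⟩
  have h5 : c i1 ≠ 0 := left_ne_zero_of_mul (norm_pos_iff.1
    ((norm_pos_iff.2 (mul_ne_zero hi0 (pow_ne_zero _ hν))).trans_le (h4 i0 (mem_range.2 h0))))
  obtain ⟨μ, h6, h7⟩ := (hc i1 (mem_range.1 h3) h5).mul (good_of_mem (powM h1 i1))
  have hμ := norm_pos_iff.2 (Φ.ne0 _ h6)
  have h8 : ‖c i1 * ν ^ i1 * μ⁻¹‖ = 1 := by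
    rw [norm_mul, norm_eq_of_lt h7, norm_inv, mul_inv_cancel₀ hμ.ne']
  have hd : ∀ i, ∃ d : K, (d = 0 ∨ (d ∈ Φ.M ∧ ‖d‖ = 1)) ∧
      (i < n → ‖d - c i * ν ^ i * μ⁻¹‖ < 1) := fun i => by
    by_cases hi : i < n
    · have h9 : ‖c i * ν ^ i * μ⁻¹‖ ≤ 1 := by
        rw [← h8, norm_mul, norm_mul _ μ⁻¹]
        exact mul_le_mul_of_nonneg_right (h4 i (mem_range.2 hi)) (norm_nonneg _)
      rcases h9.eq_or_lt with e | e
      · have h10 : c i ≠ 0 := fun h => by simp [h] at e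
        obtain ⟨d, h11, h12⟩ := ((hc i hi h10).mul (good_of_mem (powM h1 i))).mul
          (good_of_mem (Φ.invM _ h6))
        have h13 : ‖d‖ = 1 := by rw [← norm_eq_of_lt h12, e]
        exact ⟨d, Or.inr ⟨h11, h13⟩, fun _ => by rwa [norm_sub_rev, ← h13]⟩
      · exact ⟨0, Or.inl rfl, fun _ => by rwa [zero_sub, norm_neg]⟩
    · exact ⟨0, Or.inl rfl, fun h => absurd h hi⟩
  choose d hd1 hd2 using hd
  let p : K[X] := ∑ i ∈ range n, monomial i (d i)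
  have hp : ∀ i, p.coeff i = if i < n then d i else 0 := fun i => by
    simp [p, coeff_monomial]
  have hp1 : ∀ i, p.coeff i = 0 ∨ (p.coeff i ∈ Φ.M ∧ ‖p.coeff i‖ = 1) := fun i => by
    rw [hp]; split_ifs
    · exact hd1 i
    · exact Or.inl rfl
  have hp0 : p ≠ 0 := fun e => by
    have h9 := hp i1
    rw [e, coeff_zero, if_pos (mem_range.1 h3)] at h9
    have := hd2 i1 (mem_range.1 h3)
    rw [← h9, zero_sub, norm_neg, h8] at this
    exact lt_irrefl _ this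
  have hy : ‖x * ν⁻¹‖ = 1 := by
    rw [norm_mul, norm_inv, h2, mul_inv_cancel₀ (norm_ne_zero_iff.2 hx)]
  have he : p.eval (x * ν⁻¹) = ∑ i ∈ range n, (d i - c i * ν ^ i * μ⁻¹) * (x * ν⁻¹) ^ i := by
    have : ∑ i ∈ range n, c i * ν ^ i * μ⁻¹ * (x * ν⁻¹) ^ i = 0 := by
      rw [← zero_mul μ⁻¹, ← h, sum_mul]
      exact sum_congr rfl fun i _ => by rw [mul_pow, inv_pow]; field_simp
    simp only [sub_mul, sum_sub_distrib, this, sub_zero, p, eval_finsetSum, eval_monomial]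
  obtain ⟨z, hz, hz1⟩ := near_root ((hp1 p.natDegree).resolve_left (leadingCoeff_ne_zero.2 hp0)).2
    (y := x * ν⁻¹) (he ▸ norm_sum_lt _ _ one_pos fun i hi => by
      rw [norm_mul, norm_pow, hy, one_pow, mul_one]; exact hd2 i (mem_range.1 hi))
  have hz2 : ‖z‖ = 1 := by
    rw [norm_eq_of_lt (y := x * ν⁻¹) (by rwa [norm_sub_rev, hy]), hy]
  refine ⟨z * ν, Φ.mulM _ (Φ.root p hp0 hp1 z (by rintro rfl; simp at hz2) hz) _ h1, ?_⟩
  rw [show x - z * ν = (x * ν⁻¹ - z) * ν by field_simp, norm_mul, norm_mul, hz2]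
  exact mul_lt_mul_of_pos_right hz1 (norm_pos_iff.2 hν)

theorem sum_aeval {ι : Type} (α : ι → K) (s : Finset ι) (hp : ∀ n : ℕ, ∑ i ∈ s, α i ^ n ∈ Φ.Lam)
    (g : Φ.Lam[X]) : ∑ i ∈ s, aeval (α i) g ∈ Φ.Lam := by
  induction g using Polynomial.induction_on' with
  | add p q h1 h2 => simp only [map_add, sum_add_distrib]; exact add_mem h1 h2
  | monomial n a => simp only [aeval_monomial, ← mul_sum]; exact mul_mem a.2 (hp n)

theorem cluster [CharZero K] {ι : Type} (α : ι → K) (s : Finset ι) :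
    (∀ i ∈ s, ∀ j ∈ s, α i - α j ≠ 0 → Φ.Good (α i - α j)) →
    (∀ n : ℕ, ∑ i ∈ s, α i ^ n ∈ Φ.Lam) → ∀ i ∈ s, α i ∈ Φ.Lam := by
  classical
  induction s using Finset.strongInduction with
  | H s ih =>
  intro hd hp i0 h0
  have hc : (s.card : K) ≠ 0 := Nat.cast_ne_zero.2 (card_pos.2 ⟨i0, h0⟩).ne'
  have hc1 : (s.card : K)⁻¹ ∈ Φ.Lam := R_Lam (Φ.inv_nat _)
  have hc2 : ‖(s.card : K)⁻¹‖ = 1 := Φ.normR _ (Φ.inv_nat _) (inv_ne_zero hc)
  have hp1 : ∑ i ∈ s, α i ∈ Φ.Lam := by simpa using hp 1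
  obtain ⟨j0, hj0, hmax⟩ := exists_max_image s (fun j => ‖α i0 - α j‖) ⟨i0, h0⟩
  set γ := ‖α i0 - α j0‖ with hγ
  rcases (norm_nonneg (α i0 - α j0)).eq_or_lt with hz | hz
  · have : α i0 = (s.card : K)⁻¹ * ∑ i ∈ s, α i := by
      rw [sum_congr rfl fun j hj => (sub_eq_zero.1 (norm_le_zero_iff.1
        ((hmax j hj).trans hz.ge))).symm, sum_const, nsmul_eq_mul, inv_mul_cancel_left₀ hc]
    rw [this]; exact mul_mem hc1 hp1
  rw [← hγ] at hz
  have hm : ∀ j, ∃ μ ∈ Φ.M, j ∈ s → ¬ ‖α i0 - α j‖ < γ → ‖α i0 - α j - μ‖ < γ ∧ ‖μ‖ = γ :=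
    fun j => by
      by_cases hj : j ∈ s ∧ ¬ ‖α i0 - α j‖ < γ
      · have e : ‖α i0 - α j‖ = γ := (hmax j hj.1).antisymm (not_lt.1 hj.2)
        obtain ⟨μ, h1, h2⟩ := hd i0 h0 j hj.1 (norm_pos_iff.1 (e ▸ hz))
        have e2 : ‖μ‖ = γ := by rw [← norm_eq_of_lt h2, e]
        exact ⟨μ, h1, fun _ _ => ⟨e2 ▸ h2, e2⟩⟩
      · exact ⟨1, Φ.oneM, fun h1 h2 => absurd ⟨h1, h2⟩ hj⟩
  choose m hm1 hm2 using hm
  let C0 := s.filter fun j => ‖α i0 - α j‖ < γ
  let C1 := s.filter fun j => ¬ ‖α i0 - α j‖ < γ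
  let a : Φ.Lam := ⟨(s.card : K)⁻¹ * (∑ i ∈ s, α i + ∑ j ∈ C1, m j),
    mul_mem hc1 (add_mem hp1 (sum_mem fun j _ => M_Lam (hm1 j)))⟩
  have ha : ‖α i0 - a‖ < γ := by
    have e : α i0 - a = (s.card : K)⁻¹ *
        (∑ j ∈ C0, (α i0 - α j) + ∑ j ∈ C1, (α i0 - α j - m j)) := by
      rw [sum_sub_distrib _ m, ← add_sub_assoc, sum_filter_add_sum_filter_not, sum_sub_distrib,
        sum_const, nsmul_eq_mul]
      simp only [a]
      field_simp
      ring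
    rw [e, norm_mul, hc2, one_mul]
    exact norm_add_lt (norm_sum_lt _ _ hz fun j hj => (mem_filter.1 hj).2)
      (norm_sum_lt _ _ hz fun j hj => (hm2 j (mem_filter.1 hj).1 (mem_filter.1 hj).2).1)
  let χ : Φ.Lam[X] := ∏ j ∈ C1, (X - C a + C ⟨m j, M_Lam (hm1 j)⟩) *
    C ⟨(m j)⁻¹, M_Lam (Φ.invM _ (hm1 j))⟩
  have hχ : ∀ x : K, aeval x χ = ∏ j ∈ C1, (x - a + m j) * (m j)⁻¹ := fun x => by
    simp only [χ, map_prod, map_mul, map_add, map_sub, aeval_X, aeval_C]; rfl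
  have hn : ∀ j ∈ C1, ∀ x : K, ‖x * (m j)⁻¹‖ = ‖x‖ / γ := fun j hj x => by
    rw [norm_mul, norm_inv, (hm2 j (mem_filter.1 hj).1 (mem_filter.1 hj).2).2, div_eq_mul_inv]
  have h1 : ∀ i ∈ C0, ‖aeval (α i) χ - 1‖ < 1 := fun i hi => by
    rw [hχ]
    refine norm_prod_sub_one _ _ fun j hj => ?_
    have := Φ.ne0 _ (hm1 j)
    rw [show (α i - a + m j) * (m j)⁻¹ - 1 = (α i0 - a - (α i0 - α i)) * (m j)⁻¹ by
      field_simp; ring, hn j hj, div_lt_one hz]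
    exact norm_sub_lt ha (mem_filter.1 hi).2
  have h2 : ∀ i ∈ C1, ‖aeval (α i) χ‖ < 1 := fun i hi => by
    have hi' := mem_filter.1 hi
    rw [hχ, ← mul_prod_erase _ _ hi, norm_mul, norm_prod]
    refine mul_lt_one_of_nonneg_of_lt_one_left (norm_nonneg _) ?_
      (prod_le_one (fun _ _ => norm_nonneg _) fun j hj => ?_)
    · rw [hn i hi, div_lt_one hz, show α i - a + m i = α i0 - a - (α i0 - α i - m i) by ring]
      exact norm_sub_lt ha (hm2 i hi'.1 hi'.2).1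
    · have hj' := mem_filter.1 (mem_of_mem_erase hj)
      rw [hn j (mem_of_mem_erase hj), div_le_one hz,
        show α i - a + m j = α i0 - a + (-(α i0 - α i) + m j) by ring]
      refine (norm_add_le_max _ _).trans (max_le ha.le ((norm_add_le_max _ _).trans (max_le ?_
        (hm2 j hj'.1 hj'.2).2.le)))
      rw [norm_neg]; exact hmax i hi'.1
  refine ih C0 (filter_ssubset.2 ⟨j0, hj0, lt_irrefl _⟩)
    (fun i hi j hj => hd i (mem_filter.1 hi).1 j (mem_filter.1 hj).1) (fun n => ?_) i0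
    (mem_filter.2 ⟨h0, by simpa using hz⟩)
  have h3 : Tendsto (fun N : ℕ => ∑ i ∈ s, α i ^ n * (1 - (1 - aeval (α i) χ ^ N) ^ N)) atTop
      (𝓝 (∑ i ∈ C0, α i ^ n)) := by
    rw [sum_filter]
    refine tendsto_finsetSum _ fun i hi => ?_
    split_ifs with h
    · simpa using (lim_one (h1 i (mem_filter.2 ⟨hi, h⟩))).const_mul (α i ^ n)
    · simpa using (lim_zero (h2 i (mem_filter.2 ⟨hi, h⟩))).const_mul (α i ^ n)
  exact closed_Lam.mem_of_tendsto h3 (Eventually.of_forall fun N => SetLike.mem_coe.2 <| by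
    have h4 := sum_aeval α s hp (X ^ n * (1 - (1 - χ ^ N) ^ N))
    rwa [sum_congr rfl fun i _ => by
      rw [map_mul, map_pow, aeval_X, map_sub, map_one, map_pow, map_sub, map_one, map_pow]] at h4)

theorem roots_Lam [CharZero K] [IsAlgClosed K] {p : K[X]} (h1 : ∀ i, p.coeff i ∈ Φ.Lam)
    (h2 : Φ.Good p.leadingCoeff)
    (h3 : ∀ x y, p.IsRoot x → p.IsRoot y → x - y ≠ 0 → Φ.Good (x - y)) {x : K}
    (hx : p.IsRoot x) : x ∈ Φ.Lam := by
  classical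
  have hp : p ≠ 0 := leadingCoeff_ne_zero.1 h2.ne_zero
  let α : p.roots.ToType → K := fun i => i.1
  have hα : (univ : Finset p.roots.ToType).val.map α = p.roots := Multiset.map_univ_coe _
  have hr : ∀ i, p.IsRoot (α i) := fun i => (mem_roots'.1 (Multiset.coe_mem (x := i))).2
  have he : ∀ n, p.roots.esymm n ∈ Φ.Lam := fun n => by
    by_cases hn : n ≤ p.natDegree
    · have e := coeff_eq_esymm_roots_of_card (IsAlgClosed.card_roots_eq_natDegree (p := p))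
        (Nat.sub_le _ n)
      rw [Nat.sub_sub_self hn] at e
      have : p.roots.esymm n = p.leadingCoeff⁻¹ * (-1) ^ n * p.coeff (p.natDegree - n) := by
        rw [e, show ∀ a b c d : K, a * b * (c * b * d) = a * c * (b * b) * d by intros; ring,
          ← mul_pow, inv_mul_cancel₀ h2.ne_zero]
        simp
      rw [this]
      exact mul_mem (mul_mem (h2.inv_Lam (h1 _)) (pow_mem (neg_mem (one_mem _)) n)) (h1 _)
    · rw [Multiset.esymm, Multiset.powersetCard_eq_empty _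
        (by rw [IsAlgClosed.card_roots_eq_natDegree]; omega)]
      simp
  have hs : ∀ n : ℕ, ∑ i, α i ^ n ∈ Φ.Lam := fun n => by
    induction n using Nat.strong_induction_on with
    | _ n ih =>
    rcases n.eq_zero_or_pos with rfl | hn
    · simp
    have e := congrArg (MvPolynomial.aeval α)
      (MvPolynomial.psum_eq_mul_esymm_sub_sum p.roots.ToType ℤ n hn)
    simp only [map_sub, map_mul, map_sum, map_pow, map_neg, map_one, map_natCast,
      MvPolynomial.aeval_esymm_eq_multiset_esymm, hα, MvPolynomial.psum, MvPolynomial.aeval_X] at e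
    rw [e]
    refine sub_mem (mul_mem (mul_mem (pow_mem (neg_mem (one_mem _)) _) (natCast_mem _ _)) (he _))
      (sum_mem fun a ha => mul_mem (mul_mem (pow_mem (neg_mem (one_mem _)) _) (he _)) (ih _ ?_))
    obtain ⟨h4, h5⟩ := mem_filter.1 ha
    have := mem_antidiagonal.1 h4
    have := h5.1
    omega
  exact cluster α univ (fun i _ j _ => h3 _ _ (hr i) (hr j)) hs
    ⟨x, ⟨0, Multiset.count_pos.2 ((mem_roots hp).2 hx)⟩⟩ (mem_univ _)

end Fr

end Pool.Agent.P.MP_08e617_lc.Dv
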