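import Pool.Agent.P.MP_08e617_lc.DvB

/-! Filtrations, bounded linear dependences, and the core of the argument. -/

set_option linter.unusedSectionVars false

namespace Pool.Agent.P.MP_08e617_lc.Dv

open Finset Polynomial

section Alg

variable {K : Type} [Field K]

/-- A multiplicative filtration. -/
structure Fil (K : Type) [Field K] where
  F : ℕ → AddSubgroup K
  one : 1 ∈ F 0
  mono : ∀ {a b : ℕ}, a ≤ b → ∀ {x : K}, x ∈ F a → x ∈ F b
  mul : ∀ {a b : ℕ} {x y : K}, x ∈ F a → y ∈ F b → x * y ∈ F (a + b)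

/-- Sums of products of a coefficient and a member of `W`. -/
def sp (G : AddSubgroup K) (W : Set K) : AddSubgroup K :=
  AddSubgroup.closure {y | ∃ b ∈ G, ∃ w ∈ W, y = b * w}

theorem mem_sp {G : AddSubgroup K} {W : Set K} {b w : K} (hb : b ∈ G) (hw : w ∈ W) :
    b * w ∈ sp G W := AddSubgroup.subset_closure ⟨b, hb, w, hw, rfl⟩

theorem sp_mul {G H : AddSubgroup K} {W : Set K} {v u : K} (h : ∀ b ∈ G, ∀ w ∈ W, b * w * v ∈ H)
    (hu : u ∈ sp G W) : u * v ∈ H :=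
  (AddSubgroup.closure_le (H.comap (AddMonoidHom.mulRight v))).2
    (by rintro _ ⟨b, hb, w, hw, rfl⟩; exact h b hb w hw) hu

theorem sp_le {G H : AddSubgroup K} {W : Set K} {u : K} (h : ∀ b ∈ G, ∀ w ∈ W, b * w ∈ H)
    (hu : u ∈ sp G W) : u ∈ H :=
  (AddSubgroup.closure_le H).2 (by rintro _ ⟨b, hb, w, hw, rfl⟩; exact h b hb w hw) hu

theorem sp_rep {G : AddSubgroup K} {W : Set K} {ι : Type} [Fintype ι] (w : ι → K)
    (hW : W ⊆ Set.range w) {x : K} (hx : x ∈ sp G W) :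
    ∃ b : ι → K, (∀ i, b i ∈ G) ∧ x = ∑ i, b i * w i := by
  classical
  induction hx using AddSubgroup.closure_induction with
  | mem x hx =>
    obtain ⟨b, hb, v, hv, rfl⟩ := hx
    obtain ⟨i, rfl⟩ := hW hv
    refine ⟨fun j => if j = i then b else 0, fun j => ?_, by simp⟩
    dsimp only
    split_ifs
    · exact hb
    · exact zero_mem _
  | zero => exact ⟨0, fun _ => zero_mem _, by simp⟩
  | add x y _ _ hx hy =>
    obtain ⟨b, h1, rfl⟩ := hx
    obtain ⟨c, h2, rfl⟩ := hy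
    exact ⟨b + c, fun i => add_mem (h1 i) (h2 i), by simp [add_mul, sum_add_distrib]⟩
  | neg x _ hx =>
    obtain ⟨b, h1, rfl⟩ := hx
    exact ⟨-b, fun i => neg_mem (h1 i), by simp⟩

namespace Fil

variable (F : Fil K)

theorem prod {ι : Type} (s : Finset ι) (f : ι → K) (a : ι → ℕ) (h : ∀ i ∈ s, f i ∈ F.F (a i)) :
    ∏ i ∈ s, f i ∈ F.F (∑ i ∈ s, a i) := by
  classical
  induction s using Finset.induction_on with
  | empty => simpa using F.one
  | insert i s hi ih =>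
    rw [prod_insert hi, sum_insert hi]
    exact F.mul (h i (mem_insert_self _ _)) (ih fun j hj => h j (mem_insert_of_mem hj))

theorem pow {x : K} {a : ℕ} (h : x ∈ F.F a) (n : ℕ) : x ^ n ∈ F.F (n * a) := by
  simpa using F.prod (range n) (fun _ => x) (fun _ => a) fun _ _ => h

theorem ker {ι κ : Type} (s : Finset ι) : ∀ (t : Finset κ) (a : ℕ) (A : ι → κ → K),
    s.card < t.card → (∀ i ∈ s, ∀ l ∈ t, A i l ∈ F.F a) →
    ∃ x : κ → K, (∀ l, x l ∈ F.F (3 ^ s.card * a)) ∧ (∃ l ∈ t, x l ≠ 0) ∧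
      ∀ i ∈ s, ∑ l ∈ t, x l * A i l = 0 := by
  classical
  induction s using Finset.induction_on with
  | empty =>
    intro t a A ht _
    obtain ⟨l, hl⟩ := card_pos.1 ht
    exact ⟨fun _ => 1, fun _ => F.mono (Nat.zero_le _) F.one, ⟨l, hl, one_ne_zero⟩, by simp⟩
  | insert i0 s hi ih =>
    intro t a A ht hA
    rw [card_insert_of_notMem hi] at ht ⊢
    have h3 : 1 ≤ 3 ^ s.card := Nat.one_le_pow _ _ (by norm_num)
    by_cases h0 : ∀ l ∈ t, A i0 l = 0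
    · obtain ⟨x, h1, h2, h4⟩ := ih t a A (by omega) fun i hi => hA i (mem_insert_of_mem hi)
      refine ⟨x, fun l => F.mono (by rw [pow_succ]; nlinarith) (h1 l), h2, fun i hi => ?_⟩
      rcases mem_insert.1 hi with rfl | hi
      · exact sum_eq_zero fun l hl => by rw [h0 l hl, mul_zero]
      · exact h4 i hi
    push Not at h0
    obtain ⟨l0, hl0, hp⟩ := h0
    have hA0 := hA i0 (mem_insert_self _ _)
    obtain ⟨y, h1, ⟨l1, hl1, h2⟩, h4⟩ := ih (t.erase l0) (a + a)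
      (fun i l => A i0 l0 * A i l - A i l0 * A i0 l) (by rw [card_erase_of_mem hl0]; omega)
      fun i hi l hl => sub_mem
        (F.mul (hA0 l0 hl0) (hA i (mem_insert_of_mem hi) l (mem_of_mem_erase hl)))
        (F.mul (hA i (mem_insert_of_mem hi) l0 hl0) (hA0 l (mem_of_mem_erase hl)))
    have hle : 3 ^ s.card * (a + a) + a ≤ 3 ^ (s.card + 1) * a := by rw [pow_succ]; nlinarith
    refine ⟨fun l => if l = l0 then -∑ l ∈ t.erase l0, y l * A i0 l else y l * A i0 l0, fun l => ?_,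
      ⟨l1, mem_of_mem_erase hl1, ?_⟩, fun i hi => ?_⟩
    · dsimp only
      split_ifs
      · exact neg_mem (sum_mem fun l hl => F.mono hle (F.mul (h1 l) (hA0 l (mem_of_mem_erase hl))))
      · exact F.mono hle (F.mul (h1 l) (hA0 l0 hl0))
    · simp only [if_neg (ne_of_mem_erase hl1)]
      exact mul_ne_zero h2 hp
    · dsimp only
      rw [← add_sum_erase _ _ hl0, if_pos rfl, neg_mul, sum_mul, neg_add_eq_sub, ← sum_sub_distrib]
      rcases mem_insert.1 hi with rfl | hi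
      · exact sum_eq_zero fun l hl => by rw [if_neg (ne_of_mem_erase hl)]; ring
      · exact (sum_congr rfl fun l hl => by rw [if_neg (ne_of_mem_erase hl)]; ring).trans (h4 i hi)

theorem dep {ι κ : Type} [Fintype ι] {W : Set K} (w : ι → K) (hW : W ⊆ Set.range w) (t : Finset κ)
    {a n : ℕ} (hn : Fintype.card ι ≤ n) (ht : n < t.card) (z : κ → K)
    (hz : ∀ l ∈ t, z l ∈ sp (F.F a) W) :
    ∃ x : κ → K, (∀ l, x l ∈ F.F (3 ^ n * a)) ∧ (∃ l ∈ t, x l ≠ 0) ∧ ∑ l ∈ t, x l * z l = 0 := by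
  choose! b hb1 hb2 using fun l hl => sp_rep w hW (hz l hl)
  obtain ⟨x, h1, h2, h3⟩ := F.ker univ t a (fun i l => b l i) (hn.trans_lt ht)
    fun i _ l hl => hb1 l hl i
  refine ⟨x, fun l => F.mono (Nat.mul_le_mul_right _ (Nat.pow_le_pow_right (by norm_num) hn))
    (h1 l), h2, ?_⟩
  rw [sum_congr rfl fun l hl => by rw [hb2 l hl, mul_sum], sum_comm]
  exact sum_eq_zero fun i _ => by
    simp only [← mul_assoc]; rw [← sum_mul, h3 i (mem_univ _), zero_mul]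

/-- The monomials in `t` with exponents at most `e`. -/
def mon {σ : Type} [Fintype σ] (t : σ → K) (e : ℕ) : Set K :=
  {w | ∃ μ : σ → ℕ, (∀ i, μ i ≤ e) ∧ w = ∏ i, t i ^ μ i}

theorem mon_sub {σ : Type} [Fintype σ] (t : σ → K) (e : ℕ) :
    mon t e ⊆ Set.range fun μ : σ → Fin (e + 1) => ∏ i, t i ^ (μ i : ℕ) :=
  fun _ ⟨μ, h, hw⟩ => ⟨fun i => ⟨μ i, Nat.lt_succ_of_le (h i)⟩, hw.symm⟩

/-- Polynomials in `t` with bounded exponents and bounded coefficients. -/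
def ext {σ : Type} [Fintype σ] (t : σ → K) : Fil K where
  F e := sp (F.F e) (mon t e)
  one := by simpa using mem_sp F.one (W := mon t 0) (w := 1) ⟨0, fun _ => le_rfl, by simp⟩
  mono h _ := sp_le fun b hb w ⟨μ, h1, h2⟩ => mem_sp (F.mono h hb) ⟨μ, fun i => (h1 i).trans h, h2⟩
  mul hx hy := sp_mul (by
    rintro b hb w ⟨μ, h1, h2⟩
    rw [mul_comm]
    refine sp_mul ?_ hy
    rintro c hc v ⟨ν, h3, h4⟩
    rw [show c * v * (b * w) = b * c * (w * v) by ring]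
    exact mem_sp (F.mul hb hc) ⟨μ + ν, fun i => add_le_add (h1 i) (h3 i), by
      simp [h2, h4, pow_add, prod_mul_distrib]⟩) hx

theorem ext_coef {σ : Type} [Fintype σ] (t : σ → K) {e : ℕ} {b : K} (h : b ∈ F.F e) :
    b ∈ (F.ext t).F e := by
  show b ∈ sp _ _
  simpa using mem_sp h (W := mon t e) (w := 1) ⟨0, fun _ => Nat.zero_le _, by simp⟩

theorem ext_var {σ : Type} [Fintype σ] (t : σ → K) (i : σ) : t i ∈ (F.ext t).F 1 := by
  classical
  show t i ∈ sp _ _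
  simpa using mem_sp (F.mono zero_le_one F.one) (W := mon t 1) (w := t i)
    ⟨fun j => if j = i then 1 else 0, fun j => by dsimp only; split_ifs <;> simp, by simp⟩

theorem step {p : K[X]} {c : ℕ} (h : ∀ i, p.coeff i ∈ F.F c) {x : K} (hx : p.IsRoot x) {i : ℕ}
    (hi : i < p.natDegree) :
    p.leadingCoeff * x ^ (i + 1) ∈ sp (F.F c) {w | ∃ j < p.natDegree, w = x ^ j} := by
  rcases (Nat.succ_le_of_lt hi).eq_or_lt with e | e
  · have h1 := hx.eq_zero
    rw [eval_eq_sum_range, sum_range_succ] at h1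
    rw [show i + 1 = p.natDegree from e, leadingCoeff, eq_neg_of_add_eq_zero_right h1]
    exact neg_mem (sum_mem fun j hj => mem_sp (h j) ⟨j, mem_range.1 hj, rfl⟩)
  · exact mem_sp (h _) ⟨i + 1, e, rfl⟩

theorem diff {p : K[X]} (hp : p ≠ 0) {c n : ℕ} (h : ∀ i, p.coeff i ∈ F.F c) (hn : p.natDegree ≤ n)
    {x y : K} (hx : p.IsRoot x) (hy : p.IsRoot y) :
    ∃ b : ℕ → K, (∀ l, b l ∈ F.F (3 ^ (n * n) * (n * n * c))) ∧ (∃ l ∈ range (n * n + 1), b l ≠ 0) ∧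
      ∑ l ∈ range (n * n + 1), b l * (p.leadingCoeff * (x - y)) ^ l = 0 := by
  let W : Set K := {w | ∃ i < p.natDegree, ∃ j < p.natDegree, w = x ^ i * y ^ j}
  have h0 : 0 < p.natDegree := natDegree_pos_iff_degree_pos.2 (degree_pos_of_root hp hx)
  have key : ∀ l, (p.leadingCoeff * (x - y)) ^ l ∈ sp (F.F (l * c)) W := fun l => by
    induction l with
    | zero => simpa using mem_sp F.one (W := W) (w := 1) ⟨0, h0, 0, h0, by simp⟩
    | succ l ih =>
      rw [pow_succ, Nat.succ_mul]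
      refine sp_mul ?_ ih
      rintro b hb w ⟨i, hi, j, hj, e⟩
      rw [show b * w * (p.leadingCoeff * (x - y)) = p.leadingCoeff * x ^ (i + 1) * (b * y ^ j) -
        p.leadingCoeff * y ^ (j + 1) * (b * x ^ i) by rw [e]; ring]
      refine sub_mem (sp_mul ?_ (F.step h hx hi)) (sp_mul ?_ (F.step h hy hj))
      · rintro b' hb' v ⟨i', hi', e'⟩
        rw [show b' * v * (b * y ^ j) = b * b' * (x ^ i' * y ^ j) by rw [e']; ring]
        exact mem_sp (F.mul hb hb') ⟨i', hi', j, hj, rfl⟩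
      · rintro b' hb' v ⟨j', hj', e'⟩
        rw [show b' * v * (b * x ^ i) = b * b' * (x ^ i * y ^ j') by rw [e']; ring]
        exact mem_sp (F.mul hb hb') ⟨i, hi, j', hj', rfl⟩
  exact F.dep (W := W)
    (fun ij : Fin p.natDegree × Fin p.natDegree => x ^ (ij.1 : ℕ) * y ^ (ij.2 : ℕ))
    (fun _ ⟨i, hi, j, hj, e⟩ => ⟨(⟨i, hi⟩, ⟨j, hj⟩), e.symm⟩) _
    (by simpa using Nat.mul_le_mul hn hn) (by simp) _ fun l hl =>
      sp_le (fun b hb w hw => mem_sp (F.mono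
        (Nat.mul_le_mul_right _ (Nat.lt_succ_iff.1 (mem_range.1 hl))) hb) hw) (key l)

end Fil

/-- Degree bound for the annihilating polynomials. -/
def dE (r δ : ℕ) : ℕ := ((r + 1) * δ) ^ r
/-- Coefficient bound for the annihilating polynomials. -/
def dC (r δ : ℕ) : ℕ := 3 ^ (((r + 1) * (dE r δ * δ) + 1) ^ r) * ((r + 1) * (dE r δ * δ))
/-- The final degree bound. -/
def dD (r δ : ℕ) : ℕ := 3 ^ (dE r δ * dE r δ) * (dE r δ * dE r δ * dC r δ)

theorem dE_pos (r : ℕ) {δ : ℕ} (h : 0 < δ) : 0 < dE r δ := by unfold dE; positivity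

theorem dE_le (r : ℕ) {δ : ℕ} (h : 0 < δ) : dE r δ ≤ dC r δ :=
  ((Nat.le_mul_of_pos_right _ h).trans (Nat.le_mul_of_pos_left _ r.succ_pos)).trans
    (Nat.le_mul_of_pos_left _ (by positivity))

theorem dC_le (r : ℕ) {δ : ℕ} (h : 0 < δ) : dC r δ ≤ dD r δ :=
  (Nat.le_mul_of_pos_left _ (mul_pos (dE_pos r h) (dE_pos r h))).trans
    (Nat.le_mul_of_pos_left _ (by positivity))

theorem Fil.ann (F : Fil K) {J : Type} [Fintype J] (t : J → K) {r δ : ℕ} (hδ : 0 < δ)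
    (hJ : Fintype.card J ≤ r) (q : Fin r → K) (hq : ∀ i, q i ∈ (F.ext t).F δ) {g : K}
    (hg : g ∈ (F.ext t).F δ) :
    ∃ x : (Fin r → Fin (dE r δ + 1)) × ℕ → K, (∀ l, x l ∈ F.F (dC r δ)) ∧
      (∃ a, ∃ l < dE r δ + 1, x (a, l) ≠ 0) ∧
      ∑ l ∈ range (dE r δ + 1), (∑ a, x (a, l) * ∏ i, q i ^ (a i : ℕ)) * g ^ l = 0 := by
  classical
  have h5 : (r + 1) * (dE r δ * δ) + 1 ≤ (r + 1) * δ * (dE r δ + 1) := by
    have : 0 < (r + 1) * δ := by positivity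
    nlinarith
  obtain ⟨x, h1, ⟨⟨a, l⟩, h2, h3⟩, h4⟩ := F.dep _ (Fil.mon_sub t ((r + 1) * (dE r δ * δ)))
    ((univ : Finset (Fin r → Fin (dE r δ + 1))) ×ˢ range (dE r δ + 1))
    (a := (r + 1) * (dE r δ * δ)) (n := ((r + 1) * (dE r δ * δ) + 1) ^ r)
    (by simpa using Nat.pow_le_pow_right (Nat.succ_pos _) hJ)
    (by
      simp only [card_product, card_univ, Fintype.card_pi, Fintype.card_fin, prod_const, card_range]
      calc _ ≤ ((r + 1) * δ * (dE r δ + 1)) ^ r := Nat.pow_le_pow_left h5 r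
        _ = (dE r δ + 1) ^ r * dE r δ := by rw [mul_pow, mul_comm]; rfl
        _ < _ := Nat.mul_lt_mul_of_pos_left (Nat.lt_succ_self _) (by positivity))
    (fun p => (∏ i, q i ^ (p.1 i : ℕ)) * g ^ p.2) fun p hp =>
      (F.ext t).mono (le_of_eq (by simp [add_mul])) ((F.ext t).mul
        ((F.ext t).prod univ _ (fun _ => dE r δ * δ) fun i _ =>
          (F.ext t).mono (Nat.mul_le_mul_right _ (Nat.lt_succ_iff.1 (p.1 i).2))
            ((F.ext t).pow (hq i) (p.1 i)))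
        ((F.ext t).mono (Nat.mul_le_mul_right _
          (Nat.lt_succ_iff.1 (mem_range.1 (mem_product.1 hp).2))) ((F.ext t).pow hg p.2)))
  refine ⟨x, h1, ⟨a, l, mem_range.1 (mem_product.1 h2).2, h3⟩, ?_⟩
  rw [sum_product_right] at h4
  simpa only [sum_mul, mul_assoc] using h4

end Alg

variable {K : Type} [NormedField K] [IsUltrametricDist K] {Φ : Fr K}

/-- The monomials in `y` have different norms. -/
def Indep {σ : Type} [Fintype σ] (y : σ → K) : Prop :=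
  ∀ a b : σ → ℕ, ‖∏ i, y i ^ a i‖ = ‖∏ i, y i ^ b i‖ → a = b

theorem good_comb {σ ι : Type} [Fintype σ] {y : σ → K} (hy : ∀ i, Φ.Good (y i)) (hi : Indep y)
    (e : ι → σ → ℕ) (he : Function.Injective e) (s : Finset ι) (b : ι → K) (hb : ∀ k, b k ∈ Φ.R)
    (hb' : ∀ k, b k ≠ 0 → b k ∈ Φ.M) {k0 : ι} (h0 : k0 ∈ s) (h1 : b k0 ≠ 0) :
    Φ.Good (∑ k ∈ s, b k * ∏ i, y i ^ e k i) := by
  have h2 : ∀ k, Φ.Good (∏ i, y i ^ e k i) := fun k =>
    prod_induction _ Φ.Good (fun _ _ => Fr.Good.mul) (Fr.good_of_mem Φ.oneM) fun i _ => (hy i).pow _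
  refine Fr.good_sum s _ (fun k _ h => (Fr.good_of_mem (hb' k (left_ne_zero_of_mul h))).mul (h2 k))
    (fun k _ l _ hk hl h => he (hi _ _ ?_)) h0 (mul_ne_zero h1 (h2 k0).ne_zero)
  rwa [norm_mul, norm_mul, Φ.normR _ (hb k) (left_ne_zero_of_mul hk),
    Φ.normR _ (hb l) (left_ne_zero_of_mul hl), one_mul, one_mul] at h

theorem core [IsAlgClosed K] [CharZero K] (F : Fil K) {J : Type} [Fintype J] (t : J → K) {r δ : ℕ}
    (hδ : 0 < δ) (hJ : Fintype.card J ≤ r) (q : Fin r → K) (hq : ∀ i, q i ∈ (F.ext t).F δ)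
    (hR : ∀ e, ∀ x ∈ F.F e, x ∈ Φ.R) (hM : ∀ x ∈ F.F (dD r δ), x ≠ 0 → x ∈ Φ.M)
    (hqM : ∀ i, q i ∈ Φ.M) (hi : Indep q) :
    (∀ g ∈ (F.ext t).F δ, g ≠ 0 → Φ.Good g) ∧ ∀ i, t i ∈ Φ.Lam := by
  classical
  have hinj : ∀ e, Function.Injective fun (μ : Fin r → Fin e) i => (μ i : ℕ) :=
    fun e μ ν h => funext fun i => Fin.ext (congrFun h i)
  have hG : ∀ x ∈ (F.ext q).F (dD r δ), x ≠ 0 → Φ.Good x := fun x hx h0 => by
    obtain ⟨b, h1, rfl⟩ := sp_rep _ (Fil.mon_sub q _) hx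
    obtain ⟨k, -, hk⟩ := exists_ne_zero_of_sum_ne_zero h0
    exact good_comb (fun i => Fr.good_of_mem (hqM i)) hi _ (hinj _) _ b (fun k => hR _ _ (h1 k))
      (fun k => hM _ (h1 k)) (mem_univ k) (left_ne_zero_of_mul hk)
  have hL : ∀ e, ∀ x ∈ (F.ext q).F e, x ∈ Φ.Lam := fun e x hx =>
    sp_le (H := Φ.Lam.toAddSubgroup) (by
      rintro b hb w ⟨μ, -, rfl⟩
      exact Φ.Lam.mul_mem (Fr.R_Lam (hR _ b hb))
        (prod_mem fun i _ => pow_mem (Fr.M_Lam (hqM i)) _)) hx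
  have hA : ∀ g ∈ (F.ext t).F δ, ∃ c : ℕ → K, (∀ l, c l ∈ (F.ext q).F (dC r δ)) ∧
      (∃ l < dE r δ + 1, c l ≠ 0) ∧ ∑ l ∈ range (dE r δ + 1), c l * g ^ l = 0 := fun g hg => by
    obtain ⟨x, h1, ⟨a, l, h2, h3⟩, h4⟩ := F.ann t hδ hJ q hq hg
    refine ⟨_, fun l => sum_mem fun a _ => mem_sp (h1 _)
      ⟨_, fun i => (Nat.lt_succ_iff.1 (a i).2).trans (dE_le r hδ), rfl⟩, ⟨l, h2, ?_⟩, h4⟩
    exact (good_comb (fun i => Fr.good_of_mem (hqM i)) hi _ (hinj _) _ (fun a => x (a, l))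
      (fun k => hR _ _ (h1 _)) (fun k => hM _ (F.mono (dC_le r hδ) (h1 _))) (mem_univ a) h3).ne_zero
  refine ⟨fun g hg h0 => ?_, fun i => ?_⟩
  · obtain ⟨c, h1, ⟨l, h2, h3⟩, h4⟩ := hA g hg
    exact Fr.good_root (fun l _ => hG _ ((F.ext q).mono (dC_le r hδ) (h1 l))) h2 h3 h0 h4
  obtain ⟨c, h1, ⟨l, h2, h3⟩, h4⟩ := hA _ ((F.ext t).mono hδ (F.ext_var t i))
  let p : K[X] := ∑ l ∈ range (dE r δ + 1), monomial l (c l)
  have hp : ∀ l, p.coeff l = if l < dE r δ + 1 then c l else 0 := fun l => by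
    simp [p, coeff_monomial]
  have hp1 : ∀ l, p.coeff l ∈ (F.ext q).F (dC r δ) := fun l => by
    rw [hp]; split_ifs
    · exact h1 l
    · exact zero_mem _
  have hp0 : p ≠ 0 := fun e => h3 (by have := hp l; rwa [e, coeff_zero, if_pos h2, eq_comm] at this)
  have hp2 : p.natDegree ≤ dE r δ :=
    natDegree_le_iff_coeff_eq_zero.2 fun l hl => by rw [hp, if_neg (by omega)]
  have hl : Φ.Good p.leadingCoeff :=
    hG _ ((F.ext q).mono (dC_le r hδ) (hp1 _)) (leadingCoeff_ne_zero.2 hp0)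
  refine Fr.roots_Lam (fun l => hL _ _ (hp1 l)) hl (fun x y hx hy h0 => ?_)
    (by simpa only [p, IsRoot, eval_finsetSum, eval_monomial] using h4)
  obtain ⟨b, h5, ⟨l, h6, h7⟩, h8⟩ := (F.ext q).diff hp0 hp1 hp2 hx hy
  have := hl.inv.mul (Fr.good_root (fun l _ => hG _ (h5 l)) (mem_range.1 h6) h7
    (mul_ne_zero hl.ne_zero h0) h8)
  rwa [inv_mul_cancel_left₀ hl.ne_zero] at this

end Pool.Agent.P.MP_08e617_lc.Dv
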