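import Pool.Agent.P.MP_08e617_lc.DvC

/-! Construction of the valued field and of the frame. -/

set_option linter.unusedSectionVars false

namespace Pool.Agent.P.MP_08e617_lc.Dv

open Finset Polynomial

open scoped Classical in
/-- The absolute value of a Hahn series. -/
noncomputable def hAbs (k : Type) [Field k] : AbsoluteValue (HahnSeries ℝ k) ℝ where
  toFun x := if x = 0 then 0 else Real.exp (-x.order)
  map_mul' x y := by
    by_cases hx : x = 0
    · simp [hx]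
    by_cases hy : y = 0
    · simp [hy]
    simp only [hx, hy, mul_ne_zero hx hy, if_false]
    rw [HahnSeries.order_mul hx hy, neg_add, Real.exp_add]
  nonneg' x := by
    split_ifs
    · exact le_rfl
    · exact (Real.exp_pos _).le
  eq_zero' x := by
    split_ifs with h
    · simp [h]
    · simp [h]
  add_le' x y := by
    by_cases hx : x = 0
    · simp [hx]
    by_cases hy : y = 0
    · simp [hy]
    have h1 := Real.exp_pos (-x.order)
    have h2 := Real.exp_pos (-y.order)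
    simp only [hx, hy, if_false]
    split_ifs with h
    · linarith
    · rcases min_le_iff.1 (HahnSeries.min_order_le_order_add h) with h3 | h3
      · linarith [Real.exp_le_exp.2 (neg_le_neg h3)]
      · linarith [Real.exp_le_exp.2 (neg_le_neg h3)]

theorem hAbs_single {k : Type} [Field k] (ξ : ℝ) {c : k} (h : c ≠ 0) :
    hAbs k (HahnSeries.single ξ c) = Real.exp (-ξ) := by
  have := HahnSeries.single_ne_zero (a := ξ) h
  simp only [hAbs, AbsoluteValue.coe_mk, MulHom.coe_mk, if_neg this, HahnSeries.order_single h]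

theorem exists_field (k : Type) [Field k] : ∃ (K : Type) (_ : NormedField K)
    (_ : IsUltrametricDist K) (_ : IsAlgClosed K) (j : k →+* K) (τ : ℝ → K),
    (∀ c, c ≠ 0 → ‖j c‖ = 1) ∧ ∀ ξ, ‖τ ξ‖ = Real.exp ξ := by
  let K0 := (hAbs k).Completion
  let i : HahnSeries ℝ k →+* K0 :=
    UniformSpace.Completion.coeRingHom.comp (WithAbs.equiv (hAbs k)).symm.toRingHom
  have hi : ∀ x, ‖i x‖ = hAbs k x := fun x => UniformSpace.Completion.norm_coe _
  have hc : ∀ c : k, c ≠ 0 → ‖i (HahnSeries.C c)‖ = 1 := fun c h => by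
    rw [hi, HahnSeries.C_apply, hAbs_single _ h, neg_zero, Real.exp_zero]
  have hs : ∀ ξ : ℝ, ‖i (HahnSeries.single (-ξ) 1)‖ = Real.exp ξ := fun ξ => by
    rw [hi, hAbs_single _ one_ne_zero, neg_neg]
  let : NontriviallyNormedField K0 :=
    { (inferInstance : NormedField K0) with
      non_trivial := ⟨_, by rw [hs 1]; exact Real.one_lt_exp_iff.2 one_pos⟩ }
  have : IsUltrametricDist K0 :=
    IsUltrametricDist.isUltrametricDist_of_forall_norm_natCast_le_one fun n => by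
      rw [← map_natCast (i.comp HahnSeries.C) n]
      rcases eq_or_ne (n : k) 0 with h | h
      · simp [h]
      · exact (hc _ h).le
  let := spectralNorm.normedField K0 (AlgebraicClosure K0)
  have he : ∀ x : K0, ‖algebraMap K0 (AlgebraicClosure K0) x‖ = ‖x‖ := spectralNorm_extends
  exact ⟨AlgebraicClosure K0, inferInstance,
    IsUltrametricDist.isUltrametricDist_of_isNonarchimedean_norm isNonarchimedean_spectralNorm,
    inferInstance, (algebraMap K0 _).comp (i.comp HahnSeries.C),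
    fun ξ => algebraMap K0 _ (i (HahnSeries.single (-ξ) 1)), fun c h => (he _).trans (hc c h),
    fun ξ => (he _).trans (hs ξ)⟩

variable {K : Type} [NormedField K] [IsUltrametricDist K]

theorem log_indep {σ : Type} [Fintype σ] {y : σ → K} (h0 : ∀ i, y i ≠ 0)
    (h : LinearIndependent ℚ fun i => Real.log ‖y i‖) (a b : σ → ℤ)
    (e : ‖∏ i, y i ^ a i‖ = ‖∏ i, y i ^ b i‖) : a = b := by
  have h1 : ∀ a : σ → ℤ, Real.log ‖∏ i, y i ^ a i‖ = ∑ i, (a i : ℚ) • Real.log ‖y i‖ := fun a => by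
    rw [norm_prod, Real.log_prod fun i _ => norm_ne_zero_iff.2 (zpow_ne_zero _ (h0 i))]
    exact sum_congr rfl fun i _ => by rw [norm_zpow, Real.log_zpow, Rat.smul_def, Rat.cast_intCast]
  have h2 := Fintype.linearIndependent_iff.1 h (fun i => (a i : ℚ) - b i) (by
    simp only [sub_smul, sum_sub_distrib, ← h1, e, sub_self])
  exact funext fun i => by exact_mod_cast sub_eq_zero.1 (h2 i)

theorem log_indep' {σ : Type} [Fintype σ] {y : σ → K} (h0 : ∀ i, y i ≠ 0)
    (h : LinearIndependent ℚ fun i => Real.log ‖y i‖) : Indep y := fun a b e => by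
  have := log_indep h0 h (fun i => a i) (fun i => b i) (by simpa using e)
  exact funext fun i => by exact_mod_cast congrFun this i

variable {k Γ : Type} [Field k] [IsAlgClosed k] [LinearOrderedCommGroupWithZero Γ]

theorem unit_root (j : k →+* K) (w : Valuation k Γ) {p : K[X]} (hp : p ≠ 0)
    (h : ∀ i, p.coeff i = 0 ∨ ∃ c, w c = 1 ∧ j c = p.coeff i) {z : K} (hz : z ≠ 0)
    (hr : p.IsRoot z) : ∃ c, w c = 1 ∧ j c = z := by
  obtain ⟨p, rfl⟩ : p ∈ lifts j := (lifts_iff_coeff_lifts _).2 fun i => by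
    rcases h i with e | ⟨c, -, e⟩
    · exact ⟨0, by rw [e, map_zero]⟩
    · exact ⟨c, e⟩
  rw [coe_mapRingHom] at hp h hr
  have h1 := (mem_roots hp).2 hr
  rw [(IsAlgClosed.splits p).roots_map] at h1
  obtain ⟨c, hc, rfl⟩ := Multiset.mem_map.1 h1
  obtain ⟨hp0, h2⟩ := mem_roots'.1 hc
  refine ⟨c, by_contra fun hne => ?_, rfl⟩
  have h3 : 0 < w c := zero_lt_iff.2 (w.ne_zero_iff.2 fun e => hz (by rw [e, map_zero]))
  have h4 : ∀ i ∈ p.support, w (p.coeff i * c ^ i) = w c ^ i := fun i hi => by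
    rcases h i with e | ⟨d, h5, e⟩
    · exact absurd (by simpa using e) (mem_support_iff.1 hi)
    · rw [coeff_map] at e
      rw [map_mul, map_pow, ← j.injective e, h5, one_mul]
  obtain ⟨l, hl, hm⟩ := exists_max_image p.support (fun i => w c ^ i) (support_nonempty.2 hp0)
  have h5 := w.map_sum_eq_of_lt (f := fun i => p.coeff i * c ^ i) hl fun i hi => by
    obtain ⟨h6, h7⟩ := mem_sdiff.1 hi
    rw [h4 i h6, h4 l hl]
    exact (hm i h6).lt_of_ne fun e => notMem_singleton.1 h7 (pow_right_injective₀ h3 hne e)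
  rw [IsRoot, eval_eq_sum, Polynomial.sum_def] at h2
  rw [h2, map_zero, h4 l hl] at h5
  exact (pow_pos h3 l).ne h5

/-- The monomials of the frame. -/
def frM (j : k →+* K) (w : Valuation k Γ) {σ : Type} [Fintype σ] (q : σ → K) : Set K :=
  {x | ∃ n : ℕ, 0 < n ∧ ∃ c, w c = 1 ∧ ∃ a : σ → ℤ, x ^ n = j c * ∏ i, q i ^ a i}

theorem frM_unit {j : k →+* K} (hj : ∀ c, c ≠ 0 → ‖j c‖ = 1) {w : Valuation k Γ} {σ : Type}
    [Fintype σ] {q : σ → K} (h0 : ∀ i, q i ≠ 0)
    (h : LinearIndependent ℚ fun i => Real.log ‖q i‖) {x : K} (hx : x ∈ frM j w q)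
    (h1 : ‖x‖ = 1) : ∃ c, w c = 1 ∧ j c = x := by
  obtain ⟨n, hn, c, hc, a, e⟩ := hx
  have hc0 : c ≠ 0 := w.ne_zero_iff.1 (hc ▸ one_ne_zero)
  have h2 := congrArg norm e
  rw [norm_pow, h1, one_pow, norm_mul, hj c hc0, one_mul] at h2
  rw [log_indep h0 h a 0 (by simpa using h2.symm)] at e
  refine unit_root j w (X_pow_sub_C_ne_zero hn (j c)) (fun i => ?_) (by rintro rfl; simp at h1)
    (by simp [e])
  rw [coeff_sub, coeff_X_pow, coeff_C]
  split_ifs with h3 h4 h4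
  · omega
  · exact Or.inr ⟨1, map_one w, by simp⟩
  · exact Or.inr ⟨-c, by rwa [w.map_neg], by simp⟩
  · exact Or.inl (sub_self _)

theorem frM_const (j : k →+* K) {w : Valuation k Γ} {σ : Type} [Fintype σ] (q : σ → K) {c : k}
    (h : w c = 1) : j c ∈ frM j w q := ⟨1, one_pos, c, h, 0, by simp⟩

/-- The frame attached to a valuation of the constants and elements with independent norms. -/
noncomputable def frame (j : k →+* K) (hj : ∀ c, c ≠ 0 → ‖j c‖ = 1) (w : Valuation k Γ)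
    (hw : ∀ n : ℕ, w (n : k)⁻¹ ≤ 1) {σ : Type} [Fintype σ] (q : σ → K) (h0 : ∀ i, q i ≠ 0)
    (h : LinearIndependent ℚ fun i => Real.log ‖q i‖) : Fr K where
  R := w.integer.map j
  m := (w.ltAddSubgroup 1).map j.toAddMonoidHom
  M := frM j w q
  normR := by rintro _ ⟨c, -, rfl⟩ h; exact hj c fun e => h (by rw [e, map_zero])
  mR := by rintro _ ⟨c, hc, rfl⟩; exact ⟨c, le_of_lt hc, rfl⟩
  mul_m := by
    rintro _ ⟨c, hc, rfl⟩ _ ⟨a, ha, rfl⟩
    refine ⟨c * a, ?_, map_mul j _ _⟩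
    show w (c * a) < 1
    rw [map_mul]
    exact (mul_le_of_le_one_left' hc).trans_lt ha
  one_not := by
    rintro ⟨c, hc, e⟩
    rw [j.injective (e.trans (map_one j).symm)] at hc
    simp at hc
  ne0 := by
    rintro _ ⟨n, hn, c, hc, a, e⟩ rfl
    rw [zero_pow hn.ne'] at e
    exact mul_ne_zero ((map_ne_zero j).2 (w.ne_zero_iff.1 (hc ▸ one_ne_zero)))
      (prod_ne_zero_iff.2 fun i _ => zpow_ne_zero _ (h0 i)) e.symm
  oneM := by simpa using frM_const j q (map_one w)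
  mulM := by
    rintro x ⟨n, hn, c, hc, a, e⟩ y ⟨n', hn', c', hc', a', e'⟩
    refine ⟨n * n', mul_pos hn hn', c ^ n' * c' ^ n, by simp [hc, hc'],
      fun i => a i * n' + a' i * n, ?_⟩
    rw [mul_pow, pow_mul, e, pow_mul', e', mul_pow, mul_pow, map_mul, map_pow, map_pow,
      mul_mul_mul_comm, ← prod_pow, ← prod_pow, ← prod_mul_distrib]
    exact congrArg _ (prod_congr rfl fun i _ => by
      rw [zpow_add₀ (h0 i), zpow_mul, zpow_mul, zpow_natCast, zpow_natCast])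
  invM := by
    rintro x ⟨n, hn, c, hc, a, e⟩
    refine ⟨n, hn, c⁻¹, by simp [hc], fun i => -a i, ?_⟩
    simp [e, mul_comm]
  rad := by
    rintro x n hn ⟨n', hn', c, hc, a, e⟩
    exact ⟨n * n', mul_pos hn hn', c, hc, a, by rw [pow_mul, e]⟩
  unit x hx h1 := by
    obtain ⟨c, hc, e⟩ := frM_unit hj h0 h hx h1
    exact ⟨c, hc.le, e⟩
  inv_nat n := ⟨(n : k)⁻¹, hw n, by simp⟩
  root p hp hc z hz hr := by
    obtain ⟨c, h1, rfl⟩ := unit_root j w hp
      (fun i => (hc i).imp_right fun h2 => frM_unit hj h0 h h2.1 h2.2) hz hr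
    exact frM_const j q h1

theorem pick {σ : Type} [Fintype σ] (L : σ → List K) (h0 : ∀ i, (L i).prod ≠ 0)
    (h : LinearIndependent ℚ fun i => Real.log ‖(L i).prod‖) :
    ∃ q : σ → K, (∀ i, ∃ l, q i ∈ L l) ∧ LinearIndependent ℚ fun i => Real.log ‖q i‖ := by
  let s : Set ℝ := ⋃ l, (fun g : K => Real.log ‖g‖) '' {g | g ∈ L l}
  have hs : s.Finite := Set.finite_iUnion fun l => (L l).finite_toSet.image _
  obtain ⟨b, h1, h2, h3⟩ := exists_linearIndependent ℚ s
  have := (hs.subset h1).fintype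
  have key : ∀ M : List K, M.prod ≠ 0 → (∀ g ∈ M, Real.log ‖g‖ ∈ s) →
      Real.log ‖M.prod‖ ∈ Submodule.span ℚ s := fun M => by
    induction M with
    | nil => simp
    | cons g M ih =>
      intro h4 h5
      rw [List.prod_cons] at h4 ⊢
      rw [norm_mul, Real.log_mul (norm_ne_zero_iff.2 (left_ne_zero_of_mul h4))
        (norm_ne_zero_iff.2 (right_ne_zero_of_mul h4))]
      exact add_mem (Submodule.subset_span (h5 g List.mem_cons_self))
        (ih (right_ne_zero_of_mul h4) fun g hg => h5 g (List.mem_cons_of_mem _ hg))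
  obtain ⟨e⟩ := Function.Embedding.nonempty_of_card_le (linearIndependent_le_span_aux' _ h b (by
    rintro _ ⟨i, rfl⟩
    rw [h2]
    exact key _ (h0 i) fun g hg => Set.mem_iUnion.2 ⟨i, g, hg, rfl⟩))
  choose l q h4 h5 using fun i => Set.mem_iUnion.1 (h1 (e i).2)
  refine ⟨q, fun i => ⟨l i, h4 i⟩, ?_⟩
  rw [show (fun i => Real.log ‖q i‖) = fun i => (e i : ℝ) from funext h5]
  exact h3.comp e e.injective

theorem mid [IsAlgClosed K] [CharZero K] [CharZero k] (j : k →+* K) (hj : ∀ c, c ≠ 0 → ‖j c‖ = 1)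
    (w : Valuation k Γ) (hw : ∀ c : ℚ, w c ≤ 1) {J σ : Type} [Fintype J] [Fintype σ]
    (t : J → K) (hJ : Fintype.card J ≤ Fintype.card σ) (L : σ → List K) (h0 : ∀ i, (L i).prod ≠ 0)
    (h : LinearIndependent ℚ fun i => Real.log ‖(L i).prod‖)
    (H : ∀ (q : σ → K) (g : K), (∀ i, ∃ l, q i ∈ L l) → (∃ l, g ∈ L l) → ∃ (F : Fil K) (δ : ℕ),
      0 < δ ∧ (∀ e, ∀ x ∈ F.F e, ∃ c, w c ≤ 1 ∧ j c = x) ∧
      (∀ x ∈ F.F (dD (Fintype.card σ) δ), x ≠ 0 → ∃ c, w c = 1 ∧ j c = x) ∧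
      (∀ i, q i ∈ (F.ext t).F δ) ∧ g ∈ (F.ext t).F δ)
    {p : MvPolynomial σ ℚ} (hp : p ≠ 0) (g : MvPolynomial J k) (hg : ∀ μ, w (g.coeff μ) < 1) :
    MvPolynomial.aeval (fun i => (L i).prod) p ≠ g.eval₂ j t := fun e => by
  classical
  have h1 : ∀ i, ∀ g ∈ L i, g ≠ 0 := fun i g hg e => h0 i (List.prod_eq_zero (e ▸ hg))
  obtain ⟨q, h2, h3⟩ := pick L h0 h
  have h4 : ∀ i, q i ≠ 0 := fun i => (h2 i).elim fun l => h1 l _
  let Φ := frame j hj w (fun n => by simpa using hw (n : ℚ)⁻¹) q h4 h3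
  have h5 : ∀ l, ∀ g ∈ L l, Φ.Good g ∧ ∀ i, t i ∈ Φ.Lam := fun l g hg => by
    obtain ⟨F, δ, hδ, hR, hM, hq, hg'⟩ := H q g h2 ⟨l, hg⟩
    let v := (Fintype.equivFin σ).symm
    obtain ⟨h6, h7⟩ := core (Φ := Φ) F t hδ hJ (fun i => q (v i)) (fun i => hq _) hR
      (fun x hx h => by
        obtain ⟨c, hc, rfl⟩ := hM x hx h
        exact frM_const j q hc)
      (fun i => ⟨1, one_pos, 1, map_one w, Pi.single (v i) 1, by simp [Pi.single_apply]⟩)
      (log_indep' (fun i => h4 _) (h3.comp v v.injective))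
    exact ⟨h6 g hg' (h1 l g hg), h7⟩
  have h7 : ∀ i, t i ∈ Φ.Lam := fun i => by
    obtain ⟨l⟩ := Fintype.card_pos_iff.1 ((Fintype.card_pos_iff.2 ⟨i⟩).trans_le hJ)
    obtain ⟨l', hl⟩ := h2 l
    exact (h5 l' _ hl).2 i
  have h8 : ∀ i, Φ.Good (L i).prod := fun i => List.prod_induction Φ.Good (fun _ _ => Fr.Good.mul)
    (Fr.good_of_mem Φ.oneM) fun g hg => (h5 i g hg).1
  obtain ⟨μ, hμ⟩ := MvPolynomial.support_nonempty.2 hp
  refine (good_comb h8 (log_indep' h0 h) (fun μ : σ →₀ ℕ => μ) DFunLike.coe_injective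
    p.support (fun μ => ((p.coeff μ : ℚ) : K)) (fun _ => ⟨_, hw _, map_ratCast j _⟩)
    (fun ν hν => ?_) hμ (Rat.cast_ne_zero.2 (MvPolynomial.mem_support_iff.1 hμ))).not_J ?_
  · rw [← map_ratCast j] at hν ⊢
    refine frM_const j q ((hw _).antisymm ?_)
    have h9 := hw (p.coeff ν)⁻¹
    rwa [Rat.cast_inv, map_inv₀, inv_le_one₀ (zero_lt_iff.2
      (w.ne_zero_iff.2 ((map_ne_zero j).1 hν)))] at h9
  rw [MvPolynomial.aeval_def, MvPolynomial.eval₂_eq', MvPolynomial.eval₂_eq'] at e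
  simp only [eq_ratCast] at e
  rw [e]
  exact sum_mem fun μ _ => Fr.m_J ⟨_, hg μ, rfl⟩ (prod_mem fun i _ => pow_mem (h7 i) _)

theorem tau_indep {σ A : Type} [Fintype σ] [CommRing A] [Algebra A K]
    (hA : ∀ c, c ≠ 0 → ‖algebraMap A K c‖ = 1) {y : σ → K} (h0 : ∀ i, y i ≠ 0)
    (h : LinearIndependent ℚ fun i => Real.log ‖y i‖) : AlgebraicIndependent A y :=
  algebraicIndependent_iff.2 fun g hg => by
    by_contra h1
    obtain ⟨μ, hμ⟩ := MvPolynomial.support_nonempty.2 h1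
    have h2 : ∀ ν : σ →₀ ℕ, algebraMap A K (g.coeff ν) * ∏ i, y i ^ ν i ≠ 0 →
        ‖algebraMap A K (g.coeff ν) * ∏ i, y i ^ ν i‖ = ‖∏ i, y i ^ ν i‖ := fun ν h => by
      rw [norm_mul, hA _ fun e => h (by rw [e, map_zero, zero_mul]), one_mul]
    obtain ⟨ν, -, -, h3, -⟩ := lead g.support
      (fun ν => algebraMap A K (g.coeff ν) * ∏ i, y i ^ ν i)
      (fun ν _ ν' _ h3 h4 e => DFunLike.coe_injective
        (log_indep' h0 h _ _ (by rw [← h2 ν h3, e, h2 ν' h4]))) hμ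
      (mul_ne_zero (norm_ne_zero_iff.1 (hA _ (MvPolynomial.mem_support_iff.1 hμ) ▸ one_ne_zero))
        (prod_ne_zero_iff.2 fun i _ => pow_ne_zero _ (h0 i)))
    rw [MvPolynomial.aeval_def, MvPolynomial.eval₂_eq'] at hg
    rw [hg, zero_sub, norm_neg] at h3
    exact lt_irrefl _ h3

theorem exists_xi (σ : Type) [Fintype σ] : ∃ ξ : σ → ℝ, LinearIndependent ℚ ξ := by
  obtain ⟨ξ, hξ⟩ : ∃ ξ : Fin (Fintype.card σ) → ℝ, LinearIndependent ℚ ξ := Module.le_rank_iff.1 (by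
    rw [Real.rank_rat_real]; exact Cardinal.natCast_lt_aleph0.le.trans Cardinal.aleph0_le_continuum)
  exact ⟨_, hξ.comp _ (Fintype.equivFin σ).injective⟩

end Pool.Agent.P.MP_08e617_lc.Dv
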