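import Pool.Agent.P.MP_08e617_lc.Gen
import Pool.Agent.P.MP_08e617_lc.Algo

/-! Correctness of the local search algorithm. -/

namespace Pool.Agent.P.MP_08e617_lc

open Pool.Agent.Lib.helper21 Function Matrix Module MvPolynomial

theorem encList_eq {α : Type} (e : α → List Bool) : encList e = listW e := by
  funext l
  induction l with
  | nil => rfl
  | cons a l ih => exact congrArg (fun w => true :: pairW (e a) w) ih

theorem encInput_eq : encInput = (Enc.enc : Inp → List Bool) := by
  have h : encMono = (Enc.enc : ℚ × List ℕ → List Bool) := by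
    funext m
    unfold encMono
    rw [encList_eq]
    rfl
  funext I
  unfold encInput
  rw [encList_eq, encList_eq, encList_eq, h]
  rfl

theorem cof_mul (L : List ℤ) (x : ℤ) (h : x ∈ L) : cof L x * x = L.prod := by
  have key : ∀ L : List ℤ, (L.filter fun y => !decide (y = x)).prod *
      x ^ (L.filter fun y => decide (y = x)).length = L.prod := by
    intro L
    induction L with
    | nil => simp
    | cons y L ih =>
      by_cases hy : y = x
      · subst hy; simp [← ih]; ring
      · simp [hy, ← ih]; ring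
  have h1 : 0 < (L.filter fun y => decide (y = x)).length :=
    List.length_pos_of_mem (List.mem_filter.2 ⟨h, by simp⟩)
  rw [cof, mul_assoc, ← pow_succ, Nat.sub_add_cancel h1, key]

/-- A list of natural numbers as a point. -/
def fa (a : List ℕ) : ℕ → ℚ := fun i => (a.getD i 0 : ℕ)

theorem eval_monoPoly (b : ℕ → ℚ) (m : ℚ × List ℕ) :
    eval b (monoPoly m) = m.1 * ∏ i ∈ Finset.range m.2.length, b i ^ m.2.getD i 0 := by
  simp [monoPoly]

theorem mval_spec (L : List ℤ) (a : List ℕ) (m : ℚ × List ℕ) (h : denZ m.1 ∈ L) :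
    (mval L a m : ℚ) = (L.prod : ℤ) * eval (fa a) (monoPoly m) := by
  rw [eval_monoPoly, ← cof_mul L _ h, mval, list_prod_range]
  have := Rat.mul_den_eq_num m.1
  simp only [denZ, fa] at this ⊢
  push_cast
  rw [← this]
  ring

theorem mem_flat {I : Inp} {p q : ℕ} {m : ℚ × List ℕ} (h : m ∈ (I.getD p []).getD q []) :
    m ∈ I.flatten.flatten := by
  have h0 : ∀ (β : Type) (l : List (List β)) (i : ℕ) (x : β), x ∈ l.getD i [] →
      l.getD i [] ∈ l := by
    intro β l i x hx
    rw [List.getD_eq_getElem?_getD] at hx ⊢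
    cases h : l[i]? with
    | none => simp [h] at hx
    | some y => exact List.mem_of_getElem? h
  have h1 := h0 _ _ _ _ h
  have h2 := h0 _ _ _ _ h1
  exact List.mem_flatten.2 ⟨_, List.mem_flatten.2 ⟨_, h2, h1⟩, h⟩

theorem dens_ne (I : Inp) : (((dens I).prod : ℤ) : ℚ) ≠ 0 := by
  rw [Int.cast_ne_zero]
  refine List.prod_ne_zero fun h => ?_
  obtain ⟨m, -, hm⟩ := List.mem_map.1 h
  simp [denZ] at hm

theorem ev_spec (I : Inp) (a : List ℕ) : (toM I.length (ev I a)).map (Int.castRingHom ℚ) =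
    (((dens I).prod : ℤ) : ℚ) • (polyMatrix I).map (eval (fa a)) := by
  rw [ev, toM_mk]
  ext p q
  simp only [map_apply, of_apply, Matrix.smul_apply, polyMatrix, smul_eq_mul, map_list_sum,
    List.map_map, ← List.sum_map_mul_left]
  congr 1
  refine List.map_congr_left fun m hm => ?_
  exact mval_spec _ a m (List.mem_map.2 ⟨m, mem_flat hm, rfl⟩)

theorem eval_congr (I : Inp) {b c : ℕ → ℚ} (h : ∀ i < nv I, b i = c i) :
    (polyMatrix I).map (eval b) = (polyMatrix I).map (eval c) := by
  ext p q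
  simp only [map_apply, of_apply, polyMatrix, map_list_sum, List.map_map]
  congr 1
  refine List.map_congr_left fun m hm => ?_
  have h1 : m.2.length ≤ nv I :=
    List.single_le_sum (fun _ _ => Nat.zero_le _) _ (List.mem_map.2 ⟨m, mem_flat hm, rfl⟩)
  simp only [Function.comp, eval_monoPoly]
  congr 1
  exact Finset.prod_congr rfl fun i hi => by rw [h i ((Finset.mem_range.1 hi).trans_le h1)]

theorem eval_pencil {n : ℕ} (k : ℕ) (A₀ : Matrix (Fin n) (Fin n) ℚ)
    (A : ℕ → Matrix (Fin n) (Fin n) ℚ) (b : ℕ → ℚ) :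
    (pencil k A₀ A).map (eval b) = A₀ + ∑ i ∈ Finset.range k, b i • A i := by
  ext p q
  simp [pencil, Matrix.sum_apply]

theorem pen_congr {V : Type} [AddCommGroup V] [Module ℚ V] (A0 : Fm V) (A : ℕ → Fm V) {k : ℕ}
    {a b : ℕ → ℚ} (h : ∀ i < k, a i = b i) : pen A0 A k a = pen A0 A k b := by
  unfold pen
  congr 1
  exact Finset.sum_congr rfl fun i hi => by rw [h i (Finset.mem_range.1 hi)]

theorem fa_upd {k : ℕ} (a : List ℕ) (i s : ℕ) : ∀ j < k, fa (upd k a i s) j = update (fa a) i s j := by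
  intro j hj
  rw [fa, getD_upd, if_pos hj]
  by_cases h : j = i
  · subst h; simp
  · simp [h, fa]

theorem ker_smul' {n : ℕ} {c : ℚ} (hc : c ≠ 0) (M : Matrix (Fin n) (Fin n) ℚ) :
    LinearMap.ker (c • M).mulVecLin = LinearMap.ker M.mulVecLin := by
  ext x
  simp [smul_mulVec, hc]

theorem alg_correct (I : Inp) (k : ℕ) (A₀ : Matrix (Fin I.length) (Fin I.length) ℚ)
    (A : ℕ → Matrix (Fin I.length) (Fin I.length) ℚ) (hc : InClass k A₀ A)
    (hM : polyMatrix I = pencil k A₀ A) : alg I = true ↔ (polyMatrix I).det = 0 := by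
  obtain ⟨P, hP, h0, hA⟩ := hc
  let A' : ℕ → Matrix (Fin I.length) (Fin I.length) ℚ := fun i => if i < k then A i else 0
  have hA' : ∀ i, Gen (P * A' i) := fun i => by
    by_cases h : i < k
    · simpa [A', h] using hA i h
    · simp [A', h, Gen]
  have hev : ∀ b, (polyMatrix I).map (eval b) = A₀ + ∑ i ∈ Finset.range (nv I), b i • A' i := by
    intro b
    rw [eval_congr I (c := fun i => if i < nv I then b i else 0) fun i hi => (if_pos hi).symm, hM,
      eval_pencil]
    congr 1
    simp only [A', ite_smul, smul_ite, zero_smul, smul_zero, ← Finset.mem_range,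
      Finset.sum_ite_mem, Finset.inter_comm]
  let F0 := toF P A₀
  let F : ℕ → Fm (Fin I.length → ℚ) := fun i => toF P (A' i)
  have hker : ∀ b, LinearMap.ker (pen F0 F (nv I) b) =
      LinearMap.ker ((polyMatrix I).map (eval b)).mulVecLin := fun b => by
    rw [pen_toF, ker_toF hP, hev]
  have hkev : ∀ a, LinearMap.ker ((toM I.length (ev I a)).map (Int.castRingHom ℚ)).mulVecLin =
      LinearMap.ker (pen F0 F (nv I) (fa a)) := fun a => by
    rw [ev_spec, ker_smul' (dens_ne I), hker]
  have hco : ∀ i < nv I, LinearMap.ker ((toM I.length (co I i)).map (Int.castRingHom ℚ)).mulVecLin =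
      LinearMap.ker (F i) := fun i hi => by
    have e1 : (toM I.length (co I i)).map (Int.castRingHom ℚ) =
        (toM I.length (ev I (upd (nv I) [] i 1))).map (Int.castRingHom ℚ) -
          (toM I.length (ev I [])).map (Int.castRingHom ℚ) := by
      rw [co, toM_mk]
      ext p q
      simp [toM]
    have e2 : ∑ j ∈ Finset.range (nv I), fa (upd (nv I) [] i 1) j • A' j = A' i := by
      rw [Finset.sum_eq_single i]
      · simp [fa_upd _ _ _ _ hi]
      · intro j hj hji
        rw [fa_upd _ _ _ _ (Finset.mem_range.1 hj), update_of_ne hji]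
        simp [fa]
      · intro h; exact absurd (Finset.mem_range.2 hi) h
    have e3 : ∑ j ∈ Finset.range (nv I), fa [] j • A' j = 0 := by simp [fa]
    rw [e1, ev_spec, ev_spec, hev, hev, e2, e3, ← smul_sub, ker_smul' (dens_ne I), ker_toF hP]
    simp
  have hn : finrank ℚ (Fin I.length → ℚ) = I.length := by simp
  have hphi : ∀ a, phi I a = pot F0 F (nv I) (fa a) := fun a => by
    rw [phi, pot, hn, kd_spec, inf_idem, hkev, list_sum_range]
    congr 1
    exact Finset.sum_congr rfl fun i hi => by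
      rw [kd_spec, hkev, hco i (Finset.mem_range.1 hi)]
  obtain ⟨U, h1, h2⟩ := local_min (A0 := F0) (A := F) (k := nv I) (T := TT I) (sym_toF h0)
    (fun i _ => sym_toF (hA' i).1) (fun i _ => witt_toF (hA' i)) (by rw [hn]; exact le_rfl)
    (fa (fin I)) fun i hi j hj s hs t ht => by
      have h := fin_min I _ (mem_nb.2 ⟨i, hi, j, hj, s, hs, t, ht, rfl⟩)
      rw [hphi, hphi] at h
      refine h.trans (le_of_eq ?_)
      unfold pot
      rw [pen_congr F0 F (b := update (update (fa (fin I)) i (s : ℕ)) j (t : ℕ)) fun l hl => by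
        rw [fa_upd _ _ _ l hl]
        by_cases hlj : l = j
        · subst hlj; simp
        · rw [update_of_ne hlj, update_of_ne hlj, fa_upd _ _ _ l hl]]
  have hdet : ∀ b, 0 < finrank ℚ (LinearMap.ker (pen F0 F (nv I) b)) ↔
      eval b (polyMatrix I).det = 0 := fun b => by
    rw [hker, RingHom.map_det, RingHom.mapMatrix_apply, ← exists_mulVec_eq_zero_iff,
      Nat.pos_iff_ne_zero, Ne, Submodule.finrank_eq_zero, ← Ne, Submodule.ne_bot_iff]
    simp [and_comm]
  rw [alg, decide_eq_true_eq, kd_spec, inf_idem, hkev]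
  constructor
  · intro h
    exact MvPolynomial.funext fun b => by
      rw [map_zero]; exact (hdet b).1 (h.trans_le (ker_min h1 h2 b))
  · intro h
    rw [hdet, h, map_zero]

theorem edmonds_rado {n : ℕ} (k : ℕ) (A₀ : Matrix (Fin n) (Fin n) ℚ)
    (A : ℕ → Matrix (Fin n) (Fin n) ℚ) (hc : InClass k A₀ A) :
    ∃ (a : ℕ → ℚ) (W Y : Submodule ℚ (Fin n → ℚ)), W.map A₀.mulVecLin ≤ Y ∧
      (∀ i < k, W.map (A i).mulVecLin ≤ Y) ∧
      (A₀ + ∑ i ∈ Finset.range k, a i • A i).rank + finrank ℚ W = n + finrank ℚ Y := by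
  obtain ⟨P, hP, h0, hA⟩ := hc
  let F0 := toF P A₀
  let F : ℕ → Fm (Fin n → ℚ) := fun i => toF P (A i)
  obtain ⟨a, ha⟩ : ∃ a, ∀ b, pot F0 F k a ≤ pot F0 F k b :=
    ⟨argmin (pot F0 F k), fun b => argmin_le _ b⟩
  obtain ⟨U, h1, h2⟩ := local_min (A0 := F0) (A := F) (k := k) (sym_toF h0)
    (fun i hi => sym_toF (hA i hi).1) (fun i hi => witt_toF (hA i hi)) le_rfl a
    fun _ _ _ _ _ _ _ _ => ha _
  have h3 := pen_map_le h2 0
  set M := A₀ + ∑ i ∈ Finset.range k, a i • A i with hM
  have tr : ∀ N : Matrix (Fin n) (Fin n) ℚ, U.map (toF P N) ≤ U.map (pen F0 F k a) →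
      U.map N.mulVecLin ≤ U.map M.mulVecLin := by
    rintro N hN _ ⟨x, hx, rfl⟩
    obtain ⟨y, hy, e⟩ := hN (Submodule.mem_map_of_mem hx)
    rw [pen_toF, toF_eq_iff hP] at e
    exact ⟨y, hy, e⟩
  refine ⟨a, U, U.map M.mulVecLin, tr _ (by simpa [pen] using h3), fun i hi => tr _ (h2 i hi), ?_⟩
  have e1 := finrank_map_add M.mulVecLin U
  rw [pen_toF, ker_toF hP, ← hM] at h1
  rw [inf_eq_left.2 h1] at e1
  have e2 := M.mulVecLin.finrank_range_add_finrank_ker
  have e3 : M.rank = finrank ℚ (LinearMap.range M.mulVecLin) := rfl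
  simp only [finrank_fintype_fun_eq_card, Fintype.card_fin] at e2
  rw [← hM]
  omega

end Pool.Agent.P.MP_08e617_lc
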