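import Pool.Agent.Lib.helper26.PTExtra
import Pool.Agent.P.MP_08e617_lc.Main
import Pool.Agent.P.MP_08e617_lc.DvE

/-! The generator, the hitting set and the algorithm. -/

namespace Pool.Agent.P.MP_08e617_lc.Dv

open Pool.Agent.Lib.helper21 Pool.Agent.Lib.helper26 Function Matrix Module MvPolynomial

/-- The coordinates of the generator as polynomials in the seeds. -/
noncomputable def gen (n T i : ℕ) : MvPolynomial (Fin T ⊕ Fin T) ℚ :=
  ∑ j : Fin T, X (Sum.inr j) * ∏ l ∈ (Finset.range n).erase i, (X (Sum.inl j) - C (l : ℚ))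

/-- The points whose first `n` coordinates are in the image of the generator. -/
def SV (n T : ℕ) : Set (ℕ → ℚ) := {x | ∃ s, ∀ i < n, x i = eval s (gen n T i)}

theorem eval_gen (n T i : ℕ) (s : Fin T ⊕ Fin T → ℚ) : eval s (gen n T i) =
    ∑ j, s (Sum.inr j) * ∏ l ∈ (Finset.range n).erase i, (s (Sum.inl j) - l) := by
  simp [gen]

theorem deg_gen (n T i : ℕ) : (gen n T i).totalDegree ≤ n + 1 := by
  refine totalDegree_finsetSum_le fun j _ => (totalDegree_mul _ _).trans ?_
  rw [totalDegree_X, add_comm]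
  refine Nat.add_le_add_right ((totalDegree_finsetProd _ _).trans ?_) 1
  refine (Finset.sum_le_card_nsmul _ _ 1 fun l _ => ?_).trans ?_
  · refine (totalDegree_sub _ _).trans ?_
    rw [totalDegree_X, totalDegree_C]
    exact le_rfl
  · simpa using (Finset.card_erase_le (s := Finset.range n) (a := i))

theorem deg_aeval {σ : Type} (g : ℕ → MvPolynomial σ ℚ) (B : ℕ)
    (hg : ∀ i, (g i).totalDegree ≤ B) (f : MvPolynomial ℕ ℚ) :
    (aeval g f).totalDegree ≤ f.totalDegree * B := by
  rw [aeval_def, eval₂_eq]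
  refine totalDegree_finsetSum_le fun d hd => (totalDegree_mul _ _).trans ?_
  rw [algebraMap_eq, totalDegree_C, zero_add]
  refine (totalDegree_finsetProd _ _).trans ?_
  refine le_trans (Finset.sum_le_sum fun i _ =>
    (totalDegree_pow _ _).trans (Nat.mul_le_mul_left _ (hg i))) ?_
  rw [← Finset.sum_mul]
  exact Nat.mul_le_mul_right _ (le_totalDegree hd)

theorem eval_aeval {σ τ : Type} (s : τ → ℚ) (φ : σ → MvPolynomial τ ℚ) (f : MvPolynomial σ ℚ) :
    eval s (aeval φ f) = eval (fun i => eval s (φ i)) f := by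
  induction f using MvPolynomial.induction_on with
  | C c => simp
  | add f g hf hg => rw [map_add, map_add, map_add, hf, hg]
  | mul_X f j hf => rw [map_mul, map_mul, map_mul, hf, aeval_X, eval_X]

theorem sv_step {n T : ℕ} {a : ℕ → ℚ} (ha : a ∈ SV n T) (l : ℕ) (c : ℚ) :
    update a l c ∈ SV n (T + 1) := by
  obtain ⟨s, hs⟩ := ha
  refine ⟨Sum.elim (Fin.cons l fun j => s (Sum.inl j)) (Fin.cons (if l < n then
    (c - a l) / ∏ m ∈ (Finset.range n).erase l, ((l : ℚ) - m) else 0) fun j => s (Sum.inr j)),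
    fun i hi => ?_⟩
  simp only [eval_gen, Fin.sum_univ_succ, Sum.elim_inl, Sum.elim_inr, Fin.cons_zero, Fin.cons_succ]
  rw [← eval_gen, ← hs i hi]
  by_cases h : i = l
  · subst h
    rw [if_pos hi, div_mul_cancel₀, update_self, sub_add_cancel]
    exact Finset.prod_ne_zero_iff.2 fun m hm =>
      sub_ne_zero.2 (by exact_mod_cast (Finset.ne_of_mem_erase hm).symm)
  · rw [update_of_ne h]
    split_ifs with h1
    · rw [Finset.prod_eq_zero (s := (Finset.range n).erase i)
        (Finset.mem_erase.2 ⟨Ne.symm h, Finset.mem_range.2 h1⟩) (sub_self _), mul_zero, zero_add]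
    · rw [zero_mul, zero_add]

theorem sv_mono {n T T' : ℕ} (h : T ≤ T') {a : ℕ → ℚ} (ha : a ∈ SV n T) : a ∈ SV n T' := by
  induction T', h using Nat.le_induction with
  | base => exact ha
  | succ m _ ih => simpa using sv_step ih 0 (a 0)

theorem sv_add {n T : ℕ} {a : ℕ → ℚ} (ha : a ∈ SV n T) (U : Finset ℕ) :
    ∀ p : ℕ → ℚ, (∀ j ∉ U, p j = a j) → p ∈ SV n (T + U.card) := by
  induction U using Finset.induction_on with
  | empty => intro p hp; rwa [show p = a from funext fun j => hp j (by simp)]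
  | insert l V hl ih =>
    intro p hp
    have := sv_step (ih (update p l (a l)) fun j hj => by
      by_cases h : j = l
      · rw [h, update_self]
      · rw [update_of_ne h, hp j (by simp [h, hj])]) l (p l)
    rwa [update_idem, update_eq_self, add_assoc, ← Finset.card_insert_of_notMem hl] at this

theorem sv_deg (n : ℕ) {D : ℕ} {g : MvPolynomial ℕ ℚ} (h : g ≠ 0) (hD : g.totalDegree ≤ D) :
    ∃ x ∈ SV n D, eval x g ≠ 0 := by
  obtain ⟨μ, hμ⟩ := support_nonempty.2 h
  obtain ⟨u, hu⟩ := exists_ne (g := killCompl (f := fun i : μ.support => i.1)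
    Subtype.val_injective g) fun e => mem_support_iff.1 hμ (by
      have := congrArg (coeff (μ.subtypeDomain (· ∈ μ.support))) e
      rw [coeff_killCompl, coeff_zero] at this
      convert this
      ext i
      by_cases hi : i ∈ μ.support
      · exact (Finsupp.mapDomain_apply (f := fun i : μ.support => i.1) Subtype.val_injective
          (μ.subtypeDomain (· ∈ μ.support)) ⟨i, hi⟩).symm
      · rw [Finsupp.mapDomain_of_notMem_range _ _ (by simpa using hi),
          Finsupp.notMem_support_iff.1 hi])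
  rw [killCompl, eval_aeval] at hu
  refine ⟨_, sv_mono ?_ (sv_add (a := 0) (T := 0) ⟨0, fun i _ => by simp [gen]⟩ μ.support _
    fun j hj => ?_), hu⟩
  · refine le_trans ?_ ((le_totalDegree hμ).trans hD)
    rw [zero_add, Finset.card_eq_sum_ones]
    exact Finset.sum_le_sum fun i hi => Nat.one_le_iff_ne_zero.2 (Finsupp.mem_support_iff.1 hi)
  · rw [dif_neg (by simpa using hj), map_zero, Pi.zero_apply]

/-- The number of seeds. -/
def seeds (k δ : ℕ) : ℕ := ∑ r ∈ Finset.range (k + 1), dD r (δ + 1) + k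

theorem hit (n : ℕ) {k δ : ℕ} (L : Fin k → List (MvPolynomial ℕ ℚ))
    (hL : ∀ i, ∀ g ∈ L i, g.totalDegree ≤ δ) {f : MvPolynomial ℕ ℚ} (h0 : f ≠ 0)
    (h : IsAlgebraic (Algebra.adjoin ℚ (Set.range fun i => (L i).prod)) f) :
    ∃ x ∈ SV n (seeds k δ), eval x f ≠ 0 := by
  obtain ⟨r, hr, e, h1, p, hp, q, hq⟩ := reduce _ h0 h
  let φ : ℕ → MvPolynomial ((Fin (dD r (δ + 1)) ⊕ Fin (dD r (δ + 1))) ⊕ ℕ) ℚ :=
    fun i => if i < n then rename Sum.inl (gen n _ i) else X (Sum.inr i)
  obtain ⟨J, s, x, h2, h3, h4⟩ := faithful (fun i => L (e i)) (fun i => hL _) h1 φ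
    (fun g hg hD e => by
      obtain ⟨x, ⟨s, hs⟩, hx⟩ := sv_deg n hg hD
      have := eval_aeval (Sum.elim s x) φ g
      rw [e, map_zero] at this
      refine hx (Eq.trans (congrArg (eval · g) (funext fun i => ?_)) this.symm)
      by_cases hi : i < n
      · simp [φ, hi, eval_rename, hs]
      · simp [φ, hi]) hp
  rw [hq, map_mul] at h4
  refine ⟨x, sv_mono (add_le_add (Finset.single_le_sum (f := fun r => dD r (δ + 1))
    (fun _ _ => Nat.zero_le _) (Finset.mem_range.2 (Nat.lt_succ_of_le hr))) (h2.trans hr))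
    (sv_add ⟨s ∘ Sum.inl, fun i hi => ?_⟩ J x h3), left_ne_zero_of_mul h4⟩
  simp [φ, hi, eval_rename]

theorem grid {σ : Type} [Finite σ] {g : MvPolynomial σ ℚ} (h : g ≠ 0) {B : ℕ}
    (hB : g.totalDegree < B) : ∃ w : σ → ℕ, (∀ i, w i < B) ∧ eval (fun i => (w i : ℚ)) g ≠ 0 := by
  by_contra h3
  refine h (eq_zero_of_eval_zero_at_prod_finset _
    (fun _ => (Finset.range B).image fun s : ℕ => (s : ℚ)) (fun i => ?_) fun x hx => ?_)
  · rw [Finset.card_image_of_injective _ Nat.cast_injective, Finset.card_range]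
    exact (degreeOf_le_totalDegree _ _).trans_lt hB
  · simp only [Finset.mem_image, Finset.mem_range] at hx
    choose s hs1 hs2 using hx
    by_contra h4
    exact h3 ⟨s, hs1, by simpa only [hs2] using h4⟩

variable {α : Type} [Enc α]

/-- A digit in base `u`. -/
def dg (u t l : ℕ) : ℕ := t / u ^ l % u

@[fun_prop] theorem pt_dg {u t l : α → ℕ} (hu : PT u) (ht : PT t) (hl : PT l) :
    PT fun a => dg (u a) (t a) (l a) :=
  PT_mod ((PT.iterate_add (f := fun a (s : ℕ) => s / u a) (by fun_prop) hl ht (fun _ => 0)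
    (Bd.const _ _) fun a s => by simpa using Nat.div_le_self _ _).of_eq fun a => by
      induction l a with
      | zero => simp
      | succ n ih => rw [iterate_succ_apply', ih, Nat.div_div_eq_div_mul, pow_succ]) hu

theorem seed {u L : ℕ} (w : Fin L → ℕ) (h : ∀ l, w l < u) :
    ∃ t < u ^ L, ∀ l : Fin L, dg u t l = w l := by
  let t := finFunctionFinEquiv fun l : Fin L => (⟨w l, h l⟩ : Fin u)
  refine ⟨t, t.2, fun l => ?_⟩
  have := finFunctionFinEquiv_symm_apply_val t l
  rw [Equiv.symm_apply_apply] at this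
  exact this.symm

/-- Scaled value of the input matrix. -/
def evZ (I : Inp) (a : List ℤ) : List (List ℤ) :=
  mk I.length fun p q => (((I.getD p []).getD q []).map fun m => m.1.num * cof (dens I) (denZ m.1) *
    ((List.range m.2.length).map fun i => a.getD i 0 ^ m.2.getD i 0).prod).sum
/-- The side of the grid of seeds. -/
def side (I : Inp) : ℕ :=
  I.length * (I.flatten.flatten.map fun m => m.2.sum).sum * (nv I + 1) + 1
/-- The point with seed `t`. -/
def pnt (T : ℕ) (I : Inp) (t : ℕ) : List ℤ :=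
  (List.range (nv I)).map fun i => sm T fun j => (dg (side I) t (T + j) : ℕ) *
    ((List.range (nv I)).map fun l =>
      cond (decide (l = i)) 1 (((dg (side I) t j : ℕ) : ℤ) - (l : ℕ))).prod
/-- The algorithm. -/
def algo (T : ℕ) (I : Inp) : Bool := (List.range (side I ^ (T + T))).all fun t =>
  decide (0 < kd I.length (evZ I (pnt T I t)) (evZ I (pnt T I t)))

@[fun_prop] theorem pt_evZ {I : α → Inp} {b : α → List ℤ} (hI : PT I) (hb : PT b) :
    PT fun a => evZ (I a) (b a) := by unfold evZ; fun_prop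
@[fun_prop] theorem pt_side : PT side := by unfold side; fun_prop
@[fun_prop] theorem pt_pnt (T : ℕ) {I : α → Inp} {t : α → ℕ} (hI : PT I) (ht : PT t) :
    PT fun a => pnt T (I a) (t a) := by unfold pnt; fun_prop
theorem pt_algo (T : ℕ) : PT (algo T) := by unfold algo; fun_prop

theorem scale {I : Inp} {m : ℚ × List ℕ} (h : m ∈ I.flatten.flatten) :
    ((m.1.num * cof (dens I) (denZ m.1) : ℤ) : ℚ) = ((dens I).prod : ℤ) * m.1 := by
  rw [← cof_mul (dens I) _ (List.mem_map.2 ⟨m, h, rfl⟩)]
  have := Rat.mul_den_eq_num m.1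
  simp only [denZ] at this ⊢
  push_cast
  rw [← this]
  ring

theorem evZ_spec (I : Inp) (a : List ℤ) : 0 < kd I.length (evZ I a) (evZ I a) ↔
    eval (fun i => ((a.getD i 0 : ℤ) : ℚ)) (polyMatrix I).det = 0 := by
  have e1 : (toM I.length (evZ I a)).map (Int.castRingHom ℚ) =
      (((dens I).prod : ℤ) : ℚ) • (polyMatrix I).map (eval fun i => ((a.getD i 0 : ℤ) : ℚ)) := by
    rw [evZ, toM_mk]
    ext p q
    simp only [map_apply, of_apply, Matrix.smul_apply, polyMatrix, smul_eq_mul, map_list_sum,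
      List.map_map, ← List.sum_map_mul_left]
    congr 1
    refine List.map_congr_left fun m hm => ?_
    rw [Function.comp_apply, Function.comp_apply, eval_monoPoly, ← mul_assoc,
      ← scale (mem_flat hm), list_prod_range]
    simp
  rw [kd_spec, inf_idem, e1, ker_smul' (dens_ne I), RingHom.map_det, RingHom.mapMatrix_apply,
    ← exists_mulVec_eq_zero_iff, Nat.pos_iff_ne_zero, Ne, Submodule.finrank_eq_zero, ← Ne,
    Submodule.ne_bot_iff]
  simp [and_comm]

theorem det_congr (I : Inp) {b c : ℕ → ℚ} (h : ∀ i < nv I, b i = c i) :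
    eval b (polyMatrix I).det = eval c (polyMatrix I).det := by
  rw [RingHom.map_det, RingHom.map_det, RingHom.mapMatrix_apply, RingHom.mapMatrix_apply,
    eval_congr I h]

theorem deg_det (I : Inp) : (polyMatrix I).det.totalDegree * (nv I + 1) < side I := by
  refine Nat.lt_succ_of_le (Nat.mul_le_mul_right _ ?_)
  have h : ∀ p q, (polyMatrix I p q).totalDegree ≤ (I.flatten.flatten.map fun m => m.2.sum).sum :=
    fun p q => by
      refine List.sum_induction (fun g : MvPolynomial ℕ ℚ => g.totalDegree ≤ _)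
        (fun a b ha hb => (totalDegree_add _ _).trans (max_le ha hb)) (by simp) fun g hg => ?_
      obtain ⟨m, hm, rfl⟩ := List.mem_map.1 hg
      refine le_trans ?_ (List.single_le_sum (fun _ _ => Nat.zero_le _) _
        (List.mem_map.2 ⟨m, mem_flat hm, rfl⟩))
      refine (totalDegree_mul _ _).trans ?_
      rw [totalDegree_C, zero_add]
      refine (totalDegree_finsetProd _ _).trans (le_of_eq ?_)
      simp only [totalDegree_X_pow]
      rw [← list_sum_range]
      exact congrArg _ (List.ext_getElem (by simp) fun i h1 h2 => by simp [h2])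
  rw [det_apply']
  refine totalDegree_finsetSum_le fun s _ => (totalDegree_mul _ _).trans ?_
  rw [← map_intCast (C : ℚ →+* MvPolynomial ℕ ℚ), totalDegree_C, zero_add]
  refine (totalDegree_finsetProd _ _).trans ?_
  refine (Finset.sum_le_card_nsmul _ _ _ fun i _ => h _ _).trans ?_
  simp

theorem algo_spec {T : ℕ} {I : Inp} (h : (polyMatrix I).det ≠ 0 →
    ∃ x ∈ SV (nv I) T, eval x (polyMatrix I).det ≠ 0) :
    algo T I = true ↔ (polyMatrix I).det = 0 := by
  simp only [algo, List.all_eq_true, List.mem_range, decide_eq_true_eq, evZ_spec]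
  refine ⟨fun h1 => by_contra fun h0 => ?_, fun h1 t _ => by rw [h1, map_zero]⟩
  obtain ⟨x, ⟨s, hs⟩, hx⟩ := h h0
  obtain ⟨w, h2, h3⟩ := grid (g := aeval (gen (nv I) T) (polyMatrix I).det) (fun e => hx (by
    rw [det_congr I hs, ← eval_aeval, e, map_zero]))
    ((deg_aeval _ _ (deg_gen _ _) _).trans_lt (deg_det I))
  obtain ⟨t, ht, h4⟩ := seed (fun l => w (finSumFinEquiv.symm l)) fun l => h2 _
  refine h3 ?_
  rw [eval_aeval, ← h1 t ht]
  refine det_congr I fun i hi => ?_
  rw [eval_gen, pnt, List.getD_eq_getElem _ _ (by simpa using hi), List.getElem_map,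
    List.getElem_range, sm_eq]
  push_cast
  refine Finset.sum_congr rfl fun j _ => ?_
  have h5 : dg (side I) t (T + j) = w (Sum.inr j) := by
    simpa only [finSumFinEquiv_symm_apply_natAdd, Fin.val_natAdd] using h4 (Fin.natAdd T j)
  have h6 : dg (side I) t j = w (Sum.inl j) := by simpa using h4 (Fin.castAdd T j)
  rw [h5, h6, List.map_map, list_prod_range,
    ← Finset.mul_prod_erase _ _ (Finset.mem_range.2 hi)]
  simp only [Function.comp_apply, decide_true, cond_true, Int.cast_one, one_mul]
  exact congrArg _ (Finset.prod_congr rfl fun l hl => by simp [Finset.ne_of_mem_erase hl])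

end Pool.Agent.P.MP_08e617_lc.Dv
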