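import Pool.Agent.P.MP_08e617_lc.Defs
import Pool.Agent.P.MP_08e617_lc.Alg

/-! Rank at most three, or Lorentzian signature, forces Witt index at most one; passage from
matrices to forms. -/

namespace Pool.Agent.P.MP_08e617_lc

open Matrix Module

variable {n : ℕ}

theorem dot_symm {R : Type} [CommRing R] {B : Matrix (Fin n) (Fin n) R} (hB : B.IsSymm)
    (v w : Fin n → R) : v ⬝ᵥ B *ᵥ w = w ⬝ᵥ B *ᵥ v := by
  rw [dotProduct_mulVec, ← vecMul_transpose, hB.eq, dotProduct_comm]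

theorem exists_dual {x y : Fin n → ℚ} (h : LinearIndependent ℚ ![x, y]) :
    ∃ p, p ⬝ᵥ x = 1 ∧ p ⬝ᵥ y = 0 := by
  have hy : y ⬝ᵥ y ≠ 0 := fun h0 => by
    have := h.ne_zero 1
    exact this (dotProduct_self_eq_zero.1 h0)
  set z := (y ⬝ᵥ y) • x - (x ⬝ᵥ y) • y with hz
  have h1 : z ⬝ᵥ y = 0 := by
    simp only [hz, sub_dotProduct, smul_dotProduct, smul_eq_mul]; ring
  have h2 : z ⬝ᵥ x ≠ 0 := fun h0 => by
    have h3 : z ⬝ᵥ z = 0 := by
      conv_lhs => rw [show z ⬝ᵥ z = z ⬝ᵥ ((y ⬝ᵥ y) • x - (x ⬝ᵥ y) • y) from rfl]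
      rw [dotProduct_sub, dotProduct_smul, dotProduct_smul, h0, h1]; simp
    have h4 := dotProduct_self_eq_zero.1 h3
    rw [hz, sub_eq_add_neg, ← neg_smul] at h4
    exact hy (LinearIndependent.pair_iff.1 h _ _ h4).1
  exact ⟨(z ⬝ᵥ x)⁻¹ • z, by simp [h2], by simp [h1]⟩

theorem exists_duals {x y : Fin n → ℚ} (h : LinearIndependent ℚ ![x, y]) :
    ∃ p q, p ⬝ᵥ x = 1 ∧ p ⬝ᵥ y = 0 ∧ q ⬝ᵥ x = 0 ∧ q ⬝ᵥ y = 1 := by
  obtain ⟨p, h1, h2⟩ := exists_dual h
  obtain ⟨q, h3, h4⟩ := exists_dual (LinearIndependent.pair_symm_iff.1 h)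
  exact ⟨p, q, h1, h2, h4, h3⟩

theorem witt_of_rank {B : Matrix (Fin n) (Fin n) ℚ} (hB : B.IsSymm) (h : B.rank ≤ 3) :
    WittLeOne B := by
  intro v w h1 h2 h3 hli
  obtain ⟨p, q, e1, e2, e3, e4⟩ := exists_duals hli
  have hl : LinearIndependent ℚ (fun i => (⟨B *ᵥ ![v, w, p, q] i, ⟨_, rfl⟩⟩ :
      LinearMap.range B.mulVecLin)) := by
    rw [Fintype.linearIndependent_iff]
    intro g hg
    have hg' := congrArg Subtype.val hg
    simp only [Fin.sum_univ_four, Submodule.coe_add, Submodule.coe_smul, cons_val_zero,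
      cons_val_one, cons_val, Submodule.coe_zero] at hg'
    have a1 := congrArg (fun z => v ⬝ᵥ z) hg'
    have a2 := congrArg (fun z => w ⬝ᵥ z) hg'
    simp only [dotProduct_add, dotProduct_smul, smul_eq_mul, h1, h2, h3, dot_symm hB w v,
      dot_symm hB v p, dot_symm hB v q, dot_symm hB w p, dot_symm hB w q, e1, e2, e3, e4,
      dotProduct_zero, mul_zero, mul_one, zero_add, add_zero] at a1 a2
    rw [a1, a2, zero_smul, zero_smul, add_zero, add_zero] at hg'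
    obtain ⟨b1, b2⟩ := LinearIndependent.pair_iff.1 hli _ _ hg'
    intro i
    fin_cases i <;> assumption
  have := hl.fintype_card_le_finrank
  rw [Fintype.card_fin] at this
  have h4 : B.rank = finrank ℚ (LinearMap.range B.mulVecLin) := rfl
  omega

/-- With at most one eigenvalue of sign `-ε`, the form `ε B` is nonnegative on a hyperplane. -/
theorem exists_hyperplane {B : Matrix (Fin n) (Fin n) ℝ} (hB : B.IsSymm) (ε : ℝ)
    (h : B.charpoly.roots.countP (fun x => ε * x < 0) ≤ 1) :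
    ∃ u : Fin n → ℝ, ∀ x, u ⬝ᵥ x = 0 → 0 ≤ ε * (x ⬝ᵥ B *ᵥ x) := by
  classical
  have hH : B.IsHermitian := by
    rw [IsHermitian, conjTranspose_eq_transpose_of_trivial]; exact hB
  have hs := hH.spectral_theorem
  rw [Unitary.conjStarAlgAut_apply] at hs
  rw [hH.roots_charpoly_eq_eigenvalues, Multiset.countP_map] at h
  have hd : (RCLike.ofReal ∘ hH.eigenvalues : Fin n → ℝ) = hH.eigenvalues := rfl
  rw [hd] at hs h
  generalize (hH.eigenvectorUnitary : Matrix (Fin n) (Fin n) ℝ) = U at hs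
  generalize hH.eigenvalues = l at hs h
  have hform : ∀ x, x ⬝ᵥ B *ᵥ x = ∑ i, l i * ((Uᵀ *ᵥ x) i) ^ 2 := by
    intro x
    rw [hs, ← mulVec_mulVec, ← mulVec_mulVec, dotProduct_mulVec, ← mulVec_transpose,
      star_eq_conjTranspose, conjTranspose_eq_transpose_of_trivial]
    simp only [dotProduct, mulVec_diagonal]
    exact Finset.sum_congr rfl fun i _ => by ring
  have hc : (Finset.univ.filter fun i => ε * l i < 0).card ≤ 1 := h
  by_cases hex : ∃ i, ε * l i < 0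
  · obtain ⟨i0, hi0⟩ := hex
    refine ⟨Uᵀ i0, fun x hx => ?_⟩
    rw [hform, Finset.mul_sum]
    refine Finset.sum_nonneg fun i _ => ?_
    by_cases hi : ε * l i < 0
    · have : i = i0 := Finset.card_le_one.1 hc i (by simpa using hi) i0 (by simpa using hi0)
      subst this
      have : (Uᵀ *ᵥ x) i = 0 := hx
      simp [this]
    · rw [← mul_assoc]; exact mul_nonneg (not_lt.1 hi) (sq_nonneg _)
  · push Not at hex
    refine ⟨0, fun x _ => ?_⟩
    rw [hform, Finset.mul_sum]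
    exact Finset.sum_nonneg fun i _ => by
      rw [← mul_assoc]; exact mul_nonneg (hex i) (sq_nonneg _)

theorem witt_of_eig {B : Matrix (Fin n) (Fin n) ℚ} (hB : B.IsSymm) (ε : ℝ) (hε : ε * ε = 1)
    (h : (B.map (Rat.castHom ℝ)).charpoly.roots.countP (fun x => ε * x < 0) ≤ 1) :
    WittLeOne B := by
  intro v w h1 h2 h3 hli
  obtain ⟨p, q, e1, e2, e3, e4⟩ := exists_duals hli
  have hB' : (B.map (Rat.castHom ℝ)).IsSymm := hB.map _
  obtain ⟨u, hu⟩ := exists_hyperplane hB' ε h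
  let c : (Fin n → ℚ) → Fin n → ℝ := fun x i => (x i : ℝ)
  have hc : ∀ x y, c x ⬝ᵥ (B.map (Rat.castHom ℝ)) *ᵥ c y = ((x ⬝ᵥ B *ᵥ y : ℚ) : ℝ) := by
    intro x y
    simp [c, dotProduct, mulVec]
  set a : ℝ := ((p ⬝ᵥ B *ᵥ p : ℚ) : ℝ)
  set b : ℝ := ((p ⬝ᵥ B *ᵥ q : ℚ) : ℝ)
  set d : ℝ := ((q ⬝ᵥ B *ᵥ q : ℚ) : ℝ)
  let s : ℝ := |a| + |b| + |d| + 1
  have key : ∀ α β : ℝ, (α • (c p - (ε * s) • c v) + β • (c q - (ε * s) • c w)) ⬝ᵥ
      (B.map (Rat.castHom ℝ)) *ᵥ (α • (c p - (ε * s) • c v) + β • (c q - (ε * s) • c w)) =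
      α ^ 2 * a + 2 * α * β * b + β ^ 2 * d - 2 * ε * s * (α ^ 2 + β ^ 2) := by
    intro α β
    simp only [mulVec_add, mulVec_sub, mulVec_smul, dotProduct_add, dotProduct_sub,
      dotProduct_smul, add_dotProduct, sub_dotProduct, smul_dotProduct, smul_eq_mul, hc, h1, h2, h3,
      dot_symm hB w v, dot_symm hB v p, dot_symm hB v q, dot_symm hB w p, dot_symm hB w q,
      dot_symm hB q p, e1, e2, e3, e4, Rat.cast_zero, Rat.cast_one]
    ring
  obtain ⟨α, β, hne, h0⟩ : ∃ α β : ℝ, 0 < α ^ 2 + β ^ 2 ∧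
      u ⬝ᵥ (α • (c p - (ε * s) • c v) + β • (c q - (ε * s) • c w)) = 0 := by
    by_cases hz : u ⬝ᵥ (c p - (ε * s) • c v) = 0
    · exact ⟨1, 0, by norm_num, by simpa using hz⟩
    · refine ⟨-(u ⬝ᵥ (c q - (ε * s) • c w)), u ⬝ᵥ (c p - (ε * s) • c v), by positivity, ?_⟩
      rw [dotProduct_add, dotProduct_smul, dotProduct_smul]
      simp only [smul_eq_mul]; ring
  have h5 := hu _ h0
  rw [key] at h5
  have hε1 : |ε| = 1 := by
    have : |ε| * |ε| = 1 := by rw [← abs_mul, hε, abs_one]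
    nlinarith [abs_nonneg ε]
  have b1 : ε * a ≤ |a| := (le_abs_self _).trans (by rw [abs_mul, hε1, one_mul])
  have b2 : ε * d ≤ |d| := (le_abs_self _).trans (by rw [abs_mul, hε1, one_mul])
  have b3 : |ε * b| = |b| := by rw [abs_mul, hε1, one_mul]
  have b4 : 2 * α * β * (ε * b) ≤ (α ^ 2 + β ^ 2) * |b| := by
    have := abs_le.1 (le_of_eq b3)
    nlinarith [sq_nonneg (α - β), sq_nonneg (α + β)]
  have e : ε * (α ^ 2 * a + 2 * α * β * b + β ^ 2 * d - 2 * ε * s * (α ^ 2 + β ^ 2)) =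
      α ^ 2 * (ε * a) + 2 * α * β * (ε * b) + β ^ 2 * (ε * d) - 2 * s * (α ^ 2 + β ^ 2) := by
    linear_combination (-2 * s * (α ^ 2 + β ^ 2)) * hε
  rw [e] at h5
  have c1 := mul_le_mul_of_nonneg_left b1 (sq_nonneg α)
  have c2 := mul_le_mul_of_nonneg_left b2 (sq_nonneg β)
  have c3 := mul_nonneg (sq_nonneg α) (abs_nonneg d)
  have c4 := mul_nonneg (sq_nonneg β) (abs_nonneg a)
  have c5 := mul_nonneg hne.le (abs_nonneg a)
  have c6 := mul_nonneg hne.le (abs_nonneg b)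
  have c7 := mul_nonneg hne.le (abs_nonneg d)
  simp only [s] at h5
  nlinarith

theorem Gen.witt {B : Matrix (Fin n) (Fin n) ℚ} (h : Gen B) : WittLeOne B := by
  rcases h.2 with h1 | h1 | h1 | h1
  · exact witt_of_rank h.1 h1
  · exact witt_of_eig h.1 1 (by norm_num) (by simpa using h1)
  · exact witt_of_eig h.1 (-1) (by norm_num) (by simpa using h1)
  · exact h1

/-- The form `(x, y) ↦ yᵀ P M x`, linear in `M`. -/
def toF (P : Matrix (Fin n) (Fin n) ℚ) : Matrix (Fin n) (Fin n) ℚ →ₗ[ℚ] Fm (Fin n → ℚ) where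
  toFun M := LinearMap.mk₂ ℚ (fun x y => y ⬝ᵥ (P * M) *ᵥ x) (by simp [mulVec_add])
    (by simp [mulVec_smul]) (by simp) (by simp)
  map_add' M N := by ext x y; simp [Matrix.mul_add]
  map_smul' c M := by ext x y; simp

theorem toF_apply (P M : Matrix (Fin n) (Fin n) ℚ) (x y : Fin n → ℚ) :
    toF P M x y = y ⬝ᵥ (P * M) *ᵥ x := rfl

theorem toF_eq_iff' (P M N : Matrix (Fin n) (Fin n) ℚ) (x y : Fin n → ℚ) :
    toF P M x = toF P N y ↔ (P * M) *ᵥ x = (P * N) *ᵥ y := by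
  constructor
  · intro h
    exact dotProduct_eq _ _ fun z => by
      rw [dotProduct_comm, dotProduct_comm _ z]; exact congrArg (fun F => F z) h
  · intro h
    exact LinearMap.ext fun z => by rw [toF_apply, toF_apply, h]

theorem toF_eq_iff {P : Matrix (Fin n) (Fin n) ℚ} (hP : P.det ≠ 0)
    (M N : Matrix (Fin n) (Fin n) ℚ) (x y : Fin n → ℚ) :
    toF P M x = toF P N y ↔ M *ᵥ x = N *ᵥ y := by
  rw [toF_eq_iff', ← mulVec_mulVec, ← mulVec_mulVec]
  exact (mulVec_injective_iff_isUnit.2 ((isUnit_iff_isUnit_det P).2 (Ne.isUnit hP))).eq_iff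

theorem ker_toF {P : Matrix (Fin n) (Fin n) ℚ} (hP : P.det ≠ 0) (M : Matrix (Fin n) (Fin n) ℚ) :
    LinearMap.ker (toF P M) = LinearMap.ker M.mulVecLin := by
  ext x
  have := toF_eq_iff hP M M x 0
  simpa using this

theorem sym_toF {P M : Matrix (Fin n) (Fin n) ℚ} (h : (P * M).IsSymm) : Sym (toF P M) :=
  fun x y => dot_symm h y x

theorem witt_toF {P M : Matrix (Fin n) (Fin n) ℚ} (h : Gen (P * M)) : Witt (toF P M) := by
  intro v w h1 h2 h3 hv
  have h4 := h.witt v w h1 ((dot_symm h.1 v w).trans h2) h3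
  have hv' : (P * M) *ᵥ v ≠ 0 := fun h0 => hv (by
    have := (toF_eq_iff' P M M v 0).2 (by simpa using h0)
    simpa using this)
  rw [LinearIndependent.pair_iff' hv'] at h4
  push Not at h4
  obtain ⟨c, hc⟩ := h4
  refine ⟨c, ?_⟩
  rw [← map_smul, toF_eq_iff', mulVec_smul, hc]

theorem pen_toF (P A₀ : Matrix (Fin n) (Fin n) ℚ) (A : ℕ → Matrix (Fin n) (Fin n) ℚ) (k : ℕ)
    (a : ℕ → ℚ) : pen (toF P A₀) (fun i => toF P (A i)) k a =
      toF P (A₀ + ∑ i ∈ Finset.range k, a i • A i) := by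
  simp [pen]

end Pool.Agent.P.MP_08e617_lc
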