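import Mathlib

/-! Linear relations with two-dimensional blocks: basic definitions, duality, closure. -/

namespace Pool.Agent.P.MP_08e617_lc.Hc

open Filter Function

/-- The plane. -/
abbrev V2 := ℂ × ℂ

/-- The area form. -/
def om (a b : V2) : ℂ := a.1 * b.2 - a.2 * b.1

@[simp] theorem om_add_left (a b c : V2) : om (a + b) c = om a c + om b c := by simp [om]; ring
@[simp] theorem om_add_right (a b c : V2) : om a (b + c) = om a b + om a c := by simp [om]; ring
@[simp] theorem om_sub_left (a b c : V2) : om (a - b) c = om a c - om b c := by simp [om]; ring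
@[simp] theorem om_sub_right (a b c : V2) : om a (b - c) = om a b - om a c := by simp [om]; ring
@[simp] theorem om_neg_left (a c : V2) : om (-a) c = -om a c := by simp [om]; ring
@[simp] theorem om_neg_right (a c : V2) : om a (-c) = -om a c := by simp [om]; ring
@[simp] theorem om_smul_left (s : ℂ) (a b : V2) : om (s • a) b = s * om a b := by simp [om]; ring
@[simp] theorem om_smul_right (s : ℂ) (a b : V2) : om a (s • b) = s * om a b := by simp [om]; ring
@[simp] theorem om_zero_left (a : V2) : om 0 a = 0 := by simp [om]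
@[simp] theorem om_zero_right (a : V2) : om a 0 = 0 := by simp [om]
@[simp] theorem om_self (a : V2) : om a a = 0 := by simp [om]; ring
theorem om_comm (a b : V2) : om a b = -om b a := by simp [om]; ring

theorem par_of_om {a b : V2} (ha : a ≠ 0) (h : om a b = 0) : ∃ c : ℂ, b = c • a := by
  obtain ⟨a1, a2⟩ := a
  obtain ⟨b1, b2⟩ := b
  simp only [om] at h
  by_cases h1 : a1 = 0
  · have h2 : a2 ≠ 0 := fun h2 => ha (by simp [h1, h2])
    refine ⟨b2 / a2, Prod.ext ?_ ?_⟩
    · subst h1
      have : a2 * b1 = 0 := by grind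
      simpa [h2] using this
    · simp [h2]
  · refine ⟨b1 / a1, Prod.ext ?_ ?_⟩
    · simp [h1]
    · simp only [Prod.smul_snd, smul_eq_mul]
      field_simp
      grind

theorem decomp {a b : V2} (h : om a b ≠ 0) (v : V2) : ∃ α β : ℂ, v = α • a + β • b := by
  refine ⟨om v b / om a b, om a v / om a b, Prod.ext ?_ ?_⟩
  · simp only [Prod.fst_add, Prod.smul_fst, smul_eq_mul]
    field_simp
    simp [om]; ring
  · simp only [Prod.snd_add, Prod.smul_snd, smul_eq_mul]
    field_simp
    simp [om]; ring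

theorem eq_zero_of_om {a b v : V2} (h : om a b ≠ 0) (h1 : om v a = 0) (h2 : om v b = 0) :
    v = 0 := by
  obtain ⟨α, β, rfl⟩ := decomp h v
  simp only [om_add_left, om_smul_left, om_self, om_comm b a] at h1 h2
  have ha : α = 0 := by simpa [h] using h2
  have hb : β = 0 := by simpa [h] using h1
  simp [ha, hb]

theorem om_trans {y v w : V2} (hy : y ≠ 0) (h1 : om v y = 0) (h2 : om w y = 0) : om v w = 0 := by
  obtain ⟨c, rfl⟩ := par_of_om hy (by rw [om_comm, h1, neg_zero] : om y v = 0)
  obtain ⟨c', rfl⟩ := par_of_om hy (by rw [om_comm, h2, neg_zero] : om y w = 0)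
  simp

theorem exists_om_ne {a : V2} (ha : a ≠ 0) : ∃ p, om p a ≠ 0 := by
  by_contra h
  push Not at h
  have h1 := h (1, 0)
  have h2 := h (0, 1)
  simp only [om] at h1 h2
  exact ha (Prod.ext (by simpa using h2) (by simpa using h1))

theorem ev_quad {a : ℂ} (b c : ℂ) (ha : a ≠ 0) : ∀ᶠ t in cofinite, a + b * t + c * t ^ 2 ≠ 0 := by
  have hp : (Polynomial.C a + Polynomial.C b * Polynomial.X + Polynomial.C c * Polynomial.X ^ 2 :
      Polynomial ℂ) ≠ 0 := fun h => by
    have := congrArg (Polynomial.eval 0) h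
    simp at this
    exact ha this
  refine (Polynomial.eventually_cofinite_not_isRoot hp).mono fun t ht => ?_
  simpa using ht

theorem three_of_ev {P : ℂ → Prop} (h : ∀ᶠ t in cofinite, P t) :
    ∃ t1 t2 t3, t1 ≠ 0 ∧ t2 ≠ 0 ∧ t3 ≠ 0 ∧ t1 ≠ t2 ∧ t1 ≠ t3 ∧ t2 ≠ t3 ∧ P t1 ∧ P t2 ∧ P t3 := by
  have h0 := h.and (eventually_cofinite_ne 0)
  obtain ⟨t1, h1⟩ := h0.exists
  obtain ⟨t2, h2, h21⟩ := (h0.and (eventually_cofinite_ne t1)).exists
  obtain ⟨t3, ⟨h3, h31⟩, h32⟩ :=
    ((h0.and (eventually_cofinite_ne t1)).and (eventually_cofinite_ne t2)).exists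
  exact ⟨t1, t2, t3, h1.2, h2.2, h3.2, h21.symm, h31.symm, h32.symm, h1.1, h2.1, h3.1⟩

theorem coef_of_ev {a b c : ℂ} (h : ∀ᶠ t in cofinite, a + b * t + c * t ^ 2 = 0) :
    a = 0 ∧ b = 0 ∧ c = 0 := by
  obtain ⟨t1, t2, t3, -, -, -, h12, h13, h23, e1, e2, e3⟩ := three_of_ev h
  have f1 : b + c * (t1 + t2) = 0 :=
    mul_left_cancel₀ (sub_ne_zero.2 h12) (by linear_combination e1 - e2)
  have f2 : b + c * (t1 + t3) = 0 :=
    mul_left_cancel₀ (sub_ne_zero.2 h13) (by linear_combination e1 - e3)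
  have hc : c = 0 := mul_left_cancel₀ (sub_ne_zero.2 h23) (by linear_combination f1 - f2)
  have hb : b = 0 := by rw [hc] at f1; grind
  rw [hb, hc] at e1
  exact ⟨by grind, hb, hc⟩

theorem ev_vec {a : V2} (b : V2) (ha : a ≠ 0) : ∀ᶠ t : ℂ in cofinite, a + t • b ≠ 0 := by
  obtain ⟨p, hp⟩ := exists_om_ne ha
  refine (ev_quad (om p b) 0 hp).mono fun t ht h => ht ?_
  have := congrArg (om p) h
  simp only [om_add_right, om_smul_right, om_zero_right] at this
  linear_combination this

variable {ι : Type} [Fintype ι] [DecidableEq ι]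

/-- Block vectors. -/
abbrev Vec (ι : Type) := ι → V2

/-- A block vector supported at one index. -/
def sg (j : ι) (v : V2) : Vec ι := fun i => if i = j then v else 0

omit [Fintype ι] in
@[simp] theorem sg_same (j : ι) (v : V2) : sg j v j = v := by simp [sg]
omit [Fintype ι] in
theorem sg_ne {i j : ι} (h : i ≠ j) (v : V2) : sg j v i = 0 := by simp [sg, h]
omit [Fintype ι] in
@[simp] theorem sg_zero (j : ι) : sg j 0 = 0 := by funext i; simp [sg]
omit [Fintype ι] in
theorem sg_add (j : ι) (v w : V2) : sg j (v + w) = sg j v + sg j w := by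
  funext i; by_cases h : i = j <;> simp [sg, h]
omit [Fintype ι] in
theorem sg_sub (j : ι) (v w : V2) : sg j (v - w) = sg j v - sg j w := by
  funext i; by_cases h : i = j <;> simp [sg, h]
omit [Fintype ι] in
theorem sg_smul (j : ι) (s : ℂ) (v : V2) : sg j (s • v) = s • sg j v := by
  funext i; by_cases h : i = j <;> simp [sg, h]

/-- The pairing of block vectors. -/
def Bf (a b : Vec ι) : ℂ := ∑ i, om (a i) (b i)

omit [DecidableEq ι] in
@[simp] theorem Bf_add_left (a b c : Vec ι) : Bf (a + b) c = Bf a c + Bf b c := by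
  simp [Bf, Finset.sum_add_distrib]
omit [DecidableEq ι] in
@[simp] theorem Bf_add_right (a b c : Vec ι) : Bf a (b + c) = Bf a b + Bf a c := by
  simp [Bf, Finset.sum_add_distrib]
omit [DecidableEq ι] in
@[simp] theorem Bf_smul_left (s : ℂ) (a b : Vec ι) : Bf (s • a) b = s * Bf a b := by
  simp [Bf, Finset.mul_sum]
omit [DecidableEq ι] in
@[simp] theorem Bf_smul_right (s : ℂ) (a b : Vec ι) : Bf a (s • b) = s * Bf a b := by
  simp [Bf, Finset.mul_sum]
omit [DecidableEq ι] in
@[simp] theorem Bf_zero_left (a : Vec ι) : Bf 0 a = 0 := by simp [Bf]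
omit [DecidableEq ι] in
@[simp] theorem Bf_zero_right (a : Vec ι) : Bf a 0 = 0 := by simp [Bf]
@[simp] theorem Bf_sg_left (j : ι) (v : V2) (b : Vec ι) : Bf (sg j v) b = om v (b j) := by
  rw [Bf, Finset.sum_eq_single j] <;> simp +contextual [sg]
@[simp] theorem Bf_sg_right (j : ι) (v : V2) (a : Vec ι) : Bf a (sg j v) = om (a j) v := by
  rw [Bf, Finset.sum_eq_single j] <;> simp +contextual [sg]
omit [DecidableEq ι] in
theorem Bf_comm (a b : Vec ι) : Bf a b = -Bf b a := by
  simp only [Bf, ← Finset.sum_neg_distrib]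
  exact Finset.sum_congr rfl fun i _ => om_comm _ _

theorem sum_sg (d : Vec ι) : ∑ i, sg i (d i) = d := by
  funext j
  rw [Finset.sum_apply, Finset.sum_eq_single j] <;> simp +contextual [sg, eq_comm]

theorem exists_Bf (φ : Module.Dual ℂ (Vec ι)) : ∃ a : Vec ι, ∀ d, φ d = Bf d a := by
  refine ⟨fun i => (-φ (sg i (0, 1)), φ (sg i (1, 0))), fun d => ?_⟩
  conv_lhs => rw [← sum_sg d]
  rw [map_sum, Bf]
  refine Finset.sum_congr rfl fun i _ => ?_
  have : d i = (d i).1 • ((1, 0) : V2) + (d i).2 • ((0, 1) : V2) := by ext <;> simp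
  conv_lhs => rw [this, sg_add, sg_smul, sg_smul, map_add, map_smul, map_smul]
  simp [om]

/-- Linear relations. -/
abbrev Rel (ι : Type) := Submodule ℂ (Vec ι × Vec ι)

/-- The vector `a` has defect `d` at the point `y`. -/
def R (L : Rel ι) (y : ι → ℂ) (a d : Vec ι) : Prop := (a, fun i => d i + y i • a i) ∈ L

section basic
omit [Fintype ι] [DecidableEq ι]
variable {L : Rel ι} {y : ι → ℂ} {a d a' d' : Vec ι}

theorem R.add (h : R L y a d) (h' : R L y a' d') : R L y (a + a') (d + d') := by
  have := L.add_mem h h'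
  unfold R
  convert this using 1
  refine Prod.ext rfl (funext fun i => ?_)
  simp only [Pi.add_apply, smul_add, Prod.mk_add_mk]
  abel

theorem R.smul (h : R L y a d) (s : ℂ) : R L y (s • a) (s • d) := by
  have := L.smul_mem s h
  unfold R
  convert this using 1
  refine Prod.ext rfl (funext fun i => ?_)
  simp only [Pi.smul_apply, smul_add, Prod.smul_mk, smul_comm s]

theorem R.sub (h : R L y a d) (h' : R L y a' d') : R L y (a - a') (d - d') := by
  have := h.add (h'.smul (-1))
  simpa [sub_eq_add_neg] using this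

theorem R.zero (L : Rel ι) (y : ι → ℂ) : R L y 0 0 := by
  have := L.zero_mem
  unfold R
  convert this using 1
  exact Prod.ext rfl (funext fun i => by simp)

theorem R.cast (h : R L y a d) (e : d = d') : R L y a d' := e ▸ h

theorem R.sum {κ : Type} (s : Finset κ) {a d : κ → Vec ι} (h : ∀ g ∈ s, R L y (a g) (d g)) :
    R L y (∑ g ∈ s, a g) (∑ g ∈ s, d g) := by
  classical
  induction s using Finset.induction_on with
  | empty => simpa using R.zero L y
  | insert g s hg ih =>
    rw [Finset.sum_insert hg, Finset.sum_insert hg]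
    exact (h g (Finset.mem_insert_self _ _)).add
      (ih fun g' hg' => h g' (Finset.mem_insert_of_mem hg'))

theorem R_move (z : ι → ℂ) : R L z a d ↔ R L y a fun i => d i + (z i - y i) • a i := by
  unfold R
  have : (fun i => d i + (z i - y i) • a i + y i • a i) = fun i => d i + z i • a i := by
    funext i; rw [sub_smul]; abel
  rw [this]

end basic

/-- Moving one coordinate. -/
def mv (y : ι → ℂ) (u : ι) (t : ℂ) : ι → ℂ := update y u (y u + t)

omit [Fintype ι] in
theorem mv_ne (y : ι → ℂ) {u i : ι} (t : ℂ) (h : i ≠ u) : mv y u t i = y i := update_of_ne h _ _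
omit [Fintype ι] in
theorem mv_same (y : ι → ℂ) (u : ι) (t : ℂ) : mv y u t u = y u + t := update_self _ _ _

omit [Fintype ι] in
theorem mv_comm (y : ι → ℂ) (u v : ι) (s t : ℂ) : mv (mv y u s) v t = mv (mv y v t) u s := by
  funext i
  by_cases h : u = v
  · subst h
    by_cases hi : i = u
    · subst hi; simp only [mv_same]; ring
    · simp only [mv_ne _ _ hi]
  · by_cases hi : i = u
    · subst hi; rw [mv_ne _ _ h, mv_same, mv_same, mv_ne _ _ h]
    · by_cases hv : i = v
      · subst hv; rw [mv_same, mv_ne _ _ hi, mv_ne _ _ hi, mv_same]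
      · simp only [mv_ne _ _ hi, mv_ne _ _ hv]

omit [Fintype ι] in
theorem R_mv {L : Rel ι} {y : ι → ℂ} {a d : Vec ι} {u : ι} {t : ℂ} :
    R L (mv y u t) a d ↔ R L y a (d + sg u (t • a u)) := by
  rw [R_move (y := y)]
  have : (fun i => d i + (mv y u t i - y i) • a i) = d + sg u (t • a u) := by
    funext i
    by_cases h : i = u
    · subst h; simp [mv_same]
    · simp [mv_ne _ _ h, sg_ne h]
  rw [this]

/-- Mutually orthogonal relations. -/
structure Dual (L L' : Rel ι) : Prop where
  orth : ∀ {y a d a' d'}, R L y a d → R L' y a' d' → Bf a d' = Bf d a'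
  fr : ∀ y d, (∀ a', R L' y a' 0 → Bf d a' = 0) → ∃ a, R L y a d
  fr' : ∀ y d, (∀ a, R L y a 0 → Bf d a = 0) → ∃ a, R L' y a d

omit [DecidableEq ι] in
theorem Dual.symm {L L' : Rel ι} (h : Dual L L') : Dual L' L :=
  ⟨fun h1 h2 => by rw [Bf_comm, ← h.orth h2 h1, ← Bf_comm], h.fr', h.fr⟩

omit [DecidableEq ι] in
theorem Bf_shift (y : ι → ℂ) (a d a' d' : Vec ι) :
    Bf a (fun i => d' i + y i • a' i) - Bf (fun i => d i + y i • a i) a' = Bf a d' - Bf d a' := by
  simp only [Bf, ← Finset.sum_sub_distrib]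
  exact Finset.sum_congr rfl fun i _ => by simp

theorem exists_dual (L : Rel ι) : ∃ L', Dual L L' := by
  let L' : Rel ι :=
    { carrier := {p | ∀ q ∈ L, Bf q.1 p.2 = Bf q.2 p.1}
      add_mem' := fun {p p'} hp hp' q hq => by simp [hp q hq, hp' q hq]
      zero_mem' := fun q _ => by simp
      smul_mem' := fun c p hp q hq => by simp [hp q hq] }
  have key : ∀ y a' d', R L' y a' d' ↔ ∀ a d, R L y a d → Bf a d' = Bf d a' := by
    intro y a' d'
    constructor
    · intro h a d ha
      have := h _ ha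
      have h2 := Bf_shift y a d a' d'
      simp only at this
      grind
    · rintro h ⟨a, w⟩ hq
      have e : (fun i => (w i - y i • a i) + y i • a i) = w := by funext i; simp
      have h1 := h a (fun i => w i - y i • a i) (by unfold R; rw [e]; exact hq)
      have h2 := Bf_shift y a (fun i => w i - y i • a i) a' d'
      rw [e] at h2
      show Bf a (fun i => d' i + y i • a' i) = Bf w a'
      grind
  refine ⟨L', fun h1 h2 => (key _ _ _).1 h2 _ _ h1, fun y d hd => ?_, fun y d hd => ?_⟩
  · let D : Submodule ℂ (Vec ι) :=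
      { carrier := {d | ∃ a, R L y a d}
        add_mem' := fun ⟨a, ha⟩ ⟨b, hb⟩ => ⟨_, ha.add hb⟩
        zero_mem' := ⟨_, R.zero L y⟩
        smul_mem' := fun c _ ⟨a, ha⟩ => ⟨_, ha.smul c⟩ }
    by_contra hn
    obtain ⟨φ, h1, h2⟩ := Submodule.exists_dual_map_eq_bot_of_notMem (p := D) (x := d) hn
      inferInstance
    obtain ⟨a', ha'⟩ := exists_Bf φ
    refine h1 ?_
    rw [ha']
    refine hd a' ((key _ _ _).2 fun a e he => ?_)
    have : φ e ∈ D.map φ := Submodule.mem_map_of_mem ⟨a, he⟩
    rw [h2, Submodule.mem_bot, ha'] at this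
    simp [this]
  · let G : Submodule ℂ (Vec ι × Vec ι) :=
      { carrier := {p | R L y p.1 p.2}
        add_mem' := fun ha hb => ha.add hb
        zero_mem' := R.zero L y
        smul_mem' := fun c _ ha => ha.smul c }
    let ψ : Module.Dual ℂ G :=
      { toFun := fun p => Bf p.1.1 d
        map_add' := fun p q => by simp
        map_smul' := fun c p => by simp }
    let π : G →ₗ[ℂ] Vec ι := LinearMap.snd ℂ _ _ ∘ₗ G.subtype
    have hψ : ψ ∈ (LinearMap.ker π).dualAnnihilator := by
      rw [Submodule.mem_dualAnnihilator]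
      rintro ⟨⟨a, e⟩, hp⟩ he
      have he' : e = 0 := he
      subst he'
      show Bf a d = 0
      rw [Bf_comm, hd a hp, neg_zero]
    rw [← LinearMap.range_dualMap_eq_dualAnnihilator_ker] at hψ
    obtain ⟨φ, hφ⟩ := hψ
    obtain ⟨a', ha'⟩ := exists_Bf φ
    refine ⟨a', (key _ _ _).2 fun a e he => ?_⟩
    have := congrArg (fun f => f (⟨(a, e), he⟩ : G)) hφ
    rw [← ha']
    exact this.symm

/-- A kernel vector that is nonzero somewhere on `S`. -/
def Kn (L : Rel ι) (S : Finset ι) (z : ι → ℂ) : Prop := ∃ a, R L z a 0 ∧ ∃ i ∈ S, a i ≠ 0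

/-- Singular whatever the coordinates in `T` are. -/
def Sing (L : Rel ι) (S : Finset ι) (y : ι → ℂ) (T : Finset ι) : Prop :=
  ∀ z, (∀ i ∉ T, z i = y i) → Kn L S z

section sing
omit [Fintype ι]
variable {L : Rel ι} {S T T' : Finset ι} {y z : ι → ℂ}

omit [DecidableEq ι] in
theorem Sing.move (h : Sing L S y T) (hT : T' ⊆ T) (hz : ∀ i ∉ T, z i = y i) : Sing L S z T' :=
  fun w hw => h w fun i hi => (hw i fun h' => hi (hT h')).trans (hz i hi)

omit [DecidableEq ι] in
theorem Sing.mono (h : Sing L S y T) (hT : T' ⊆ T) : Sing L S y T' := h.move hT fun _ _ => rfl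

theorem Sing.mv (h : Sing L S y T) (hT : T' ⊆ T) {u : ι} (hu : u ∈ T) (t : ℂ) :
    Sing L S (mv y u t) T' :=
  h.move hT fun _ hi => mv_ne _ _ fun e => hi (e ▸ hu)

omit [DecidableEq ι] in
theorem Sing.sup {S' : Finset ι} (h : Sing L S y T) (hS : S ⊆ S') : Sing L S' y T := fun z hz => by
  obtain ⟨a, ha, i, hi, hne⟩ := h z hz
  exact ⟨a, ha, i, hS hi, hne⟩

theorem closure {u : ι} (hu : u ∈ S) (h : ∀ᶠ t in cofinite, Kn L S (Hc.mv z u t)) : Kn L S z := by
  obtain ⟨t1, t2, t3, n1, n2, n3, h12, h13, h23, ⟨a1, k1, i1⟩, ⟨a2, k2, i2⟩, ⟨a3, k3, i3⟩⟩ :=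
    three_of_ev h
  rw [R_mv, zero_add] at k1 k2 k3
  by_cases z1 : a1 u = 0
  · exact ⟨a1, by simpa [z1] using k1, i1⟩
  by_cases z2 : a2 u = 0
  · exact ⟨a2, by simpa [z2] using k2, i2⟩
  by_cases z3 : a3 u = 0
  · exact ⟨a3, by simpa [z3] using k3, i3⟩
  by_cases hp : om (a1 u) (a2 u) = 0
  · obtain ⟨c, hc⟩ := par_of_om z1 hp
    have hc0 : c ≠ 0 := by rintro rfl; simp [hc] at z2
    refine ⟨_, ((k1.smul (t2 * c)).sub (k2.smul t1)).cast ?_, u, hu, fun h0 => ?_⟩
    · rw [hc]; simp only [sg_smul]; module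
    · simp only [Pi.sub_apply, Pi.smul_apply, hc, smul_smul, ← sub_smul, smul_eq_zero, z1,
        or_false] at h0
      exact h12 (mul_right_cancel₀ hc0 (by grind))
  · obtain ⟨α, β, h3⟩ := decomp hp (a3 u)
    refine ⟨_, (((k1.smul (-α * t3 * t2)).add (k2.smul (-β * t3 * t1))).add
      (k3.smul (t1 * t2))).cast ?_, u, hu, fun h0 => z3 ?_⟩
    · rw [h3]; simp only [sg_smul, sg_add, smul_add]; module
    · simp only [Pi.add_apply, Pi.smul_apply, h3] at h0
      have e1 := congrArg (fun v => om v (a2 u)) h0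
      have e2 := congrArg (fun v => om (a1 u) v) h0
      simp only [om_add_left, om_smul_left, om_self, om_zero_left, om_add_right, om_smul_right,
        om_zero_right] at e1 e2
      have ha : α = 0 := by
        have : α * (t2 * (t1 - t3) * om (a1 u) (a2 u)) = 0 := by linear_combination e1
        simpa [n2, hp, sub_ne_zero.2 h13] using this
      have hb : β = 0 := by
        have : β * (t1 * (t2 - t3) * om (a1 u) (a2 u)) = 0 := by linear_combination e2
        simpa [n1, hp, sub_ne_zero.2 h23] using this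
      simp [h3, ha, hb]

theorem Sing.of_ev {u : ι} (hu : u ∈ S) (h : ∀ᶠ t in cofinite, Sing L S (Hc.mv y u t) T) :
    Sing L S y (insert u T) := by
  intro z hz
  by_cases huT : u ∈ T
  · obtain ⟨t, ht⟩ := h.exists
    exact ht z fun i hi => by
      have : i ≠ u := fun e => hi (e ▸ huT)
      rw [mv_ne _ _ this]; exact hz i (by simp [this, hi])
  refine closure hu ?_
  have hinj : Injective fun t : ℂ => z u - y u + t := add_right_injective _
  refine (hinj.tendsto_cofinite.eventually h).mono fun t ht => ht _ fun i hi => ?_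
  by_cases e : i = u
  · subst e; simp only [mv_same]; ring
  · rw [mv_ne _ _ e, mv_ne _ _ e]; exact hz i (by simp [e, hi])

/-- Induction along generic moves. -/
theorem gen_ind {U : Finset ι} (G : (ι → ℂ) → Finset ι → Prop)
    (step : ∀ z u T, u ∉ T → G z (insert u T) → ∀ᶠ t in cofinite, G (Hc.mv z u t) T)
    (base : ∀ z, G z ∅ → Sing L S z U) :
    ∀ T : Finset ι, T ⊆ S → ∀ z, G z T → Sing L S z (T ∪ U) := by
  intro T
  induction T using Finset.induction_on with
  | empty => intro _ z hz; simpa using base z hz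
  | insert u T hu ih =>
    intro hT z hz
    rw [Finset.insert_union]
    refine Sing.of_ev (hT (Finset.mem_insert_self _ _)) ((step z u T hu hz).mono fun t ht => ?_)
    exact ih (fun i hi => hT (Finset.mem_insert_of_mem hi)) _ ht

omit [DecidableEq ι] in
theorem Kn.sing (h : Kn L S z) : Sing L S z ∅ := fun w hw => by
  have : w = z := funext fun i => hw i (by simp)
  rwa [this]

end sing

end Pool.Agent.P.MP_08e617_lc.Hc
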