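import Pool.Agent.P.MP_08e617_lc.HcA

/-! Jets of the kernel vector. -/

namespace Pool.Agent.P.MP_08e617_lc.Hc

open Filter Function

variable {ι : Type} [Fintype ι] [DecidableEq ι]

/-- On `S` the kernel is spanned by `X`, which has no zero block there. -/
structure Good (L : Rel ι) (S : Finset ι) (y : ι → ℂ) (X : Vec ι) : Prop where
  ker : R L y X 0
  ne : ∀ i ∈ S, X i ≠ 0
  uniq : ∀ a, R L y a 0 → ∃ s : ℂ, ∀ i ∈ S, a i = s • X i

/-- Some kernel vector is nonzero at `i`. -/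
def KAt (L : Rel ι) (y : ι → ℂ) (i : ι) : Prop := ∃ a, R L y a 0 ∧ a i ≠ 0

/-- First order jets. -/
structure J1 (L : Rel ι) (y : ι → ℂ) (X : Vec ι) (j : ι) (D : Vec ι) : Prop where
  rel : R L y D (sg j (X j))
  zero : D j = 0

/-- Second order jets. -/
structure J2 (L : Rel ι) (y : ι → ℂ) (a b : ι) (Da Db E : Vec ι) : Prop where
  rel : R L y E (sg a (Db a) + sg b (Da b))
  za : E a = 0
  zb : E b = 0

variable {L L' : Rel ι} {S T : Finset ι} {y z : ι → ℂ} {X X' Y D Da Db E : Vec ι} {u i j a b : ι}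

section nofin
omit [Fintype ι]

omit [DecidableEq ι] in
theorem Good.mono (h : Good L S y X) {S' : Finset ι} (hS : S' ⊆ S) : Good L S' y X :=
  ⟨h.ker, fun i hi => h.ne i (hS hi), fun a ha => (h.uniq a ha).imp fun _ hs i hi => hs i (hS hi)⟩

omit [DecidableEq ι] in
theorem Good.kat (h : Good L S y X) (hi : i ∈ S) : KAt L y i := ⟨X, h.ker, h.ne i hi⟩

omit [DecidableEq ι] in
theorem Good.kn (h : Good L S y X) {S' : Finset ι} (hS : S' ⊆ S) (hne : S'.Nonempty) :
    Kn L S' y := ⟨X, h.ker, hne.imp fun i hi => ⟨hi, h.ne i (hS hi)⟩⟩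

omit [DecidableEq ι] in
theorem Good.vanish (h : Good L S y X) (hk : R L y Y 0) (hu : u ∈ S) (h0 : Y u = 0) :
    ∀ i ∈ S, Y i = 0 := by
  obtain ⟨s, hs⟩ := h.uniq _ hk
  have : s = 0 := (smul_eq_zero.1 ((hs u hu).symm.trans h0)).resolve_right (h.ne u hu)
  intro i hi
  simp [hs i hi, this]

theorem J2.symm (h : J2 L y a b Da Db E) : J2 L y b a Db Da E :=
  ⟨h.rel.cast (add_comm _ _), h.zb, h.za⟩

theorem J1.ker (hX : R L y X 0) (h : J1 L y X u D) (t : ℂ) : R L (mv y u t) (X + t • D) 0 := by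
  rw [R_mv]
  refine (hX.add (h.rel.smul t)).cast ?_
  simp [h.zero, sg_smul]

theorem J1.self (h : J1 L y X u D) (t : ℂ) : J1 L (mv y u t) (X + t • D) u D := by
  refine ⟨?_, h.zero⟩
  rw [R_mv]
  exact h.rel.cast (by simp [h.zero])

theorem J1.shift (hb : J1 L y X b Db) (h : J2 L y a b Da Db E) (t : ℂ) :
    J1 L (mv y a t) (X + t • Da) b (Db + t • E) := by
  refine ⟨?_, by simp [hb.zero, h.zb]⟩
  rw [R_mv]
  refine (hb.rel.add (h.rel.smul t)).cast ?_
  simp only [Pi.add_apply, Pi.smul_apply, h.za, sg_add, sg_smul, smul_zero, add_zero, smul_add]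
  module

theorem J1.unique (hg : Good L S y X) (hj : j ∈ S) {D' : Vec ι} (h : J1 L y X j D)
    (h' : J1 L y X j D') : ∀ i ∈ S, D i = D' i := by
  intro i hi
  have := hg.vanish ((h.rel.sub h'.rel).cast (sub_self _)) hj (by simp [h.zero, h'.zero]) i hi
  exact sub_eq_zero.1 this

theorem Sing.one (hg : Good L S y X) (hu : u ∈ S) (h : Sing L S y {u}) (t : ℂ) :
    ∃ a, R L y a (sg u (t • a u)) ∧ a u ≠ 0 := by
  obtain ⟨a, ha, i, hi, hne⟩ := h (Hc.mv y u t) fun i hi => mv_ne _ _ (by simpa using hi)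
  rw [R_mv, zero_add] at ha
  exact ⟨a, ha, fun h0 => hne (hg.vanish (by simpa [h0] using ha) hu h0 i hi)⟩

end nofin

omit [DecidableEq ι] in
theorem Dual.ker_pair (hd : Dual L L') {d : Vec ι} (h : R L y D d) (hY : R L' y Y 0) :
    Bf d Y = 0 := by
  rw [← hd.orth h hY, Bf_zero_right]

theorem J1.fo (hd : Dual L L') (h : J1 L y X u D) (hY : R L' y Y 0) : om (X u) (Y u) = 0 := by
  simpa using hd.ker_pair h.rel hY

theorem first_order (hd : Dual L L') (hg : Good L S y X) (hu : u ∈ S) (h : Sing L S y {u})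
    (hY : R L' y Y 0) : om (X u) (Y u) = 0 := by
  by_cases h0 : Y u = 0
  · simp [h0]
  obtain ⟨a1, k1, n1⟩ := h.one hg hu 1
  obtain ⟨a2, k2, n2⟩ := h.one hg hu 2
  have e1 := hd.ker_pair k1 hY
  have e2 := hd.ker_pair k2 hY
  simp only [Bf_sg_left, om_smul_left, one_mul, mul_eq_zero, OfNat.ofNat_ne_zero, false_or] at e1 e2
  obtain ⟨c1, h1⟩ := par_of_om h0 (by rw [om_comm, e1, neg_zero] : om (Y u) (a1 u) = 0)
  obtain ⟨c2, h2⟩ := par_of_om h0 (by rw [om_comm, e2, neg_zero] : om (Y u) (a2 u) = 0)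
  have c10 : c1 ≠ 0 := by rintro rfl; simp [h1] at n1
  have c20 : c2 ≠ 0 := by rintro rfl; simp [h2] at n2
  obtain ⟨s, hs⟩ := hg.uniq _ (((k1.smul (2 * c2)).sub (k2.smul c1)).cast
    (by rw [h1, h2]; simp only [sg_smul]; module))
  have := congrArg (om (X u)) (hs u hu)
  simp only [Pi.sub_apply, Pi.smul_apply, h1, h2, om_sub_right, om_smul_right, om_self] at this
  have h3 : c1 * c2 * om (X u) (Y u) = 0 := by linear_combination this
  simpa [c10, c20] using h3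

theorem exists_J1 (hd : Dual L L') (hg : Good L S y X) (hu : u ∈ S) (h : Sing L S y {u})
    (hk : KAt L' y u) : ∃ D, J1 L y X u D := by
  obtain ⟨Y, hY, h0⟩ := hk
  obtain ⟨a, k1, n1⟩ := h.one hg hu 1
  have e1 := hd.ker_pair k1 hY
  simp only [Bf_sg_left, om_smul_left, one_mul] at e1
  obtain ⟨c, hc⟩ := par_of_om (hg.ne u hu) (om_trans h0 (first_order hd hg hu h hY) e1)
  have c0 : c ≠ 0 := by rintro rfl; simp [hc] at n1
  refine ⟨c⁻¹ • a - X, ((k1.smul c⁻¹).sub hg.ker).cast ?_, by simp [hc, c0]⟩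
  simp [hc, sg_smul, c0]

theorem left_J1 (hd : Dual L L') (hg : Good L S y X) (hu : u ∈ S) (h : J1 L y X u D)
    (hY : R L' y Y 0) : ∃ D', J1 L' y Y u D' := by
  by_cases h0 : Y u = 0
  · exact ⟨0, by simpa [h0] using R.zero L' y, rfl⟩
  have fo := h.fo hd hY
  obtain ⟨D', hD'⟩ := hd.fr' y (sg u (Y u)) fun a ha => by
    obtain ⟨s, hs⟩ := hg.uniq a ha
    rw [Bf_sg_left, hs u hu, om_smul_right, om_comm, fo]; simp
  have e := hd.orth h.rel hD'
  simp only [Bf_sg_right, h.zero, om_zero_left, Bf_sg_left] at e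
  obtain ⟨μ, hμ⟩ := par_of_om h0 (om_trans (hg.ne u hu) (by rw [om_comm, fo, neg_zero])
    (by rw [om_comm, ← e, neg_zero]) : om (Y u) (D' u) = 0)
  exact ⟨D' - μ • Y, (hD'.sub (hY.smul μ)).cast (by simp), by simp [hμ]⟩

theorem good_mv (hd : Dual L L') (hg : Good L S y X) (hu : u ∈ S) (h : J1 L y X u D)
    (hk : KAt L' y u) : ∀ᶠ t in cofinite, Good L S (mv y u t) (X + t • D) := by
  obtain ⟨Y, hY, h0⟩ := hk
  have h1 : ∀ᶠ t : ℂ in cofinite, ∀ i ∈ S, X i + t • D i ≠ 0 :=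
    (eventually_all_finset S).2 fun i hi => ev_vec _ (hg.ne i hi)
  filter_upwards [h1, eventually_cofinite_ne 0] with t ht ht0
  refine ⟨h.ker hg.ker t, ht, fun a ha => ?_⟩
  rw [R_mv, zero_add] at ha
  have e1 := hd.ker_pair ha hY
  simp only [Bf_sg_left, om_smul_left, mul_eq_zero, ht0, false_or] at e1
  obtain ⟨c, hc⟩ := par_of_om (hg.ne u hu) (om_trans h0 (h.fo hd hY) e1)
  have := hg.vanish (((ha.sub (h.rel.smul (c * t))).sub (hg.ker.smul c)).cast
    (by rw [hc]; simp only [sg_smul]; module)) hu (by simp [hc, h.zero])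
  refine ⟨c, fun i hi => ?_⟩
  have h2 := this i hi
  simp only [Pi.sub_apply, Pi.smul_apply, Pi.add_apply] at h2 ⊢
  linear_combination (norm := module) h2

theorem kat_mv (hd : Dual L L') (hg : Good L S y X) (hu : u ∈ S) (h : J1 L y X u D)
    (hk : KAt L' y i) : ∀ᶠ t in cofinite, KAt L' (mv y u t) i := by
  obtain ⟨Y, hY, h0⟩ := hk
  obtain ⟨D', hD'⟩ := left_J1 hd hg hu h hY
  exact (ev_vec (D' i) h0).mono fun t ht => ⟨_, hD'.ker hY t, ht⟩

/-- A good point at which the dual kernel is nowhere identically zero on `S`. -/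
structure Pt (L L' : Rel ι) (S : Finset ι) (y : ι → ℂ) (X : Vec ι) : Prop where
  dual : Dual L L'
  good : Good L S y X
  kat : ∀ i ∈ S, KAt L' y i

omit [DecidableEq ι] in
theorem Pt.mono (h : Pt L L' S y X) {S' : Finset ι} (hS : S' ⊆ S) : Pt L L' S' y X :=
  ⟨h.dual, h.good.mono hS, fun i hi => h.kat i (hS hi)⟩

theorem Pt.j1 (h : Pt L L' S y X) (hu : u ∈ S) (hs : Sing L S y T) (huT : u ∈ T) :
    ∃ D, J1 L y X u D :=
  exists_J1 h.dual h.good hu (hs.mono (by simpa using huT)) (h.kat u hu)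

theorem Pt.mv (h : Pt L L' S y X) (hu : u ∈ S) (hD : J1 L y X u D) :
    ∀ᶠ t in cofinite, Pt L L' S (Hc.mv y u t) (X + t • D) := by
  filter_upwards [good_mv h.dual h.good hu hD (h.kat u hu), (eventually_all_finset S).2
    fun i hi => kat_mv h.dual h.good hu hD (h.kat i hi)] with t h1 h2
  exact ⟨h.dual, h1, h2⟩

theorem Pt.transfer {M : Rel ι} {S' : Finset ι} (h : Pt L L' S y X) (hs : Sing L S y T)
    (hT : T ⊆ S) (hT' : T ⊆ S') (hM : ∀ z X, Pt L L' S z X → Kn M S' z) : Sing M S' y T := by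
  have := gen_ind (L := M) (S := S') (U := ∅)
    (fun z T => T ⊆ S ∧ Sing L S z T ∧ ∃ X, Pt L L' S z X) ?_ ?_ T hT' y ⟨hT, hs, X, h⟩
  · simpa using this
  · rintro z u T - ⟨h1, h2, X, h3⟩
    have hu := h1 (Finset.mem_insert_self u T)
    obtain ⟨D, hD⟩ := h3.j1 hu h2 (Finset.mem_insert_self u T)
    exact (h3.mv hu hD).mono fun t ht => ⟨(Finset.subset_insert _ _).trans h1,
      h2.mv (Finset.subset_insert _ _) (Finset.mem_insert_self u T) t, _, ht⟩
  · rintro z ⟨-, -, X, h3⟩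
    exact (hM z X h3).sing

theorem Pt.loc {S' : Finset ι} (h : Pt L L' S y X) (hs : Sing L S y T) (hT : T ⊆ S')
    (hS : S' ⊆ S) (hne : S'.Nonempty) : Sing L S' y T :=
  h.transfer hs (hT.trans hS) hT fun _ _ hp => hp.good.kn hS hne

theorem Pt.left (h : Pt L L' S y X) (hs : Sing L S y T) (hT : T ⊆ S) (hne : S.Nonempty) :
    Sing L' S y T :=
  h.transfer hs hT hT fun _ _ hp => by
    obtain ⟨i, hi⟩ := hne
    obtain ⟨a, ha, hn⟩ := hp.kat i hi
    exact ⟨a, ha, i, hi, hn⟩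

omit [Fintype ι] in
theorem J2_explicit (hX : R L y X 0) (ha : J1 L y X a Da) (hb : J1 L y X b Db) {α β : ℂ}
    (h1 : Db a = α • X a) (h2 : Da b = β • X b) :
    J2 L y a b Da Db (α • Da + β • Db - (α * β) • X) := by
  refine ⟨(((ha.rel.smul α).add (hb.rel.smul β)).sub (hX.smul _)).cast ?_, ?_, ?_⟩
  · simp [h1, h2, sg_smul]
  · simp [ha.zero, h1, smul_smul, mul_comm]
  · simp [hb.zero, h2, smul_smul]

theorem J2_adj (h : Pt L L' S y X) (ha : a ∈ S) (hb : b ∈ S) (hs : Sing L S y {a, b})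
    (hDa : J1 L y X a Da) (hDb : J1 L y X b Db) (hadj : om (X a) (Db a) ≠ 0) :
    ∃ E, J2 L y a b Da Db E := by
  obtain ⟨t, hp, ht0⟩ := ((h.mv ha hDa).and (eventually_cofinite_ne 0)).exists
  obtain ⟨Dt, hDt⟩ := hp.j1 hb (hs.mv subset_rfl (by simp) t) (by simp)
  have key : ∀ᶠ s : ℂ in cofinite, 0 + (om (X a) (Db a) + om (Dt a) (X a)) * s +
      om (Dt a) (Db a) * s ^ 2 = 0 := by
    filter_upwards [h.mv hb hDb, eventually_cofinite_ne 0] with s hq hs0
    have w := hDt.ker hp.good.ker s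
    rw [mv_comm, R_mv, zero_add] at w
    obtain ⟨Y, hY, h0⟩ := hq.kat a ha
    have e1 := h.dual.ker_pair w hY
    simp only [Bf_sg_left, om_smul_left, mul_eq_zero, ht0, false_or] at e1
    have e2 := first_order h.dual hq.good ha (hs.mv (by simp) (by simp) s) hY
    have e3 := om_trans h0 e1 e2
    simp only [Pi.add_apply, Pi.smul_apply, hDa.zero, smul_zero, add_zero, om_add_left,
      om_add_right, om_smul_left, om_smul_right, om_self] at e3
    linear_combination e3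
  obtain ⟨-, k1, k2⟩ := coef_of_ev key
  have hne : Db a ≠ 0 := fun h0 => hadj (by simp [h0])
  obtain ⟨μ, hμ⟩ := par_of_om hne (by rw [om_comm, k2, neg_zero] : om (Db a) (Dt a) = 0)
  rw [hμ, om_smul_left, om_comm (Db a)] at k1
  have hμ1 : μ = 1 := mul_right_cancel₀ hadj (by linear_combination -k1)
  rw [hμ1, one_smul] at hμ
  have r := hDt.rel
  rw [R_mv] at r
  refine ⟨t⁻¹ • (Dt - Db), ((r.sub hDb.rel).smul t⁻¹).cast ?_, by simp [hμ],
    by simp [hDt.zero, hDb.zero]⟩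
  simp only [Pi.add_apply, Pi.smul_apply, hμ, sg_add, sg_smul]
  have : sg b (X b) + t • sg b (Da b) + t • sg a (Db a) - sg b (X b) =
    t • (sg a (Db a) + sg b (Da b)) := by module
  rw [this, smul_smul, inv_mul_cancel₀ ht0, one_smul]

theorem Pt.j2 (h : Pt L L' S y X) (ha : a ∈ S) (hb : b ∈ S) (hs : Sing L S y T) (haT : a ∈ T)
    (hbT : b ∈ T) (hDa : J1 L y X a Da) (hDb : J1 L y X b Db) : ∃ E, J2 L y a b Da Db E := by
  have hs' : Sing L S y {a, b} := hs.mono (by simp [Finset.insert_subset_iff, haT, hbT])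
  by_cases h1 : om (X a) (Db a) = 0
  · by_cases h2 : om (X b) (Da b) = 0
    · obtain ⟨α, hα⟩ := par_of_om (h.good.ne a ha) h1
      obtain ⟨β, hβ⟩ := par_of_om (h.good.ne b hb) h2
      exact ⟨_, J2_explicit h.good.ker hDa hDb hα hβ⟩
    · obtain ⟨E, hE⟩ := J2_adj h hb ha (by rwa [Finset.pair_comm]) hDb hDa h2
      exact ⟨E, hE.symm⟩
  · exact J2_adj h ha hb hs' hDa hDb h1

end Pool.Agent.P.MP_08e617_lc.Hc
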