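import Pool.Agent.P.MP_08e617_lc.HcC

/-! Gluing independent blocks, components, and the untwisted case. -/

namespace Pool.Agent.P.MP_08e617_lc.Hc

open Filter Function

variable {ι : Type} [Fintype ι] [DecidableEq ι]

variable {L L' : Rel ι} {S T C U : Finset ι} {y z w : ι → ℂ} {X X' Y D D' Da Db E : Vec ι}
  {u i j k l a b : ι}

/-- Every defect at `b` occurs. -/
def Free (L : Rel ι) (y : ι → ℂ) (b : ι) : Prop := ∀ g, ∃ a, R L y a (sg b g)

omit [Fintype ι] [DecidableEq ι] in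
theorem ne_of_out (hi : i ∉ S) (hu : u ∈ S) : i ≠ u := fun e => hi (e ▸ hu)

/-- Index set of the generators used for gluing. -/
abbrev GI (𝓑 : Finset (Finset ι)) (Fr : Finset ι) := Option (𝓑 ⊕ Fr ⊕ Fr)

omit [Fintype ι] in
theorem glue (hX : R L w X 0) (hXne : ∃ i ∈ S, X i ≠ 0) (𝓑 : Finset (Finset ι)) (Fr : Finset ι)
    (hBS : ∀ C ∈ 𝓑, C ⊆ S) (hFS : Fr ⊆ S)
    (hdisj : ∀ C ∈ 𝓑, ∀ C' ∈ 𝓑, C ≠ C' → ∀ i ∈ C, i ∉ C') (hdF : ∀ C ∈ 𝓑, ∀ i ∈ C, i ∉ Fr)
    (hsing : ∀ C ∈ 𝓑, Sing L C w C) (hfree : ∀ b ∈ Fr, Free L w b)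
    (par1 : ∀ C ∈ 𝓑, ∀ C' ∈ 𝓑, C ≠ C' → ∀ F d, R L w F d → (∀ i ∉ C, d i = 0) →
      ∃ β : ℂ, ∀ l ∈ C', F l = β • X l)
    (par2 : ∀ b ∈ Fr, ∀ C' ∈ 𝓑, ∀ F g, R L w F (sg b g) → ∃ β : ℂ, ∀ l ∈ C', F l = β • X l)
    (hU : ∀ i ∈ U, i ∈ Fr ∨ ∃ C ∈ 𝓑, i ∈ C) : Sing L S w U := by
  intro z hz
  have h1 : ∀ C : 𝓑, ∃ a, R L w a (fun i => if i ∈ C.1 then (z i - w i) • a i else 0) ∧
      ∃ i ∈ C.1, a i ≠ 0 := fun C => by
    obtain ⟨a, ha, hn⟩ := hsing C C.2 (fun i => if i ∈ C.1 then z i else w i) fun i hi => if_neg hi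
    refine ⟨a, ((R_move (y := w) _).1 ha).cast (funext fun i => ?_), hn⟩
    split_ifs <;> simp
  choose aC haC hne using h1
  have h2 : ∀ C C' : 𝓑, ∃ β : ℂ, ∀ l ∈ C'.1,
      aC C l = β • X l + if C = C' then aC C' l else 0 := fun C C' => by
    by_cases h : C = C'
    · exact ⟨0, fun l _ => by simp [h]⟩
    · obtain ⟨β, hβ⟩ := par1 C C.2 C' C'.2 (fun e => h (Subtype.ext e)) _ _ (haC C)
        fun i hi => if_neg hi
      exact ⟨β, fun l hl => by simp [h, hβ l hl]⟩
  choose β1 hβ1 using h2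
  choose f hf using fun (b : Fr) g => hfree b b.2 g
  choose β2 hβ2 using fun (b : Fr) g (C : 𝓑) => par2 b b.2 C C.2 _ g (hf b g)
  let F : GI 𝓑 Fr → Vec ι := fun g => match g with
    | none => X
    | some (.inl C) => aC C
    | some (.inr (.inl b)) => f b (1, 0)
    | some (.inr (.inr b)) => f b (0, 1)
  let dd : GI 𝓑 Fr → Vec ι := fun g => match g with
    | none => 0
    | some (.inl C) => fun i => if i ∈ C.1 then (z i - w i) • aC C i else 0
    | some (.inr (.inl b)) => sg b (1, 0)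
    | some (.inr (.inr b)) => sg b (0, 1)
  let β : GI 𝓑 Fr → 𝓑 → ℂ := fun g => match g with
    | none => 1
    | some (.inl C) => β1 C
    | some (.inr (.inl b)) => β2 b (1, 0)
    | some (.inr (.inr b)) => β2 b (0, 1)
  have hR : ∀ g, R L w (F g) (dd g) := by
    rintro (_ | C | b | b)
    exacts [hX, haC C, hf b _, hf b _]
  have PF : ∀ g (C : 𝓑), ∀ l ∈ C.1,
      F g l = β g C • X l + if g = some (.inl C) then aC C l else 0 := by
    rintro (_ | C' | b | b) C l hl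
    · simp [F, β]
    · simpa [F, β] using hβ1 C' C l hl
    · simpa [F, β] using hβ2 b _ C l hl
    · simpa [F, β] using hβ2 b _ C l hl
  have Pd : ∀ g (C : 𝓑), ∀ l ∈ C.1,
      dd g l = if g = some (.inl C) then (z l - w l) • aC C l else 0 := by
    rintro (_ | C' | b | b) C l hl
    · simp [dd]
    · by_cases h : C' = C
      · subst h; simp [dd, hl]
      · have := hdisj C C.2 C' C'.2 (fun e => h (Subtype.ext e.symm)) l hl
        simp [dd, h, this]
    · have : l ≠ b := fun e => hdF C C.2 l hl (e ▸ b.2)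
      simp [dd, sg_ne this]
    · have : l ≠ b := fun e => hdF C C.2 l hl (e ▸ b.2)
      simp [dd, sg_ne this]
  have Pd0 : ∀ g i, i ∉ Fr → (∀ C ∈ 𝓑, i ∉ C) → dd g i = 0 := by
    rintro (_ | C' | b | b) i h1 h2
    · rfl
    · simp [dd, h2 C' C'.2]
    · exact sg_ne (ne_of_out h1 b.2) _
    · exact sg_ne (ne_of_out h1 b.2) _
  let v : GI 𝓑 Fr → (𝓑 → ℂ) × (Fr → V2) := fun g => (β g, fun b => dd g b - (z b - w b) • F g b)
  have hdep : ¬ LinearIndependent ℂ v := fun h => by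
    have := h.fintype_card_le_finrank
    simp [Module.finrank_pi_fintype] at this
    omega
  obtain ⟨c, hc, g0, hg0⟩ := Fintype.not_linearIndependent_iff.1 hdep
  have e1 : ∀ C, ∑ g, c g * β g C = 0 := fun C => by
    simpa [v, Prod.fst_sum, Finset.sum_apply] using congrArg (fun p => p.1 C) hc
  have e2 : ∀ b ∈ Fr, (∑ g, c g • dd g) b = (z b - w b) • (∑ g, c g • F g) b := fun b hb => by
    have := congrArg (fun p => p.2 ⟨b, hb⟩) hc
    simp only [v, Prod.snd_sum, Finset.sum_apply, Prod.smul_snd, Pi.smul_apply, smul_sub,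
      Finset.sum_sub_distrib, Prod.snd_zero, Pi.zero_apply] at this
    simp only [Finset.sum_apply, Pi.smul_apply, Finset.smul_sum, smul_comm (z b - w b)]
    exact sub_eq_zero.1 this
  have e3 : ∀ C : 𝓑, ∀ l ∈ C.1, (∑ g, c g • F g) l = c (some (.inl C)) • aC C l := fun C l hl => by
    simp only [Finset.sum_apply, Pi.smul_apply, PF _ C l hl, smul_add, Finset.sum_add_distrib,
      smul_smul, ← Finset.sum_smul, e1, zero_smul, zero_add, smul_ite, smul_zero,
      Finset.sum_ite_eq', Finset.mem_univ, if_true]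
  refine ⟨∑ g, c g • F g, (R_move (y := w) _).2
    ((R.sum Finset.univ fun g _ => (hR g).smul (c g)).cast (funext fun i => ?_)), ?_⟩
  · rw [Pi.zero_apply, zero_add]
    by_cases h1 : i ∈ Fr
    · exact e2 i h1
    by_cases h2 : ∃ C ∈ 𝓑, i ∈ C
    · obtain ⟨C, hC, hi⟩ := h2
      rw [e3 ⟨C, hC⟩ i hi]
      simp only [Finset.sum_apply, Pi.smul_apply, Pd _ ⟨C, hC⟩ i hi, smul_ite, smul_zero,
        Finset.sum_ite_eq', Finset.mem_univ, if_true, smul_comm (z i - w i)]
    · have h3 : i ∉ U := fun h => (hU i h).elim h1 h2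
      push Not at h2
      simp [hz i h3, Finset.sum_apply, Pd0 _ i h1 h2]
  · by_contra hcon
    push Not at hcon
    have c1 : ∀ C, c (some (.inl C)) = 0 := fun C => by
      obtain ⟨i, hi, hn⟩ := hne C
      have := hcon i (hBS C C.2 hi)
      rw [e3 C i hi] at this
      exact (smul_eq_zero.1 this).resolve_right hn
    have c2 : ∀ b : Fr, c (some (.inr (.inl b))) = 0 ∧ c (some (.inr (.inr b))) = 0 := fun b => by
      have := e2 b b.2
      rw [hcon b (hFS b.2), smul_zero] at this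
      have hs : ∀ (x : Fr → ℂ) (p : V2), ∑ b' : Fr, x b' • sg (b' : ι) p b = x b • p := by
        intro x p
        rw [Finset.sum_eq_single b (fun b' _ h => ?_) (by simp), sg_same]
        rw [sg_ne (fun e => h (Subtype.ext e.symm)), smul_zero]
      simp only [Finset.sum_apply, Fintype.sum_option, Fintype.sum_sum_type, Pi.smul_apply, dd,
        c1, zero_smul, Finset.sum_const_zero, Pi.zero_apply, smul_zero, zero_add, hs] at this
      simpa [Prod.ext_iff] using this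
    have c0 : c none = 0 := by
      obtain ⟨i, hi, hn⟩ := hXne
      have := hcon i hi
      simp only [Finset.sum_apply, Fintype.sum_option, Fintype.sum_sum_type, Pi.smul_apply,
        c1, c2, zero_smul, Finset.sum_const_zero, add_zero, F] at this
      exact (smul_eq_zero.1 this).resolve_right hn
    rcases g0 with (_ | C | b | b)
    exacts [hg0 c0, hg0 (c1 C), hg0 (c2 b).1, hg0 (c2 b).2]

open Classical in
/-- The component of `k` in `U`. -/
noncomputable def comp (r : ι → ι → Prop) (U : Finset ι) (k : ι) : Finset ι :=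
  U.filter (Relation.ReflTransGen (fun a b => a ∈ U ∧ b ∈ U ∧ r a b) k)

section comp
omit [Fintype ι] [DecidableEq ι]
variable {r : ι → ι → Prop}

theorem mem_comp : b ∈ comp r U k ↔
    b ∈ U ∧ Relation.ReflTransGen (fun a b => a ∈ U ∧ b ∈ U ∧ r a b) k b := by
  simp [comp]

theorem comp_subset : comp r U k ⊆ U := fun _ h => (mem_comp.1 h).1

theorem self_mem_comp (hk : k ∈ U) : k ∈ comp r U k := mem_comp.2 ⟨hk, .refl⟩

theorem comp_closed (ha : a ∈ comp r U k) (hb : b ∈ U) (h : r a b) : b ∈ comp r U k :=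
  mem_comp.2 ⟨hb, (mem_comp.1 ha).2.tail ⟨(mem_comp.1 ha).1, hb, h⟩⟩

theorem comp_symm (hr : ∀ a ∈ U, ∀ b ∈ U, r a b → r b a)
    (h : Relation.ReflTransGen (fun a b => a ∈ U ∧ b ∈ U ∧ r a b) a b) :
    Relation.ReflTransGen (fun a b => a ∈ U ∧ b ∈ U ∧ r a b) b a := by
  induction h with
  | refl => exact .refl
  | tail _ h ih => exact .head ⟨h.2.1, h.1, hr _ h.1 _ h.2.1 h.2.2⟩ ih

theorem conn_comp (hr : ∀ a ∈ U, ∀ b ∈ U, r a b → r b a) : Conn r (comp r U k) := by
  intro p c hc hp hs b hb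
  have key : ∀ x, Relation.ReflTransGen (fun a b => a ∈ U ∧ b ∈ U ∧ r a b) c x →
      x ∈ comp r U k ∧ p x := by
    intro x hx
    induction hx with
    | refl => exact ⟨hc, hp⟩
    | tail _ h ih =>
      have := comp_closed ih.1 h.2.1 h.2.2
      exact ⟨this, hs _ ih.1 _ this h.2.2 ih.2⟩
  exact (key b ((comp_symm hr (mem_comp.1 hc).2).trans (mem_comp.1 hb).2)).2

theorem comp_eq (hr : ∀ a ∈ U, ∀ b ∈ U, r a b → r b a) (h : a ∈ comp r U k) :
    comp r U a = comp r U k := by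
  ext b
  simp only [mem_comp]
  exact and_congr_right fun _ => ⟨fun h' => (mem_comp.1 h).2.trans h',
    fun h' => (comp_symm hr (mem_comp.1 h).2).trans h'⟩

end comp

theorem skew (h : BG L L' S y X X') (hne : S.Nonempty) (hs : ∀ a ∈ S, ∀ b ∈ S, Sing L S y {a, b})
    (hc : Conn (Adj L y) S) (u1 : ∀ j ∈ S, ∀ k ∈ S, ¬ Tw L L' y j k)
    (u2 : ∀ a ∈ S, ∀ b ∈ S, Adj L y a b → ∀ k ∈ S,
      ¬ ∀ᶠ t in cofinite, Tw L L' (mv y a t) b k) : Sing L S y S := by
  have h1 : ∀ i, ∃ θ : ℂ, (i ∉ S → θ = 0) ∧ (i ∈ S → θ ≠ 0 ∧ X' i = θ • X i) := fun i => by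
    by_cases hi : i ∈ S
    · obtain ⟨D, hD⟩ := h.pt.j1 hi (hs i hi i hi) (by simp)
      obtain ⟨θ, hθ⟩ := h.theta hi hD
      exact ⟨θ, fun h' => absurd hi h', fun _ => hθ⟩
    · exact ⟨0, fun _ => rfl, fun h' => absurd h' hi⟩
  choose θ hθ0 hθ using h1
  let m : Vec ι → Vec ι := fun e i => θ i • e i
  have m_add : ∀ e e', m (e + e') = m e + m e' := fun e e' => by funext i; simp [m]
  have m_sm : ∀ (c : ℂ) e, m (c • e) = c • m e := fun c e => by
    funext i; simp [m, smul_comm c]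
  have m_sg : ∀ u v, m (sg u v) = sg u (θ u • v) := fun u v => by
    funext i; by_cases hi : i = u <;> simp [m, sg, hi]
  have m0 : m 0 = 0 := by funext i; simp [m]
  have untw : ∀ j ∈ S, ∀ D D', J1 L y X j D → J1 L' y X' j D' → ∀ k ∈ S, D' k = θ k • D k :=
    fun j hj D D' hD hD' k hk => by
      simpa [h.tw_iff hj hk hD hD' (hθ k hk).2] using u1 j hj k hk
  have iso0 : ∀ a d, R L y a d → (∀ i ∉ S, d i = 0) → ∀ b e, R L y b e → (∀ i ∉ S, e i = 0) →
      Bf a (m e) = Bf d (m b) := by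
    intro a d ha hd b e hb he
    have key : ∀ b e b', R L' y b' (m e) → (∀ i ∈ S, b' i = θ i • b i) →
        Bf a (m e) = Bf d (m b) := fun b e b' h1 h2 => by
      rw [h.dual.orth ha h1]
      refine Finset.sum_congr rfl fun i _ => ?_
      by_cases hi : i ∈ S
      · rw [h2 i hi]
      · simp [hd i hi]
    refine h.pt.span subset_rfl hs hc (fun b e => Bf a (m e) = Bf d (m b)) ?_ ?_ ?_ ?_ ?_ hb he
    · intro b e b' e' h1 h2; simp [m_add, h1, h2]
    · intro c b e h1; simp [m_sm, h1]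
    · intro b hb
      obtain ⟨s, hs⟩ := h.good.uniq b hb
      refine key b 0 (s • X') ((h.good'.ker.smul s).cast (by simp [m0])) fun i hi => ?_
      simp [hs i hi, (hθ i hi).2, smul_comm s]
    · intro j hj D hD
      obtain ⟨D', hD'⟩ := h.left hj hD
      exact key D _ D' (hD'.rel.cast (by rw [m_sg, (hθ j hj).2])) (untw j hj D D' hD hD')
    · intro p hp q hq hpq Dp Dq E hDp hDq hE
      obtain ⟨Dp', hDp'⟩ := h.left hp hDp
      obtain ⟨Dq', hDq'⟩ := h.left hq hDq
      obtain ⟨E', hE'⟩ := h.symm.pt.j2 hp hq (h.sing' (hs p hp q hq)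
        (by simp [Finset.insert_subset_iff, hp, hq]) hp) (by simp) (by simp) hDp' hDq'
      refine key E _ E' (hE'.rel.cast (by
        rw [m_add, m_sg, m_sg, untw q hq _ _ hDq hDq' p hp, untw p hp _ _ hDp hDp' q hq]))
        fun k hk => by_contra fun hn => u2 p hp q hq hpq k hk ?_
      filter_upwards [h.mv hp hDp hDp', eventually_cofinite_ne 0] with t ht ht0
      rw [ht.tw_iff hq hk (hDq.shift hE t) (hDq'.shift hE' t) (θ := θ k)
        (by simp [(hθ k hk).2, untw p hp _ _ hDp hDp' k hk, smul_comm t])]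
      intro h3
      simp only [Pi.add_apply, Pi.smul_apply, untw q hq _ _ hDq hDq' k hk, smul_add,
        add_right_inj, smul_comm (θ k) t] at h3
      exact hn (smul_right_injective _ ht0 h3)
  have iso : ∀ z, (∀ i ∉ S, z i = y i) → ∀ a d, R L z a d → (∀ i ∉ S, d i = 0) →
      ∀ b e, R L z b e → (∀ i ∉ S, e i = 0) → Bf a (m e) = Bf d (m b) := by
    intro z hz a d ha hd b e hb he
    have := iso0 a _ ((R_move (y := y) z).1 ha) (fun i hi => by simp [hd i hi, hz i hi]) b _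
      ((R_move (y := y) z).1 hb) (fun i hi => by simp [he i hi, hz i hi])
    have e1 := Bf_shift (fun i => z i - y i) a d (m b) (m e)
    have e2 : (m fun i => e i + (z i - y i) • b i) = fun i => m e i + (z i - y i) • m b i := by
      funext i; simp [m, smul_comm (θ i)]
    rw [e2] at this
    grind
  have := gen_ind (L := L) (S := S) (U := ∅)
    (fun z T => T ⊆ S ∧ (∀ i ∉ S, z i = y i) ∧ ∃ Z Z', BG L L' S z Z Z') ?_ ?_ S subset_rfl y
    ⟨subset_rfl, fun _ _ => rfl, X, X', h⟩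
  · simpa using this
  · rintro z u T - ⟨h1, h2, Z, Z', h3⟩
    have hu := h1 (Finset.mem_insert_self u T)
    obtain ⟨D, hD⟩ := h.dual.fr z (sg u (Z' u)) fun a ha => by
      obtain ⟨s, hs⟩ := h3.good'.uniq a ha
      simp [hs u hu]
    have hsup : ∀ i ∉ S, sg u (Z' u) i = 0 := fun i hi => sg_ne (ne_of_out hi hu) _
    have e1 := iso z h2 _ _ h3.good.ker (fun _ _ => rfl) _ _ hD hsup
    have e2 := iso z h2 _ _ hD hsup _ _ hD hsup
    simp only [m_sg, Bf_sg_right, om_smul_right, Bf_zero_left, Bf_sg_left, m, mul_eq_zero,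
      (hθ u hu).1, false_or] at e1 e2
    obtain ⟨μ, hμ⟩ := par_of_om (h3.good.ne u hu) e1
    have hμ0 : μ ≠ 0 := by rintro rfl; exact h3.good'.ne u hu (by simp [hμ])
    have e3 : om (Z u) (D u) = 0 := by
      rw [hμ, om_smul_right, om_smul_left, om_comm (D u)] at e2
      have : θ u * μ * om (Z u) (D u) = 0 := by grind
      simpa [(hθ u hu).1, hμ0] using this
    obtain ⟨ν, hν⟩ := par_of_om (h3.good.ne u hu) e3
    have hJ : J1 L z Z u (μ⁻¹ • (D - ν • Z)) :=
      ⟨((hD.sub (h3.good.ker.smul ν)).smul μ⁻¹).cast (by simp [hμ, sg_smul, smul_smul, hμ0]),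
        by simp [hν]⟩
    obtain ⟨D', hD'⟩ := h3.left hu hJ
    exact (h3.mv hu hJ hD').mono fun t ht => ⟨(Finset.subset_insert _ _).trans h1,
      fun i hi => (mv_ne _ _ (ne_of_out hi hu)).trans (h2 i hi), _, _, ht⟩
  · rintro z ⟨-, -, Z, Z', h3⟩
    exact (h3.good.kn subset_rfl hne).sing

end Pool.Agent.P.MP_08e617_lc.Hc
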