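import Pool.Agent.P.MP_08e617_lc.HcD

/-! Twisted pairs. -/

namespace Pool.Agent.P.MP_08e617_lc.Hc

open Filter Function

variable {ι : Type} [Fintype ι] [DecidableEq ι]

variable {L L' : Rel ι} {S T C U : Finset ι} {y z w : ι → ℂ} {X X' Y D D' Da Db E : Vec ι}
  {u i j k l a b r r' : ι}

theorem BG.adj_iff' (h : BG L L' S y X X') (ha : a ∈ S) (hb : b ∈ S) (hs : Sing L S y T)
    (hT : T ⊆ S) (haT : a ∈ T) (hbT : b ∈ T) : Adj L' y a b ↔ Adj L y a b :=
  ⟨fun h1 => h.pt.adj_symm hb ha hs hbT haT (h.symm.adj_left ha hb (h.sing' hs hT ha) haT hbT h1),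
    fun h1 => h.adj_left hb ha hs hbT haT (h.pt.adj_symm ha hb hs haT hbT h1)⟩

theorem BG.tw_nadj (h : BG L L' S y X X') (hj : j ∈ S) (hk : k ∈ S) (hs : Sing L S y T)
    (hjT : j ∈ T) (hkT : k ∈ T) (htw : Tw L L' y j k) : ¬ Adj L y k j ∧ ¬ Adj L y j k :=
  ⟨fun h1 => h.adj_untw hj hk hs hjT hkT h1 htw,
    fun h1 => h.adj_untw hj hk hs hjT hkT (h.pt.adj_symm hj hk hs hjT hkT h1) htw⟩

theorem BG.tw_nadj_mv (h : BG L L' S y X X') (ha : a ∈ S) (hj : j ∈ S) (hk : k ∈ S)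
    (hs : Sing L S y T) (haT : a ∈ T) (hjT : j ∈ T) (hkT : k ∈ T) (htw : Tw L L' y j k) :
    (∀ᶠ t in cofinite, ¬ Adj L (Hc.mv y a t) k j) ∧ ∀ᶠ t in cofinite, ¬ Adj L (Hc.mv y a t) j k := by
  obtain ⟨D, hD⟩ := h.pt.j1 ha hs haT
  obtain ⟨D', hD'⟩ := h.left ha hD
  rw [← eventually_and]
  filter_upwards [h.mv ha hD hD', h.tw_mv ha hj (hs.mono (by
    simp [Finset.insert_subset_iff, haT, hjT])) htw hk] with t h1 h2
  exact h1.tw_nadj hj hk (hs.mv subset_rfl haT t) hjT hkT h2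

theorem BG.ej (h : BG L L' S y X X') (ha : a ∈ S) (hj : j ∈ S) (hb : b ∈ S)
    (hs : Sing L S y T) (haT : a ∈ T) (hjT : j ∈ T) (hbT : b ∈ T) (htw : Tw L L' y j b)
    (hn : ¬ Adj L y j a) (hDa : J1 L y X a Da) (hDb : J1 L y X b Db) (hE : J2 L y a b Da Db E) :
    om (X j) (E j) = 0 := by
  obtain ⟨e1, e2, -⟩ := nadj_coef h.good.ker hDa hDb hE (h.tw_nadj_mv ha hj hb hs haT hjT hbT htw).2
  obtain ⟨c, hc⟩ := nadj_par h.good hj hDa hn
  simpa [hc, e1] using e2

theorem BG.ratio (h : BG L L' S y X X') (ha : a ∈ S) (hj : j ∈ S) (hb : b ∈ S)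
    (hs : Sing L S y T) (haT : a ∈ T) (hjT : j ∈ T) (hbT : b ∈ T) (htw : Tw L L' y j b)
    (hn : ¬ Adj L y j a) (hab : Adj L y a b) (hD' : J1 L' y X' j D') {α β : ℂ}
    (hα : D' a = α • X' a) (hβ : D' b = β • X' b) : α = β := by
  obtain ⟨Da, hDa⟩ := h.pt.j1 ha hs haT
  obtain ⟨Db, hDb⟩ := h.pt.j1 hb hs hbT
  obtain ⟨Dj, hDj⟩ := h.pt.j1 hj hs hjT
  obtain ⟨E, hE⟩ := h.pt.j2 ha hb hs haT hbT hDa hDb
  have e0 := h.ej ha hj hb hs haT hjT hbT htw hn hDa hDb hE
  have e1 := h.dual.orth hE.rel hD'.rel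
  have e2 := hE.rel0 h.dual h.good'.ker
  obtain ⟨θ, -, hθ⟩ := h.theta hj hDj
  obtain ⟨θa, h0, hθa⟩ := h.theta ha hDa
  rw [adj_iff h.good ha hb hDb] at hab
  simp only [Bf_sg_right, Bf_add_left, Bf_sg_left, hα, hβ, om_smul_right, hθ, om_comm (E j), e0,
    neg_zero, mul_zero, om_smul_left] at e1
  have e3 : om (Db a) (X' a) ≠ 0 := by
    rw [hθa, om_smul_right, om_comm]; simp [h0, hab]
  exact mul_right_cancel₀ e3 (by linear_combination -e1 - β * e2)

theorem BG.tw_prop (h : BG L L' S y X X') (ha : a ∈ S) (hj : j ∈ S) (hb : b ∈ S)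
    (hs : Sing L S y T) (hT : T ⊆ S) (haT : a ∈ T) (hjT : j ∈ T) (hbT : b ∈ T)
    (htw : Tw L L' y j b) (hn : ¬ Adj L y j a) (hab : Adj L y a b) :
    Tw L L' y j a ∧ ∀ D, J1 L y X j D → ∀ α : ℂ, D b = α • X b → D a = α • X a := by
  have hs' := h.sing' hs hT ha
  have hn' : ¬ Adj L' y j a := by rwa [h.adj_iff' hj ha hs hT hjT haT]
  have key : ∀ D, J1 L y X j D → ∀ α : ℂ, D b = α • X b → D a = α • X a := fun D hD α hα => by
    obtain ⟨c, hc⟩ := nadj_par h.good ha hD fun h1 => hn (h.pt.adj_symm ha hj hs haT hjT h1)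
    rwa [← h.symm.ratio ha hj hb hs' haT hjT hbT htw.symm hn'
      ((h.adj_iff' ha hb hs hT haT hbT).2 hab) hD hc hα]
  refine ⟨?_, key⟩
  obtain ⟨D, hD⟩ := h.pt.j1 hj hs hjT
  obtain ⟨D', hD'⟩ := h.left hj hD
  obtain ⟨Da, hDa⟩ := h.pt.j1 ha hs haT
  obtain ⟨Db, hDb⟩ := h.pt.j1 hb hs hbT
  obtain ⟨θa, h0, hθa⟩ := h.theta ha hDa
  obtain ⟨θb, -, hθb⟩ := h.theta hb hDb
  obtain ⟨α, hα⟩ := nadj_par h.good hb hD (h.tw_nadj hj hb hs hjT hbT htw).1
  obtain ⟨β, hβ⟩ := nadj_par h.good' hb hD' (h.symm.tw_nadj hj hb hs' hjT hbT htw.symm).1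
  obtain ⟨c, hc⟩ := nadj_par h.good' ha hD' fun h1 => hn' (h.symm.pt.adj_symm ha hj hs' haT hjT h1)
  have e := h.ratio ha hj hb hs haT hjT hbT htw hn hab hD' hc hβ
  rw [h.tw_iff hj hb hD hD' hθb, hα, hβ, hθb] at htw
  rw [h.tw_iff hj ha hD hD' hθa, hc, key D hD α hα, hθa, e, smul_comm β]
  intro h1
  have := smul_left_injective ℂ (h.good.ne a ha) (smul_right_injective _ h0 h1)
  exact htw (by rw [show β = α from this, smul_comm])

omit [Fintype ι] in
theorem Tw.ne (h : Tw L L' y j k) : j ≠ k := by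
  rintro rfl
  obtain ⟨X, X', D, D', -, -, h3, h4, p, q, h5⟩ := h
  simp [h3.zero, h4.zero] at h5

theorem fourA_loc (h : BG L L' (insert j C) y X X') (hc : Conn (Adj L y) C)
    (htw : ∀ k ∈ C, Tw L L' y j k) (hC : 3 ≤ C.card)
    (hs : ∀ T ⊂ insert j C, Sing L (insert j C) y T) : Sing L (insert j C) y (insert j C) := by
  have hjC : j ∉ C := fun hj => (htw j hj).ne rfl
  have hj : j ∈ insert j C := Finset.mem_insert_self _ _
  have hsub : C ⊆ insert j C := Finset.subset_insert _ _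
  have h3 : ∀ a ∈ C, ∀ b ∈ C, Sing L (insert j C) y {a, j, b} ∧ {a, j, b} ⊆ insert j C :=
    fun a ha b hb => by
      have h1 : {a, j, b} ⊆ insert j C := by simp [Finset.insert_subset_iff, ha, hb]
      refine ⟨hs _ (Finset.ssubset_iff_subset_ne.2 ⟨h1, fun e => ?_⟩), h1⟩
      have := congrArg Finset.card e
      rw [Finset.card_insert_of_notMem hjC] at this
      have := Finset.card_le_three (a := a) (b := j) (c := b)
      omega
  have hna : ∀ a ∈ C, ¬ Adj L y a j ∧ ¬ Adj L y j a := fun a ha =>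
    h.tw_nadj hj (hsub ha) (h3 a ha a ha).1 (by simp) (by simp) (htw a ha)
  obtain ⟨k, hk⟩ : C.Nonempty := Finset.card_pos.1 (by omega)
  have hne : ({j} : Finset ι) ≠ C := fun e => hjC (e ▸ Finset.mem_singleton_self j)
  refine glue h.good.ker ⟨j, hj, h.good.ne j hj⟩ {{j}, C} ∅ (by simp [hsub]) (by simp) ?_ (by simp)
    ?_ (by simp) ?_ (by simp) ?_
  · simp only [Finset.mem_insert, Finset.mem_singleton, forall_eq_or_imp, forall_eq, ne_eq,
      not_true, false_imp_iff, true_and, and_true]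
    exact ⟨fun _ => hjC, fun _ i hi e => hjC (e ▸ hi)⟩
  · simp only [Finset.mem_insert, Finset.mem_singleton, forall_eq_or_imp, forall_eq]
    exact ⟨h.pt.loc ((h3 k hk k hk).1.mono (by simp)) subset_rfl (by simp) (by simp),
      h.pt.loc (hs C (Finset.ssubset_insert hjC)) subset_rfl hsub ⟨k, hk⟩⟩
  · simp only [Finset.mem_insert, Finset.mem_singleton, forall_eq_or_imp, forall_eq, ne_eq,
      not_true, false_imp_iff, true_and, and_true]
    refine ⟨fun _ F d hF hd => ?_, fun _ F d hF hd => ?_⟩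
    · obtain ⟨D, hD⟩ := h.pt.j1 hj (h3 k hk k hk).1 (by simp)
      have e : d = sg j (d j) := funext fun i => by
        by_cases hi : i = j
        · simp [hi]
        · rw [hd i hi, sg_ne hi]
      have e1 := h.dual.ker_pair (hF.cast e) h.good'.ker
      rw [Bf_sg_left] at e1
      obtain ⟨γ, hγ⟩ := par_of_om (h.good.ne j hj)
        (om_trans (h.good'.ne j hj) (hD.fo h.dual h.good'.ker) e1)
      obtain ⟨s, hs⟩ := h.good.uniq _ (((hF.cast e).sub (hD.rel.smul γ)).cast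
        (by simp [hγ, sg_smul]))
      obtain ⟨α, hα⟩ := nadj_par h.good (hsub hk) hD (hna k hk).1
      have := hc (fun l => D l = α • X l) k hk hα fun a ha b hb hab h1 =>
        (h.tw_prop (hsub hb) hj (hsub ha) (h3 b hb a ha).1 (h3 b hb a ha).2 (by simp) (by simp)
          (by simp) (htw a ha) (hna b hb).2 (h.pt.adj_symm (hsub ha) (hsub hb) (h3 b hb a ha).1
          (by simp) (by simp) hab)).2 D hD α h1
      refine ⟨γ * α + s, fun l hl => ?_⟩
      have e2 := hs l (hsub hl)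
      simp only [Pi.sub_apply, Pi.smul_apply, this l hl] at e2
      linear_combination (norm := module) e2
    · refine par_of_om (h.good.ne j hj) ?_
      refine h.pt.span hsub (fun a ha b hb => (h3 a ha b hb).1.mono (by simp)) hc
        (fun a _ => om (X j) (a j) = 0) ?_ ?_ ?_ ?_ ?_ hF hd
      · intro a _ a' _ h1 h2; simp [h1, h2]
      · intro c a _ h1; simp [h1]
      · intro a ha
        obtain ⟨s, hs⟩ := h.good.uniq a ha
        simp [hs j hj]
      · intro a ha D hD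
        simpa [adj_iff h.good hj (hsub ha) hD] using (hna a ha).2
      · intro a ha b hb _ Da Db E hDa hDb hE
        exact h.ej (hsub ha) hj (hsub hb) (h3 a ha b hb).1 (by simp) (by simp) (by simp) (htw b hb)
          (hna a ha).2 hDa hDb hE
  · simp

/-- Generic extension: a persistent local structure on `U` that forces singularity. -/
theorem extend (h : BG L L' S y X X') (hU : U ⊆ S) (hs : ∀ T ⊂ S, Sing L S y T)
    (hU2 : 2 ≤ U.card) (P : (ι → ℂ) → Prop) (hP : P y)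
    (step : ∀ z Z Z', BG L L' S z Z Z' → ∀ u ∈ S, (∀ j ∈ U, Sing L S z {u, j}) → P z →
      ∀ᶠ t in cofinite, P (mv z u t))
    (base : ∀ z Z Z', BG L L' U z Z Z' → (∀ T ⊂ U, Sing L U z T) → P z → Sing L U z U) :
    Sing L S y S := by
  have := gen_ind (L := L) (S := S) (U := U)
    (fun z T => T ⊆ S \ U ∧ (∃ Z Z', BG L L' S z Z Z') ∧ P z ∧ ∀ T' ⊂ T ∪ U, Sing L S z T')
    ?_ ?_ (S \ U) Finset.sdiff_subset y ⟨subset_rfl, ⟨X, X', h⟩, hP, by
      rwa [Finset.sdiff_union_of_subset hU]⟩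
  · rwa [Finset.sdiff_union_of_subset hU] at this
  · rintro z u T huT ⟨h1, ⟨Z, Z', h2⟩, h3, h4⟩
    obtain ⟨hu, huU⟩ := Finset.mem_sdiff.1 (h1 (Finset.mem_insert_self u T))
    have h5 : ∀ j ∈ U, Sing L S z {u, j} := fun j hj => by
      obtain ⟨k, hk, hkj⟩ := Finset.exists_mem_ne hU2 j
      refine h4 _ (Finset.ssubset_iff_subset_ne.2 ⟨by simp [Finset.insert_subset_iff, hj], ?_⟩)
      intro e
      have : k ∈ ({u, j} : Finset ι) := by rw [e]; simp [hk]
      simp only [Finset.mem_insert, Finset.mem_singleton, hkj, or_false] at this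
      exact huU (this ▸ hk)
    obtain ⟨j, hj⟩ : U.Nonempty := Finset.card_pos.1 (by omega)
    obtain ⟨D, hD⟩ := h2.pt.j1 hu (h5 j hj) (by simp)
    obtain ⟨D', hD'⟩ := h2.left hu hD
    filter_upwards [h2.mv hu hD hD', step z Z Z' h2 u hu h5 h3] with t g1 g2
    refine ⟨(Finset.subset_insert _ _).trans h1, ⟨_, _, g1⟩, g2, fun T' hT' => ?_⟩
    refine (h4 (insert u T') ?_).mv (Finset.subset_insert _ _) (Finset.mem_insert_self _ _) t
    rw [Finset.insert_union]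
    have h6 : u ∉ T ∪ U := by simp [huT, huU]
    obtain ⟨x, hx, hx'⟩ := Finset.exists_of_ssubset hT'
    refine (Finset.ssubset_iff_of_subset (Finset.insert_subset_insert _ hT'.subset)).2
      ⟨x, Finset.mem_insert_of_mem hx, ?_⟩
    simp [hx', (ne_of_out h6 hx).symm]
  · rintro z ⟨-, ⟨Z, Z', h2⟩, h3, h4⟩
    rw [Finset.empty_union] at h4
    exact (base z Z Z' (h2.mono hU) (fun T hT => h2.pt.loc (h4 T hT) hT.subset hU
      (Finset.card_pos.1 (by omega))) h3).sup hU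

theorem fourA (h : BG L L' S y X X') (hj : j ∈ S) (hCS : C ⊆ S) (hc : Conn (Adj L y) C)
    (htw : ∀ k ∈ C, Tw L L' y j k) (hC : 3 ≤ C.card) (hs : ∀ T ⊂ S, Sing L S y T) :
    Sing L S y S := by
  refine extend (U := insert j C) h (Finset.insert_subset hj hCS) hs
    (le_trans (by omega) (Finset.card_le_card (Finset.subset_insert j C)))
    (fun z => Conn (Adj L z) C ∧ ∀ k ∈ C, Tw L L' z j k) ⟨hc, htw⟩ ?_
    fun z Z Z' h1 h2 h3 => fourA_loc h1 h3.1 h3.2 hC h2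
  rintro z Z Z' h1 u hu h2 ⟨h3, h4⟩
  refine Eventually.and ?_ ((eventually_all_finset C).2 fun k hk =>
    h1.tw_mv hu hj (h2 j (by simp)) (h4 k hk) (hCS hk))
  have : ∀ᶠ t in cofinite, ∀ a ∈ C, ∀ b ∈ C, Adj L z a b → Adj L (mv z u t) a b :=
    (eventually_all_finset C).2 fun a ha => (eventually_all_finset C).2 fun b hb => by
      by_cases hab : Adj L z a b
      · exact (h1.pt.adj_mv hu (hCS ha) (hCS hb) (h2 b (by simp [hb])) (by simp) (by simp)
          hab).mono fun t ht _ => ht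
      · simp [hab]
  exact this.mono fun t ht => h3.mono ht

end Pool.Agent.P.MP_08e617_lc.Hc
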