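import Pool.Agent.P.MP_08e617_lc.HcF

/-! Local genericity within distance six forces global singularity. -/

namespace Pool.Agent.P.MP_08e617_lc.Hc

open Filter Function

variable {ι : Type} [Fintype ι] [DecidableEq ι]

/-- A locally generic singular point. -/
structure Env (L L' : Rel ι) (S0 : Finset ι) (y0 : ι → ℂ) (Nice : ℕ → (ι → ℂ) → Prop) : Prop where
  dual : Dual L L'
  n0 : Nice 0 y0
  n1 : ∀ {m z}, Nice m z → m < 6 → ∀ u ∈ S0, ∀ᶠ t in cofinite, Nice (m + 1) (mv z u t)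
  h1 : ∀ {m z}, Nice m z → ∃ X, Good L S0 z X
  h3 : ∀ {m z}, Nice m z → ∀ b ∈ S0, (Free L z b ↔ Free L y0 b)
  h4 : ∀ {m z}, Nice m z → ∀ l ∈ S0, ∀ j ∈ S0, (Adj L z l j ↔ Adj L y0 l j)

variable {L L' : Rel ι} {S0 S T C U D K : Finset ι} {y0 y z w : ι → ℂ} {X X' F d : Vec ι}
  {u i j k l a b : ι} {Nice : ℕ → (ι → ℂ) → Prop} {m : ℕ}

theorem Dual.kat_iff (hd : Dual L L') : KAt L' z b ↔ ¬ Free L z b := by
  constructor
  · rintro ⟨Y, hY, h0⟩ hf
    obtain ⟨p, hp⟩ := exists_om_ne h0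
    obtain ⟨a, ha⟩ := hf p
    exact hp (by simpa using hd.ker_pair ha hY)
  · intro h
    by_contra hn
    refine h fun g => hd.fr z _ fun a ha => ?_
    have : a b = 0 := by_contra fun h0 => hn ⟨a, ha, h0⟩
    simp [this]

open Classical in
/-- The indices that are not free. -/
noncomputable def bound (L : Rel ι) (S0 : Finset ι) (y0 : ι → ℂ) : Finset ι :=
  S0.filter fun i => ¬ Free L y0 i

omit [Fintype ι] in
theorem mem_bound : i ∈ bound L S0 y0 ↔ i ∈ S0 ∧ ¬ Free L y0 i := by simp [bound]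

omit [Fintype ι] in
theorem bound_sub : bound L S0 y0 ⊆ S0 := fun _ h => (mem_bound.1 h).1

theorem Env.small (e : Env L L' S0 y0 Nice) (hz : Nice m z) (hS : S ⊆ S0) (hne : S.Nonempty)
    (hT : T ⊆ S) (hm : m + T.card ≤ 6) : Sing L S z T := by
  have := gen_ind (L := L) (S := S) (U := ∅)
    (fun z T => T ⊆ S ∧ ∃ m, Nice m z ∧ m + T.card ≤ 6) ?_ ?_ T hT z ⟨hT, m, hz, hm⟩
  · simpa using this
  · rintro z u T hu ⟨h1, m, h2, h3⟩
    rw [Finset.card_insert_of_notMem hu] at h3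
    exact (e.n1 h2 (by omega) u (hS (h1 (Finset.mem_insert_self u T)))).mono fun t ht =>
      ⟨(Finset.subset_insert _ _).trans h1, _, ht, by omega⟩
  · rintro z ⟨-, m, h2, -⟩
    obtain ⟨X, hX⟩ := e.h1 h2
    exact (hX.kn hS hne).sing

theorem Env.pair (e : Env L L' S0 y0 Nice) (hz : Nice m z) (hS : S ⊆ S0) (ha : a ∈ S) (hb : b ∈ S)
    (hm : m ≤ 4) : Sing L S z {a, b} :=
  e.small hz hS ⟨a, ha⟩ (by simp [Finset.insert_subset_iff, ha, hb])
    (by have := Finset.card_le_two (a := a) (b := b); omega)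

theorem Env.pt (e : Env L L' S0 y0 Nice) (hz : Nice m z) (hX : Good L S0 z X)
    (hS : S ⊆ bound L S0 y0) : Pt L L' S z X :=
  ⟨e.dual, hX.mono (hS.trans bound_sub), fun i hi => by
    rw [e.dual.kat_iff, e.h3 hz i (bound_sub (hS hi))]; exact (mem_bound.1 (hS hi)).2⟩

theorem Env.symm (e : Env L L' S0 y0 Nice) (hS : S ⊆ bound L S0 y0) :
    ∀ a ∈ S, ∀ b ∈ S, Adj L y0 a b → Adj L y0 b a := fun a ha b hb h => by
  obtain ⟨X, hX⟩ := e.h1 e.n0
  exact (e.pt e.n0 hX hS).adj_symm ha hb (e.pair e.n0 (hS.trans bound_sub) ha hb (by omega))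
    (by simp) (by simp) h

theorem Env.na_conn (e : Env L L' S0 y0 Nice) (hz : Nice m z) (hm : m ≤ 4) (hX : Good L S0 z X)
    (hC : C ⊆ bound L S0 y0) (hc : Conn (Adj L y0) C) (hl : l ∈ S0)
    (hn : ∀ a ∈ C, ¬ Adj L y0 l a) (hF : R L z F d) (hd : ∀ i ∉ C, d i = 0) :
    om (X l) (F l) = 0 := by
  have hC0 := hC.trans bound_sub
  have hn' : ∀ a ∈ C, ¬ Adj L z l a := fun a ha => by rw [e.h4 hz l hl a (hC0 ha)]; exact hn a ha
  refine (e.pt hz hX hC).span subset_rfl (fun a ha b hb => e.pair hz hC0 ha hb hm)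
    (hc.mono fun a ha b hb => (e.h4 hz a (hC0 ha) b (hC0 hb)).2)
    (fun a _ => om (X l) (a l) = 0) ?_ ?_ ?_ ?_ ?_ hF hd
  · intro a _ a' _ h1 h2; simp [h1, h2]
  · intro c a _ h1; simp [h1]
  · intro a ha
    obtain ⟨s, hs⟩ := hX.uniq a ha
    simp [hs l hl]
  · intro a ha D hD
    simpa [adj_iff hX hl (hC0 ha) hD] using hn' a ha
  · intro a ha b hb _ Da Db E hDa hDb hE
    obtain ⟨e1, e2, -⟩ := nadj_coef (l := l) hX.ker hDa hDb hE
      ((e.n1 hz (by omega) a (hC0 ha)).mono fun t ht => by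
        rw [e.h4 ht l hl b (hC0 hb)]; exact hn b hb)
    obtain ⟨c, hc⟩ := nadj_par hX hl hDa (hn' a ha)
    simpa [hc, e1] using e2

theorem Env.na_free (e : Env L L' S0 y0 Nice) (hz : Nice m z) (hm : m ≤ 4) (hX : Good L S0 z X)
    (hb : b ∈ S0) (hf : Free L y0 b) (hl : l ∈ bound L S0 y0) {g : V2} (hF : R L z F (sg b g)) :
    om (X l) (F l) = 0 := by
  have hp := e.pt hz hX subset_rfl
  obtain ⟨D, hD⟩ := hp.j1 hl (e.pair hz bound_sub hl hl hm) (by simp)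
  obtain ⟨Y, hY, h0⟩ := hp.kat l hl
  obtain ⟨D', hD'⟩ := left_J1 e.dual hp.good hl hD hY
  have h1 : Y b = 0 := by_contra fun h =>
    e.dual.kat_iff.1 ⟨Y, hY, h⟩ ((e.h3 hz b hb).2 hf)
  obtain ⟨t, ht, ht0⟩ := ((e.n1 hz (by omega) l (bound_sub hl)).and (eventually_cofinite_ne 0)).exists
  have h2 : (Y + t • D') b = 0 := by_contra fun h =>
    e.dual.kat_iff.1 ⟨_, hD'.ker hY t, h⟩ ((e.h3 ht b hb).2 hf)
  have h3 : D' b = 0 := by simpa [h1, ht0] using h2
  have h4 := e.dual.orth hF hD'.rel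
  simp only [Bf_sg_right, Bf_sg_left, h3, om_zero_right] at h4
  exact om_trans h0 (hD.fo e.dual hY) h4

theorem Env.common (e : Env L L' S0 y0 Nice) (hw : Nice m w) (hm : m ≤ 3) (hX : Good L S0 w X)
    (hC : C ⊆ bound L S0 y0) (hc : Conn (Adj L y0) C)
    (hna : ∀ m z X F, Nice m z → m ≤ 4 → Good L S0 z X → R L z F d → ∀ l ∈ C, om (X l) (F l) = 0)
    (hF : R L w F d) : ∃ β : ℂ, ∀ l ∈ C, F l = β • X l := by
  have hC0 := hC.trans bound_sub
  rcases C.eq_empty_or_nonempty with rfl | ⟨c, hc'⟩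
  · simp
  have h1 := fun l hl => par_of_om (hX.ne l (hC0 hl)) (hna m w X F hw (by omega) hX hF l hl)
  obtain ⟨β, hβ⟩ := h1 c hc'
  refine ⟨β, hc (fun l => F l = β • X l) c hc' hβ fun a ha b hb hab h2 => ?_⟩
  obtain ⟨β', hβ'⟩ := h1 b hb
  have hp := e.pt hw hX hC
  obtain ⟨D, hD⟩ := hp.j1 ha (e.pair hw hC0 ha ha (by omega)) (by simp)
  have hba := (adj_iff hX (hC0 hb) (hC0 ha) hD).1
    ((e.h4 hw b (hC0 hb) a (hC0 ha)).2 (e.symm hC a ha b hb hab))
  obtain ⟨t, ⟨g1, g2⟩, ht0⟩ := (((e.n1 hw (by omega) a (hC0 ha)).and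
    (good_mv e.dual hX (hC0 ha) hD (hp.kat a ha))).and (eventually_cofinite_ne 0)).exists
  have h3 := hna _ _ _ (F + (t * β) • D) g1 (by omega) g2 (R_mv.2 ((hF.add (hD.rel.smul _)).cast
    (by simp [hD.zero, h2, sg_smul, smul_smul]))) b hb
  simp only [Pi.add_apply, Pi.smul_apply, hβ', om_add_left, om_add_right, om_smul_left,
    om_smul_right, om_self, om_comm (D b) (X b)] at h3
  have : β' = β := mul_right_cancel₀ (mul_ne_zero ht0 hba) (by linear_combination -h3)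
  rw [hβ', this]

theorem Env.glueN (e : Env L L' S0 y0 Nice) (hw : Nice m w) (hm : m ≤ 3) {Fr : Finset ι}
    (hU : U ⊆ bound L S0 y0) (hFr : ∀ b ∈ Fr, Free L y0 b) (hUS : U ⊆ S) (hFS : Fr ⊆ S)
    (hS : S ⊆ S0) (hne : S.Nonempty)
    (hs : ∀ k ∈ U, Sing L (comp (Adj L y0) U k) w (comp (Adj L y0) U k)) :
    Sing L S w (U ∪ Fr) := by
  obtain ⟨X, hX⟩ := e.h1 hw
  have sy := e.symm hU
  refine glue hX.ker (hne.imp fun i hi => ⟨hi, hX.ne i (hS hi)⟩) (U.image (comp (Adj L y0) U)) Fr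
    ?_ hFS ?_ ?_ ?_ (fun b hb => (e.h3 hw b (hS (hFS hb))).2 (hFr b hb)) ?_ ?_ ?_ <;>
    simp only [Finset.mem_image, Finset.mem_union]
  · rintro _ ⟨k, -, rfl⟩
    exact comp_subset.trans hUS
  · rintro _ ⟨k, -, rfl⟩ _ ⟨k', -, rfl⟩ h i h1 h2
    exact h ((comp_eq sy h1).symm.trans (comp_eq sy h2))
  · rintro _ ⟨k, -, rfl⟩ i hi h
    exact (mem_bound.1 (hU (comp_subset hi))).2 (hFr i h)
  · rintro _ ⟨k, hk, rfl⟩
    exact hs k hk
  · rintro _ ⟨k, -, rfl⟩ _ ⟨k', -, rfl⟩ h F d hF hd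
    refine e.common hw hm hX (comp_subset.trans hU) (conn_comp sy) (fun m z X F h1 h2 h3 h4 l hl =>
      e.na_conn h1 h2 h3 (comp_subset.trans hU) (conn_comp sy) (bound_sub (hU (comp_subset hl)))
        (fun a ha hla => h ?_) h4 hd) hF
    exact (comp_eq sy ha).symm.trans (comp_eq sy (comp_closed hl (comp_subset ha) hla))
  · rintro b hb _ ⟨k, -, rfl⟩ F g hF
    exact e.common hw hm hX (comp_subset.trans hU) (conn_comp sy) (fun m z X F h1 h2 h3 h4 l hl =>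
      e.na_free h1 h2 h3 (hS (hFS hb)) (hFr b hb) (hU (comp_subset hl)) h4) hF
  · rintro i (hi | hi)
    · exact Or.inr ⟨_, ⟨i, hi, rfl⟩, self_mem_comp hi⟩
    · exact Or.inl hi

theorem Env.cut (e : Env L L' S0 y0 Nice) (hz : Nice m z) (hm : m ≤ 1) (hS : S ⊆ bound L S0 y0)
    (hs : ∀ T ⊂ S, Sing L S z T) (hD : D ⊆ S) (hD2 : D.card ≤ 2) (ha : a ∈ S \ D) (haK : a ∈ K)
    (hb : b ∈ S \ D) (hbK : b ∉ K) (hK : ∀ a ∈ K, ∀ b ∈ S \ D, Adj L y0 a b → b ∈ K) :
    Sing L S z S := by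
  have hS0 := hS.trans bound_sub
  have hU : S \ D ⊆ bound L S0 y0 := Finset.sdiff_subset.trans hS
  have hsub : ∀ k ∈ K, comp (Adj L y0) (S \ D) k ⊆ K := fun k hk x hx => by
    have := (mem_comp.1 hx).2
    clear hx
    induction this with
    | refl => exact hk
    | tail _ h ih => exact hK _ ih _ h.2.1 h.2.2
  have := gen_ind (L := L) (S := S) (U := S \ D)
    (fun w T => T ⊆ D ∧ (∀ i ∉ D, w i = z i) ∧ ∃ m, Nice m w ∧ m + T.card ≤ 3) ?_ ?_ D hD z
    ⟨subset_rfl, fun _ _ => rfl, m, hz, by omega⟩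
  · rwa [Finset.union_sdiff_of_subset hD] at this
  · rintro w u T hu ⟨h1, h2, m, h3, h4⟩
    have huD := h1 (Finset.mem_insert_self u T)
    rw [Finset.card_insert_of_notMem hu] at h4
    exact (e.n1 h3 (by omega) u (hS0 (hD huD))).mono fun t ht =>
      ⟨(Finset.subset_insert _ _).trans h1,
        fun i hi => (mv_ne _ _ (ne_of_out hi huD)).trans (h2 i hi), _, ht, by omega⟩
  · rintro w ⟨-, h2, m, h3, h4⟩
    have := e.glueN (Fr := ∅) h3 (by omega) hU (by simp) Finset.sdiff_subset (by simp) hS0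
      ⟨a, (Finset.mem_sdiff.1 ha).1⟩ fun k hk => ?_
    · simpa using this
    obtain ⟨X, hX⟩ := e.h1 h3
    have h5 : comp (Adj L y0) (S \ D) k ⊆ S := comp_subset.trans Finset.sdiff_subset
    refine (e.pt h3 hX hS).loc ((hs (D ∪ comp (Adj L y0) (S \ D) k) ?_).move
      Finset.subset_union_right fun i hi => h2 i fun h => hi (Finset.mem_union_left _ h))
      subset_rfl h5 ⟨k, self_mem_comp hk⟩
    by_cases hkK : k ∈ K
    · exact ssub_of (Finset.union_subset hD h5) (Finset.mem_sdiff.1 hb).1 fun h =>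
        (Finset.mem_union.1 h).elim (Finset.mem_sdiff.1 hb).2 fun h => hbK (hsub k hkK h)
    · exact ssub_of (Finset.union_subset hD h5) (Finset.mem_sdiff.1 ha).1 fun h =>
        (Finset.mem_union.1 h).elim (Finset.mem_sdiff.1 ha).2 fun h =>
          hkK (hsub a haK (comp_eq (e.symm hU) h ▸ self_mem_comp hk))

theorem Env.twisted (e : Env L L' S0 y0 Nice) (hz : Nice m z) (hm : m ≤ 1)
    (hS : S ⊆ bound L S0 y0) (h : BG L L' S z X X') (hs : ∀ T ⊂ S, Sing L S z T) (hj : j ∈ S)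
    (hk : k ∈ S) (htw : Tw L L' z j k) : Sing L S z S := by
  classical
  have hS0 := hS.trans bound_sub
  have sy : ∀ a ∈ S, ∀ b ∈ S, Adj L z a b → Adj L z b a := fun a ha b hb =>
    h.pt.adj_symm ha hb (e.pair hz hS0 ha hb (by omega)) (by simp) (by simp)
  set Tj := S.filter (Tw L L' z j) with hTj
  set K := comp (Adj L z) Tj k with hK
  have hKT : ∀ a ∈ K, a ∈ S ∧ Tw L L' z j a := fun a ha => Finset.mem_filter.1 (comp_subset ha)
  by_cases h3 : 3 ≤ K.card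
  · exact fourA h hj (fun a ha => (hKT a ha).1) (conn_comp fun a ha b hb =>
      sy a (Finset.mem_filter.1 ha).1 b (Finset.mem_filter.1 hb).1) (fun a ha => (hKT a ha).2) h3 hs
  have hnj : ∀ a ∈ K, ¬ Adj L z a j := fun a ha => (h.tw_nadj hj (hKT a ha).1
    (e.pair hz hS0 hj (hKT a ha).1 (by omega)) (by simp) (by simp) (hKT a ha).2).1
  set D := (S \ K).filter fun r => ∃ a ∈ K, Adj L z a r with hD
  have hDj : ∀ r ∈ S, r ∉ K → ∀ a ∈ K, Adj L z a r → Adj L z r j := fun r hr hrK a ha har => by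
    refine sy j hj r hr (by_contra fun hn => hrK (comp_closed ha (Finset.mem_filter.2 ⟨hr, ?_⟩) har))
    have hT : {r, j, a} ⊆ S := by simp [Finset.insert_subset_iff, hr, hj, (hKT a ha).1]
    exact (h.tw_prop hr hj (hKT a ha).1 (e.small hz hS0 ⟨j, hj⟩ hT (by
      have := Finset.card_le_three (a := r) (b := j) (c := a); omega)) hT (by simp) (by simp)
      (by simp) (hKT a ha).2 hn (sy a (hKT a ha).1 r hr har)).1
  by_cases h4 : ∃ a ∈ K, ∃ r ∈ S \ K, ∃ r' ∈ S \ K, r ≠ r' ∧ Adj L z a r ∧ Adj L z a r'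
  · obtain ⟨a, ha, r, hr, r', hr', hne, h5, h6⟩ := h4
    rw [Finset.mem_sdiff] at hr hr'
    exact fourB h hj (hKT a ha).1 hr.1 hr'.1 (hKT a ha).2 (hDj r hr.1 hr.2 a ha h5)
      (sy a (hKT a ha).1 r hr.1 h5) (hDj r' hr'.1 hr'.2 a ha h6) (sy a (hKT a ha).1 r' hr'.1 h6)
      hne (fun h7 => hnj a ha (h7 ▸ h5)) (ne_of_out hr.2 ha) (fun h7 => hnj a ha (h7 ▸ h6))
      (ne_of_out hr'.2 ha) hs
  have hcard : D.card ≤ K.card := by
    have : ∀ r ∈ D, ∃ a ∈ K, Adj L z a r := fun r hr => (Finset.mem_filter.1 hr).2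
    choose! f hf1 hf2 using this
    refine Finset.card_le_card_of_injOn f hf1 fun r hr r' hr' hrr => by_contra fun hne => h4 ?_
    exact ⟨f r, hf1 r hr, r, (Finset.mem_filter.1 hr).1, r', (Finset.mem_filter.1 hr').1, hne,
      hf2 r hr, hrr ▸ hf2 r' hr'⟩
  have hkK : k ∈ K := self_mem_comp (Finset.mem_filter.2 ⟨hk, htw⟩)
  refine e.cut (D := D) (K := K) (a := k) (b := j) hz hm hS hs
    ((Finset.filter_subset _ _).trans Finset.sdiff_subset) (by omega)
    (Finset.mem_sdiff.2 ⟨hk, fun h5 => (Finset.mem_sdiff.1 (Finset.mem_filter.1 h5).1).2 hkK⟩) hkK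
    (Finset.mem_sdiff.2 ⟨hj, fun h5 => ?_⟩) (fun h5 => (hKT j h5).2.ne rfl) fun a ha b hb hab => ?_
  · obtain ⟨a, ha, h6⟩ := (Finset.mem_filter.1 h5).2
    exact hnj a ha h6
  · rw [Finset.mem_sdiff] at hb
    by_contra hn
    exact hb.2 (Finset.mem_filter.2 ⟨Finset.mem_sdiff.2 ⟨hb.1, hn⟩, a, ha,
      (e.h4 hz a (hS0 (hKT a ha).1) b (hS0 hb.1)).2 hab⟩)

theorem Env.core (e : Env L L' S0 y0 Nice) (S : Finset ι) :
    S ⊆ bound L S0 y0 → S.Nonempty → Sing L S y0 S := by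
  classical
  induction S using Finset.strongInduction with
  | H S ih =>
  intro hS hne
  have hS0 := hS.trans bound_sub
  obtain ⟨X, hX⟩ := e.h1 e.n0
  have hp := e.pt e.n0 hX hS
  have hs : ∀ T ⊂ S, Sing L S y0 T := fun T hT => by
    rcases T.eq_empty_or_nonempty with rfl | h
    · exact (hX.kn hS0 hne).sing
    · exact (ih T hT (hT.subset.trans hS) h).sup hT.subset
  have h2 : ∀ a ∈ S, ∀ b ∈ S, Sing L S y0 {a, b} := fun a ha b hb =>
    e.pair e.n0 hS0 ha hb (by omega)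
  by_cases hc : Conn (Adj L y0) S
  swap
  · simp only [Conn, not_forall] at hc
    obtain ⟨p, c, hc, h3, h4, b, hb, h5⟩ := hc
    exact e.cut (D := ∅) (K := S.filter p) (a := c) (b := b) e.n0 (by omega) hS hs (by simp)
      (by simp) (by simpa) (by simp [hc, h3]) (by simpa) (by simp [h5]) fun a ha b hb hab => by
        rw [Finset.mem_filter] at ha
        rw [Finset.sdiff_empty] at hb
        exact Finset.mem_filter.2 ⟨hb, h4 a ha.1 b hb hab ha.2⟩
  obtain ⟨X', hX'⟩ := hp.left_good hne h2 hc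
  have h : BG L L' S y0 X X' := ⟨e.dual, hp.good, hX'⟩
  by_cases h3 : ∃ j ∈ S, ∃ k ∈ S, Tw L L' y0 j k
  · obtain ⟨j, hj, k, hk, htw⟩ := h3
    exact e.twisted e.n0 (by omega) hS h hs hj hk htw
  push Not at h3
  by_contra hcon
  refine hcon (skew h hne h2 hc h3 fun a ha b hb hab k hk hev => hcon ?_)
  obtain ⟨D, hD⟩ := hp.j1 ha (h2 a ha a ha) (by simp)
  obtain ⟨D', hD'⟩ := h.left ha hD
  have hba : b ≠ a := by
    rintro rfl
    simp [adj_iff hp.good ha ha hD, hD.zero] at hab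
  rw [← Finset.insert_erase ha]
  refine (Sing.of_ev (S := S) ha ?_).sup (by rw [Finset.insert_erase ha])
  filter_upwards [hev, h.mv ha hD hD', e.n1 e.n0 (by omega) a (hS0 ha)] with t g1 g2 g3
  have hka : k ≠ a := by
    rintro rfl
    exact g2.adj_untw hb hk (e.pair g3 hS0 hb hk (by omega)) (by simp) (by simp)
      ((e.h4 g3 k (hS0 hk) b (hS0 hb)).2 hab) g1
  have hb' := Finset.mem_erase.2 ⟨hba, hb⟩
  refine (e.twisted g3 le_rfl ((Finset.erase_subset _ _).trans hS) (g2.mono (Finset.erase_subset _ _))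
    (fun T hT => ?_) hb' (Finset.mem_erase.2 ⟨hka, hk⟩) g1).sup (Finset.erase_subset _ _)
  obtain ⟨x, hx, hx'⟩ := Finset.exists_of_ssubset hT
  refine g2.pt.loc ((hs (insert a T) (ssub_of (Finset.insert_subset ha
    (hT.subset.trans (Finset.erase_subset _ _))) (Finset.mem_erase.1 hx).2 ?_)).mv
    (Finset.subset_insert _ _) (Finset.mem_insert_self _ _) t) hT.subset (Finset.erase_subset _ _)
    ⟨b, hb'⟩
  simp [hx', (Finset.mem_erase.1 hx).1]

theorem Env.top (e : Env L L' S0 y0 Nice) (hne : S0.Nonempty) : Sing L S0 y0 S0 := by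
  have := e.glueN (U := bound L S0 y0) (Fr := S0 \ bound L S0 y0) e.n0 (by omega) subset_rfl
    (fun b hb => by
      rw [Finset.mem_sdiff, mem_bound] at hb
      exact by_contra fun h => hb.2 ⟨hb.1, h⟩)
    bound_sub Finset.sdiff_subset subset_rfl hne fun k hk =>
      e.core _ comp_subset ⟨k, self_mem_comp hk⟩
  rwa [Finset.union_sdiff_of_subset bound_sub] at this

end Pool.Agent.P.MP_08e617_lc.Hc
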