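import Mathlib

/-! Directional derivatives of polynomials, jets, and balls of moves. -/

namespace Pool.Agent.P.MP_08e617_lc.Hd

open MvPolynomial

variable {K : Type} [Field K] {σ ι : Type}

/-- Derivative in the direction `u`. -/
noncomputable def D (u : σ → K) : Derivation K (MvPolynomial σ K) (MvPolynomial σ K) :=
  mkDerivation K fun s => C (u s)

@[simp] theorem D_X (u : σ → K) (s : σ) : D u (X s) = C (u s) := mkDerivation_X _ _ _

@[simp] theorem D_C (u : σ → K) (a : K) : D u (C a) = 0 := derivation_C _ _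

theorem D_add (u w : σ → K) (F : MvPolynomial σ K) : D (u + w) F = D u F + D w F := by
  have : D (u + w) = D u + D w := derivation_ext fun s => by simp
  rw [this, Derivation.add_apply]

theorem D_smul (a : K) (u : σ → K) (F : MvPolynomial σ K) : D (a • u) F = a • D u F := by
  have : D (a • u) = a • D u := derivation_ext fun s => by simp [smul_eq_C_mul]
  rw [this, Derivation.smul_apply]

theorem D_zero (F : MvPolynomial σ K) : D (0 : σ → K) F = 0 := by
  simpa using D_smul (0 : K) 0 F

theorem D_comm (u w : σ → K) (F : MvPolynomial σ K) : D u (D w F) = D w (D u F) := by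
  have : ⁅D u, D w⁆ = 0 := derivation_ext fun s => by simp [Derivation.commutator_apply]
  have h := congrArg (fun d : Derivation K (MvPolynomial σ K) (MvPolynomial σ K) => d F) this
  simpa [Derivation.commutator_apply, sub_eq_zero] using h

theorem D_single [DecidableEq σ] (s : σ) : D (Pi.single s (1 : K)) = pderiv s :=
  derivation_ext fun t => by
    by_cases h : t = s
    · subst h; simp
    · simp [h, pderiv_X_of_ne h]

/-- Iterated directional derivative. -/
noncomputable def DL : List (σ → K) → MvPolynomial σ K →ₗ[K] MvPolynomial σ K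
  | [] => LinearMap.id
  | u :: l => (D u).toLinearMap ∘ₗ DL l

@[simp] theorem DL_nil (F : MvPolynomial σ K) : DL [] F = F := rfl

theorem DL_cons (u : σ → K) (l : List (σ → K)) (F : MvPolynomial σ K) :
    DL (u :: l) F = D u (DL l F) := rfl

theorem DL_D (u : σ → K) (l : List (σ → K)) (F : MvPolynomial σ K) :
    DL l (D u F) = D u (DL l F) := by
  induction l with
  | nil => rfl
  | cons w l ih => rw [DL_cons, DL_cons, ih, D_comm]

theorem DL_append (l m : List (σ → K)) (F : MvPolynomial σ K) :
    DL (l ++ m) F = DL l (DL m F) := by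
  induction l with
  | nil => rfl
  | cons w l ih => rw [List.cons_append, DL_cons, DL_cons, ih]

theorem DL_comm (l m : List (σ → K)) (F : MvPolynomial σ K) : DL l (DL m F) = DL m (DL l F) := by
  induction m with
  | nil => rfl
  | cons w m ih => rw [DL_cons, DL_D, ih, DL_cons]

theorem DL_perm {l m : List (σ → K)} (h : l.Perm m) (F : MvPolynomial σ K) : DL l F = DL m F := by
  induction h with
  | nil => rfl
  | cons _ _ ih => rw [DL_cons, DL_cons, ih]
  | swap => simp only [DL_cons, D_comm]
  | trans _ _ h1 h2 => rw [h1, h2]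

theorem totalDegree_D_le [Fintype σ] (u : σ → K) (F : MvPolynomial σ K) :
    (D u F).totalDegree ≤ F.totalDegree := by
  classical
  have : D u = ∑ s, u s • (pderiv s : Derivation K (MvPolynomial σ K) (MvPolynomial σ K)) :=
    derivation_ext fun t => by
      rw [D_X, ← Derivation.coeFnAddMonoidHom_apply, map_sum, Finset.sum_apply,
        Finset.sum_eq_single t (fun s _ h => by simp [pderiv_X_of_ne h.symm]) (by simp)]
      simp [smul_eq_C_mul]
  rw [this, ← Derivation.coeFnAddMonoidHom_apply, map_sum, Finset.sum_apply]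
  refine totalDegree_finsetSum_le fun s _ => ?_
  refine (totalDegree_smul_le (u s) (pderiv s F)).trans (Finset.sup_le fun m hm => ?_)
  rw [mem_support_iff, coeff_pderiv] at hm
  refine le_trans ?_ (le_totalDegree (mem_support_iff.2 (left_ne_zero_of_mul hm)))
  rw [Finsupp.sum_add_index' (fun _ => rfl) fun _ _ _ => rfl]
  omega

theorem totalDegree_DL_le [Fintype σ] (l : List (σ → K)) (F : MvPolynomial σ K) :
    (DL l F).totalDegree ≤ F.totalDegree := by
  induction l with
  | nil => exact le_rfl
  | cons u l ih => exact (totalDegree_D_le u _).trans ih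

/-- The chain rule. -/
theorem chain {S : Type} [CommRing S] [Algebra K S] (ψ : MvPolynomial σ K →ₐ[K] S)
    (d : Derivation K S S) (u : σ → K) (h : ∀ s, d (ψ (X s)) = algebraMap K S (u s))
    (F : MvPolynomial σ K) : d (ψ F) = ψ (D u F) := by
  induction F using MvPolynomial.induction_on with
  | C a => simp [algHom_C]
  | add p q hp hq => simp [hp, hq]
  | mul_X p s hp => simp [hp, h, algHom_C]

/-- Restriction to the line through `Y` in the direction `u`. -/
noncomputable def line (Y u : σ → K) : MvPolynomial σ K →ₐ[K] Polynomial K :=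
  aeval fun s => Polynomial.C (Y s) + Polynomial.C (u s) * Polynomial.X

theorem eval_line (Y u : σ → K) (t : K) (F : MvPolynomial σ K) :
    (line Y u F).eval t = eval (Y + t • u) F := by
  induction F using MvPolynomial.induction_on with
  | C a => simp [line]
  | add p q hp hq => simp [hp, hq]
  | mul_X p s hp => rw [map_mul, Polynomial.eval_mul, hp, line, aeval_X]; simp [mul_comm (u s)]

theorem eval_line_zero (Y u : σ → K) (F : MvPolynomial σ K) :
    (line Y u F).eval 0 = eval Y F := by simp [eval_line]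

theorem deriv_line (Y u : σ → K) (F : MvPolynomial σ K) :
    Polynomial.derivative (line Y u F) = line Y u (D u F) :=
  chain (line Y u) Polynomial.derivative' u (fun s => by simp [line]) F

theorem iter_deriv_line (Y u : σ → K) (k : ℕ) (F : MvPolynomial σ K) :
    Polynomial.derivative^[k] (line Y u F) = line Y u (DL (List.replicate k u) F) := by
  induction k with
  | zero => rfl
  | succ k ih => rw [Function.iterate_succ_apply', ih, deriv_line, List.replicate_succ, DL_cons]

theorem natDegree_line_le (Y u : σ → K) (F : MvPolynomial σ K) :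
    (line Y u F).natDegree ≤ F.totalDegree := by
  have := aeval_natDegree_le F le_rfl
    (fun s => Polynomial.C (Y s) + Polynomial.C (u s) * Polynomial.X) (n := 1)
    fun s => by compute_degree
  simpa [line] using this

section
variable [CharZero K]

theorem line_eq_zero {Y u : σ → K} {F : MvPolynomial σ K} (h : ∀ t : K, eval (Y + t • u) F = 0) :
    line Y u F = 0 :=
  Polynomial.funext fun t => by simp [eval_line, h]

omit [CharZero K] in
theorem line_ev {Y u : σ → K} {F : MvPolynomial σ K} (h : eval Y F ≠ 0) :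
    ∀ᶠ t : K in Filter.cofinite, eval (Y + t • u) F ≠ 0 := by
  have h1 : line Y u F ≠ 0 := fun h0 => h (by rw [← eval_line_zero Y u, h0, Polynomial.eval_zero])
  refine (Polynomial.finite_setOfPred_isRoot h1).subset fun t ht => ?_
  simpa [Polynomial.IsRoot, eval_line] using ht

/-- Order of vanishing along a line. -/
theorem X_pow_dvd_line {Y u : σ → K} {F : MvPolynomial σ K} {k : ℕ}
    (h : ∀ j < k, eval Y (DL (List.replicate j u) F) = 0) : Polynomial.X ^ k ∣ line Y u F := by
  refine Polynomial.X_pow_dvd_iff.2 fun j hj => ?_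
  have := Polynomial.coeff_iterate_derivative (k := j) (line Y u F) 0
  rw [iter_deriv_line, Polynomial.coeff_zero_eq_eval_zero, eval_line_zero, h j hj, zero_add,
    Nat.descFactorial_self, eq_comm, nsmul_eq_mul, mul_eq_zero] at this
  exact this.resolve_left (Nat.cast_ne_zero.2 (Nat.factorial_ne_zero j))

theorem natDegree_line_of_DL {u : σ → K} {F : MvPolynomial σ K} {k : ℕ}
    (h : DL (List.replicate (k + 1) u) F = 0) (Y : σ → K) : (line Y u F).natDegree ≤ k := by
  refine Polynomial.natDegree_le_iff_coeff_eq_zero.2 fun j hj => ?_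
  obtain ⟨m, rfl⟩ : ∃ m, j = m + (k + 1) := ⟨j - (k + 1), by omega⟩
  have := Polynomial.coeff_iterate_derivative (k := k + 1) (line Y u F) m
  rw [iter_deriv_line, h, map_zero, Polynomial.coeff_zero, eq_comm, nsmul_eq_mul,
    mul_eq_zero] at this
  exact this.resolve_left (Nat.cast_ne_zero.2 (Nat.descFactorial_pos.2 (by omega)).ne')

theorem DL_of_natDegree_line {u : σ → K} {F : MvPolynomial σ K} {k : ℕ}
    (h : ∀ Y, (line Y u F).natDegree ≤ k) : DL (List.replicate (k + 1) u) F = 0 :=
  MvPolynomial.funext fun Y => by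
    rw [← eval_line_zero Y u, ← iter_deriv_line,
      Polynomial.iterate_derivative_eq_zero (Nat.lt_succ_of_le (h Y))]
    simp

/-- Density of the points of a line where `δ` is nonzero. -/
theorem dense_line {Y u : σ → K} {F δ : MvPolynomial σ K} (hδ : eval Y δ ≠ 0)
    (h : ∀ t : K, eval (Y + t • u) δ ≠ 0 → eval (Y + t • u) F = 0) : line Y u F = 0 := by
  have h1 : line Y u δ ≠ 0 := fun h0 => hδ (by rw [← eval_line_zero Y u, h0, Polynomial.eval_zero])
  have h2 : line Y u (δ * F) = 0 := line_eq_zero fun t => by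
    by_cases h3 : eval (Y + t • u) δ = 0
    · simp [h3]
    · simp [h t h3]
  simpa [h1] using h2

end

/-- Multilinearity. -/
theorem multilin {𝒟 : Set (σ → K)} {F : MvPolynomial σ K} (l : List (σ → K))
    (hl : ∀ u ∈ l, u ∈ Submodule.span K 𝒟) (φ : MvPolynomial σ K →ₗ[K] K)
    (h : ∀ m : List (σ → K), m.length = l.length → (∀ u ∈ m, u ∈ 𝒟) → φ (DL m F) = 0) :
    φ (DL l F) = 0 := by
  induction l generalizing φ with
  | nil => exact h [] rfl (by simp)
  | cons u l ih =>
    have key : ∀ w ∈ Submodule.span K 𝒟, φ (D w (DL l F)) = 0 := fun w hw => by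
      induction hw using Submodule.span_induction with
      | mem w hw =>
        exact ih (fun x hx => hl x (by simp [hx])) (φ ∘ₗ (D w).toLinearMap) fun m hm hm' =>
          h (w :: m) (by simp [hm]) (by simpa [hw] using hm')
      | zero => simp [D_zero]
      | add a b _ _ ha hb => simp [D_add, ha, hb]
      | smul a b _ hb => simp [D_smul, hb]
    exact key u (hl u (by simp))

/-- Points reached from `Y` by at most `k` moves along directions in `𝒟`. -/
inductive Ball (𝒟 : Set (σ → K)) (Y : σ → K) : ℕ → (σ → K) → Prop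
  | base (k : ℕ) : Ball 𝒟 Y k Y
  | step {k : ℕ} {Z d : σ → K} (t : K) : Ball 𝒟 Y k Z → d ∈ 𝒟 → Ball 𝒟 Y (k + 1) (Z + t • d)

section ball
variable {𝒟 : Set (σ → K)} {Y Z W : σ → K} {k m : ℕ}

theorem Ball.mono (h : Ball 𝒟 Y k Z) (hk : k ≤ m) : Ball 𝒟 Y m Z := by
  induction h generalizing m with
  | base => exact .base _
  | step t _ hd ih =>
    obtain ⟨m, rfl⟩ : ∃ m', m = m' + 1 := ⟨m - 1, by omega⟩
    exact .step t (ih (by omega)) hd

theorem Ball.trans (h : Ball 𝒟 Y k Z) (h' : Ball 𝒟 Z m W) : Ball 𝒟 Y (k + m) W := by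
  induction h' with
  | base => exact h.mono (by omega)
  | step t _ hd ih => exact .step t ih hd

theorem Ball.scale (h : Ball 𝒟 Y k Z) (s : K) : Ball 𝒟 Y k (Y + s • (Z - Y)) := by
  induction h with
  | base => simpa using .base _
  | @step k Z d t _ hd ih =>
    have := ih.step (s * t) hd
    rwa [show Y + s • (Z - Y) + (s * t) • d = Y + s • (Z + t • d - Y) by module] at this

theorem Ball.sub_mem (h : Ball 𝒟 Y k Z) : Z - Y ∈ Submodule.span K 𝒟 := by
  induction h with
  | base => simp
  | @step k Z d t _ hd ih =>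
    rw [show Z + t • d - Y = Z - Y + t • d by module]
    exact add_mem ih (Submodule.smul_mem _ _ (Submodule.subset_span hd))

theorem Ball.param (h : Ball 𝒟 Y k Z) (hne : 𝒟.Nonempty) : ∃ (t : Fin k → K) (d : Fin k → σ → K),
    (∀ j, d j ∈ 𝒟) ∧ Z = Y + ∑ j, t j • d j := by
  induction h with
  | base => exact ⟨0, fun _ => hne.some, fun _ => hne.some_mem, by simp⟩
  | @step k Z d t _ hd ih =>
    obtain ⟨t', d', h1, rfl⟩ := ih
    exact ⟨Fin.cons t t', Fin.cons d d', Fin.cases hd h1, by
      simp only [Fin.sum_univ_succ, Fin.cons_zero, Fin.cons_succ]; abel⟩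

theorem Ball.of_param (Y : σ → K) (t : Fin k → K) (d : Fin k → σ → K) (hd : ∀ j, d j ∈ 𝒟) :
    Ball 𝒟 Y k (Y + ∑ j, t j • d j) := by
  induction k with
  | zero => simpa using .base _
  | succ k ih =>
    have := (ih (fun j => t j.succ) (fun j => d j.succ) fun j => hd _).step (t 0) (hd 0)
    rwa [add_assoc, add_comm _ (t 0 • d 0), ← Fin.sum_univ_succ fun j => t j • d j] at this

/-- A polynomial that vanishes on a ball vanishes to high order at the centre. -/
theorem hit [CharZero K] {F : MvPolynomial σ K} (l : List (σ → K)) (hl : l.length ≤ k)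
    (hl' : ∀ u ∈ l, u ∈ Submodule.span K 𝒟) (h : ∀ Z, Ball 𝒟 Y k Z → eval Z F = 0) :
    eval Y (DL l F) = 0 := by
  have key : ∀ (m : List (σ → K)) (k : ℕ) (F : MvPolynomial σ K), m.length ≤ k →
      (∀ u ∈ m, u ∈ 𝒟) → (∀ Z, Ball 𝒟 Y k Z → eval Z F = 0) → eval Y (DL m F) = 0 := by
    intro m
    induction m with
    | nil => exact fun k F _ _ h => h Y (.base _)
    | cons u m ih =>
      intro k F hk hm h
      obtain ⟨k, rfl⟩ : ∃ k', k = k' + 1 := ⟨k - 1, by simp at hk; omega⟩
      rw [DL_cons, ← DL_D]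
      refine ih k _ (by simpa using hk) (fun w hw => hm w (by simp [hw])) fun Z hZ => ?_
      rw [← eval_line_zero Z u, ← deriv_line,
        line_eq_zero fun t => h _ (hZ.step t (hm u (by simp)))]
      simp
  exact multilin l hl' (aeval Y).toLinearMap fun m hm hm' => key m k F (hm ▸ hl) hm' h

theorem Ball.dense [CharZero K] {F δ : MvPolynomial σ K} (hδ : eval Y δ ≠ 0)
    (h : ∀ Z, Ball 𝒟 Y k Z → eval Z δ ≠ 0 → eval Z F = 0) (hZ : Ball 𝒟 Y k Z) : eval Z F = 0 := by
  have := eval_line Y (Z - Y) 1 F
  rw [dense_line hδ fun t ht => h _ (hZ.scale t) ht] at this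
  simpa using this.symm

end ball

/-- The jet of the vector `v` at `Y` in the directions `l`. -/
noncomputable def jet (v : ι → MvPolynomial σ K) (Y : σ → K) (l : List (σ → K)) : ι → K :=
  fun c => eval Y (DL l (v c))

/-- The span of the jets of order at most `N` in directions from `𝒟`. -/
def Jet (v : ι → MvPolynomial σ K) (𝒟 : Set (σ → K)) (N : ℕ) (Y : σ → K) : Submodule K (ι → K) :=
  Submodule.span K {y | ∃ l : List (σ → K), l.length ≤ N ∧ (∀ u ∈ l, u ∈ 𝒟) ∧ jet v Y l = y}

section fl
variable [Fintype ι] [DecidableEq ι]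

/-- The polynomial obtained by applying a functional to `v`. -/
noncomputable def fl (v : ι → MvPolynomial σ K) (φ : (ι → K) →ₗ[K] K) : MvPolynomial σ K :=
  ∑ c, φ (Pi.single c 1) • v c

theorem eval_DL_fl (v : ι → MvPolynomial σ K) (φ : (ι → K) →ₗ[K] K) (Y : σ → K)
    (l : List (σ → K)) : eval Y (DL l (fl v φ)) = φ (jet v Y l) := by
  rw [LinearMap.pi_apply_eq_sum_univ, fl, map_sum, map_sum]
  refine Finset.sum_congr rfl fun c _ => ?_
  rw [map_smul, smul_eval, smul_eq_mul, mul_comm, jet]
  congr 2
  ext c'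
  simp [Pi.single_apply, eq_comm]

theorem exists_fl {v : ι → MvPolynomial σ K} {F : MvPolynomial σ K}
    (h : F ∈ Submodule.span K (Set.range v)) : ∃ φ, F = fl v φ := by
  obtain ⟨a, rfl⟩ := (Submodule.mem_span_range_iff_exists_fun K).1 h
  exact ⟨∑ c, a c • LinearMap.proj c, by simp [fl, Pi.single_apply]⟩

omit [Fintype ι] [DecidableEq ι] in
theorem mem_of_dual {U : Submodule K (ι → K)} {y : ι → K}
    (h : ∀ φ : (ι → K) →ₗ[K] K, (∀ x ∈ U, φ x = 0) → φ y = 0) : y ∈ U :=
  (Subspace.forall_mem_dualAnnihilator_apply_eq_zero_iff U y).1 fun φ hφ =>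
    h φ ((Submodule.mem_dualAnnihilator φ).1 hφ)

theorem jet_mem {v : ι → MvPolynomial σ K} {𝒟 : Set (σ → K)} {N : ℕ} (Y : σ → K)
    {l : List (σ → K)} (hl : l.length ≤ N) (hl' : ∀ u ∈ l, u ∈ Submodule.span K 𝒟) :
    jet v Y l ∈ Jet v 𝒟 N Y :=
  mem_of_dual fun φ hφ => by
    rw [← eval_DL_fl]
    refine multilin l hl' (aeval Y).toLinearMap fun m hm hm' => ?_
    exact (eval_DL_fl v φ Y m).trans (hφ _ (Submodule.subset_span ⟨m, hm ▸ hl, hm', rfl⟩))

theorem Jet_congr {v : ι → MvPolynomial σ K} {𝒟 𝒟' : Set (σ → K)}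
    (h : Submodule.span K 𝒟 = Submodule.span K 𝒟') (N : ℕ) (Y : σ → K) :
    Jet v 𝒟 N Y = Jet v 𝒟' N Y := by
  refine le_antisymm (Submodule.span_le.2 ?_) (Submodule.span_le.2 ?_)
  · rintro _ ⟨l, h1, h2, rfl⟩
    exact jet_mem Y h1 fun u hu => h ▸ Submodule.subset_span (h2 u hu)
  · rintro _ ⟨l, h1, h2, rfl⟩
    exact jet_mem Y h1 fun u hu => h ▸ Submodule.subset_span (h2 u hu)

end fl

end Pool.Agent.P.MP_08e617_lc.Hd
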