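import Pool.Agent.P.MP_08e617_lc.HdA

/-! Rank concentration: at a suitable point, jets of low order span everything. -/

namespace Pool.Agent.P.MP_08e617_lc.Hd

open MvPolynomial Module

variable {K : Type} [Field K] {ι κ : Type}

theorem exists_indep {W : Type} [AddCommGroup W] [Module K W] [FiniteDimensional K W] {S : Set W}
    {k : ℕ} (h : k ≤ finrank K (Submodule.span K S)) :
    ∃ x : Fin k → W, (∀ j, x j ∈ S) ∧ LinearIndependent K x := by
  obtain ⟨b, hb, hs, hi⟩ := exists_linearIndependent K S
  have : Fintype b := hi.setFinite.fintype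
  have h1 : Fintype.card b = finrank K (Submodule.span K S) := by
    rw [← hs, finrank_span_set_eq_card hi, Set.toFinset_card]
  obtain ⟨e⟩ := Function.Embedding.nonempty_of_card_le (α := Fin k) (β := b)
    (by rw [Fintype.card_fin, h1]; exact h)
  exact ⟨fun j => e j, fun j => hb (e j).2, hi.comp e e.injective⟩

section rc
variable {T : Type} [DecidableEq T]

/-- The list of coordinate directions of an exponent vector. -/
noncomputable def dirs (K : Type) [Field K] (l : List T) : List (T → K) :=
  l.map fun a => Pi.single a 1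

/-- The derivative of an exponent vector. -/
noncomputable def Dm (α : T →₀ ℕ) (V : κ → MvPolynomial T K) : κ → MvPolynomial T K :=
  fun k => DL (dirs K α.toMultiset.toList) (V k)

theorem Dm_list (l : List T) (V : κ → MvPolynomial T K) (k : κ) :
    DL (dirs K l) (V k) = Dm (Multiset.toFinsupp (l : Multiset T)) V k := by
  refine DL_perm (List.Perm.map _ ?_) _
  rw [Multiset.toFinsupp_toMultiset, ← Multiset.coe_eq_coe, Multiset.coe_toList]

theorem Dm_add (α : T →₀ ℕ) (a : T) (V : κ → MvPolynomial T K) (k : κ) :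
    Dm (α + Finsupp.single a 1) V k = D (Pi.single a 1) (Dm α V k) := by
  rw [Dm, Dm, ← DL_cons]
  refine DL_perm (List.Perm.map (l₂ := a :: α.toMultiset.toList) _ ?_) _
  rw [← Multiset.coe_eq_coe, Multiset.coe_toList, ← Multiset.cons_coe, Multiset.coe_toList,
    Finsupp.toMultiset_add, Finsupp.toMultiset_single, one_smul, add_comm, Multiset.singleton_add]

omit [DecidableEq T] in
theorem up_closed {P : (T →₀ ℕ) → Prop} (h : ∀ α a, P α → P (α + Finsupp.single a 1))
    {α β : T →₀ ℕ} (hle : α ≤ β) (hα : P α) : P β := by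
  obtain ⟨γ, rfl⟩ := exists_add_of_le hle
  clear hle
  induction γ using Finsupp.induction_linear generalizing α with
  | zero => simpa
  | add f g hf hg => rw [← add_assoc]; exact hg (hf hα)
  | single a n =>
    induction n with
    | zero => simpa
    | succ n ih => rw [Finsupp.single_add, ← add_assoc]; exact h _ _ ih

variable (m : MonomialOrder T)

/-- The span of the earlier derivatives. -/
noncomputable def Earlier (V : κ → MvPolynomial T K) (α : T →₀ ℕ) :
    Submodule (MvPolynomial T K) (κ → MvPolynomial T K) :=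
  Submodule.span _ {y | ∃ β, m.toSyn β < m.toSyn α ∧ Dm β V = y}

/-- A derivative that depends on earlier ones. -/
def Old (V : κ → MvPolynomial T K) (α : T →₀ ℕ) : Prop := ∃ w ≠ (0 : MvPolynomial T K),
  w • Dm α V ∈ Earlier m V α

variable {m} {V : κ → MvPolynomial T K}

theorem Old.step {α : T →₀ ℕ} (h : Old m V α) (a : T) : Old m V (α + Finsupp.single a 1) := by
  obtain ⟨w, hw, h⟩ := h
  have lt : m.toSyn α < m.toSyn (α + Finsupp.single a 1) :=
    m.toSyn_strictMono (lt_add_of_pos_right _ (by simp [pos_iff_ne_zero]))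
  have key : ∀ y ∈ Earlier m V α, y ∈ Earlier m V (α + Finsupp.single a 1) ∧
      (fun k => D (Pi.single a 1) (y k)) ∈ Earlier m V (α + Finsupp.single a 1) := fun y hy => by
    induction hy using Submodule.span_induction with
    | mem y hy =>
      obtain ⟨β, hβ, rfl⟩ := hy
      exact ⟨Submodule.subset_span ⟨β, hβ.trans lt, rfl⟩, Submodule.subset_span
        ⟨β + Finsupp.single a 1, by simpa using hβ, funext fun k => Dm_add _ _ _ _⟩⟩
    | zero => exact ⟨zero_mem _, by simp only [Pi.zero_apply, map_zero]; exact zero_mem _⟩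
    | add x y _ _ hx hy =>
      exact ⟨add_mem hx.1 hy.1, by simp only [Pi.add_apply, map_add]; exact add_mem hx.2 hy.2⟩
    | smul p x _ hx =>
      refine ⟨Submodule.smul_mem _ _ hx.1, ?_⟩
      convert add_mem (Submodule.smul_mem _ p hx.2)
        (Submodule.smul_mem _ (D (Pi.single a 1) p) hx.1) using 1
      ext1 k
      simp [mul_comm]
  refine ⟨w, hw, ?_⟩
  convert sub_mem (key _ h).2 (Submodule.smul_mem _ (D (Pi.single a 1) w)
    (Submodule.subset_span (s := {y | ∃ β, m.toSyn β < m.toSyn (α + Finsupp.single a 1) ∧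
      Dm β V = y}) ⟨α, lt, rfl⟩)) using 1
  ext1 k
  simp [Dm_add, mul_comm]

theorem card_new [Fintype κ] (s : Finset (T →₀ ℕ)) (hs : ∀ α ∈ s, ¬ Old m V α) :
    s.card ≤ Fintype.card κ := by
  classical
  have : LinearIndependent (MvPolynomial T K) fun α : s => Dm α.1 V := by
    refine Fintype.linearIndependent_iff.2 fun g hg => by_contra fun hn => ?_
    obtain ⟨α, h1, h2⟩ := Finset.exists_max_image (Finset.univ.filter fun α => g α ≠ 0)
      (fun α : s => m.toSyn α.1) (by simpa [Finset.Nonempty] using hn)
    refine hs α α.2 ⟨g α, by simpa using h1, ?_⟩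
    rw [← Finset.add_sum_erase _ _ (Finset.mem_univ α), add_eq_zero_iff_eq_neg] at hg
    rw [hg]
    refine neg_mem (Submodule.sum_mem _ fun β hβ => ?_)
    by_cases h3 : g β = 0
    · simp [h3]
    · exact Submodule.smul_mem _ _ (Submodule.subset_span ⟨β, (h2 β (by simpa using h3)).lt_of_ne
        fun e => Finset.ne_of_mem_erase hβ (Subtype.ext (m.toSyn.injective e)), rfl⟩)
  simpa using this.fintype_card_le_finrank

theorem Dm_big {e : ℕ} (hV : ∀ a k, DL (List.replicate (e + 1) (Pi.single a 1)) (V k) = 0)
    {α : T →₀ ℕ} {a : T} (h : e < α a) : Dm α V = 0 := by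
  refine up_closed (P := fun α => Dm α V = 0) (fun α a h => funext fun k => ?_)
    (α := Multiset.toFinsupp (List.replicate (e + 1) a : List T)) (fun b => ?_) (funext fun k => ?_)
  · simp [Dm_add, h]
  · by_cases hb : a = b
    · subst hb; simpa using h
    · simp [List.count_replicate, hb]
  · rw [← Dm_list, dirs, List.map_replicate, hV]; rfl

theorem new_small [Fintype κ] {e ℓ : ℕ}
    (hV : ∀ a k, DL (List.replicate (e + 1) (Pi.single a 1)) (V k) = 0)
    (hℓ : Fintype.card κ < 2 ^ (ℓ + 1)) {α : T →₀ ℕ} (h : ¬ Old m V α) :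
    α.toMultiset.toList.length ≤ e * ℓ := by
  have h1 : ∀ a, α a ≤ e := fun a => not_lt.1 fun h1 => h ⟨1, one_ne_zero, by simp [Dm_big hV h1]⟩
  have h2 := card_new (m := m) (V := V)
    (α.support.powerset.image fun S : Finset T => Multiset.toFinsupp S.val) fun β hβ hβ' => by
      obtain ⟨S, hS, rfl⟩ := Finset.mem_image.1 hβ
      refine h (up_closed (fun _ a h => h.step a) (fun b => ?_) hβ')
      by_cases hb : b ∈ S
      · simpa [Multiset.count_eq_one_of_mem S.nodup hb, Nat.one_le_iff_ne_zero] using
          Finset.mem_powerset.1 hS hb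
      · simp [Multiset.count_eq_zero_of_notMem (s := S.val) hb]
  rw [Finset.card_image_of_injective _ fun _ _ h =>
    Finset.val_injective (Multiset.toFinsupp.injective h), Finset.card_powerset] at h2
  have h3 := (Nat.pow_lt_pow_iff_right (by norm_num)).1 (h2.trans_lt hℓ)
  rw [Multiset.length_toList, Finsupp.card_toMultiset, Finsupp.sum]
  refine (Finset.sum_le_card_nsmul _ _ e fun a _ => h1 a).trans ?_
  rw [smul_eq_mul, mul_comm]
  exact Nat.mul_le_mul_left _ (by omega)

end rc

/-- Rank concentration. -/
theorem concentrate [CharZero K] {f r e ℓ : ℕ} (V : Fin r → MvPolynomial (Fin f) K)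
    (hV : ∀ a k, DL (List.replicate (e + 1) (Pi.single a 1)) (V k) = 0) (hℓ : r < 2 ^ (ℓ + 1))
    (hs : ∀ φ : (Fin r → K) →ₗ[K] K, (∀ s, φ (jet V s []) = 0) → φ = 0) :
    ∃ (s : Fin f → K) (γ : Fin r → List (Fin f)), (∀ j, (γ j).length ≤ e * ℓ) ∧
      (Matrix.of fun k j => jet V s (dirs K (γ j)) k).det ≠ 0 := by
  classical
  let m : MonomialOrder (Fin f) := MonomialOrder.lex
  have hw : ∀ α, ∃ w ≠ (0 : MvPolynomial (Fin f) K), Old m V α → w • Dm α V ∈ Earlier m V α :=
    fun α => by
      by_cases h : Old m V α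
      · exact h.imp fun w hw => ⟨hw.1, fun _ => hw.2⟩
      · exact ⟨1, one_ne_zero, fun h' => absurd h' h⟩
  choose w hw0 hw using hw
  obtain ⟨s, hs0⟩ : ∃ s, eval s (∏ α ∈ Finset.Iic (Finsupp.equivFunOnFinite.symm fun _ => e),
      w α) ≠ 0 := by
    by_contra hn
    push Not at hn
    exact Finset.prod_ne_zero_iff.2 (fun α _ => hw0 α)
      (MvPolynomial.funext fun s => (hn s).trans (map_zero _).symm)
  rw [map_prod, Finset.prod_ne_zero_iff] at hs0
  let S : Set (Fin r → K) := {y | ∃ γ : List (Fin f), γ.length ≤ e * ℓ ∧ jet V s (dirs K γ) = y}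
  have key : ∀ α, (fun k => eval s (Dm α V k)) ∈ Submodule.span K S := fun α => by
    induction α using (InvImage.wf m.toSyn wellFounded_lt).induction with
    | _ α ih =>
    by_cases h : Old m V α
    swap
    · exact Submodule.subset_span ⟨_, new_small hV (by simpa using hℓ) h, rfl⟩
    by_cases h1 : ∃ a, e < α a
    · obtain ⟨a, ha⟩ := h1
      simp only [Dm_big hV ha, Pi.zero_apply, map_zero]; exact zero_mem _
    push Not at h1
    have h2 : ∀ y ∈ Earlier m V α, (fun k => eval s (y k)) ∈ Submodule.span K S := fun y hy => by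
      induction hy using Submodule.span_induction with
      | mem y hy => obtain ⟨β, hβ, rfl⟩ := hy; exact ih β hβ
      | zero => simp only [Pi.zero_apply, map_zero]; exact zero_mem _
      | add x y _ _ hx hy => simp only [Pi.add_apply, map_add]; exact add_mem hx hy
      | smul p x _ hx =>
        simp only [Pi.smul_apply, smul_eq_mul, map_mul]; exact Submodule.smul_mem _ (eval s p) hx
    have h3 := hs0 α (Finset.mem_Iic.2 fun a => by simpa using h1 a)
    convert Submodule.smul_mem _ (eval s (w α))⁻¹ (h2 _ (hw α h)) using 1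
    ext k
    simp [h3]
  have top : Submodule.span K S = ⊤ := eq_top_iff.2 fun y _ => mem_of_dual fun φ hφ => by
    rw [hs φ fun s' => ?_, LinearMap.zero_apply]
    have h0 : line s (s' - s) (fl V φ) = 0 := Polynomial.ext fun j =>
      Polynomial.X_pow_dvd_iff.1 (X_pow_dvd_line (k := j + 1) fun i _ => by
        refine multilin (𝒟 := Set.range fun a => Pi.single a 1) _ (fun u _ => ?_)
          (aeval s).toLinearMap fun l _ hl => ?_
        · rw [show (fun a : Fin f => (Pi.single a 1 : Fin f → K)) = Pi.basisFun K (Fin f) from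
            funext fun a => (Pi.basisFun_apply _ _ a).symm, Basis.span_eq]
          trivial
        · obtain ⟨l, rfl⟩ : ∃ l', l = dirs K l' := by
            choose g hg using hl
            exact ⟨l.pmap g fun _ h => h, by simp [dirs, List.map_pmap, hg]⟩
          refine (eval_DL_fl V φ s _).trans (hφ _ ?_)
          convert key (Multiset.toFinsupp (l : Multiset (Fin f))) using 1
          exact funext fun k => congrArg _ (Dm_list l V k)) j (by omega)
    have := eval_line s (s' - s) 1 (fl V φ)
    rw [h0, one_smul, add_sub_cancel] at this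
    rw [← eval_DL_fl, DL_nil, ← this, Polynomial.eval_zero]
  obtain ⟨x, h1, h2⟩ := exists_indep (K := K) (S := S) (k := r) (by rw [top]; simp)
  choose γ h3 h4 using h1
  refine ⟨s, γ, h3, ?_⟩
  rw [← isUnit_iff_ne_zero, ← Matrix.isUnit_iff_isUnit_det,
    ← Matrix.linearIndependent_cols_iff_isUnit]
  rwa [← funext h4] at h2

end Pool.Agent.P.MP_08e617_lc.Hd
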