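import Pool.Agent.P.MP_08e617_lc.HdB

/-! The gap lemma: at a local maximum of the jet dimension, jets absorb moves in few letters. -/

namespace Pool.Agent.P.MP_08e617_lc.Hd

open MvPolynomial Module Matrix

variable {K : Type} [Field K] {σ ι : Type} {r : ℕ}

/-- A square minor of a family of vectors. -/
def mnr {R : Type} (x : Fin r → ι → R) (e : Fin r → ι) : Matrix (Fin r) (Fin r) R :=
  Matrix.of fun i j => x j (e i)

/-- The remainder of `y` modulo the vectors `x`, by Cramer's rule. -/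
def rem {R : Type} [CommRing R] (x : Fin r → ι → R) (e : Fin r → ι) (c : ι) :
    (ι → R) →ₗ[R] R where
  toFun y := (mnr x e).det * y c - ∑ j, ((mnr x e).adjugate *ᵥ fun i => y (e i)) j * x j c
  map_add' y z := by
    rw [show (fun i => (y + z) (e i)) = (fun i => y (e i)) + fun i => z (e i) from rfl, mulVec_add]
    simp only [Pi.add_apply, add_mul, Finset.sum_add_distrib]; ring
  map_smul' a y := by
    rw [show (fun i => (a • y) (e i)) = a • fun i => y (e i) from rfl, mulVec_smul]
    simp only [Pi.smul_apply, smul_eq_mul, RingHom.id_apply, mul_assoc, ← Finset.mul_sum]; ring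

theorem rem_apply {R : Type} [CommRing R] (x : Fin r → ι → R) (e : Fin r → ι) (c : ι) (y : ι → R) :
    rem x e c y =
      (mnr x e).det * y c - ∑ j, ((mnr x e).adjugate *ᵥ fun i => y (e i)) j * x j c := rfl

theorem map_mnr {R S : Type} [CommRing R] [CommRing S] (φ : R →+* S) (x : Fin r → ι → R)
    (e : Fin r → ι) : φ (mnr x e).det = (mnr (fun j c => φ (x j c)) e).det :=
  RingHom.map_det φ _

theorem map_rem {R S : Type} [CommRing R] [CommRing S] (φ : R →+* S) (x : Fin r → ι → R)
    (e : Fin r → ι) (c : ι) (y : ι → R) :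
    φ (rem x e c y) = rem (fun j c => φ (x j c)) e c fun c => φ (y c) := by
  have : (mnr (fun j c => φ (x j c)) e).adjugate = (mnr x e).adjugate.map φ :=
    (RingHom.map_adjugate φ (mnr x e)).symm
  simp only [rem_apply, map_sub, map_mul, map_sum, map_mnr, this, mulVec, dotProduct, map_apply]

theorem rem_self {R : Type} [CommRing R] (x : Fin r → ι → R) (e : Fin r → ι) (c : ι) (j : Fin r) :
    rem x e c (x j) = 0 := by
  have : ((mnr x e).adjugate *ᵥ fun i => x j (e i)) = Pi.single j (mnr x e).det := by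
    ext k
    have := congrFun (congrFun (adjugate_mul (mnr x e)) k) j
    rw [mul_apply] at this
    exact this.trans (by simp [one_apply, Pi.single_apply])
  simp [rem_apply, this, Pi.single_apply]

theorem rem_iff {x : Fin r → ι → K} {e : Fin r → ι} (h : (mnr x e).det ≠ 0) {y : ι → K} :
    (∀ c, rem x e c y = 0) ↔ y ∈ Submodule.span K (Set.range x) := by
  refine ⟨fun h0 => (Submodule.mem_span_range_iff_exists_fun K).2
    ⟨fun j => (mnr x e).det⁻¹ * ((mnr x e).adjugate *ᵥ fun i => y (e i)) j, funext fun c => ?_⟩,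
    fun hy c => ?_⟩
  · have := h0 c
    rw [rem_apply, sub_eq_zero] at this
    simp [Finset.sum_apply, mul_assoc, ← Finset.mul_sum, ← this, h]
  · obtain ⟨a, rfl⟩ := (Submodule.mem_span_range_iff_exists_fun K).1 hy
    simp [rem_self]

theorem indep_of_mnr {x : Fin r → ι → K} {e : Fin r → ι} (h : (mnr x e).det ≠ 0) :
    LinearIndependent K x := by
  rw [← isUnit_iff_ne_zero, ← Matrix.isUnit_iff_isUnit_det,
    ← Matrix.linearIndependent_cols_iff_isUnit] at h
  exact .of_comp (LinearMap.funLeft K K e) h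

theorem exists_mnr [Fintype ι] {S : Set (ι → K)} (h : r ≤ finrank K (Submodule.span K S)) :
    ∃ (x : Fin r → ι → K) (e : Fin r → ι), (∀ j, x j ∈ S) ∧ (mnr x e).det ≠ 0 := by
  obtain ⟨x, h1, h2⟩ := exists_indep h
  have h3 := LinearIndependent.rank_matrix (M := Matrix.of x) h2
  rw [rank_eq_finrank_span_cols, Fintype.card_fin] at h3
  obtain ⟨y, h4, h5⟩ := exists_indep h3.ge
  choose e he using h4
  refine ⟨x, e, h1, ?_⟩
  rw [← isUnit_iff_ne_zero, ← Matrix.isUnit_iff_isUnit_det,
    ← Matrix.linearIndependent_rows_iff_isUnit]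
  rwa [← funext he] at h5

theorem le_span_of_mnr [Fintype ι] {U : Submodule K (ι → K)} {x : Fin r → ι → K} {e : Fin r → ι}
    (h : (mnr x e).det ≠ 0) (hx : ∀ j, x j ∈ U) (hU : finrank K U ≤ r) :
    U = Submodule.span K (Set.range x) :=
  (Submodule.eq_of_le_of_finrank_le (Submodule.span_le.2 (Set.range_subset_iff.2 hx))
    (by rwa [finrank_span_eq_card (indep_of_mnr h), Fintype.card_fin])).symm

theorem natDegree_det_le {n : Type} [Fintype n] [DecidableEq n] (M : Matrix n n (Polynomial K))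
    (d : n → ℕ) (h : ∀ i j, (M i j).natDegree ≤ d i) : M.det.natDegree ≤ ∑ i, d i := by
  rw [← det_transpose, det_apply]
  refine Polynomial.natDegree_sum_le_of_forall_le _ _ fun s _ =>
    (Polynomial.natDegree_smul_le _ _).trans ?_
  exact (Polynomial.natDegree_prod_le _ _).trans (Finset.sum_le_sum fun i _ => h _ _)

theorem low_kill {ρ : ℕ} {Q : Matrix (Fin r) (Fin r) (Polynomial K)} (h0 : Q.det ≠ 0)
    (h1 : Q.det.natDegree ≤ ρ) {g : Fin r → Polynomial K}
    (h : ∀ j, Polynomial.X ^ (ρ + 1) ∣ ∑ k, Q k j * g k) (k : Fin r) : (g k).eval 0 = 0 := by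
  by_contra hn
  have h2 : Polynomial.X ^ (ρ + 1) ∣ Q.det * g k := by
    have : Q.det * g k = ∑ j, (∑ k, Q k j * g k) * Q.adjugate j k := by
      have := congrFun (vecMul_vecMul g Q Q.adjugate) k
      rw [mul_adjugate, vecMul_smul, vecMul_one] at this
      simpa [vecMul, dotProduct, mul_comm] using this.symm
    rw [this]
    exact Finset.dvd_sum fun j _ => (h j).mul_right _
  have := Polynomial.natDegree_le_of_dvd (Polynomial.prime_X.pow_dvd_of_dvd_mul_right _
    (by rwa [Polynomial.X_dvd_iff, Polynomial.coeff_zero_eq_eval_zero]) h2) h0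
  rw [Polynomial.natDegree_X_pow] at this
  omega

/-- Restriction to the affine span of the directions `d` through `Y`. -/
noncomputable def plane {f : ℕ} (Y : σ → K) (d : Fin f → σ → K) :
    MvPolynomial σ K →ₐ[K] MvPolynomial (Fin f) K :=
  aeval fun s => C (Y s) + ∑ a, C (d a s) * X a

theorem eval_plane {f : ℕ} (Y : σ → K) (d : Fin f → σ → K) (t : Fin f → K) (F : MvPolynomial σ K) :
    eval t (plane Y d F) = eval (Y + ∑ a, t a • d a) F := by
  induction F using MvPolynomial.induction_on with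
  | C a => simp [plane]
  | add p q hp hq => simp [hp, hq]
  | mul_X p s hp => rw [map_mul, map_mul, hp, plane, aeval_X]; simp [mul_comm (d _ s)]

theorem DL_plane {f : ℕ} (Y : σ → K) (d : Fin f → σ → K) (γ : List (Fin f))
    (F : MvPolynomial σ K) : DL (dirs K γ) (plane Y d F) = plane Y d (DL (γ.map d) F) := by
  induction γ with
  | nil => rfl
  | cons a γ ih =>
    rw [dirs, List.map_cons, DL_cons, ← dirs, ih, List.map_cons, DL_cons]
    refine chain _ _ _ (fun s => ?_) _
    simp [plane, Pi.single_apply, apply_ite]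

/-- What is needed of the vector `v`, the letters `𝒜` and the computable directions `𝒞`. -/
structure Hyp (v : ι → MvPolynomial σ K) (δ : MvPolynomial σ K) (𝒜 𝒞 : Set (σ → K))
    (e ℓ B : ℕ) : Prop where
  span : Submodule.span K 𝒜 = Submodule.span K 𝒞
  ne : 𝒜.Nonempty
  dim : ∀ Y, eval Y δ ≠ 0 → ∀ d : Fin (e * ℓ + 1) → σ → K, (∀ j, d j ∈ 𝒜) →
    ∃ U : Submodule K (ι → K), finrank K U ≤ B ∧
      ∀ t : Fin (e * ℓ + 1) → K, eval (Y + ∑ a, t a • d a) δ ≠ 0 → jet v (Y + ∑ a, t a • d a) [] ∈ U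
  nil : ∀ k u, Ball 𝒜 0 k u → ∀ c, DL (List.replicate (e * k + 1) u) (v c) = 0
  lt : B < 2 ^ (ℓ + 1)

variable [CharZero K] [Fintype ι] [DecidableEq ι] {v : ι → MvPolynomial σ K} {δ : MvPolynomial σ K}
  {𝒜 𝒞 : Set (σ → K)} {e ℓ B : ℕ}

theorem Hyp.frame (h : Hyp v δ 𝒜 𝒞 e ℓ B) {Y Z : σ → K} (hδ : eval Y δ ≠ 0)
    (hZ : Ball 𝒜 Y (e * ℓ + 1) Z) : ∃ (n : ℕ) (b : Fin n → ι → K) (u : σ → K)
    (m : Fin n → List (σ → K)) (Q : Matrix (Fin n) (Fin n) (Polynomial K)),
    u ∈ Submodule.span K 𝒜 ∧ (∀ j, (m j).length ≤ e * ℓ ∧ ∀ w ∈ m j, w ∈ 𝒜) ∧ Q.det ≠ 0 ∧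
    Q.det.natDegree ≤ B * (e * (e * ℓ + 1)) ∧ jet v Z [] ∈ Submodule.span K (Set.range b) ∧
    ∀ j, (fun c => line Y u (DL (m j) (v c))) = ∑ k, Q k j • fun c => Polynomial.C (b k c) := by
  obtain ⟨t, d, hd, rfl⟩ := hZ.param h.ne
  obtain ⟨U, hU, hU'⟩ := h.dim Y hδ d hd
  let U0 := Submodule.span K (Set.range fun s : Fin (e * ℓ + 1) → K =>
    jet v (Y + ∑ a, s a • d a) [])
  have hU0 : finrank K U0 ≤ B := (Submodule.finrank_mono (Submodule.span_le.2 ?_)).trans hU
  swap
  · rintro _ ⟨s, rfl⟩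
    refine mem_of_dual fun φ hφ => ?_
    have := eval_line Y (∑ a, s a • d a) 1 (fl v φ)
    rw [dense_line hδ fun τ hτ => ?_, one_smul] at this
    · rw [← eval_DL_fl, DL_nil, ← this, Polynomial.eval_zero]
    · simp only [Finset.smul_sum, smul_smul] at hτ ⊢
      exact (eval_DL_fl v φ _ []).trans (hφ _ (hU' _ hτ))
  let b := Module.finBasis K U0
  obtain ⟨π, hπ⟩ := LinearMap.exists_extend b.equivFun.toLinearMap
  have hπ' : ∀ y ∈ U0, ∑ k, π y k • (b k).1 = y := fun y hy => by
    have := congrArg U0.subtype (b.sum_equivFun ⟨y, hy⟩)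
    rw [map_sum] at this
    simpa [show π y = b.equivFun ⟨y, hy⟩ from LinearMap.congr_fun hπ ⟨y, hy⟩] using this
  let v' := fun k => fl v (LinearMap.proj k ∘ₗ π)
  have nil' : ∀ k u, Ball 𝒜 0 k u → ∀ c, DL (List.replicate (e * k + 1) u) (v' c) = 0 :=
    fun k u hu c => by simp [v', fl, h.nil k u hu]
  have val : ∀ s, jet (fun k => plane Y d (v' k)) s [] = π (jet v (Y + ∑ a, s a • d a) []) :=
    fun s => funext fun k => by
      rw [jet, DL_nil, eval_plane]
      exact eval_DL_fl v _ _ []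
  obtain ⟨s, γ, h1, h2⟩ := concentrate (e := e) (ℓ := ℓ) (fun k => plane Y d (v' k))
    (fun a k => by
      have := DL_plane Y d (List.replicate (e + 1) a) (v' k)
      have h3 := nil' 1 _ ((Ball.base 0).step 1 (hd a)) k
      rw [zero_add, one_smul, mul_one] at h3
      rwa [dirs, List.map_replicate, List.map_replicate, h3, map_zero] at this)
    (hU0.trans_lt h.lt) fun φ hφ => by
      have : U0 ≤ LinearMap.ker (φ ∘ₗ π) := Submodule.span_le.2 (by
        rintro _ ⟨s, rfl⟩
        exact (congrArg φ (val s)).symm.trans (hφ s))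
      refine LinearMap.ext fun y => ?_
      have h3 := this (b.equivFun.symm y).2
      rwa [LinearMap.mem_ker, LinearMap.comp_apply, show π (b.equivFun.symm y).1 =
        b.equivFun (b.equivFun.symm y) from LinearMap.congr_fun hπ _,
        LinearEquiv.apply_symm_apply] at h3
  let u := ∑ a, s a • d a
  have hu : Ball 𝒜 0 (e * ℓ + 1) u := by simpa using Ball.of_param 0 s d hd
  refine ⟨_, fun k => (b k).1, u, fun j => (γ j).map d,
    Matrix.of fun k j => line Y u (DL ((γ j).map d) (v' k)), by simpa using hu.sub_mem,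
    fun j => ⟨by simpa using h1 j, by simp [hd]⟩, fun h0 => h2 ?_, ?_, ?_,
    fun j => funext fun c => ?_⟩
  · have := congrArg (Polynomial.evalRingHom 1) h0
    rw [RingHom.map_det, map_zero] at this
    rw [← this]
    congr 1
    ext k j
    simp [eval_line, jet, DL_plane, eval_plane, u]
  · exact (natDegree_det_le _ (fun _ => e * (e * ℓ + 1)) fun k j =>
      natDegree_line_of_DL (by rw [DL_comm, nil' _ _ hu, map_zero]) Y).trans
      (by simpa using Nat.mul_le_mul_right _ hU0)
  · exact (Submodule.mem_span_range_iff_exists_fun K).2 ⟨_, hπ' _ (Submodule.subset_span ⟨t, rfl⟩)⟩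
  · have h3 : plane Y d (v c - ∑ k, (b k).1 c • v' k) = 0 := MvPolynomial.funext fun s => by
      have h4 := congrFun (hπ' _ (Submodule.subset_span ⟨s, rfl⟩)) c
      rw [← val] at h4
      simp only [jet, DL_nil] at h4
      simp [← eval_plane, smul_eval, mul_comm] at h4 ⊢
      rw [h4, sub_self]
    have h5 : line Y u (DL ((γ j).map d) (v c - ∑ k, (b k).1 c • v' k)) = 0 :=
      line_eq_zero fun τ => by
        simp only [u, Finset.smul_sum, smul_smul]
        rw [← eval_plane, ← DL_plane, h3, map_zero, map_zero]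
    simpa [sub_eq_zero, Finset.sum_apply, Polynomial.smul_eq_C_mul, mul_comm] using h5

omit [CharZero K] [Fintype ι] [DecidableEq ι] in
theorem line_rem (Y u : σ → K) (x : Fin r → ι → MvPolynomial σ K) (ε : Fin r → ι) (c : ι)
    (y : ι → MvPolynomial σ K) : line Y u (rem x ε c y) =
      rem (fun j c => line Y u (x j c)) ε c fun c => line Y u (y c) :=
  map_rem (line Y u).toRingHom x ε c y

theorem Hyp.gap (h : Hyp v δ 𝒜 𝒞 e ℓ B) {l : Fin r → List (σ → K)}
    (hl : ∀ j, (l j).length ≤ e * ℓ ∧ ∀ u ∈ l j, u ∈ 𝒞) {ε : Fin r → ι} {Y : σ → K}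
    (hδ : eval Y δ ≠ 0) (hh : (mnr (fun j => jet v Y (l j)) ε).det ≠ 0)
    (hmax : ∀ Z, Ball 𝒞 Y (B * (e * (e * ℓ + 1))) Z → eval Z δ ≠ 0 →
      finrank K (Jet v 𝒞 (e * ℓ) Z) ≤ r) {Z : σ → K} (hZ : Ball 𝒜 Y (e * ℓ + 1) Z) :
    jet v Z [] ∈ Submodule.span K (Set.range fun j => jet v Y (l j)) := by
  obtain ⟨n, b, u, m, Q, hu, hm, Q0, Q1, hb, dec⟩ := h.frame hδ hZ
  let x : Fin r → ι → MvPolynomial σ K := fun j c => DL (l j) (v c)
  have A : ∀ j c, Polynomial.X ^ (B * (e * (e * ℓ + 1)) + 1) ∣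
      line Y u (δ * (mnr x ε).det * rem x ε c fun c => DL (m j) (v c)) := fun j c =>
    X_pow_dvd_line fun i hi => hit (𝒟 := 𝒞) _ (by simpa using Nat.lt_succ_iff.1 hi)
      (fun w hw => List.eq_of_mem_replicate hw ▸ h.span ▸ hu) fun W hW => by
        rw [map_mul, map_mul, map_mnr, map_rem, mul_eq_zero, mul_eq_zero, or_iff_not_imp_left,
          not_or]
        intro h1
        have h2 := le_span_of_mnr (U := Jet v 𝒞 (e * ℓ) W) (x := fun j => jet v W (l j)) h1.2 (fun j =>
          Submodule.subset_span ⟨l j, (hl j).1, (hl j).2, rfl⟩) (hmax W hW h1.1)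
        exact (rem_iff h1.2).2 (h2.le (jet_mem W (hm j).1 fun w hw =>
          h.span ▸ Submodule.subset_span ((hm j).2 w hw))) c
  refine Submodule.span_le.2 (Set.range_subset_iff.2 fun k => (rem_iff hh).1 fun c => ?_) hb
  have := low_kill Q0 Q1 (g := fun k => line Y u δ * line Y u (mnr x ε).det *
    rem (fun j c => line Y u (x j c)) ε c fun c => Polynomial.C (b k c)) (fun j => by
      have := A j c
      rw [map_mul, map_mul, line_rem, dec j, map_sum, Finset.mul_sum] at this
      simpa only [map_smul, smul_eq_mul, mul_left_comm (Q _ j)] using this) k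
  rw [Polynomial.eval_mul, Polynomial.eval_mul, eval_line_zero, eval_line_zero, map_mnr,
    ← Polynomial.coe_evalRingHom, map_rem] at this
  simp only [Polynomial.coe_evalRingHom, eval_line_zero, Polynomial.eval_C] at this
  exact (mul_eq_zero.1 this).resolve_left (mul_ne_zero hδ hh)

end Pool.Agent.P.MP_08e617_lc.Hd
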