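import Pool.Agent.P.MP_08e617_lc.HdC

/-! A local maximum of the jet dimension along a moment curve yields a locally generic point. -/

namespace Pool.Agent.P.MP_08e617_lc.Hd

open MvPolynomial Module Matrix

variable {K : Type} [Field K] {σ ι : Type} {M k r : ℕ}

theorem totalDegree_aeval_le {τ : Type} (F : MvPolynomial σ K) (ψ : σ → MvPolynomial τ K) {n : ℕ}
    (h : ∀ s, (ψ s).totalDegree ≤ n) : (aeval ψ F).totalDegree ≤ F.totalDegree * n := by
  rw [aeval_def, eval₂_eq]
  refine totalDegree_finsetSum_le fun m hm => (totalDegree_mul _ _).trans ?_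
  rw [algebraMap_eq, totalDegree_C, zero_add]
  refine (totalDegree_finsetProd _ _).trans ((Finset.sum_le_sum fun s _ =>
    (totalDegree_pow _ _).trans (Nat.mul_le_mul_left _ (h s))).trans ?_)
  rw [← Finset.sum_mul]
  exact Nat.mul_le_mul_right _ (le_totalDegree hm)

theorem totalDegree_det_le {n : Type} [Fintype n] [DecidableEq n]
    (A : Matrix n n (MvPolynomial σ K)) {E : ℕ} (h : ∀ i j, (A i j).totalDegree ≤ E) :
    A.det.totalDegree ≤ Fintype.card n * E := by
  rw [det_apply']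
  refine totalDegree_finsetSum_le fun s _ => (totalDegree_mul _ _).trans ?_
  rw [← map_intCast (C : K →+* MvPolynomial σ K), totalDegree_C, zero_add]
  refine (totalDegree_finsetProd _ _).trans ?_
  refine (Finset.sum_le_card_nsmul _ _ E fun i _ => h _ _).trans ?_
  simp

/-- The moment curve of a family of directions. -/
def cur (B : Fin M → σ → K) (t : K) : σ → K := ∑ i : Fin M, t ^ (i : ℕ) • B i

/-- Sums of points of the moment curve, with polynomial parameters. -/
noncomputable def fam (B : Fin M → σ → K) (k : ℕ) (Y : σ → K) :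
    MvPolynomial σ K →ₐ[K] MvPolynomial (Fin k ⊕ Fin k) K :=
  aeval fun s => C (Y s) + ∑ j, ∑ i, C (B i s) * (X (.inl j) * X (.inr j) ^ (i : ℕ))

theorem eval_fam (B : Fin M → σ → K) (Y : σ → K) (θ : Fin k ⊕ Fin k → K) (F : MvPolynomial σ K) :
    eval θ (fam B k Y F) = eval (Y + ∑ j, θ (.inl j) • cur B (θ (.inr j))) F := by
  induction F using MvPolynomial.induction_on with
  | C a => simp [fam]
  | add p q hp hq => simp [hp, hq]
  | mul_X p s hp =>
    rw [map_mul, map_mul, hp, fam, aeval_X]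
    simp [cur, Finset.mul_sum, mul_comm (B _ s), mul_assoc]

theorem totalDegree_fam_le (B : Fin M → σ → K) (Y : σ → K) (F : MvPolynomial σ K) :
    (fam B k Y F).totalDegree ≤ F.totalDegree * M := by
  refine totalDegree_aeval_le F _ fun s => (totalDegree_add _ _).trans (max_le (by simp) ?_)
  refine totalDegree_finsetSum_le fun j _ => totalDegree_finsetSum_le fun i _ => ?_
  refine (totalDegree_mul _ _).trans ?_
  rw [totalDegree_C, zero_add]
  refine (totalDegree_mul _ _).trans ?_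
  rw [totalDegree_X, totalDegree_X_pow]
  omega

variable [CharZero K] {B : Fin M → σ → K} {Y Z : σ → K}

theorem span_cur [Fintype σ] (B : Fin M → σ → K) :
    Submodule.span K (Set.range (cur B)) = Submodule.span K (Set.range B) := by
  refine le_antisymm (Submodule.span_le.2 ?_) (Submodule.span_le.2 ?_)
  · rintro _ ⟨t, rfl⟩
    exact Submodule.sum_mem _ fun i _ => Submodule.smul_mem _ _ (Submodule.subset_span ⟨i, rfl⟩)
  · rintro _ ⟨i, rfl⟩
    refine mem_of_dual fun φ hφ => ?_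
    have : ∑ i : Fin M, Polynomial.monomial (i : ℕ) (φ (B i)) = 0 := Polynomial.funext fun t => by
      simpa [cur, Polynomial.eval_finsetSum, mul_comm] using hφ _ (Submodule.subset_span ⟨t, rfl⟩)
    simpa [Polynomial.coeff_monomial, Fin.val_inj] using
      congrArg (Polynomial.coeff · (i : ℕ)) this

omit [CharZero K] in
theorem fam_ne {F : MvPolynomial σ K} (hZ : Ball (Set.range (cur B)) Y k Z) (h : eval Z F ≠ 0) :
    fam B k Y F ≠ 0 := fun h0 => by
  obtain ⟨t, d, hd, rfl⟩ := hZ.param (Set.range_nonempty _)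
  choose s hs using hd
  have := eval_fam B Y (Sum.elim t s) F
  simp only [h0, map_zero, Sum.elim_inl, Sum.elim_inr, hs] at this
  exact h this.symm

theorem exists_common (𝓕 : Finset (MvPolynomial σ K))
    (h : ∀ F ∈ 𝓕, ∃ Z, Ball (Set.range (cur B)) Y k Z ∧ eval Z F ≠ 0) :
    ∃ Z, Ball (Set.range (cur B)) Y k Z ∧ ∀ F ∈ 𝓕, eval Z F ≠ 0 := by
  have : ∏ F ∈ 𝓕, fam B k Y F ≠ 0 := Finset.prod_ne_zero_iff.2 fun F hF =>
    (h F hF).elim fun Z hZ => fam_ne hZ.1 hZ.2
  obtain ⟨θ, hθ⟩ : ∃ θ, eval θ (∏ F ∈ 𝓕, fam B k Y F) ≠ 0 := by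
    by_contra hn
    push Not at hn
    exact this (MvPolynomial.funext fun s => (hn s).trans (map_zero _).symm)
  rw [map_prod, Finset.prod_ne_zero_iff] at hθ
  exact ⟨_, .of_param Y (fun j => θ (.inl j)) _ fun j => ⟨θ (.inr j), rfl⟩,
    fun F hF => eval_fam B Y θ F ▸ hθ F hF⟩

theorem to_grid {F : MvPolynomial σ K} {T : ℕ} (hT : F.totalDegree * M < T)
    (hZ : Ball (Set.range (cur B)) Y k Z) (h : eval Z F ≠ 0) : ∃ a t : Fin k → ℕ,
    (∀ j, a j < T ∧ t j < T) ∧ eval (Y + ∑ j, (a j : K) • cur B (t j)) F ≠ 0 := by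
  classical
  by_contra hn
  push Not at hn
  refine fam_ne hZ h (eq_zero_of_eval_zero_at_prod_finset _
    (fun _ => (Finset.range T).image Nat.cast) (fun i => ?_) fun θ hθ => ?_)
  · rw [Finset.card_image_of_injective _ Nat.cast_injective, Finset.card_range]
    exact (degreeOf_le_totalDegree _ _).trans_lt ((totalDegree_fam_le _ _ _).trans_lt hT)
  · simp only [Finset.mem_image, Finset.mem_range] at hθ
    choose g h1 h2 using hθ
    rw [eval_fam]
    simpa only [h2] using hn (fun j => g (.inl j)) (fun j => g (.inr j)) fun j => ⟨h1 _, h1 _⟩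

theorem ode {h : Polynomial K} (h0 : h.eval 0 ≠ 0) {a : Fin r → Polynomial K}
    (ha : ∀ j, (a j).eval 0 = 0) (q : Fin r → Fin r → Polynomial K)
    (hq : ∀ j, h * Polynomial.derivative (a j) = ∑ i, q j i * a i) (j : Fin r) : a j = 0 := by
  have key : ∀ n j, Polynomial.X ^ (n + 1) ∣ a j := fun n => by
    induction n with
    | zero => simpa [Polynomial.X_dvd_iff, Polynomial.coeff_zero_eq_eval_zero] using ha
    | succ n ih =>
      intro j
      have h1 := Polynomial.X_pow_dvd_iff.1 (Polynomial.prime_X.pow_dvd_of_dvd_mul_left (n + 1)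
        (by rwa [Polynomial.X_dvd_iff, Polynomial.coeff_zero_eq_eval_zero])
        (hq j ▸ Finset.dvd_sum fun i _ => (ih i).mul_left _)) n (by omega)
      rw [Polynomial.coeff_derivative, mul_eq_zero] at h1
      refine Polynomial.X_pow_dvd_iff.2 fun d hd => ?_
      rcases Nat.lt_succ_iff_lt_or_eq.1 hd with hd | rfl
      · exact Polynomial.X_pow_dvd_iff.1 (ih j) d hd
      · exact h1.resolve_right (by exact_mod_cast Nat.succ_ne_zero n)
  exact Polynomial.ext fun n => Polynomial.X_pow_dvd_iff.1 (key n j) n (by omega)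

variable [Fintype ι] [DecidableEq ι] {v : ι → MvPolynomial σ K} {δ : MvPolynomial σ K}
  {𝒜 𝒞 : Set (σ → K)} {e ℓ b : ℕ}

omit [DecidableEq ι] in
theorem grid_jet [Fintype σ] {d T N : ℕ} (hv : ∀ c, (v c).totalDegree ≤ d) (hd : δ.totalDegree ≤ d)
    (hT : (Fintype.card ι + 1) * d * M < T) (hZ : Ball (Set.range (cur B)) Y k Z)
    (hδ : eval Z δ ≠ 0) : ∃ a t : Fin k → ℕ, (∀ j, a j < T ∧ t j < T) ∧
      eval (Y + ∑ j, (a j : K) • cur B (t j)) δ ≠ 0 ∧
      finrank K (Jet v 𝒞 N Z) ≤ finrank K (Jet v 𝒞 N (Y + ∑ j, (a j : K) • cur B (t j))) := by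
  obtain ⟨x, ε, h1, h2⟩ := exists_mnr (le_refl (finrank K (Jet v 𝒞 N Z)))
  choose l h3 h4 h5 using h1
  obtain ⟨a, t, h6, h7⟩ := to_grid (F := δ * (mnr (fun j c => DL (l j) (v c)) ε).det) (T := T)
    (lt_of_le_of_lt (Nat.mul_le_mul_right _ ((totalDegree_mul _ _).trans (by
      have := totalDegree_det_le (mnr (fun j c => DL (l j) (v c)) ε) fun i j =>
        (totalDegree_DL_le _ _).trans (hv _)
      have h := Nat.mul_le_mul_right d (Submodule.finrank_le (Jet v 𝒞 N Z))
      simp only [Fintype.card_fin, finrank_fintype_fun_eq_card] at this h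
      rw [add_mul]
      omega))) hT) hZ (by
      rw [map_mul, map_mnr]
      exact mul_ne_zero hδ (by rwa [← funext h5] at h2))
  rw [map_mul, map_mnr, mul_ne_zero_iff] at h7
  refine ⟨a, t, h6, h7.1, ?_⟩
  have := finrank_span_eq_card (indep_of_mnr h7.2)
  rw [Fintype.card_fin] at this
  exact this.ge.trans (Submodule.finrank_mono (Submodule.span_mono (Set.range_subset_iff.2
    fun j => ⟨l j, h3 j, h4 j, rfl⟩)))

/-- A locally generic point. -/
theorem Hyp.generic (h : Hyp v δ 𝒜 (Set.range (cur B)) e ℓ b) (hδ : eval Y δ ≠ 0)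
    (hmax : ∀ Z, Ball (Set.range (cur B)) Y (e * ℓ + b * (e * (e * ℓ + 1))) Z → eval Z δ ≠ 0 →
      finrank K (Jet v (Set.range (cur B)) (e * ℓ) Z) ≤
        finrank K (Jet v (Set.range (cur B)) (e * ℓ) Y))
    {𝓕 : Set (MvPolynomial σ K)} (hf : 𝓕.Finite) (h𝓕 : ∀ F ∈ 𝓕, F ∈ Submodule.span K (Set.range v)) :
    ∃ Y', Ball (Set.range (cur B)) Y (e * ℓ) Y' ∧ eval Y' δ ≠ 0 ∧
      ∀ F ∈ 𝓕, eval Y' F = 0 → ∀ Z, Ball 𝒜 Y' (e * ℓ + 1) Z → eval Z F = 0 := by
  classical
  obtain ⟨x0, ε, h1, h2⟩ := exists_mnr (le_refl (finrank K (Jet v (Set.range (cur B)) (e * ℓ) Y)))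
  choose l h3 h4 h5 using h1
  rw [← funext h5] at h2
  let x := fun j c => DL (l j) (v c)
  have gp : ∀ W, Ball (Set.range (cur B)) Y (e * ℓ) W → eval W (δ * (mnr x ε).det) ≠ 0 →
      ∀ Z, Ball 𝒜 W (e * ℓ + 1) Z →
        jet v Z [] ∈ Submodule.span K (Set.range fun j => jet v W (l j)) := fun W hW h6 Z hZ => by
    rw [map_mul, map_mnr, mul_ne_zero_iff] at h6
    exact h.gap (fun j => ⟨h3 j, h4 j⟩) h6.1 h6.2 (fun Z' hZ' => hmax Z' (hW.trans hZ')) hZ
  have h0 : eval Y (δ * (mnr x ε).det) ≠ 0 := by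
    rw [map_mul, map_mnr]; exact mul_ne_zero hδ h2
  obtain ⟨Y', hY', h6⟩ := exists_common (B := B) (Y := Y) (k := e * ℓ)
    (insert (δ * (mnr x ε).det) (hf.toFinset.filter fun F =>
      ∃ Z, Ball (Set.range (cur B)) Y (e * ℓ) Z ∧ eval Z F ≠ 0)) fun F hF => by
    rcases Finset.mem_insert.1 hF with rfl | hF
    · exact ⟨Y, .base _, h0⟩
    · exact (Finset.mem_filter.1 hF).2
  have h7 := h6 _ (Finset.mem_insert_self _ _)
  refine ⟨Y', hY', fun h8 => h7 (by simp [h8]), fun F hF h8 Z hZ => ?_⟩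
  have h9 : ∀ Z, Ball (Set.range (cur B)) Y (e * ℓ) Z → eval Z F = 0 := fun Z hZ => by_contra
    fun hn => h6 F (Finset.mem_insert_of_mem (Finset.mem_filter.2 ⟨by simpa, Z, hZ, hn⟩)) h8
  obtain ⟨φ, rfl⟩ := exists_fl (h𝓕 F hF)
  have A : ∀ j c, line Y (Y' - Y) (rem x ε c fun c => DL ((Y' - Y) :: l j) (v c)) = 0 :=
    fun j c => dense_line h0 fun τ hτ => by
      have g := gp _ (hY'.scale τ) hτ
      rw [map_mul, map_mnr, mul_ne_zero_iff] at hτ
      rw [map_rem]
      refine (eval_DL_fl v _ _ _).symm.trans (hit (𝒟 := 𝒜) (k := e * ℓ + 1) _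
        (by simpa using h3 j) (fun w hw => h.span ▸ ?_) fun Z hZ => ?_)
      · rcases List.mem_cons.1 hw with rfl | hw
        exacts [hY'.sub_mem, Submodule.subset_span (h4 j w hw)]
      · exact (eval_DL_fl v _ Z []).trans ((rem_iff hτ.2).2 (g Z hZ) c)
  have E : ∀ j, line Y (Y' - Y) (DL (l j) (fl v φ)) = 0 :=
    ode (h := line Y (Y' - Y) (mnr x ε).det)
      (by rw [eval_line_zero]; exact fun h => h0 (by simp [h]))
      (fun j => by
        rw [eval_line_zero]
        exact hit _ (h3 j) (fun w hw => Submodule.subset_span (h4 j w hw)) h9)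
      (fun j i => line Y (Y' - Y) (((mnr x ε).adjugate *ᵥ
        fun i => DL ((Y' - Y) :: l j) (v (ε i))) i)) fun j => by
      have := Finset.sum_eq_zero (s := Finset.univ) fun c _ =>
        (congrArg (φ (Pi.single c 1) • ·) (A j c)).trans (smul_zero _)
      simp only [rem_apply, map_sub, map_mul, map_sum, smul_sub, Finset.sum_sub_distrib,
        Finset.smul_sum, sub_eq_zero] at this
      rw [Finset.sum_comm] at this
      simpa only [deriv_line, ← DL_cons, fl, map_sum, map_smul, Finset.mul_sum, mul_smul_comm]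
        using this
  have : Submodule.span K (Set.range fun j => jet v Y' (l j)) ≤ LinearMap.ker φ :=
    Submodule.span_le.2 (Set.range_subset_iff.2 fun j => by
      have := eval_line Y (Y' - Y) 1 (DL (l j) (fl v φ))
      rw [E, one_smul, add_sub_cancel, eval_DL_fl, Polynomial.eval_zero] at this
      exact this.symm)
  exact (eval_DL_fl v φ Z []).trans (this (gp Y' hY' h7 Z hZ))

end Pool.Agent.P.MP_08e617_lc.Hd
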