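import Pool.Agent.P.MP_08e617_lc.HdD

/-! Cubic monomials in the determinant and the adjugate. -/

namespace Pool.Agent.P.MP_08e617_lc.Hd

open MvPolynomial Module Matrix

variable {K : Type} [Field K] {ι : Type} {n : ℕ}

/-- The matrix of a point. -/
def mat {R : Type} (Y : Fin n × Fin n → R) : Matrix (Fin n) (Fin n) R := Matrix.of fun p q => Y (p, q)

/-- Replace row `q` by the unit vector `p`. -/
def rep {R : Type} [CommRing R] (A : Matrix (Fin n) (Fin n) R) (p q : ℕ) : Matrix (Fin n) (Fin n) R :=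
  Matrix.of fun r c => if (r : ℕ) = q then (if (c : ℕ) = p then 1 else 0) else A r c

/-- The determinant and the entries of the adjugate of the generic matrix. -/
noncomputable def bas (K : Type) [Field K] (n p q : ℕ) : MvPolynomial (Fin n × Fin n) K :=
  (rep (mat X) p q).det

/-- Cubic monomials. -/
noncomputable def tri (K : Type) [Field K] (n : ℕ) (c : List ℕ) : MvPolynomial (Fin n × Fin n) K :=
  bas K n (c.getD 0 0) (c.getD 1 0) * bas K n (c.getD 2 0) (c.getD 3 0) *
    bas K n (c.getD 4 0) (c.getD 5 0)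

theorem map_bas {S : Type} [CommRing S] (φ : MvPolynomial (Fin n × Fin n) K →+* S) (p q : ℕ) :
    φ (bas K n p q) = (rep (mat fun s => φ (X s)) p q).det := by
  rw [bas, RingHom.map_det]
  congr 1
  ext r c
  simp [rep, mat, apply_ite φ]

theorem eval_bas (Y : Fin n × Fin n → K) (p q : ℕ) :
    eval Y (bas K n p q) = (rep (mat Y) p q).det := by simp [map_bas]

/-- A scalar and a matrix, read as one array. -/
def bw (a : K) (A : Matrix (Fin n) (Fin n) K) (p q : ℕ) : K :=
  if hq : q < n then if hp : p < n then A ⟨p, hp⟩ ⟨q, hq⟩ else 0 else a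

theorem det_rep (A : Matrix (Fin n) (Fin n) K) (p q : ℕ) :
    (rep A p q).det = bw A.det A.adjugate p q := by
  unfold bw
  split_ifs with hq hp
  · rw [adjugate_apply]
    congr 1
    ext r c
    simp [rep, updateRow_apply, Pi.single_apply, Fin.ext_iff]
  · exact det_eq_zero_of_row_eq_zero ⟨q, hq⟩ fun c => by simp [rep]; omega
  · congr 1
    ext r c
    simp [rep, show (r : ℕ) ≠ q by omega]

theorem eval_delta (Y : Fin n × Fin n → K) : eval Y (bas K n 0 n) = (mat Y).det := by
  simp [eval_bas, det_rep, bw]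

theorem totalDegree_bas (p q : ℕ) : (bas K n p q).totalDegree ≤ n := by
  have := totalDegree_det_le (rep (mat (X : Fin n × Fin n → MvPolynomial _ K)) p q) (E := 1)
    fun r c => by
      simp only [rep, mat, of_apply]
      split_ifs <;> simp
  simpa [bas] using this

theorem totalDegree_tri (c : List ℕ) : (tri K n c).totalDegree ≤ 3 * n := by
  refine (totalDegree_mul _ _).trans ((Nat.add_le_add ((totalDegree_mul _ _).trans
    (Nat.add_le_add (totalDegree_bas _ _) (totalDegree_bas _ _))) (totalDegree_bas _ _)).trans ?_)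
  omega

theorem factor2 {A : Matrix (Fin n) (Fin n) K} (h : A.rank ≤ 2) :
    ∃ u p : Fin 2 → Fin n → K, ∀ i j, A i j = ∑ k, u k i * p k j := by
  rw [rank_eq_finrank_span_cols] at h
  obtain ⟨x, -, hx⟩ := exists_indep (le_refl (finrank K (Submodule.span K (Set.range A.col))))
  let b := Module.finBasis K (Submodule.span K (Set.range A.col))
  obtain ⟨e⟩ := Function.Embedding.nonempty_of_card_le
    (α := Fin (finrank K (Submodule.span K (Set.range A.col)))) (β := Fin 2) (by simpa using h)
  refine ⟨Function.extend e (fun k => (b k).1) 0, Function.extend e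
    (fun k j => b.equivFun ⟨A.col j, Submodule.subset_span ⟨j, rfl⟩⟩ k) 0, fun i j => ?_⟩
  have := congrFun (congrArg (Submodule.subtype _)
    (b.sum_equivFun ⟨A.col j, Submodule.subset_span ⟨j, rfl⟩⟩)) i
  rw [map_sum] at this
  refine this.symm.trans ?_
  rw [Finset.sum_apply]
  refine Finset.sum_of_injOn e e.injective.injOn (by simp) (fun k _ hk => ?_) fun k _ => ?_
  · rw [Function.extend_apply' _ _ _ (by simpa using hk)]; simp
  · simp [e.injective.extend_apply, mul_comm]

theorem natDegree_det_pencil {κ : Type} [Fintype κ] [DecidableEq κ] (A : Matrix (Fin n) (Fin n) K)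
    (U : Matrix (Fin n) κ K) (P : Matrix κ (Fin n) K) :
    (Matrix.of fun r c => Polynomial.C (A r c) + Polynomial.C ((U * P) r c) * Polynomial.X).det.natDegree
      ≤ Fintype.card κ := by
  have := natDegree_det_le (fromBlocks (A.map Polynomial.C) (-U.map Polynomial.C)
    (Matrix.of fun k c => Polynomial.C (P k c) * Polynomial.X) 1) (Sum.elim (fun _ => 0) fun _ => 1)
    (by
      rintro (i | i) (j | j)
      · simp
      · simp
      · simp only [fromBlocks_apply₂₁, of_apply, Sum.elim_inr]; compute_degree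
      · simp only [fromBlocks_apply₂₂, one_apply]; split_ifs <;> simp)
  rw [det_fromBlocks_one₂₂] at this
  convert this using 3
  · ext1 r c
    simp [mul_apply, Finset.sum_mul, mul_assoc]
  · simp

/-- The members of rank at most two. -/
def low (𝓑 : Submodule K (Fin n × Fin n → K)) : Set (Fin n × Fin n → K) :=
  {u | u ∈ 𝓑 ∧ (mat u).rank ≤ 2}

theorem mul_mem_span {O O' : Type} [Fintype O] [Fintype O'] {g : O → ι → K} {g' : O' → ι → K}
    {x y : ι → K} (hx : x ∈ Submodule.span K (Set.range g))
    (hy : y ∈ Submodule.span K (Set.range g')) :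
    x * y ∈ Submodule.span K (Set.range fun o : O × O' => g o.1 * g' o.2) := by
  obtain ⟨a, rfl⟩ := (Submodule.mem_span_range_iff_exists_fun K).1 hx
  obtain ⟨b, rfl⟩ := (Submodule.mem_span_range_iff_exists_fun K).1 hy
  rw [Finset.sum_mul_sum]
  refine Submodule.sum_mem _ fun i _ => Submodule.sum_mem _ fun j _ => ?_
  rw [smul_mul_smul_comm]
  exact Submodule.smul_mem _ _ (Submodule.subset_span ⟨(i, j), rfl⟩)

theorem woodbury {κ : Type} [Fintype κ] [DecidableEq κ] {A : Matrix (Fin n) (Fin n) K}
    (U : Matrix (Fin n) κ K) (S : Matrix κ κ K) (P : Matrix κ (Fin n) K) (h : A.det ≠ 0) : ∃ R : Matrix κ κ K, (A + U * S * P).adjugate =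
      (A + U * S * P).det • A⁻¹ + A⁻¹ * U * R * (P * A⁻¹) := by
  have h1 := nonsing_inv_mul _ (Ne.isUnit h)
  have h2 := mul_nonsing_inv _ (Ne.isUnit h)
  have h3 := adjugate_mul (A + U * S * P)
  have h4 := mul_adjugate (A + U * S * P)
  generalize (A + U * S * P).adjugate = G at *
  generalize (A + U * S * P).det = δ at *
  have e1 : G = δ • A⁻¹ - A⁻¹ * (U * S * P) * G := by
    have := congrArg (A⁻¹ * ·) h4
    simp only [Matrix.add_mul, Matrix.mul_add, ← Matrix.mul_assoc, h1, Matrix.one_mul,
      Matrix.mul_smul, Matrix.mul_one] at this ⊢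
    exact eq_sub_of_add_eq this
  have e2 : G = δ • A⁻¹ - G * (U * S * P) * A⁻¹ := by
    have := congrArg (· * A⁻¹) h3
    simp only [Matrix.add_mul, Matrix.mul_add, Matrix.mul_assoc, h2, Matrix.one_mul,
      Matrix.smul_mul, Matrix.mul_one] at this ⊢
    exact eq_sub_of_add_eq this
  refine ⟨S * P * G * U * S - δ • S, ?_⟩
  conv_lhs => rw [e1, e2]
  simp only [Matrix.mul_sub, Matrix.sub_mul, Matrix.mul_smul, Matrix.smul_mul, Matrix.mul_assoc]
  abel

theorem hyp [CharZero K] [Fintype ι] (cd : ι → List ℕ) {𝓑 : Submodule K (Fin n × Fin n → K)}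
    (h : 𝓑 ≤ Submodule.span K (low 𝓑)) {𝒞 : Set (Fin n × Fin n → K)}
    (h𝒞 : Submodule.span K 𝒞 = 𝓑) {ℓ : ℕ} (hℓ : (4 * (6 * ℓ + 1) ^ 2 + 1) ^ 3 < 2 ^ (ℓ + 1)) :
    Hyp (fun c => tri K n (cd c)) (bas K n 0 n) (low 𝓑) 𝒞 6 ℓ ((4 * (6 * ℓ + 1) ^ 2 + 1) ^ 3) := by
  have hne : (low 𝓑).Nonempty := ⟨0, zero_mem _, by
    rw [show mat (0 : Fin n × Fin n → K) = 0 from rfl, rank_zero]; omega⟩
  have fac : ∀ {k : ℕ} (d : Fin k → Fin n × Fin n → K), (∀ j, d j ∈ low 𝓑) →
      ∃ (U : Matrix (Fin n) (Fin k × Fin 2) K) (P : Matrix (Fin k × Fin 2) (Fin n) K),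
        ∀ t : Fin k → K, mat (∑ j, t j • d j) =
          U * diagonal (fun x : Fin k × Fin 2 => t x.1) * P := fun d hd => by
    choose u p hup using fun j => factor2 (hd j).2
    refine ⟨Matrix.of fun i x => u x.1 x.2 i, Matrix.of fun x j => p x.1 x.2 j, fun t => ?_⟩
    ext i j
    have : ∀ a, d a (i, j) = ∑ k, u a k i * p a k j := fun a => hup a i j
    rw [Matrix.mul_apply]
    simp only [mat, of_apply, Finset.sum_apply, Pi.smul_apply, smul_eq_mul, this,
      mul_diagonal, Fintype.sum_prod_type, Finset.mul_sum]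
    exact Finset.sum_congr rfl fun _ _ => Finset.sum_congr rfl fun _ _ => by ring
  refine ⟨(le_antisymm (Submodule.span_le.2 fun _ hu => hu.1) h).trans h𝒞.symm, hne, fun Y hY d hd => ?_,
    fun k u hu c => DL_of_natDegree_line fun Y => ?_, hℓ⟩
  · obtain ⟨U, P, hUP⟩ := fac d hd
    rw [eval_delta] at hY
    let g : Option ((Fin (6 * ℓ + 1) × Fin 2) × Fin (6 * ℓ + 1) × Fin 2) → ℕ → ℕ → K := fun o => o.elim
      (bw 1 (mat Y)⁻¹) fun x => bw 0 (vecMulVec (((mat Y)⁻¹ * U).col x.1) ((P * (mat Y)⁻¹).row x.2))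
    let G := fun (i : ℕ) o (c : ι) => g o ((cd c).getD i 0) ((cd c).getD (i + 1) 0)
    refine ⟨_, (finrank_range_le_card (R := K) fun o : (_ × _) × _ =>
      (G 0 o.1.1 * G 2 o.1.2) * G 4 o.2).trans (by simp; ring_nf; rfl), fun t _ => ?_⟩
    obtain ⟨R, hR⟩ := woodbury U (diagonal fun x => t x.1) P hY
    have key : ∀ i, (fun c => eval (Y + ∑ a, t a • d a) (bas K n ((cd c).getD i 0)
        ((cd c).getD (i + 1) 0))) ∈ Submodule.span K (Set.range (G i)) := fun i => by
      refine (Submodule.mem_span_range_iff_exists_fun K).2 ⟨fun o => o.elim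
        (mat Y + U * diagonal (fun x : Fin (6 * ℓ + 1) × Fin 2 => t x.1) * P).det fun x => R x.1 x.2, funext fun c => ?_⟩
      rw [eval_bas, det_rep, show mat (Y + ∑ a, t a • d a) = mat Y + mat (∑ a, t a • d a) from rfl,
        hUP, hR]
      simp only [Finset.sum_apply, Pi.smul_apply, G, g, Fintype.sum_option, Option.elim, bw]
      split_ifs
      · simp only [Fintype.sum_prod_type (α₁ := Fin (6 * ℓ + 1) × Fin 2), Matrix.add_apply,
          Matrix.smul_apply, vecMulVec_apply,
          smul_eq_mul, add_right_inj, col, row, transpose_apply]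
        rw [Finset.sum_comm, Matrix.mul_apply]
        refine Finset.sum_congr rfl fun _ _ => ?_
        rw [Matrix.mul_apply (N := R), Finset.sum_mul]
        exact Finset.sum_congr rfl fun _ _ => by ring
      · simp
      · simp
    convert mul_mem_span (mul_mem_span (key 0) (key 2)) (key 4) using 1
    ext c
    simp [jet, tri]
  · obtain ⟨t, d, hd, rfl⟩ := hu.param hne
    obtain ⟨U, P, hUP⟩ := fac d hd
    have key : ∀ p q, (line Y (0 + ∑ j, t j • d j) (bas K n p q)).natDegree ≤ 2 * k := fun p q => by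
      have := natDegree_det_pencil (rep (mat Y) p q) (Matrix.of fun r x =>
        if (r : ℕ) = q then 0 else (U * diagonal fun x : Fin k × Fin 2 => t x.1) r x) P
      rw [Fintype.card_prod, Fintype.card_fin, Fintype.card_fin, mul_comm] at this
      convert this using 2
      refine (map_bas (line Y _).toRingHom p q).trans ?_
      congr 1
      ext1 r c
      have := congrFun (congrFun (hUP t) r) c
      rw [mul_apply] at this
      by_cases hr : (r : ℕ) = q
      · simp [rep, hr, mul_apply, apply_ite Polynomial.C]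
      · simp only [rep, hr, mul_apply (N := P), of_apply, if_false, ← this]
        simp [mat, line]
    rw [tri, map_mul, map_mul]
    refine Polynomial.natDegree_mul_le.trans ((Nat.add_le_add (Polynomial.natDegree_mul_le.trans
      (Nat.add_le_add (key _ _) (key _ _))) (key _ _)).trans (by omega))

end Pool.Agent.P.MP_08e617_lc.Hd
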