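import Pool.Agent.P.MP_08e617_lc.HdE
import Pool.Agent.P.MP_08e617_lc.HcG

/-! A locally generic point certifies singularity. -/

namespace Pool.Agent.P.MP_08e617_lc.Hd

open MvPolynomial Module Matrix Hc Filter

variable {n : ℕ} {ι : Type}

/-- The span of the determinant and of the entries of the adjugate. -/
noncomputable def S1 (n : ℕ) : Submodule ℂ (MvPolynomial (Fin n × Fin n) ℂ) :=
  Submodule.span ℂ {F | ∃ p ≤ n, ∃ q ≤ n, bas ℂ n p q = F}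

/-- Forms of degree `k` in the determinant and the adjugate. -/
def Pk (k : ℕ) (g : (Fin n × Fin n → ℂ) → ℂ) : Prop := ∃ F ∈ S1 n ^ k, ∀ Y, eval Y F = g Y

section
variable {k k' : ℕ} {g g' : (Fin n × Fin n → ℂ) → ℂ}

theorem Pk.add (h : Pk k g) (h' : Pk k g') : Pk k fun Y => g Y + g' Y :=
  let ⟨F, h1, h2⟩ := h; let ⟨F', h3, h4⟩ := h'
  ⟨F + F', add_mem h1 h3, fun Y => by simp [h2, h4]⟩

theorem Pk.sub (h : Pk k g) (h' : Pk k g') : Pk k fun Y => g Y - g' Y :=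
  let ⟨F, h1, h2⟩ := h; let ⟨F', h3, h4⟩ := h'
  ⟨F - F', sub_mem h1 h3, fun Y => by simp [h2, h4]⟩

theorem Pk.mul (h : Pk k g) (h' : Pk k' g') : Pk (k + k') fun Y => g Y * g' Y :=
  let ⟨F, h1, h2⟩ := h; let ⟨F', h3, h4⟩ := h'
  ⟨F * F', pow_add (S1 n) k k' ▸ Submodule.mul_mem_mul h1 h3, fun Y => by simp [h2, h4]⟩

theorem Pk.det : Pk 1 fun Y : Fin n × Fin n → ℂ => (mat Y).det :=
  ⟨_, by rw [pow_one]; exact Submodule.subset_span ⟨0, by omega, n, le_rfl, rfl⟩, eval_delta⟩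

theorem Pk.adj (φ : (Fin n → ℂ) →ₗ[ℂ] ℂ) (w : Fin n → ℂ) :
    Pk 1 fun Y => φ ((mat Y).adjugate *ᵥ w) := by
  refine ⟨∑ p : Fin n, ∑ q : Fin n, (φ (Pi.single p 1) * w q) • bas ℂ n p q, ?_, fun Y => ?_⟩
  · rw [pow_one]
    exact Submodule.sum_mem _ fun p _ => Submodule.sum_mem _ fun q _ => Submodule.smul_mem _ _
      (Submodule.subset_span ⟨p, p.2.le, q, q.2.le, rfl⟩)
  · beta_reduce
    rw [LinearMap.pi_apply_eq_sum_univ φ (_ *ᵥ _)]
    simp only [map_sum, smul_eval, eval_bas, det_rep, bw, Fin.is_lt, dif_pos, mulVec, dotProduct,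
      smul_eq_mul, Finset.sum_mul]
    refine Finset.sum_congr rfl fun p _ => Finset.sum_congr rfl fun q _ => ?_
    rw [show (fun j => if p = j then (1 : ℂ) else 0) = Pi.single p 1 from
      funext fun j => by simp [Pi.single_apply, eq_comm]]
    ring

theorem Pk.ev (h : Pk k g) {Y : Fin n × Fin n → ℂ} (hY : g Y ≠ 0) (u : Fin n × Fin n → ℂ) :
    ∀ᶠ t : ℂ in cofinite, g (Y + t • u) ≠ 0 := by
  obtain ⟨F, -, h2⟩ := h
  simpa only [h2] using line_ev (u := u) (F := F) (h2 Y ▸ hY)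

end

theorem cube_le {cd : ι → List ℕ} (hcd : ∀ l : List ℕ, l.length = 6 → (∀ x ∈ l, x ≤ n) →
    ∃ c, cd c = l) : S1 n ^ 3 ≤ Submodule.span ℂ (Set.range fun c => tri ℂ n (cd c)) := by
  rw [pow_three', S1, Submodule.span_mul_span, Submodule.span_mul_span]
  refine Submodule.span_mono ?_
  rintro _ ⟨_, ⟨_, ⟨a, ha, b, hb, rfl⟩, _, ⟨c, hc, d, hd, rfl⟩, rfl⟩, _, ⟨e, he, f, hf, rfl⟩, rfl⟩
  obtain ⟨x, hx⟩ := hcd [a, b, c, d, e, f] rfl (by simp [*])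
  exact ⟨x, by simp [hx, tri]⟩

section sol
variable {N : Matrix (Fin n) (Fin n) ℂ} {e w x : Fin n → ℂ} {f : (Fin n → ℂ) →ₗ[ℂ] ℂ}

theorem adj_sol (h : w + (N *ᵥ x - f x • e) = 0) :
    N.det • x = f x • N.adjugate *ᵥ e - N.adjugate *ᵥ w := by
  have := congrArg (N.adjugate *ᵥ ·) h
  simp only [mulVec_add, mulVec_sub, mulVec_mulVec, adjugate_mul, smul_mulVec, one_mulVec,
    mulVec_smul, mulVec_zero] at this
  linear_combination (norm := module) this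

theorem sol_f (hφ : f (N.adjugate *ᵥ e) = N.det) (h : w + (N *ᵥ x - f x • e) = 0) :
    f (N.adjugate *ᵥ w) = 0 := by
  have := congrArg f (adj_sol h)
  simp only [map_smul, map_sub, hφ, smul_eq_mul] at this
  linear_combination this

theorem sol_ex (hδ : N.det ≠ 0) (h : f (N.adjugate *ᵥ w) = 0) :
    w + (N *ᵥ (-N.det⁻¹ • N.adjugate *ᵥ w) - f (-N.det⁻¹ • N.adjugate *ᵥ w) • e) = 0 := by
  simp [mulVec_neg, mulVec_smul, mul_adjugate, smul_mulVec, smul_smul, hδ, h]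

theorem sol_ker (hφ : f (N.adjugate *ᵥ e) = N.det) :
    N *ᵥ (N.adjugate *ᵥ e) - f (N.adjugate *ᵥ e) • e = 0 := by
  simp [mul_adjugate, smul_mulVec, hφ]

end sol

variable [Fintype ι] [DecidableEq ι]

/-- The linear relation of a factored pencil. -/
def relOf (N : Matrix (Fin n) (Fin n) ℂ) (e : Fin n → ℂ) (f : (Fin n → ℂ) →ₗ[ℂ] ℂ) (J : Finset ι)
    (P : ι → (Fin n → ℂ) →ₗ[ℂ] V2) (U : ι → V2 →ₗ[ℂ] (Fin n → ℂ)) : Hc.Rel ι where
  carrier := {p | ∃ x, (∀ i ∈ J, P i x = 0) ∧ (p.1 = fun i => P i x) ∧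
    ∑ i, U i (p.2 i) + (N *ᵥ x - f x • e) = 0}
  add_mem' := by
    rintro p q ⟨x, h1, h2, h3⟩ ⟨y, g1, g2, g3⟩
    refine ⟨x + y, fun i hi => by simp [h1 i hi, g1 i hi], by ext i <;> simp [h2, g2], ?_⟩
    simp only [map_add, Prod.snd_add, Pi.add_apply, Finset.sum_add_distrib, mulVec_add]
    linear_combination (norm := module) h3 + g3
  zero_mem' := ⟨0, by simp, by ext <;> simp, by simp⟩
  smul_mem' := by
    rintro s p ⟨x, h1, h2, h3⟩
    refine ⟨s • x, fun i hi => by simp [h1 i hi], by ext i <;> simp [h2], ?_⟩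
    simp only [map_smul, Prod.smul_snd, Pi.smul_apply, ← Finset.smul_sum, mulVec_smul]
    linear_combination (norm := module) s • h3

variable {Y : Fin n × Fin n → ℂ} {A : ι → Fin n × Fin n → ℂ} {e : Fin n → ℂ}
  {f : (Fin n → ℂ) →ₗ[ℂ] ℂ} {J : Finset ι} {P : ι → (Fin n → ℂ) →ₗ[ℂ] V2}
  {U : ι → V2 →ₗ[ℂ] (Fin n → ℂ)}

omit [DecidableEq ι] in
theorem mat_pt (h : ∀ i x, mat (A i) *ᵥ x = U i (P i x)) (z : ι → ℂ) (x : Fin n → ℂ) :
    mat (Y + ∑ i, z i • A i) *ᵥ x = mat Y *ᵥ x + ∑ i, z i • U i (P i x) := by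
  have : mat (Y + ∑ i, z i • A i) = mat Y + ∑ i, z i • mat (A i) := by
    ext p q; simp [mat, Matrix.sum_apply]
  simp [this, add_mulVec, sum_mulVec, smul_mulVec, h]

omit [DecidableEq ι] in
theorem R_iff (h : ∀ i x, mat (A i) *ᵥ x = U i (P i x)) {z : ι → ℂ} {a d : Vec ι} :
    R (relOf (mat Y) e f J P U) z a d ↔ ∃ x, (∀ i ∈ J, P i x = 0) ∧ (a = fun i => P i x) ∧
      ∑ i, U i (d i) + (mat (Y + ∑ i, z i • A i) *ᵥ x - f x • e) = 0 := by
  refine exists_congr fun x => and_congr_right fun _ => and_congr_right fun h2 => ?_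
  have h3 : a = fun i => P i x := h2
  subst h3
  simp only [map_add, map_smul, Finset.sum_add_distrib, mat_pt h]
  constructor <;> intro h <;> linear_combination (norm := module) h

theorem sum_U_sg (j : ι) (g : V2) : ∑ i, U i (sg j g i) = U j g := by
  rw [Finset.sum_eq_single j] <;> simp +contextual [sg]

section pat
variable (h : ∀ i x, mat (A i) *ᵥ x = U i (P i x)) {z : ι → ℂ} {N : Matrix (Fin n) (Fin n) ℂ}
  (hN : mat (Y + ∑ i, z i • A i) = N) (hδ : N.det ≠ 0) (hφ : f (N.adjugate *ᵥ e) = N.det)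
  (hJ : ∀ i, i ∈ J ↔ P i (N.adjugate *ᵥ e) = 0)
include h hN hδ hφ hJ

theorem good_pt : Good (relOf (mat Y) e f J P U) Jᶜ z fun i => P i (N.adjugate *ᵥ e) := by
  refine ⟨(R_iff h).2 ⟨_, fun i => (hJ i).1, rfl, by rw [hN, sol_ker hφ]; simp⟩,
    fun i hi => by simpa [hJ] using hi, fun a ha => ?_⟩
  obtain ⟨x, -, rfl, hx⟩ := (R_iff h).1 ha
  rw [hN] at hx
  have := fun i => congrArg (P i) (adj_sol hx)
  refine ⟨N.det⁻¹ * f x, fun i _ => smul_right_injective _ hδ ?_⟩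
  simpa [smul_smul, hδ] using this i

theorem solv {j : ι} {g : V2} {a : Vec ι} : R (relOf (mat Y) e f J P U) z a (sg j g) ↔
    (f (N.adjugate *ᵥ U j g) = 0 ∧ ∀ i ∈ J, P i (N.adjugate *ᵥ U j g) = 0) ∧ ∃ s : ℂ,
      a = fun i => s • P i (N.adjugate *ᵥ e) - N.det⁻¹ • P i (N.adjugate *ᵥ U j g) := by
  rw [R_iff h, sum_U_sg, hN]
  constructor
  · rintro ⟨x, h1, rfl, h2⟩
    have h3 := fun i => congrArg (P i) (adj_sol h2)
    simp only [map_smul, map_sub] at h3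
    refine ⟨⟨sol_f hφ h2, fun i hi => by simpa [h1 i hi, (hJ i).1 hi] using h3 i⟩,
      N.det⁻¹ * f x, funext fun i => smul_right_injective _ hδ ?_⟩
    simp [h3, smul_sub, smul_smul, hδ]
  · rintro ⟨⟨h1, h2⟩, s, rfl⟩
    refine ⟨s • N.adjugate *ᵥ e + -N.det⁻¹ • N.adjugate *ᵥ U j g, fun i hi => by
      simp [h2 i hi, (hJ i).1 hi], funext fun i => by simp [sub_eq_add_neg], ?_⟩
    have h3 := sol_ex (e := e) hδ h1
    have h4 := sol_ker hφ
    rw [mulVec_add, map_add, mulVec_smul, map_smul]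
    linear_combination (norm := module) h3 + s • h4

theorem free_iff (b : ι) : Free (relOf (mat Y) e f J P U) z b ↔ ∀ g ∈ [((1 : ℂ), (0 : ℂ)), (0, 1)],
    f (N.adjugate *ᵥ U b g) = 0 ∧ ∀ i ∈ J, P i (N.adjugate *ᵥ U b g) = 0 := by
  refine ⟨fun hf g _ => (hf g).elim fun a ha => ((solv h hN hδ hφ hJ).1 ha).1, fun hf g =>
    ⟨_, (solv h hN hδ hφ hJ).2 ⟨?_, 0, rfl⟩⟩⟩
  have e1 : g = g.1 • ((1 : ℂ), (0 : ℂ)) + g.2 • (0, 1) := by simp
  have h1 := hf (1, 0) (by simp)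
  have h2 := hf (0, 1) (by simp)
  rw [e1, map_add, map_smul, map_smul, mulVec_add, mulVec_smul, mulVec_smul]
  exact ⟨by simp [h1.1, h2.1], fun i hi => by simp [h1.2 i hi, h2.2 i hi]⟩

theorem adj_iff_pt (l j : ι) : Adj (relOf (mat Y) e f J P U) z l j ↔
    (f (N.adjugate *ᵥ U j (P j (N.adjugate *ᵥ e))) = 0 ∧
      ∀ i ∈ J, P i (N.adjugate *ᵥ U j (P j (N.adjugate *ᵥ e))) = 0) ∧
    om (P l (N.adjugate *ᵥ e)) (P l (N.adjugate *ᵥ U j (P j (N.adjugate *ᵥ e)))) ≠ 0 := by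
  constructor
  · rintro ⟨X, D, h1, h2, h3⟩
    obtain ⟨x, -, rfl, hx⟩ := (R_iff h).1 h1
    rw [hN] at hx
    have h4 : x = (N.det⁻¹ * f x) • N.adjugate *ᵥ e := smul_right_injective _ hδ (by
      simpa [smul_smul, hδ] using adj_sol hx)
    generalize N.det⁻¹ * f x = s at h4
    subst h4
    obtain ⟨⟨h5, h6⟩, s', rfl⟩ := (solv h hN hδ hφ hJ).1 h2
    have hs : s ≠ 0 := by rintro rfl; simp at h3
    simp only [map_smul, mulVec_smul, smul_eq_zero, hs, false_or] at h5 h6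
    exact ⟨⟨h5, h6⟩, fun h7 => h3 (by simp [mulVec_smul, h7])⟩
  · rintro ⟨h1, h2⟩
    exact ⟨_, _, (good_pt h hN hδ hφ hJ).ker, (solv h hN hδ hφ hJ).2 ⟨h1, 0, rfl⟩,
      by simpa [hδ] using h2⟩

end pat

theorem pt_mv (z : ι → ℂ) (u : ι) (t : ℂ) :
    Y + ∑ i, mv z u t i • A i = Y + ∑ i, z i • A i + t • A u := by
  have : ∀ i, mv z u t i • A i = z i • A i + if i = u then t • A u else 0 := fun i => by
    by_cases hi : i = u
    · subst hi; simp [mv_same, add_smul]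
    · simp [mv_ne _ _ hi, hi]
  simp [this, Finset.sum_add_distrib, add_assoc]

theorem sing_of_generic {𝒜 𝒮 : Set (Fin n × Fin n → ℂ)} (hA : ∀ i, A i ∈ 𝒜)
    (h : ∀ i x, mat (A i) *ᵥ x = U i (P i x))
    (gen : ∀ (Q : Type) [Finite Q] (g : Q → (Fin n × Fin n → ℂ) → ℂ), (∀ q, Pk 3 (g q)) →
      ∃ Y' ∈ 𝒮, (mat Y').det ≠ 0 ∧ f ((mat Y').adjugate *ᵥ e) = (mat Y').det ∧
        ∀ q, g q Y' = 0 → ∀ Z, Ball 𝒜 Y' 6 Z → g q Z = 0) :
    ∃ Y' ∈ 𝒮, ∀ z : ι → ℂ, ∃ x ≠ 0, mat (Y' + ∑ i, z i • A i) *ᵥ x - f x • e = 0 := by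
  let lam : Option (ι × Bool) → (Fin n → ℂ) →ₗ[ℂ] ℂ := fun κ => κ.elim f fun x =>
    (bif x.2 then LinearMap.fst ℂ ℂ ℂ else LinearMap.snd ℂ ℂ ℂ) ∘ₗ P x.1
  let Xv : Option (ι × Bool) ⊕ ι → (Fin n × Fin n → ℂ) → Fin n → ℂ := fun μ Z => μ.elim
    (fun μ => (mat Z).det • (mat Z).adjugate *ᵥ μ.elim e fun x =>
      U x.1 (bif x.2 then (1, 0) else (0, 1)))
    fun j => (mat Z).adjugate *ᵥ U j (P j ((mat Z).adjugate *ᵥ e))
  have hX : ∀ μ (φ : (Fin n → ℂ) →ₗ[ℂ] ℂ), Pk 2 fun Z => φ (Xv μ Z) := by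
    rintro (μ | j) φ
    · simpa [Xv] using Pk.det.mul (Pk.adj φ _)
    · convert ((Pk.adj (lam (some (j, true))) e).mul (Pk.adj φ (U j (1, 0)))).add
        ((Pk.adj (lam (some (j, false))) e).mul (Pk.adj φ (U j (0, 1)))) using 2 with Z
      simp [Xv, lam, ← smul_eq_mul, ← map_smul, ← mulVec_smul, ← map_add, ← mulVec_add]
      simp
  let g : Unit ⊕ (Option (ι × Bool) × (Option (ι × Bool) ⊕ ι)) ⊕ ι × ι →
      (Fin n × Fin n → ℂ) → ℂ := Sum.elim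
    (fun _ Z => (mat Z).det * ((mat Z).det * (f ((mat Z).adjugate *ᵥ e) - (mat Z).det)))
    (Sum.elim (fun x Z => (mat Z).det * lam x.1 (Xv x.2 Z))
      fun x Z => om (P x.1 ((mat Z).adjugate *ᵥ e)) (P x.1 (Xv (.inr x.2) Z)))
  have hg : ∀ q, Pk 3 (g q) := by
    rintro (_ | x | x)
    · exact Pk.det.mul (Pk.det.mul ((Pk.adj f e).sub Pk.det))
    · exact Pk.det.mul (hX _ _)
    · exact ((Pk.adj (lam (some (x.1, true))) e).mul (hX (.inr x.2) (lam (some (x.1, false))))).sub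
        ((Pk.adj (lam (some (x.1, false))) e).mul (hX (.inr x.2) (lam (some (x.1, true)))))
  obtain ⟨Y, hY, hδ, hφ, hgen⟩ := gen _ g hg
  refine ⟨Y, hY, fun y => ?_⟩
  classical
  let J := Finset.univ.filter fun i => P i ((mat Y).adjugate *ᵥ e) = 0
  let Pt := fun Z => (mat Z).det ≠ 0 ∧ ∀ q, g q Z = 0 ↔ g q Y = 0
  have p1 : ∀ Z, Pt Z → f ((mat Z).adjugate *ᵥ e) = (mat Z).det := fun Z hZ => by
    simpa [g, hZ.1, hφ, sub_eq_zero] using hZ.2 (.inl ())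
  have p2 : ∀ Z, Pt Z → ∀ μ, f (Xv μ Z) = 0 ↔ f (Xv μ Y) = 0 := fun Z hZ μ => by
    simpa [g, hZ.1, hδ, lam] using hZ.2 (.inr (.inl (none, μ)))
  have p3 : ∀ Z, Pt Z → ∀ μ i, P i (Xv μ Z) = 0 ↔ P i (Xv μ Y) = 0 := fun Z hZ μ i => by
    have h1 := hZ.2 (.inr (.inl (some (i, true), μ)))
    have h2 := hZ.2 (.inr (.inl (some (i, false), μ)))
    simp [g, hZ.1, hδ, lam] at h1 h2
    simp [Prod.ext_iff, h1, h2]
  have p4 : ∀ Z, Pt Z → ∀ i, i ∈ J ↔ P i ((mat Z).adjugate *ᵥ e) = 0 := fun Z hZ i => by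
    simpa [Xv, hZ.1, hδ, J] using (p3 Z hZ (.inl none) i).symm
  have pY : Pt Y := ⟨hδ, fun _ => Iff.rfl⟩
  have h0 : mat (Y + ∑ i, (0 : ι → ℂ) i • A i) = mat Y := by simp
  obtain ⟨L', hd⟩ := exists_dual (relOf (mat Y) e f J P U)
  have E : Env (relOf (mat Y) e f J P U) L' Jᶜ 0 fun m z => m ≤ 6 ∧
      Ball 𝒜 Y m (Y + ∑ i, z i • A i) ∧ Pt (Y + ∑ i, z i • A i) := by
    refine ⟨hd, ⟨by omega, by simpa using .base _, by simpa using pY⟩, fun {m z} hz hm u _ => ?_,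
      fun hz => ⟨_, good_pt h rfl hz.2.2.1 (p1 _ hz.2.2) (p4 _ hz.2.2)⟩, fun hz b _ => ?_,
      fun hz l _ j _ => ?_⟩
    · have : ∀ q, ∀ᶠ t : ℂ in cofinite, g q Y ≠ 0 → g q (Y + ∑ i, z i • A i + t • A u) ≠ 0 :=
        fun q => by
          by_cases hq : g q Y = 0
          · simp [hq]
          · exact ((hg q).ev (mt (hz.2.2.2 q).1 hq) _).mono fun t ht _ => ht
      filter_upwards [Pk.det.ev hz.2.2.1 (A u), eventually_all.2 this] with t h1 h2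
      rw [pt_mv]
      exact ⟨hm, hz.2.1.step t (hA u), h1, fun q => ⟨fun h3 => by_contra fun h4 => h2 q h4 h3,
        fun h3 => hgen q h3 _ ((hz.2.1.step t (hA u)).mono hm)⟩⟩
    · rw [free_iff h rfl hz.2.2.1 (p1 _ hz.2.2) (p4 _ hz.2.2), free_iff h h0 hδ hφ (p4 _ pY)]
      have a1 := fun k => p2 _ hz.2.2 (.inl (some (b, k)))
      have a2 := fun k => p3 _ hz.2.2 (.inl (some (b, k)))
      simp only [Xv, Sum.elim_inl, Option.elim, map_smul, smul_eq_zero, hz.2.2.1, hδ,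
        false_or] at a1 a2
      have b1 := a1 true
      have b2 := a1 false
      have b3 := a2 true
      have b4 := a2 false
      simp only [cond_true, cond_false] at b1 b2 b3 b4
      simp only [List.forall_mem_cons, b1, b2, b3, b4]
      simp
    · rw [adj_iff_pt h rfl hz.2.2.1 (p1 _ hz.2.2) (p4 _ hz.2.2), adj_iff_pt h h0 hδ hφ (p4 _ pY)]
      exact and_congr (and_congr (p2 _ hz.2.2 (.inr j)) (forall₂_congr fun i _ =>
        p3 _ hz.2.2 (.inr j) i)) (not_congr (hz.2.2.2 (.inr (.inr (l, j)))))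
  have fin : ∀ x, (∀ i ∈ J, P i x = 0) → mat (Y + ∑ i, y i • A i) *ᵥ x =
      mat (Y + ∑ i, (if i ∈ J then 0 else y i) • A i) *ᵥ x := fun x hx => by
    rw [mat_pt h, mat_pt h]
    congr 1
    refine Finset.sum_congr rfl fun i _ => ?_
    by_cases hi : i ∈ J <;> simp [hi, hx]
  rcases Jᶜ.eq_empty_or_nonempty with h1 | h1
  · have hall : ∀ i, i ∈ J := fun i => by_contra fun hi => by
      simpa [h1] using Finset.mem_compl.2 hi
    refine ⟨(mat Y).adjugate *ᵥ e, fun h2 => hδ (by simp [← hφ, h2]), ?_⟩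
    rw [fin _ fun i => (p4 _ pY i).1]
    simpa [hall] using sol_ker hφ
  · obtain ⟨a, ha, i, -, hi⟩ := E.top h1 (fun i => if i ∈ J then 0 else y i)
      fun i hi => if_pos (by simpa using hi)
    obtain ⟨x, g1, rfl, g2⟩ := (R_iff h).1 ha
    exact ⟨x, fun h0 => hi (by simp [h0]), by rw [fin x g1]; simpa using g2⟩

theorem core {M ℓ : ℕ} {B : Fin M → Fin n × Fin n → ℂ}
    (hB : Submodule.span ℂ (Set.range B) ≤ Submodule.span ℂ (low (Submodule.span ℂ (Set.range B))))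
    {cd : ι → List ℕ} (hcd : ∀ l : List ℕ, l.length = 6 → (∀ x ∈ l, x ≤ n) → ∃ c, cd c = l)
    (hℓ : (4 * (6 * ℓ + 1) ^ 2 + 1) ^ 3 < 2 ^ (ℓ + 1)) (hδ : (mat Y).det ≠ 0)
    (hmax : ∀ Z, Ball (Set.range (cur B)) Y
      (6 * ℓ + (4 * (6 * ℓ + 1) ^ 2 + 1) ^ 3 * (6 * (6 * ℓ + 1))) Z → (mat Z).det ≠ 0 →
      finrank ℂ (Jet (fun c => tri ℂ n (cd c)) (Set.range B) (6 * ℓ) Z) ≤
        finrank ℂ (Jet (fun c => tri ℂ n (cd c)) (Set.range B) (6 * ℓ) Y))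
    (hs : ∀ Z, Ball (Set.range (cur B)) Y (6 * ℓ) Z → (mat Z).det ≠ 0 →
      ∃ x ≠ 0, mat Z *ᵥ x - f x • e = 0) {u : Fin n × Fin n → ℂ}
    (hu : u ∈ Submodule.span ℂ (Set.range B)) : ∃ x ≠ 0, mat (Y + u) *ᵥ x - f x • e = 0 := by
  have H := hyp cd hB (span_cur B) hℓ
  have h1 : 1 ≤ ℓ := by
    rcases ℓ with _ | ℓ
    · norm_num at hℓ
    · omega
  obtain ⟨A, hA, hA'⟩ := exists_indep (le_refl (finrank ℂ (Submodule.span ℂ
    (low (Submodule.span ℂ (Set.range B))))))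
  have hsp : Submodule.span ℂ (Set.range A) =
      Submodule.span ℂ (low (Submodule.span ℂ (Set.range B))) :=
    Submodule.eq_of_le_of_finrank_le (Submodule.span_mono (Set.range_subset_iff.2 hA))
      (by rw [finrank_span_eq_card hA', Fintype.card_fin])
  choose a p hap using fun i => factor2 (hA i).2
  obtain ⟨Y', hY', h2⟩ := sing_of_generic (e := e) (f := f) hA
    (𝒮 := {Z | Ball (Set.range (cur B)) Y (6 * ℓ) Z})
    (P := fun i => (dotProductBilin ℂ ℂ (p i 0)).prod (dotProductBilin ℂ ℂ (p i 1)))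
    (U := fun i => (LinearMap.fst ℂ ℂ ℂ).smulRight (a i 0) + (LinearMap.snd ℂ ℂ ℂ).smulRight (a i 1))
    (fun i x => funext fun r => by
      simp [mulVec, dotProduct, hap, Finset.sum_add_distrib, add_mul, Finset.sum_mul]
      simp only [mul_comm, mul_left_comm])
    fun Q _ g hg => by
      choose F h3 h4 using hg
      obtain ⟨Y', h5, h6, h7⟩ := H.generic (Y := Y) (by rwa [eval_delta])
        (fun Z hZ h => by
          rw [Jet_congr (span_cur B), Jet_congr (span_cur B)]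
          exact hmax Z hZ (by rwa [eval_delta] at h)) (Set.finite_range F)
        (Set.forall_mem_range.2 fun q => cube_le hcd (h3 q))
      rw [eval_delta] at h6
      refine ⟨Y', h5, h6, ?_, fun q hq Z hZ => h4 q Z ▸ h7 _ ⟨q, rfl⟩ (h4 q Y' ▸ hq) Z
        (hZ.mono (by omega))⟩
      obtain ⟨x, hx, h8⟩ := hs Y' h5 h6
      have h9 := adj_sol (w := 0) (by rwa [zero_add])
      have h10 := congrArg f h9
      have h11 : f x ≠ 0 := fun h0 => hx (by simpa [h0, h6] using h9)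
      simp only [map_smul, mulVec_zero, sub_zero, smul_eq_mul] at h10
      exact mul_left_cancel₀ h11 (by rw [← h10, mul_comm])
  obtain ⟨z, hz⟩ := (Submodule.mem_span_range_iff_exists_fun ℂ).1
    (hsp.ge (hB (sub_mem hu (span_cur B ▸ Ball.sub_mem hY'))))
  have := h2 z
  rwa [hz, show Y' + (u - (Y' - Y)) = Y + u by abel] at this

end Pool.Agent.P.MP_08e617_lc.Hd
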