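import Pool.Agent.P.MP_08e617_lc.RkE

/-! The algorithm for spaces spanned by hidden matrices of rank at most two; its running time. -/

namespace Pool.Agent.P.MP_08e617_lc.Hd

open Pool.Agent.Lib.helper21 Function

variable {α : Type} [Enc α]

/-- List matrices. -/
abbrev LM := List (List ℤ)
/-- Size, constant term, coefficients, mask of the movable variables, the special variable. -/
abbrev Dat := ℕ × LM × List LM × List ℤ × ℕ

/-- The number of variables. -/
def nM (d : Dat) : ℕ := d.2.2.1.length
/-- The value of the pencil. -/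
def evz (d : Dat) (x : List ℤ) : LM :=
  mk d.1 fun p q => gm d.2.1 p q + sm (nM d) fun i => x.getD i 0 * gm (d.2.2.1.getD i []) p q
/-- A move. -/
def mvz (d : Dat) (x g : List ℤ) : List ℤ :=
  (List.range (nM d)).map fun i => x.getD i 0 + g.getD i 0 * d.2.2.2.1.getD i 0
/-- A multiple of a unit vector. -/
def unv (d : Dat) (a j : ℕ) : List ℤ :=
  (List.range (nM d)).map fun i => cond (decide (i = j)) (a : ℤ) 0
/-- A multiple of a point of the moment curve. -/
def crv (d : Dat) (a t : ℕ) : List ℤ := (List.range (nM d)).map fun i => (a : ℤ) * (t : ℤ) ^ i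
/-- Set the special variable to zero. -/
def zr (d : Dat) (x : List ℤ) : List ℤ :=
  (List.range (nM d)).map fun i => cond (decide (i = d.2.2.2.2)) 0 (x.getD i 0)
/-- Determinant and adjugate. -/
def basL (n : ℕ) (Y : LM) (p q : ℕ) : ℤ :=
  Rk.detL n (mk n fun r c => cond (decide (r = q)) (cond (decide (c = p)) 1 0) (gm Y r c))
/-- Cubic monomials. -/
def triL (n : ℕ) (Y : LM) (c : List ℕ) : ℤ :=
  basL n Y (c.getD 0 0) (c.getD 1 0) * basL n Y (c.getD 2 0) (c.getD 3 0) *
    basL n Y (c.getD 4 0) (c.getD 5 0)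
/-- The product `(a + 1) ⋯ (a + b)`. -/
def asc (a b : ℕ) : ℤ := ((List.range b).map fun j => ((a + j + 1 : ℕ) : ℤ)).prod
/-- Weights of numerical differentiation. -/
def wt (e j : ℕ) : ℤ :=
  (-1) ^ (e - (j + 1)) * (asc (j + 1) (e - (j + 1)) * asc (e - (j + 1)) (j + 1) *
    (asc 0 j * asc (j + 1) (e - (j + 1))))
/-- Scaled jets. -/
def valH : ℕ → Dat → List ℕ → List ℤ → List ℕ → ℤ
  | 0, d, _, x, c => triL d.1 (evz d x) c
  | k + 1, d, l, x, c => lcase l (triL d.1 (evz d x) c) fun i m => sm (3 * d.1 + 1) fun j =>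
      wt (3 * d.1 + 1) j * (valH k d m (mvz d x (unv d (j + 1) i)) c - valH k d m x c)
/-- All short lists of small numbers. -/
def allL : ℕ → ℕ → List (List ℕ)
  | 0, _ => [[]]
  | k + 1, m => [] :: (List.range m).flatMap fun i => (allL k m).map fun l => i :: l
/-- The size of the jet matrix. -/
def SH (N : ℕ) (d : Dat) : ℕ := (allL N (nM d)).length + (allL 6 (d.1 + 1)).length
/-- The jet matrix. -/
def jm (N : ℕ) (d : Dat) (x : List ℤ) : LM :=
  mk (SH N d) fun r c => valH N d ((allL N (nM d)).getD r []) x ((allL 6 (d.1 + 1)).getD c [])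
/-- The potential. -/
def pot (N : ℕ) (d : Dat) (x : List ℤ) : ℕ :=
  cond (decide (Rk.detL d.1 (evz d x) = 0)) 0
    (1 + (SH N d - kd (SH N d) (jm N d x) (jm N d x)) +
      cond (decide (Rk.detL d.1 (evz d (zr d x)) = 0)) 0 (SH N d + 1))
/-- The grid size. -/
def TH (N : ℕ) (d : Dat) : ℕ := (SH N d + 1) * (3 * d.1) * nM d + 1
/-- Neighbours. -/
def nbH (N : ℕ) : ℕ → Dat → List ℤ → List (List ℤ)
  | 0, _, x => [x]
  | k + 1, d, x => (nbH N k d x).flatMap fun y => (List.range (TH N d)).flatMap fun a =>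
      (List.range (TH N d)).map fun t => mvz d y (crv d a t)
/-- One step of local search. -/
def stpH (N k : ℕ) (d : Dat) (x : List ℤ) : List ℤ :=
  ((nbH N k d x).filter fun y => decide (pot N d x < pot N d y)).headD x
/-- Local search. -/
def lsH (N k : ℕ) (d : Dat) (x : List ℤ) : List ℤ := (stpH N k d)^[2 * SH N d + 3] x
/-- The input pencil with extra variables on the diagonal. -/
@[reducible] def dH (I : Inp) (p : ℕ) : Dat :=
  (I.length, ev I [], (List.range (nv I + I.length)).map fun i => cond (decide (i < nv I)) (co I i)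
    (mk I.length fun r c => cond (decide (i = nv I + r) && decide (r = c)) 1 0),
    (List.range (nv I + I.length)).map fun i => cond (decide (i < nv I) || decide (nv I + p < i)) 1 0,
    nv I + p)
/-- The starting point. -/
def startH (I : Inp) : List ℤ :=
  (((List.range (I.length + 1)).map fun w => (List.range (nv I + I.length)).map fun i =>
    cond (decide (i < nv I)) 0 ((w : ℕ) : ℤ)).filter fun x =>
      !decide (Rk.detL I.length (evz (dH I 0) x) = 0)).headD []
/-- One step of the outer loop. -/
def outH (N k : ℕ) (I : Inp) (s : ℕ × List ℤ) : ℕ × List ℤ :=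
  (s.1 + 1, zr (dH I s.1) (lsH N k (dH I s.1) s.2))
/-- The final point. -/
def finH (N k : ℕ) (I : Inp) : ℕ × List ℤ := (outH N k I)^[I.length] (0, startH I)
/-- The algorithm. -/
def algH (N k : ℕ) (I : Inp) : Bool :=
  decide (0 < kd I.length (evz (dH I 0) (finH N k I).2) (evz (dH I 0) (finH N k I).2))

@[fun_prop] theorem pt_nM {d : α → Dat} (hd : PT d) : PT fun a => nM (d a) := by
  unfold nM; fun_prop
@[fun_prop] theorem pt_evz {d : α → Dat} {x : α → List ℤ} (hd : PT d) (hx : PT x) :
    PT fun a => evz (d a) (x a) := by unfold evz; fun_prop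
@[fun_prop] theorem pt_mvz {d : α → Dat} {x g : α → List ℤ} (hd : PT d) (hx : PT x) (hg : PT g) :
    PT fun a => mvz (d a) (x a) (g a) := by unfold mvz; fun_prop
@[fun_prop] theorem pt_unv {d : α → Dat} {x g : α → ℕ} (hd : PT d) (hx : PT x) (hg : PT g) :
    PT fun a => unv (d a) (x a) (g a) := by unfold unv; fun_prop
@[fun_prop] theorem pt_crv {d : α → Dat} {x g : α → ℕ} (hd : PT d) (hx : PT x) (hg : PT g) :
    PT fun a => crv (d a) (x a) (g a) := by unfold crv; fun_prop
@[fun_prop] theorem pt_zr {d : α → Dat} {x : α → List ℤ} (hd : PT d) (hx : PT x) :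
    PT fun a => zr (d a) (x a) := by unfold zr; fun_prop
@[fun_prop] theorem pt_det {n : α → ℕ} {M : α → LM} (hn : PT n) (hM : PT M) :
    PT fun a => Rk.detL (n a) (M a) := by unfold Rk.detL; fun_prop
@[fun_prop] theorem pt_basL {n p q : α → ℕ} {M : α → LM} (hn : PT n) (hM : PT M) (hp : PT p)
    (hq : PT q) : PT fun a => basL (n a) (M a) (p a) (q a) := by unfold basL; fun_prop
@[fun_prop] theorem pt_triL {n : α → ℕ} {M : α → LM} {c : α → List ℕ} (hn : PT n) (hM : PT M)
    (hc : PT c) : PT fun a => triL (n a) (M a) (c a) := by unfold triL; fun_prop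
@[fun_prop] theorem pt_asc {x y : α → ℕ} (hx : PT x) (hy : PT y) :
    PT fun a => asc (x a) (y a) := by unfold asc; fun_prop
@[fun_prop] theorem pt_wt {x y : α → ℕ} (hx : PT x) (hy : PT y) :
    PT fun a => wt (x a) (y a) := by unfold wt; fun_prop

@[fun_prop] theorem pt_valH (k : ℕ) {α : Type} [Enc α] {d : α → Dat} {l c : α → List ℕ}
    {x : α → List ℤ} (hd : PT d) (hl : PT l) (hx : PT x) (hc : PT c) :
    PT fun a => valH k (d a) (l a) (x a) (c a) := by
  induction k generalizing α with
  | zero => unfold valH; fun_prop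
  | succ k ih =>
    unfold valH
    exact PT.lcase hl (by fun_prop) (pt_sm (by fun_prop) (PT.intMul (by fun_prop) (PT.intSub
      (ih (by fun_prop) (by fun_prop) (by fun_prop) (by fun_prop))
      (ih (by fun_prop) (by fun_prop) (by fun_prop) (by fun_prop)))))

@[fun_prop] theorem pt_allL (k : ℕ) : PT (allL k) := by
  induction k with
  | zero => exact PT.const _
  | succ k ih =>
    show PT fun m => [] :: (List.range m).flatMap fun i => (allL k m).map fun l => i :: l
    fun_prop

@[fun_prop] theorem pt_SH (N : ℕ) : PT (SH N) := by unfold SH; fun_prop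
@[fun_prop] theorem pt_TH (N : ℕ) : PT (TH N) := by unfold TH; fun_prop
@[fun_prop] theorem pt_jm (N : ℕ) {d : α → Dat} {x : α → List ℤ} (hd : PT d) (hx : PT x) :
    PT fun a => jm N (d a) (x a) := by unfold jm; fun_prop
@[fun_prop] theorem pt_pot (N : ℕ) {d : α → Dat} {x : α → List ℤ} (hd : PT d) (hx : PT x) :
    PT fun a => pot N (d a) (x a) := by unfold pot; fun_prop

@[fun_prop] theorem pt_nbH (N k : ℕ) {d : α → Dat} {x : α → List ℤ} (hd : PT d) (hx : PT x) :
    PT fun a => nbH N k (d a) (x a) := by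
  induction k with
  | zero => unfold nbH; fun_prop
  | succ k ih => unfold nbH; exact PT.flatMap ih (by fun_prop)

@[fun_prop] theorem pt_stpH (N k : ℕ) {d : α → Dat} {x : α → List ℤ} (hd : PT d) (hx : PT x) :
    PT fun a => stpH N k (d a) (x a) := by unfold stpH; fun_prop
@[fun_prop] theorem pt_dH {I : α → Inp} {p : α → ℕ} (hI : PT I) (hp : PT p) :
    PT fun a => dH (I a) (p a) := by unfold dH; fun_prop
@[fun_prop] theorem pt_startH : PT startH := by unfold startH; fun_prop

theorem getD_range {β : Type} (m : ℕ) (f : ℕ → β) (i : ℕ) (b : β) :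
    ((List.range m).map f).getD i b = if i < m then f i else b := by
  split_ifs with h
  · simp [List.getD_eq_getElem?_getD, h]
  · exact List.getD_eq_default _ _ (by simpa using h)

theorem stpH_cases (N k : ℕ) (d : Dat) (x : List ℤ) :
    (stpH N k d x = x ∧ ∀ y ∈ nbH N k d x, pot N d y ≤ pot N d x) ∨
      (stpH N k d x ∈ nbH N k d x ∧ pot N d x < pot N d (stpH N k d x)) := by
  unfold stpH
  cases h : (nbH N k d x).filter fun y => decide (pot N d x < pot N d y) with
  | nil =>
    refine Or.inl ⟨rfl, fun b hb => ?_⟩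
    simpa using List.filter_eq_nil_iff.1 h b hb
  | cons b l =>
    have : b ∈ (nbH N k d x).filter fun y => decide (pot N d x < pot N d y) :=
      h ▸ List.mem_cons_self
    exact Or.inr (by simpa using this)

/-- Bounded points. -/
def Ok (L s : ℕ) (x : List ℤ) : Prop := x.length ≤ L ∧ ∀ j, (x.getD j 0).natAbs ≤ 2 ^ s

theorem Ok.mono {L s s' : ℕ} {x : List ℤ} (h : Ok L s x) (hs : s ≤ s') : Ok L s' x :=
  ⟨h.1, fun j => (h.2 j).trans (Nat.pow_le_pow_right (by norm_num) hs)⟩

theorem Ok.sz {L s : ℕ} {x : List ℤ} (h : Ok L s x) : sz x ≤ L * (2 * (s + 2) + 2) + 1 := by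
  refine (sz_list_le _ (s + 2) fun z hz => ?_).trans
    (Nat.add_le_add_right (Nat.mul_le_mul_right _ h.1) _)
  obtain ⟨j, hj, rfl⟩ := List.getElem_of_mem hz
  have := h.2 j
  rw [List.getD_eq_getElem _ _ hj] at this
  have := Nat.size_le_size this
  rw [Nat.size_pow] at this
  rw [sz_int]; omega

theorem ok_self (x : List ℤ) : Ok (sz x) (sz x) x :=
  ⟨length_le_sz x, fun j => by
    have := gm_le [x] 0 j
    by_cases hj : j < x.length
    · rw [List.getD_eq_getElem _ _ hj]
      have h3 := sz_mem (List.getElem_mem hj)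
      rw [sz_int] at h3
      exact (Nat.lt_size_self _).le.trans (Nat.pow_le_pow_right (by norm_num) (by omega))
    · rw [List.getD_eq_default _ _ (by omega)]; simp⟩

theorem ok_nb {N k L s : ℕ} {d : Dat} (hL : nM d ≤ L)
    (hs : TH N d * (nM d + 1) + sz d.2.2.2.1 ≤ s) {x y : List ℤ} (h : Ok L s x)
    (hy : y ∈ nbH N k d x) : Ok L (s + k) y := by
  induction k generalizing y with
  | zero => rw [nbH, List.mem_singleton] at hy; exact hy ▸ h
  | succ k ih =>
    simp only [nbH, List.mem_flatMap, List.mem_map, List.mem_range] at hy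
    obtain ⟨z, hz, a, ha, t, ht, rfl⟩ := hy
    refine ⟨by simpa [mvz] using hL, fun j => ?_⟩
    rw [mvz, getD_range]
    split_ifs with hj
    · have h1 := (ih hz).2 j
      have h2 := (ok_self d.2.2.2.1).2 j
      have h3 : a * t ^ j ≤ 2 ^ (TH N d * (nM d + 1)) := by
        rw [pow_mul, pow_succ']
        exact Nat.mul_le_mul (ha.trans Nat.lt_two_pow_self).le
          ((Nat.pow_le_pow_left (ht.trans Nat.lt_two_pow_self).le _).trans
            (Nat.pow_le_pow_right (by positivity) hj.le))
      have h4 := (Nat.mul_le_mul h3 h2).trans (le_of_eq (pow_add _ _ _).symm)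
      have h5 := Nat.pow_le_pow_right (n := 2) (by norm_num) (hs.trans (Nat.le_add_right s k))
      refine (Int.natAbs_add_le _ _).trans ?_
      rw [crv, getD_range, if_pos hj, Int.natAbs_mul, Int.natAbs_mul, Int.natAbs_pow,
        Int.natAbs_natCast, Int.natAbs_natCast, ← add_assoc, pow_succ]
      omega
    · simp

theorem ok_iter {N k L s : ℕ} {d : Dat} (hL : nM d ≤ L)
    (hs : TH N d * (nM d + 1) + sz d.2.2.2.1 ≤ s) {x : List ℤ} (h : Ok L s x) (t : ℕ) :
    Ok L (s + k * t) ((stpH N k d)^[t] x) := by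
  induction t with
  | zero => exact h
  | succ t ih =>
    rw [iterate_succ_apply', Nat.mul_succ, ← add_assoc]
    rcases stpH_cases N k d ((stpH N k d)^[t] x) with h | h
    · rw [h.1]; exact ih.mono (by omega)
    · exact ok_nb hL (by omega) ih h.1

@[fun_prop] theorem pt_lsH (N k : ℕ) {d : α → Dat} {x : α → List ℤ} (hd : PT d) (hx : PT x) :
    PT fun a => lsH N k (d a) (x a) :=
  PT.iterate (f := fun a => stpH N k (d a)) (by fun_prop) (by fun_prop) hx
    (fun a => (nM (d a) + sz (x a)) * (2 * (TH N (d a) * (nM (d a) + 1) + sz (d a).2.2.2.1 +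
      sz (x a) + k * (2 * SH N (d a) + 3) + 2) + 2) + 1)
    (PT.bdNat (by fun_prop)) fun a t ht =>
      ((ok_iter (Nat.le_add_right _ _) (Nat.le_add_right _ (sz (x a))) ⟨(ok_self _).1.trans
        (Nat.le_add_left _ _), ((ok_self _).mono (Nat.le_add_left _ _)).2⟩ t).mono
        (Nat.add_le_add_left (Nat.mul_le_mul_left _ ht.le) _)).sz

theorem nM_dH (I : Inp) (p : ℕ) : nM (dH I p) = nv I + I.length := by simp [nM]

theorem pt_algH (N k : ℕ) : PT (algH N k) := by
  have : PT (finH N k) := by
    refine PT.iterate (f := outH N k) (by unfold outH; fun_prop) (by fun_prop) (by fun_prop)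
      (fun I => 2 * I.length + ((nv I + I.length + sz (startH I)) *
        (2 * (TH N (dH I 0) * (nv I + I.length + 1) + ((nv I + I.length) * 6 + 1) + sz (startH I) +
          k * (2 * SH N (dH I 0) + 3) * I.length + 2) + 2) + 1) + 1)
      (PT.bdNat (by fun_prop)) fun I t ht => ?_
    have e1 : ∀ p, SH N (dH I p) = SH N (dH I 0) := fun p => by simp only [SH, nM_dH]
    have e2 : ∀ p, TH N (dH I p) = TH N (dH I 0) := fun p => by simp only [TH, e1 p, nM_dH]
    have e3 : ∀ p, sz (dH I p).2.2.2.1 ≤ (nv I + I.length) * 6 + 1 := fun p => by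
      have := sz_list_le (dH I p).2.2.2.1 2 fun z hz => by
        obtain ⟨i, -, rfl⟩ := List.mem_map.1 hz
        cases (decide (i < nv I) || decide (nv I + p < i)) <;> simp [sz_int]
      simpa [dH] using this
    have key : ∀ t, ((outH N k I)^[t] (0, startH I)).1 = t ∧
        Ok (nv I + I.length + sz (startH I)) (TH N (dH I 0) * (nv I + I.length + 1) +
          ((nv I + I.length) * 6 + 1) + sz (startH I) + k * (2 * SH N (dH I 0) + 3) * t)
          ((outH N k I)^[t] (0, startH I)).2 := fun t => by
      induction t with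
      | zero => exact ⟨rfl, (ok_self _).1.trans (Nat.le_add_left _ _),
          ((ok_self _).mono (Nat.le_add_left _ _)).2⟩
      | succ t ih =>
        rw [iterate_succ_apply']
        generalize (outH N k I)^[t] (0, startH I) = s at ih
        have := ok_iter (N := N) (k := k) (d := dH I s.1) (by rw [nM_dH]; omega)
          (by have := e3 s.1; rw [e2, nM_dH]; omega) ih.2 (2 * SH N (dH I s.1) + 3)
        refine ⟨by simp [outH, ih.1], by simp [outH, zr, nM_dH], fun j => ?_⟩
        have h1 := this.2 j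
        rw [e1, add_assoc _ _ (k * _), ← Nat.mul_succ] at h1
        simp only [outH, zr, getD_range, lsH, e1 s.1]
        split_ifs
        · cases decide (j = (dH I s.1).2.2.2.2)
          · exact h1
          · simp
        · simp
    have := ((key t).2.mono (Nat.add_le_add_left (Nat.mul_le_mul_left _ ht.le) _)).sz
    rw [sz_prod, (key t).1, sz_nat]
    omega
  unfold algH; fun_prop

end Pool.Agent.P.MP_08e617_lc.Hd
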