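import Pool.Agent.P.MP_08e617_lc.HdF
import Pool.Agent.P.MP_08e617_lc.HdG

/-! The potential computes the dimension of the space of jets. -/

namespace Pool.Agent.P.MP_08e617_lc.Hd

open Pool.Agent.Lib.helper21 Function Matrix Module MvPolynomial

/-- A list matrix as a point. -/
def cz (n : ℕ) (A : LM) : Fin n × Fin n → ℂ := fun s => gm A s.1 s.2
/-- The value of the pencil. -/
noncomputable def ptc (d : Dat) (y : ℕ → ℂ) : Fin d.1 × Fin d.1 → ℂ :=
  cz d.1 d.2.1 + ∑ i ∈ Finset.range (nM d), y i • cz d.1 (d.2.2.1.getD i [])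
/-- A list as a vector. -/
def fz (x : List ℤ) : ℕ → ℂ := fun i => (x.getD i 0 : ℤ)
/-- The movable directions. -/
noncomputable def Bm (d : Dat) (i : ℕ) : Fin d.1 × Fin d.1 → ℂ :=
  fz d.2.2.2.1 i • cz d.1 (d.2.2.1.getD i [])

variable {d : Dat} {x : List ℤ}

theorem cz_evz (d : Dat) (x : List ℤ) : cz d.1 (evz d x) = ptc d (fz x) := by
  ext s
  simp [cz, evz, gm_mk, ptc, sm, list_sum_range, fz, Finset.sum_apply]

theorem ptc_mvz (d : Dat) (x g : List ℤ) :
    ptc d (fz (mvz d x g)) = ptc d (fz x) + ∑ i ∈ Finset.range (nM d), fz g i • Bm d i := by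
  rw [ptc, ptc, add_assoc, ← Finset.sum_add_distrib]
  congr 1
  refine Finset.sum_congr rfl fun i hi => ?_
  rw [fz, mvz, getD_range, if_pos (Finset.mem_range.1 hi), Bm, smul_smul, ← add_smul]
  simp only [fz, Int.cast_add, Int.cast_mul]

theorem ptc_unv (d : Dat) (x : List ℤ) (a : ℕ) {j : ℕ} (hj : j < nM d) :
    ptc d (fz (mvz d x (unv d a j))) = ptc d (fz x) + (a : ℂ) • Bm d j := by
  rw [ptc_mvz, Finset.sum_eq_single j (fun i hi h => ?_) (by simp [hj])]
  · rw [fz, unv, getD_range]; simp [hj]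
  · rw [fz, unv, getD_range]; simp [h]

theorem ptc_crv (d : Dat) (x : List ℤ) (a t : ℕ) : ptc d (fz (mvz d x (crv d a t))) =
    ptc d (fz x) + (a : ℂ) • cur (fun i : Fin (nM d) => Bm d i) t := by
  rw [ptc_mvz, cur, Finset.smul_sum, Finset.sum_range]
  congr 1
  refine Finset.sum_congr rfl fun i _ => ?_
  rw [fz, crv, getD_range, if_pos i.2, smul_smul]
  simp

theorem basL_spec {n : ℕ} (hn : 0 < n) (A : LM) (p q : ℕ) :
    (basL n A p q : ℂ) = n.factorial * eval (cz n A) (bas ℂ n p q) := by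
  rw [basL, Rk.detL_spec hn, toM_mk, eval_bas, Int.cast_mul, Int.cast_natCast, Int.cast_det]
  congr 2
  ext r c
  simp only [rep, mat, cz, map_apply, of_apply, Bool.cond_decide]
  split_ifs <;> simp

theorem detL_zero {n : ℕ} (hn : 0 < n) (A : LM) :
    Rk.detL n A = 0 ↔ (mat (cz n A)).det = 0 := by
  rw [Rk.detL_spec hn, mul_eq_zero, or_iff_right (Nat.cast_ne_zero.2 n.factorial_ne_zero),
    ← Int.cast_eq_zero (α := ℂ), Int.cast_det]
  rfl

theorem asc_spec (a b : ℕ) : (a.factorial : ℂ) * asc a b = (a + b).factorial := by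
  induction b with
  | zero => simp [asc]
  | succ b ih =>
    rw [← add_assoc, Nat.factorial_succ (a + b), Nat.cast_mul, ← ih, asc, asc, List.range_succ,
      List.map_append, List.prod_append]
    push_cast
    simp
    ring

theorem wt_spec {e : ℕ} {p : Polynomial ℂ} (he : 0 < e) (hp : p.natDegree ≤ e) :
    ∑ j : Fin e, (wt e j : ℂ) * (p.eval ((j + 1 : ℕ) : ℂ) - p.eval 0) =
      -(-1) ^ e * e.factorial ^ 2 * p.derivative.eval 0 := by
  have h1 := congrFun (Polynomial.fwdDiff_iter_eq_zero_of_degree_lt (P := p.divX) (n := e)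
    (by rw [Polynomial.natDegree_divX_eq_natDegree_tsub_one]; omega)) 0
  rw [fwdDiff_iter_eq_sum_shift, Finset.sum_range_succ', Finset.sum_range] at h1
  have h2 : ∀ t, p.eval t - p.eval 0 = t * p.divX.eval t := fun t => by
    have := congrArg (Polynomial.eval t) p.X_mul_divX_add
    simp only [Polynomial.eval_add, Polynomial.eval_mul, Polynomial.eval_X, Polynomial.eval_C,
      Polynomial.coeff_zero_eq_eval_zero] at this
    linear_combination -this
  have h3 : p.derivative.eval 0 = p.divX.eval 0 := by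
    simp [← Polynomial.coeff_zero_eq_eval_zero, Polynomial.coeff_derivative]
  have h4 : ∀ j : Fin e, (wt e j : ℂ) * ((j + 1 : ℕ) : ℂ) =
      e.factorial ^ 2 * ((-1) ^ (e - (j + 1)) * e.choose (j + 1)) := fun j => by
    have a1 := asc_spec (j + 1) (e - (j + 1))
    have a2 := asc_spec (e - (j + 1)) (j + 1)
    have a3 := asc_spec 0 j
    have a4 := congrArg (Nat.cast : ℕ → ℂ) (Nat.choose_mul_factorial_mul_factorial j.2)
    have a5 := congrArg (Nat.cast : ℕ → ℂ) (Nat.factorial_succ j)
    rw [Nat.add_sub_cancel' j.2] at a1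
    rw [Nat.sub_add_cancel j.2] at a2
    have a6 : (asc (j + 1) (e - (j + 1)) * asc (e - (j + 1)) (j + 1) : ℂ) =
        e.choose (j + 1) * e.factorial := by
      refine mul_left_cancel₀ (mul_ne_zero (Nat.cast_ne_zero.2 (Nat.factorial_ne_zero (j + 1)))
        (Nat.cast_ne_zero.2 (Nat.factorial_ne_zero (e - (j + 1))))) ?_
      rw [Nat.cast_mul, Nat.cast_mul] at a4
      rw [mul_mul_mul_comm, a1, a2]
      linear_combination (-e.factorial : ℂ) * a4
    rw [Nat.factorial_zero, zero_add, Nat.cast_one, one_mul] at a3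
    rw [Nat.cast_mul] at a5
    rw [a5] at a1
    simp only [wt, Int.cast_mul, Int.cast_pow, Int.cast_neg, Int.cast_one, a6, a3]
    linear_combination ((-1) ^ (e - (j + 1)) * e.choose (j + 1) * e.factorial : ℂ) * a1
  simp only [h2, h3, ← mul_assoc, h4]
  simp only [zsmul_eq_mul, nsmul_eq_mul] at h1
  push_cast at h1 ⊢
  simp only [mul_assoc, ← Finset.mul_sum, zero_add, mul_one, Nat.sub_zero, Nat.choose_zero_right,
    Nat.cast_one, Pi.zero_apply] at h1 ⊢
  linear_combination (e.factorial : ℂ) ^ 2 * h1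

theorem valH_spec (hn : 0 < d.1) (c : List ℕ) (k : ℕ) : ∀ l : List ℕ, l.length ≤ k →
    (∀ i ∈ l, i < nM d) → ∀ x, (valH k d l x c : ℂ) = (d.1.factorial ^ 3 *
      (-(-1) ^ (3 * d.1 + 1) * (3 * d.1 + 1).factorial ^ 2) ^ l.length) *
      eval (ptc d (fz x)) (DL (l.map (Bm d)) (tri ℂ d.1 c)) := by
  have h0 : ∀ x, (triL d.1 (evz d x) c : ℂ) = d.1.factorial ^ 3 * eval (ptc d (fz x)) (tri ℂ d.1 c) :=
    fun x => by simp only [triL, Int.cast_mul, basL_spec hn, cz_evz, tri, map_mul]; ring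
  induction k with
  | zero =>
    intro l hl _ x
    obtain rfl := List.eq_nil_of_length_eq_zero (Nat.le_zero.1 hl)
    simp [valH, h0]
  | succ k ih =>
    rintro (_ | ⟨i, l⟩) hl hl' x
    · simp [valH, lcase, h0]
    · have h1 := ih l (by simpa using hl) fun j hj => hl' j (by simp [hj])
      have h2 := wt_spec (e := 3 * d.1 + 1) (p := line (ptc d (fz x)) (Bm d i)
        (DL (l.map (Bm d)) (tri ℂ d.1 c))) (by omega) ((natDegree_line_le _ _ _).trans
          ((totalDegree_DL_le _ _).trans ((totalDegree_tri c).trans (by omega))))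
      rw [deriv_line, eval_line_zero, eval_line_zero] at h2
      simp only [eval_line] at h2
      simp only [valH, lcase, sm_eq, Int.cast_sum, Int.cast_mul, Int.cast_sub, h1,
        ptc_unv d x _ (hl' i (by simp)), List.map_cons, DL_cons, List.length_cons, pow_succ _ l.length,
        ← mul_sub, mul_left_comm (wt _ _ : ℂ), ← Finset.mul_sum, h2]
      ring

theorem mem_allL {k m : ℕ} {l : List ℕ} : l ∈ allL k m ↔ l.length ≤ k ∧ ∀ i ∈ l, i < m := by
  induction k generalizing l with
  | zero => simp +contextual [allL]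
  | succ k ih =>
    rcases l with _ | ⟨i, l⟩
    · simp [allL]
    · simp [allL, ih]; tauto

theorem getD_allL (k m r : ℕ) : (allL k m).getD r [] ∈ allL k m := by
  by_cases h : r < (allL k m).length
  · rw [List.getD_eq_getElem _ _ h]; exact List.getElem_mem h
  · rw [List.getD_eq_default _ _ (by omega)]; simp [mem_allL]

theorem exists_getD {k m S : ℕ} {l : List ℕ} (hl : l ∈ allL k m) (hS : (allL k m).length ≤ S) :
    ∃ r : Fin S, (allL k m).getD r [] = l := by
  obtain ⟨r, hr, rfl⟩ := List.getElem_of_mem hl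
  exact ⟨⟨r, by omega⟩, List.getD_eq_getElem _ _ hr⟩

theorem rank_map_complex {n : ℕ} (B : Matrix (Fin n) (Fin n) ℚ) :
    (B.map (Rat.castHom ℂ)).rank = B.rank := by
  classical
  obtain ⟨L, L', D, h⟩ := Matrix.Pivot.exists_list_transvec_mul_diagonal_mul_list_transvec B
  have d1 := TransvectionStruct.det_toMatrix_prod L
  have d2 := TransvectionStruct.det_toMatrix_prod L'
  generalize (L.map TransvectionStruct.toMatrix).prod = P at h d1
  generalize (L'.map TransvectionStruct.toMatrix).prod = Q at h d2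
  have e1 : (P.map (Rat.castHom ℂ)).det = 1 := by
    rw [← RingHom.mapMatrix_apply, ← RingHom.map_det, d1, map_one]
  have e2 : (Q.map (Rat.castHom ℂ)).det = 1 := by
    rw [← RingHom.mapMatrix_apply, ← RingHom.map_det, d2, map_one]
  rw [h, Matrix.map_mul, Matrix.map_mul, rank_mul_eq_left_of_isUnit_det _ _ (e2 ▸ isUnit_one),
    rank_mul_eq_right_of_isUnit_det _ _ (e1 ▸ isUnit_one),
    rank_mul_eq_left_of_isUnit_det _ _ (d2 ▸ isUnit_one),
    rank_mul_eq_right_of_isUnit_det _ _ (d1 ▸ isUnit_one), diagonal_map (map_zero _),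
    rank_diagonal, rank_diagonal]
  simp

theorem kd_rank (n : ℕ) (A : LM) : n - kd n A A = (mat (cz n A)).rank := by
  have h := LinearMap.finrank_range_add_finrank_ker ((toM n A).map (Int.castRingHom ℚ)).mulVecLin
  rw [kd_spec, inf_idem, show mat (cz n A) = ((toM n A).map (Int.castRingHom ℚ)).map
    (Rat.castHom ℂ) from by ext; simp [mat, cz, toM], rank_map_complex, Matrix.rank]
  rw [finrank_fin_fun] at h
  omega

/-- The vector of cubic monomials used by the algorithm. -/
noncomputable def vH (N : ℕ) (d : Dat) (c : Fin (SH N d)) : MvPolynomial (Fin d.1 × Fin d.1) ℂ :=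
  tri ℂ d.1 ((allL 6 (d.1 + 1)).getD c [])

theorem rank_jm (hn : 0 < d.1) (N : ℕ) (x : List ℤ) : SH N d - kd (SH N d) (jm N d x) (jm N d x) =
    finrank ℂ (Jet (vH N d) (Set.range fun i : Fin (nM d) => Bm d i) N (ptc d (fz x))) := by
  have hκ : ∀ k, (d.1.factorial ^ 3 *
      (-(-1) ^ (3 * d.1 + 1) * (3 * d.1 + 1).factorial ^ 2) ^ k : ℂ) ≠ 0 := fun k => by
    simp [Nat.factorial_ne_zero]
  have h1 : ∀ r : Fin (SH N d), (mat (cz _ (jm N d x))).row r = (d.1.factorial ^ 3 *
      (-(-1) ^ (3 * d.1 + 1) * (3 * d.1 + 1).factorial ^ 2) ^ ((allL N (nM d)).getD r []).length : ℂ) •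
      jet (vH N d) (ptc d (fz x)) (((allL N (nM d)).getD r []).map (Bm d)) := fun r => funext fun c => by
    have := mem_allL.1 (getD_allL N (nM d) r)
    simp only [row, mat, cz, jm, of_apply, gm_mk, Fin.is_lt, and_self, if_true]
    exact valH_spec hn _ N _ this.1 this.2 x
  rw [kd_rank, rank_eq_finrank_span_row]
  refine congrArg (fun W : Submodule ℂ (Fin (SH N d) → ℂ) => finrank ℂ W)
    (le_antisymm (Submodule.span_le.2 ?_) (Submodule.span_le.2 ?_))
  · rintro _ ⟨r, rfl⟩
    have := mem_allL.1 (getD_allL N (nM d) r)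
    rw [h1]
    refine Submodule.smul_mem _ _ (Submodule.subset_span ⟨_, by simpa using this.1, ?_, rfl⟩)
    exact List.forall_mem_map.2 fun i hi => ⟨⟨i, this.2 i hi⟩, rfl⟩
  · rintro _ ⟨l, h2, h3, rfl⟩
    choose g hg using h3
    obtain ⟨r, hr⟩ := exists_getD (k := N) (m := nM d) (S := SH N d)
      (l := l.pmap (fun u hu => (g u hu).1) fun _ h => h)
      (mem_allL.2 ⟨by simpa using h2, by simp; rintro i u hu rfl; exact (g u hu).2⟩)
      (Nat.le_add_right _ _)
    have h4 : ((allL N (nM d)).getD r []).map (Bm d) = l := by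
      rw [hr]
      simp [List.map_pmap, show ∀ u hu, Bm d (g u hu).1 = u from hg]
    have := Submodule.subset_span (R := ℂ) (Set.mem_range_self (f := (mat (cz _ (jm N d x))).row) r)
    rw [h1, h4] at this
    exact (Submodule.smul_mem_iff _ (hκ _)).1 this

end Pool.Agent.P.MP_08e617_lc.Hd
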