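import Pool.Agent.P.MP_08e617_lc.HdH

/-! Correctness of the algorithm. -/

namespace Pool.Agent.P.MP_08e617_lc.Hd

open Pool.Agent.Lib.helper21 Function Matrix Module MvPolynomial

variable {d : Dat} {x y : List ℤ} {N k : ℕ}

theorem nb_complete (N : ℕ) (d : Dat) (x : List ℤ) (a t : Fin k → ℕ)
    (h : ∀ j, a j < TH N d ∧ t j < TH N d) : ∃ y ∈ nbH N k d x, ptc d (fz y) =
      ptc d (fz x) + ∑ j, (a j : ℂ) • cur (fun i : Fin (nM d) => Bm d i) (t j) := by
  induction k with
  | zero => exact ⟨x, by simp [nbH], by simp⟩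
  | succ k ih =>
    obtain ⟨y, hy, e⟩ := ih (fun j => a j.succ) (fun j => t j.succ) fun j => h _
    refine ⟨mvz d y (crv d (a 0) (t 0)), ?_, by rw [ptc_crv, e, Fin.sum_univ_succ]; abel⟩
    simp only [nbH, List.mem_flatMap, List.mem_map, List.mem_range]
    exact ⟨y, hy, _, (h 0).1, _, (h 0).2, rfl⟩

/-- The frozen variables agree. -/
def Fro (d : Dat) (y z : ℕ → ℂ) : Prop := ∀ i < nM d, fz d.2.2.2.1 i = 0 → y i = z i

theorem nb_fro (hy : y ∈ nbH N k d x) : Fro d (fz y) (fz x) := by
  induction k generalizing y with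
  | zero => rw [nbH, List.mem_singleton] at hy; exact hy ▸ fun _ _ _ => rfl
  | succ k ih =>
    simp only [nbH, List.mem_flatMap, List.mem_map, List.mem_range] at hy
    obtain ⟨z, hz, a, -, t, -, rfl⟩ := hy
    intro i hi h0
    rw [← ih hz i hi h0, fz, mvz, getD_range, if_pos hi, Int.cast_add, Int.cast_mul]
    exact add_eq_left.2 (mul_eq_zero_of_right _ h0)

theorem pot_le (N : ℕ) (d : Dat) (x : List ℤ) : pot N d x ≤ 2 * SH N d + 2 := by
  simp only [pot, Bool.cond_decide]
  split_ifs <;> omega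

theorem ls_max (N k : ℕ) (d : Dat) (x : List ℤ) : Fro d (fz (lsH N k d x)) (fz x) ∧
    pot N d x ≤ pot N d (lsH N k d x) ∧
    ∀ y ∈ nbH N k d (lsH N k d x), pot N d y ≤ pot N d (lsH N k d x) := by
  have key : ∀ t, Fro d (fz ((stpH N k d)^[t] x)) (fz x) ∧ pot N d x ≤ pot N d ((stpH N k d)^[t] x) ∧
      ((∀ y ∈ nbH N k d ((stpH N k d)^[t] x), pot N d y ≤ pot N d ((stpH N k d)^[t] x)) ∨
      t ≤ pot N d ((stpH N k d)^[t] x)) := by
    intro t
    induction t with
    | zero => exact ⟨fun _ _ _ => rfl, le_rfl, Or.inr (Nat.zero_le _)⟩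
    | succ t ih =>
      rw [iterate_succ_apply']
      rcases stpH_cases N k d ((stpH N k d)^[t] x) with h | h
      · rw [h.1]; exact ⟨ih.1, ih.2.1, Or.inl h.2⟩
      · refine ⟨fun i hi h0 => (nb_fro h.1 i hi h0).trans (ih.1 i hi h0), by omega, ?_⟩
        rcases ih.2.2 with h' | h'
        · exact absurd (h' _ h.1) (not_le.2 h.2)
        · exact Or.inr (by omega)
  obtain ⟨h1, h2, h | h⟩ := key (2 * SH N d + 3)
  · exact ⟨h1, h2, h⟩
  · have := pot_le N d ((stpH N k d)^[2 * SH N d + 3] x); omega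

theorem Fro.sub_mem {y z : ℕ → ℂ} (h : Fro d y z) :
    ptc d y - ptc d z ∈ Submodule.span ℂ (Set.range fun i : Fin (nM d) => Bm d i) := by
  rw [ptc, ptc, add_sub_add_left_eq_sub, ← Finset.sum_sub_distrib]
  refine Submodule.sum_mem _ fun i hi => ?_
  by_cases h0 : fz d.2.2.2.1 i = 0
  · simp [h i (Finset.mem_range.1 hi) h0]
  · rw [← sub_smul, ← div_mul_cancel₀ (y i - z i) h0, ← smul_smul]
    exact Submodule.smul_mem _ _ (Submodule.subset_span ⟨⟨i, Finset.mem_range.1 hi⟩, rfl⟩)

theorem ptc_zr (hj : d.2.2.2.2 < nM d) (x : List ℤ) : ptc d (fz (zr d x)) =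
    ptc d (fz x) - fz x d.2.2.2.2 • cz d.1 (d.2.2.1.getD d.2.2.2.2 []) := by
  rw [ptc, ptc, add_sub_assoc, ← Finset.add_sum_erase _ _ (Finset.mem_range.2 hj),
    ← Finset.add_sum_erase _ _ (Finset.mem_range.2 hj), add_sub_cancel_left]
  congr 1
  rw [fz, zr, getD_range, if_pos hj]
  simp only [decide_true, cond_true, Int.cast_zero, zero_smul, zero_add]
  refine Finset.sum_congr rfl fun i hi => ?_
  rw [fz, getD_range, if_pos (Finset.mem_range.1 (Finset.mem_of_mem_erase hi))]
  simp [Finset.ne_of_mem_erase hi, fz]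

theorem ls_correct {ℓ : ℕ} (hℓ : (4 * (6 * ℓ + 1) ^ 2 + 1) ^ 3 < 2 ^ (ℓ + 1)) (hn : 0 < d.1)
    (hB : Submodule.span ℂ (Set.range fun i : Fin (nM d) => Bm d i) ≤
      Submodule.span ℂ (low (Submodule.span ℂ (Set.range fun i : Fin (nM d) => Bm d i))))
    (hj : d.2.2.2.2 < nM d) (hj0 : fz d.2.2.2.1 d.2.2.2.2 = 0) {e : Fin d.1 → ℂ}
    {φ : (Fin d.1 → ℂ) →ₗ[ℂ] ℂ} (he : ∀ w, mat (cz d.1 (d.2.2.1.getD d.2.2.2.2 [])) *ᵥ w = φ w • e)
    (hk : k = 6 * ℓ + (4 * (6 * ℓ + 1) ^ 2 + 1) ^ 3 * (6 * (6 * ℓ + 1)))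
    (hx : (mat (ptc d (fz x))).det ≠ 0) {z : ℕ → ℂ} (hz : Fro d z (fz (zr d x)))
    (hz' : (mat (ptc d z)).det ≠ 0) : (mat (ptc d (fz (zr d (lsH (6 * ℓ) k d x))))).det ≠ 0 := by
  intro h0
  obtain ⟨h1, h2, h3⟩ := ls_max (6 * ℓ) k d x
  generalize lsH (6 * ℓ) k d x = y at *
  have hd : ∀ x, Rk.detL d.1 (evz d x) = 0 ↔ (mat (ptc d (fz x))).det = 0 := fun x => by
    rw [detL_zero hn, cz_evz]
  simp only [pot, hd, Bool.cond_decide, hx, h0, if_true, if_false, rank_jm hn] at h2 h3
  have hy : (mat (ptc d (fz y))).det ≠ 0 := fun h => by simp [h] at h2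
  simp only [hy, if_false] at h3
  have sing : ∀ Z : Fin d.1 × Fin d.1 → ℂ, (∃ w ≠ 0, mat Z *ᵥ w - (fz y d.2.2.2.2 • φ) w • e = 0) ↔
      (mat (Z - fz y d.2.2.2.2 • cz d.1 (d.2.2.1.getD d.2.2.2.2 []))).det = 0 := fun Z => by
    rw [← exists_mulVec_eq_zero_iff]
    refine exists_congr fun w => and_congr_right fun _ => ?_
    rw [show ∀ (a : ℂ) (W : Fin d.1 × Fin d.1 → ℂ), mat (Z - a • W) = mat Z - a • mat W from
      fun _ _ => rfl, sub_mulVec, smul_mulVec, he, smul_smul]
    rfl
  have hS : 0 < SH (6 * ℓ) d := by simp [SH, allL]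
  have := core (B := fun i : Fin (nM d) => Bm d i) (e := e) (f := fz y d.2.2.2.2 • φ) hB
    (cd := fun c : Fin (SH (6 * ℓ) d) => (allL 6 (d.1 + 1)).getD c [])
    (fun l h4 h5 => exists_getD (mem_allL.2 ⟨h4.le, fun i hi => Nat.lt_succ_of_le (h5 i hi)⟩)
      (Nat.le_add_left _ _)) hℓ hy (fun Z hZ h4 => ?_) (fun Z hZ h4 => (sing Z).2 ?_)
    (u := ptc d z - ptc d (fz (zr d y))) (Fro.sub_mem fun i hi h4 => (hz i hi h4).trans ?_)
  · rw [sing, ptc_zr hj] at this
    exact hz' (by convert this using 3; abel)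
  · obtain ⟨a, t, h5, h6, h7⟩ := grid_jet (𝒞 := Set.range fun i : Fin (nM d) => Bm d i)
      (v := vH (6 * ℓ) d) (δ := bas ℂ d.1 0 d.1) (N := 6 * ℓ) (T := TH (6 * ℓ) d) (d := 3 * d.1)
      (fun c => totalDegree_tri _) ((totalDegree_bas _ _).trans (by omega)) (by simp [TH])
      (hk ▸ hZ) (by rwa [eval_delta])
    obtain ⟨y', hy', e'⟩ := nb_complete (6 * ℓ) d y a t h5
    have h8 := h3 y' hy'
    rw [eval_delta, ← e'] at h6
    rw [← e'] at h7
    rw [if_neg h6] at h8
    exact h7.trans (show _ ≤ finrank ℂ (Jet (vH (6 * ℓ) d) _ _ _) by omega)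
  · by_contra h5
    let G := mat fun s => (X s - C ((fz y d.2.2.2.2 • cz d.1 (d.2.2.1.getD d.2.2.2.2 [])) s) :
      MvPolynomial _ ℂ)
    have hG : ∀ W, eval W G.det =
        (mat (W - fz y d.2.2.2.2 • cz d.1 (d.2.2.1.getD d.2.2.2.2 []))).det := fun W => by
      rw [RingHom.map_det]
      congr 1
      ext r c
      simp [G, mat]
    obtain ⟨a, t, h6, h7⟩ := to_grid (F := bas ℂ d.1 0 d.1 * G.det) (T := TH (6 * ℓ) d) (by
      have := totalDegree_det_le G (E := 1) fun r c =>
        (totalDegree_sub _ _).trans (max_le (by simp) ((totalDegree_C _).trans_le (by omega)))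
      refine Nat.lt_succ_of_le (Nat.mul_le_mul_right _ ((totalDegree_mul _ _).trans ?_))
      have := totalDegree_bas (K := ℂ) (n := d.1) 0 d.1
      rw [add_mul]
      simp only [Fintype.card_fin] at *
      omega) (hZ.mono (m := k) (by omega)) (by rw [map_mul, eval_delta, hG]; exact mul_ne_zero h4 h5)
    obtain ⟨y', hy', e'⟩ := nb_complete (6 * ℓ) d y a t h6
    rw [← e', map_mul, eval_delta, hG, ← nb_fro hy' _ hj hj0, ← ptc_zr hj, mul_ne_zero_iff] at h7
    have h8 := h3 y' hy'
    have h9 := Submodule.finrank_le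
      (Jet (vH (6 * ℓ) d) (Set.range fun i : Fin (nM d) => Bm d i) (6 * ℓ) (ptc d (fz y)))
    rw [if_neg h7.1, if_neg h7.2] at h8
    rw [finrank_fin_fun] at h9
    omega
  · rw [fz, fz, zr, zr, getD_range, getD_range, if_pos hi, if_pos hi]
    cases decide (i = d.2.2.2.2)
    · exact (h1 i hi h4).symm
    · rfl

theorem kd_pos (n : ℕ) (A : LM) : 0 < kd n A A ↔ (mat (cz n A)).det = 0 := by
  rw [kd_spec, inf_idem, show mat (cz n A) = (Rat.castHom ℂ).mapMatrix
    ((toM n A).map (Int.castRingHom ℚ)) from by ext; simp [mat, cz, toM], ← RingHom.map_det,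
    map_eq_zero, ← exists_mulVec_eq_zero_iff, Nat.pos_iff_ne_zero, Ne, Submodule.finrank_eq_zero,
    ← Ne, Submodule.ne_bot_iff]
  exact exists_congr fun v => and_comm

theorem cf_dH (I : Inp) (p : ℕ) {i : ℕ} (hi : i < nv I + I.length) :
    cz I.length ((dH I p).2.2.1.getD i []) = if i < nv I then cz I.length (co I i) else
      fun s => if i = nv I + s.1 ∧ s.1 = s.2 then 1 else 0 := by
  simp only [getD_range, if_pos hi]
  split_ifs with h
  · simp [h]
  · ext s
    simp [h, cz, gm_mk, Fin.ext_iff, ← Bool.decide_and, Bool.cond_decide]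

theorem mask_dH (I : Inp) (p : ℕ) {i : ℕ} (hi : i < nv I + I.length) :
    fz (dH I p).2.2.2.1 i = if i < nv I ∨ nv I + p < i then 1 else 0 := by
  simp only [fz, getD_range, if_pos hi]
  split_ifs with h
  · rw [(by simpa using h : (decide (i < nv I) || decide (nv I + p < i)) = true)]; simp
  · rw [(by simpa using h : (decide (i < nv I) || decide (nv I + p < i)) = false)]; simp

theorem mat_dH (I : Inp) (p : ℕ) (y : ℕ → ℂ) : mat (ptc (dH I p) y) = mat (cz I.length (ev I [])) +
    ∑ i ∈ Finset.range (nv I), y i • mat (cz I.length (co I i)) +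
      diagonal fun q : Fin I.length => y (nv I + q) := by
  refine (congrArg mat (show ptc (dH I p) y = cz I.length (ev I []) + ∑ i ∈ Finset.range
    (nv I + I.length), y i • cz I.length ((dH I p).2.2.1.getD i []) by rw [ptc, nM_dH])).trans ?_
  rw [Finset.sum_congr rfl fun i hi => congrArg (y i • ·)
    (cf_dH I p (Finset.mem_range.1 hi)), Finset.sum_range_add]
  refine Matrix.ext fun (r : Fin I.length) (c : Fin I.length) => ?_
  simp only [mat, of_apply, Pi.add_apply, Finset.sum_apply, Matrix.add_apply, Matrix.sum_apply,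
    add_assoc, diagonal_apply]
  congr 2
  · exact Finset.sum_congr rfl fun i hi => by simp [Finset.mem_range.1 hi]
  · by_cases h : r = c <;> simp [h]

theorem start_spec {I : Inp} (hn : 0 < I.length) : (mat (ptc (dH I 0) (fz (startH I)))).det ≠ 0 := by
  have : ∃ w : Fin (I.length + 1), (-mat (cz I.length (ev I []))).charpoly.eval (w : ℂ) ≠ 0 := by
    by_contra h
    push Not at h
    exact (charpoly_monic _).ne_zero (Polynomial.eq_zero_of_natDegree_lt_card_of_eval_eq_zero _
      (Nat.cast_injective.comp Fin.val_injective) h (by simp))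
  obtain ⟨w, hw⟩ := this
  have hd : ∀ x, Rk.detL I.length (evz (dH I 0) x) = 0 ↔ (mat (ptc (dH I 0) (fz x))).det = 0 :=
    fun x => (detL_zero hn _).trans (by rw [← cz_evz])
  unfold startH
  cases h : List.filter _ _ with
  | nil =>
    have := List.filter_eq_nil_iff.1 h _ (List.mem_map.2 ⟨w, List.mem_range.2 w.2, rfl⟩)
    simp only [Bool.not_eq_true', decide_eq_false_iff_not, not_not, hd, mat_dH] at this
    refine absurd (Eq.trans ?_ this) hw
    rw [eval_charpoly, Finset.sum_eq_zero fun i hi => ?_]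
    · congr 1
      ext r c
      simp [fz, diagonal_apply, add_comm, Matrix.natCast_apply]
    · have := Finset.mem_range.1 hi
      rw [fz, getD_range, if_pos (by omega)]
      simp [this]
  | cons b l =>
    have := List.of_mem_filter (h ▸ List.mem_cons_self : b ∈ List.filter _ _)
    simp only [Bool.not_eq_true', decide_eq_false_iff_not, hd] at this
    exact this

theorem algH_correct {ℓ : ℕ} (hℓ : (4 * (6 * ℓ + 1) ^ 2 + 1) ^ 3 < 2 ^ (ℓ + 1))
    (hk : k = 6 * ℓ + (4 * (6 * ℓ + 1) ^ 2 + 1) ^ 3 * (6 * (6 * ℓ + 1))) (I : Inp) (m : ℕ)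
    (A₀ : Matrix (Fin I.length) (Fin I.length) ℚ) (A : ℕ → Matrix (Fin I.length) (Fin I.length) ℚ)
    (H : ∀ i < m, (A i).map Rat.cast ∈ Submodule.span ℂ {C : Matrix (Fin I.length) (Fin I.length) ℂ |
      C ∈ Submodule.span ℂ ((fun j => (A j).map Rat.cast) '' Set.Iio m) ∧ C.rank ≤ 2})
    (hM : polyMatrix I = pencil m A₀ A) : algH (6 * ℓ) k I = true ↔ (polyMatrix I).det = 0 := by
  let A' : ℕ → Matrix (Fin I.length) (Fin I.length) ℚ := fun i => if i < m then A i else 0
  have hev : ∀ b, (polyMatrix I).map (eval b) = A₀ + ∑ i ∈ Finset.range (nv I), b i • A' i := by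
    intro b
    rw [eval_congr I (c := fun i => if i < nv I then b i else 0) fun i hi => (if_pos hi).symm, hM,
      eval_pencil]
    congr 1
    simp only [A', ite_smul, smul_ite, zero_smul, smul_zero, ← Finset.mem_range,
      Finset.sum_ite_mem, Finset.inter_comm]
  have hA0 : ∀ j < m, nv I ≤ j → A j = 0 := fun j hj hj' => by
    have := hev (Pi.single j 1)
    rw [hM, eval_pencil, Finset.sum_eq_single j (fun i _ h => by simp [h]) (by simp [hj]),
      Finset.sum_eq_zero fun i hi => by
        rw [Pi.single_eq_of_ne (by have := Finset.mem_range.1 hi; omega), zero_smul]] at this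
    simpa using this
  have e3 : ∑ j ∈ Finset.range (nv I), fa [] j • A' j = 0 := by simp [fa]
  have cq : ∀ B, mat (cz I.length B) = ((toM I.length B).map (Int.castRingHom ℚ)).map Rat.cast :=
    fun B => by ext; simp [mat, cz, toM]
  have hco : ∀ i < nv I, mat (cz I.length (co I i)) =
      (((dens I).prod : ℤ) : ℂ) • (A' i).map Rat.cast := fun i hi => by
    have e1 : (toM I.length (co I i)).map (Int.castRingHom ℚ) =
        (toM I.length (ev I (upd (nv I) [] i 1))).map (Int.castRingHom ℚ) -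
          (toM I.length (ev I [])).map (Int.castRingHom ℚ) := by
      ext p q
      simp [co, toM, gm_mk]
    have e2 : ∑ j ∈ Finset.range (nv I), fa (upd (nv I) [] i 1) j • A' j = A' i := by
      rw [Finset.sum_eq_single i]
      · simp [fa_upd _ _ _ _ hi]
      · intro j hj hji
        rw [fa_upd _ _ _ _ (Finset.mem_range.1 hj), update_of_ne hji]
        simp [fa]
      · intro h; exact absurd (Finset.mem_range.2 hi) h
    rw [cq, e1, ev_spec, ev_spec, hev, hev, e2, e3, ← smul_sub]
    generalize (dens I).prod = c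
    ext; simp
  have hc : (((dens I).prod : ℤ) : ℂ) ≠ 0 := by exact_mod_cast dens_ne I
  have hP : ∀ (f : ℕ → ℚ) (y : ℕ → ℂ), (∀ i < nv I, y i = f i) → (∀ q < I.length, y (nv I + q) = 0) →
      ((mat (ptc (dH I 0) y)).det = 0 ↔ MvPolynomial.eval f (polyMatrix I).det = 0) :=
      fun f y h1 h2 => by
    have : mat (ptc (dH I 0) y) = (((dens I).prod : ℤ) : ℂ) • (Rat.castHom ℂ).mapMatrix
        ((MvPolynomial.eval f).mapMatrix (polyMatrix I)) := by
      rw [mat_dH, cq, ev_spec, RingHom.mapMatrix_apply, RingHom.mapMatrix_apply, hev, hev, e3,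
        Finset.sum_congr rfl fun i hi => by
          rw [hco i (Finset.mem_range.1 hi), h1 i (Finset.mem_range.1 hi)]]
      generalize (dens I).prod = c'
      ext r c
      simp [h2, Matrix.sum_apply, mul_add, Finset.mul_sum, mul_left_comm]
    rw [this, det_smul, ← RingHom.map_det, ← RingHom.map_det, mul_eq_zero,
      or_iff_right (pow_ne_zero _ hc), map_eq_zero]
  have key : ∀ t ≤ I.length, ((outH (6 * ℓ) k I)^[t] (0, startH I)).1 = t ∧
      (∀ q < t, fz ((outH (6 * ℓ) k I)^[t] (0, startH I)).2 (nv I + q) = 0) ∧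
      ((polyMatrix I).det ≠ 0 → 0 < I.length →
        (mat (ptc (dH I 0) (fz ((outH (6 * ℓ) k I)^[t] (0, startH I)).2))).det ≠ 0) := by
    intro t
    induction t with
    | zero => exact fun _ => ⟨rfl, by simp, fun _ hn => start_spec hn⟩
    | succ t ih =>
      intro ht
      obtain ⟨h1, h2, h3⟩ := ih (by omega)
      rw [iterate_succ_apply']
      generalize (outH (6 * ℓ) k I)^[t] (0, startH I) = s at h1 h2 h3
      have hz : ∀ x, (∀ q < t, fz x (nv I + q) = 0) → ∀ q < t + 1,
          fz (zr (dH I t) x) (nv I + q) = 0 := fun x hx q hq => by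
        rw [fz, zr, getD_range, if_pos (by rw [nM_dH]; omega)]
        by_cases h : q = t
        · simp [h]
        · simpa [h, fz] using hx q (by omega)
      simp only [outH, h1]
      refine ⟨trivial, hz _ fun q hq => ((ls_max _ k _ _).1 _ (by rw [nM_dH]; omega) ?_).trans
        (h2 q hq), fun hne hn => ?_⟩
      · rw [mask_dH I t (by omega), if_neg (by omega)]
      obtain ⟨f0, hf0⟩ : ∃ f0 : ℕ → ℚ, eval f0 (polyMatrix I).det ≠ 0 := by
        by_contra hc
        push Not at hc
        exact hne (MvPolynomial.funext fun b => by rw [hc b, map_zero])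
      refine ls_correct (d := dH I t) hℓ hn ?_ (by rw [nM_dH]; simpa) ?_
        (e := Pi.single ⟨t, ht⟩ 1) (φ := LinearMap.proj ⟨t, ht⟩) (fun w => ?_) hk (h3 hne hn)
        (z := fun i => if i < nv I then f0 i else 0) (fun i hi h0 => ?_)
        (mt (hP f0 _ (fun i hi => if_pos hi) fun q _ => if_neg (by omega)).1 hf0)
      · let unm : Matrix (Fin I.length) (Fin I.length) ℂ →ₗ[ℂ] Fin I.length × Fin I.length → ℂ :=
          ⟨⟨fun B s => B s.1 s.2, fun _ _ => rfl⟩, fun _ _ => rfl⟩
        have hB : ∀ i < nv I, Bm (dH I t) i =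
            (((dens I).prod : ℤ) : ℂ) • unm ((A' i).map Rat.cast) := fun i hi => by
          rw [← map_smul, ← hco i hi, Bm, mask_dH I t (by omega), if_pos (Or.inl hi), one_smul]
          exact (cf_dH I t (by omega)).trans (if_pos hi)
        have h4 : Submodule.span ℂ ((fun j => (A j).map Rat.cast) '' Set.Iio m) ≤
            (Submodule.span ℂ (Set.range fun i : Fin (nM (dH I t)) => Bm (dH I t) i)).comap unm := by
          refine Submodule.span_le.2 ?_
          rintro _ ⟨j, hj, rfl⟩
          by_cases h : j < nv I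
          · refine (Submodule.smul_mem_iff _ hc).1 (Submodule.subset_span
              ⟨⟨j, by rw [nM_dH]; omega⟩, (hB j h).trans ?_⟩)
            simp only [A', if_pos (show j < m from hj), map_smul]
          · simp [hA0 j hj (by omega)]
        refine Submodule.span_le.2 (Set.range_subset_iff.2 fun i => ?_)
        by_cases h : i.1 < nv I
        · rw [hB i h]
          refine Submodule.smul_mem _ _ ?_
          by_cases h5 : i.1 < m
          · simp only [A', if_pos h5]
            refine (Submodule.span_le (p := (Submodule.span ℂ (low _)).comap unm)).2 ?_ (H i h5)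
            exact fun C hC => Submodule.subset_span ⟨h4 hC.1, hC.2⟩
          · simp [A', h5]
        · refine Submodule.subset_span ⟨Submodule.subset_span ⟨i, rfl⟩, ?_⟩
          have : mat (Bm (dH I t) i) = vecMulVec (fun r : Fin I.length => if i.1 = nv I + r then
              fz (dH I t).2.2.2.1 i else 0) fun c : Fin I.length =>
              if i.1 = nv I + c then 1 else 0 := by
            have h5 := (cf_dH I t (nM_dH I t ▸ i.2)).trans (if_neg h)
            refine Matrix.ext fun (r : Fin I.length) (c : Fin I.length) => ?_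
            refine (congrArg (fz (dH I t).2.2.2.1 i * ·) (congrFun h5 (r, c))).trans ?_
            simp only [vecMulVec_apply, Fin.ext_iff]
            split_ifs <;> first | omega | simp
          rw [this]
          exact (rank_vecMulVec_le _ _).trans (by norm_num)
      · exact (mask_dH I t (i := nv I + t) (by omega)).trans (if_neg (by omega))
      · have h5 := (cf_dH I t (i := nv I + t) (by omega)).trans (if_neg (by omega))
        refine (congrArg (fun B => mat B *ᵥ w) h5).trans (funext fun (r : Fin I.length) => ?_)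
        by_cases h : r = ⟨t, ht⟩
        · subst h; simp [mat, mulVec, dotProduct]
        · simp [mat, mulVec, dotProduct, h, show t ≠ r from fun e => h (Fin.ext e.symm)]
      · rw [nM_dH] at hi
        rw [mask_dH I t hi] at h0
        have h5 : ¬ (i < nv I ∨ nv I + t < i) := fun h => by simp [h] at h0
        have := hz _ h2 (i - nv I) (by omega)
        rw [Nat.add_sub_cancel' (by omega)] at this
        rw [this]
        exact if_neg (by omega)
  obtain ⟨-, h2, h3⟩ := key _ le_rfl
  have h4 := hP (fun i => ((finH (6 * ℓ) k I).2.getD i 0 : ℤ)) (fz (finH (6 * ℓ) k I).2)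
    (fun i _ => by simp [fz]) h2
  rw [algH, decide_eq_true_eq, kd_pos]
  refine Iff.trans (by rw [← cz_evz]) (⟨fun h => by_contra fun hne => ?_, fun h => h4.2 ?_⟩ :
    (mat (ptc (dH I 0) (fz (finH (6 * ℓ) k I).2))).det = 0 ↔ _)
  · rcases Nat.eq_zero_or_pos I.length with hn | hn
    · have : IsEmpty (Fin (dH I 0).1) := ⟨fun i => absurd (hn ▸ i.2 : i.1 < 0) (by omega)⟩
      simp at h
    · exact h3 hne hn h
  · rw [h, map_zero]

end Pool.Agent.P.MP_08e617_lc.Hd
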