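import Pool.Agent.P.MP_08e617_lc.ObDefs

/-! A nonzero program with bounded reads has a non-root close to a low degree curve. -/

namespace Pool.Agent.P.MP_08e617_lc.Ob

open MvPolynomial Finset

variable {K : Type} [Field K]

/-- There is a non-root which agrees outside `S` with the values of a polynomial of degree less
than `q`. -/
def Good (F : MvPolynomial ℕ K) (q : ℕ) (S : Finset ℕ) : Prop :=
  ∃ (P : Polynomial K) (z : ℕ → K), P.degree < q ∧ (∀ i ∉ S, z i = P.eval (i : K)) ∧
    eval z F ≠ 0

theorem Good.mono {F : MvPolynomial ℕ K} {q : ℕ} {S S' : Finset ℕ} (h : Good F q S)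
    (hS : S ⊆ S') : Good F q S' := by
  obtain ⟨P, z, h1, h2, h3⟩ := h
  exact ⟨P, z, h1, fun i hi => h2 i fun e => hi (hS e), h3⟩

theorem eval_aeval {σ τ : Type} (s : τ → K) (φ : σ → MvPolynomial τ K) (f : MvPolynomial σ K) :
    eval s (aeval φ f) = eval (fun i => eval s (φ i)) f := by
  induction f using MvPolynomial.induction_on with
  | C a => simp
  | add p q hp hq => simp only [map_add, hp, hq]
  | mul_X p i hp => simp only [map_mul, hp, aeval_X, eval_X]

theorem common [Infinite K] {Ω J : Type} [AddCommGroup Ω] [Module K Ω] [Fintype J]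
    (Z : J → Ω →ₗ[K] (ℕ → K)) (F : MvPolynomial ℕ K) (h : ∀ j, ∃ ω, eval (Z j ω) F ≠ 0) :
    ∃ ω, ∀ j, eval (Z j ω) F ≠ 0 := by
  classical
  choose ω hω using h
  let R : J → MvPolynomial J K := fun j =>
    aeval (fun i => ∑ j', C (Z j (ω j') i) * X j') F
  have hR : ∀ (c : J → K) j, eval c (R j) = eval (Z j (∑ j', c j' • ω j')) F := fun c j => by
    change eval c (aeval _ F) = _
    rw [eval_aeval]
    congr 2
    funext i
    simp [mul_comm]
  have h0 : ∏ j, R j ≠ 0 := prod_ne_zero_iff.2 fun j _ e => hω j (by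
    have := hR (Pi.single j 1) j
    rw [e, map_zero] at this
    simpa [Pi.single_apply] using this.symm)
  obtain ⟨c, hc⟩ : ∃ c : J → K, eval c (∏ j, R j) ≠ 0 := by
    by_contra hn
    exact h0 (MvPolynomial.funext fun c => by simpa using not_exists.1 hn c)
  rw [map_prod, prod_ne_zero_iff] at hc
  exact ⟨_, fun j => hR c j ▸ hc j (mem_univ j)⟩

theorem core [CharZero K] {F : MvPolynomial ℕ K} {q W : ℕ} {S T Y : Finset ℕ} (hTS : T ⊆ S)
    (hTY : T ⊆ Y) (hY : Y.card ≤ q) (hg : Good F q S) (hb : ∀ i ∈ T, ¬ Good F q (S.erase i))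
    (hr : ∀ z : Finset ℕ → Finset ℕ → ℕ → K, (∀ E E' D, ∀ i ∈ Y, z E D i = z E' D i) →
      (∀ E D D', ∀ i ∉ T, z E D i = z E D' i) → ∃ G : Finset (Finset ℕ → K), G.card ≤ W ∧
        ∀ E, (fun D => eval (z E D) F) ∈ Submodule.span K (G : Set (Finset ℕ → K))) :
    2 ^ T.card ≤ W := by
  classical
  have hinj : Set.InjOn (Nat.cast : ℕ → K) Y := Nat.cast_injective.injOn
  let e : ℕ → Polynomial K := Lagrange.basis Y Nat.cast
  have he : ∀ j ∈ T, ∀ i ∈ Y, (e j).eval (i : K) = if j = i then 1 else 0 := fun j hj i hi => by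
    split_ifs with h
    · subst h
      exact Lagrange.eval_basis_self hinj hi
    · exact Lagrange.eval_basis_of_ne h hi
  have hd : ∀ j ∈ T, (e j).degree < q := fun j hj => by
    rw [Lagrange.degree_basis hinj (hTY hj), Nat.cast_lt]
    have := card_pos.2 ⟨j, hTY hj⟩
    omega
  let U : Finset ℕ → (ℕ → K) → Polynomial K := fun E t =>
    ∑ j ∈ T, (if j ∈ E then t j else 0) • e j
  have hU : ∀ E t, U E t ∈ Polynomial.degreeLT K q := fun E t =>
    Submodule.sum_mem _ fun j hj => Submodule.smul_mem _ _ (Polynomial.mem_degreeLT.2 (hd j hj))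
  have hUe : ∀ E t (i : ℕ), (U E t).eval (i : K) =
      ∑ j ∈ T, (if j ∈ E then t j else 0) * (e j).eval (i : K) := fun E t i => by
    simp only [U, Polynomial.eval_finsetSum, Polynomial.eval_smul, smul_eq_mul]
  have hU1 : ∀ E t, ∀ i ∈ T, (U E t).eval (i : K) = if i ∈ E then t i else 0 := fun E t i hi => by
    rw [hUe, sum_eq_single_of_mem i hi fun j hj h => by rw [he j hj i (hTY hi), if_neg h, mul_zero],
      he i hi i (hTY hi), if_pos rfl, mul_one]
  have hU2 : ∀ E t, ∀ i ∈ Y, i ∉ T → (U E t).eval (i : K) = 0 := fun E t i hi hi' => by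
    rw [hUe]
    exact sum_eq_zero fun j hj => by
      rw [he j hj i hi, if_neg (fun h : j = i => hi' (h ▸ hj)), mul_zero]
  let Ω := Polynomial.degreeLT K q × (ℕ → K) × (ℕ → K)
  let z : Ω → Finset ℕ → Finset ℕ → ℕ → K := fun ω E D i =>
    if i ∈ T then ω.1.1.eval (i : K) + (if i ∈ D then ω.2.1 i else 0)
    else if i ∈ S then ω.2.2 i else ω.1.1.eval (i : K) + (U E ω.2.1).eval (i : K)
  let Z : T.powerset → Ω →ₗ[K] (ℕ → K) := fun E =>
    { toFun := fun ω => z ω E (T \ E)
      map_add' := fun ω ω' => funext fun i => by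
        simp only [z, Ω, hUe, Prod.fst_add, Prod.snd_add, Submodule.coe_add, Polynomial.eval_add,
          Pi.add_apply]
        split_ifs
        · ring
        · ring
        · rfl
        · rw [add_add_add_comm, ← sum_add_distrib]
          congr 1
          exact sum_congr rfl fun j _ => by split_ifs <;> ring
      map_smul' := fun c ω => funext fun i => by
        simp only [z, Ω, hUe, Prod.smul_fst, Prod.smul_snd, Submodule.coe_smul,
          Polynomial.eval_smul, Pi.smul_apply, smul_eq_mul, RingHom.id_apply]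
        split_ifs
        · ring
        · ring
        · rfl
        · rw [mul_add, mul_sum]
          congr 1
          exact sum_congr rfl fun j _ => by split_ifs <;> ring }
  obtain ⟨ω, hω⟩ := common Z F fun E => by
    obtain ⟨P, x, h1, h2, h3⟩ := hg
    let t : ℕ → K := fun i => if i ∈ E.1 then P.eval (i : K) - x i else x i - P.eval (i : K)
    refine ⟨(⟨P - U E t, sub_mem (Polynomial.mem_degreeLT.2 h1) (hU E t)⟩, t, x), ?_⟩
    convert h3 using 3
    funext i
    change z _ E (T \ E) i = _
    simp only [z, Polynomial.eval_sub]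
    by_cases hi : i ∈ T
    · rw [if_pos hi, hU1 E t i hi]
      by_cases h4 : i ∈ E.1 <;> simp [t, h4, hi]
    · rw [if_neg hi]
      split_ifs with h4
      · rfl
      · rw [h2 i h4, sub_add_cancel]
  have hz : ∀ E D, ∀ i ∈ T, (i ∈ E ↔ i ∈ D) → eval (z ω E D) F = 0 := fun E D i hi h => by
    by_contra h0
    refine hb i hi ⟨ω.1.1 + U E ω.2.1, _, Polynomial.mem_degreeLT.1 (add_mem ω.1.2 (hU E _)),
      fun j hj => ?_, h0⟩
    rw [Polynomial.eval_add]
    by_cases h1 : j = i
    · subst h1
      simp only [z, if_pos hi, hU1 E _ j hi, h]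
    · have h2 : j ∉ S := fun h2 => hj (mem_erase.2 ⟨h1, h2⟩)
      simp only [z, if_neg h2, if_neg fun h3 => h2 (hTS h3)]
  obtain ⟨G, hG, hs⟩ := hr (z ω) (fun E E' D i hi => by
    by_cases h1 : i ∈ T
    · simp only [z, if_pos h1]
    · simp only [z, if_neg h1, hU2 _ _ i hi h1]) fun E D D' i hi => by simp only [z, if_neg hi]
  have hl : LinearIndependent K fun (E : T.powerset) D => eval (z ω E D) F := by
    rw [Fintype.linearIndependent_iff]
    intro g h0 E
    have := congrFun h0 (T \ E)
    rw [Finset.sum_apply, sum_eq_single_of_mem E (mem_univ _) fun E' _ hE => ?_] at this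
    · exact (mul_eq_zero.1 this).resolve_right (hω E)
    · obtain ⟨i, hi⟩ : ∃ i, ¬ (i ∈ E'.1 ↔ i ∈ E.1) :=
        not_forall.1 fun h => hE (Subtype.ext (Finset.ext h))
      have h1 : i ∈ T := by_contra fun h1 => hi
        ⟨fun h => absurd (mem_powerset.1 E'.2 h) h1, fun h => absurd (mem_powerset.1 E.2 h) h1⟩
      rw [Pi.smul_apply, hz _ _ i h1 (by rw [mem_sdiff]; tauto), smul_zero]
  have := linearIndependent_le_span_aux' _ hl (G : Set (Finset ℕ → K))
    (by rintro _ ⟨E, rfl⟩; exact hs E)
  simp only [Fintype.card_coe, card_powerset, coe_sort_coe] at this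
  exact this.trans hG

theorem rank {w : ℕ} (B : ℕ → Finset ℕ → Finset ℕ → Matrix (Fin w) (Fin w) K) (τ : Finset ℕ)
    (h1 : ∀ j ∈ τ, ∀ E E' D, B j E D = B j E' D) (h2 : ∀ j ∉ τ, ∀ E D D', B j E D = B j E D')
    (L : ℕ) : ∃ G : Finset (Finset ℕ → K), G.card ≤ (w * w) ^ (τ.filter (· < L)).card ∧
      ∀ E p q, (fun D => ((List.range L).map fun j => B j E D).prod p q) ∈
        Submodule.span K (G : Set (Finset ℕ → K)) := by
  classical
  induction L with
  | zero =>
    refine ⟨{1}, by simp, fun E p q => ?_⟩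
    rw [coe_singleton, Submodule.mem_span_singleton]
    exact ⟨(1 : Matrix (Fin w) (Fin w) K) p q, funext fun D => by simp⟩
  | succ L ih =>
    obtain ⟨G, hG, hs⟩ := ih
    have e : ∀ E p q, (fun D => ((List.range (L + 1)).map fun j => B j E D).prod p q) =
        ∑ u, (fun D => ((List.range L).map fun j => B j E D).prod p u) * fun D => B L E D u q :=
      fun E p q => funext fun D => by
        rw [List.range_succ, List.map_append, List.prod_append, List.map_singleton,
          List.prod_singleton, Matrix.mul_apply, Finset.sum_apply]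
        rfl
    by_cases hL : L ∈ τ
    · refine ⟨image₂ (fun g (c : Fin w × Fin w) => g * fun D => B L ∅ D c.1 c.2) G univ, ?_,
        fun E p q => ?_⟩
      · have : τ.filter (· < L + 1) = insert L (τ.filter (· < L)) := by
          ext j
          simp only [mem_filter, mem_insert]
          constructor
          · exact fun h => (Nat.lt_succ_iff_lt_or_eq.1 h.2).elim (fun h' => Or.inr ⟨h.1, h'⟩) Or.inl
          · rintro (rfl | h)
            · exact ⟨hL, Nat.lt_succ_self _⟩
            · exact ⟨h.1, Nat.lt_succ_of_lt h.2⟩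
        rw [this, card_insert_of_notMem (by simp), pow_succ]
        exact (card_image₂_le _ _ _).trans (Nat.mul_le_mul hG (by simp))
      · rw [e]
        refine Submodule.sum_mem _ fun u _ => ?_
        have := Submodule.apply_mem_span_image_of_mem_span
          (LinearMap.mulRight K fun D => B L E D u q) (hs E p u)
        refine Submodule.span_mono ?_ this
        rintro _ ⟨g, hg, rfl⟩
        refine mem_coe.2 (mem_image₂.2 ⟨g, hg, (u, q), mem_univ _, ?_⟩)
        simp only [h1 L hL ∅ E]
        rfl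
    · refine ⟨G, hG.trans (le_of_eq ?_), fun E p q => ?_⟩
      · congr 2
        exact filter_congr fun j hj => ⟨Nat.lt_succ_of_lt, fun h =>
          lt_of_le_of_ne (Nat.le_of_lt_succ h) fun e => hL (e ▸ hj)⟩
      · rw [e]
        refine Submodule.sum_mem _ fun u _ => ?_
        convert Submodule.smul_mem _ (B L E ∅ u q) (hs E p u) using 1
        funext D
        rw [Pi.mul_apply, Pi.smul_apply, h2 L hL E D ∅, smul_eq_mul, mul_comm]

theorem blocks {A : Type} [Monoid A] (N : ℕ → A) (c L : ℕ) :
    ((List.range L).map fun j => ((List.range c).map fun l => N (j * c + l)).prod).prod =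
      ((List.range (L * c)).map N).prod := by
  induction L with
  | zero => simp
  | succ L ih =>
    rw [List.range_succ, List.map_append, List.prod_append, ih, List.map_singleton,
      List.prod_singleton, Nat.succ_mul, List.range_add, List.map_append, List.prod_append,
      List.map_map]
    rfl

theorem padded {A : Type} [Monoid A] (N : ℕ → A) {r n : ℕ} (h : r ≤ n) :
    ((List.range n).map fun j => if j < r then N j else 1).prod = ((List.range r).map N).prod := by
  induction n, h using Nat.le_induction with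
  | base => exact congrArg _ (List.map_congr_left fun j hj => if_pos (List.mem_range.1 hj))
  | succ n h ih =>
    rw [List.range_succ, List.map_append, List.prod_append, ih, List.map_singleton,
      List.prod_singleton, if_neg (not_lt.2 h), mul_one]

theorem small {k w b r c m q : ℕ} {F : MvPolynomial ℕ ℂ} (hF : OblBP k w b r F) (hc : 0 < c)
    (hq : k * b * c ≤ q) (hw : w ^ (2 * k) < 2 ^ (m + 1)) {S₀ : Finset ℕ} (h₀ : Good F q S₀) :
    ∃ S ⊆ S₀, S.card ≤ m * (r / c + 1 + k).choose k ∧ Good F q S := by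
  classical
  obtain ⟨V, M, p, p', hV, hM, hk, rfl⟩ := hF
  have ev : ∀ z : ℕ → ℂ, eval z (((List.range r).map M).prod p p') =
      ((List.range r).map fun j => (M j).map (eval z)).prod p p' := fun z => by
    have := map_list_prod (eval z).mapMatrix ((List.range r).map M)
    rw [List.map_map] at this
    exact congrFun (congrFun this p) p'
  have cg : ∀ j (z z' : ℕ → ℂ), (∀ i ∈ V j, z i = z' i) →
      (M j).map (eval z) = (M j).map (eval z') := fun j z z' h => Matrix.ext fun u v =>
    hom_congr_vars (f₁ := eval z) (f₂ := eval z') (by ext; simp)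
      (fun i hi _ => by simpa using h i (hM j u v hi)) rfl
  obtain ⟨S, hS, hmin⟩ := exists_min_image
    (S₀.powerset.filter fun S => Good (((List.range r).map M).prod p p') q S) card
    ⟨S₀, mem_filter.2 ⟨mem_powerset_self _, h₀⟩⟩
  obtain ⟨hS0, hg⟩ := mem_filter.1 hS
  rw [mem_powerset] at hS0
  have hb : ∀ i ∈ S, ¬ Good (((List.range r).map M).prod p p') q (S.erase i) := fun i hi h =>
    absurd (hmin _ (mem_filter.2 ⟨mem_powerset.2 ((erase_subset _ _).trans hS0), h⟩))
      (not_le.2 (card_erase_lt_of_mem hi))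
  refine ⟨S, hS0, by_contra fun hlt => ?_, hg⟩
  have ht : ∀ i, ∃ τ, ((range r).filter fun j => i ∈ V j).image (· / c) ⊆ τ ∧
      τ ⊆ range (r / c + 1 + k) ∧ τ.card = k := fun i =>
    exists_subsuperset_card_eq (fun x hx => by
      obtain ⟨j, hj, rfl⟩ := mem_image.1 hx
      have := Nat.div_le_div_right (c := c) (mem_range.1 (mem_filter.1 hj).1).le
      exact mem_range.2 (by omega)) (card_image_le.trans (hk i)) (by simp)
  choose ty h1 h2 h3 using ht
  obtain ⟨τ, hτ, h4⟩ := exists_lt_card_fiber_of_mul_lt_card_of_maps_to (s := S) (f := ty) (n := m)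
    (t := powersetCard k (range (r / c + 1 + k))) (fun i _ => mem_powersetCard.2 ⟨h2 i, h3 i⟩)
    (by rw [card_powersetCard, card_range, mul_comm]; exact not_le.1 hlt)
  obtain ⟨T, hT, hTc⟩ := exists_subset_card_eq (Nat.succ_le_of_lt h4)
  have hTS : T ⊆ S := hT.trans (filter_subset _ _)
  have h5 : ∀ i ∈ T, ∀ j < r, i ∈ V j → j / c ∈ τ := fun i hi j hj h =>
    (mem_filter.1 (hT hi)).2 ▸ h1 i (mem_image.2 ⟨j, mem_filter.2 ⟨mem_range.2 hj, h⟩, rfl⟩)
  have hτk := (mem_powersetCard.1 hτ).2
  have := core (W := w ^ (2 * k)) (Y := ((range r).filter fun j => j / c ∈ τ).biUnion V) hTS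
    (fun i hi => by_contra fun hn => ?_) ?_ hg (fun i hi => hb i (hTS hi)) fun z hz hz' => ?_
  · rw [hTc] at this
    exact absurd this (not_le.2 hw)
  · obtain ⟨P, z, h6, h7, h8⟩ := hg
    refine hb i (hTS hi) ⟨P, Function.update z i (P.eval (i : ℂ)), h6, fun j hj => ?_, ?_⟩
    · by_cases h : j = i
      · rw [h, Function.update_self]
      · rw [Function.update_of_ne h, h7 j fun h' => hj (mem_erase.2 ⟨h, h'⟩)]
    · rw [ev] at h8 ⊢
      rwa [List.map_congr_left fun j hj => cg j _ z fun l hl => Function.update_of_ne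
        (fun e : l = i => hn (mem_biUnion.2 ⟨j, mem_filter.2 ⟨mem_range.2 (List.mem_range.1 hj),
          h5 i hi j (List.mem_range.1 hj) (e ▸ hl)⟩, e ▸ hl⟩)) _ _]
  · refine (card_biUnion_le_card_mul _ _ b fun j _ => hV j).trans (le_trans ?_ hq)
    rw [mul_right_comm]
    refine Nat.mul_le_mul_right _ ?_
    refine (card_le_card (t := image₂ (fun t l => t * c + l) τ (range c)) fun j hj => ?_).trans ?_
    · exact mem_image₂.2 ⟨j / c, (mem_filter.1 hj).2, j % c, mem_range.2 (Nat.mod_lt _ hc),
        Nat.div_add_mod' _ _⟩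
    · simpa [hτk] using card_image₂_le (fun t l => t * c + l) τ (range c)
  · have hdiv : ∀ j l, l ∈ List.range c → (j * c + l) / c = j := fun j l hl => by
      rw [mul_comm, Nat.mul_add_div hc, Nat.div_eq_of_lt (List.mem_range.1 hl), add_zero]
    obtain ⟨G, hG, hs⟩ := rank (fun j E D => ((List.range c).map fun l =>
      if j * c + l < r then (M (j * c + l)).map (eval (z E D)) else 1).prod) τ
      (fun j hj E E' D => congrArg _ (List.map_congr_left fun l hl => if_ctx_congr Iff.rfl
        (fun h => cg _ _ _ fun i hi => hz E E' D i (mem_biUnion.2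
          ⟨_, mem_filter.2 ⟨mem_range.2 h, (hdiv j l hl).symm ▸ hj⟩, hi⟩)) fun _ => rfl))
      (fun j hj E D D' => congrArg _ (List.map_congr_left fun l hl => if_ctx_congr Iff.rfl
        (fun h => cg _ _ _ fun i hi => hz' E D D' i fun hi' =>
          hj (hdiv j l hl ▸ h5 i hi' _ h hi)) fun _ => rfl)) (r / c + 1)
    refine ⟨G, hG.trans ?_, fun E => ?_⟩
    · rw [pow_mul, sq]
      exact Nat.pow_le_pow_right (Nat.mul_pos p.pos p.pos) ((card_filter_le _ _).trans hτk.le)
    · convert hs E p p' using 2 with D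
      rw [ev, blocks (fun j => if j < r then (M j).map (eval (z E D)) else 1) c,
        padded _ (by rw [mul_comm]; exact (Nat.lt_mul_div_succ r hc).le)]

end Pool.Agent.P.MP_08e617_lc.Ob
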