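import Pool.Agent.P.MP_08e617_lc.SxE
import Pool.Agent.P.MP_08e617_lc.ObA

/-! The algorithm that runs through the points close to low degree curves. -/

namespace Pool.Agent.P.MP_08e617_lc.Ob

open Pool.Agent.Lib.helper21 Pool.Agent.Lib.helper26 Function Matrix Module MvPolynomial

variable {α : Type} [Enc α]

/-- The side of the grid. -/
def uu (I : Inp) (s : ℕ) : ℕ :=
  I.length * (I.flatten.flatten.map fun m => m.2.sum).sum + (nv I + s) + 1
/-- The point with seed `t`. -/
def pnt (I : Inp) (s t : ℕ) : List ℤ :=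
  (List.range (nv I)).map fun i => sm s (fun l => (Sx.dg (uu I s) t l : ℕ) * ((i : ℕ) : ℤ) ^ l) +
    sm s fun j => cond (decide (Sx.dg (uu I s) t (s + j) = i)) (Sx.dg (uu I s) t (s + s + j) : ℕ) 0
/-- The test with the seeds below `P`. -/
def tst (I : Inp) (s P : ℕ) : Bool := (List.range P).all fun t =>
  decide (0 < kd I.length (Sx.evZ I (pnt I s t)) (Sx.evZ I (pnt I s t)))
/-- The number of seeds. -/
def pad (I : Inp) (s : ℕ) : ℕ := uu I s ^ (3 * s)

@[fun_prop] theorem pt_uu {I : α → Inp} {s : α → ℕ} (hI : PT I) (hs : PT s) :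
    PT fun a => uu (I a) (s a) := by unfold uu; fun_prop
@[fun_prop] theorem pt_pnt {I : α → Inp} {s t : α → ℕ} (hI : PT I) (hs : PT s) (ht : PT t) :
    PT fun a => pnt (I a) (s a) (t a) := by unfold pnt; fun_prop
theorem pt_tst : PT fun p : (Inp × ℕ) × ℕ => tst p.1.1 p.1.2 p.2 := by unfold tst; fun_prop

theorem deg_aeval {σ : Type} (g : ℕ → MvPolynomial σ ℚ) (hg : ∀ i, (g i).totalDegree ≤ 1)
    (f : MvPolynomial ℕ ℚ) : (aeval g f).totalDegree ≤ f.totalDegree := by
  rw [aeval_def, eval₂_eq]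
  refine totalDegree_finsetSum_le fun d hd => (totalDegree_mul _ _).trans ?_
  rw [algebraMap_eq, totalDegree_C, zero_add]
  refine (totalDegree_finsetProd _ _).trans ?_
  refine le_trans (Finset.sum_le_sum fun i _ =>
    (totalDegree_pow _ _).trans (Nat.mul_le_mul_left _ (hg i))) ?_
  rw [← Finset.sum_mul, mul_one]
  exact le_totalDegree hd

theorem grid {σ : Type} [Finite σ] {g : MvPolynomial σ ℚ} (h : g ≠ 0) {B : ℕ}
    (hB : g.totalDegree < B) : ∃ w : σ → ℕ, (∀ i, w i < B) ∧ eval (fun i => (w i : ℚ)) g ≠ 0 := by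
  by_contra h3
  refine h (eq_zero_of_eval_zero_at_prod_finset _
    (fun _ => (Finset.range B).image fun s : ℕ => (s : ℚ)) (fun i => ?_) fun x hx => ?_)
  · rw [Finset.card_image_of_injective _ Nat.cast_injective, Finset.card_range]
    exact (degreeOf_le_totalDegree _ _).trans_lt hB
  · simp only [Finset.mem_image, Finset.mem_range] at hx
    choose s hs1 hs2 using hx
    by_contra h4
    exact h3 ⟨s, hs1, by simpa only [hs2] using h4⟩

theorem deg_det (I : Inp) : (polyMatrix I).det.totalDegree ≤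
    I.length * (I.flatten.flatten.map fun m => m.2.sum).sum := by
  have h : ∀ p q, (polyMatrix I p q).totalDegree ≤ (I.flatten.flatten.map fun m => m.2.sum).sum :=
    fun p q => by
      refine List.sum_induction (fun g : MvPolynomial ℕ ℚ => g.totalDegree ≤ _)
        (fun a b ha hb => (totalDegree_add _ _).trans (max_le ha hb)) (by simp) fun g hg => ?_
      obtain ⟨m, hm, rfl⟩ := List.mem_map.1 hg
      refine le_trans ?_ (List.single_le_sum (fun _ _ => Nat.zero_le _) _
        (List.mem_map.2 ⟨m, mem_flat hm, rfl⟩))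
      refine (totalDegree_mul _ _).trans ?_
      rw [totalDegree_C, zero_add]
      refine (totalDegree_finsetProd _ _).trans (le_of_eq ?_)
      simp only [totalDegree_X_pow]
      rw [← list_sum_range]
      exact congrArg _ (List.ext_getElem (by simp) fun i h1 h2 => by simp [h2])
  rw [det_apply']
  refine totalDegree_finsetSum_le fun s _ => (totalDegree_mul _ _).trans ?_
  rw [← map_intCast (C : ℚ →+* MvPolynomial ℕ ℚ), totalDegree_C, zero_add]
  refine (totalDegree_finsetProd _ _).trans ?_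
  refine (Finset.sum_le_card_nsmul _ _ _ fun i _ => h _ _).trans ?_
  simp

/-- the determinant only depends on the first variables -/
theorem det_congr {A : Type} [CommRing A] (I : Inp) {φ ψ : MvPolynomial ℕ ℚ →+* A}
    (h0 : ∀ a, φ (C a) = ψ (C a)) (h : ∀ i < nv I, φ (X i) = ψ (X i)) :
    φ (polyMatrix I).det = ψ (polyMatrix I).det := by
  rw [RingHom.map_det, RingHom.map_det]
  congr 1
  ext p q
  simp only [RingHom.mapMatrix_apply, map_apply, polyMatrix, of_apply, map_list_sum, List.map_map]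
  refine congrArg _ (List.map_congr_left fun m hm => ?_)
  simp only [Function.comp_apply, monoPoly, map_mul, map_prod, map_pow, h0]
  exact congrArg _ (Finset.prod_congr rfl fun i hi => by
    rw [h i ((Finset.mem_range.1 hi).trans_le (Sx.len_le (mem_flat hm)))])

theorem good_range (I : Inp) (s : ℕ) (h : (polyMatrix I).det ≠ 0) :
    Good (map (algebraMap ℚ ℂ) (polyMatrix I).det) s (Finset.range (nv I)) := by
  obtain ⟨x, hx⟩ : ∃ x : ℕ → ℂ, eval x (map (algebraMap ℚ ℂ) (polyMatrix I).det) ≠ 0 := by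
    by_contra hn
    exact h (map_injective _ (algebraMap ℚ ℂ).injective (MvPolynomial.funext fun x => by
      simpa using not_exists.1 hn x))
  refine ⟨0, fun i => if i < nv I then x i else 0, by simp, fun i hi =>
    (if_neg (by simpa using hi)).trans Polynomial.eval_zero.symm, fun e => hx ?_⟩
  rw [← e]
  exact det_congr I (φ := (MvPolynomial.eval _).comp (MvPolynomial.map _))
    (ψ := (MvPolynomial.eval _).comp (MvPolynomial.map _)) (by simp) fun i hi => by simp [hi]

/-- The coordinates of the points as polynomials in the seeds. -/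
noncomputable def gen {s : ℕ} (e : Fin s → ℕ) (i : ℕ) : MvPolynomial (Fin s ⊕ Fin s) ℚ :=
  ∑ l : Fin s, C ((i : ℚ) ^ (l : ℕ)) * X (Sum.inl l) +
    ∑ j : Fin s, if e j = i then X (Sum.inr j) else 0

theorem deg_gen {s : ℕ} (e : Fin s → ℕ) (i : ℕ) : (gen e i).totalDegree ≤ 1 := by
  refine (totalDegree_add _ _).trans (max_le (totalDegree_finsetSum_le fun l _ => ?_)
    (totalDegree_finsetSum_le fun j _ => ?_))
  · exact (totalDegree_mul _ _).trans (by rw [totalDegree_C, totalDegree_X])
  · split_ifs <;> simp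

theorem gen_ne {f : MvPolynomial ℕ ℚ} {s : ℕ} {S : Finset ℕ} (hS : S.card = s)
    (h : Good (map (algebraMap ℚ ℂ) f) s S) : aeval (gen (S.orderEmbOfFin hS)) f ≠ 0 := by
  obtain ⟨P, z, h1, h2, h3⟩ := h
  intro h0
  let y : Fin s ⊕ Fin s → ℂ := Sum.elim (fun l => P.coeff l) fun j =>
    z (S.orderEmbOfFin hS j) - P.eval ((S.orderEmbOfFin hS j : ℕ) : ℂ)
  have h4 : (aeval y).comp (aeval (gen (S.orderEmbOfFin hS))) =
      (aeval z : MvPolynomial ℕ ℚ →ₐ[ℚ] ℂ) := algHom_ext fun i => by
    have h5 : ∑ l : Fin s, (i : ℂ) ^ (l : ℕ) * P.coeff l = P.eval (i : ℂ) := by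
      rw [Polynomial.eval_eq_sum_degreeLTEquiv (Polynomial.mem_degreeLT.2 h1)]
      exact Finset.sum_congr rfl fun l _ => mul_comm _ _
    simp only [AlgHom.comp_apply, aeval_X, gen, map_add, map_sum, map_mul, map_pow,
      map_natCast, apply_ite (aeval y), map_zero, y, Sum.elim_inl, Sum.elim_inr, h5]
    by_cases hi : i ∈ S
    · obtain ⟨j, rfl⟩ : i ∈ Set.range (S.orderEmbOfFin hS) := by
        rwa [Finset.range_orderEmbOfFin]
      rw [Finset.sum_eq_single_of_mem j (Finset.mem_univ _) fun j' _ hj =>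
        if_neg fun e => hj ((S.orderEmbOfFin hS).injective e), if_pos rfl, add_sub_cancel]
    · rw [Finset.sum_eq_zero fun j _ => if_neg fun e : S.orderEmbOfFin hS j = i =>
        hi (e ▸ S.orderEmbOfFin_mem hS j), add_zero, h2 i hi]
  refine h3 ?_
  rw [eval_map, ← aeval_def, ← h4, AlgHom.comp_apply, h0, map_zero]

attribute [local irreducible] uu

theorem tst_spec {I : Inp} {s : ℕ} (h : (polyMatrix I).det ≠ 0 → ∃ S ⊆ Finset.range (nv I),
    S.card ≤ s ∧ Good (map (algebraMap ℚ ℂ) (polyMatrix I).det) s S) :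
    tst I s (pad I s) = true ↔ (polyMatrix I).det = 0 := by
  simp only [tst, List.all_eq_true, List.mem_range, decide_eq_true_eq, Sx.evZ_spec,
    ← RingHom.mapMatrix_apply, ← RingHom.map_det]
  refine ⟨fun h1 => by_contra fun h0 => ?_, fun h1 t _ => by rw [h1, map_zero]⟩
  obtain ⟨S₁, h2, h3, h4⟩ := h h0
  obtain ⟨S, h5, h6, hS⟩ := Finset.exists_subsuperset_card_eq (n := s)
    (h2.trans (Finset.range_mono (Nat.le_add_right _ s))) h3 (by simp)
  have hu : I.length * (I.flatten.flatten.map fun m => m.2.sum).sum + (nv I + s) < uu I s := by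
    unfold uu
    omega
  obtain ⟨y, h7, h8⟩ := grid (gen_ne hS (h4.mono h5)) (B := uu I s)
    (((deg_aeval _ (deg_gen _) _).trans (deg_det I)).trans_lt (by omega))
  obtain ⟨t, ht, h9⟩ := Sx.seed (u := uu I s) (L := 3 * s) (fun l =>
    if h : l < s then y (Sum.inl ⟨l, h⟩) else if h' : l - s < s then S.orderEmbOfFin hS ⟨l - s, h'⟩
    else if h'' : l - s - s < s then y (Sum.inr ⟨l - s - s, h''⟩) else 0) fun l => by
      split_ifs
      · exact h7 _
      · exact (Finset.mem_range.1 (h6 (S.orderEmbOfFin_mem hS _))).trans_le (by omega)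
      · exact h7 _
      · omega
  refine h8 ?_
  rw [eval_aeval, ← h1 t ht]
  refine det_congr I (by simp) fun i hi => ?_
  rw [eval_X, eval_X, pnt, List.getD_eq_getElem _ _ (by simpa using hi), List.getElem_map,
    List.getElem_range, sm_eq, sm_eq, gen]
  simp only [map_add, map_sum, map_mul, eval_C, eval_X]
  push_cast
  congr 1
  · refine Finset.sum_congr rfl fun l _ => ?_
    rw [h9 l (by omega), dif_pos l.2, mul_comm]
  · refine Finset.sum_congr rfl fun j _ => ?_
    rw [h9 _ (by omega), h9 _ (by omega), dif_neg (by omega), dif_pos (by omega),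
      dif_neg (by omega), dif_neg (by omega), dif_pos (by omega)]
    simp only [Nat.add_sub_cancel_left, add_assoc, Fin.eta, Bool.cond_decide]
    split_ifs <;> simp

theorem real_tst : RealT (fun x : Inp × ℕ => sz x + pad x.1 x.2) Enc.enc
    fun x => [tst x.1 x.2 (pad x.1 x.2)] := by
  let step : (Inp × ℕ) × ℕ × ℕ → (Inp × ℕ) × ℕ × ℕ := fun s =>
    (s.1, s.2.1 - 1, s.2.2 * uu s.1.1 s.1.2)
  let go : (Inp × ℕ) × ℕ × ℕ → Bool := fun s => !decide (s.2.1 = 0)
  let init : Inp × ℕ → (Inp × ℕ) × ℕ × ℕ := fun x => (x, 3 * x.2, 1)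
  have hs : PT step := by fun_prop
  have hg : PT go := by fun_prop
  have hi : PT init := by fun_prop
  have hit : ∀ (j : ℕ) (x : Inp × ℕ), step^[j] (init x) = (x, 3 * x.2 - j, uu x.1 x.2 ^ j) := by
    intro j x
    induction j with
    | zero => rfl
    | succ j ih => rw [iterate_succ_apply', ih]; rfl
  have b0 : Bd (fun x : Inp × ℕ => sz x + pad x.1 x.2) sz :=
    (Bd.self _).mono fun x => Nat.le_add_right _ _
  have b1 : Bd (fun x : Inp × ℕ => sz x + pad x.1 x.2) fun x => pad x.1 x.2 :=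
    (Bd.self _).mono fun x => Nat.le_add_left _ _
  have b2 : Bd (fun x : Inp × ℕ => sz x + pad x.1 x.2) fun x => 3 * x.2 :=
    b0.trans (PT.bdNat (by fun_prop))
  have h1 := RealT.whileLoop Enc.enc go step
    (Rl.reindex (Rl.consBit (hg.comp hs) hs) Subtype.val) (fun x : Inp × ℕ => sz x + pad x.1 x.2)
    init (fun x => 3 * x.2) (fun a j hj => by simp [hit, go]; omega) (fun a => by simp [hit, go])
    b2 (fun x => 2 * sz x + 2 * (3 * x.2) + pad x.1 x.2 + 2)
    (((((Bd.const _ _).mul b0).add ((Bd.const _ _).mul b2)).add b1).add (Bd.const _ _))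
    fun x j hj => by
      have : uu x.1 x.2 ^ j ≤ pad x.1 x.2 :=
        Nat.pow_le_pow_right (by unfold uu; omega) hj.le
      show sz _ ≤ _
      simp only [hit, sz_pair, sz_nat]
      omega
  have h2 : PT fun s : (Inp × ℕ) × ℕ × ℕ => tst s.1.1 s.1.2 s.2.2 :=
    pt_tst.comp (g := fun s : (Inp × ℕ) × ℕ × ℕ => (s.1, s.2.2)) (by fun_prop)
  have h3 := (RealT.size (Rl.consBit (hg.comp hi) hi) b0).comp h1
  refine (h3.comp (RealT.size (Rl.reindex h2 _) (h3.bd b0))).congr fun x => ?_
  rw [hit]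
  rfl

theorem eval_le_pow (Q : Polynomial ℕ) : ∃ c, ∀ n, Q.eval n ≤ (n + 2) ^ c := by
  induction Q using Polynomial.induction_on' with
  | add p q hp hq =>
    obtain ⟨a, ha⟩ := hp
    obtain ⟨b, hb⟩ := hq
    refine ⟨a + b + 1, fun n => ?_⟩
    have h1 : (n + 2) ^ a ≤ (n + 2) ^ (a + b) := Nat.pow_le_pow_right (by omega) (by omega)
    have h2 : (n + 2) ^ b ≤ (n + 2) ^ (a + b) := Nat.pow_le_pow_right (by omega) (by omega)
    have h3 := ha n
    have h4 := hb n
    rw [Polynomial.eval_add, pow_succ]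
    nlinarith
  | monomial k a =>
    refine ⟨a + k, fun n => ?_⟩
    rw [Polynomial.eval_monomial, pow_add]
    exact Nat.mul_le_mul (Nat.lt_pow_self (by omega)).le (Nat.pow_le_pow_left (by omega) _)

theorem main : ∃ (tm : Turing.TM2ComputableAux Bool Bool) (q : Polynomial ℕ) (g : Inp → ℕ → Bool),
    (∀ I s, Nonempty (Turing.TM2OutputsInTime tm.tm
      ((encPair (encInput I) (List.replicate s true)).map tm.inputAlphabet.invFun)
      (some ((Computability.encodeBool (g I s)).map tm.outputAlphabet.invFun))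
      (q.eval (((encInput I).length + s + 2) ^ (s + 1))))) ∧
    ∀ I (s k w b r c m : ℕ), OblBP k w b r (map (algebraMap ℚ ℂ) (polyMatrix I).det) → 0 < c →
      k * b * c ≤ s → w ^ (2 * k) < 2 ^ (m + 1) → m * (r / c + 1 + k).choose k ≤ s →
      (g I s = true ↔ (polyMatrix I).det = 0) := by
  obtain ⟨ι, _, _, p, T, ⟨q, hT⟩, hp⟩ := real_tst
  obtain ⟨Q, hQ⟩ : Bd sz fun x : Inp × ℕ => uu x.1 x.2 := PT.bdNat (by fun_prop)
  obtain ⟨a, ha⟩ := eval_le_pow (Q.comp (2 * Polynomial.X + 1))
  refine ⟨⟨machine p, Equiv.refl _, Equiv.refl _⟩,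
    q.comp (2 * Polynomial.X + Polynomial.X ^ (3 * a)) + 1, fun I s => tst I s (pad I s),
    fun I s => ?_, fun I s k w b r c m h1 h2 h3 h4 h5 => tst_spec fun h0 => ?_⟩
  · have h1 : sz I + s + 2 ≤ (sz I + s + 2) ^ (s + 1) := Nat.le_self_pow (by omega) _
    have h2 : sz (I, s) = 2 * sz I + s + 1 := by rw [sz_pair, sz_nat]
    have h3 : uu I s ≤ (sz I + s + 2) ^ a := by
      refine (hQ (I, s)).trans (le_trans ?_ (ha (sz I + s)))
      rw [Polynomial.eval_comp]
      exact eval_mono Q (by simp [h2]; omega)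
    have h4 : pad I s ≤ ((sz I + s + 2) ^ (s + 1)) ^ (3 * a) := by
      calc pad I s ≤ ((sz I + s + 2) ^ a) ^ (3 * s) := Nat.pow_le_pow_left h3 _
        _ = ((sz I + s + 2) ^ s) ^ (3 * a) := by
          rw [← pow_mul, ← pow_mul]; congr 1; ring
        _ ≤ _ := Nat.pow_le_pow_left (Nat.pow_le_pow_right (by omega) (by omega)) _
    have h := machine_run p _ _ _ ((hp (I, s)).mono ((hT (I, s)).trans (eval_mono q
      (n := 2 * (sz I + s + 2) ^ (s + 1) + ((sz I + s + 2) ^ (s + 1)) ^ (3 * a))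
      (by beta_reduce; dsimp only; omega))))
    have e1 : List.map (Equiv.refl Bool).invFun (encPair (encInput I) (List.replicate s true)) =
        Enc.enc (I, s) := by
      rw [encInput_eq]; exact List.map_id _
    have e2 : (q.comp (2 * Polynomial.X + Polynomial.X ^ (3 * a)) + 1).eval
        (((encInput I).length + s + 2) ^ (s + 1)) =
        q.eval (2 * (sz I + s + 2) ^ (s + 1) + ((sz I + s + 2) ^ (s + 1)) ^ (3 * a)) + 1 := by
      rw [encInput_eq, Polynomial.eval_add, Polynomial.eval_one, Polynomial.eval_comp,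
        Polynomial.eval_add, Polynomial.eval_pow, Polynomial.eval_mul, Polynomial.eval_X,
        Polynomial.eval_ofNat]
      rfl
    exact e1.symm ▸ e2.symm ▸ h
  · obtain ⟨S, h6, h7, h8⟩ := small h1 h2 h3 h4 (good_range I s h0)
    exact ⟨S, h6, h7.trans h5, h8⟩

end Pool.Agent.P.MP_08e617_lc.Ob
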