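import Mathlib

/-! Oblivious branching programs with bounded reads. -/

namespace Pool.Agent.P.MP_08e617_lc

/-- `f` is an entry of a product of `r` square matrices of size `w` over the complex polynomial
ring, the `j`-th matrix involves only the variables in `V j`, at most `b` of them, and every
variable lies in at most `k` of the sets `V j`. -/
def OblBP (k w b r : ℕ) (f : MvPolynomial ℕ ℂ) : Prop :=
  ∃ (V : ℕ → Finset ℕ) (M : ℕ → Matrix (Fin w) (Fin w) (MvPolynomial ℕ ℂ)) (p q : Fin w),
    (∀ j, (V j).card ≤ b) ∧ (∀ j u v, (M j u v).vars ⊆ V j) ∧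
    (∀ i, ((Finset.range r).filter fun j => i ∈ V j).card ≤ k) ∧
    f = ((List.range r).map M).prod p q

end Pool.Agent.P.MP_08e617_lc
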