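import Pool.Agent.P.MP_08e617_lc.R2B

/-! Adjacency, the spanning lemma and twisted pairs. -/

namespace Pool.Agent.P.MP_08e617_lc.R2

open Filter Function

variable {ι : Type} [Fintype ι] [DecidableEq ι]

/-- Moving `j` turns the block `l` of the kernel vector. -/
def Adj (L : Rel ι) (y : ι → ℚ) (l j : ι) : Prop :=
  ∃ X D, R L y X 0 ∧ R L y D (sg j (X j)) ∧ om (X l) (D l) ≠ 0

/-- Connectedness of a finite set for a relation. -/
def Conn (r : ι → ι → Prop) (C : Finset ι) : Prop :=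
  ∀ p : ι → Prop, ∀ c ∈ C, p c → (∀ a ∈ C, ∀ b ∈ C, r a b → p a → p b) → ∀ b ∈ C, p b

variable {L L' : Rel ι} {S T C : Finset ι} {y z : ι → ℚ} {X X' Y D D' Da Db E : Vec ι}
  {u i j k l a b : ι}

omit [Fintype ι] [DecidableEq ι] in
theorem Conn.mono {r r' : ι → ι → Prop} (h : Conn r C) (hr : ∀ a ∈ C, ∀ b ∈ C, r a b → r' a b) :
    Conn r' C := fun p c hc hp hs => h p c hc hp fun a ha b hb hab => hs a ha b hb (hr a ha b hb hab)

omit [Fintype ι] in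
theorem adj_iff (hg : Good L S y X) (hl : l ∈ S) (hj : j ∈ S) (hD : J1 L y X j D) :
    Adj L y l j ↔ om (X l) (D l) ≠ 0 := by
  refine ⟨fun ⟨X0, D0, h1, h2, h3⟩ h0 => h3 ?_, fun h => ⟨X, D, hg.ker, hD.rel, h⟩⟩
  obtain ⟨s, hs⟩ := hg.uniq _ h1
  obtain ⟨s', hs'⟩ := hg.uniq _ ((h2.sub (hD.rel.smul s)).cast (by simp [hs j hj, sg_smul]))
  have e : D0 l = s • D l + s' • X l := by
    have := hs' l hl
    simp only [Pi.sub_apply, Pi.smul_apply] at this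
    linear_combination (norm := module) this
  simp [hs l hl, e, h0]

omit [Fintype ι] in
theorem nadj_par (hg : Good L S y X) (hl : l ∈ S) (hD : J1 L y X j D) (h : ¬ Adj L y l j) :
    ∃ c : ℚ, D l = c • X l :=
  par_of_om (hg.ne l hl) (by_contra fun h0 => h ⟨X, D, hg.ker, hD.rel, h0⟩)

omit [Fintype ι] in
theorem nadj_coef (hX : R L y X 0) (ha : J1 L y X a Da) (hb : J1 L y X b Db)
    (hE : J2 L y a b Da Db E) (h : ∀ᶠ t in cofinite, ¬ Adj L (mv y a t) l b) :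
    om (X l) (Db l) = 0 ∧ om (X l) (E l) + om (Da l) (Db l) = 0 ∧ om (Da l) (E l) = 0 := by
  refine coef_of_ev (h.mono fun t ht => by_contra fun h0 => ht
    ⟨_, _, ha.ker hX t, (hb.shift hE t).rel, fun h1 => h0 ?_⟩)
  simp only [Pi.add_apply, Pi.smul_apply, om_add_left, om_add_right, om_smul_left,
    om_smul_right] at h1
  linear_combination h1

theorem Pt.adj_mv (h : Pt L L' S y X) (hu : u ∈ S) (hl : l ∈ S) (hj : j ∈ S) (hs : Sing L S y T)
    (huT : u ∈ T) (hjT : j ∈ T) (hadj : Adj L y l j) :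
    ∀ᶠ t in cofinite, Adj L (R2.mv y u t) l j := by
  obtain ⟨Du, hDu⟩ := h.j1 hu hs huT
  obtain ⟨Dj, hDj⟩ := h.j1 hj hs hjT
  obtain ⟨E, hE⟩ := h.j2 hu hj hs huT hjT hDu hDj
  rw [adj_iff h.good hl hj hDj] at hadj
  refine (ev_quad (om (X l) (E l) + om (Du l) (Dj l)) (om (Du l) (E l)) hadj).mono fun t ht =>
    ⟨_, _, hDu.ker h.good.ker t, (hDj.shift hE t).rel, fun h1 => ht ?_⟩
  simp only [Pi.add_apply, Pi.smul_apply, om_add_left, om_add_right, om_smul_left,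
    om_smul_right] at h1
  linear_combination h1

theorem J2.rel0 (hd : Dual L L') (hE : J2 L y a b Da Db E) (hY : R L' y Y 0) :
    om (Db a) (Y a) + om (Da b) (Y b) = 0 := by
  simpa using hd.ker_pair hE.rel hY

theorem Pt.adj_symm (h : Pt L L' S y X) (ha : a ∈ S) (hb : b ∈ S) (hs : Sing L S y T)
    (haT : a ∈ T) (hbT : b ∈ T) (hadj : Adj L y a b) : Adj L y b a := by
  obtain ⟨Da, hDa⟩ := h.j1 ha hs haT
  obtain ⟨Db, hDb⟩ := h.j1 hb hs hbT
  obtain ⟨E, hE⟩ := h.j2 ha hb hs haT hbT hDa hDb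
  rw [adj_iff h.good ha hb hDb] at hadj
  rw [adj_iff h.good hb ha hDa]
  obtain ⟨Y, hY, h0⟩ := h.kat a ha
  obtain ⟨θ, hθ⟩ := par_of_om (h.good.ne a ha) (hDa.fo h.dual hY)
  obtain ⟨θ', hθ'⟩ := par_of_om (h.good.ne b hb) (hDb.fo h.dual hY)
  have e := hE.rel0 h.dual hY
  intro h1
  rw [hθ, hθ', om_smul_right, om_smul_right, om_comm (Da b), h1, om_comm (Db a)] at e
  have : θ = 0 := by simpa [hadj] using e
  exact h0 (by simp [hθ, this])

theorem Pt.prop0 (h : Pt L L' S y X) (ha : a ∈ S) (hb : b ∈ S) (hs : Sing L S y T)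
    (haT : a ∈ T) (hbT : b ∈ T) (hadj : Adj L y a b) (hY : R L' y Y 0) (h0 : Y a = 0) :
    Y b = 0 := by
  have hadj' := h.adj_symm ha hb hs haT hbT hadj
  obtain ⟨Da, hDa⟩ := h.j1 ha hs haT
  obtain ⟨Db, hDb⟩ := h.j1 hb hs hbT
  obtain ⟨E, hE⟩ := h.j2 ha hb hs haT hbT hDa hDb
  rw [adj_iff h.good hb ha hDa] at hadj'
  have e := hE.rel0 h.dual hY
  rw [h0, om_zero_right, zero_add] at e
  exact eq_zero_of_om hadj' (by rw [om_comm, hDb.fo h.dual hY, neg_zero])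
    (by rw [om_comm, e, neg_zero])

theorem Pt.left_good (h : Pt L L' S y X) (hne : S.Nonempty)
    (hs : ∀ a ∈ S, ∀ b ∈ S, Sing L S y {a, b}) (hc : Conn (Adj L y) S) :
    ∃ X', Good L' S y X' := by
  have key : ∀ Y, R L' y Y 0 → ∀ c ∈ S, Y c = 0 → ∀ b ∈ S, Y b = 0 := fun Y hY c hc' h0 =>
    hc (fun i => Y i = 0) c hc' h0 fun a ha b hb hab h1 =>
      h.prop0 ha hb (hs a ha b hb) (by simp) (by simp) hab hY h1
  obtain ⟨r, hr⟩ := hne
  obtain ⟨Y, hY, h0⟩ := h.kat r hr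
  refine ⟨Y, hY, fun i hi h1 => h0 (key Y hY i hi h1 r hr), fun Z hZ => ?_⟩
  obtain ⟨D, hD⟩ := h.j1 hr (hs r hr r hr) (by simp)
  obtain ⟨s, hs'⟩ := par_of_om h0 (om_trans (h.good.ne r hr)
    (by rw [om_comm, hD.fo h.dual hY, neg_zero]) (by rw [om_comm, hD.fo h.dual hZ, neg_zero]) :
    om (Y r) (Z r) = 0)
  refine ⟨s, fun i hi => sub_eq_zero.1 ?_⟩
  exact key _ ((hZ.sub (hY.smul s)).cast (by simp)) r hr (by simp [hs']) i hi

theorem Pt.span (h : Pt L L' S y X) (hC : C ⊆ S) (hs : ∀ a ∈ C, ∀ b ∈ C, Sing L S y {a, b})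
    (hc : Conn (Adj L y) C) (P : Vec ι → Vec ι → Prop)
    (hadd : ∀ a d a' d', P a d → P a' d' → P (a + a') (d + d'))
    (hsm : ∀ (c : ℚ) a d, P a d → P (c • a) (c • d)) (h0 : ∀ a, R L y a 0 → P a 0)
    (h1 : ∀ j ∈ C, ∀ D, J1 L y X j D → P D (sg j (X j)))
    (h2 : ∀ a ∈ C, ∀ b ∈ C, Adj L y a b → ∀ Da Db E, J1 L y X a Da → J1 L y X b Db →
      J2 L y a b Da Db E → P E (sg a (Db a) + sg b (Da b)))
    {v d : Vec ι} (hv : R L y v d) (hd : ∀ i ∉ C, d i = 0) : P v d := by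
  let W : Submodule ℚ (Vec ι) :=
    { carrier := {d | ∃ a, R L y a d ∧ P a d}
      add_mem' := fun ⟨a, ha, pa⟩ ⟨b, hb, pb⟩ => ⟨_, ha.add hb, hadd _ _ _ _ pa pb⟩
      zero_mem' := ⟨_, R.zero L y, h0 _ (R.zero L y)⟩
      smul_mem' := fun c _ ⟨a, ha, pa⟩ => ⟨_, ha.smul c, hsm _ _ _ pa⟩ }
  suffices hW : d ∈ W by
    obtain ⟨a, ha, pa⟩ := hW
    have := hadd _ _ _ _ pa (h0 _ ((hv.sub ha).cast (sub_self _)))
    simpa using this
  have hX : ∀ j ∈ C, sg j (X j) ∈ W := fun j hj => by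
    obtain ⟨D, hD⟩ := h.j1 (hC hj) (hs j hj j hj) (by simp)
    exact ⟨D, hD.rel, h1 j hj D hD⟩
  rcases C.eq_empty_or_nonempty with rfl | ⟨r, hr⟩
  · have : d = 0 := funext fun i => hd i (by simp)
    rw [this]; exact W.zero_mem
  have key : ∀ b ∈ C, ∀ v, ∃ v', sg b v - sg r v' ∈ W := by
    refine hc (fun b => ∀ v, ∃ v', sg b v - sg r v' ∈ W) r hr (fun v => ⟨v, by simp⟩)
      fun a ha b hb hab ih v => ?_
    have hs' := hs a ha b hb
    obtain ⟨Da, hDa⟩ := h.j1 (hC ha) hs' (by simp)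
    obtain ⟨Db, hDb⟩ := h.j1 (hC hb) hs' (by simp)
    obtain ⟨E, hE⟩ := h.j2 (hC ha) (hC hb) hs' (by simp) (by simp) hDa hDb
    have hba := h.adj_symm (hC ha) (hC hb) hs' (by simp) (by simp) hab
    rw [adj_iff h.good (hC hb) (hC ha) hDa] at hba
    obtain ⟨α, β, rfl⟩ := decomp hba v
    obtain ⟨v', hv'⟩ := ih (-β • Db a)
    have hE' : sg a (Db a) + sg b (Da b) ∈ W := ⟨E, hE.rel, h2 a ha b hb hab Da Db E hDa hDb hE⟩
    refine ⟨v', ?_⟩
    convert W.add_mem (W.add_mem (W.smul_mem α (hX b hb)) (W.smul_mem β hE')) hv' using 1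
    simp only [sg_add, sg_smul]
    module
  choose! f hf using key
  have e : d = ∑ b ∈ C, sg b (d b) := by
    conv_lhs => rw [← sum_sg d]
    exact (Finset.sum_subset (Finset.subset_univ C) fun i _ hi => by simp [hd i hi]).symm
  have hsum : d - sg r (∑ b ∈ C, f b (d b)) ∈ W := by
    have e2 : sg r (∑ b ∈ C, f b (d b)) = ∑ b ∈ C, sg r (f b (d b)) := by
      funext i
      by_cases hi : i = r
      · subst hi; simp [Finset.sum_apply]
      · simp [Finset.sum_apply, sg_ne hi]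
    conv => lhs; skip
    rw [e2]
    have := W.sum_mem fun b (hb : b ∈ C) => hf b hb (d b)
    rwa [Finset.sum_sub_distrib, ← e] at this
  obtain ⟨a, ha, pa⟩ := id hsum
  obtain ⟨Y, hY, hY0⟩ := h.kat r (hC hr)
  have e1 := h.dual.ker_pair ((hv.sub ha).cast (sub_sub_cancel _ _)) hY
  rw [Bf_sg_left] at e1
  obtain ⟨D, hD⟩ := h.j1 (hC hr) (hs r hr r hr) (by simp)
  obtain ⟨c, hc'⟩ := par_of_om (h.good.ne r (hC hr)) (om_trans hY0 (hD.fo h.dual hY) e1)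
  have := W.add_mem hsum (W.smul_mem c (hX r hr))
  rwa [hc', sg_smul, sub_add_cancel] at this

/-- Both kernels are good. -/
structure BG (L L' : Rel ι) (S : Finset ι) (y : ι → ℚ) (X X' : Vec ι) : Prop where
  dual : Dual L L'
  good : Good L S y X
  good' : Good L' S y X'

omit [DecidableEq ι] in
theorem BG.symm (h : BG L L' S y X X') : BG L' L S y X' X := ⟨h.dual.symm, h.good', h.good⟩

omit [DecidableEq ι] in
theorem BG.pt (h : BG L L' S y X X') : Pt L L' S y X := ⟨h.dual, h.good, fun _ => h.good'.kat⟩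

omit [DecidableEq ι] in
theorem BG.mono (h : BG L L' S y X X') {S' : Finset ι} (hS : S' ⊆ S) : BG L L' S' y X X' :=
  ⟨h.dual, h.good.mono hS, h.good'.mono hS⟩

theorem BG.left (h : BG L L' S y X X') (hu : u ∈ S) (hD : J1 L y X u D) :
    ∃ D', J1 L' y X' u D' := left_J1 h.dual h.good hu hD h.good'.ker

theorem BG.mv (h : BG L L' S y X X') (hu : u ∈ S) (hD : J1 L y X u D) (hD' : J1 L' y X' u D') :
    ∀ᶠ t in cofinite, BG L L' S (R2.mv y u t) (X + t • D) (X' + t • D') := by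
  filter_upwards [h.pt.mv hu hD, h.symm.pt.mv hu hD'] with t h1 h2
  exact ⟨h.dual, h1.good, h2.good⟩

theorem BG.sing' (h : BG L L' S y X X') (hs : Sing L S y T) (hT : T ⊆ S) (hu : u ∈ S) :
    Sing L' S y T := h.pt.left hs hT ⟨u, hu⟩

theorem BG.theta (h : BG L L' S y X X') (hu : u ∈ S) (hD : J1 L y X u D) :
    ∃ θ : ℚ, θ ≠ 0 ∧ X' u = θ • X u := by
  obtain ⟨θ, hθ⟩ := par_of_om (h.good.ne u hu) (hD.fo h.dual h.good'.ker)
  exact ⟨θ, fun h0 => h.good'.ne u hu (by simp [hθ, h0]), hθ⟩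

theorem J1.pair (hd : Dual L L') (ha : J1 L y X a Da) (hb : J1 L' y X' b Db) :
    om (Da b) (X' b) = om (X a) (Db a) := by
  simpa using hd.orth ha.rel hb.rel

theorem BG.adj_left (h : BG L L' S y X X') (ha : a ∈ S) (hb : b ∈ S) (hs : Sing L S y T)
    (haT : a ∈ T) (hbT : b ∈ T) (hadj : Adj L y a b) : Adj L' y b a := by
  obtain ⟨Da, hDa⟩ := h.pt.j1 ha hs haT
  obtain ⟨Db, hDb⟩ := h.pt.j1 hb hs hbT
  obtain ⟨Da', hDa'⟩ := h.left ha hDa
  obtain ⟨θ, h0, hθ⟩ := h.theta ha hDa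
  obtain ⟨θ', h0', hθ'⟩ := h.theta hb hDb
  rw [adj_iff h.good ha hb hDb] at hadj
  rw [adj_iff h.good' hb ha hDa', hθ', om_smul_left, ← hDb.pair h.dual hDa', hθ, om_smul_right,
    om_comm]
  simp [h0, h0', hadj]

/-- The jets of the two kernels in direction `j` differ at `k`. -/
def Tw (L L' : Rel ι) (y : ι → ℚ) (j k : ι) : Prop :=
  ∃ X X' D D', R L y X 0 ∧ R L' y X' 0 ∧ J1 L y X j D ∧ J1 L' y X' j D' ∧
    ∃ p q, om p (X k) * om q (D' k) ≠ om p (X' k) * om q (D k)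

omit [Fintype ι] in
theorem Tw.symm (h : Tw L L' y j k) : Tw L' L y j k := by
  obtain ⟨X, X', D, D', h1, h2, h3, h4, p, q, h5⟩ := h
  exact ⟨X', X, D', D, h2, h1, h4, h3, p, q, h5.symm⟩

omit [Fintype ι] in
theorem J1.scale (hg : Good L S y X) (hj : j ∈ S) (hD : J1 L y X j D) {X0 D0 : Vec ι}
    (h1 : R L y X0 0) (h2 : J1 L y X0 j D0) :
    ∃ s : ℚ, ∀ i ∈ S, X0 i = s • X i ∧ D0 i = s • D i := by
  obtain ⟨s, hs⟩ := hg.uniq _ h1
  refine ⟨s, fun i hi => ⟨hs i hi, sub_eq_zero.1 ?_⟩⟩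
  exact hg.vanish ((h2.rel.sub (hD.rel.smul s)).cast (by simp [hs j hj, sg_smul])) hj
    (by simp [h2.zero, hD.zero]) i hi

theorem BG.tw_iff (h : BG L L' S y X X') (hj : j ∈ S) (hk : k ∈ S) (hD : J1 L y X j D)
    (hD' : J1 L' y X' j D') {θ : ℚ} (hθ : X' k = θ • X k) : Tw L L' y j k ↔ D' k ≠ θ • D k := by
  constructor
  · rintro ⟨X0, X0', D0, D0', h1, h2, h3, h4, p, q, h5⟩ h6
    obtain ⟨s, hs⟩ := hD.scale h.good hj h1 h3
    obtain ⟨s', hs'⟩ := hD'.scale h.good' hj h2 h4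
    refine h5 ?_
    simp only [hs k hk, hs' k hk, h6, hθ, om_smul_right]
    ring
  · intro h6
    obtain ⟨p, hp⟩ := exists_om_ne (h.good.ne k hk)
    obtain ⟨q, hq⟩ := exists_om_ne (sub_ne_zero.2 h6)
    refine ⟨X, X', D, D', h.good.ker, h.good'.ker, hD, hD', p, q, fun h7 => mul_ne_zero hp hq ?_⟩
    simp only [hθ, om_smul_right, om_sub_right] at h7 ⊢
    linear_combination h7

theorem BG.tw_mv (h : BG L L' S y X X') (hu : u ∈ S) (hj : j ∈ S) (hs : Sing L S y {u, j})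
    (htw : Tw L L' y j k) (hk : k ∈ S) : ∀ᶠ t in cofinite, Tw L L' (R2.mv y u t) j k := by
  have hs' := h.sing' hs (by simp [Finset.insert_subset_iff, hu, hj]) hu
  obtain ⟨Du, hDu⟩ := h.pt.j1 hu hs (by simp)
  obtain ⟨Dj, hDj⟩ := h.pt.j1 hj hs (by simp)
  obtain ⟨E, hE⟩ := h.pt.j2 hu hj hs (by simp) (by simp) hDu hDj
  obtain ⟨Du', hDu'⟩ := h.left hu hDu
  obtain ⟨Dj', hDj'⟩ := h.left hj hDj
  obtain ⟨E', hE'⟩ := h.symm.pt.j2 hu hj hs' (by simp) (by simp) hDu' hDj'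
  obtain ⟨X0, X0', D0, D0', h1, h2, h3, h4, p, q, h5⟩ := htw
  obtain ⟨s, hs⟩ := hDj.scale h.good hj h1 h3
  obtain ⟨s', hs'⟩ := hDj'.scale h.good' hj h2 h4
  have h6 : om p (X k) * om q (Dj' k) - om p (X' k) * om q (Dj k) ≠ 0 := fun h7 => h5 (by
    simp only [hs k hk, hs' k hk, om_smul_right]
    linear_combination s * s' * h7)
  refine (ev_quad (om p (X k) * om q (E' k) + om p (Du k) * om q (Dj' k) -
    om p (X' k) * om q (E k) - om p (Du' k) * om q (Dj k))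
    (om p (Du k) * om q (E' k) - om p (Du' k) * om q (E k)) h6).mono fun t ht =>
    ⟨_, _, _, _, hDu.ker h.good.ker t, hDu'.ker h.good'.ker t, hDj.shift hE t, hDj'.shift hE' t,
      p, q, fun h7 => ht ?_⟩
  simp only [Pi.add_apply, Pi.smul_apply, om_add_right, om_smul_right] at h7
  linear_combination h7

theorem BG.adj_untw (h : BG L L' S y X X') (hj : j ∈ S) (hk : k ∈ S) (hs : Sing L S y T)
    (hjT : j ∈ T) (hkT : k ∈ T) (hadj : Adj L y k j) : ¬ Tw L L' y j k := by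
  obtain ⟨Dj, hDj⟩ := h.pt.j1 hj hs hjT
  obtain ⟨Dk, hDk⟩ := h.pt.j1 hk hs hkT
  obtain ⟨E, hE⟩ := h.pt.j2 hj hk hs hjT hkT hDj hDk
  obtain ⟨Dj', hDj'⟩ := h.left hj hDj
  obtain ⟨θ, -, hθ⟩ := h.theta hk hDk
  rw [h.tw_iff hj hk hDj hDj' hθ, not_not]
  rw [adj_iff h.good hk hj hDj] at hadj
  have e1 := h.dual.orth hE.rel hDj'.rel
  have e2 := hDk.pair h.dual hDj'
  have e3 := hE.rel0 h.dual h.good'.ker
  simp only [Bf_sg_right, hE.za, om_zero_left, Bf_add_left, Bf_sg_left, hDj'.zero, om_zero_right,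
    zero_add] at e1
  rw [hθ, om_smul_right, om_comm (Dj k)] at e3
  refine sub_eq_zero.1 (eq_zero_of_om hadj ?_ ?_)
  · rw [om_sub_left, om_smul_left, om_comm (Dj' k), om_comm (Dj k)]
    linear_combination e2 - e3
  · rw [om_sub_left, om_smul_left, om_comm (Dj' k), om_self]
    linear_combination e1

end Pool.Agent.P.MP_08e617_lc.R2
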