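import Pool.Agent.P.MP_08e617_lc.R2E

/-! A twisted pair with two common neighbours. -/

namespace Pool.Agent.P.MP_08e617_lc.R2

open Filter Function

variable {ι : Type} [Fintype ι] [DecidableEq ι]

variable {L L' : Rel ι} {S T C U : Finset ι} {y z w : ι → ℚ}
  {X X' Y D D' Dj Dk Dj' Dk' Dr E : Vec ι} {u i j k l a b r r' : ι} {α γ α' γ' : ℚ}

omit [Fintype ι] in
theorem e_par (hX : R L y X 0) (hr : J1 L y X r Dr) (hj : J1 L y X j Dj) (hE : J2 L y r j Dr Dj E)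
    (h : ∀ᶠ t in cofinite, ¬ Adj L (mv y r t) k j) (hα : Dj k = α • X k)
    (hadj : om (X k) (Dr k) ≠ 0) : E k = α • Dr k := by
  obtain ⟨-, e2, e3⟩ := nadj_coef hX hr hj hE h
  rw [hα, om_smul_right] at e2
  refine sub_eq_zero.1 (eq_zero_of_om hadj ?_ ?_)
  · rw [om_sub_left, om_smul_left, om_comm (E k)]
    linear_combination -e2
  · rw [om_sub_left, om_smul_left, om_comm (E k), om_self]
    linear_combination -e3

/-- The first order data of a twisted pair. -/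
structure TwD (L L' : Rel ι) (y : ι → ℚ) (X X' : Vec ι) (j k : ι) (Dj Dk Dj' Dk' : Vec ι)
    (α γ α' γ' : ℚ) : Prop where
  j1 : J1 L y X j Dj
  k1 : J1 L y X k Dk
  j1' : J1 L' y X' j Dj'
  k1' : J1 L' y X' k Dk'
  ea : Dj k = α • X k
  eg : Dk j = γ • X j
  ea' : Dj' k = α' • X' k
  eg' : Dk' j = γ' • X' j
  ne : α ≠ α'

theorem BG.twD (h : BG L L' S y X X') (hj : j ∈ S) (hk : k ∈ S) (hs : Sing L S y T) (hT : T ⊆ S)
    (hjT : j ∈ T) (hkT : k ∈ T) (htw : Tw L L' y j k) :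
    ∃ Dj Dk Dj' Dk' α γ α' γ', TwD L L' y X X' j k Dj Dk Dj' Dk' α γ α' γ' := by
  obtain ⟨Dj, hDj⟩ := h.pt.j1 hj hs hjT
  obtain ⟨Dk, hDk⟩ := h.pt.j1 hk hs hkT
  obtain ⟨Dj', hDj'⟩ := h.left hj hDj
  obtain ⟨Dk', hDk'⟩ := h.left hk hDk
  have n1 := h.tw_nadj hj hk hs hjT hkT htw
  have n2 := h.symm.tw_nadj hj hk (h.sing' hs hT hj) hjT hkT htw.symm
  obtain ⟨α, hα⟩ := nadj_par h.good hk hDj n1.1
  obtain ⟨γ, hγ⟩ := nadj_par h.good hj hDk n1.2
  obtain ⟨α', hα'⟩ := nadj_par h.good' hk hDj' n2.1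
  obtain ⟨γ', hγ'⟩ := nadj_par h.good' hj hDk' n2.2
  obtain ⟨θ, -, hθ⟩ := h.theta hk hDk
  refine ⟨_, _, _, _, _, _, _, _, hDj, hDk, hDj', hDk', hα, hγ, hα', hγ', ?_⟩
  rintro rfl
  rw [h.tw_iff hj hk hDj hDj' hθ, hα, hα', hθ, smul_comm] at htw
  exact htw rfl

theorem BG.star (h : BG L L' S y X X') (hj : j ∈ S) (hk : k ∈ S) (hr : r ∈ S)
    (hs : Sing L S y {r, j, k}) (htw : Tw L L' y j k) (hrj : Adj L y r j) (hrk : Adj L y r k)
    (d : TwD L L' y X X' j k Dj Dk Dj' Dk' α γ α' γ') :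
    ∃ Dr Dr' Ej Ek Ej' Ek', J1 L y X r Dr ∧ J1 L' y X' r Dr' ∧ J2 L y r j Dr Dj Ej ∧
      J2 L y r k Dr Dk Ek ∧ J2 L' y r j Dr' Dj' Ej' ∧ J2 L' y r k Dr' Dk' Ek' ∧
      Ej k = α • Dr k ∧ Ek j = γ • Dr j ∧ Ej' k = α' • Dr' k ∧ Ek' j = γ' • Dr' j ∧
      (γ' - γ) • Dj' r + (α' - α) • Dk' r + (α * γ - α' * γ') • X' r = 0 ∧
      om (Dj r - α • X r) (Dk r - γ • X r) ≠ 0 ∧ γ ≠ γ' ∧ om (X' j) (Dr' j) ≠ 0 ∧
      om (X' k) (Dr' k) ≠ 0 := by
  have hT : {r, j, k} ⊆ S := by simp [Finset.insert_subset_iff, hr, hj, hk]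
  have hs' := h.sing' hs hT hr
  obtain ⟨Dr, hDr⟩ := h.pt.j1 hr hs (by simp)
  obtain ⟨Dr', hDr'⟩ := h.left hr hDr
  obtain ⟨Ej, hEj⟩ := h.pt.j2 hr hj hs (by simp) (by simp) hDr d.j1
  obtain ⟨Ek, hEk⟩ := h.pt.j2 hr hk hs (by simp) (by simp) hDr d.k1
  obtain ⟨Ej', hEj'⟩ := h.symm.pt.j2 hr hj hs' (by simp) (by simp) hDr' d.j1'
  obtain ⟨Ek', hEk'⟩ := h.symm.pt.j2 hr hk hs' (by simp) (by simp) hDr' d.k1'
  have n1 := h.tw_nadj_mv hr hj hk hs (by simp) (by simp) (by simp) htw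
  have n2 := h.symm.tw_nadj_mv hr hj hk hs' (by simp) (by simp) (by simp) htw.symm
  have a1 := (adj_iff h.good hj hr hDr).1 (h.pt.adj_symm hr hj hs (by simp) (by simp) hrj)
  have a2 := (adj_iff h.good hk hr hDr).1 (h.pt.adj_symm hr hk hs (by simp) (by simp) hrk)
  have a3 := (adj_iff h.good' hj hr hDr').1 (h.adj_left hr hj hs (by simp) (by simp) hrj)
  have a4 := (adj_iff h.good' hk hr hDr').1 (h.adj_left hr hk hs (by simp) (by simp) hrk)
  have e1 := e_par h.good.ker hDr d.j1 hEj n1.1 d.ea a2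
  have e2 := e_par h.good.ker hDr d.k1 hEk n1.2 d.eg a1
  have e3 := e_par h.good'.ker hDr' d.j1' hEj' n2.1 d.ea' a4
  have e4 := e_par h.good'.ker hDr' d.k1' hEk' n2.2 d.eg' a3
  obtain ⟨θ, hθ0, hθ⟩ := h.theta hr hDr
  have u1 := h.adj_untw hj hr hs (by simp) (by simp) hrj
  have u2 := h.adj_untw hk hr hs (by simp) (by simp) hrk
  rw [h.tw_iff hj hr d.j1 d.j1' hθ, not_not] at u1
  rw [h.tw_iff hk hr d.k1 d.k1' hθ, not_not] at u2
  rw [adj_iff h.good hr hj d.j1] at hrj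
  rw [adj_iff h.good hr hk d.k1] at hrk
  have p1 := h.dual.orth hEj.rel d.k1'.rel
  have p2 := h.dual.orth hEk.rel d.j1'.rel
  have p3 := hEj.rel0 h.dual h.good'.ker
  have p4 := hEk.rel0 h.dual h.good'.ker
  simp only [Bf_sg_right, Bf_add_left, Bf_sg_left, e1, e2, u1, u2, d.eg', d.ea', hθ, om_smul_left,
    om_smul_right, om_comm (Dk r) (Dj r), om_comm (Dj r) (X r), om_comm (Dk r) (X r)] at p1 p2 p3 p4
  have q1 : om (Dj r) (Dk r) = α * om (X r) (Dk r) - γ' * om (X r) (Dj r) :=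
    mul_left_cancel₀ hθ0 (by linear_combination -p1 + α * p4 - γ' * p3)
  have q2 : om (Dj r) (Dk r) = α' * om (X r) (Dk r) - γ * om (X r) (Dj r) :=
    mul_left_cancel₀ hθ0 (by linear_combination p2 + α' * p4 - γ * p3)
  have hne := sub_ne_zero.2 d.ne
  refine ⟨Dr, Dr', Ej, Ek, Ej', Ek', hDr, hDr', hEj, hEk, hEj', hEk', e1, e2, e3, e4,
    eq_zero_of_om hrj ?_ ?_, fun h0 => mul_ne_zero hne hrk ?_, fun h0 => mul_ne_zero hne hrk ?_,
    a3, a4⟩
  · simp only [u1, u2, hθ, om_add_left, om_smul_left, om_self, om_comm (Dj r) (X r),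
      om_comm (Dk r) (X r)]
    linear_combination θ * (q2 - q1)
  · simp only [u1, u2, hθ, om_add_left, om_smul_left, om_self, om_comm (Dk r) (Dj r)]
    linear_combination θ * (α * q2 - α' * q1)
  · simp only [om_sub_left, om_sub_right, om_smul_left, om_smul_right, om_self,
      om_comm (Dj r) (X r)] at h0
    linear_combination q2 - h0
  · rw [h0] at q2
    linear_combination q2 - q1

omit [Fintype ι] in
theorem R.mv_zero {d : Vec ι} (h : R L y Y d) (h0 : Y u = 0) (t : ℚ) : R L (mv y u t) Y d := by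
  rw [R_mv]; simpa [h0] using h

theorem pairY (hd : Dual L L') (hX : R L w X 0) (hD : J1 L w X j D) {c1 c2 : ℚ} {p q : V2}
    (hY : R L' w Y (c1 • sg j p + c2 • sg k q)) (hYj : Y j = (-α * c1) • p) (hc : c2 ≠ 0) :
    om (D k - α • X k) q = 0 := by
  have := hd.orth (hD.rel.sub (hX.smul α)) hY
  simp only [Bf_add_right, Bf_smul_right, Bf_sg_right, smul_zero, sub_zero, Bf_sg_left, hYj,
    Pi.sub_apply, Pi.smul_apply, hD.zero, zero_sub, om_neg_left, om_smul_left, om_smul_right] at this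
  exact mul_left_cancel₀ hc (by linear_combination this)

omit [Fintype ι] in
theorem sing_pair (hX : R L w X 0) (hj : j ∈ S) (hk : k ∈ S) (hne : X k ≠ 0) (h1 : J1 L w X j Dj)
    (h2 : J1 L w X k Dk) (e1 : Dj k = α • X k) (e2 : Dk j = γ • X j) : Sing L S w {j, k} := by
  have hE := J2_explicit hX h1 h2 e2 e1
  refine Sing.of_ev hj ((ev_vec (Dj k) hne).mono fun s hs => ?_)
  refine Sing.of_ev (T := ∅) hk (Eventually.of_forall fun t => Kn.sing
    ⟨_, (h2.shift hE s).ker (h1.ker hX s) t, k, hk, ?_⟩)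
  simpa [h2.zero, hE.zb] using hs

theorem fourB_loc (h : BG L L' S y X X') (hj : j ∈ S) (hk : k ∈ S) (hr : r ∈ S) (hr' : r' ∈ S)
    (s1 : Sing L S y {r, j, k}) (s2 : Sing L S y {r', j, k}) (s3 : Sing L S y {r, r', j})
    (s4 : Sing L S y {r, r', k}) (htw : Tw L L' y j k) (hrj : Adj L y r j) (hrk : Adj L y r k)
    (hrj' : Adj L y r' j) (hrk' : Adj L y r' k) : Sing L S y {r, r', j, k} := by
  obtain ⟨Dj, Dk, Dj', Dk', α, γ, α', γ', d⟩ := h.twD hj hk s1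
    (by simp [Finset.insert_subset_iff, hr, hj, hk]) (by simp) (by simp) htw
  obtain ⟨Dr, Dr', -, -, Ej', Ek', hDr, hDr', -, -, hEj', hEk', -, -, e3, e4, z1, -, hγ, a3, a4⟩ :=
    h.star hj hk hr s1 htw hrj hrk d
  obtain ⟨Ds, -, Fj, Fk, -, -, hDs, -, hFj, hFk, -, -, f1, f2, -, -, z2, nd, -⟩ :=
    h.star hj hk hr' s2 htw hrj' hrk' d
  have hα := sub_ne_zero.2 d.ne.symm
  have hγ' := sub_ne_zero.2 hγ.symm
  set Y0 := (γ' - γ) • Dj' + (α' - α) • Dk' + (α * γ - α' * γ') • X' with hY0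
  set Y1 := (γ' - γ) • Ej' + (α' - α) • Ek' + (α * γ - α' * γ') • Dr' with hY1
  have r0 : R L' y Y0 ((γ' - γ) • sg j (X' j) + (α' - α) • sg k (X' k)) :=
    (((d.j1'.rel.smul _).add (d.k1'.rel.smul _)).add (h.good'.ker.smul _)).cast (by simp)
  have r1 : R L' y Y1 ((γ' - γ) • sg j (Dr' j) + (α' - α) • sg k (Dr' k)) := by
    refine (((hEj'.rel.smul _).add (hEk'.rel.smul _)).add (hDr'.rel.smul _)).cast ?_
    have := congrArg (sg r) z1
    simp only [sg_add, sg_smul, sg_zero] at this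
    linear_combination (norm := module) this
  have v0j : Y0 j = (-α * (γ' - γ)) • X' j := by
    simp only [hY0, Pi.add_apply, Pi.smul_apply, d.j1'.zero, d.eg']; module
  have v0k : Y0 k = (-γ * (α' - α)) • X' k := by
    simp only [hY0, Pi.add_apply, Pi.smul_apply, d.k1'.zero, d.ea']; module
  have v1j : Y1 j = (-α * (γ' - γ)) • Dr' j := by
    simp only [hY1, Pi.add_apply, Pi.smul_apply, hEj'.zb, e4]; module
  have v1k : Y1 k = (-γ * (α' - α)) • Dr' k := by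
    simp only [hY1, Pi.add_apply, Pi.smul_apply, hEk'.zb, e3]; module
  have v1r : Y1 r = 0 := by simp [hY1, hEj'.za, hEk'.za, hDr'.zero]
  have v1s : Y1 r' = 0 := by
    have p1 := h.dual.orth (hFj.rel.sub (hDs.rel.smul α)) r1
    have p2 := h.dual.orth (hFk.rel.sub (hDs.rel.smul γ)) r1
    simp only [sub_eq_add_neg _ (_ • sg r' _), ← neg_smul, Bf_add_right, Bf_smul_right,
      Bf_sg_right, Bf_add_left, Bf_smul_left, Bf_sg_left, v1j, v1k, Pi.sub_apply, Pi.smul_apply,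
      hFj.zb, hFk.zb, f1, f2, sub_self, zero_sub, om_zero_left, om_smul_left,
      om_smul_right] at p1 p2
    refine eq_zero_of_om nd ?_ ?_
    · rw [om_comm, om_sub_left, om_smul_left]; linear_combination p1
    · rw [om_comm, om_sub_left, om_smul_left]; linear_combination p2
  refine Sing.of_ev hr ((h.pt.mv hr hDr).mono fun s hp => ?_)
  obtain ⟨D1, hD1⟩ := hp.j1 hr' (s3.mv subset_rfl (by simp) s) (by simp)
  refine Sing.of_ev hr' ((hp.mv hr' hD1).mono fun t hq => ?_)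
  obtain ⟨A, hA⟩ := hq.j1 hj ((s3.mv subset_rfl (by simp) s).mv subset_rfl (by simp) t) (by simp)
  obtain ⟨B, hB⟩ := hq.j1 hk ((s4.mv subset_rfl (by simp) s).mv subset_rfl (by simp) t) (by simp)
  have w0 := (r0.mv_zero (u := r) z1 s).mv_zero (u := r') z2 t
  have w1 := (r1.mv_zero v1r s).mv_zero v1s t
  refine sing_pair (α := α) (γ := γ) hq.good.ker hj hk (hq.good.ne k hk) hA hB
    (sub_eq_zero.1 (eq_zero_of_om a4 ?_ ?_)) (sub_eq_zero.1 (eq_zero_of_om a3 ?_ ?_))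
  · exact pairY h.dual hq.good.ker hA w0 v0j hα
  · exact pairY h.dual hq.good.ker hA w1 v1j hα
  · exact pairY h.dual hq.good.ker hB (w0.cast (add_comm _ _)) v0k hγ'
  · exact pairY h.dual hq.good.ker hB (w1.cast (add_comm _ _)) v1k hγ'

omit [Fintype ι] [DecidableEq ι] in
theorem ssub_of (hT : T ⊆ U) (hi : i ∈ U) (hi' : i ∉ T) : T ⊂ U :=
  (Finset.ssubset_iff_of_subset hT).2 ⟨i, hi, hi'⟩

theorem fourB (h : BG L L' S y X X') (hj : j ∈ S) (hk : k ∈ S) (hr : r ∈ S) (hr' : r' ∈ S)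
    (htw : Tw L L' y j k) (hrj : Adj L y r j) (hrk : Adj L y r k) (hrj' : Adj L y r' j)
    (hrk' : Adj L y r' k) (n1 : r ≠ r') (n2 : r ≠ j) (n3 : r ≠ k) (n4 : r' ≠ j) (n5 : r' ≠ k)
    (hs : ∀ T ⊂ S, Sing L S y T) : Sing L S y S := by
  have n6 := htw.ne
  refine extend (U := {r, r', j, k}) h (by simp [Finset.insert_subset_iff, *]) hs
    (Finset.one_lt_card.2 ⟨j, by simp, k, by simp, n6⟩)
    (fun z => Tw L L' z j k ∧ Adj L z r j ∧ Adj L z r k ∧ Adj L z r' j ∧ Adj L z r' k)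
    ⟨htw, hrj, hrk, hrj', hrk'⟩ ?_ ?_
  · rintro z Z Z' h1 u hu h2 ⟨h3, h4, h5, h6, h7⟩
    have sj := h2 j (by simp)
    have sk := h2 k (by simp)
    exact (h1.tw_mv hu hj sj h3 hk).and ((h1.pt.adj_mv hu hr hj sj (by simp) (by simp) h4).and
      ((h1.pt.adj_mv hu hr hk sk (by simp) (by simp) h5).and
      ((h1.pt.adj_mv hu hr' hj sj (by simp) (by simp) h6).and
      (h1.pt.adj_mv hu hr' hk sk (by simp) (by simp) h7))))
  · rintro z Z Z' h1 h2 ⟨h3, h4, h5, h6, h7⟩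
    refine fourB_loc h1 (by simp) (by simp) (by simp) (by simp) (h2 _ (ssub_of (i := r') ?_ ?_ ?_))
      (h2 _ (ssub_of (i := r) ?_ ?_ ?_)) (h2 _ (ssub_of (i := k) ?_ ?_ ?_))
      (h2 _ (ssub_of (i := j) ?_ ?_ ?_)) h3 h4 h5 h6 h7 <;>
    simp [Finset.insert_subset_iff, n1, n2, n3, n4, n5, n6, n1.symm, n2.symm, n3.symm, n4.symm,
      n5.symm, n6.symm]

end Pool.Agent.P.MP_08e617_lc.R2
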