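import Pool.Agent.P.MP_08e617_lc.R2G
import Pool.Agent.P.MP_08e617_lc.Alg

/-! Pencils of linear maps with coefficients of rank at most two. -/

namespace Pool.Agent.P.MP_08e617_lc.R2

open Filter Function Module

variable {V : Type} [AddCommGroup V] [Module ℚ V] [FiniteDimensional ℚ V] {K : ℕ}

/-- The value of a pencil. -/
def pm (A0 : V →ₗ[ℚ] V) (A : ℕ → V →ₗ[ℚ] V) (y : Fin K → ℚ) : V →ₗ[ℚ] V :=
  A0 + ∑ i : Fin K, y i • A i

omit [FiniteDimensional ℚ V] in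
theorem pm_apply (A0 : V →ₗ[ℚ] V) (A : ℕ → V →ₗ[ℚ] V) (y : Fin K → ℚ) (x : V) :
    pm A0 A y x = A0 x + ∑ i : Fin K, y i • A i x := by
  simp [pm, LinearMap.sum_apply]

omit [FiniteDimensional ℚ V] in
theorem pm_mv (A0 : V →ₗ[ℚ] V) (A : ℕ → V →ₗ[ℚ] V) (y : Fin K → ℚ) (u : Fin K) (t : ℚ) :
    pm A0 A (mv y u t) = pm A0 A y + t • A u := by
  have : ∀ i, mv y u t i • A i = y i • A i + if i = u then t • A u else 0 := fun i => by
    by_cases h : i = u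
    · subst h; simp [mv_same, add_smul]
    · simp [mv_ne _ _ h, h]
  simp [pm, this, Finset.sum_add_distrib, add_assoc]

theorem factor (A : V →ₗ[ℚ] V) (h : finrank ℚ (LinearMap.range A) ≤ 2) :
    ∃ (P : V →ₗ[ℚ] V2) (U : V2 →ₗ[ℚ] V), (∀ x, U (P x) = A x) ∧ (∀ x, P x = 0 ↔ A x = 0) ∧
      ∀ g, ∃ x, U g = A x := by
  obtain ⟨e, he⟩ := (finrank_le_iff_exists_linearMap (R := ℚ) (M := LinearMap.range A)
    (M' := V2)).1 (by simpa using h)
  obtain ⟨p, hp⟩ := LinearMap.exists_leftInverse_of_injective e (LinearMap.ker_eq_bot.2 he)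
  refine ⟨e ∘ₗ A.rangeRestrict, (LinearMap.range A).subtype ∘ₗ p, fun x => ?_, fun x => ?_,
    fun g => ?_⟩
  · have := congrArg (fun f => (f (A.rangeRestrict x) : V)) hp
    simpa using this
  · rw [LinearMap.comp_apply, map_eq_zero_iff e he, Subtype.ext_iff]; rfl
  · obtain ⟨x, hx⟩ := (p g).2
    exact ⟨x, hx.symm⟩

/-- The affine part of the potentials. -/
def fE (M B : V →ₗ[ℚ] V) (b : ℕ) : V × V →ₗ[ℚ] V × V :=
  ((b : ℚ) • M ∘ₗ LinearMap.fst ℚ V V).prod (B ∘ₗ LinearMap.fst ℚ V V + M ∘ₗ LinearMap.snd ℚ V V)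

/-- The constant constraints of the potentials. -/
def Wc (A : ℕ → V →ₗ[ℚ] V) (J : Finset ℕ) (c l : ℕ) : Submodule ℚ (V × V) where
  carrier := {p | (c : ℚ) • p.1 = 0 ∧ (∀ i ∈ J, A i p.2 = 0) ∧ A l p.2 = 0}
  add_mem' := fun ha hb => ⟨by simp [ha.1, hb.1], fun i hi => by simp [ha.2.1 i hi, hb.2.1 i hi],
    by simp [ha.2.2, hb.2.2]⟩
  zero_mem' := by simp
  smul_mem' := fun s p ha => ⟨by simp [smul_comm _ s, ha.1], fun i hi => by simp [ha.2.1 i hi],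
    by simp [ha.2.2]⟩

/-- The solution spaces whose dimensions are the potentials. -/
def Sol (M : V →ₗ[ℚ] V) (A : ℕ → V →ₗ[ℚ] V) (J : Finset ℕ) (b j c l : ℕ) : Submodule ℚ (V × V) :=
  LinearMap.ker (fE M (A j) b) ⊓ Wc A J c l

omit [FiniteDimensional ℚ V] in
theorem mem_Sol {M : V →ₗ[ℚ] V} {A : ℕ → V →ₗ[ℚ] V} {J : Finset ℕ} {b j c l : ℕ} {p : V × V} :
    p ∈ Sol M A J b j c l ↔ ((b : ℚ) • M p.1 = 0 ∧ A j p.1 + M p.2 = 0) ∧
      (c : ℚ) • p.1 = 0 ∧ (∀ i ∈ J, A i p.2 = 0) ∧ A l p.2 = 0 := by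
  exact and_congr Prod.ext_iff Iff.rfl

/-- The potentials. -/
noncomputable def kap (A0 : V →ₗ[ℚ] V) (A : ℕ → V →ₗ[ℚ] V) (J : Finset ℕ) (b j c l : ℕ)
    (y : Fin K → ℚ) : ℕ := finrank ℚ (Sol (pm A0 A y) A J b j c l)

variable {A0 : V →ₗ[ℚ] V} {A : ℕ → V →ₗ[ℚ] V} {J : Finset ℕ}

theorem kap_le (b j c l : ℕ) (y : Fin K → ℚ) : kap A0 A J b j c l y ≤ 2 * finrank ℚ V := by
  have := Submodule.finrank_le (Sol (pm A0 A y) A J b j c l)
  rw [finrank_prod] at this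
  unfold kap; omega

theorem kap_sc (b j c l : ℕ) (z : Fin K → ℚ) (u : Fin K) : ∃ bad : Finset ℚ,
    bad.card ≤ 2 * finrank ℚ V ∧ ∀ t ∉ bad, kap A0 A J b j c l (mv z u t) ≤ kap A0 A J b j c l z := by
  have key : ∀ S : Finset ℚ, (∀ t ∈ S, kap A0 A J b j c l z < kap A0 A J b j c l (mv z u t)) →
      S.card ≤ 2 * finrank ℚ V := fun S hS => by
    have := card_bad_le ((fE (pm A0 A z) (A j) b).prod (Wc A J c l).mkQ)
      ((fE (A u) 0 b).prod 0) S fun t ht => by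
        have e : (fE (pm A0 A z) (A j) b).prod (Wc A J c l).mkQ + t • (fE (A u) 0 b).prod 0 =
            (fE (pm A0 A (mv z u t)) (A j) b).prod (Wc A J c l).mkQ := by
          refine LinearMap.ext fun p => ?_
          simp [fE, pm_mv, smul_comm t, add_assoc]
        rw [e, LinearMap.ker_prod, LinearMap.ker_prod, Submodule.ker_mkQ]
        exact hS t ht
    rw [finrank_prod] at this
    omega
  have hfin : {t | kap A0 A J b j c l z < kap A0 A J b j c l (mv z u t)}.Finite := by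
    by_contra h
    obtain ⟨S, hS, hc⟩ := Set.Infinite.exists_subset_card_eq h (2 * finrank ℚ V + 1)
    have := key S fun t ht => hS ht
    omega
  exact ⟨hfin.toFinset, key _ fun t ht => by simpa using ht, fun t ht => by simpa using ht⟩

theorem bad_union {Q : Type} (s : Finset Q) (N : ℕ) (P : Q → ℚ → Prop)
    (h : ∀ q ∈ s, ∃ bad : Finset ℚ, bad.card ≤ N ∧ ∀ t ∉ bad, P q t) :
    ∃ bad : Finset ℚ, bad.card ≤ s.card * N ∧ ∀ t ∉ bad, ∀ q ∈ s, P q t := by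
  choose! f h1 h2 using h
  refine ⟨s.biUnion f, Finset.card_biUnion_le_card_mul _ _ _ h1, fun t ht q hq => h2 q hq t ?_⟩
  exact fun h => ht (Finset.mem_biUnion.2 ⟨q, hq, h⟩)

omit [FiniteDimensional ℚ V] in
theorem kap_one (hK : A K = 0) (l : ℕ) (y : Fin K → ℚ) : kap A0 A ∅ 0 K 1 l y =
    finrank ℚ ↥(LinearMap.ker (pm A0 A y) ⊓ LinearMap.ker (A l)) := by
  rw [kap, ← LinearEquiv.finrank_eq (Submodule.equivMapOfInjective (LinearMap.inr ℚ V V)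
    LinearMap.inr_injective _).symm]
  refine congrArg (fun W : Submodule ℚ (V × V) => finrank ℚ W) ?_
  ext ⟨p, q⟩
  simp only [mem_Sol, hK, Submodule.mem_map, Submodule.mem_inf, LinearMap.mem_ker,
    LinearMap.inr_apply, Prod.mk.injEq]
  constructor
  · rintro ⟨⟨-, h1⟩, h2, -, h3⟩
    exact ⟨q, ⟨by simpa using h1, h3⟩, by simpa [eq_comm] using h2, rfl⟩
  · rintro ⟨x, ⟨h1, h2⟩, rfl, rfl⟩
    simp [h1, h2]

/-- The kernel is spanned by `n`, which is killed exactly by the coefficients in `J`. -/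
structure Cor1 (A0 : V →ₗ[ℚ] V) (A : ℕ → V →ₗ[ℚ] V) (J : Finset ℕ) (z : Fin K → ℚ) (n : V) :
    Prop where
  ker : pm A0 A z n = 0
  ne : n ≠ 0
  uniq : ∀ x, pm A0 A z x = 0 → ∃ s : ℚ, x = s • n
  iff : ∀ i : Fin K, A i n = 0 ↔ i.1 ∈ J
  inJ : ∀ i ∈ J, A i n = 0

theorem exists_cor1 (hK : A K = 0) {z : Fin K → ℚ} (h1 : kap A0 A ∅ 0 K 1 K z = 1)
    (hJ : ∀ i, i ∈ J ↔ i < K ∧ kap A0 A ∅ 0 K 1 i z ≠ 0) : ∃ n, Cor1 A0 A J z n := by
  rw [kap_one hK, hK, LinearMap.ker_zero, inf_top_eq, finrank_eq_one_iff'] at h1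
  obtain ⟨⟨n, hn⟩, hne, hu⟩ := h1
  have hne' : n ≠ 0 := fun h => hne (Subtype.ext h)
  have hu' : ∀ x, pm A0 A z x = 0 → ∃ s : ℚ, x = s • n := fun x hx => by
    obtain ⟨s, hs⟩ := hu ⟨x, hx⟩
    exact ⟨s, (congrArg Subtype.val hs).symm⟩
  have key : ∀ i, kap A0 A ∅ 0 K 1 i z ≠ 0 ↔ A i n = 0 := fun i => by
    rw [kap_one hK, Ne, Submodule.finrank_eq_zero, ← Ne, Submodule.ne_bot_iff]
    refine ⟨fun ⟨x, ⟨h1, h2⟩, h3⟩ => ?_, fun h => ⟨n, ⟨hn, h⟩, hne'⟩⟩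
    obtain ⟨s, rfl⟩ := hu' x h1
    have hs : s ≠ 0 := by rintro rfl; simp at h3
    simpa [hs] using h2
  exact ⟨n, hn, hne', hu', fun i => by simp [hJ, key], fun i hi => (key i).1 ((hJ i).1 hi).2⟩

/-- The linear relation attached to a factored pencil. -/
def relOf (A0 : V →ₗ[ℚ] V) (A : ℕ → V →ₗ[ℚ] V) (J : Finset ℕ) (P : Fin K → V →ₗ[ℚ] V2)
    (U : Fin K → V2 →ₗ[ℚ] V) : Rel (Fin K) where
  carrier := {p | ∃ n, (∀ i ∈ J, A i n = 0) ∧ (p.1 = fun i => P i n) ∧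
    A0 n + ∑ i, U i (p.2 i) = 0}
  add_mem' := by
    rintro p q ⟨n, h1, h2, h3⟩ ⟨m, g1, g2, g3⟩
    refine ⟨n + m, fun i hi => by simp [h1 i hi, g1 i hi], by ext i <;> simp [h2, g2], ?_⟩
    simp only [map_add, Prod.snd_add, Pi.add_apply, Finset.sum_add_distrib]
    linear_combination (norm := abel) h3 + g3
  zero_mem' := ⟨0, by simp, by ext <;> simp, by simp⟩
  smul_mem' := by
    rintro s p ⟨n, h1, h2, h3⟩
    refine ⟨s • n, fun i hi => by simp [h1 i hi], by ext i <;> simp [h2], ?_⟩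
    simp only [map_smul, Prod.smul_snd, Pi.smul_apply, ← Finset.smul_sum, ← smul_add, h3, smul_zero]

/-- The factorization of the coefficients through the plane. -/
structure Fac (A : ℕ → V →ₗ[ℚ] V) (P : Fin K → V →ₗ[ℚ] V2) (U : Fin K → V2 →ₗ[ℚ] V) : Prop where
  up : ∀ i x, U i (P i x) = A i x
  ker : ∀ i x, P i x = 0 ↔ A i x = 0
  ran : ∀ i g, ∃ x, U i g = A i x

variable {P : Fin K → V →ₗ[ℚ] V2} {U : Fin K → V2 →ₗ[ℚ] V}

section
omit [FiniteDimensional ℚ V]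

theorem Fac.R_iff (h : Fac A P U) {y : Fin K → ℚ} {a d : Vec (Fin K)} :
    R (relOf A0 A J P U) y a d ↔ ∃ n, (∀ i ∈ J, A i n = 0) ∧ (a = fun i => P i n) ∧
      (∑ i, U i (d i)) + pm A0 A y n = 0 := by
  refine exists_congr fun n => and_congr_right fun _ => and_congr_right fun h2 => ?_
  have h3 : a = fun i => P i n := h2
  subst h3
  simp only [map_add, map_smul, h.up, Finset.sum_add_distrib, pm_apply, add_left_comm]

theorem Fac.R_zero (h : Fac A P U) {y : Fin K → ℚ} {a : Vec (Fin K)} :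
    R (relOf A0 A J P U) y a 0 ↔ ∃ n, (∀ i ∈ J, A i n = 0) ∧ (a = fun i => P i n) ∧
      pm A0 A y n = 0 := by
  simp [h.R_iff]

theorem Fac.R_sg (h : Fac A P U) {y : Fin K → ℚ} {a : Vec (Fin K)} {j : Fin K} {g : V2} :
    R (relOf A0 A J P U) y a (sg j g) ↔ ∃ n, (∀ i ∈ J, A i n = 0) ∧ (a = fun i => P i n) ∧
      U j g + pm A0 A y n = 0 := by
  have : ∑ i, U i (sg j g i) = U j g := by
    rw [Finset.sum_eq_single j] <;> simp +contextual [sg]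
  rw [h.R_iff, this]

theorem Fac.good (h : Fac A P U) {z : Fin K → ℚ} {n : V} (hn : Cor1 A0 A J z n) :
    Good (relOf A0 A J P U) (Finset.univ.filter fun i : Fin K => i.1 ∉ J) z fun i => P i n := by
  refine ⟨h.R_zero.2 ⟨n, hn.inJ, rfl, hn.ker⟩, fun i hi => ?_, fun a ha => ?_⟩
  · rw [Ne, h.ker, hn.iff]; simpa using hi
  · obtain ⟨x, -, rfl, hx⟩ := h.R_zero.1 ha
    obtain ⟨s, rfl⟩ := hn.uniq x hx
    exact ⟨s, fun i _ => by simp⟩

end

theorem Fac.free_iff (h : Fac A P U) (hK : A K = 0) (z : Fin K → ℚ) (b : Fin K) :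
    Free (relOf A0 A J P U) z b ↔
      finrank ℚ V + kap A0 A J 0 b 1 K z = kap A0 A J 0 b 0 K z := by
  have e := finrank_map_add (LinearMap.fst ℚ V V) (Sol (pm A0 A z) A J 0 b 0 K)
  have e2 : LinearMap.ker (LinearMap.fst ℚ V V) ⊓ Sol (pm A0 A z) A J 0 b 0 K =
      Sol (pm A0 A z) A J 0 b 1 K := by
    ext p; simp only [Submodule.mem_inf, LinearMap.mem_ker, mem_Sol]; simp; tauto
  rw [e2] at e
  rw [kap, kap, ← e, add_left_inj, eq_comm, ← Submodule.eq_top_iff_finrank_eq, eq_top_iff]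
  constructor
  · intro hf m _
    obtain ⟨a, ha⟩ := hf (P b m)
    obtain ⟨n, h1, -, h3⟩ := h.R_sg.1 ha
    exact ⟨(m, n), mem_Sol.2 ⟨⟨by simp, by rwa [h.up] at h3⟩, by simp, h1, by simp [hK]⟩, rfl⟩
  · intro hf g
    obtain ⟨m, hm⟩ := h.ran b g
    obtain ⟨⟨m', n⟩, h1, rfl⟩ := hf (Submodule.mem_top (x := m))
    rw [SetLike.mem_coe, mem_Sol] at h1
    exact ⟨_, h.R_sg.2 ⟨n, h1.2.2.1, rfl, by rw [hm]; exact h1.1.2⟩⟩

theorem Fac.adj_iff (h : Fac A P U) (hK : A K = 0) {z : Fin K → ℚ} {n : V} (hn : Cor1 A0 A J z n)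
    (l j : Fin K) (hl : l.1 ∉ J) : ¬ Adj (relOf A0 A J P U) z l j ↔
      kap A0 A J 1 j 0 K z ≤ kap A0 A J 1 j 0 l z + 1 := by
  have e := finrank_map_add (A l ∘ₗ LinearMap.snd ℚ V V) (Sol (pm A0 A z) A J 1 j 0 K)
  have e2 : LinearMap.ker (A l ∘ₗ LinearMap.snd ℚ V V) ⊓ Sol (pm A0 A z) A J 1 j 0 K =
      Sol (pm A0 A z) A J 1 j 0 l := by
    ext p; simp only [Submodule.mem_inf, LinearMap.mem_ker, mem_Sol, hK]; simp; tauto
  rw [e2] at e
  rw [kap, kap, ← e, add_comm _ 1, add_le_add_iff_right]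
  have hPn : P l n ≠ 0 := by rw [Ne, h.ker, hn.iff]; exact hl
  constructor
  · intro hna
    refine (Submodule.finrank_mono (?_ : _ ≤ ℚ ∙ A l n)).trans
      ((finrank_span_le_card _).trans (by simp))
    rintro _ ⟨⟨n0, n1⟩, h1, rfl⟩
    rw [SetLike.mem_coe, mem_Sol] at h1
    obtain ⟨s, rfl⟩ := hn.uniq n0 (by simpa using h1.1.1)
    rw [Submodule.mem_span_singleton]
    by_cases hs : s = 0
    · obtain ⟨s', rfl⟩ := hn.uniq n1 (by simpa [hs] using h1.1.2)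
      exact ⟨s', by simp⟩
    · have h2 : om (P l (s • n)) (P l n1) = 0 := by_contra fun h2 => hna
        ⟨_, _, h.R_zero.2 ⟨s • n, fun i hi => by simp [hn.inJ i hi], rfl, by simp [hn.ker]⟩,
          h.R_sg.2 ⟨n1, h1.2.2.1, rfl, by rw [h.up]; exact h1.1.2⟩, h2⟩
      obtain ⟨c, hc⟩ := par_of_om hPn (by simpa [hs] using h2)
      exact ⟨c, by simp [← h.up, hc]⟩
  · rintro h1 ⟨X, D, hX, hD, hne⟩
    obtain ⟨n0, g1, rfl, g2⟩ := h.R_zero.1 hX
    obtain ⟨n1, g3, rfl, g4⟩ := h.R_sg.1 hD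
    obtain ⟨⟨v, hv⟩, hv'⟩ := finrank_le_one_iff.1 h1
    obtain ⟨c0, h0⟩ := hv' ⟨A l n0, (0, n0), mem_Sol.2 ⟨by simp [g2], by simp, g1, by simp [hK]⟩, rfl⟩
    obtain ⟨c1, h1⟩ := hv' ⟨A l n1, (n0, n1), mem_Sol.2 ⟨⟨by simp [g2], by rwa [h.up] at g4⟩,
      by simp, g3, by simp [hK]⟩, rfl⟩
    have h0' : c0 • v = A l n0 := congrArg Subtype.val h0
    have h1' : c1 • v = A l n1 := congrArg Subtype.val h1
    have h2 : P l (c1 • n0 - c0 • n1) = 0 := by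
      rw [h.ker, map_sub, map_smul, map_smul, ← h0', ← h1', smul_comm, sub_self]
    have h3 := congrArg (om (P l n0)) h2
    simp only [map_sub, map_smul, om_sub_right, om_smul_right, om_self, om_zero_right, mul_zero,
      zero_sub, neg_eq_zero, mul_eq_zero, hne, or_false] at h3
    rw [h3, zero_smul, eq_comm, ← h.ker] at h0'
    simp [h0'] at hne

end Pool.Agent.P.MP_08e617_lc.R2
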