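import Pool.Agent.P.MP_08e617_lc.R2H

/-! A local minimum of the potential with corank one certifies singularity. -/

namespace Pool.Agent.P.MP_08e617_lc.R2

open Filter Function Module Finset

section lm
variable {ι : Type} [DecidableEq ι]

/-- Grid points within distance `m`. -/
def Ball (m T : ℕ) (y z : ι → ℚ) : Prop :=
  ∃ C : Finset ι, C.card ≤ m ∧ (∀ i ∉ C, z i = y i) ∧ ∀ i ∈ C, ∃ s < T, z i = (s : ℕ)

theorem to_grid {Dom : (ι → ℚ) → (ι → ℚ) → Prop} (rf : ∀ z, Dom z z)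
    (tr : ∀ {a b c}, Dom a b → Dom b c → Dom a c) {T : ℕ}
    (sc : ∀ z u, ∃ bad : Finset ℚ, bad.card < T ∧ ∀ t ∉ bad, Dom (mv z u t) z) (C : Finset ι)
    (z : ι → ℚ) : ∃ z' : ι → ℚ, (∀ i ∉ C, z' i = z i) ∧ (∀ i ∈ C, ∃ s < T, z' i = (s : ℕ)) ∧ Dom z' z := by
  induction C using Finset.induction_on with
  | empty => exact ⟨z, fun _ _ => rfl, by simp, rf z⟩
  | insert u C hu ih =>
    obtain ⟨z', h1, h2, h3⟩ := ih
    obtain ⟨bad, h4, h5⟩ := sc z' u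
    obtain ⟨t, ht, ht'⟩ := Finset.exists_mem_notMem_of_card_lt_card
      (show bad.card < (shifts T (z' u)).card by rwa [card_shifts])
    obtain ⟨s, hs, rfl⟩ := Finset.mem_image.1 ht
    refine ⟨_, fun i hi => ?_, fun i hi => ?_, tr (h5 _ ht') h3⟩
    · rw [Finset.mem_insert, not_or] at hi
      rw [mv_ne _ _ hi.1, h1 i hi.2]
    · by_cases h : i = u
      · subst h
        exact ⟨s, Finset.mem_range.1 hs, by simp [mv_same]⟩
      · rw [mv_ne _ _ h]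
        exact h2 i ((Finset.mem_insert.1 hi).resolve_left h)

theorem nice_step {Dom : (ι → ℚ) → (ι → ℚ) → Prop} (rf : ∀ z, Dom z z)
    (tr : ∀ {a b c}, Dom a b → Dom b c → Dom a c) {T : ℕ}
    (sc : ∀ z u, ∃ bad : Finset ℚ, bad.card < T ∧ ∀ t ∉ bad, Dom (mv z u t) z) {y : ι → ℚ}
    (hmin : ∀ z, Ball 6 T y z → Dom z y → Dom y z) {m : ℕ} {z : ι → ℚ}
    (h : (∃ C : Finset ι, C.card ≤ m ∧ ∀ i ∉ C, z i = y i) ∧ Dom z y ∧ Dom y z) (hm : m < 6)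
    (u : ι) : ∀ᶠ t in cofinite, (∃ C : Finset ι, C.card ≤ m + 1 ∧ ∀ i ∉ C, mv z u t i = y i) ∧
      Dom (mv z u t) y ∧ Dom y (mv z u t) := by
  obtain ⟨⟨C, h1, h2⟩, h3, -⟩ := h
  obtain ⟨bad, -, h5⟩ := sc z u
  refine bad.eventually_cofinite_notMem.mono fun t ht => ?_
  have h6 : (insert u C).card ≤ m + 1 := (Finset.card_insert_le _ _).trans (by omega)
  have h7 : ∀ i ∉ insert u C, mv z u t i = y i := fun i hi => by
    rw [Finset.mem_insert, not_or] at hi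
    rw [mv_ne _ _ hi.1, h2 i hi.2]
  obtain ⟨z', g1, g2, g3⟩ := to_grid rf tr sc (insert u C) (mv z u t)
  have h8 := tr (h5 t ht) h3
  exact ⟨⟨_, h6, h7⟩, h8, tr (hmin z' ⟨_, by omega, fun i hi => (g1 i hi).trans (h7 i hi), g2⟩
    (tr g3 h8)) g3⟩

end lm

variable {V : Type} [AddCommGroup V] [Module ℚ V] [FiniteDimensional ℚ V] {K : ℕ}

/-- The coefficients that kill the kernel. -/
noncomputable def Jset (A0 : V →ₗ[ℚ] V) (A : ℕ → V →ₗ[ℚ] V) (y : Fin K → ℚ) : Finset ℕ :=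
  (range K).filter fun i => kap A0 A ∅ 0 K 1 i y ≠ 0

/-- Indices of the second level potentials. -/
def Qs (K : ℕ) : Finset ((ℕ × ℕ) × ℕ × ℕ) := (range 2 ×ˢ range (K + 1)) ×ˢ range 2 ×ˢ range (K + 1)

/-- The potential. -/
noncomputable def Phi (A0 : V →ₗ[ℚ] V) (A : ℕ → V →ₗ[ℚ] V) (W : ℕ) (y : Fin K → ℚ) : ℕ :=
  W * (W * kap A0 A ∅ 0 K 1 K y + ∑ i ∈ range K, kap A0 A ∅ 0 K 1 i y) +
    ∑ q ∈ Qs K, kap A0 A (Jset A0 A y) q.1.1 q.1.2 q.2.1 q.2.2 y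

variable {A0 : V →ₗ[ℚ] V} {A : ℕ → V →ₗ[ℚ] V} {W T : ℕ}

theorem lex_le {W a b a' b' : ℕ} (h : W * a + b ≤ W * a' + b') (hb : b' < W) : a ≤ a' := by
  by_contra hn
  have := Nat.mul_le_mul_left W (show a' + 1 ≤ a by omega)
  rw [Nat.mul_succ] at this
  omega

theorem card_Qs : (Qs K).card = 4 * (K + 1) ^ 2 := by simp [Qs]; ring

theorem sum2_lt (hW : 8 * (K + 1) ^ 2 * finrank ℚ V < W) (J : Finset ℕ) (y : Fin K → ℚ) :
    ∑ q ∈ Qs K, kap A0 A J q.1.1 q.1.2 q.2.1 q.2.2 y < W := by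
  have := Finset.sum_le_card_nsmul (Qs K) _ _
    fun q _ => kap_le (A0 := A0) (A := A) (J := J) q.1.1 q.1.2 q.2.1 q.2.2 y
  rw [card_Qs, smul_eq_mul] at this
  nlinarith

theorem sum1_lt (hW : 8 * (K + 1) ^ 2 * finrank ℚ V < W) (y : Fin K → ℚ) :
    ∑ i ∈ range K, kap A0 A ∅ 0 K 1 i y < W := by
  have := Finset.sum_le_card_nsmul (range K) _ _
    fun i _ => kap_le (A0 := A0) (A := A) (J := ∅) 0 K 1 i y
  rw [card_range, smul_eq_mul] at this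
  nlinarith [Nat.zero_le (K * K * finrank ℚ V), Nat.zero_le (K * finrank ℚ V)]

theorem phi_k0 (hW : 8 * (K + 1) ^ 2 * finrank ℚ V < W) {y z : Fin K → ℚ}
    (h : Phi A0 A W z ≤ Phi A0 A W y) : kap A0 A ∅ 0 K 1 K z ≤ kap A0 A ∅ 0 K 1 K y :=
  lex_le (lex_le h (sum2_lt hW _ y)) (sum1_lt hW y)

/-- All potentials at `a` are at most those at `b`. -/
def Dom (A0 : V →ₗ[ℚ] V) (A : ℕ → V →ₗ[ℚ] V) (J : Finset ℕ) (a b : Fin K → ℚ) : Prop :=
  (∀ i ∈ range (K + 1), kap A0 A ∅ 0 K 1 i a ≤ kap A0 A ∅ 0 K 1 i b) ∧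
    ∀ q ∈ Qs K, kap A0 A J q.1.1 q.1.2 q.2.1 q.2.2 a ≤ kap A0 A J q.1.1 q.1.2 q.2.1 q.2.2 b

variable {J : Finset ℕ}

omit [FiniteDimensional ℚ V] in
theorem Dom.rf (z : Fin K → ℚ) : Dom A0 A J z z := ⟨fun _ _ => le_rfl, fun _ _ => le_rfl⟩

omit [FiniteDimensional ℚ V] in
theorem Dom.tr {a b c : Fin K → ℚ} (h : Dom A0 A J a b) (h' : Dom A0 A J b c) : Dom A0 A J a c :=
  ⟨fun i hi => (h.1 i hi).trans (h'.1 i hi), fun i hi => (h.2 i hi).trans (h'.2 i hi)⟩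

theorem arith_T {K n T x y : ℕ} (hT : 10 * (K + 1) ^ 2 * n < T) (hx : x ≤ (K + 1) * (2 * n))
    (hy : y ≤ 4 * (K + 1) ^ 2 * (2 * n)) : x + y < T := by
  nlinarith [Nat.zero_le (K * K * n), Nat.zero_le (K * n)]

theorem dom_sc (hT : 10 * (K + 1) ^ 2 * finrank ℚ V < T) (z : Fin K → ℚ) (u : Fin K) :
    ∃ bad : Finset ℚ, bad.card < T ∧ ∀ t ∉ bad, Dom A0 A J (mv z u t) z := by
  obtain ⟨b1, g1, g2⟩ := bad_union (range (K + 1)) _ _ fun i _ =>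
    kap_sc (A0 := A0) (A := A) (J := ∅) 0 K 1 i z u
  obtain ⟨b2, g3, g4⟩ := bad_union (Qs K) _ _ fun q _ =>
    kap_sc (A0 := A0) (A := A) (J := J) q.1.1 q.1.2 q.2.1 q.2.2 z u
  rw [card_range] at g1
  rw [card_Qs] at g3
  refine ⟨b1 ∪ b2, (Finset.card_union_le b1 b2).trans_lt (arith_T hT g1 g3), fun t ht => ?_⟩
  rw [Finset.mem_union, not_or] at ht
  exact ⟨g2 t ht.1, g4 t ht.2⟩

omit [FiniteDimensional ℚ V] in
theorem jset_congr {y z : Fin K → ℚ}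
    (h : ∀ i ∈ range K, kap A0 A ∅ 0 K 1 i z = kap A0 A ∅ 0 K 1 i y) :
    Jset A0 A z = Jset A0 A y := Finset.filter_congr fun i hi => by rw [h i hi]

theorem dom_min (hW : 8 * (K + 1) ^ 2 * finrank ℚ V < W) {y z : Fin K → ℚ}
    (g1 : Phi A0 A W y ≤ Phi A0 A W z) (hd : Dom A0 A (Jset A0 A y) z y) :
    Dom A0 A (Jset A0 A y) y z := by
  have g2 := lex_le g1 (sum2_lt hW _ z)
  have g3 := lex_le g2 (sum1_lt hW z)
  have g4 := le_antisymm (hd.1 K (by simp)) g3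
  have g5 : ∀ i ∈ range K, kap A0 A ∅ 0 K 1 i z ≤ kap A0 A ∅ 0 K 1 i y := fun i hi =>
    hd.1 i (by simp at hi ⊢; omega)
  rw [g4, add_le_add_iff_left] at g2
  have g6 := le_antisymm (Finset.sum_le_sum g5) g2
  have g7 := (Finset.sum_eq_sum_iff_of_le g5).1 g6
  rw [Phi, Phi, g4, g6, add_le_add_iff_left, jset_congr g7] at g1
  have g8 := (Finset.sum_eq_sum_iff_of_le hd.2).1 (le_antisymm (Finset.sum_le_sum hd.2) g1)
  refine ⟨fun i hi => ?_, fun q hq => (g8 q hq).ge⟩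
  rcases (Nat.lt_succ_iff_lt_or_eq.1 (mem_range.1 hi)) with h | rfl
  · exact (g7 i (mem_range.2 h)).ge
  · exact g3

theorem dom_cor (hK : A K = 0) {y z : Fin K → ℚ} (h1 : kap A0 A ∅ 0 K 1 K y = 1)
    (g1 : Dom A0 A J z y) (g2 : Dom A0 A J y z) : ∃ n, Cor1 A0 A (Jset A0 A y) z n := by
  have g3 : ∀ i ≤ K, kap A0 A ∅ 0 K 1 i z = kap A0 A ∅ 0 K 1 i y := fun i hi =>
    le_antisymm (g1.1 i (by simp; omega)) (g2.1 i (by simp; omega))
  refine exists_cor1 hK (by rw [g3 K le_rfl, h1]) fun i => ?_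
  rw [← jset_congr fun i hi => g3 i (mem_range.1 hi).le, Jset, mem_filter, mem_range]

omit [FiniteDimensional ℚ V] in
theorem dom_eq {y z : Fin K → ℚ} (g1 : Dom A0 A J z y) (g2 : Dom A0 A J y z) {b j c l : ℕ}
    (hb : b < 2) (hj : j ≤ K) (hc : c < 2) (hl : l ≤ K) :
    kap A0 A J b j c l z = kap A0 A J b j c l y := by
  have : ((b, j), c, l) ∈ Qs K := by simp [Qs]; omega
  have h1 := g1.2 _ this
  have h2 := g2.2 _ this
  exact le_antisymm h1 h2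

theorem local_sing (hK : A K = 0) (hr : ∀ i < K, finrank ℚ (LinearMap.range (A i)) ≤ 2)
    (hW : 8 * (K + 1) ^ 2 * finrank ℚ V < W) (hT : 10 * (K + 1) ^ 2 * finrank ℚ V < T)
    {y0 : Fin K → ℚ} (h1 : kap A0 A ∅ 0 K 1 K y0 = 1)
    (hmin : ∀ z, Ball 6 T y0 z → Phi A0 A W y0 ≤ Phi A0 A W z) (y : Fin K → ℚ) :
    ∃ x ≠ 0, pm A0 A y x = 0 := by
  obtain ⟨J, hJ⟩ : ∃ J, J = Jset A0 A y0 := ⟨_, rfl⟩
  have hcor : ∀ z, Dom A0 A J z y0 → Dom A0 A J y0 z → ∃ n, Cor1 A0 A J z n := fun z g1 g2 =>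
    hJ ▸ dom_cor hK h1 g1 g2
  choose P U f1 f2 f3 using fun i : Fin K => factor (A i) (hr i i.2)
  have hf : Fac A P U := ⟨f1, f2, f3⟩
  obtain ⟨L', hd⟩ := exists_dual (relOf A0 A J P U)
  obtain ⟨n0, hn0⟩ := hcor y0 (.rf _) (.rf _)
  have e : Env (relOf A0 A J P U) L' (Finset.univ.filter fun i : Fin K => i.1 ∉ J) y0
      fun m z => (∃ C : Finset (Fin K), C.card ≤ m ∧ ∀ i ∉ C, z i = y0 i) ∧ Dom A0 A J z y0 ∧
        Dom A0 A J y0 z := by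
    refine ⟨hd, ⟨⟨∅, by simp, fun _ _ => rfl⟩, .rf _, .rf _⟩,
      fun h hm u _ => nice_step Dom.rf Dom.tr (dom_sc hT) (fun z hz hd => ?_) h hm u, fun h => ?_,
      fun h b _ => ?_, fun h l hl j _ => ?_⟩
    · rw [hJ] at hd ⊢
      exact dom_min hW (hmin z hz) hd
    · obtain ⟨n, hn⟩ := hcor _ h.2.1 h.2.2
      exact ⟨_, hf.good hn⟩
    · rw [hf.free_iff hK, hf.free_iff hK, dom_eq h.2.1 h.2.2 (by omega) b.2.le (by omega) le_rfl,
        dom_eq (c := 0) h.2.1 h.2.2 (by omega) b.2.le (by omega) le_rfl]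
    · obtain ⟨n, hn⟩ := hcor _ h.2.1 h.2.2
      have hl' := (Finset.mem_filter.1 hl).2
      rw [← not_iff_not, hf.adj_iff hK hn l j hl', hf.adj_iff hK hn0 l j hl',
        dom_eq h.2.1 h.2.2 (by omega) j.2.le (by omega) le_rfl,
        dom_eq h.2.1 h.2.2 (by omega) j.2.le (by omega) l.2.le]
  have fin : ∀ n, (∀ i ∈ J, A i n = 0) →
      pm A0 A y n = pm A0 A (fun i : Fin K => if i.1 ∈ J then y0 i else y i) n := fun n hn => by
    rw [pm_apply, pm_apply]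
    congr 1
    refine Finset.sum_congr rfl fun i _ => ?_
    by_cases hi : i.1 ∈ J <;> simp [hi, hn]
  rcases (Finset.univ.filter fun i : Fin K => i.1 ∉ J).eq_empty_or_nonempty with h | h
  · have hall : ∀ i : Fin K, i.1 ∈ J := fun i => by
      simpa using Finset.filter_eq_empty_iff.1 h (mem_univ i)
    exact ⟨n0, hn0.ne, by rw [fin n0 hn0.inJ]; simpa [hall] using hn0.ker⟩
  · obtain ⟨a, ha, i, -, hi⟩ := e.top h (fun i : Fin K => if i.1 ∈ J then y0 i else y i)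
      fun i hi => if_pos (by simpa using hi)
    obtain ⟨n, g1, rfl, g2⟩ := hf.R_zero.1 ha
    exact ⟨n, fun h0 => hi (by simp [h0]), by rw [fin n g1, g2]⟩

end Pool.Agent.P.MP_08e617_lc.R2
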