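import Pool.Agent.P.MP_08e617_lc.Algo

/-! The algorithm for pencils with coefficients of rank at most two, and its running time. -/

namespace Pool.Agent.P.MP_08e617_lc.R2

open Pool.Agent.Lib.helper21 Function

variable {α : Type} [Enc α]

/-- List matrices. -/
abbrev LM := List (List ℤ)
/-- Size, constant term and coefficients of an integer pencil. -/
abbrev Dat := ℕ × LM × List LM

/-- A coefficient. -/
def cf (d : Dat) (i : ℕ) : LM := d.2.2.getD i []
/-- The value of the pencil. -/
def evm (d : Dat) (a : List ℕ) : LM :=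
  mk d.1 fun p q => gm d.2.1 p q + sm d.2.2.length fun i => ((a.getD i 0 : ℕ) : ℤ) * gm (cf d i) p q
/-- Lower triangular block matrix. -/
def blk (n : ℕ) (P Q S : LM) : LM :=
  mk (n + n) fun p q => cond (decide (p < n)) (cond (decide (q < n)) (gm P p q) 0)
    (cond (decide (q < n)) (gm Q (p - n) q) (gm S (p - n) (q - n)))
/-- Sum of Gram matrices. -/
def grs (d : Dat) (J : List ℕ) : LM :=
  mk d.1 fun p q => (J.map fun i => sm d.1 fun r => gm (cf d i) r p * gm (cf d i) r q).sum
/-- The potentials. -/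
def kapL (d : Dat) (J : List ℕ) (b j c l : ℕ) (a : List ℕ) : ℕ :=
  kd (d.1 + d.1) (blk d.1 (mk d.1 fun p q => (b : ℤ) * gm (evm d a) p q) (cf d j) (evm d a))
    (blk d.1 (mk d.1 fun p q => cond (decide (p = q)) (c : ℤ) 0) [] (grs d (l :: J)))
/-- The coefficients that kill the kernel. -/
def JL (d : Dat) (a : List ℕ) : List ℕ :=
  (List.range d.2.2.length).filter fun i => !decide (kapL d [] 0 d.2.2.length 1 i a = 0)
/-- The weight. -/
def WL (d : Dat) : ℕ := 8 * ((d.2.2.length + 1) * (d.2.2.length + 1)) * d.1 + 1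
/-- The grid size. -/
def TL (d : Dat) : ℕ := 10 * ((d.2.2.length + 1) * (d.2.2.length + 1)) * d.1 + 1
/-- The potential. -/
def phiL (d : Dat) (a : List ℕ) : ℕ :=
  WL d * (WL d * kapL d [] 0 d.2.2.length 1 d.2.2.length a +
      ((List.range d.2.2.length).map fun i => kapL d [] 0 d.2.2.length 1 i a).sum) +
    ((List.range 2).map fun b => ((List.range (d.2.2.length + 1)).map fun j =>
      ((List.range 2).map fun c => ((List.range (d.2.2.length + 1)).map fun l =>
        kapL d (JL d a) b j c l a).sum).sum).sum).sum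
/-- Points at distance at most one from a list of points. -/
def nb1 (d : Dat) (l : List (List ℕ)) : List (List ℕ) :=
  l.flatMap fun a => a :: (List.range d.2.2.length).flatMap fun i =>
    (List.range (TL d)).map fun s => upd d.2.2.length a i s
/-- Points at distance at most six. -/
def nb6 (d : Dat) (a : List ℕ) : List (List ℕ) :=
  nb1 d (nb1 d (nb1 d (nb1 d (nb1 d (nb1 d [a])))))
/-- One step of local search. -/
def stpL (d : Dat) (a : List ℕ) : List ℕ :=
  ((nb6 d a).filter fun b => decide (phiL d b < phiL d a)).headD a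
/-- Local search. -/
def ls (d : Dat) (a : List ℕ) : List ℕ := (stpL d)^[phiL d a + 1] a
/-- The pencil whose first `p` rows are those of the input and whose other rows are free. -/
def dat (I : Inp) (p : ℕ) : Dat :=
  (I.length, mk I.length fun q c => cond (decide (q < p)) (gm (ev I []) q c) 0,
    (List.range (nv I + I.length * I.length)).map fun i => mk I.length fun q c =>
      cond (decide (q < p)) (cond (decide (i < nv I)) (gm (co I i) q c) 0)
        (cond (decide (i = nv I + q * I.length + c)) 1 0))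
/-- The starting point. -/
def start (I : Inp) : List ℕ :=
  (List.range (nv I + I.length * I.length)).map fun i =>
    cond ((List.range I.length).any fun q => decide (i = nv I + q * I.length + q)) 1 0
/-- One step of the outer loop. -/
def outStep (I : Inp) (s : ℕ × List ℕ) : ℕ × List ℕ := (s.1 + 1, ls (dat I (s.1 + 1)) s.2)
/-- The final point. -/
def final (I : Inp) : ℕ × List ℕ := (outStep I)^[I.length] (0, start I)
/-- The algorithm. -/
def alg2 (I : Inp) : Bool := decide (0 < kd I.length (ev I (final I).2) (ev I (final I).2))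

@[fun_prop] theorem pt_cf {d : α → Dat} {i : α → ℕ} (hd : PT d) (hi : PT i) :
    PT fun a => cf (d a) (i a) := by unfold cf; fun_prop
@[fun_prop] theorem pt_evm {d : α → Dat} {b : α → List ℕ} (hd : PT d) (hb : PT b) :
    PT fun a => evm (d a) (b a) := by unfold evm; fun_prop
@[fun_prop] theorem pt_blk {n : α → ℕ} {P Q S : α → LM} (hn : PT n) (hP : PT P) (hQ : PT Q)
    (hS : PT S) : PT fun a => blk (n a) (P a) (Q a) (S a) := by unfold blk; fun_prop
@[fun_prop] theorem pt_grs {d : α → Dat} {J : α → List ℕ} (hd : PT d) (hJ : PT J) :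
    PT fun a => grs (d a) (J a) := by unfold grs; fun_prop
@[fun_prop] theorem pt_kapL {d : α → Dat} {J x : α → List ℕ} {b j c l : α → ℕ} (hd : PT d)
    (hJ : PT J) (hb : PT b) (hj : PT j) (hc : PT c) (hl : PT l) (hx : PT x) :
    PT fun a => kapL (d a) (J a) (b a) (j a) (c a) (l a) (x a) := by unfold kapL; fun_prop
@[fun_prop] theorem pt_JL {d : α → Dat} {b : α → List ℕ} (hd : PT d) (hb : PT b) :
    PT fun a => JL (d a) (b a) := by unfold JL; fun_prop
@[fun_prop] theorem pt_WL {d : α → Dat} (hd : PT d) : PT fun a => WL (d a) := by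
  unfold WL; fun_prop
@[fun_prop] theorem pt_TL {d : α → Dat} (hd : PT d) : PT fun a => TL (d a) := by
  unfold TL; fun_prop
@[fun_prop] theorem pt_phiL {d : α → Dat} {b : α → List ℕ} (hd : PT d) (hb : PT b) :
    PT fun a => phiL (d a) (b a) := by unfold phiL; fun_prop
@[fun_prop] theorem pt_nb1 {d : α → Dat} {l : α → List (List ℕ)} (hd : PT d) (hl : PT l) :
    PT fun a => nb1 (d a) (l a) := by unfold nb1; fun_prop
@[fun_prop] theorem pt_nb6 {d : α → Dat} {b : α → List ℕ} (hd : PT d) (hb : PT b) :
    PT fun a => nb6 (d a) (b a) := by unfold nb6; fun_prop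
@[fun_prop] theorem pt_stpL {d : α → Dat} {b : α → List ℕ} (hd : PT d) (hb : PT b) :
    PT fun a => stpL (d a) (b a) := by unfold stpL; fun_prop
@[fun_prop] theorem pt_dat {I : α → Inp} {p : α → ℕ} (hI : PT I) (hp : PT p) :
    PT fun a => dat (I a) (p a) := by unfold dat; fun_prop
@[fun_prop] theorem pt_start : PT start := by unfold start; fun_prop

theorem stpL_cases (d : Dat) (a : List ℕ) :
    (stpL d a = a ∧ ∀ b ∈ nb6 d a, phiL d a ≤ phiL d b) ∨
      (stpL d a ∈ nb6 d a ∧ phiL d (stpL d a) < phiL d a) := by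
  unfold stpL
  cases h : (nb6 d a).filter fun b => decide (phiL d b < phiL d a) with
  | nil =>
    refine Or.inl ⟨rfl, fun b hb => ?_⟩
    simpa using List.filter_eq_nil_iff.1 h b hb
  | cons b l =>
    have : b ∈ (nb6 d a).filter fun b => decide (phiL d b < phiL d a) := h ▸ List.mem_cons_self
    exact Or.inr (by simpa using this)

theorem mem_nb1 {d : Dat} {l : List (List ℕ)} {b : List ℕ} : b ∈ nb1 d l ↔ ∃ a ∈ l, b = a ∨
    ∃ i < d.2.2.length, ∃ s < TL d, upd d.2.2.length a i s = b := by
  simp [nb1]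

/-- Bounded points. -/
def Ok (N B : ℕ) (a : List ℕ) : Prop := a.length ≤ N ∧ ∀ j, a.getD j 0 ≤ B

theorem ok_nb1 {d : Dat} {N B : ℕ} (hN : d.2.2.length ≤ N) (hB : TL d ≤ B) {l : List (List ℕ)}
    (h : ∀ a ∈ l, Ok N B a) : ∀ b ∈ nb1 d l, Ok N B b := by
  intro b hb
  obtain ⟨a, ha, rfl | ⟨i, -, s, hs, rfl⟩⟩ := mem_nb1.1 hb
  · exact h _ ha
  · refine ⟨by simpa [upd] using hN, fun j => ?_⟩
    rw [getD_upd]
    have := (h a ha).2 j
    split_ifs <;> omega

theorem ok_iter {d : Dat} {N B : ℕ} (hN : d.2.2.length ≤ N) (hB : TL d ≤ B) {a : List ℕ}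
    (h : Ok N B a) (t : ℕ) : Ok N B ((stpL d)^[t] a) := by
  induction t with
  | zero => exact h
  | succ t ih =>
    rw [iterate_succ_apply']
    rcases stpL_cases d ((stpL d)^[t] a) with h | h
    · rw [h.1]; exact ih
    · exact ok_nb1 hN hB (ok_nb1 hN hB (ok_nb1 hN hB (ok_nb1 hN hB (ok_nb1 hN hB (ok_nb1 hN hB
        (by simpa using ih)))))) _ h.1

theorem Ok.sz {N B : ℕ} {a : List ℕ} (h : Ok N B a) : sz a ≤ N * (2 * B + 2) + 1 := by
  refine (sz_list_le _ B fun x hx => ?_).trans
    (Nat.add_le_add_right (Nat.mul_le_mul_right _ h.1) _)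
  obtain ⟨j, hj, rfl⟩ := List.getElem_of_mem hx
  have := h.2 j
  rw [List.getD_eq_getElem _ _ hj] at this
  simpa using this

theorem ok_self (a : List ℕ) (N B : ℕ) : Ok (N + sz a) (B + sz a) a := by
  refine ⟨(length_le_sz a).trans (by omega), fun j => ?_⟩
  by_cases hj : j < a.length
  · rw [List.getD_eq_getElem _ _ hj]
    have := sz_mem (List.getElem_mem hj)
    rw [sz_nat] at this
    omega
  · rw [List.getD_eq_default _ _ (by omega)]; omega

@[fun_prop] theorem pt_ls {d : α → Dat} {b : α → List ℕ} (hd : PT d) (hb : PT b) :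
    PT fun a => ls (d a) (b a) :=
  PT.iterate (f := fun a => stpL (d a)) (by fun_prop) (by fun_prop) hb
    (fun a => ((d a).2.2.length + sz (b a)) * (2 * (TL (d a) + sz (b a)) + 2) + 1)
    (PT.bdNat (by fun_prop)) fun a t _ =>
      (ok_iter (Nat.le_add_right _ _) (Nat.le_add_right _ _) (ok_self _ _ _) t).sz

theorem len_dat (I : Inp) (p : ℕ) : (dat I p).2.2.length = nv I + I.length * I.length := by
  simp [dat]

theorem TL_dat (I : Inp) (p : ℕ) : TL (dat I p) = TL (dat I 0) := by
  simp only [TL, len_dat]; rfl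

theorem pt_final : PT final := by
  refine PT.iterate (f := outStep) (by unfold outStep; fun_prop) (by fun_prop) (by fun_prop)
    (fun I => 2 * I.length + ((nv I + I.length * I.length + sz (start I)) *
      (2 * (TL (dat I 0) + sz (start I)) + 2) + 1) + 1) (PT.bdNat (by fun_prop)) fun I t ht => ?_
  have key : ∀ t, ((outStep I)^[t] (0, start I)).1 = t ∧
      Ok (nv I + I.length * I.length + sz (start I)) (TL (dat I 0) + sz (start I))
        ((outStep I)^[t] (0, start I)).2 := by
    intro t
    induction t with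
    | zero => exact ⟨rfl, ok_self _ _ _⟩
    | succ t ih =>
      rw [iterate_succ_apply']
      exact ⟨by simp [outStep, ih.1], ok_iter (by rw [len_dat]; omega) (by rw [TL_dat]; omega) ih.2 _⟩
  have := (key t).2.sz
  rw [sz_prod, (key t).1, sz_nat]
  omega

theorem pt_alg2 : PT alg2 := by
  have := pt_final
  unfold alg2; fun_prop

theorem ls_min (d : Dat) (a : List ℕ) : phiL d (ls d a) ≤ phiL d a ∧
    ∀ b ∈ nb6 d (ls d a), phiL d (ls d a) ≤ phiL d b := by
  have key : ∀ t, phiL d ((stpL d)^[t] a) ≤ phiL d a ∧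
      ((∀ b ∈ nb6 d ((stpL d)^[t] a), phiL d ((stpL d)^[t] a) ≤ phiL d b) ∨
      phiL d ((stpL d)^[t] a) + t ≤ phiL d a) := by
    intro t
    induction t with
    | zero => exact ⟨le_rfl, Or.inr le_rfl⟩
    | succ t ih =>
      rw [iterate_succ_apply']
      rcases stpL_cases d ((stpL d)^[t] a) with h | h
      · rw [h.1]; exact ⟨ih.1, Or.inl h.2⟩
      · rcases ih.2 with h' | h'
        · exact absurd (h' _ h.1) (not_le.2 h.2)
        · exact ⟨by omega, Or.inr (by omega)⟩
  refine ⟨(key _).1, ?_⟩
  rcases (key (phiL d a + 1)).2 with h | h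
  · exact h
  · omega

end Pool.Agent.P.MP_08e617_lc.R2
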