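import Pool.Agent.P.MP_08e617_lc.R2I
import Pool.Agent.P.MP_08e617_lc.R2J
import Pool.Agent.P.MP_08e617_lc.Main

/-! Correctness of the local search. -/

namespace Pool.Agent.P.MP_08e617_lc.R2

open Pool.Agent.Lib.helper21 Function Matrix Module

/-- The rational matrix of a list matrix. -/
def toQ (n : ℕ) (M : LM) : Matrix (Fin n) (Fin n) ℚ := (toM n M).map (Int.castRingHom ℚ)

theorem toQ_apply (n : ℕ) (M : LM) (p q : Fin n) : toQ n M p q = gm M p q := rfl

theorem toQ_mk (n : ℕ) (f : ℕ → ℕ → ℤ) (p q : Fin n) : toQ n (mk n f) p q = f p q := by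
  simp [toQ_apply, gm_mk]

/-- The linear map of a list matrix. -/
abbrev lin (n : ℕ) (M : LM) : (Fin n → ℚ) →ₗ[ℚ] (Fin n → ℚ) := (toQ n M).mulVecLin

/-- A list as a point. -/
def pt (K : ℕ) (a : List ℕ) : Fin K → ℚ := fun i => fa a i

theorem pm_matrix {n K : ℕ} (M0 : Matrix (Fin n) (Fin n) ℚ) (M : ℕ → Matrix (Fin n) (Fin n) ℚ)
    (y : Fin K → ℚ) : pm M0.mulVecLin (fun i => (M i).mulVecLin) y =
      (M0 + ∑ i : Fin K, y i • M i).mulVecLin := by
  refine LinearMap.ext fun x => ?_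
  simp [pm_apply]

theorem lin_evm (d : Dat) (a : List ℕ) : lin d.1 (evm d a) =
    pm (lin d.1 d.2.1) (fun i => lin d.1 (cf d i)) (pt d.2.2.length a) := by
  rw [pm_matrix]
  refine congrArg mulVecLin (Matrix.ext fun p q => ?_)
  simp [evm, sm_eq, Matrix.sum_apply, toQ_apply, pt, fa, gm_mk]

/-- Splitting a vector into halves. -/
def halves (n : ℕ) : (Fin (n + n) → ℚ) ≃ₗ[ℚ] (Fin n → ℚ) × (Fin n → ℚ) where
  toFun x := (fun i => x (Fin.castAdd n i), fun i => x (Fin.natAdd n i))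
  invFun p := Fin.append p.1 p.2
  map_add' _ _ := rfl
  map_smul' _ _ := rfl
  left_inv x := funext fun i => Fin.addCases_castAdd_natAdd x i
  right_inv _ := Prod.ext (funext fun i => Fin.append_left _ _ i)
    (funext fun i => Fin.append_right _ _ i)

theorem ker_blk (n : ℕ) (P Q S : LM) (x : Fin (n + n) → ℚ) :
    lin (n + n) (blk n P Q S) x = 0 ↔ lin n P (halves n x).1 = 0 ∧
      lin n Q (halves n x).1 + lin n S (halves n x).2 = 0 := by
  have h1 : ∀ i : Fin n, lin (n + n) (blk n P Q S) x (Fin.castAdd n i) =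
      lin n P (halves n x).1 i := fun i => by
    simp [mulVec, dotProduct, Fin.sum_univ_add, blk, toQ_mk, halves, toQ_apply n]
  have h2 : ∀ i : Fin n, lin (n + n) (blk n P Q S) x (Fin.natAdd n i) =
      (lin n Q (halves n x).1 + lin n S (halves n x).2) i := fun i => by
    simp [mulVec, dotProduct, Fin.sum_univ_add, blk, toQ_mk, halves, toQ_apply n]
  constructor
  · intro h
    exact ⟨funext fun i => by rw [← h1, h]; rfl, funext fun i => by rw [← h2, h]; rfl⟩
  · rintro ⟨g1, g2⟩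
    funext i
    induction i using Fin.addCases with
    | left i => rw [h1, g1]; rfl
    | right i => rw [h2, g2]; rfl

theorem ker_grs (d : Dat) (J : List ℕ) (x : Fin d.1 → ℚ) :
    lin d.1 (grs d J) x = 0 ↔ ∀ i ∈ J, lin d.1 (cf d i) x = 0 := by
  have e : toQ d.1 (grs d J) = (J.map fun i => (toQ d.1 (cf d i))ᵀ * toQ d.1 (cf d i)).sum := by
    ext p q
    rw [grs, toQ_mk]
    induction J with
    | nil => simp
    | cons i J ih =>
      simp only [List.map_cons, List.sum_cons, Int.cast_add, ih, Matrix.add_apply]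
      simp [sm_eq, mul_apply, toQ_apply]
  have key : ∀ J : List ℕ, x ⬝ᵥ (J.map fun i => (toQ d.1 (cf d i))ᵀ * toQ d.1 (cf d i)).sum *ᵥ x =
      (J.map fun i => (toQ d.1 (cf d i) *ᵥ x) ⬝ᵥ (toQ d.1 (cf d i) *ᵥ x)).sum := by
    intro J
    induction J with
    | nil => simp
    | cons i J ih =>
      simp only [List.map_cons, List.sum_cons, add_mulVec, dotProduct_add, ih, ← mulVec_mulVec,
        dotProduct_mulVec x, vecMul_transpose]
  rw [mulVecLin_apply, e]
  constructor
  · intro h i hi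
    have h1 := key J
    rw [h, dotProduct_zero] at h1
    have h2 := List.all_zero_of_le_zero_le_of_sum_eq_zero (fun a ha => by
      obtain ⟨j, -, rfl⟩ := List.mem_map.1 ha
      exact Finset.sum_nonneg fun _ _ => mul_self_nonneg _) h1.symm (List.mem_map.2 ⟨i, hi, rfl⟩)
    exact dotProduct_self_eq_zero.1 h2
  · intro h
    clear e
    induction J with
    | nil => simp
    | cons i J ih =>
      have h1 : toQ d.1 (cf d i) *ᵥ x = 0 := h i (by simp)
      simp only [List.map_cons, List.sum_cons, add_mulVec, ← mulVec_mulVec, h1, mulVec_zero,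
        zero_add]
      exact ih fun j hj => h j (by simp [hj])

theorem kapL_spec (d : Dat) (J : List ℕ) (b j c l : ℕ) (a : List ℕ) : kapL d J b j c l a =
    kap (lin d.1 d.2.1) (fun i => lin d.1 (cf d i)) J.toFinset b j c l (pt d.2.2.length a) := by
  rw [kapL, kd_spec, kap, ← LinearEquiv.finrank_map_eq (halves d.1)]
  refine congrArg (fun W : Submodule ℚ ((Fin d.1 → ℚ) × (Fin d.1 → ℚ)) => finrank ℚ W) ?_
  ext p
  obtain ⟨x, rfl⟩ := (halves d.1).surjective p
  have e1 : toQ d.1 (mk d.1 fun p q => (b : ℤ) * gm (evm d a) p q) = (b : ℚ) • toQ d.1 (evm d a) := by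
    ext p q; simp [toQ_mk, toQ_apply d.1 (evm d a)]
  have e2 : toQ d.1 (mk d.1 fun p q => cond (decide (p = q)) (c : ℤ) 0) = (c : ℚ) • 1 := by
    ext p q
    by_cases h : p = q
    · simp [toQ_mk, h]
    · simp [toQ_mk, h, Fin.ext_iff.not.1 h]
  have e3 : toQ d.1 [] = 0 := by ext p q; simp [toQ_apply, gm]
  rw [Submodule.mem_map_equiv, LinearEquiv.symm_apply_apply, mem_Sol, ← lin_evm]
  refine and_congr ((ker_blk _ _ _ _ x).trans ?_) ((ker_blk _ _ _ _ x).trans ?_)
  · simp only [lin, e1, mulVecLin_apply, smul_mulVec]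
  · simp only [lin, e2, e3, mulVecLin_apply, smul_mulVec, one_mulVec, zero_mulVec, zero_add]
    refine and_congr_right fun _ => (ker_grs d _ _).trans ?_
    simp [and_comm]

theorem JL_spec (d : Dat) (a : List ℕ) : (JL d a).toFinset =
    Jset (lin d.1 d.2.1) (fun i => lin d.1 (cf d i)) (pt d.2.2.length a) := by
  ext i
  simp [JL, Jset, kapL_spec]

theorem phiL_spec (d : Dat) (a : List ℕ) : phiL d a =
    Phi (lin d.1 d.2.1) (fun i => lin d.1 (cf d i)) (WL d) (pt d.2.2.length a) := by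
  simp only [phiL, Phi, list_sum_range, kapL_spec, JL_spec, List.toFinset_nil, Qs,
    Finset.sum_product]

theorem nb1_complete (d : Dat) {m : ℕ} {y : Fin d.2.2.length → ℚ} {l : List (List ℕ)}
    (h : ∀ z, Ball m (TL d) y z → ∃ b ∈ l, pt _ b = z) :
    ∀ z, Ball (m + 1) (TL d) y z → ∃ b ∈ nb1 d l, pt _ b = z := by
  rintro z ⟨C, h1, h2, h3⟩
  rcases C.eq_empty_or_nonempty with rfl | ⟨u, hu⟩
  · obtain ⟨b, hb, e⟩ := h z ⟨∅, by simp, h2, h3⟩
    exact ⟨b, mem_nb1.2 ⟨b, hb, Or.inl rfl⟩, e⟩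
  · obtain ⟨b, hb, e⟩ := h (update z u (y u)) ⟨C.erase u, by
      rw [Finset.card_erase_of_mem hu]; omega, fun i hi => by
        by_cases h : i = u
        · subst h; simp
        · rw [update_of_ne h]; exact h2 i (by simpa [h] using hi), fun i hi => by
        rw [update_of_ne (Finset.mem_erase.1 hi).1]; exact h3 i (Finset.mem_erase.1 hi).2⟩
    obtain ⟨s, hs, e2⟩ := h3 u hu
    refine ⟨_, mem_nb1.2 ⟨b, hb, Or.inr ⟨u, u.2, s, hs, rfl⟩⟩, funext fun i => ?_⟩
    rw [pt, fa_upd _ _ _ _ i.2]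
    by_cases h : i = u
    · subst h; simp [e2]
    · rw [update_of_ne (Fin.val_ne_of_ne h)]
      exact (congrFun e i).trans (update_of_ne h _ _)

theorem nb6_complete (d : Dat) (a : List ℕ) :
    ∀ z, Ball 6 (TL d) (pt _ a) z → ∃ b ∈ nb6 d a, pt d.2.2.length b = z := by
  refine nb1_complete d (nb1_complete d (nb1_complete d (nb1_complete d (nb1_complete d
    (nb1_complete d (m := 0) ?_)))))
  rintro z ⟨C, h1, h2, -⟩
  rw [Nat.le_zero, Finset.card_eq_zero] at h1
  exact ⟨a, by simp, funext fun i => (h2 i (by simp [h1])).symm⟩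

theorem ls_correct (d : Dat) (a : List ℕ) (hr : ∀ i < d.2.2.length, (toQ d.1 (cf d i)).rank ≤ 2)
    (ha : finrank ℚ (LinearMap.ker (lin d.1 (evm d a))) ≤ 1) (y : Fin d.2.2.length → ℚ)
    (hy : ∀ x, pm (lin d.1 d.2.1) (fun i => lin d.1 (cf d i)) y x = 0 → x = 0) :
    LinearMap.ker (lin d.1 (evm d (ls d a))) = ⊥ := by
  have hK : lin d.1 (cf d d.2.2.length) = 0 := by
    have : toQ d.1 (cf d d.2.2.length) = 0 := by ext p q; simp [toQ_apply, gm, cf]
    rw [lin, this, mulVecLin_zero]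
  have hk : ∀ b, kap (lin d.1 d.2.1) (fun i => lin d.1 (cf d i)) ∅ 0 d.2.2.length 1 d.2.2.length
      (pt d.2.2.length b) = finrank ℚ (LinearMap.ker (lin d.1 (evm d b))) := fun b => by
    rw [kap_one hK, hK, LinearMap.ker_zero, inf_top_eq, lin_evm]
  have hW : 8 * (d.2.2.length + 1) ^ 2 * finrank ℚ (Fin d.1 → ℚ) < WL d := by simp [WL, sq]
  have hT : 10 * (d.2.2.length + 1) ^ 2 * finrank ℚ (Fin d.1 → ℚ) < TL d := by simp [TL, sq]
  obtain ⟨h1, h2⟩ := ls_min d a
  rw [phiL_spec, phiL_spec] at h1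
  have h3 := phi_k0 hW h1
  rw [← Submodule.finrank_eq_zero]
  by_contra h0
  obtain ⟨x, hx, hx'⟩ := local_sing hK hr hW hT (y0 := pt _ (ls d a)) (by
    rw [hk] at h3 ⊢; rw [hk] at h3; omega) (fun z hz => by
      obtain ⟨b, hb, rfl⟩ := nb6_complete d _ z hz
      rw [← phiL_spec, ← phiL_spec]
      exact h2 b hb) y
  exact hx (hy x hx')

end Pool.Agent.P.MP_08e617_lc.R2
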