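import Pool.Agent.P.MP_08e617_lc.R2K

/-! Correctness of the algorithm. -/

namespace Pool.Agent.P.MP_08e617_lc.R2

open Pool.Agent.Lib.helper21 Function Matrix Module MvPolynomial

/-- The first `p` rows of `M`, completed by free rows. -/
def Nm {n : ℕ} (k p : ℕ) (M : Matrix (Fin n) (Fin n) ℚ) (f : ℕ → ℚ) : Matrix (Fin n) (Fin n) ℚ :=
  Matrix.of fun q c => if q.1 < p then M q c else f (k + q * n + c)

theorem idx_iff {k n i q c : ℕ} (hc : c < n) (hi : k ≤ i) :
    i = k + q * n + c ↔ q = (i - k) / n ∧ c = (i - k) % n := by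
  constructor
  · rintro rfl
    rw [show k + q * n + c - k = c + q * n by omega, Nat.add_mul_div_right _ _ (by omega),
      Nat.add_mul_mod_self_right, Nat.div_eq_of_lt hc, Nat.mod_eq_of_lt hc]
    simp
  · rintro ⟨rfl, rfl⟩
    have := Nat.div_add_mod' (i - k) n
    omega

theorem idx_lt {k n q c : ℕ} (hq : q < n) (hc : c < n) : k + q * n + c < k + n * n := by
  have := Nat.mul_le_mul_right n (show q + 1 ≤ n from hq)
  rw [Nat.succ_mul] at this
  omega

theorem toQ_cf (I : Inp) (p : ℕ) {i : ℕ} (hi : i < nv I + I.length * I.length)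
    (q c : Fin I.length) : toQ I.length (cf (dat I p) i) q c =
      if q.1 < p then (if i < nv I then toQ I.length (co I i) q c else 0)
      else if i = nv I + q * I.length + c then 1 else 0 := by
  have : cf (dat I p) i = mk I.length fun q c =>
      cond (decide (q < p)) (cond (decide (i < nv I)) (gm (co I i) q c) 0)
        (cond (decide (i = nv I + q * I.length + c)) 1 0) := by
    simp [cf, dat, List.getD_eq_getElem?_getD, hi]
  rw [this, toQ_mk]
  split_ifs with h1 h2 h3
  · simp [h1, h2, toQ_apply]
  · simp [h1, h2]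
  · simp [h1, ← h3]
  · simp [h1, h3]

theorem pm_dat (I : Inp) (p : ℕ) (f : ℕ → ℚ) :
    pm (lin (dat I p).1 (dat I p).2.1) (fun i => lin (dat I p).1 (cf (dat I p) i))
      (fun i : Fin (dat I p).2.2.length => f i) =
    (Nm (nv I) p (toQ I.length (ev I []) +
      ∑ i ∈ Finset.range (nv I), f i • toQ I.length (co I i)) f).mulVecLin := by
  rw [pm_matrix]
  refine congrArg mulVecLin (Matrix.ext fun (q : Fin I.length) (c : Fin I.length) => ?_)
  rw [Fin.sum_univ_eq_sum_range (fun i => f i • toQ (dat I p).1 (cf (dat I p) i)), len_dat]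
  have e : ∀ i ∈ Finset.range (nv I + I.length * I.length),
      (f i • toQ (dat I p).1 (cf (dat I p) i)) q c = f i *
      if q.1 < p then (if i < nv I then toQ I.length (co I i) q c else 0)
      else if i = nv I + q * I.length + c then 1 else 0 := fun i hi =>
    congrArg (f i * ·) (toQ_cf I p (Finset.mem_range.1 hi) q c)
  have e0 : toQ (dat I p).1 (dat I p).2.1 q c = if q.1 < p then toQ I.length (ev I []) q c else 0 := by
    refine (toQ_mk I.length _ q c).trans ?_
    split_ifs with h <;> simp [h, toQ_apply]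
  rw [Matrix.add_apply, Matrix.sum_apply, Finset.sum_congr rfl e, e0, Nm, of_apply]
  split_ifs with h
  · simp [Finset.sum_range_add, Matrix.sum_apply]
    exact Finset.sum_congr rfl fun i hi => by rw [if_pos (Finset.mem_range.1 hi)]
  · simp [idx_lt q.2 c.2]

theorem rank_cf (I : Inp) (p : ℕ) (h : ∀ i < nv I, (toQ I.length (co I i)).rank ≤ 2) :
    ∀ i < (dat I p).2.2.length, (toQ (dat I p).1 (cf (dat I p) i)).rank ≤ 2 := by
  intro i hi
  rw [len_dat] at hi
  show (toQ I.length (cf (dat I p) i)).rank ≤ 2
  by_cases hk : i < nv I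
  · have : toQ I.length (cf (dat I p) i) =
        diagonal (fun q : Fin I.length => if q.1 < p then (1 : ℚ) else 0) *
          toQ I.length (co I i) := by
      ext q c
      have : i ≠ nv I + q * I.length + c := by omega
      rw [toQ_cf I p hi, diagonal_mul]
      simp [hk, this]
    rw [this]
    exact (rank_mul_le_right _ _).trans (h i hk)
  · have : toQ I.length (cf (dat I p) i) =
        vecMulVec (fun q : Fin I.length =>
          if ¬ q.1 < p ∧ q.1 = (i - nv I) / I.length then (1 : ℚ) else 0)
          fun c : Fin I.length => if c.1 = (i - nv I) % I.length then 1 else 0 := by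
      ext q c
      rw [toQ_cf I p hi, vecMulVec_apply]
      simp only [idx_iff c.2 (not_lt.1 hk), hk, if_false]
      generalize (i - nv I) / I.length = u
      by_cases h2 : q.1 = u
      · subst h2
        by_cases h1 : q.1 < p <;> simp [h1]
      · simp [h2]
    rw [this]
    exact (rank_vecMulVec_le _ _).trans (by norm_num)

theorem ker_step {n k p : ℕ} (hp : p < n) (M : Matrix (Fin n) (Fin n) ℚ) (f : ℕ → ℚ)
    (h : LinearMap.ker (Nm k p M f).mulVecLin = ⊥) :
    finrank ℚ (LinearMap.ker (Nm k (p + 1) M f).mulVecLin) ≤ 1 := by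
  refine (LinearMap.finrank_le_finrank_of_injective (f := LinearMap.proj (⟨p, hp⟩ : Fin n) ∘ₗ
    (Nm k p M f).mulVecLin ∘ₗ (LinearMap.ker (Nm k (p + 1) M f).mulVecLin).subtype) ?_).trans
    (finrank_self ℚ).le
  rw [injective_iff_map_eq_zero]
  rintro ⟨x, hx⟩ h0
  refine Subtype.ext (LinearMap.ker_eq_bot'.1 h x (funext fun q => ?_))
  by_cases hq : q = ⟨p, hp⟩
  · subst hq; exact h0
  · have h1 : q.1 ≤ p ↔ q.1 < p := by
      have : q.1 ≠ p := fun e => hq (Fin.ext e)
      omega
    have := congrFun (show Nm k (p + 1) M f *ᵥ x = 0 from hx) q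
    simpa [Nm, mulVec, dotProduct, h1] using this

theorem Nm_start (I : Inp) (M : Matrix (Fin I.length) (Fin I.length) ℚ) :
    Nm (nv I) 0 M (fa (start I)) = 1 := by
  ext q c
  have h1 : ∀ q' < I.length, nv I + q * I.length + c = nv I + q' * I.length + q' ↔
      (q' = q ∧ q' = c) := fun q' hq' => by
    have h2 := (idx_iff (q := q) c.2 (i := nv I + q * I.length + c) (k := nv I) (by omega)).1 rfl
    rw [idx_iff hq' (by omega), ← h2.1, ← h2.2]
  have h3 : ((List.range I.length).any fun q' =>
      decide (nv I + q * I.length + c = nv I + q' * I.length + q')) = decide (q = c) := by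
    rw [Bool.eq_iff_iff]
    simp only [List.any_eq_true, List.mem_range, decide_eq_true_eq]
    exact ⟨fun ⟨q', h, e⟩ => Fin.ext (((h1 q' h).1 e).1.symm.trans ((h1 q' h).1 e).2),
      fun e => ⟨q, q.2, (h1 q q.2).2 ⟨rfl, congrArg Fin.val e⟩⟩⟩
  simp only [Nm, of_apply, Nat.not_lt_zero, if_false, fa, start, List.getD_eq_getElem?_getD,
    List.getElem?_map, List.getElem?_range (idx_lt q.2 c.2), Option.map_some, Option.getD_some, h3]
  by_cases h : q = c <;> simp [h, one_apply]

theorem alg2_correct (I : Inp) (k : ℕ) (A₀ : Matrix (Fin I.length) (Fin I.length) ℚ)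
    (A : ℕ → Matrix (Fin I.length) (Fin I.length) ℚ) (hr : ∀ i < k, (A i).rank ≤ 2)
    (hM : polyMatrix I = pencil k A₀ A) : alg2 I = true ↔ (polyMatrix I).det = 0 := by
  let A' : ℕ → Matrix (Fin I.length) (Fin I.length) ℚ := fun i => if i < k then A i else 0
  have hev : ∀ b, (polyMatrix I).map (eval b) = A₀ + ∑ i ∈ Finset.range (nv I), b i • A' i := by
    intro b
    rw [eval_congr I (c := fun i => if i < nv I then b i else 0) fun i hi => (if_pos hi).symm, hM,
      eval_pencil]
    congr 1
    simp only [A', ite_smul, smul_ite, zero_smul, smul_zero, ← Finset.mem_range,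
      Finset.sum_ite_mem, Finset.inter_comm]
  have e3 : ∑ j ∈ Finset.range (nv I), fa [] j • A' j = 0 := by simp [fa]
  have hco : ∀ i < nv I, toQ I.length (co I i) = (((dens I).prod : ℤ) : ℚ) • A' i := fun i hi => by
    have e1 : toQ I.length (co I i) =
        toQ I.length (ev I (upd (nv I) [] i 1)) - toQ I.length (ev I []) := by
      ext p q
      simp [co, toQ_mk, toQ_apply _ (ev _ _)]
    have e2 : ∑ j ∈ Finset.range (nv I), fa (upd (nv I) [] i 1) j • A' j = A' i := by
      rw [Finset.sum_eq_single i]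
      · simp [fa_upd _ _ _ _ hi]
      · intro j hj hji
        rw [fa_upd _ _ _ _ (Finset.mem_range.1 hj), update_of_ne hji]
        simp [fa]
      · intro h; exact absurd (Finset.mem_range.2 hi) h
    rw [e1, toQ, toQ, ev_spec, ev_spec, hev, hev, e2, e3, ← smul_sub]
    simp
  have hMf : ∀ f : ℕ → ℚ, toQ I.length (ev I []) +
      ∑ i ∈ Finset.range (nv I), f i • toQ I.length (co I i) =
      (((dens I).prod : ℤ) : ℚ) • (polyMatrix I).map (eval f) := fun f => by
    rw [Finset.sum_congr rfl fun i hi => by rw [hco i (Finset.mem_range.1 hi), smul_comm],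
      toQ, ev_spec, hev, hev, e3, add_zero, smul_add, Finset.smul_sum]
  have hrk : ∀ i < nv I, (toQ I.length (co I i)).rank ≤ 2 := fun i hi => by
    rw [hco i hi, smul_eq_diagonal_mul]
    refine (rank_mul_le_right _ _).trans ?_
    by_cases h : i < k
    · simpa [A', h] using hr i h
    · simp [A', h]
  have hdet : ∀ b, LinearMap.ker ((polyMatrix I).map (eval b)).mulVecLin = ⊥ ↔
      eval b (polyMatrix I).det ≠ 0 := fun b => by
    rw [RingHom.map_det, RingHom.mapMatrix_apply, Ne, ← exists_mulVec_eq_zero_iff,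
      LinearMap.ker_eq_bot']
    simp only [mulVecLin_apply, not_exists, not_and, ne_eq, not_imp_not]
  rw [alg2, decide_eq_true_eq, kd_spec, inf_idem, ev_spec, ker_smul' (dens_ne I),
    Nat.pos_iff_ne_zero, Ne, Submodule.finrank_eq_zero, hdet, not_not]
  refine ⟨fun h => by_contra fun hne => ?_, fun h => by rw [h, map_zero]⟩
  obtain ⟨f0, hf0⟩ : ∃ f0 : ℕ → ℚ, eval f0 (polyMatrix I).det ≠ 0 := by
    by_contra hc
    push Not at hc
    exact hne (MvPolynomial.funext fun b => by rw [hc b, map_zero])
  rw [← hdet, ← ker_smul' (dens_ne I)] at hf0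
  have key : ∀ t ≤ I.length, ((outStep I)^[t] (0, start I)).1 = t ∧
      LinearMap.ker (Nm (nv I) t ((((dens I).prod : ℤ) : ℚ) • (polyMatrix I).map
        (eval (fa ((outStep I)^[t] (0, start I)).2)))
        (fa ((outStep I)^[t] (0, start I)).2)).mulVecLin = ⊥ := by
    intro t
    induction t with
    | zero => intro _; exact ⟨rfl, by rw [iterate_zero, id, Nm_start]; simp⟩
    | succ t ih =>
      intro ht
      obtain ⟨h1, h2⟩ := ih (by omega)
      rw [iterate_succ_apply']
      generalize (outStep I)^[t] (0, start I) = s at h1 h2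
      have e : ∀ a, lin (dat I (t + 1)).1 (evm (dat I (t + 1)) a) =
          (Nm (nv I) (t + 1) ((((dens I).prod : ℤ) : ℚ) • (polyMatrix I).map (eval (fa a)))
            (fa a)).mulVecLin := fun a => by
        rw [lin_evm, ← hMf]; exact pm_dat I (t + 1) (fa a)
      refine ⟨by simp [outStep, h1], ?_⟩
      simp only [outStep, h1]
      rw [← e]
      let f : ℕ → ℚ := fun i => if i < nv I then f0 i else
        if h : (i - nv I) / I.length < I.length ∧ (i - nv I) % I.length < I.length then
          ((((dens I).prod : ℤ) : ℚ) • (polyMatrix I).map (eval f0)) ⟨_, h.1⟩ ⟨_, h.2⟩ else 0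
      refine ls_correct _ _ (rank_cf I _ hrk) (by rw [e]; exact ker_step ht _ _ h2)
        (fun i => f i) fun x hx => LinearMap.ker_eq_bot'.1 hf0 x ?_
      rw [pm_dat, hMf, eval_congr I (c := f0) fun i hi => if_pos hi] at hx
      refine Eq.trans (congrArg (fun N => mulVecLin N x) (Matrix.ext fun q c => ?_)) hx
      have h3 := (idx_iff (q := q) c.2 (i := nv I + q * I.length + c) (k := nv I) (by omega)).1 rfl
      have h4 : ¬ nv I + q * I.length + c < nv I := by omega
      simp only [Nm, of_apply, f, h4, if_false, ← h3.1, ← h3.2, q.2, c.2, and_self, dif_pos, ite_self]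
  have := (key _ le_rfl).2
  have e : ∀ (M : Matrix (Fin I.length) (Fin I.length) ℚ) f, Nm (nv I) I.length M f = M :=
    fun M f => by ext q c; simp [Nm]
  rw [e, ker_smul' (dens_ne I), hdet] at this
  exact this h

end Pool.Agent.P.MP_08e617_lc.R2
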