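import Pool.Agent.P.MP_08e617_lc.RkB

/-! The calculus of represented families, the AND lemma and the theorem of Ramsey. -/

namespace Pool.Agent.P.MP_08e617_lc.Rk

open Pool.Agent.Lib.helper21 Module
open scoped Pointwise

namespace PA

/-- Right translation. -/
def tr (g : FG) : (FG → ℚ) →ₗ[ℚ] (FG → ℚ) := LinearMap.funLeft ℚ ℚ fun x => x * g

theorem tr_apply (g : FG) (Φ : FG → ℚ) : tr g Φ = fun x => Φ (x * g) := rfl

theorem tr_inj (g : FG) : Function.Injective (tr g) := by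
  intro Φ Ψ h
  funext x
  have := congrFun h (x * g⁻¹)
  simpa [tr_apply] using this

theorem tr_span {B : Set (FG → ℚ)}
    (h : ∀ Φ ∈ B, ∀ g, (fun x => Φ (x * g)) ∈ Submodule.span ℚ B) (g : FG) {Φ : FG → ℚ}
    (hΦ : Φ ∈ Submodule.span ℚ B) : tr g Φ ∈ Submodule.span ℚ B := by
  have : Submodule.span ℚ B ≤ (Submodule.span ℚ B).comap (tr g) :=
    Submodule.span_le.2 fun Ψ hΨ => h Ψ hΨ g
  exact this hΦ

theorem word_empty : word ∅ = 1 := by simp [word]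

end PA

open PA

theorem word_insert_gt {Z : Finset ℕ} {i : ℕ} (h : ∀ z ∈ Z, z < i) :
    word (insert i Z) = word Z * FreeGroup.of i := by
  have hi : i ∉ Z := fun hi => lt_irrefl _ (h i hi)
  have e : (insert i Z).sort (· ≤ ·) = Z.sort (· ≤ ·) ++ [i] := by
    refine List.Perm.eq_of_pairwise' (r := (· ≤ ·)) (Finset.pairwise_sort _ _) ?_ ?_
    · rw [List.pairwise_append]
      refine ⟨Finset.pairwise_sort _ _, List.pairwise_singleton _ _, fun a ha b hb => ?_⟩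
      rw [List.mem_singleton.1 hb]
      exact (h a ((Finset.mem_sort _).1 ha)).le
    · refine (List.perm_ext_iff_of_nodup (Finset.sort_nodup _ _) ?_).2 fun a => ?_
      · rw [List.nodup_append]
        refine ⟨Finset.sort_nodup _ _, List.nodup_singleton _, fun a ha b hb => ?_⟩
        rw [List.mem_singleton.1 hb]
        exact (h a ((Finset.mem_sort _).1 ha)).ne
      · simp [or_comm]
  simp [word, e]

theorem word_insert_lt {Z : Finset ℕ} {i : ℕ} (h : ∀ z ∈ Z, i < z) :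
    word (insert i Z) = FreeGroup.of i * word Z := by
  have hi : i ∉ Z := fun hi => lt_irrefl _ (h i hi)
  unfold word
  rw [Finset.sort_insert _ (fun b hb => (h b hb).le) hi]
  simp

theorem Rep.of_span {D D' : ℕ} {S S' : Finset ℕ} {𝓕 𝓖 : Set (Finset ℕ → ℚ)} (h : Rep D S 𝓕)
    (hD : D ≤ D') (hS : S' ⊆ S)
    (h𝓖 : ∀ F ∈ 𝓖, ∃ F' ∈ Submodule.span ℚ 𝓕, ∀ Z ⊆ S', F Z = F' Z) : Rep D' S' 𝓖 := by
  obtain ⟨B, hB, hT, hF⟩ := h
  have key : ∀ F' ∈ Submodule.span ℚ 𝓕, ∃ Φ ∈ Submodule.span ℚ (B : Set (FG → ℚ)),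
      ∀ Z ⊆ S, F' Z = Φ (word Z) := by
    intro F' hF'
    induction hF' using Submodule.span_induction with
    | mem x hx => exact hF x hx
    | zero => exact ⟨0, Submodule.zero_mem _, fun _ _ => rfl⟩
    | add x y _ _ hx hy =>
      obtain ⟨Φ, hΦ, e⟩ := hx
      obtain ⟨Ψ, hΨ, e'⟩ := hy
      exact ⟨Φ + Ψ, Submodule.add_mem _ hΦ hΨ, fun Z hZ => by simp [e Z hZ, e' Z hZ]⟩
    | smul a x _ hx =>
      obtain ⟨Φ, hΦ, e⟩ := hx
      exact ⟨a • Φ, Submodule.smul_mem _ a hΦ, fun Z hZ => by simp [e Z hZ]⟩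
  refine ⟨B, hB.trans hD, hT, fun F hFG => ?_⟩
  obtain ⟨F', hF', e⟩ := h𝓖 F hFG
  obtain ⟨Φ, hΦ, e'⟩ := key F' hF'
  exact ⟨Φ, hΦ, fun Z hZ => (e Z hZ).trans (e' Z (hZ.trans hS))⟩

theorem Rep.one (S : Finset ℕ) : Rep 1 S {1} := by
  refine ⟨{1}, by simp, fun Φ hΦ g => ?_, fun F hF => ⟨1, ?_, fun Z _ => ?_⟩⟩
  · rw [Finset.mem_singleton.1 hΦ]
    exact Submodule.subset_span (by simp; rfl)
  · exact Submodule.subset_span (by simp)
  · rw [Set.mem_singleton_iff.1 hF]; rfl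

theorem Rep.mul {D D' : ℕ} {S : Finset ℕ} {𝓕 𝓖 : Set (Finset ℕ → ℚ)} (h : Rep D S 𝓕)
    (h' : Rep D' S 𝓖) : Rep (D * D') S (𝓕 * 𝓖) := by
  classical
  obtain ⟨B, hB, hT, hF⟩ := h
  obtain ⟨B', hB', hT', hF'⟩ := h'
  have e : Submodule.span ℚ ((B * B' : Finset (FG → ℚ)) : Set (FG → ℚ)) =
      Submodule.span ℚ (B : Set (FG → ℚ)) * Submodule.span ℚ (B' : Set (FG → ℚ)) := by
    rw [Finset.coe_mul, Submodule.span_mul_span]
  refine ⟨B * B', Finset.card_mul_le.trans (Nat.mul_le_mul hB hB'), fun Φ hΦ g => ?_,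
    fun F hFG => ?_⟩
  · obtain ⟨Φ₁, h₁, Φ₂, h₂, rfl⟩ := Finset.mem_mul.1 hΦ
    rw [e]
    exact Submodule.mul_mem_mul (hT Φ₁ h₁ g) (hT' Φ₂ h₂ g)
  · obtain ⟨F₁, h₁, F₂, h₂, rfl⟩ := Set.mem_mul.1 hFG
    obtain ⟨Φ₁, m₁, e₁⟩ := hF F₁ h₁
    obtain ⟨Φ₂, m₂, e₂⟩ := hF' F₂ h₂
    refine ⟨Φ₁ * Φ₂, ?_, fun Z hZ => by simp [e₁ Z hZ, e₂ Z hZ]⟩
    rw [e]
    exact Submodule.mul_mem_mul m₁ m₂

theorem Rep.union {D D' : ℕ} {S : Finset ℕ} {𝓕 𝓖 : Set (Finset ℕ → ℚ)} (h : Rep D S 𝓕)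
    (h' : Rep D' S 𝓖) : Rep (D + D') S (𝓕 ∪ 𝓖) := by
  classical
  obtain ⟨B, hB, hT, hF⟩ := h
  obtain ⟨B', hB', hT', hF'⟩ := h'
  have l : Submodule.span ℚ (B : Set (FG → ℚ)) ≤
      Submodule.span ℚ ((B ∪ B' : Finset (FG → ℚ)) : Set (FG → ℚ)) :=
    Submodule.span_mono (by simp)
  have l' : Submodule.span ℚ (B' : Set (FG → ℚ)) ≤
      Submodule.span ℚ ((B ∪ B' : Finset (FG → ℚ)) : Set (FG → ℚ)) :=
    Submodule.span_mono (by simp)
  refine ⟨B ∪ B', (Finset.card_union_le _ _).trans (Nat.add_le_add hB hB'), fun Φ hΦ g => ?_,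
    fun F hFG => ?_⟩
  · rcases Finset.mem_union.1 hΦ with h₁ | h₁
    · exact l (hT Φ h₁ g)
    · exact l' (hT' Φ h₁ g)
  · rcases hFG with h₁ | h₁
    · obtain ⟨Φ, m, e⟩ := hF F h₁
      exact ⟨Φ, l m, e⟩
    · obtain ⟨Φ, m, e⟩ := hF' F h₁
      exact ⟨Φ, l' m, e⟩

theorem Rep.char (S : Finset ℕ) (χ : ℕ → ℚ) (hχ : ∀ i, χ i ≠ 0) :
    Rep 1 S {fun Z => ∏ i ∈ Z, χ i} := by
  let φ : FG →* ℚˣ := FreeGroup.lift fun i => Units.mk0 (χ i) (hχ i)
  have hφ : ∀ Z : Finset ℕ, ∏ i ∈ Z, χ i = (φ (word Z) : ℚ) := by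
    intro Z
    induction Z using Finset.induction_on_max with
    | empty => simp [word_empty]
    | insert a s ha ih =>
      have hi : a ∉ s := fun hi => lt_irrefl _ (ha a hi)
      rw [Finset.prod_insert hi, word_insert_gt ha, map_mul, ih, Units.val_mul, mul_comm]
      simp [φ]
  refine ⟨{fun g => (φ g : ℚ)}, by simp, fun Φ hΦ g => ?_,
    fun F hF => ⟨fun g => (φ g : ℚ), Submodule.subset_span (by simp), fun Z _ => ?_⟩⟩
  · rw [Finset.mem_singleton.1 hΦ]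
    have : (fun x => ((φ (x * g) : ℚˣ) : ℚ)) = (φ g : ℚ) • fun x => ((φ x : ℚˣ) : ℚ) := by
      funext x
      simp [mul_comm]
    rw [this]
    exact Submodule.smul_mem _ _ (Submodule.subset_span (by simp))
  · rw [Set.mem_singleton_iff.1 hF]
    exact hφ Z

theorem PA.rep_pow {D : ℕ} {S : Finset ℕ} {𝓕 : Set (Finset ℕ → ℚ)} (h : Rep D S 𝓕) (r : ℕ) :
    Rep (D ^ r) S (𝓕 ^ r) := by
  induction r with
  | zero => rw [pow_zero, pow_zero, ← Set.singleton_one]; exact Rep.one S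
  | succ r ih => rw [pow_succ, pow_succ]; exact ih.mul h

theorem Rep.det {D r : ℕ} {S : Finset ℕ} {𝓕 : Set (Finset ℕ → ℚ)} (h : Rep D S 𝓕)
    (M : Finset ℕ → Matrix (Fin r) (Fin r) ℚ) (hM : ∀ i j, (fun Z => M Z i j) ∈ 𝓕) :
    Rep (D ^ r) S {fun Z => (M Z).det} := by
  refine (PA.rep_pow h r).of_span le_rfl subset_rfl fun F hF => ?_
  rw [Set.mem_singleton_iff.1 hF]
  refine ⟨∑ σ : Equiv.Perm (Fin r), ((Equiv.Perm.sign σ : ℤ) : ℚ) •
    ∏ i : Fin r, fun Z => M Z (σ i) i, ?_, fun Z _ => ?_⟩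
  · refine Submodule.sum_mem _ fun σ _ => Submodule.smul_mem _ _ (Submodule.subset_span ?_)
    have := Set.finsetProd_mem_finsetProd (Finset.univ : Finset (Fin r)) (fun _ => 𝓕)
      (fun i => fun Z => M Z (σ i) i) fun i _ => hM (σ i) i
    simpa using this
  · simp [Matrix.det_apply', Finset.sum_apply, Finset.prod_apply]

/-- The members of `P` that vanish on the words of the subsets of `S`. -/
def PA.van (P : Submodule ℚ (FG → ℚ)) (S : Finset ℕ) : Submodule ℚ (FG → ℚ) where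
  carrier := {Φ | Φ ∈ P ∧ ∀ Z ⊆ S, Φ (word Z) = 0}
  add_mem' := fun ha hb => ⟨P.add_mem ha.1 hb.1, fun Z hZ => by simp [ha.2 Z hZ, hb.2 Z hZ]⟩
  zero_mem' := ⟨P.zero_mem, fun _ _ => rfl⟩
  smul_mem' := fun c _ ha => ⟨P.smul_mem c ha.1, fun Z hZ => by simp [ha.2 Z hZ]⟩

theorem PA.mem_van {P : Submodule ℚ (FG → ℚ)} {S : Finset ℕ} {Φ : FG → ℚ} :
    Φ ∈ PA.van P S ↔ Φ ∈ P ∧ ∀ Z ⊆ S, Φ (word Z) = 0 := Iff.rfl

theorem Rep.card_le {D : ℕ} {S : Finset ℕ} {F : Finset ℕ → ℚ} (h : Rep D S {F}) (h0 : F ∅ ≠ 0)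
    (h1 : ∀ Z ⊆ S, Z.Nonempty → F Z = 0) : S.card ≤ D := by
  obtain ⟨B, hB, hT, hF⟩ := h
  obtain ⟨Φ₀, hΦ₀, e⟩ := hF F rfl
  set P := Submodule.span ℚ (B : Set (FG → ℚ)) with hP
  have hfd : FiniteDimensional ℚ P := FiniteDimensional.span_finset ℚ B
  have hle : ∀ S', PA.van P S' ≤ P := fun S' Φ hΦ => hΦ.1
  have hfin : ∀ S', FiniteDimensional ℚ (PA.van P S') := fun S' =>
    Submodule.finiteDimensional_of_le (hle S')
  have key : ∀ S' : Finset ℕ, S' ⊆ S → S'.card + finrank ℚ (PA.van P S') ≤ finrank ℚ P := by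
    intro S'
    induction S' using Finset.induction_on_max with
    | empty => intro _; simpa using Submodule.finrank_mono (hle ∅)
    | insert a s ha ih =>
      intro hs
      have hi : a ∉ s := fun hi => lt_irrefl _ (ha a hi)
      have ih' := ih ((Finset.subset_insert _ _).trans hs)
      have hfs := hfin s
      have hlt : PA.van P (insert a s) < PA.van P s := by
        refine lt_of_le_of_ne (fun Φ hΦ => ⟨hΦ.1, fun Z hZ =>
          hΦ.2 Z (hZ.trans (Finset.subset_insert _ _))⟩) fun heq => ?_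
        have hw : ∀ Z ⊆ s, word Z * FreeGroup.of a = word (insert a Z) := fun Z hZ =>
          (word_insert_gt fun z hz => ha z (hZ hz)).symm
        have hmap : ∀ Φ ∈ PA.van P s, tr (FreeGroup.of a) Φ ∈ PA.van P s := by
          intro Φ hΦ
          refine ⟨tr_span hT _ hΦ.1, fun Z hZ => ?_⟩
          rw [← heq] at hΦ
          rw [tr_apply]
          show Φ (word Z * FreeGroup.of a) = 0
          rw [hw Z hZ]
          exact hΦ.2 _ (Finset.insert_subset_insert _ hZ)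
        have hinj : Function.Injective ((tr (FreeGroup.of a)).restrict hmap) := by
          intro x y hxy
          exact Subtype.ext (tr_inj _ (congrArg Subtype.val hxy))
        have hsur := LinearMap.injective_iff_surjective.1 hinj
        have hm : tr (FreeGroup.of a) Φ₀ ∈ PA.van P s := by
          refine ⟨tr_span hT _ hΦ₀, fun Z hZ => ?_⟩
          show Φ₀ (word Z * FreeGroup.of a) = 0
          have hZ' : insert a Z ⊆ S := (Finset.insert_subset_insert _ hZ).trans hs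
          rw [hw Z hZ, ← e _ hZ']
          exact h1 _ hZ' (Finset.insert_nonempty _ _)
        obtain ⟨Ψ, hΨ⟩ := hsur ⟨_, hm⟩
        have hΨ' : Ψ.1 = Φ₀ := tr_inj _ (congrArg Subtype.val hΨ)
        have := Ψ.2.2 ∅ (Finset.empty_subset _)
        rw [hΨ', ← e ∅ (Finset.empty_subset _)] at this
        exact h0 this
      have := Submodule.finrank_lt_finrank_of_lt hlt
      rw [Finset.card_insert_of_notMem hi]
      omega
  have h2 := key S subset_rfl
  have h3 : finrank ℚ P ≤ B.card := finrank_span_finset_le_card B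
  omega

theorem PA.coef {W : Type} [AddCommGroup W] [Module ℚ W] [FiniteDimensional ℚ W]
    (ψ : FG → (W ≃ₗ[ℚ] W)) : ∃ B : Finset (FG → ℚ), B.card ≤ finrank ℚ W * finrank ℚ W ∧
      (∀ Φ ∈ B, ∃ (x : W) (l : W →ₗ[ℚ] ℚ), Φ = fun g => l (ψ g x)) ∧
      ∀ (x : W) (l : W →ₗ[ℚ] ℚ),
        (fun g => l (ψ g x)) ∈ Submodule.span ℚ (B : Set (FG → ℚ)) := by
  classical
  let b := Module.finBasis ℚ W
  refine ⟨Finset.univ.image fun p : Fin (finrank ℚ W) × Fin (finrank ℚ W) =>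
    fun g => b.coord p.1 (ψ g (b p.2)), Finset.card_image_le.trans (by simp), fun Φ hΦ => ?_,
    fun x l => ?_⟩
  · obtain ⟨p, -, rfl⟩ := Finset.mem_image.1 hΦ
    exact ⟨b p.2, b.coord p.1, rfl⟩
  · have : (fun g => l (ψ g x)) = ∑ i, ∑ j, (l (b i) * b.repr x j) •
        fun g => b.coord i (ψ g (b j)) := by
      funext g
      have e1 : ψ g x = ∑ j, b.repr x j • ψ g (b j) := by
        conv_lhs => rw [← b.sum_repr x]
        simp only [map_sum, map_smul]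
      have e2 : ∀ y : W, l y = ∑ i, l (b i) * b.coord i y := by
        intro y
        conv_lhs => rw [← b.sum_repr y]
        simp only [map_sum, map_smul, smul_eq_mul, Basis.coord_apply, mul_comm]
      rw [e2, e1]
      simp [Finset.sum_apply, Finset.mul_sum, mul_assoc]
    rw [this]
    refine Submodule.sum_mem _ fun i _ => Submodule.sum_mem _ fun j _ =>
      Submodule.smul_mem _ _ (Submodule.subset_span ?_)
    exact Finset.mem_coe.2 (Finset.mem_image.2 ⟨(i, j), Finset.mem_univ _, rfl⟩)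

theorem Rep.hom {W : Type} [AddCommGroup W] [Module ℚ W] [FiniteDimensional ℚ W] (S : Finset ℕ)
    (φ : FG →* (W ≃ₗ[ℚ] W)) :
    Rep (finrank ℚ W * finrank ℚ W) S
      {F | ∃ (x : W) (l : W →ₗ[ℚ] ℚ), F = fun Z => l (φ (word Z) x)} ∧
    Rep (finrank ℚ W * finrank ℚ W) S
      {F | ∃ (x : W) (l : W →ₗ[ℚ] ℚ), F = fun Z => l ((φ (word Z))⁻¹ x)} := by
  constructor
  · obtain ⟨B, hB, h1, h2⟩ := PA.coef fun g => φ g
    refine ⟨B, hB, fun Φ hΦ g => ?_, ?_⟩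
    · obtain ⟨x, l, rfl⟩ := h1 Φ hΦ
      have := h2 (φ g x) l
      simpa using this
    · rintro F ⟨x, l, rfl⟩
      exact ⟨_, h2 x l, fun _ _ => rfl⟩
  · obtain ⟨B, hB, h1, h2⟩ := PA.coef fun g => (φ g)⁻¹
    refine ⟨B, hB, fun Φ hΦ g => ?_, ?_⟩
    · obtain ⟨x, l, rfl⟩ := h1 Φ hΦ
      have := h2 x (l ∘ₗ ((φ g)⁻¹ : W ≃ₗ[ℚ] W).toLinearMap)
      simpa using this
    · rintro F ⟨x, l, rfl⟩
      exact ⟨_, h2 x l, fun _ _ => rfl⟩

theorem PA.endHom (r m : ℕ) : ∃ N, ∀ (f : ℕ → ℕ → ℕ) (A : Finset ℕ), N ≤ A.card →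
    (∀ x ∈ A, ∀ y ∈ A, x < y → f x y < r) →
    ∃ B ⊆ A, m ≤ B.card ∧ ∃ g : ℕ → ℕ, (∀ x ∈ B, g x < r) ∧
      ∀ x ∈ B, ∀ y ∈ B, x < y → f x y = g x := by
  induction m with
  | zero => exact ⟨0, fun f A _ _ => ⟨∅, by simp, le_rfl, fun _ => 0, by simp, by simp⟩⟩
  | succ m ih =>
    obtain ⟨N, hN⟩ := ih
    refine ⟨r * N + 2, fun f A hA hf => ?_⟩
    have hne : A.Nonempty := Finset.card_pos.1 (by omega)
    set a := A.min' hne with ha
    have haA : a ∈ A := A.min'_mem hne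
    have hlt : ∀ y ∈ A.erase a, a < y := fun y hy =>
      lt_of_le_of_ne (A.min'_le y (Finset.mem_of_mem_erase hy)) (Finset.ne_of_mem_erase hy).symm
    obtain ⟨c, hc, hcard⟩ := Finset.exists_lt_card_fiber_of_mul_lt_card_of_maps_to
      (s := A.erase a) (t := Finset.range r) (f := f a) (n := N)
      (fun y hy => Finset.mem_range.2 (hf a haA y (Finset.mem_of_mem_erase hy) (hlt y hy)))
      (by rw [Finset.card_range, Finset.card_erase_of_mem haA]; omega)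
    have hsub : ∀ y ∈ (A.erase a).filter fun y => f a y = c, y ∈ A := fun y hy =>
      Finset.mem_of_mem_erase (Finset.mem_filter.1 hy).1
    obtain ⟨B, hB, hm, g, hg, hfg⟩ := hN f _ hcard.le fun x hx y hy => hf x (hsub x hx) y (hsub y hy)
    have hBa : ∀ y ∈ B, a < y := fun y hy => hlt y (Finset.mem_filter.1 (hB hy)).1
    have haB : a ∉ B := fun h => lt_irrefl _ (hBa a h)
    refine ⟨insert a B, Finset.insert_subset haA fun y hy => hsub y (hB hy), ?_,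
      fun x => if x = a then c else g x, fun x hx => ?_, fun x hx y hy hxy => ?_⟩
    · rw [Finset.card_insert_of_notMem haB]; omega
    · rcases Finset.mem_insert.1 hx with rfl | hx
      · simpa using hc
      · simpa [(hBa x hx).ne'] using hg x hx
    · rcases Finset.mem_insert.1 hx with rfl | hx
      · rcases Finset.mem_insert.1 hy with rfl | hy
        · exact absurd hxy (lt_irrefl _)
        · simpa using (Finset.mem_filter.1 (hB hy)).2
      · rcases Finset.mem_insert.1 hy with rfl | hy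
        · exact absurd hxy (hBa x hx).asymm
        · simpa [(hBa x hx).ne'] using hfg x hx y hy hxy

theorem ramsey (r s : ℕ) : ∃ N, ∀ (f : ℕ → ℕ → ℕ) (A : Finset ℕ), N ≤ A.card →
    (∀ x ∈ A, ∀ y ∈ A, x < y → f x y < r) →
    ∃ B ⊆ A, s ≤ B.card ∧ ∃ c, ∀ x ∈ B, ∀ y ∈ B, x < y → f x y = c := by
  obtain ⟨N, hN⟩ := PA.endHom r (r * s + 1)
  refine ⟨N, fun f A hA hf => ?_⟩
  obtain ⟨B, hB, hm, g, hg, hfg⟩ := hN f A hA hf
  obtain ⟨c, -, hcard⟩ := Finset.exists_lt_card_fiber_of_mul_lt_card_of_maps_to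
    (s := B) (t := Finset.range r) (f := g) (n := s)
    (fun y hy => Finset.mem_range.2 (hg y hy)) (by rw [Finset.card_range]; omega)
  refine ⟨B.filter fun x => g x = c, (Finset.filter_subset _ _).trans hB, hcard.le, c,
    fun x hx y hy hxy => ?_⟩
  rw [hfg x (Finset.mem_filter.1 hx).1 y (Finset.mem_filter.1 hy).1 hxy]
  exact (Finset.mem_filter.1 hx).2

end Pool.Agent.P.MP_08e617_lc.Rk
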