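import Pool.Agent.P.MP_08e617_lc.Defs

/-! Bounded reads and bounded branch-width: definitions used in the statement. -/

namespace Pool.Agent.P.MP_08e617_lc

/-- Every entry is a sum of parts, every part has at most `k` variables or is a single monomial,
and every variable occurs in at most `k` parts of the whole matrix. -/
def ReadLE {n : ℕ} (M : Matrix (Fin n) (Fin n) (MvPolynomial ℕ ℚ)) (k : ℕ) : Prop :=
  ∃ (m : ℕ) (pos : Fin m → Fin n × Fin n) (p : Fin m → MvPolynomial ℕ ℚ),
    (∀ r c, M r c = ∑ j with pos j = (r, c), p j) ∧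
    (∀ j, (p j).vars.card ≤ k ∨ (p j).support.card ≤ 1) ∧
    ∀ x, (Finset.univ.filter fun j => x ∈ (p j).vars).card ≤ k

/-- The number of rows plus the number of columns met both by `P` and by `Q \ P`. -/
def cutw {n : ℕ} (Q P : Finset (Fin n × Fin n)) : ℕ :=
  (P.image Prod.fst ∩ (Q \ P).image Prod.fst).card + (P.image Prod.snd ∩ (Q \ P).image Prod.snd).card

open Classical in
/-- The positions of the nonzero entries. -/
noncomputable def supp {n : ℕ} (M : Matrix (Fin n) (Fin n) (MvPolynomial ℕ ℚ)) :
    Finset (Fin n × Fin n) := Finset.univ.filter fun x => M x.1 x.2 ≠ 0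

/-- The bipartite graph (rows, columns, nonzero entries) has branch-width at most `w`: the set of
nonzero positions can be split recursively into two parts, down to single positions, so that every
set met on the way shares at most `w` rows and columns with the other nonzero positions. -/
def BranchLE {n : ℕ} (M : Matrix (Fin n) (Fin n) (MvPolynomial ℕ ℚ)) (w : ℕ) : Prop :=
  ∃ 𝓛 : Set (Finset (Fin n × Fin n)), supp M ∈ 𝓛 ∧ ∀ P ∈ 𝓛, cutw (supp M) P ≤ w ∧
    (2 ≤ P.card → ∃ P' ∈ 𝓛, P' ⊆ P ∧ P'.Nonempty ∧ P' ≠ P ∧ P \ P' ∈ 𝓛)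

end Pool.Agent.P.MP_08e617_lc
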