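import Pool.Agent.P.MP_08e617_lc.Main
import Pool.Agent.P.MP_08e617_lc.RkDefs

/-! Bounded reads and bounded branch-width: definitions used in the proof. -/

namespace Pool.Agent.P.MP_08e617_lc.Rk

open Pool.Agent.Lib.helper21 Module

/-! ### Functions of a set given by matrix coefficients of ordered products -/

/-- The free group on the variables. -/
abbrev FG := FreeGroup ℕ

/-- The product of the generators in `Z`, in increasing order. -/
def word (Z : Finset ℕ) : FG := ((Z.sort (· ≤ ·)).map FreeGroup.of).prod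

/-- On subsets of `S`, all members of `𝓕` are read off a space of functions on the free group that
is spanned by `D` functions and invariant under right translations. -/
def Rep (D : ℕ) (S : Finset ℕ) (𝓕 : Set (Finset ℕ → ℚ)) : Prop :=
  ∃ B : Finset (FG → ℚ), B.card ≤ D ∧
    (∀ Φ ∈ B, ∀ g, (fun x => Φ (x * g)) ∈ Submodule.span ℚ (B : Set (FG → ℚ))) ∧
    ∀ F ∈ 𝓕, ∃ Φ ∈ Submodule.span ℚ (B : Set (FG → ℚ)), ∀ Z ⊆ S, F Z = Φ (word Z)

/-! ### Abstract systems of contexts -/

/-- A decreasing chain of nodes whose differences are nodes. -/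
def Chain (N : Finset ℕ → Prop) (c : ℕ → Finset ℕ) (L : ℕ) : Prop :=
  (∀ j ≤ L, N (c j)) ∧ ∀ j < L, c (j + 1) ⊆ c j ∧ N (c j \ c (j + 1))

/-- There is a chain from `u` to `h`. -/
def Desc (N : Finset ℕ → Prop) (u h : Finset ℕ) : Prop :=
  ∃ c L, Chain N c L ∧ c 0 = u ∧ c L = h

section
variable {V : Type} [AddCommGroup V] [Module ℚ V]

/-- The entries of the maps `C Z` on `D`, as functions of `Z`. -/
def Ent (D : Submodule ℚ V) (C : Finset ℕ → V →ₗ[ℚ] V) : Set (Finset ℕ → ℚ) :=
  {F | ∃ f ∈ D, ∃ l : V →ₗ[ℚ] ℚ, F = fun Z => l (C Z f)}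

/-- Nodes `N` (sets of edges), the variables `aff e` of an edge, a space `D u` for every node and
maps `C u v Z` that depend on a set `Z` of variables. -/
structure Sys (V : Type) [AddCommGroup V] [Module ℚ V] (k w : ℕ) where
  N : Finset ℕ → Prop
  aff : ℕ → Finset ℕ
  D : Finset ℕ → Submodule ℚ V
  C : Finset ℕ → Finset ℕ → Finset ℕ → V →ₗ[ℚ] V
  n0 : N ∅
  spl : ∀ R, N R → 2 ≤ R.card → ∃ R', N R' ∧ R' ⊆ R ∧ R'.Nonempty ∧ R' ≠ R ∧ N (R \ R')
  fin : ∀ R, N R → FiniteDimensional ℚ (D R) ∧ finrank ℚ (D R) ≤ w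
  map : ∀ u v Z, N u → N v → v ⊆ u → ∀ f ∈ D u, C u v Z f ∈ D v
  comp : ∀ u v h Z f, h ⊆ v → v ⊆ u → C v h Z (C u v Z f) = C u h Z f
  loc : ∀ u v Z Z', N u → (∀ e ∈ u \ v, ∀ i ∈ aff e, (i ∈ Z ↔ i ∈ Z')) → C u v Z = C u v Z'
  step : ∀ R R', N R → N R' → R' ⊆ R → N (R \ R') →
    Ent (D R) (C R R') ⊆ Submodule.span ℚ (Ent (D (R \ R')) (C (R \ R') ∅))
  leaf : ∀ e, N {e} → ∀ S : Finset ℕ, ∃ S' ⊆ S, S.card ≤ S'.card + k ∧
    Rep 2 S' (Ent (D {e}) (C {e} ∅))

variable {k w : ℕ} (X : Sys V k w)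

/-- The rank of a context. -/
noncomputable def Sys.rk (u h Z : Finset ℕ) : ℕ := finrank ℚ ((X.D u).map (X.C u h Z))

/-- All ranks are constant on the nonempty subsets of `S`. -/
def Sys.Hyp (S : Finset ℕ) : Prop :=
  ∀ u h, Desc X.N u h → ∀ Z ⊆ S, Z.Nonempty → X.rk u h Z = X.rk u h S

end

/-! ### Minors without signs -/

/-- A bipartite multigraph: edge `e` joins row `rw e` (vertex `rw e`) and column `cl e` (vertex
`n + cl e`). -/
structure Gr where
  n : ℕ
  All : Finset ℕ
  rw : ℕ → ℕ
  cl : ℕ → ℕ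

/-- All edges have their ends in range. -/
def Gr.Ok (G : Gr) : Prop := ∀ e ∈ G.All, G.rw e < G.n ∧ G.cl e < G.n
/-- The vertices met by `R`. -/
def Gr.vs (G : Gr) (R : Finset ℕ) : Finset ℕ := R.image G.rw ∪ R.image fun e => G.n + G.cl e
/-- The vertices met by `R` and by another edge. -/
def Gr.bd (G : Gr) (R : Finset ℕ) : Finset ℕ := G.vs R ∩ G.vs (G.All \ R)
/-- The vertices met by `R` only. -/
def Gr.inn (G : Gr) (R : Finset ℕ) : Finset ℕ := G.vs R \ G.vs (G.All \ R)

section
variable {K : Type} [CommRing K]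

/-- The matrix with value `val e` on the edges of `R`. -/
def Gr.mat (G : Gr) (R : Finset ℕ) (val : ℕ → K) : ℕ → ℕ → K :=
  fun r c => ∑ e ∈ R with G.rw e = r ∧ G.cl e = c, val e
/-- Keep the entries whose row and column are in `Y`. -/
def mask (n : ℕ) (Y : Finset ℕ) (B : ℕ → ℕ → K) : ℕ → ℕ → K :=
  fun r c => if r ∈ Y ∧ n + c ∈ Y then B r c else 0
/-- The number of members of `Y` in `[o, o + x)`. -/
def cnt (Y : Finset ℕ) (o x : ℕ) : ℕ := ((Finset.range x).filter fun y => o + y ∈ Y).card
/-- The order preserving matching between the rows and the columns in `Y`. -/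
def ref (n : ℕ) (Y : Finset ℕ) : ℕ → ℕ → K :=
  fun r c => if r ∈ Y ∧ n + c ∈ Y ∧ cnt Y 0 r = cnt Y n c then 1 else 0
/-- The minor on `Y`, up to sign. -/
def mnr (n : ℕ) (Y : Finset ℕ) (B : ℕ → ℕ → K) : K :=
  (Matrix.of fun r c : Fin n => mask n Y B r c + ref n (Finset.range (2 * n) \ Y) r c).det

end

/-- Functions on matrices. -/
abbrev Fn := (ℕ → ℕ → ℚ) → ℚ

/-- The span of the minors that contain all inner vertices of `u`. -/
def Gr.Dm (G : Gr) (u : Finset ℕ) : Submodule ℚ Fn :=
  Submodule.span ℚ {f | ∃ Y, G.inn u ⊆ Y ∧ Y ⊆ G.vs u ∧ f = mnr G.n Y}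
/-- Filling in the edges of `u \ v`. -/
def Gr.Cv (G : Gr) (u v : Finset ℕ) (val : ℕ → ℚ) : Fn →ₗ[ℚ] Fn :=
  LinearMap.funLeft ℚ ℚ fun B => G.mat (u \ v) val + mask G.n (G.vs v) B
/-- The rank of a context. -/
noncomputable def Gr.rk (G : Gr) (u v : Finset ℕ) (val : ℕ → ℚ) : ℕ :=
  finrank ℚ ((G.Dm u).map (G.Cv u v val))

/-- Two edges share a vertex outside `X`. -/
def Gr.Adj (G : Gr) (X : Finset ℕ) (e e' : ℕ) : Prop :=
  (G.rw e = G.rw e' ∧ G.rw e ∉ X) ∨ (G.cl e = G.cl e' ∧ G.n + G.cl e ∉ X)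
/-- `A` is closed inside `R`. -/
def Gr.Closed (G : Gr) (R X A : Finset ℕ) : Prop := ∀ e ∈ R, ∀ e' ∈ A, G.Adj X e e' → e ∈ A
/-- `A` is the closure of `Z` inside `R`. -/
def Gr.IsCl (G : Gr) (R X Z A : Finset ℕ) : Prop :=
  Z ⊆ A ∧ A ⊆ R ∧ G.Closed R X A ∧ ∀ A', Z ⊆ A' → G.Closed R X A' → A ⊆ A'

/-- The rank of a polynomial matrix at a point. -/
noncomputable def rkAt {N : ℕ} (M : Matrix (Fin N) (Fin N) (MvPolynomial ℕ ℚ)) (p : ℕ → ℚ) : ℕ :=
  (M.map (MvPolynomial.eval p)).rank

/-- The vertices of the cube spanned by `a` and `y` on `S`; `Z` is the set put back to `a`. -/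
def cub (a y : ℕ → ℚ) (S Z : Finset ℕ) : ℕ → ℚ := fun j => if j ∈ S ∧ j ∉ Z then y j else a j

/-! ### The algorithm -/

/-- A monomial with its position. -/
abbrev Mo := ℕ × ℕ × ℚ × List ℕ

/-- All monomials of the input. -/
def mons (I : Inp) : List Mo :=
  (List.range I.length).flatMap fun p => (List.range I.length).flatMap fun q =>
    ((I.getD p []).getD q []).map fun m => (p, q, m)
/-- The monomial number `j`. -/
def mo (I : Inp) (j : ℕ) : Mo := (mons I).getD j (0, 0, 0, [])
/-- Same exponents. -/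
def sameE (K : ℕ) (l l' : List ℕ) : Bool :=
  (List.range K).all fun i => decide (l.getD i 0 = l'.getD i 0)
/-- Same variables. -/
def sameS (K : ℕ) (l l' : List ℕ) : Bool :=
  (List.range K).all fun i => !xor (decide (l.getD i 0 = 0)) (decide (l'.getD i 0 = 0))
/-- At most `k` variables. -/
def small (k K : ℕ) (l : List ℕ) : Bool :=
  decide (((List.range K).filter fun i => !decide (l.getD i 0 = 0)).length ≤ k)
/-- Same position. -/
def sameP (m m' : Mo) : Bool := decide (m.1 = m'.1) && decide (m.2.1 = m'.2.1)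
/-- Same part. -/
def sameK (k K : ℕ) (m m' : Mo) : Bool :=
  sameP m m' && cond (small k K m.2.2.2) (sameS K m.2.2.2 m'.2.2.2) (sameE K m.2.2.2 m'.2.2.2)
/-- The point with all coordinates one. -/
def ones (I : Inp) : List ℕ := (List.range (nv I)).map fun _ => 1
/-- The monomial does not cancel. -/
def live (I : Inp) (m : Mo) : Bool :=
  !decide ((((mons I).filter fun m' => sameP m m' && sameE (nv I) m.2.2.2 m'.2.2.2).map
    fun m' => mval (dens I) (ones I) m'.2.2).sum = 0)
/-- One monomial for every part. -/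
def edges (k : ℕ) (I : Inp) : List ℕ :=
  (List.range (mons I).length).filter fun j => live I (mo I j) &&
    !(List.range j).any fun i => live I (mo I i) && sameK k (nv I) (mo I i) (mo I j)
/-- The scaled value of a part. -/
def valL (k : ℕ) (I : Inp) (a : List ℕ) (j : ℕ) : ℤ :=
  (((mons I).filter fun m => sameK k (nv I) (mo I j) m).map fun m => mval (dens I) a m.2.2).sum
/-- The graph of the parts. -/
def gr (k : ℕ) (I : Inp) : Gr :=
  ⟨I.length, (edges k I).toFinset, fun j => (mo I j).1, fun j => (mo I j).2.1⟩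

/-- Membership. -/
def memL (x : ℕ) (l : List ℕ) : Bool := l.any fun y => decide (x = y)
/-- Difference. -/
def diffL (l l' : List ℕ) : List ℕ := l.filter fun x => !memL x l'
/-- Vertices of a list of edges. -/
def vsL (I : Inp) (R : List ℕ) : List ℕ :=
  (R.map fun j => (mo I j).1) ++ R.map fun j => I.length + (mo I j).2.1
/-- Boundary vertices. -/
def bdL (k : ℕ) (I : Inp) (R : List ℕ) : List ℕ :=
  (List.range (2 * I.length)).filter fun x =>
    memL x (vsL I R) && memL x (vsL I (diffL (edges k I) R))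
/-- Inner vertices. -/
def innL (k : ℕ) (I : Inp) (R : List ℕ) : List ℕ := diffL (vsL I R) (vsL I (diffL (edges k I) R))
/-- Two edges share a vertex outside `X`. -/
def adjL (I : Inp) (X : List ℕ) (e e' : ℕ) : Bool :=
  (decide ((mo I e).1 = (mo I e').1) && !memL (mo I e).1 X) ||
    (decide ((mo I e).2.1 = (mo I e').2.1) && !memL (I.length + (mo I e).2.1) X)
/-- One step of the closure. -/
def cloStep (I : Inp) (R X s : List ℕ) : List ℕ :=
  R.filter fun e => memL e s || s.any fun e' => adjL I X e e'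
/-- The closure of `Z` inside `R`. -/
def clo (I : Inp) (R X Z : List ℕ) : List ℕ :=
  (cloStep I R X)^[R.length] (R.filter fun e => memL e Z)
/-- All lists of at most `b` members of `l`. -/
def tup : ℕ → List ℕ → List (List ℕ)
  | 0, _ => [[]]
  | b + 1, l => [] :: l.flatMap fun x => (tup b l).map fun t => x :: t
/-- The bound for the boundaries. -/
def bw (w : ℕ) : ℕ := 3 * (w + 2) + 3
/-- An admissible splitting. -/
def okL (k w : ℕ) (I : Inp) (R R1 : List ℕ) : Bool :=
  !R1.isEmpty && !(diffL R R1).isEmpty && decide ((bdL k I R1).length ≤ bw w) &&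
    decide ((bdL k I (diffL R R1)).length ≤ bw w)
/-- Splitting a set of edges. -/
def sp (k w : ℕ) (I : Inp) (R : List ℕ) : List (List ℕ) :=
  lcase (((tup (w + 2) (List.range (2 * I.length))).flatMap fun X =>
    (tup (bw w + 1) R).map fun Z => clo I R X Z).filter fun R1 => okL k w I R R1) [R]
    fun R1 _ => [R1, diffL R R1]
/-- The partition after `j` rounds. -/
def cur (k w : ℕ) (I : Inp) (j : ℕ) : List (List ℕ) :=
  (fun l => l.flatMap (sp k w I))^[j] [edges k I]
/-- All nodes. -/
def fam (k w : ℕ) (I : Inp) : List (List ℕ) :=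
  [] :: (List.range ((edges k I).length + 1)).flatMap (cur k w I)
/-- All pairs of nodes. -/
def prs (k w : ℕ) (I : Inp) : List (List ℕ × List ℕ) :=
  (fam k w I).flatMap fun u => (fam k w I).map fun v => (u, v)
/-- The vertex sets that index the minors of a node. -/
def idx (k w : ℕ) (I : Inp) (R : List ℕ) : List (List ℕ) :=
  (tup (bw w) (bdL k I R)).map fun T => innL k I R ++ T
/-- The matrix of a list of edges. -/
def matL (k : ℕ) (I : Inp) (R a : List ℕ) (r c : ℕ) : ℤ :=
  ((R.filter fun e => decide ((mo I e).1 = r) && decide ((mo I e).2.1 = c)).map (valL k I a)).sum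
/-- Counting members. -/
def cntL (Y : List ℕ) (o x : ℕ) : ℕ := ((List.range x).filter fun y => memL (o + y) Y).length
/-- The order preserving matching. -/
def refL (n : ℕ) (Y : List ℕ) (r c : ℕ) : ℤ :=
  cond (memL r Y && memL (n + c) Y && decide (cntL Y 0 r = cntL Y n c)) 1 0
/-- `n !` times the determinant. -/
def detL (n : ℕ) (M : List (List ℤ)) : ℤ := trL n (mulL n M (fl n M (n - 1)).2)
/-- `n !` times the minor. -/
def mnrL (n : ℕ) (Y : List ℕ) (M : List (List ℤ)) : ℤ :=
  detL n (mk n fun r c => cond (memL r Y && memL (n + c) Y) (gm M r c) 0 +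
    refL n (diffL (List.range (2 * n)) Y) r c)
/-- The size of the matrix of a context. -/
def szC (k w : ℕ) (I : Inp) (x : List ℕ × List ℕ) : ℕ :=
  (idx k w I x.1).length + (idx k w I x.2).length
/-- The matrix of a context. -/
def evC (k w : ℕ) (I : Inp) (x : List ℕ × List ℕ) (a : List ℕ) : List (List ℤ) :=
  mk (szC k w I x) fun i j =>
    cond (decide (i < (idx k w I x.1).length) && decide (j < (idx k w I x.2).length))
      (mnrL I.length ((idx k w I x.1).getD i []) (mk I.length fun r c =>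
        matL k I (diffL x.1 x.2) a r c + refL I.length ((idx k w I x.2).getD j []) r c)) 0
/-- The potential. -/
def pot (k w : ℕ) (I : Inp) (a : List ℕ) : ℕ :=
  ((prs k w I).map fun x => kd (szC k w I x) (evC k w I x a) (evC k w I x a)).sum
/-- A bound for the degrees. -/
def dg (I : Inp) : ℕ := ((mons I).map fun m => m.2.2.2.sum).sum
/-- The number of values tried for a variable. -/
def grid (k w : ℕ) (I : Inp) : ℕ := ((prs k w I).map (szC k w I)).sum * (I.length * dg I) + 1
/-- Changing at most `t` coordinates. -/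
def nbr (K T : ℕ) (a : List ℕ) : ℕ → List (List ℕ)
  | 0 => [a]
  | t + 1 => (nbr K T a t).flatMap fun b =>
      b :: (List.range K).flatMap fun i => (List.range T).map fun s => upd K b i (s + 1)
/-- One step of local search. -/
def stpR (k w t : ℕ) (I : Inp) (a : List ℕ) : List ℕ :=
  ((nbr (nv I) (grid k w I) a t).filter fun b => decide (pot k w I b < pot k w I a)).headD a
/-- The point found by local search. -/
def finR (k w t : ℕ) (I : Inp) : List ℕ := (stpR k w t I)^[pot k w I (ones I) + 1] (ones I)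
/-- The algorithm. -/
def algR (k w t : ℕ) (I : Inp) : Bool :=
  decide (0 < kd I.length (ev I (finR k w t I)) (ev I (finR k w t I)))

/-! ### The parts as polynomials -/

/-- The exponent vector of a list. -/
noncomputable def expo (l : List ℕ) : ℕ →₀ ℕ :=
  Finsupp.onFinset (Finset.range l.length) (fun i => l.getD i 0) fun i hi => by
    by_contra h
    exact hi (List.getD_eq_default _ _ (by simpa using h))
/-- The variables of the part number `j`. -/
noncomputable def affE (I : Inp) (j : ℕ) : Finset ℕ := (expo (mo I j).2.2.2).support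
/-- The scaled part number `j`. -/
noncomputable def part (k : ℕ) (I : Inp) (j : ℕ) : MvPolynomial ℕ ℚ :=
  MvPolynomial.C (((dens I).prod : ℤ) : ℚ) *
    (((mons I).filter fun m => sameK k (nv I) (mo I j) m).map fun m => monoPoly m.2.2).sum
/-- The polynomial matrix of a context. -/
noncomputable def evP (k w : ℕ) (I : Inp) (x : List ℕ × List ℕ) :
    Matrix (Fin (szC k w I x)) (Fin (szC k w I x)) (MvPolynomial ℕ ℚ) :=
  Matrix.of fun i j => if i.1 < (idx k w I x.1).length ∧ j.1 < (idx k w I x.2).length then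
    (I.length.factorial : MvPolynomial ℕ ℚ) * mnr I.length ((idx k w I x.1).getD i []).toFinset
      ((gr k I).mat (x.1.toFinset \ x.2.toFinset) (part k I) +
        ref I.length ((idx k w I x.2).getD j []).toFinset) else 0

end Pool.Agent.P.MP_08e617_lc.Rk
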