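import Pool.Agent.P.MP_08e617_lc.RkC1

/-! The core argument, second half: induction on the number of reads. -/

namespace Pool.Agent.P.MP_08e617_lc.Rk

open Module
open scoped Pointwise

namespace PC

section
variable {V : Type} [AddCommGroup V] [Module ℚ V] {k w : ℕ} (X : Sys V k w)

theorem spine_rep {S0 : Finset ℕ} (hyp : X.Hyp S0) {u h T : Finset ℕ} (hu : X.N u) (hT : T ⊆ S0)
    (A B : ℕ → Finset ℕ) (ρ : ℕ) {s : ℕ} (hs : s + 2 ≤ T.card)
    (h1 : ∀ y ∈ T, X.N (A y) ∧ X.N (B y) ∧ h ⊆ B y ∧ B y ⊆ A y ∧ A y ⊆ u ∧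
      (∀ e ∈ u \ A y, y ∉ X.aff e) ∧ ∀ e ∈ B y \ h, y ∉ X.aff e)
    (h2 : (∀ x ∈ T, ∀ y ∈ T, x < y → Desc X.N (B x) (A y) ∧ X.rk (B x) (A y) ∅ = ρ) ∨
      ∀ x ∈ T, ∀ y ∈ T, y < x → Desc X.N (B x) (A y) ∧ X.rk (B x) (A y) ∅ = ρ) :
    ∃ S ⊆ T, s ≤ S.card ∧ Rep (w * w) S (En X u h) := by
  have hne : T.Nonempty := Finset.card_pos.1 (by omega)
  have hlt : T.min' hne < T.max' hne := Finset.min'_lt_max'_of_card _ (by omega)
  let S := (T.erase (T.min' hne)).erase (T.max' hne)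
  have hS : S ⊆ T := (Finset.erase_subset _ _).trans (Finset.erase_subset _ _)
  have hm : ∀ y ∈ S, T.min' hne < y ∧ y < T.max' hne := fun y hy => by
    simp only [S, Finset.mem_erase] at hy
    exact ⟨lt_of_le_of_ne (T.min'_le y hy.2.2) hy.2.1.symm, lt_of_le_of_ne (T.le_max' y hy.2.2) hy.1⟩
  refine ⟨S, hS, ?_, ?_⟩
  · have a := Finset.pred_card_le_card_erase (s := T) (a := T.min' hne)
    have b := Finset.pred_card_le_card_erase (s := T.erase (T.min' hne)) (a := T.max' hne)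
    simp only [S]
    omega
  rcases h2 with h2 | h2
  · obtain ⟨W, _, g, hW, H⟩ := spine X hyp hu hT A B (· < ·) ρ h1 h2 (T.min'_mem hne)
      (T.max'_mem hne) hS hlt hm fun Z hZ =>
        ⟨Z.max' hZ, Z.max'_mem hZ, fun z hz hne => lt_of_le_of_ne (Z.le_max' z hz) hne⟩
    refine (Rep.hom S (FreeGroup.lift fun y => (g y)⁻¹)).2.of_span (Nat.mul_le_mul hW hW)
      (Finset.Subset.refl _) fun F hF => ?_
    obtain ⟨x, l, e⟩ := H (fun Z => (FreeGroup.lift (fun y => (g y)⁻¹) (word Z))⁻¹)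
      (by simp [word]) (fun Z y hy => by simp [word_insert_gt hy]) F hF
    exact ⟨_, Submodule.subset_span ⟨x, l, rfl⟩, e⟩
  · obtain ⟨W, _, g, hW, H⟩ := spine X hyp hu hT A B (· > ·) ρ h1 h2 (T.max'_mem hne)
      (T.min'_mem hne) hS hlt (fun y hy => (hm y hy).symm) fun Z hZ =>
        ⟨Z.min' hZ, Z.min'_mem hZ, fun z hz hne => lt_of_le_of_ne (Z.min'_le z hz) hne.symm⟩
    refine (Rep.hom S (FreeGroup.lift g)).1.of_span (Nat.mul_le_mul hW hW)
      (Finset.Subset.refl _) fun F hF => ?_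
    obtain ⟨x, l, e⟩ := H (fun Z => FreeGroup.lift g (word Z))
      (by simp [word]) (fun Z y hy => by simp [word_insert_lt hy]) F hF
    exact ⟨_, Submodule.subset_span ⟨x, l, rfl⟩, e⟩

/-- The number of edges of `R` that read `y`. -/
def oc (R : Finset ℕ) (y : ℕ) : ℕ := (R.filter fun e => y ∈ X.aff e).card

theorem oc_mono {R R' : Finset ℕ} (h : R ⊆ R') (y : ℕ) : oc X R y ≤ oc X R' y :=
  Finset.card_le_card (Finset.filter_subset_filter _ h)

theorem oc_lt {R R' : Finset ℕ} (h : R ⊆ R') {y e : ℕ} (h1 : e ∈ R') (h2 : e ∉ R)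
    (h3 : y ∈ X.aff e) : oc X R y < oc X R' y :=
  Finset.card_lt_card ⟨Finset.filter_subset_filter _ h, fun hh =>
    h2 (Finset.mem_filter.1 (hh (Finset.mem_filter.2 ⟨h1, h3⟩))).1⟩

theorem oc_zero {R : Finset ℕ} {y : ℕ} : oc X R y = 0 ↔ ∀ e ∈ R, y ∉ X.aff e := by
  simp [oc]

theorem oc_pos {R : Finset ℕ} {y : ℕ} (h : oc X R y ≠ 0) : ∃ e ∈ R, y ∈ X.aff e := by
  simpa [oc_zero] using h

theorem hull {c : ℕ → Finset ℕ} {L : ℕ} (y : ℕ) : ∃ a b, a ≤ L ∧ b ≤ L ∧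
    (∀ e ∈ c 0 \ c a, y ∉ X.aff e) ∧ (∀ j, a < j → j ≤ L → ∃ e ∈ c 0 \ c j, y ∈ X.aff e) ∧
    (∀ e ∈ c b \ c L, y ∉ X.aff e) ∧ ∀ j < b, ∃ e ∈ c j \ c L, y ∈ X.aff e := by
  classical
  have ex : ∃ j, ∀ e ∈ c j \ c L, y ∉ X.aff e := ⟨L, by simp⟩
  refine ⟨Nat.findGreatest (fun j => ∀ e ∈ c 0 \ c j, y ∉ X.aff e) L, Nat.find ex,
    Nat.findGreatest_le _, Nat.find_min' ex (by simp),
    Nat.findGreatest_spec (P := fun j => ∀ e ∈ c 0 \ c j, y ∉ X.aff e) (Nat.zero_le L) (by simp),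
    fun j h1 h2 => ?_, Nat.find_spec ex, fun j hj => ?_⟩
  · simpa [and_assoc] using Nat.findGreatest_is_greatest h1 h2
  · simpa [and_assoc] using Nat.find_min ex hj

end

theorem ram (k w m s : ℕ) : ∃ N, ∀ (V : Type) [AddCommGroup V] [Module ℚ V] (X : Sys V k w)
    (S0 : Finset ℕ), X.Hyp S0 → ∀ c L, Chain X.N c L → ∀ S ⊆ S0, N ≤ S.card →
    (∀ y ∈ S, oc X (c 0 \ c L) y ≤ m + 1) → ∃ S' ⊆ S, s ≤ S'.card ∧
      (Rep (w * w) S' (En X (c 0) (c L)) ∨ (∀ y ∈ S', oc X (c 0 \ c L) y ≤ m) ∨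
        ∃ l < L, ∀ y ∈ S', oc X (c 0 \ c l) y ≤ m ∧ oc X (c (l + 1) \ c L) y ≤ m) := by
  obtain ⟨N, hN⟩ := ramsey (2 * w + 3) (s + 2)
  refine ⟨N + s, fun V _ _ X S0 hyp c L hc S hS hcard hoc => ?_⟩
  by_cases h1 : s ≤ (S.filter fun y => oc X (c 0 \ c L) y ≤ m).card
  · exact ⟨_, Finset.filter_subset _ _, h1, Or.inr (Or.inl fun y hy => (Finset.mem_filter.1 hy).2)⟩
  have h2 := Finset.card_filter_add_card_filter_not (s := S) fun y => oc X (c 0 \ c L) y ≤ m
  choose a b ha hb a1 a2 b1 b2 using fun y => hull X (c := c) (L := L) y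
  obtain ⟨T, hT, hTc, col, hcol⟩ := hN (fun x y => if b x ≤ a y then 1 + X.rk (c (b x)) (c (a y)) ∅
    else if b y ≤ a x then w + 2 + X.rk (c (b y)) (c (a x)) ∅ else 0)
    (S.filter fun y => ¬ oc X (c 0 \ c L) y ≤ m) (by omega) fun x _ y _ _ => by
      have := rk_le X (hc.1 _ (hb x)) (c (a y)) ∅
      have := rk_le X (hc.1 _ (hb y)) (c (a x)) ∅
      split_ifs <;> omega
  have hTS : T ⊆ S := hT.trans (Finset.filter_subset _ _)
  have ab : ∀ y ∈ T, a y < b y := fun y hy => by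
    by_contra hh
    obtain ⟨e, he, hy'⟩ := oc_pos X (R := c 0 \ c L) (y := y) (by
      have := (Finset.mem_filter.1 (hT hy)).2
      omega)
    rw [Finset.mem_sdiff] at he
    by_cases h3 : e ∈ c (a y)
    · exact b1 y e (Finset.mem_sdiff.2 ⟨chain_anti hc (by omega) (ha y) h3, he.2⟩) hy'
    · exact a1 y e (Finset.mem_sdiff.2 ⟨he.1, h3⟩) hy'
  by_cases hcol0 : col = 0
  · have hne : T.Nonempty := Finset.card_pos.1 (by omega)
    obtain ⟨x, hx, hx'⟩ := T.exists_max_image a hne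
    have hl : ∀ y ∈ T, a x < b y := fun y hy => by
      rcases lt_trichotomy x y with h | h | h
      · have := hcol x hx y hy h
        split_ifs at this <;> omega
      · exact h ▸ ab x hx
      · have := hcol y hy x hx h
        split_ifs at this <;> omega
    have hL : a x < L := (ab x hx).trans_le (hb x)
    refine ⟨T, hTS, by omega, Or.inr (Or.inr ⟨a x, hL, fun y hy => ⟨?_, ?_⟩⟩)⟩
    · obtain ⟨e, he, hy'⟩ := b2 y _ (hl y hy)
      rw [Finset.mem_sdiff] at he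
      have := oc_lt X (R := c 0 \ c (a x)) (R' := c 0 \ c L) (Finset.sdiff_subset_sdiff
        (Finset.Subset.refl _) (chain_anti hc hL.le le_rfl)) (Finset.mem_sdiff.2
          ⟨chain_anti hc (Nat.zero_le _) hL.le he.1, he.2⟩) (by simp [he.1]) hy'
      have := hoc y (hTS hy)
      omega
    · obtain ⟨e, he, hy'⟩ := a2 y (a x + 1) (Nat.lt_succ_of_le (hx' y hy)) hL
      rw [Finset.mem_sdiff] at he
      have := oc_lt X (R := c (a x + 1) \ c L) (R' := c 0 \ c L) (Finset.sdiff_subset_sdiff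
        (chain_anti hc (Nat.zero_le _) hL) (Finset.Subset.refl _)) (Finset.mem_sdiff.2
          ⟨he.1, fun h => he.2 (chain_anti hc hL le_rfl h)⟩) (by simp [he.2]) hy'
      have := hoc y (hTS hy)
      omega
  obtain ⟨S', h3, h4, h5⟩ := spine_rep X hyp (hc.1 0 (Nat.zero_le _)) (hTS.trans hS)
    (fun y => c (a y)) (fun y => c (b y)) (if col ≤ w + 1 then col - 1 else col - (w + 2)) hTc
    (h := c L) (fun y hy => ⟨hc.1 _ (ha y), hc.1 _ (hb y), chain_anti hc (hb y) le_rfl,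
      chain_anti hc (ab y hy).le (hb y), chain_anti hc (Nat.zero_le _) (ha y), a1 y, b1 y⟩) (by
    by_cases h6 : col ≤ w + 1
    · refine Or.inl fun x hx y hy h => ?_
      have := hcol x hx y hy h
      rw [if_pos h6]
      split_ifs at this with h7
      · exact ⟨chain_desc hc h7 (ha y), by omega⟩
      · omega
      · omega
    · refine Or.inr fun y hy x hx h => ?_
      have := hcol x hx y hy h
      have h8 := rk_le X (hc.1 _ (hb x)) (c (a y)) ∅
      rw [if_neg h6]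
      split_ifs at this with h7 h9
      · omega
      · exact ⟨chain_desc hc h9 (ha x), by omega⟩
      · omega)
  exact ⟨S', h3.trans hTS, h4, Or.inl h5⟩

/-- The statement proved by induction on the number `m` of reads. -/
def PP (k w m D s N : ℕ) : Prop :=
  ∀ (V : Type) [AddCommGroup V] [Module ℚ V] (X : Sys V k w) (S0 : Finset ℕ), X.Hyp S0 →
    ∀ u h, Desc X.N u h → ∀ S ⊆ S0, N ≤ S.card → (∀ y ∈ S, oc X (u \ h) y ≤ m) →
    ∃ S' ⊆ S, s ≤ S'.card ∧ Rep D S' (En X u h)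

/-- The same statement for contexts without hole. -/
def QQ (k w m D s N : ℕ) : Prop :=
  ∀ (V : Type) [AddCommGroup V] [Module ℚ V] (X : Sys V k w) (S0 : Finset ℕ), X.Hyp S0 →
    ∀ u, X.N u → ∀ S ⊆ S0, N ≤ S.card → (∀ y ∈ S, oc X u y ≤ m) →
    ∃ S' ⊆ S, s ≤ S'.card ∧ Rep D S' (En X u ∅)

theorem PP.qq {k w m D s N : ℕ} (h : PP k w m D s N) : QQ k w m D s N :=
  fun V _ _ X S0 hyp u hu S hS hc ho =>
    h V X S0 hyp u ∅ (desc_empty X.n0 X.spl hu) S hS hc (by simpa using ho)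

section
variable {V : Type} [AddCommGroup V] [Module ℚ V] {k w : ℕ} (X : Sys V k w)

theorem three {m D s s₁ s₂ D₂ : ℕ} (p1 : PP k w m D s s₁) (p2 : PP k w m D s₁ s₂) {S0 : Finset ℕ}
    (hyp : X.Hyp S0) {c : ℕ → Finset ℕ} {L l : ℕ} (hc : Chain X.N c L) (hl : l < L) {S : Finset ℕ}
    (hS : S ⊆ S0) (hcard : s₂ ≤ S.card)
    (ho : ∀ y ∈ S, oc X (c 0 \ c l) y ≤ m ∧ oc X (c (l + 1) \ c L) y ≤ m)
    (r : Rep D₂ S (En X (c l \ c (l + 1)) ∅)) :
    ∃ S' ⊆ S, s ≤ S'.card ∧ Rep (D * (D₂ * D)) S' (En X (c 0) (c L)) := by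
  obtain ⟨S1, a1, a2, a3⟩ := p2 V X S0 hyp _ _ (chain_desc hc (Nat.zero_le l) hl.le) S hS hcard
    fun y hy => (ho y hy).1
  obtain ⟨S2, b1, b2, b3⟩ := p1 V X S0 hyp _ _ (chain_desc hc hl le_rfl) S1 (a1.trans hS) a2
    fun y hy => (ho y (a1 hy)).2
  have n0 := hc.1 0 (Nat.zero_le _)
  have n1 := hc.1 l hl.le
  have n2 := hc.1 (l + 1) hl
  exact ⟨S2, b1.trans a1, b2, rep_comp X n0 n1 (chain_anti hc hl.le le_rfl)
    (chain_anti hc (Nat.zero_le _) hl.le) (rep_mono a3 le_rfl b1)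
    (rep_comp X n1 n2 (chain_anti hc hl le_rfl) (hc.2 l hl).1
      (rep_step X n1 n2 (hc.2 l hl).1 (hc.2 l hl).2 (rep_mono r le_rfl (b1.trans a1))) b3)⟩

/-- A chain with `q` variables, no two of them inside one step. -/
def Tops (m q : ℕ) (u S : Finset ℕ) : Prop :=
  ∃ c L, Chain X.N c L ∧ c 0 = u ∧ c L = ∅ ∧ ∃ S' ⊆ S, q ≤ S'.card ∧
    ∀ l < L, ∃ z, ∀ y ∈ S', y ≠ z → oc X (c l \ c (l + 1)) y ≤ m

/-- A large subset on which the entries are matrix coefficients. -/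
def Gd (D s : ℕ) (u S : Finset ℕ) : Prop := ∃ S' ⊆ S, s ≤ S'.card ∧ Rep D S' (En X u ∅)

theorem gd_ext {D s : ℕ} {u R S S1 : Finset ℕ} (hu : X.N u) (hR : X.N R) (h1 : R ⊆ u) (h2 : S1 ⊆ S)
    (h0 : ∀ y ∈ S1, oc X (u \ R) y = 0) (g : Gd X D s R S1) : Gd X D s u S := by
  obtain ⟨S', a1, a2, a3⟩ := g
  exact ⟨S', a1.trans h2, a2, by
    simpa using rep_comp X hu hR (Finset.empty_subset _) h1
      (rep_const X hu fun y hy => (oc_zero X).1 (h0 y (a1 hy))) a3⟩

theorem tops_ext {m q : ℕ} {u R S : Finset ℕ} (hu : X.N u) (h1 : R ⊆ u) (h3 : X.N (u \ R))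
    (h0 : ∀ y ∈ S, oc X (u \ R) y = 0) (g : Tops X m q R S) : Tops X m q u S := by
  obtain ⟨c, L, hc, rfl, hL, S', a1, a2, a3⟩ := g
  refine ⟨_, _, chain_cns hc hu h1 h3, rfl, hL, S', a1, a2, fun l hl => ?_⟩
  cases l with
  | zero => exact ⟨0, fun y hy _ => (h0 y (a1 hy)).le.trans (Nat.zero_le _)⟩
  | succ l => exact a3 l (by omega)

theorem tops_ext' {m q : ℕ} {u R S S1 : Finset ℕ} (hu : X.N u) (h1 : R ⊆ u) (h3 : X.N (u \ R))
    (h2 : S1 ⊆ S) (h0 : ∀ y ∈ S1, oc X (u \ R) y = 0) {z : ℕ} (hz : z ∈ S)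
    (z1 : oc X (u \ R) z ≠ 0) (z2 : oc X u z ≤ m + 1) (g : Tops X m q R S1) :
    Tops X m (q + 1) u S := by
  obtain ⟨c, L, hc, rfl, hL, S', a1, a2, a3⟩ := g
  refine ⟨_, _, chain_cns hc hu h1 h3, rfl, hL, insert z S', Finset.insert_subset hz (a1.trans h2),
    ?_, fun l hl => ?_⟩
  · rw [Finset.card_insert_of_notMem fun h => z1 (h0 z (a1 h))]
    omega
  cases l with
  | zero =>
    refine ⟨z, fun y hy hne => ?_⟩
    exact (h0 y (a1 ((Finset.mem_insert.1 hy).resolve_left hne))).le.trans (Nat.zero_le _)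
  | succ l =>
    obtain ⟨z', hz'⟩ := a3 l (by omega)
    refine ⟨z', fun y hy hne => ?_⟩
    rcases Finset.mem_insert.1 hy with rfl | hy
    · obtain ⟨e, he, hy'⟩ := oc_pos X z1
      rw [Finset.mem_sdiff] at he
      have hs : c l \ c (l + 1) ⊆ c 0 :=
        Finset.sdiff_subset.trans (chain_anti hc (Nat.zero_le _) (by omega))
      have := oc_lt X (hs.trans h1) he.1 (fun h => he.2 (hs h)) hy'
      show oc X (c l \ c (l + 1)) y ≤ m
      omega
    · exact hz' y hy hne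

theorem heavy {m D s s₁ s₂ : ℕ} (p1 : QQ k w m D s s₁) (p2 : QQ k w m D s₁ s₂) {S0 : Finset ℕ}
    (hyp : X.Hyp S0) (q : ℕ) : ∀ u, X.N u → ∀ S ⊆ S0, (2 ^ q - 1) * (s₂ + s + k + 1) ≤ S.card →
    (∀ y ∈ S, oc X u y ≠ 0 ∧ oc X u y ≤ m + 1) → Gd X (D * D + 2) s u S ∨ Tops X m q u S := by
  induction q with
  | zero =>
    intro u hu S _ _ _
    obtain ⟨c, L, hc, h0, hL⟩ := desc_empty X.n0 X.spl hu
    exact Or.inr ⟨c, L, hc, h0, hL, ∅, by simp, by simp, fun l _ => ⟨0, by simp⟩⟩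
  | succ q ihq =>
    intro u
    induction u using Finset.strongInduction with
    | H u ih =>
      intro hu S hS hcard ho
      have hM : (2 ^ (q + 1) - 1) * (s₂ + s + k + 1) =
          2 * ((2 ^ q - 1) * (s₂ + s + k + 1)) + (s₂ + s + k + 1) := by
        obtain ⟨x, hx⟩ : ∃ x, 2 ^ q = x + 1 := ⟨2 ^ q - 1, by have := Nat.one_le_two_pow (n := q); omega⟩
        rw [pow_succ, hx, show (x + 1) * 2 - 1 = 2 * x + 1 by omega, Nat.add_sub_cancel]
        ring
      by_cases h2 : 2 ≤ u.card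
      swap
      · obtain ⟨y, hy⟩ : S.Nonempty := Finset.card_pos.1 (by omega)
        obtain ⟨e, he, -⟩ := oc_pos X (ho y hy).1
        obtain rfl : u = {e} := Finset.eq_singleton_iff_unique_mem.2
          ⟨he, fun x hx => Finset.card_le_one.1 (by omega) x hx e he⟩
        obtain ⟨S', a1, a2, a3⟩ := X.leaf e hu S
        exact Or.inl ⟨S', a1, by omega, rep_mono a3 (by omega) (Finset.Subset.refl _)⟩
      obtain ⟨R, n1, hs, hne, hne', n2⟩ := X.spl u hu h2
      have side : ∀ R, X.N R → R ⊂ u → X.N (u \ R) → (2 ^ q - 1) * (s₂ + s + k + 1) ≤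
          (S.filter fun y => oc X (u \ R) y = 0).card →
          Gd X (D * D + 2) s u S ∨ Tops X m (q + 1) u S := by
        intro R n1 hs n2 hc
        have hoc : ∀ y ∈ S, oc X (u \ R) y = 0 → oc X R y ≠ 0 ∧ oc X R y ≤ m + 1 := by
          intro y hy h0
          refine ⟨fun h => ?_, (oc_mono X hs.1 y).trans (ho y hy).2⟩
          obtain ⟨e, he, hy'⟩ := oc_pos X (ho y hy).1
          by_cases heR : e ∈ R
          · exact (oc_zero X).1 h e heR hy'
          · exact (oc_zero X).1 h0 e (Finset.mem_sdiff.2 ⟨he, heR⟩) hy'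
        by_cases hall : ∀ y ∈ S, oc X (u \ R) y = 0
        · exact (ih R hs n1 S hS hcard fun y hy => hoc y hy (hall y hy)).imp
            (gd_ext X hu n1 hs.1 (Finset.Subset.refl _) hall) (tops_ext X hu hs.1 n2 hall)
        · push Not at hall
          obtain ⟨z, hz, z1⟩ := hall
          have h0 : ∀ y ∈ S.filter fun y => oc X (u \ R) y = 0, oc X (u \ R) y = 0 :=
            fun y hy => (Finset.mem_filter.1 hy).2
          exact (ihq R n1 _ ((Finset.filter_subset _ _).trans hS) hc fun y hy =>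
            hoc y (Finset.mem_filter.1 hy).1 (h0 y hy)).imp
            (gd_ext X hu n1 hs.1 (Finset.filter_subset _ _) h0)
            (tops_ext' X hu hs.1 n2 (Finset.filter_subset _ _) h0 hz z1 (ho z hz).2)
      by_cases c1 : (2 ^ q - 1) * (s₂ + s + k + 1) ≤ (S.filter fun y => oc X (u \ R) y = 0).card
      · exact side R n1 (Finset.ssubset_iff_subset_ne.2 ⟨hs, hne'⟩) n2 c1
      by_cases c2 : (2 ^ q - 1) * (s₂ + s + k + 1) ≤ (S.filter fun y => oc X R y = 0).card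
      · refine side (u \ R) n2 (Finset.sdiff_ssubset hs hne) ?_ ?_ <;>
          rwa [Finset.sdiff_sdiff_eq_self hs]
      let S3 := S.filter fun y => oc X (u \ R) y ≠ 0 ∧ oc X R y ≠ 0
      have hS3 : S3 ⊆ S := Finset.filter_subset _ _
      have c3 : s₂ ≤ S3.card := by
        have : S ⊆ S3 ∪ ((S.filter fun y => oc X (u \ R) y = 0) ∪ S.filter fun y => oc X R y = 0) := by
          intro y hy
          simp only [S3, Finset.mem_union, Finset.mem_filter]
          tauto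
        have a := (Finset.card_le_card this).trans (Finset.card_union_le _ _)
        have b := Finset.card_union_le (S.filter fun y => oc X (u \ R) y = 0)
          (S.filter fun y => oc X R y = 0)
        omega
      have o3 : ∀ y ∈ S3, oc X (u \ R) y ≤ m ∧ oc X R y ≤ m := fun y hy => by
        obtain ⟨hy, y1, y2⟩ := Finset.mem_filter.1 hy
        obtain ⟨e, he, e1⟩ := oc_pos X y1
        obtain ⟨e', he', e2⟩ := oc_pos X y2
        rw [Finset.mem_sdiff] at he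
        have a := oc_lt X hs he.1 he.2 e1
        have b := oc_lt X (Finset.sdiff_subset (s := u) (t := R)) (hs he') (by simp [he']) e2
        have := (ho y hy).2
        omega
      obtain ⟨S1, a1, a2, a3⟩ := p2 V X S0 hyp _ n2 S3 (hS3.trans hS) c3 fun y hy => (o3 y hy).1
      obtain ⟨S2, b1, b2, b3⟩ := p1 V X S0 hyp _ n1 S1 (a1.trans (hS3.trans hS)) a2
        fun y hy => (o3 y (a1 hy)).2
      exact Or.inl ⟨S2, b1.trans (a1.trans hS3), b2, rep_mono (rep_comp X hu n1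
        (Finset.empty_subset _) hs (rep_step X hu n1 hs n2 (rep_mono a3 le_rfl b1)) b3)
        (by omega) (Finset.Subset.refl _)⟩

end

theorem qq_succ {k w m D : ℕ} (p : ∀ s, ∃ N, PP k w m D s N) (s : ℕ) :
    ∃ N, QQ k w (m + 1) (D * (D * D) + D * D + D + w * w + 2) s N := by
  obtain ⟨s₁, p1⟩ := p s
  obtain ⟨s₂, p2⟩ := p s₁
  obtain ⟨s₃, p3⟩ := p s₂
  obtain ⟨q, hq⟩ := ram k w m (s + s₁ + s₃ + 1)
  refine ⟨s₁ + (2 ^ q - 1) * (s₂ + s + k + 1), fun V _ _ X S0 hyp u hu S hS hcard ho => ?_⟩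
  by_cases h1 : s₁ ≤ (S.filter fun y => oc X u y = 0).card
  · obtain ⟨S', a1, a2, a3⟩ := p1.qq V X S0 hyp u hu _ ((Finset.filter_subset _ _).trans hS) h1
      fun y hy => (Finset.mem_filter.1 hy).2.le.trans (Nat.zero_le _)
    exact ⟨S', a1.trans (Finset.filter_subset _ _), a2,
      rep_mono a3 (by omega) (Finset.Subset.refl _)⟩
  have h2 := Finset.card_filter_add_card_filter_not (s := S) fun y => oc X u y = 0
  have hf : (S.filter fun y => ¬ oc X u y = 0) ⊆ S := Finset.filter_subset _ _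
  rcases heavy X p1.qq p2.qq hyp q u hu _ (hf.trans hS) (by omega) fun y hy =>
    ⟨(Finset.mem_filter.1 hy).2, ho y (hf hy)⟩ with ⟨S', a1, a2, a3⟩ | ⟨c, L, hc, rfl, hL, T, a1, a2, a3⟩
  · exact ⟨S', a1.trans hf, a2, rep_mono a3 (by omega) (Finset.Subset.refl _)⟩
  have hT := a1.trans hf
  obtain ⟨S1, b1, b2, b3⟩ := hq V X S0 hyp c L hc T (hT.trans hS) a2 fun y hy => by
    simpa [hL] using ho y (hT hy)
  have hS1 := b1.trans hT
  rcases b3 with b3 | b3 | ⟨l, hl, b3⟩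
  · exact ⟨S1, hS1, by omega, rep_mono (hL ▸ b3) (by omega) (Finset.Subset.refl _)⟩
  · obtain ⟨S', c1, c2, c3⟩ := p1.qq V X S0 hyp _ hu S1 (hS1.trans hS) (by omega)
      fun y hy => by simpa [hL] using b3 y hy
    exact ⟨S', c1.trans hS1, c2, rep_mono c3 (by omega) (Finset.Subset.refl _)⟩
  · obtain ⟨z, hz⟩ := a3 l hl
    have := Finset.pred_card_le_card_erase (s := S1) (a := z)
    have he := Finset.erase_subset z S1
    obtain ⟨S2, c1, c2, c3⟩ := p3.qq V X S0 hyp _ (hc.2 l hl).2 (S1.erase z)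
      (he.trans (hS1.trans hS)) (by omega)
      fun y hy => hz y (b1 (he hy)) (Finset.ne_of_mem_erase hy)
    obtain ⟨S3, d1, d2, d3⟩ := three X p1 p2 hyp hc hl (c1.trans (he.trans (hS1.trans hS))) c2
      (fun y hy => b3 y (he (c1 hy))) c3
    exact ⟨S3, d1.trans (c1.trans (he.trans hS1)), d2,
      rep_mono (hL ▸ d3) (by omega) (Finset.Subset.refl _)⟩

theorem pp (k w m : ℕ) : ∃ D, ∀ s, ∃ N, PP k w m D s N := by
  induction m with
  | zero =>
    exact ⟨1, fun s => ⟨s, fun V _ _ X S0 _ u h d S _ hc ho => ⟨S, Finset.Subset.refl _, hc,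
      rep_const X (desc_props d).1 fun y hy => (oc_zero X).1 (Nat.le_zero.1 (ho y hy))⟩⟩⟩
  | succ m ih =>
    obtain ⟨D, p⟩ := ih
    have hq := qq_succ p
    generalize D * (D * D) + D * D + D + w * w + 2 = D' at hq
    refine ⟨D * (D' * D) + D + w * w, fun s => ?_⟩
    obtain ⟨s₁, p1⟩ := p s
    obtain ⟨s₂, p2⟩ := p s₁
    obtain ⟨s₃, p3⟩ := hq s₂
    obtain ⟨N, hN⟩ := ram k w m (s + s₁ + s₃)
    refine ⟨N, fun V _ _ X S0 hyp u h d S hS hcard ho => ?_⟩
    obtain ⟨c, L, hc, rfl, rfl⟩ := id d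
    obtain ⟨S1, b1, b2, b3⟩ := hN V X S0 hyp c L hc S hS hcard ho
    rcases b3 with b3 | b3 | ⟨l, hl, b3⟩
    · exact ⟨S1, b1, by omega, rep_mono b3 (by omega) (Finset.Subset.refl _)⟩
    · obtain ⟨S', c1, c2, c3⟩ := p1 V X S0 hyp _ _ d S1 (b1.trans hS) (by omega) b3
      exact ⟨S', c1.trans b1, c2, rep_mono c3 (by omega) (Finset.Subset.refl _)⟩
    · obtain ⟨S2, c1, c2, c3⟩ := p3 V X S0 hyp _ (hc.2 l hl).2 S1 (b1.trans hS) (by omega)
        fun y hy => (oc_mono X (Finset.sdiff_subset_sdiff (chain_anti hc (Nat.zero_le _) hl.le)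
          (chain_anti hc hl le_rfl)) y).trans (ho y (b1 hy))
      obtain ⟨S3, d1, d2, d3⟩ := three X p1 p2 hyp hc hl (c1.trans (b1.trans hS)) c2
        (fun y hy => b3 y (c1 hy)) c3
      exact ⟨S3, d1.trans (c1.trans b1), d2, rep_mono d3 (by omega) (Finset.Subset.refl _)⟩

end PC

open PC

theorem core (k w c : ℕ) : ∃ t, ∀ (V : Type) [AddCommGroup V] [Module ℚ V] (X : Sys V k w)
    (S : Finset ℕ), X.Hyp S → t < S.card → ∀ u h, Desc X.N u h →
    (∀ i, ((u \ h).filter fun e => i ∈ X.aff e).card ≤ c) → X.rk u h ∅ ≤ X.rk u h S := by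
  obtain ⟨D, p⟩ := pp k w c
  obtain ⟨N, hN⟩ := p ((D + 1) ^ w + 1)
  refine ⟨N, fun V _ _ X S hyp hc u h d ho => ?_⟩
  by_contra hlt
  obtain ⟨S', a1, a2, a3⟩ := hN V X S hyp u h d S (Finset.Subset.refl _) hc.le fun y _ => ho y
  have hu := (desc_props d).1
  have := (X.fin u hu).1
  set r := X.rk u h S with hr
  have hw := rk_le X hu h ∅
  obtain ⟨g, hg⟩ := exists_linearIndependent_of_le_finrank (R := ℚ)
    (M := (X.D u).map (X.C u h ∅)) (n := r + 1) (by
      show r + 1 ≤ X.rk u h ∅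
      omega)
  have hg' := hg.map' (Submodule.subtype _) (Submodule.ker_subtype _)
  choose f hf hf' using fun j => (g j).2
  choose l hl using fun i : Fin (r + 1) => LinearMap.exists_extend (Finsupp.lapply i ∘ₗ hg'.repr)
  have h1 := (a3.det (fun Z => Matrix.of fun i j => l i (X.C u h Z (f j)))
    fun i j => ⟨f j, hf j, l i, rfl⟩).card_le ?_ ?_
  · have : D ^ (r + 1) ≤ (D + 1) ^ w := (Nat.pow_le_pow_left (Nat.le_succ D) _).trans
      (Nat.pow_le_pow_right (Nat.succ_pos D) (by omega))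
    omega
  · have : (Matrix.of fun i j => l i (X.C u h ∅ (f j))) = 1 := by
      ext i j
      have h2 := LinearMap.congr_fun (hl i) ⟨g j, Submodule.subset_span ⟨j, rfl⟩⟩
      simp only [LinearMap.comp_apply, Submodule.subtype_apply, Finsupp.lapply_apply] at h2
      rw [hg'.repr_eq_single j _ rfl] at h2
      rw [Matrix.of_apply, hf' j, h2, Matrix.one_apply, Finsupp.single_apply]
      simp [eq_comm]
    simp [this]
  · intro Z hZ hne
    have h2 : finrank ℚ ((X.D u).map (X.C u h Z)) = r := hyp u h d Z (hZ.trans a1) hne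
    have h3 : ¬ LinearIndependent ℚ fun j => (⟨X.C u h Z (f j), f j, hf j, rfl⟩ :
        (X.D u).map (X.C u h Z)) := fun hi => by
      have := hi.fintype_card_le_finrank
      simp [h2] at this
    obtain ⟨a, ha, j, hj⟩ := Fintype.not_linearIndependent_iff.1 h3
    refine Matrix.exists_mulVec_eq_zero_iff.1 ⟨a, fun h0 => hj (congrFun h0 j), ?_⟩
    ext i
    have := congrArg (fun x : (X.D u).map (X.C u h Z) => l i x) ha
    simpa [Matrix.mulVec, dotProduct, mul_comm] using this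

end Pool.Agent.P.MP_08e617_lc.Rk
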