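import Pool.Agent.P.MP_08e617_lc.RkA

/-! The core argument, first half: composition of contexts and spines. -/

namespace Pool.Agent.P.MP_08e617_lc.Rk

open Module
open scoped Pointwise

namespace PC

/-! ### Chains -/

section
variable {N : Finset ℕ → Prop} {c : ℕ → Finset ℕ} {L : ℕ}

theorem chain_anti (h : Chain N c L) {i j : ℕ} (hij : i ≤ j) (hj : j ≤ L) : c j ⊆ c i := by
  induction j, hij using Nat.le_induction with
  | base => exact Finset.Subset.refl _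
  | succ j _ ih => exact (h.2 j hj).1.trans (ih (by omega))

theorem chain_desc (h : Chain N c L) {i j : ℕ} (hij : i ≤ j) (hj : j ≤ L) : Desc N (c i) (c j) :=
  ⟨fun x => c (i + x), j - i, ⟨fun x hx => h.1 _ (by omega), fun x hx => h.2 (i + x) (by omega)⟩,
    rfl, by simp [Nat.add_sub_cancel' hij]⟩

theorem desc_props {u h : Finset ℕ} (d : Desc N u h) : N u ∧ N h ∧ h ⊆ u := by
  obtain ⟨c, L, hc, rfl, rfl⟩ := d
  exact ⟨hc.1 0 (Nat.zero_le _), hc.1 L le_rfl, chain_anti hc (Nat.zero_le _) le_rfl⟩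

/-- Putting a node in front of a chain. -/
def cns (u : Finset ℕ) (c : ℕ → Finset ℕ) : ℕ → Finset ℕ
  | 0 => u
  | j + 1 => c j

theorem chain_cns (h : Chain N c L) {u : Finset ℕ} (hu : N u) (h1 : c 0 ⊆ u) (h2 : N (u \ c 0)) :
    Chain N (cns u c) (L + 1) := by
  refine ⟨fun j hj => ?_, fun j hj => ?_⟩
  · cases j with
    | zero => exact hu
    | succ j => exact h.1 j (by omega)
  · cases j with
    | zero => exact ⟨h1, h2⟩
    | succ j => exact h.2 j (by omega)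

end

end PC

open PC

theorem desc_empty {N : Finset ℕ → Prop} (n0 : N ∅)
    (spl : ∀ R, N R → 2 ≤ R.card → ∃ R', N R' ∧ R' ⊆ R ∧ R'.Nonempty ∧ R' ≠ R ∧ N (R \ R'))
    {u : Finset ℕ} (hu : N u) : Desc N u ∅ := by
  have base : Chain N (fun _ => ∅) 0 := ⟨fun _ _ => n0, fun j hj => absurd hj (by omega)⟩
  induction u using Finset.strongInduction with
  | H u ih =>
    by_cases h2 : 2 ≤ u.card
    · obtain ⟨R, h1, hs, -, hne, h3⟩ := spl u hu h2
      obtain ⟨c, L, hc, rfl, hL⟩ := ih R (Finset.ssubset_iff_subset_ne.2 ⟨hs, hne⟩) h1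
      exact ⟨_, _, chain_cns hc hu hs h3, rfl, hL⟩
    · exact ⟨_, _, chain_cns base hu (by simp) (by simpa using hu), rfl, rfl⟩

namespace PC

variable {V : Type} [AddCommGroup V] [Module ℚ V] {k w : ℕ} (X : Sys V k w)

/-- The entries of a context. -/
abbrev En (u h : Finset ℕ) : Set (Finset ℕ → ℚ) := Ent (X.D u) (X.C u h)

theorem rep_mono {D D' : ℕ} {S S' : Finset ℕ} {𝓕 : Set (Finset ℕ → ℚ)} (h : Rep D S 𝓕)
    (hD : D ≤ D') (hS : S' ⊆ S) : Rep D' S' 𝓕 :=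
  h.of_span hD hS fun F hF => ⟨F, Submodule.subset_span hF, fun _ _ => rfl⟩

theorem rk_le {u : Finset ℕ} (hu : X.N u) (h Z : Finset ℕ) : X.rk u h Z ≤ w := by
  have := (X.fin u hu).1
  exact (Submodule.finrank_map_le _ _).trans (X.fin u hu).2

theorem loc_empty {u : Finset ℕ} (hu : X.N u) {h Z : Finset ℕ}
    (hZ : ∀ y ∈ Z, ∀ e ∈ u \ h, y ∉ X.aff e) : X.C u h Z = X.C u h ∅ :=
  X.loc u h Z ∅ hu fun e he i hi => ⟨fun hz => absurd hi (hZ i hz e he), fun h => by simp at h⟩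

theorem rep_const {u : Finset ℕ} (hu : X.N u) {h S : Finset ℕ}
    (hS : ∀ y ∈ S, ∀ e ∈ u \ h, y ∉ X.aff e) : Rep 1 S (En X u h) := by
  refine (Rep.one S).of_span le_rfl (Finset.Subset.refl _) ?_
  rintro F ⟨f, -, l, rfl⟩
  refine ⟨l (X.C u h ∅ f) • (1 : Finset ℕ → ℚ),
    Submodule.smul_mem _ _ (Submodule.subset_span rfl), fun Z hZ => ?_⟩
  simp [loc_empty X hu fun y hy => hS y (hZ hy)]

theorem rep_comp {u v h S : Finset ℕ} (hu : X.N u) (hv : X.N v) (h1 : h ⊆ v) (h2 : v ⊆ u)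
    {D D' : ℕ} (r1 : Rep D S (En X u v)) (r2 : Rep D' S (En X v h)) :
    Rep (D * D') S (En X u h) := by
  refine (r1.mul r2).of_span le_rfl (Finset.Subset.refl _) ?_
  rintro F ⟨f, hf, l, rfl⟩
  have := (X.fin v hv).1
  let b := Module.finBasis ℚ (X.D v)
  choose co hco using fun j => LinearMap.exists_extend (b.coord j)
  refine ⟨∑ j, (fun Z => co j (X.C u v Z f)) * fun Z => l (X.C v h Z (b j)),
    Submodule.sum_mem _ fun j _ => Submodule.subset_span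
      (Set.mul_mem_mul ⟨f, hf, co j, rfl⟩ ⟨b j, (b j).2, l, rfl⟩), fun Z _ => ?_⟩
  have e : X.C u v Z f = ∑ j, co j (X.C u v Z f) • (b j : V) := by
    have h3 := congrArg Subtype.val (b.sum_repr ⟨_, X.map u v Z hu hv h2 f hf⟩)
    simp only [AddSubmonoidClass.coe_finsetSum, SetLike.val_smul] at h3
    refine h3.symm.trans (Finset.sum_congr rfl fun j _ => ?_)
    congr 1
    exact (LinearMap.congr_fun (hco j) ⟨_, X.map u v Z hu hv h2 f hf⟩).symm
  have e' := congrArg (fun x => l (X.C v h Z x)) e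
  simp only [X.comp u v h Z f h1 h2] at e'
  simpa using e'

theorem rep_step {R R' S : Finset ℕ} (h1 : X.N R) (h2 : X.N R') (h3 : R' ⊆ R) (h4 : X.N (R \ R'))
    {D : ℕ} (r : Rep D S (En X (R \ R') ∅)) : Rep D S (En X R R') :=
  r.of_span le_rfl (Finset.Subset.refl _) fun F hF => ⟨F, X.step R R' h1 h2 h3 h4 hF, fun _ _ => rfl⟩

/-! ### Spines -/

theorem ker_of_rank {U : Submodule ℚ V} [FiniteDimensional ℚ U] {f g t : V →ₗ[ℚ] V}
    (hg : ∀ v, g v = t (f v)) (hr : finrank ℚ (U.map f) = finrank ℚ (U.map g)) {v : V}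
    (hv : v ∈ U) (h0 : g v = 0) : f v = 0 := by
  let t' : U.map f →ₗ[ℚ] U.map g := t.restrict (by
    rintro _ ⟨x, hx, rfl⟩
    exact ⟨x, hx, hg x⟩)
  have hs : Function.Surjective t' := by
    rintro ⟨_, x, hx, rfl⟩
    exact ⟨⟨f x, x, hx, rfl⟩, Subtype.ext (hg x).symm⟩
  have hi := (LinearMap.injective_iff_surjective_of_finrank_eq_finrank hr).2 hs
  have : (⟨f v, v, hv, rfl⟩ : U.map f) = 0 := hi (Subtype.ext (by simpa [t', ← hg] using h0))
  exact congrArg Subtype.val this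

theorem spine {S0 : Finset ℕ} (hyp : X.Hyp S0) {u h T : Finset ℕ} (hu : X.N u) (hT : T ⊆ S0)
    (A B : ℕ → Finset ℕ) (r : ℕ → ℕ → Prop) (ρ : ℕ)
    (h1 : ∀ y ∈ T, X.N (A y) ∧ X.N (B y) ∧ h ⊆ B y ∧ B y ⊆ A y ∧ A y ⊆ u ∧
      (∀ e ∈ u \ A y, y ∉ X.aff e) ∧ ∀ e ∈ B y \ h, y ∉ X.aff e)
    (h2 : ∀ x ∈ T, ∀ y ∈ T, r x y → Desc X.N (B x) (A y) ∧ X.rk (B x) (A y) ∅ = ρ)
    {x0 xe : ℕ} (hx0 : x0 ∈ T) (hxe : xe ∈ T) {S : Finset ℕ} (hS : S ⊆ T) (h0e : r x0 xe)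
    (hm : ∀ y ∈ S, r x0 y ∧ r y xe)
    (hmax : ∀ Z : Finset ℕ, Z.Nonempty → ∃ y ∈ Z, ∀ z ∈ Z, z ≠ y → r z y) :
    ∃ (W : Submodule ℚ V) (_ : FiniteDimensional ℚ W) (g : ℕ → W ≃ₗ[ℚ] W), finrank ℚ W ≤ w ∧
      ∀ ψ : Finset ℕ → W ≃ₗ[ℚ] W, ψ ∅ = 1 →
        (∀ Z y, (∀ z ∈ Z, r z y) → ψ (insert y Z) = g y * ψ Z) →
        ∀ F ∈ En X u h, ∃ (x : W) (l : W →ₗ[ℚ] ℚ), ∀ Z ⊆ S, F Z = l (ψ Z x) := by
  classical
  obtain ⟨-, nU, -, -, -, -, l0⟩ := h1 x0 hx0
  have fU := (X.fin _ nU).1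
  set U := X.D (B x0) with hU
  let G : ℕ → Finset ℕ → V →ₗ[ℚ] V := fun y Z => X.C (B x0) (A y) Z
  have sub : ∀ x ∈ T, ∀ y ∈ T, r x y → A y ⊆ B x := fun x hx y hy hr =>
    (desc_props (h2 x hx y hy hr).1).2.2
  -- all ranks below `x0` are equal to `ρ`
  have rkG : ∀ y ∈ T, r x0 y → ∀ Z ⊆ S0, finrank ℚ (U.map (G y Z)) = ρ := by
    intro y hy hr Z hZ
    obtain ⟨d, e0⟩ := h2 x0 hx0 y hy hr
    have l1 : ∀ Z', X.C (B x0) (A y) (insert x0 Z') = X.C (B x0) (A y) Z' := fun Z' =>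
      X.loc _ _ _ _ nU fun e he i hi => by
        have : i ≠ x0 := by
          rintro rfl
          obtain ⟨-, -, p1, p2, -⟩ := h1 y hy
          exact l0 e (Finset.sdiff_subset_sdiff (Finset.Subset.refl _) (p1.trans p2) he) hi
        simp [this]
    have a1 := hyp _ _ d (insert x0 Z) (Finset.insert_subset (hT hx0) hZ) (by simp)
    have a2 := hyp _ _ d (insert x0 ∅) (Finset.insert_subset (hT hx0) (by simp)) (by simp)
    unfold Sys.rk at a1 a2 e0
    rw [l1] at a1 a2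
    exact a1.trans (a2.symm.trans e0)
  -- images
  have img : ∀ x ∈ S, ∀ y ∈ T, r x y → r x0 y → ∀ Z ⊆ S, (∀ z ∈ Z, B z ⊇ B x) →
      U.map (G y Z) = (X.D (B x)).map (X.C (B x) (A y) ∅) := by
    intro x hx y hy hr hr0 Z hZ hz
    obtain ⟨-, nB, -, q1, -⟩ := h1 x (hS hx)
    have := (X.fin _ nB).1
    have s1 := sub x (hS hx) y hy hr
    have s2 := q1.trans (sub x0 hx0 x (hS hx) (hm x hx).1)
    have l1 : X.C (B x) (A y) Z = X.C (B x) (A y) ∅ := loc_empty X nB fun z hz' e he => by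
      obtain ⟨-, -, p1, p2, -⟩ := h1 y hy
      exact (h1 z (hS (hZ hz'))).2.2.2.2.2.2 e
        (Finset.sdiff_subset_sdiff (hz z hz') (p1.trans p2) he)
    refine Submodule.eq_of_le_of_finrank_eq ?_ ?_
    · rintro _ ⟨v, hv, rfl⟩
      exact ⟨_, X.map _ _ Z nU nB s2 v hv, by rw [← l1, X.comp _ _ _ _ _ s1 s2]⟩
    · rw [rkG y hy hr0 Z (hZ.trans (hS.trans hT))]
      exact (h2 x (hS hx) y hy hr).2.symm
  have img' : ∀ x ∈ S, ∀ y ∈ T, r x y → r x0 y → ∀ Z ⊆ S, (∀ z ∈ Z, B z ⊇ B x) →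
      U.map (G y Z) = U.map (G y ∅) := fun x hx y hy hr hr0 Z hZ hz =>
    (img x hx y hy hr hr0 Z hZ hz).trans (img x hx y hy hr hr0 ∅ (by simp) (by simp)).symm
  -- factorisation through the place of `y`
  have sAe : ∀ y ∈ S, A xe ⊆ A y := fun y hy =>
    (sub y (hS hy) xe hxe (hm y hy).2).trans (h1 y (hS hy)).2.2.2.1
  have fac : ∀ y ∈ S, ∀ Z v, G xe Z v = X.C (A y) (A xe) Z (G y Z v) := fun y hy Z v =>
    (X.comp _ _ _ _ _ (sAe y hy) (sub x0 hx0 y (hS hy) (hm y hy).1)).symm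
  have sBu : B x0 ⊆ u := (h1 x0 hx0).2.2.2.1.trans (h1 x0 hx0).2.2.2.2.1
  have top : ∀ y ∈ S, ∀ Z, G y (insert y Z) = G y Z := fun y hy Z =>
    X.loc _ _ _ _ nU fun e he i hi => by
      have : i ≠ y := by
        rintro rfl
        exact (h1 i (hS hy)).2.2.2.2.2.1 e
          (Finset.sdiff_subset_sdiff sBu (Finset.Subset.refl _) he) hi
      simp [this]
  have kerG : ∀ y ∈ S, ∀ v ∈ U, G xe ∅ v = 0 ↔ G xe {y} v = 0 := by
    intro y hy v hv
    have t1 : G y {y} = G y ∅ := top y hy ∅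
    have s0 : ({y} : Finset ℕ) ⊆ S0 := by simpa using hT (hS hy)
    constructor
    · intro h0
      have := ker_of_rank (fac y hy ∅) ((rkG y (hS hy) (hm y hy).1 ∅ (by simp)).trans
        (rkG xe hxe h0e ∅ (by simp)).symm) hv h0
      rw [fac y hy, t1, this, map_zero]
    · intro h0
      have := ker_of_rank (fac y hy {y}) ((rkG y (hS hy) (hm y hy).1 {y} s0).trans
        (rkG xe hxe h0e {y} s0).symm) hv h0
      rw [fac y hy, ← t1, this, map_zero]
  let W := U.map (G xe ∅)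
  let π : U →ₗ[ℚ] W := (G xe ∅).restrict fun v hv => ⟨v, hv, rfl⟩
  obtain ⟨σ, hσ⟩ := π.exists_rightInverse_of_surjective (LinearMap.range_eq_top.2 (by
    rintro ⟨_, x, hx, rfl⟩
    exact ⟨⟨x, hx⟩, rfl⟩))
  have hσ' : ∀ x : W, G xe ∅ (σ x) = x := fun x => congrArg Subtype.val (LinearMap.congr_fun hσ x)
  have exg : ∀ y, ∃ g : W ≃ₗ[ℚ] W, y ∈ S → ∀ x, (g x : V) = G xe {y} (σ x) := by
    intro y
    by_cases hy : y ∈ S
    · have e := img' y hy xe hxe (hm y hy).2 h0e {y} (by simpa using hy) (by simp)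
      let g : W →ₗ[ℚ] W := ((G xe {y}).restrict (p := U) (q := W) fun v hv => by
        show _ ∈ U.map (G xe ∅)
        rw [← e]
        exact ⟨v, hv, rfl⟩) ∘ₗ σ
      have hi : Function.Injective g := by
        rw [← LinearMap.ker_eq_bot, LinearMap.ker_eq_bot']
        intro x hx
        have := (kerG y hy _ (σ x).2).2 (congrArg Subtype.val hx)
        exact Subtype.ext ((hσ' x).symm.trans this)
      exact ⟨LinearEquiv.ofInjectiveEndo g hi, fun _ x => rfl⟩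
    · exact ⟨1, fun h => absurd h hy⟩
  choose g hg using exg
  refine ⟨W, inferInstance, g, rk_le X nU _ _, fun ψ ψ0 ψ1 => ?_⟩
  have key : ∀ Z ⊆ S, ∀ v : U, G xe Z v = ψ Z (π v) := by
    intro Z
    induction Z using Finset.strongInduction with
    | H Z ih =>
      intro hZ v
      rcases Z.eq_empty_or_nonempty with rfl | hne
      · rw [ψ0]; rfl
      obtain ⟨y, hy, hy'⟩ := hmax Z hne
      have hr : ∀ z ∈ Z.erase y, r z y := fun z hz =>
        hy' z (Finset.mem_of_mem_erase hz) (Finset.ne_of_mem_erase hz)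
      have hZ' : Z.erase y ⊆ S := (Finset.erase_subset _ _).trans hZ
      have ih' := ih _ (Finset.erase_ssubset hy) hZ' v
      rw [← Finset.insert_erase hy]
      generalize Z.erase y = Y at hr hZ' ih'
      have hyS := hZ hy
      have bot : ∀ Z', X.C (A y) (A xe) (Z' ∪ Y) = X.C (A y) (A xe) Z' := fun Z' =>
        X.loc _ _ _ _ (h1 y (hS hyS)).1 fun e he i hi => by
          have : i ∉ Y := fun hiY => by
            obtain ⟨-, -, p1, p2, -⟩ := h1 xe hxe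
            exact (h1 i (hS (hZ' hiY))).2.2.2.2.2.2 e (Finset.sdiff_subset_sdiff
              (sub i (hS (hZ' hiY)) y (hS hyS) (hr i hiY)) (p1.trans p2) he) hi
          simp [this]
      obtain ⟨v', hv', e'⟩ : G y Y v ∈ U.map (G y ∅) := by
        rcases Y.eq_empty_or_nonempty with rfl | hne'
        · exact ⟨v, v.2, rfl⟩
        · obtain ⟨x, hx, hx'⟩ := hmax Y hne'
          rw [← img' x (hZ' hx) y (hS hyS) (hr x hx) (hm y hyS).1 Y hZ' fun z hz => ?_]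
          · exact ⟨v, v.2, rfl⟩
          · by_cases hzx : z = x
            · rw [hzx]
            · exact (h1 x (hS (hZ' hx))).2.2.2.1.trans
                (sub z (hS (hZ' hz)) x (hS (hZ' hx)) (hx' z hz hzx))
      have b0 := bot ∅
      have b1 := bot {y}
      rw [Finset.empty_union] at b0
      rw [← Finset.insert_eq] at b1
      have e1 : G xe Y v = G xe ∅ v' := by rw [fac y hyS, fac y hyS ∅, b0, e']
      have e2 : G xe (insert y Y) v = G xe {y} v' := by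
        have t1 : G y {y} = G y ∅ := top y hyS ∅
        rw [fac y hyS, fac y hyS {y}, b1, top y hyS, t1, e']
      rw [e2, ψ1 Y y hr, LinearEquiv.mul_apply, hg y hyS, ← sub_eq_zero, ← map_sub,
        ← kerG y hyS _ (U.sub_mem hv' (σ _).2), map_sub, hσ', ← ih', e1, sub_self]
  rintro F ⟨f, hf, l, rfl⟩
  obtain ⟨nA, -, p1, p2, -⟩ := h1 xe hxe
  refine ⟨π ⟨X.C u (B x0) ∅ f, X.map _ _ _ hu nU sBu f hf⟩,
    l ∘ₗ X.C (A xe) h ∅ ∘ₗ W.subtype, fun Z hZ => ?_⟩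
  have s1 := sub x0 hx0 xe hxe h0e
  have l1 : X.C u (B x0) Z = X.C u (B x0) ∅ := loc_empty X hu fun y hy e he =>
    (h1 y (hS (hZ hy))).2.2.2.2.2.1 e (Finset.sdiff_subset_sdiff (Finset.Subset.refl _)
      (sub x0 hx0 y (hS (hZ hy)) (hm y (hZ hy)).1) he)
  have l2 : X.C (A xe) h Z = X.C (A xe) h ∅ := loc_empty X nA fun y hy e he =>
    (h1 y (hS (hZ hy))).2.2.2.2.2.2 e (Finset.sdiff_subset_sdiff
      (sub y (hS (hZ hy)) xe hxe (hm y (hZ hy)).2) (Finset.Subset.refl _) he)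
  simp only [LinearMap.comp_apply, Submodule.subtype_apply]
  rw [← key Z hZ, ← X.comp u (A xe) h Z f (p1.trans p2) (s1.trans sBu),
    ← X.comp u (B x0) (A xe) Z f s1 sBu, l1, l2]

end PC

end Pool.Agent.P.MP_08e617_lc.Rk
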