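import Pool.Agent.P.MP_08e617_lc.RkB

/-! Minors without signs: the Laplace expansion and the other basic facts. -/

namespace Pool.Agent.P.MP_08e617_lc.Rk

open Pool.Agent.Lib.helper21 Module
open scoped Pointwise

namespace PD1

/-- The matrix has two blocks: rows and columns in `Y`, rows and columns outside `Y`. -/
def Blk (n : ℕ) (Y : Finset ℕ) (X : Matrix (Fin n) (Fin n) ℚ) : Prop :=
  ∀ r c : Fin n, X r c ≠ 0 → ((r : ℕ) ∈ Y ↔ n + (c : ℕ) ∈ Y)

theorem card_fin (n : ℕ) (Y : Finset ℕ) (o : ℕ) :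
    (Finset.univ.filter fun c : Fin n => o + (c : ℕ) ∈ Y).card = cnt Y o n := by
  rw [cnt, Finset.card_filter, Finset.card_filter]
  exact Fin.sum_univ_eq_sum_range (fun i => if o + i ∈ Y then 1 else 0) n

theorem det_unbal {n : ℕ} {Y : Finset ℕ} {X : Matrix (Fin n) (Fin n) ℚ} (hX : Blk n Y X)
    (h : cnt Y 0 n ≠ cnt Y n n) : X.det = 0 := by
  rw [Matrix.det_apply']
  refine Finset.sum_eq_zero fun σ _ => ?_
  by_contra hne
  have hp : ∏ i, X (σ i) i ≠ 0 := right_ne_zero_of_mul hne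
  have h1 : ∀ c : Fin n, ((σ c : ℕ) ∈ Y ↔ n + (c : ℕ) ∈ Y) := fun c =>
    hX _ _ (Finset.prod_ne_zero_iff.mp hp c (Finset.mem_univ _))
  apply h
  rw [← card_fin, ← card_fin]
  symm
  refine Finset.card_bijective σ σ.bijective fun c => ?_
  simp only [Finset.mem_filter, Finset.mem_univ, true_and, zero_add]
  exact (h1 c).symm

/-- Columns in `Y` from the first matrix, the others from the second. -/
def mix (n : ℕ) (Y : Finset ℕ) (X X' : Matrix (Fin n) (Fin n) ℚ) : Matrix (Fin n) (Fin n) ℚ :=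
  Matrix.of fun r c => if n + (c : ℕ) ∈ Y then X r c else X' r c

theorem blk_mix {n : ℕ} {Y : Finset ℕ} {X X' : Matrix (Fin n) (Fin n) ℚ} (hX : Blk n Y X)
    (hX' : Blk n Y X') : Blk n Y (mix n Y X X') := by
  intro r c h
  simp only [mix, Matrix.of_apply] at h
  split_ifs at h with hc
  · exact hX r c h
  · exact hX' r c h

theorem det_blk {n : ℕ} {Y : Finset ℕ} (τ : Equiv.Perm (Fin n))
    (hτ : ∀ c : Fin n, ((τ c : ℕ) ∈ Y ↔ n + (c : ℕ) ∈ Y)) {X : Matrix (Fin n) (Fin n) ℚ}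
    (hX : Blk n Y X) : (Equiv.Perm.sign τ : ℚ) * X.det =
      (Matrix.toSquareBlockProp (X.submatrix τ id) fun c : Fin n => n + (c : ℕ) ∈ Y).det *
      (Matrix.toSquareBlockProp (X.submatrix τ id) fun c : Fin n => ¬ n + (c : ℕ) ∈ Y).det := by
  rw [← Matrix.twoBlockTriangular_det, Matrix.det_permute]
  intro i hi j hj
  by_contra h
  exact hi ((hτ i).mp ((hX _ _ h).mpr hj))

theorem exch {n : ℕ} {Y : Finset ℕ} {X X' : Matrix (Fin n) (Fin n) ℚ} (hX : Blk n Y X)
    (hX' : Blk n Y X') : X.det * X'.det = (mix n Y X X').det * (mix n Y X' X).det := by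
  by_cases h : cnt Y 0 n = cnt Y n n
  swap
  · rw [det_unbal hX h, det_unbal (blk_mix hX hX') h, zero_mul, zero_mul]
  rw [← card_fin, ← card_fin] at h
  obtain ⟨τ, hτ⟩ := Equiv.Perm.exists_map_finset_eq _ _ h.symm
  have h1 : ∀ c : Fin n, ((τ c : ℕ) ∈ Y ↔ n + (c : ℕ) ∈ Y) := by
    intro c
    have := Finset.ext_iff.mp hτ (τ c)
    simp only [Finset.mem_map_equiv, Equiv.symm_apply_apply, Finset.mem_filter, Finset.mem_univ,
      true_and, zero_add] at this
    exact this.symm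
  have e1 := det_blk τ h1 hX
  have e2 := det_blk τ h1 hX'
  have e3 := det_blk τ h1 (blk_mix hX hX')
  have e4 := det_blk τ h1 (blk_mix hX' hX)
  have m1 : ∀ Z Z' : Matrix (Fin n) (Fin n) ℚ,
      Matrix.toSquareBlockProp ((mix n Y Z Z').submatrix τ id) (fun c : Fin n => n + (c : ℕ) ∈ Y) =
      Matrix.toSquareBlockProp (Z.submatrix τ id) fun c : Fin n => n + (c : ℕ) ∈ Y := by
    intro Z Z'
    ext i j
    simp only [Matrix.toSquareBlockProp_def, Matrix.of_apply, Matrix.submatrix_apply, id, mix]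
    rw [if_pos j.2]
  have m2 : ∀ Z Z' : Matrix (Fin n) (Fin n) ℚ,
      Matrix.toSquareBlockProp ((mix n Y Z Z').submatrix τ id)
        (fun c : Fin n => ¬ n + (c : ℕ) ∈ Y) =
      Matrix.toSquareBlockProp (Z'.submatrix τ id) fun c : Fin n => ¬ n + (c : ℕ) ∈ Y := by
    intro Z Z'
    ext i j
    simp only [Matrix.toSquareBlockProp_def, Matrix.of_apply, Matrix.submatrix_apply, id, mix]
    rw [if_neg j.2]
  rw [m1, m2] at e3 e4
  have hs : (Equiv.Perm.sign τ : ℚ) ≠ 0 := by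
    rcases Int.units_eq_one_or (Equiv.Perm.sign τ) with h | h <;> simp [h]
  apply mul_left_cancel₀ (mul_ne_zero hs hs)
  calc _ = ((Equiv.Perm.sign τ : ℚ) * X.det) * ((Equiv.Perm.sign τ : ℚ) * X'.det) := by ring
    _ = ((Equiv.Perm.sign τ : ℚ) * (mix n Y X X').det) *
        ((Equiv.Perm.sign τ : ℚ) * (mix n Y X' X).det) := by rw [e1, e2, e3, e4]; ring
    _ = _ := by ring

/-! ### The order preserving matching -/

theorem cnt_lt {Y : Finset ℕ} {o x y : ℕ} (hx : o + x ∈ Y) (h : x < y) :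
    cnt Y o x < cnt Y o y := by
  refine Finset.card_lt_card ⟨fun z hz => ?_, fun hs => ?_⟩
  · simp only [Finset.mem_filter, Finset.mem_range] at hz ⊢
    exact ⟨hz.1.trans h, hz.2⟩
  · have : x ∈ (Finset.range x).filter fun y => o + y ∈ Y :=
      hs (Finset.mem_filter.mpr ⟨Finset.mem_range.mpr h, hx⟩)
    simp at this

theorem cnt_inj {Y : Finset ℕ} {o x y : ℕ} (hx : o + x ∈ Y) (hy : o + y ∈ Y)
    (h : cnt Y o x = cnt Y o y) : x = y := by
  rcases lt_trichotomy x y with h1 | h1 | h1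
  · exact absurd h (cnt_lt hx h1).ne
  · exact h1
  · exact absurd h (cnt_lt hy h1).ne'

theorem cnt_surj (Y : Finset ℕ) (o n : ℕ) {k : ℕ} (hk : k < cnt Y o n) :
    ∃ x < n, o + x ∈ Y ∧ cnt Y o x = k := by
  have := Finset.surjOn_of_injOn_of_card_le (s := (Finset.range n).filter fun y => o + y ∈ Y)
    (t := Finset.range (cnt Y o n)) (fun x => cnt Y o x) ?_ ?_ ?_
  · obtain ⟨x, hx, e⟩ := this (Finset.mem_coe.mpr (Finset.mem_range.mpr hk))
    simp only [Finset.coe_filter, Finset.mem_range, Set.mem_ofPred_eq] at hx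
    exact ⟨x, hx.1, hx.2, e⟩
  · intro x hx
    simp only [Finset.coe_filter, Finset.mem_range, Set.mem_ofPred_eq] at hx
    exact Finset.mem_coe.mpr (Finset.mem_range.mpr (cnt_lt hx.2 hx.1))
  · intro x hx y hy e
    simp only [Finset.coe_filter, Finset.mem_range, Set.mem_ofPred_eq] at hx hy
    exact cnt_inj hx.2 hy.2 e
  · rw [Finset.card_range]
    exact le_rfl

theorem cnt_compl (Y : Finset ℕ) {o n m : ℕ} (h : o + n ≤ m) :
    cnt (Finset.range m \ Y) o n + cnt Y o n = n := by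
  have := Finset.card_filter_add_card_filter_not (s := Finset.range n) fun y => o + y ∈ Y
  rw [Finset.card_range] at this
  have e : cnt (Finset.range m \ Y) o n =
      ((Finset.range n).filter fun y => ¬ o + y ∈ Y).card := by
    rw [cnt]
    congr 1
    refine Finset.filter_congr fun y hy => ?_
    have := Finset.mem_range.mp hy
    simp only [Finset.mem_sdiff, Finset.mem_range, and_iff_right_iff_imp]
    intro _
    omega
  rw [e, cnt]
  omega

theorem sum_ref {n : ℕ} {W : Finset ℕ} (hW : cnt W 0 n = cnt W n n) (c : Fin n)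
    (hc : n + (c : ℕ) ∈ W) : ∃ r : Fin n, (r : ℕ) ∈ W ∧
      ∀ c' : Fin n, (ref n W r c' : ℚ) = if c' = c then 1 else 0 := by
  obtain ⟨r, hr, hrW, e⟩ := cnt_surj W 0 n (k := cnt W n c) (hW ▸ cnt_lt hc c.2)
  rw [zero_add] at hrW
  refine ⟨⟨r, hr⟩, hrW, fun c' => ?_⟩
  simp only [ref]
  by_cases h : c' = c
  · subst h
    simp [hrW, hc, e]
  · rw [if_neg h, if_neg]
    rintro ⟨-, h2, h3⟩
    exact h (Fin.ext (cnt_inj h2 hc (h3.symm.trans e)))

theorem mnr_ref_ne {n : ℕ} {Y : Finset ℕ} (h : cnt Y 0 n = cnt Y n n) :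
    mnr n Y (ref n Y : ℕ → ℕ → ℚ) ≠ 0 := by
  intro h0
  obtain ⟨v, hv, hm⟩ := Matrix.exists_mulVec_eq_zero_iff.mpr h0
  apply hv
  funext c
  have key : ∃ r : Fin n, ∀ c' : Fin n, mask n Y (ref n Y : ℕ → ℕ → ℚ) r c' +
      ref n (Finset.range (2 * n) \ Y) r c' = if c' = c then 1 else 0 := by
    by_cases hc : n + (c : ℕ) ∈ Y
    · obtain ⟨r, hr, e⟩ := sum_ref h c hc
      refine ⟨r, fun c' => ?_⟩
      rw [← e c']
      simp only [mask, ref, Finset.mem_sdiff, hr, true_and, not_true, and_false, false_and,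
        if_false, add_zero]
      by_cases h' : n + (c' : ℕ) ∈ Y <;> simp [h']
    · have h1 := cnt_compl Y (o := 0) (n := n) (m := 2 * n) (by omega)
      have h2 := cnt_compl Y (o := n) (n := n) (m := 2 * n) (by omega)
      obtain ⟨r, hr, e⟩ := sum_ref (W := Finset.range (2 * n) \ Y) (by omega) c
        (Finset.mem_sdiff.mpr ⟨Finset.mem_range.mpr (by omega), hc⟩)
      refine ⟨r, fun c' => ?_⟩
      rw [← e c']
      simp [mask, (Finset.mem_sdiff.mp hr).2]
  obtain ⟨r, hr⟩ := key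
  have := congrFun hm r
  simp only [Matrix.mulVec, dotProduct, Matrix.of_apply, hr, ite_mul, one_mul, zero_mul,
    Finset.sum_ite_eq', Finset.mem_univ, if_true] at this
  exact this

/-- The matrix whose determinant is the minor. -/
def mm (n : ℕ) (Y : Finset ℕ) (B : ℕ → ℕ → ℚ) : Matrix (Fin n) (Fin n) ℚ :=
  Matrix.of fun r c : Fin n => mask n Y B r c + ref n (Finset.range (2 * n) \ Y) r c

theorem mnr_mm (n : ℕ) (Y : Finset ℕ) (B : ℕ → ℕ → ℚ) : mnr n Y B = (mm n Y B).det := rfl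

theorem blk_mm (n : ℕ) (Y : Finset ℕ) (B : ℕ → ℕ → ℚ) : Blk n Y (mm n Y B) := by
  intro r c h
  by_contra hn
  apply h
  simp only [mm, Matrix.of_apply, mask, ref, Finset.mem_sdiff]
  rw [if_neg (by tauto), if_neg (by tauto), add_zero]

/-- The matrix with three blocks. -/
def m3 (n : ℕ) (Y Y' : Finset ℕ) (A B : ℕ → ℕ → ℚ) : Matrix (Fin n) (Fin n) ℚ :=
  Matrix.of fun r c : Fin n => mask n Y' B r c + (mask n (Y \ Y') A r c +
    ref n (Finset.range (2 * n) \ Y) r c)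

theorem blk_m3 {n : ℕ} {Y Y' : Finset ℕ} (h : Y' ⊆ Y) (A B : ℕ → ℕ → ℚ) :
    Blk n Y' (m3 n Y Y' A B) ∧ Blk n (Y \ Y') (m3 n Y Y' A B) := by
  constructor <;>
  · intro r c h0
    by_contra hn
    apply h0
    have h1 := @h r
    have h2 := @h (n + c)
    simp only [m3, Matrix.of_apply, mask, ref, Finset.mem_sdiff] at hn ⊢
    rw [if_neg (by tauto), if_neg (by tauto), if_neg (by tauto), add_zero, add_zero]

theorem m3_mul {n : ℕ} {Y Y' : Finset ℕ} (h : Y' ⊆ Y) (A B E F : ℕ → ℕ → ℚ) :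
    (m3 n Y Y' A B).det * mnr n (Y \ Y') E * mnr n Y' F =
      (m3 n Y Y' E F).det * mnr n (Y \ Y') A * mnr n Y' B := by
  have e1 := exch (blk_m3 h A B).2 (blk_mm n (Y \ Y') E)
  have e2 := exch (blk_m3 h E B).1 (blk_mm n Y' F)
  have a1 : mix n (Y \ Y') (m3 n Y Y' A B) (mm n (Y \ Y') E) = mm n (Y \ Y') A := by
    ext r c
    simp only [mix, m3, mm, Matrix.of_apply, mask, ref, Finset.mem_sdiff]
    by_cases h1 : n + (c : ℕ) ∈ Y <;> by_cases h2 : n + (c : ℕ) ∈ Y' <;> simp [h1, h2]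
  have a2 : mix n (Y \ Y') (mm n (Y \ Y') E) (m3 n Y Y' A B) = m3 n Y Y' E B := by
    ext r c
    simp only [mix, m3, mm, Matrix.of_apply, mask, ref, Finset.mem_sdiff]
    by_cases h1 : n + (c : ℕ) ∈ Y <;> by_cases h2 : n + (c : ℕ) ∈ Y' <;> simp [h1, h2]
  have a3 : mix n Y' (m3 n Y Y' E B) (mm n Y' F) = mm n Y' B := by
    ext r c
    have h3 := @h (n + c)
    simp only [mix, m3, mm, Matrix.of_apply, mask, ref, Finset.mem_sdiff]
    by_cases h2 : n + (c : ℕ) ∈ Y'
    · simp [h2, h3 h2]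
    · simp [h2]
  have a4 : mix n Y' (mm n Y' F) (m3 n Y Y' E B) = m3 n Y Y' E F := by
    ext r c
    have h3 := @h (n + c)
    simp only [mix, m3, mm, Matrix.of_apply, mask, ref, Finset.mem_sdiff]
    by_cases h2 : n + (c : ℕ) ∈ Y'
    · simp [h2, h3 h2]
    · simp [h2]
  rw [a1, a2] at e1
  rw [a3, a4] at e2
  simp only [mnr_mm]
  calc _ = (mm n (Y \ Y') A).det * ((m3 n Y Y' E B).det * (mm n Y' F).det) := by rw [e1]; ring
    _ = _ := by rw [e2]; ring

theorem prod_expand {n : ℕ} {Y : Finset ℕ} (hY : Y ⊆ Finset.range (2 * n)) (A B : ℕ → ℕ → ℚ)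
    (σ : Equiv.Perm (Fin n)) :
    ∏ c, mm n Y (A + B) (σ c) c = ∑ Y' ∈ Y.powerset, ∏ c, m3 n Y Y' A B (σ c) c := by
  have e0 : ∀ c, mm n Y (A + B) (σ c) c = mask n Y B (σ c) c + mm n Y A (σ c) c := by
    intro c
    simp only [mm, Matrix.of_apply, mask, Pi.add_apply]
    split_ifs <;> ring
  simp only [e0]
  rw [Finset.prod_add]
  let φ : Finset (Fin n) → Finset ℕ := fun T =>
    (T.image fun c => (σ c : ℕ)) ∪ T.image fun c : Fin n => n + (c : ℕ)
  have p1 : ∀ T (c : Fin n), (σ c : ℕ) ∈ φ T ↔ c ∈ T := by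
    intro T c
    simp only [φ, Finset.mem_union, Finset.mem_image]
    constructor
    · rintro (⟨a, ha, e⟩ | ⟨a, ha, e⟩)
      · rwa [← σ.injective (Fin.ext e)]
      · have := (σ c).2
        omega
    · exact fun hc => Or.inl ⟨c, hc, rfl⟩
  have p2 : ∀ T (c : Fin n), n + (c : ℕ) ∈ φ T ↔ c ∈ T := by
    intro T c
    simp only [φ, Finset.mem_union, Finset.mem_image]
    constructor
    · rintro (⟨a, ha, e⟩ | ⟨a, ha, e⟩)
      · have := (σ a).2
        omega
      · rwa [← (Fin.ext (by omega) : a = c)]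
    · exact fun hc => Or.inr ⟨c, hc, rfl⟩
  have p3 : ∀ T, φ T ⊆ Y → (∏ c ∈ T, mask n Y B (σ c) c) * ∏ c ∈ Finset.univ \ T, mm n Y A (σ c) c =
      ∏ c, m3 n Y (φ T) A B (σ c) c := by
    intro T hT
    rw [← Finset.prod_sdiff (Finset.subset_univ T), mul_comm]
    congr 1
    · refine Finset.prod_congr rfl fun c hc => ?_
      have hc' := (Finset.mem_sdiff.mp hc).2
      simp [mm, m3, mask, p1, p2, hc']
    · refine Finset.prod_congr rfl fun c hc => ?_
      have h1 := hT ((p1 T c).mpr hc)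
      have h2 := hT ((p2 T c).mpr hc)
      simp [m3, mask, ref, p1, p2, hc, h1, h2]
  have p4 : ∀ T, (∏ c ∈ T, mask n Y B (σ c) c) * ∏ c ∈ Finset.univ \ T, mm n Y A (σ c) c ≠ 0 →
      φ T ⊆ Y := by
    intro T hT x hx
    have h1 := Finset.prod_ne_zero_iff.mp (left_ne_zero_of_mul hT)
    have h2 : ∀ c ∈ T, (σ c : ℕ) ∈ Y ∧ n + (c : ℕ) ∈ Y := by
      intro c hc
      by_contra hn
      exact h1 c hc (if_neg hn)
    simp only [φ, Finset.mem_union, Finset.mem_image] at hx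
    rcases hx with ⟨a, ha, rfl⟩ | ⟨a, ha, rfl⟩
    · exact (h2 a ha).1
    · exact (h2 a ha).2
  refine Finset.sum_bij_ne_zero (fun T _ _ => φ T) ?_ ?_ ?_ ?_
  · intro T _ hT
    exact Finset.mem_powerset.mpr (p4 T hT)
  · intro T _ _ T' _ _ e
    ext c
    rw [← p2, ← p2 T']
    exact Finset.ext_iff.mp e _
  · intro Y' hY' h0
    have hs := Finset.mem_powerset.mp hY'
    have h1 : ∀ c : Fin n, ((σ c : ℕ) ∈ Y' ↔ n + (c : ℕ) ∈ Y') := fun c =>
      (blk_m3 hs A B).1 _ _ (Finset.prod_ne_zero_iff.mp h0 c (Finset.mem_univ _))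
    have e : φ (Finset.univ.filter fun c : Fin n => n + (c : ℕ) ∈ Y') = Y' := by
      ext x
      by_cases hx : x < n
      · have := p1 (Finset.univ.filter fun c : Fin n => n + (c : ℕ) ∈ Y') (σ.symm ⟨x, hx⟩)
        have h2 := h1 (σ.symm ⟨x, hx⟩)
        rw [Equiv.apply_symm_apply] at this h2
        rw [this, h2]
        simp
      · by_cases hx2 : x < 2 * n
        · have := p2 (Finset.univ.filter fun c : Fin n => n + (c : ℕ) ∈ Y') ⟨x - n, by omega⟩
          have e2 : n + (x - n) = x := by omega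
          simp only [Finset.mem_filter, Finset.mem_univ, true_and, e2] at this
          exact this
        · constructor
          · intro h3
            simp only [φ, Finset.mem_union, Finset.mem_image] at h3
            rcases h3 with ⟨a, -, e⟩ | ⟨a, -, e⟩
            · have := (σ a).2
              omega
            · have := a.2
              omega
          · intro h3
            exact absurd (Finset.mem_range.mp (hY (hs h3))) hx2
    refine ⟨_, Finset.mem_powerset.mpr (Finset.subset_univ _), ?_, e⟩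
    rw [p3 _ (e.symm ▸ hs), e]
    exact h0
  · intro T _ hT
    exact p3 T (p4 T hT)

end PD1

open PD1

theorem mnr_map {K K' : Type} [CommRing K] [CommRing K'] (φ : K →+* K') (n : ℕ) (Y : Finset ℕ)
    (B : ℕ → ℕ → K) : φ (mnr n Y B) = mnr n Y fun r c => φ (B r c) := by
  rw [mnr, mnr, RingHom.map_det]
  congr 1
  ext r c
  simp only [RingHom.mapMatrix_apply, Matrix.map_apply, Matrix.of_apply, mask, ref, map_add,
    apply_ite φ, map_zero, map_one]

theorem mnr_mask {n : ℕ} {Y Y' : Finset ℕ} (h : Y ⊆ Y') (B : ℕ → ℕ → ℚ) :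
    mnr n Y (mask n Y' B) = mnr n Y B := by
  rw [mnr, mnr]
  congr 1
  ext r c
  simp only [Matrix.of_apply, mask]
  by_cases h1 : (r : ℕ) ∈ Y ∧ n + (c : ℕ) ∈ Y
  · rw [if_pos h1, if_pos h1, if_pos ⟨h h1.1, h h1.2⟩]
  · rw [if_neg h1, if_neg h1]

theorem mnr_eq_zero {n : ℕ} {Y : Finset ℕ} {x : ℕ} (hx : x ∈ Y) (hn : x < 2 * n) (B : ℕ → ℕ → ℚ)
    (hB : ∀ r < n, ∀ c < n, (r = x ∨ n + c = x) → B r c = 0) : mnr n Y B = 0 := by
  by_cases h : x < n
  · refine Matrix.det_eq_zero_of_row_eq_zero ⟨x, h⟩ fun c => ?_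
    simp [mask, ref, hx, hB x h c c.2 (Or.inl rfl)]
  · have e : n + (x - n) = x := by omega
    refine Matrix.det_eq_zero_of_column_eq_zero ⟨x - n, by omega⟩ fun r => ?_
    simp [mask, ref, hx, e, hB r r.2 (x - n) (by omega) (Or.inr e)]

theorem mnr_add {n : ℕ} {Y : Finset ℕ} (hY : Y ⊆ Finset.range (2 * n)) :
    ∃ ε : Finset ℕ → ℚ, ∀ A B : ℕ → ℕ → ℚ,
      mnr n Y (A + B) = ∑ Y' ∈ Y.powerset, ε Y' * mnr n (Y \ Y') A * mnr n Y' B := by
  refine ⟨fun Y' => (m3 n Y Y' (ref n (Y \ Y')) (ref n Y')).det /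
    (mnr n (Y \ Y') (ref n (Y \ Y')) * mnr n Y' (ref n Y')), fun A B => ?_⟩
  have e : mnr n Y (A + B) = ∑ Y' ∈ Y.powerset, (m3 n Y Y' A B).det := by
    simp only [mnr_mm, Matrix.det_apply', prod_expand hY, Finset.mul_sum]
    exact Finset.sum_comm
  rw [e]
  refine Finset.sum_congr rfl fun Y' hY' => ?_
  have hs := Finset.mem_powerset.mp hY'
  by_cases h1 : cnt (Y \ Y') 0 n = cnt (Y \ Y') n n
  swap
  · rw [det_unbal (blk_m3 hs A B).2 h1, mnr_mm n (Y \ Y') A, det_unbal (blk_mm _ _ A) h1]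
    ring
  by_cases h2 : cnt Y' 0 n = cnt Y' n n
  swap
  · rw [det_unbal (blk_m3 hs A B).1 h2, mnr_mm n Y' B, det_unbal (blk_mm _ _ B) h2]
    ring
  have k1 := mnr_ref_ne h1
  have k2 := mnr_ref_ne h2
  have k3 := m3_mul (n := n) hs A B (ref n (Y \ Y')) (ref n Y')
  field_simp
  linear_combination k3

theorem mnr_ref {n : ℕ} {Y : Finset ℕ} (hY : Y ⊆ Finset.range (2 * n)) :
    (∀ B : ℕ → ℕ → ℚ, mnr n Y B = 0) ∨ mnr n Y (ref n Y : ℕ → ℕ → ℚ) ≠ 0 := by
  have _ := hY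
  by_cases h : cnt Y 0 n = cnt Y n n
  · exact Or.inr (mnr_ref_ne h)
  · exact Or.inl fun B => det_unbal (blk_mm n Y B) h

theorem mnr_affine (n : ℕ) (Y : Finset ℕ) (r c : ℕ) : ∃ α β : ℚ, ∀ t : ℚ,
    mnr n Y (fun r' c' => if r = r' ∧ c = c' then t else 0) = α + β * t := by
  by_cases h : r < n
  · let M := mm n Y 0
    let w : Fin n → ℚ := fun c' => mask n Y (fun r' c' => if r = r' ∧ c = c' then 1 else 0) r c'
    refine ⟨M.det, (M.updateRow ⟨r, h⟩ w).det, fun t => ?_⟩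
    have e : mm n Y (fun r' c' => if r = r' ∧ c = c' then t else 0) =
        M.updateRow ⟨r, h⟩ (M ⟨r, h⟩ + t • w) := by
      ext r' c'
      by_cases hr : r' = ⟨r, h⟩
      · subst hr
        simp only [M, w, mm, mask, Matrix.updateRow_self, Matrix.of_apply, Pi.add_apply,
          Pi.smul_apply, smul_eq_mul, Pi.zero_apply]
        split_ifs <;> ring
      · have hr' : r ≠ r' := fun e => hr (Fin.ext e.symm)
        simp [M, mm, mask, Matrix.updateRow_ne hr, hr']
    rw [mnr_mm, e, Matrix.det_updateRow_add, Matrix.det_updateRow_smul, Matrix.updateRow_eq_self,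
      mul_comm]
  · refine ⟨mnr n Y 0, 0, fun t => ?_⟩
    rw [zero_mul, add_zero, mnr, mnr]
    congr 1
    ext r' c'
    have hr' : r ≠ r' := fun e => h (e ▸ r'.2)
    simp [mask, hr']

end Pool.Agent.P.MP_08e617_lc.Rk
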