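import Pool.Agent.P.MP_08e617_lc.RkA
import Pool.Agent.P.MP_08e617_lc.RkD1

/-! Package D2: the system of contexts given by minors, and its ranks. -/

namespace Pool.Agent.P.MP_08e617_lc.Rk

open Pool.Agent.Lib.helper21 Module
open scoped Pointwise

namespace PD2

variable {G : Gr}

theorem mem_vs {R : Finset ℕ} {x : ℕ} :
    x ∈ G.vs R ↔ ∃ e ∈ R, G.rw e = x ∨ G.n + G.cl e = x := by
  simp only [Gr.vs, Finset.mem_union, Finset.mem_image]
  constructor
  · rintro (⟨e, he, h⟩ | ⟨e, he, h⟩)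
    · exact ⟨e, he, Or.inl h⟩
    · exact ⟨e, he, Or.inr h⟩
  · rintro ⟨e, he, h | h⟩
    · exact Or.inl ⟨e, he, h⟩
    · exact Or.inr ⟨e, he, h⟩

theorem vs_mono {R R' : Finset ℕ} (h : R ⊆ R') : G.vs R ⊆ G.vs R' := by
  intro x hx
  obtain ⟨e, he, h'⟩ := mem_vs.1 hx
  exact mem_vs.2 ⟨e, h he, h'⟩

theorem vs_empty : G.vs ∅ = ∅ := by simp [Gr.vs]

theorem vs_range (hG : G.Ok) {R : Finset ℕ} (h : R ⊆ G.All) :
    G.vs R ⊆ Finset.range (2 * G.n) := by
  intro x hx
  obtain ⟨e, he, h'⟩ := mem_vs.1 hx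
  have := hG e (h he)
  rw [Finset.mem_range]
  omega

theorem inn_mono {u v : Finset ℕ} (h : v ⊆ u) : G.inn v ⊆ G.inn u := by
  intro x hx
  simp only [Gr.inn, Finset.mem_sdiff] at hx ⊢
  exact ⟨vs_mono h hx.1, fun h' => hx.2 (vs_mono (Finset.sdiff_subset_sdiff subset_rfl h) h')⟩

theorem mat_zero {R : Finset ℕ} {x : ℕ} (hx : x ∉ G.vs R) (val : ℕ → ℚ) (r c : ℕ)
    (h : r = x ∨ G.n + c = x) : G.mat R val r c = 0 := by
  refine Finset.sum_eq_zero fun e he => ?_
  rw [Finset.mem_filter] at he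
  refine absurd (mem_vs.2 ⟨e, he.1, ?_⟩) hx
  rcases h with h | h
  · exact Or.inl (he.2.1.trans h)
  · exact Or.inr (by rw [he.2.2]; exact h)

theorem mask_zero {n : ℕ} {Y : Finset ℕ} {x : ℕ} (hx : x ∉ Y) (B : ℕ → ℕ → ℚ) (r c : ℕ)
    (h : r = x ∨ n + c = x) : mask n Y B r c = 0 := by
  unfold mask
  rw [if_neg]
  rintro ⟨h1, h2⟩
  rcases h with h | h
  · exact hx (h ▸ h1)
  · exact hx (h ▸ h2)

theorem ref_zero {n : ℕ} {Y : Finset ℕ} {x : ℕ} (hx : x ∉ Y) (r c : ℕ)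
    (h : r = x ∨ n + c = x) : (ref n Y r c : ℚ) = 0 := by
  unfold ref
  rw [if_neg]
  rintro ⟨h1, h2, -⟩
  rcases h with h | h
  · exact hx (h ▸ h1)
  · exact hx (h ▸ h2)

theorem mask_empty (n : ℕ) (B : ℕ → ℕ → ℚ) : mask n ∅ B = 0 := by
  funext r c
  simp [mask]

theorem mask_ref {n : ℕ} {Y Y' : Finset ℕ} (h : Y ⊆ Y') :
    mask n Y' (ref n Y : ℕ → ℕ → ℚ) = ref n Y := by
  funext r c
  unfold mask ref
  by_cases h1 : r ∈ Y ∧ n + c ∈ Y ∧ cnt Y 0 r = cnt Y n c
  · rw [if_pos ⟨h h1.1, h h1.2.1⟩]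
  · rw [if_neg h1]
    simp

theorem mnr_mat_zero {Y R : Finset ℕ} {x : ℕ} (hY : Y ⊆ Finset.range (2 * G.n)) (hx : x ∈ Y)
    (hx' : x ∉ G.vs R) (val : ℕ → ℚ) : mnr G.n Y (G.mat R val) = 0 :=
  mnr_eq_zero hx (Finset.mem_range.1 (hY hx)) _ fun r _ c _ h => mat_zero hx' val r c h

theorem mnr_mask_zero {n : ℕ} {Y Y' : Finset ℕ} {x : ℕ} (hY : Y ⊆ Finset.range (2 * n))
    (hx : x ∈ Y) (hx' : x ∉ Y') (B : ℕ → ℕ → ℚ) : mnr n Y (mask n Y' B) = 0 :=
  mnr_eq_zero hx (Finset.mem_range.1 (hY hx)) _ fun r _ c _ h => mask_zero hx' B r c h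

theorem cv_apply (u v : Finset ℕ) (val : ℕ → ℚ) (f : Fn) (B : ℕ → ℕ → ℚ) :
    G.Cv u v val f B = f (G.mat (u \ v) val + mask G.n (G.vs v) B) := rfl

/-- The masked minor as a function. -/
def gm (G : Gr) (v Y : Finset ℕ) : Fn := fun B => mnr G.n Y (mask G.n (G.vs v) B)

theorem cv_expand {Y : Finset ℕ} (hY : Y ⊆ Finset.range (2 * G.n)) :
    ∃ ε : Finset ℕ → ℚ, ∀ (u v : Finset ℕ) (val : ℕ → ℚ), G.Cv u v val (mnr G.n Y) =
      ∑ Y' ∈ Y.powerset, (ε Y' * mnr G.n (Y \ Y') (G.mat (u \ v) val)) • gm G v Y' := by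
  obtain ⟨ε, hε⟩ := mnr_add hY
  refine ⟨ε, fun u v val => ?_⟩
  funext B
  rw [cv_apply, hε, Finset.sum_apply]
  rfl

theorem gen_mem {u Y : Finset ℕ} (h1 : G.inn u ⊆ Y) (h2 : Y ⊆ G.vs u) : mnr G.n Y ∈ G.Dm u :=
  Submodule.subset_span ⟨Y, h1, h2, rfl⟩

theorem map_mem (hG : G.Ok) {u v : Finset ℕ} (hu : u ⊆ G.All) (hv : v ⊆ u) (val : ℕ → ℚ) :
    ∀ f ∈ G.Dm u, G.Cv u v val f ∈ G.Dm v := by
  have : G.Dm u ≤ (G.Dm v).comap (G.Cv u v val) := by
    refine Submodule.span_le.2 ?_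
    rintro _ ⟨Y, h1, h2, rfl⟩
    have hY := h2.trans (vs_range hG hu)
    obtain ⟨ε, hε⟩ := cv_expand hY
    change G.Cv u v val (mnr G.n Y) ∈ G.Dm v
    rw [hε]
    refine Submodule.sum_mem _ fun Y' hY' => ?_
    rw [Finset.mem_powerset] at hY'
    by_cases ha : G.inn v ⊆ Y'
    · by_cases hb : Y' ⊆ G.vs v
      · refine Submodule.smul_mem _ _ ?_
        have : gm G v Y' = mnr G.n Y' := funext fun B => mnr_mask hb B
        rw [this]
        exact gen_mem ha hb
      · obtain ⟨x, hx, hx'⟩ := Finset.not_subset.1 hb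
        have : gm G v Y' = 0 := funext fun B => mnr_mask_zero (hY'.trans hY) hx hx' B
        rw [this, smul_zero]
        exact Submodule.zero_mem _
    · obtain ⟨x, hx, hx'⟩ := Finset.not_subset.1 ha
      have h3 : x ∈ Y \ Y' := Finset.mem_sdiff.2 ⟨h1 (inn_mono hv hx), hx'⟩
      have h4 : x ∉ G.vs (u \ v) := fun h =>
        (Finset.mem_sdiff.1 hx).2 (vs_mono (Finset.sdiff_subset_sdiff hu subset_rfl) h)
      rw [mnr_mat_zero (Finset.sdiff_subset.trans hY) h3 h4, mul_zero, zero_smul]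
      exact Submodule.zero_mem _
  exact fun f hf => this hf

theorem comp (u v h : Finset ℕ) (val : ℕ → ℚ) (f : Fn) (hh : h ⊆ v) (hv : v ⊆ u) :
    G.Cv v h val (G.Cv u v val f) = G.Cv u h val f := by
  funext B
  rw [cv_apply, cv_apply, cv_apply]
  congr 1
  funext r c
  have e1 : G.mat (u \ h) val r c = G.mat (u \ v) val r c + G.mat (v \ h) val r c := by
    unfold Gr.mat
    rw [← Finset.sum_union, ← Finset.filter_union]
    · congr 2
      ext x
      simp only [Finset.mem_union, Finset.mem_sdiff]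
      have := @hh x
      have := @hv x
      tauto
    · refine Finset.disjoint_filter_filter ?_
      rw [Finset.disjoint_left]
      intro x h1 h2
      exact (Finset.mem_sdiff.1 h1).2 (Finset.mem_sdiff.1 h2).1
  simp only [Pi.add_apply]
  rw [e1, add_assoc]
  congr 1
  by_cases h1 : r ∈ G.vs v ∧ G.n + c ∈ G.vs v
  · change (if _ then _ else _) = _
    rw [if_pos h1]
    rfl
  · change (if _ then _ else _) = _
    rw [if_neg h1]
    have h2 : G.vs (v \ h) ⊆ G.vs v := vs_mono Finset.sdiff_subset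
    have h3 : G.vs h ⊆ G.vs v := vs_mono hh
    rcases not_and_or.1 h1 with h1 | h1
    · rw [mat_zero (fun h => h1 (h2 h)) val r c (Or.inl rfl),
        mask_zero (fun h => h1 (h3 h)) B r c (Or.inl rfl), add_zero]
    · rw [mat_zero (fun h => h1 (h2 h)) val r c (Or.inr rfl),
        mask_zero (fun h => h1 (h3 h)) B r c (Or.inr rfl), add_zero]

theorem fin_dm (R : Finset ℕ) {b : ℕ} (hb : (G.bd R).card ≤ b) :
    FiniteDimensional ℚ (G.Dm R) ∧ finrank ℚ (G.Dm R) ≤ 2 ^ b := by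
  classical
  set s : Finset Fn := (G.bd R).powerset.image fun T => mnr G.n (G.inn R ∪ T) with hs
  have hle : G.Dm R ≤ Submodule.span ℚ (s : Set Fn) := by
    refine Submodule.span_mono ?_
    rintro _ ⟨Y, h1, h2, rfl⟩
    rw [hs, Finset.coe_image]
    refine ⟨Y ∩ G.bd R, by simp, ?_⟩
    have : G.inn R ∪ Y ∩ G.bd R = Y := by
      ext x
      have := @h1 x
      have := @h2 x
      simp only [Gr.inn, Gr.bd, Finset.mem_union, Finset.mem_inter, Finset.mem_sdiff] at *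
      tauto
    simp only [this]
  have : FiniteDimensional ℚ (Submodule.span ℚ (s : Set Fn)) :=
    FiniteDimensional.span_finset ℚ s
  refine ⟨Submodule.finiteDimensional_of_le hle, (Submodule.finrank_mono hle).trans ?_⟩
  refine (finrank_span_finset_le_card (R := ℚ) s).trans (Finset.card_image_le.trans ?_)
  rw [Finset.card_powerset]
  exact Nat.pow_le_pow_right (by norm_num) hb

/-- The entry function as a linear map of the argument. -/
def entL (C : Finset ℕ → Fn →ₗ[ℚ] Fn) (l : Fn →ₗ[ℚ] ℚ) : Fn →ₗ[ℚ] (Finset ℕ → ℚ) :=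
  LinearMap.pi fun Z => l ∘ₗ C Z

theorem entL_apply (C : Finset ℕ → Fn →ₗ[ℚ] Fn) (l : Fn →ₗ[ℚ] ℚ) (f : Fn) :
    entL C l f = fun Z => l (C Z f) := rfl

theorem step (hG : G.Ok) (val : Finset ℕ → ℕ → ℚ) {R R' : Finset ℕ} (hR : R ⊆ G.All)
    (hR' : R' ⊆ R) :
    Ent (G.Dm R) (fun Z => G.Cv R R' (val Z)) ⊆
      Submodule.span ℚ (Ent (G.Dm (R \ R')) fun Z => G.Cv (R \ R') ∅ (val Z)) := by
  rintro _ ⟨f, hf, l, rfl⟩
  have : G.Dm R ≤ (Submodule.span ℚ
      (Ent (G.Dm (R \ R')) fun Z => G.Cv (R \ R') ∅ (val Z))).comap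
        (entL (fun Z => G.Cv R R' (val Z)) l) := by
    refine Submodule.span_le.2 ?_
    rintro _ ⟨Y, h1, h2, rfl⟩
    have hY := h2.trans (vs_range hG hR)
    obtain ⟨ε, hε⟩ := cv_expand hY
    change entL (fun Z => G.Cv R R' (val Z)) l (mnr G.n Y) ∈ Submodule.span ℚ _
    have e1 : entL (fun Z => G.Cv R R' (val Z)) l (mnr G.n Y) = ∑ Y' ∈ Y.powerset,
        (ε Y' * l (gm G R' Y')) • fun Z => mnr G.n (Y \ Y') (G.mat (R \ R') (val Z)) := by
      funext Z
      rw [entL_apply, Finset.sum_apply]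
      simp only [hε, map_sum, map_smul, smul_eq_mul, Pi.smul_apply]
      exact Finset.sum_congr rfl fun Y' _ => by ring
    rw [e1]
    refine Submodule.sum_mem _ fun Y' hY' => ?_
    rw [Finset.mem_powerset] at hY'
    by_cases ha : G.inn (R \ R') ⊆ Y \ Y'
    · by_cases hb : Y \ Y' ⊆ G.vs (R \ R')
      · refine Submodule.smul_mem _ _ (Submodule.subset_span
          ⟨mnr G.n (Y \ Y'), gen_mem ha hb, LinearMap.proj 0, ?_⟩)
        funext Z
        rw [LinearMap.proj_apply, cv_apply, Finset.sdiff_empty, vs_empty, mask_empty, add_zero]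
      · obtain ⟨x, hx, hx'⟩ := Finset.not_subset.1 hb
        have : (fun Z => mnr G.n (Y \ Y') (G.mat (R \ R') (val Z))) = 0 :=
          funext fun Z => mnr_mat_zero (Finset.sdiff_subset.trans hY) hx hx' _
        rw [this, smul_zero]
        exact Submodule.zero_mem _
    · obtain ⟨x, hx, hx'⟩ := Finset.not_subset.1 ha
      have h3 : x ∈ Y' := by
        by_contra h
        exact hx' (Finset.mem_sdiff.2 ⟨h1 (inn_mono Finset.sdiff_subset hx), h⟩)
      have h4 : x ∉ G.vs R' := fun h => (Finset.mem_sdiff.1 hx).2 (vs_mono (fun y hy =>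
        Finset.mem_sdiff.2 ⟨hR (hR' hy), fun h' => (Finset.mem_sdiff.1 h').2 hy⟩) h)
      have : gm G R' Y' = 0 := funext fun B => mnr_mask_zero (hY'.trans hY) h3 h4 B
      rw [this, map_zero, mul_zero, zero_smul]
      exact Submodule.zero_mem _
  exact this hf

theorem leaf_affine (val : Finset ℕ → ℕ → ℚ) (e : ℕ) :
    ∀ F ∈ Ent (G.Dm {e}) fun Z => G.Cv {e} ∅ (val Z), ∃ α β : ℚ, ∀ Z, F Z = α + β * val Z e := by
  rintro _ ⟨f, hf, l, rfl⟩
  have : G.Dm {e} ≤ (Submodule.span ℚ ({1, fun Z => val Z e} : Set (Finset ℕ → ℚ))).comap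
      (entL (fun Z => G.Cv {e} ∅ (val Z)) l) := by
    refine Submodule.span_le.2 ?_
    rintro _ ⟨Y, -, -, rfl⟩
    obtain ⟨α, β, h⟩ := mnr_affine G.n Y (G.rw e) (G.cl e)
    change entL (fun Z => G.Cv {e} ∅ (val Z)) l (mnr G.n Y) ∈ Submodule.span ℚ _
    refine Submodule.mem_span_pair.2 ⟨α * l 1, β * l 1, ?_⟩
    funext Z
    have e1 : G.Cv {e} ∅ (val Z) (mnr G.n Y) = (α + β * val Z e) • (1 : Fn) := by
      funext B
      rw [cv_apply, Finset.sdiff_empty, vs_empty, mask_empty, add_zero, Pi.smul_apply,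
        Pi.one_apply, smul_eq_mul, mul_one, ← h]
      congr 1
      funext r c
      unfold Gr.mat
      rw [Finset.filter_singleton]
      split_ifs <;> simp
    rw [entL_apply]
    simp only [e1, map_smul, smul_eq_mul, Pi.add_apply, Pi.smul_apply, Pi.one_apply]
    ring
  obtain ⟨α, β, h⟩ := Submodule.mem_span_pair.1 (this hf)
  refine ⟨α, β, fun Z => ?_⟩
  have := congrFun h Z
  rw [entL_apply] at this
  simp only [Pi.add_apply, Pi.smul_apply, smul_eq_mul, Pi.one_apply, mul_one] at this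
  exact this.symm

theorem dm_inj (hG : G.Ok) {v : Finset ℕ} (hv : v ⊆ G.All) {g : Fn} (hg : g ∈ G.Dm v)
    (h0 : ∀ Y, G.inn v ⊆ Y → Y ⊆ G.vs v → g (ref G.n Y) = 0) : g = 0 := by
  classical
  set s : Finset (Finset ℕ) := (G.vs v).powerset.filter fun Y => G.inn v ⊆ Y with hs
  have hmem : ∀ Y, Y ∈ s ↔ G.inn v ⊆ Y ∧ Y ⊆ G.vs v := fun Y => by
    rw [hs, Finset.mem_filter, Finset.mem_powerset, and_comm]
  have hg' : g ∈ Submodule.span ℚ ((fun Y => (mnr G.n Y : Fn)) '' (s : Set (Finset ℕ))) := by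
    refine Submodule.span_mono ?_ hg
    rintro _ ⟨Y, h1, h2, rfl⟩
    exact ⟨Y, (hmem Y).2 ⟨h1, h2⟩, rfl⟩
  obtain ⟨c, hc⟩ := (Submodule.mem_span_image_finset_iff_exists_fun' ℚ).1 hg'
  have key : ∀ Y, Y ∈ s → c Y • (mnr G.n Y : Fn) = 0 := by
    intro Y
    induction Y using Finset.strongInduction with
    | H Y ih =>
      intro hY
      have hY' := (hmem Y).1 hY
      have hr := hY'.2.trans (vs_range hG hv)
      rcases mnr_ref hr with h | h
      · have : (mnr G.n Y : Fn) = 0 := funext h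
        rw [this, smul_zero]
      · have h1 := h0 Y hY'.1 hY'.2
        rw [← hc, Finset.sum_apply, Finset.sum_eq_single_of_mem Y hY] at h1
        · rw [Pi.smul_apply, smul_eq_mul] at h1
          rw [(mul_eq_zero.1 h1).resolve_right h, zero_smul]
        · intro Y0 hY0 hne
          by_cases hsub : Y0 ⊆ Y
          · rw [ih Y0 (Finset.ssubset_iff_subset_ne.2 ⟨hsub, hne⟩) hY0]
            rfl
          · obtain ⟨x, hx, hx'⟩ := Finset.not_subset.1 hsub
            have hr0 := ((hmem Y0).1 hY0).2.trans (vs_range hG hv)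
            rw [Pi.smul_apply, mnr_eq_zero hx (Finset.mem_range.1 (hr0 hx)) _
              fun r _ c _ h => ref_zero hx' r c h, smul_zero]
  rw [← hc]
  exact Finset.sum_eq_zero key

end PD2

open PD2

theorem exists_sys (G : Gr) (hG : G.Ok) (k b : ℕ) (N : Finset ℕ → Prop) (aff : ℕ → Finset ℕ)
    (val : Finset ℕ → ℕ → ℚ) (n0 : N ∅)
    (spl : ∀ R, N R → 2 ≤ R.card → ∃ R', N R' ∧ R' ⊆ R ∧ R'.Nonempty ∧ R' ≠ R ∧ N (R \ R'))
    (hN : ∀ R, N R → R ⊆ G.All ∧ (G.bd R).card ≤ b)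
    (hloc : ∀ e ∈ G.All, ∀ Z Z', (∀ i ∈ aff e, (i ∈ Z ↔ i ∈ Z')) → val Z e = val Z' e)
    (hleaf : ∀ e ∈ G.All, (aff e).card ≤ k ∨ ∃ χ : ℕ → ℚ, (∀ i, χ i ≠ 0) ∧
      ∀ Z, val Z e = val ∅ e * ∏ i ∈ Z, χ i) :
    ∃ X : Sys Fn k (2 ^ b), X.N = N ∧ X.aff = aff ∧
      ∀ u h Z, X.rk u h Z = G.rk u h (val Z) := by
  refine ⟨⟨N, aff, G.Dm, fun u v Z => G.Cv u v (val Z), n0, spl,
    fun R hR => fin_dm R (hN R hR).2,
    fun u v Z hu _ hv => map_mem hG (hN u hu).1 hv (val Z),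
    fun u v h Z f hh hv => comp u v h (val Z) f hh hv, ?_,
    fun R R' hR _ hR' _ => step hG val (hN R hR).1 hR', ?_⟩, rfl, rfl, fun _ _ _ => rfl⟩
  · intro u v Z Z' hu h
    have : G.mat (u \ v) (val Z) = G.mat (u \ v) (val Z') := by
      funext r c
      refine Finset.sum_congr rfl fun e he => ?_
      have he' := (Finset.mem_filter.1 he).1
      exact hloc e ((hN u hu).1 (Finset.mem_sdiff.1 he').1) Z Z' (h e he')
    unfold Gr.Cv
    rw [this]
  · intro e he S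
    have he' : e ∈ G.All := (hN _ he).1 (Finset.mem_singleton_self e)
    rcases hleaf e he' with h | ⟨χ, hχ, h⟩
    · refine ⟨S \ aff e, Finset.sdiff_subset,
        Finset.card_le_card_sdiff_add_card.trans (Nat.add_le_add_left h _), ?_⟩
      refine (Rep.one (S \ aff e)).of_span (by norm_num) subset_rfl fun F hF => ?_
      obtain ⟨α, β, hF'⟩ := leaf_affine val e F hF
      refine ⟨(α + β * val ∅ e) • 1,
        Submodule.smul_mem _ _ (Submodule.subset_span rfl), fun Z hZ => ?_⟩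
      rw [hF', hloc e he' Z ∅ fun i hi =>
        ⟨fun h' => absurd hi (Finset.mem_sdiff.1 (hZ h')).2, fun h' => absurd h' (by simp)⟩]
      simp
    · refine ⟨S, subset_rfl, Nat.le_add_right _ _, ?_⟩
      refine ((Rep.one S).union (Rep.char S χ hχ)).of_span le_rfl subset_rfl fun F hF => ?_
      obtain ⟨α, β, hF'⟩ := leaf_affine val e F hF
      refine ⟨α • 1 + (β * val ∅ e) • fun Z => ∏ i ∈ Z, χ i, Submodule.add_mem _
        (Submodule.smul_mem _ _ (Submodule.subset_span (Or.inl rfl)))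
        (Submodule.smul_mem _ _ (Submodule.subset_span (Or.inr rfl))), fun Z _ => ?_⟩
      rw [hF', h]
      simp only [Pi.add_apply, Pi.smul_apply, smul_eq_mul, Pi.one_apply]
      ring

theorem rank_ev (G : Gr) (hG : G.Ok) {u v : Finset ℕ} (hu : u ⊆ G.All) (hv : v ⊆ u)
    (val : ℕ → ℚ) {N p q : ℕ} (hp : p ≤ N) (hq : q ≤ N) (y y' : ℕ → Finset ℕ)
    (h1 : ∀ i < p, G.inn u ⊆ y i ∧ y i ⊆ G.vs u)
    (h2 : ∀ Y, G.inn u ⊆ Y → Y ⊆ G.vs u → ∃ i < p, y i = Y)
    (h3 : ∀ i < q, G.inn v ⊆ y' i ∧ y' i ⊆ G.vs v)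
    (h4 : ∀ Y, G.inn v ⊆ Y → Y ⊆ G.vs v → ∃ i < q, y' i = Y) {κ : ℚ} (hκ : κ ≠ 0) :
    (Matrix.of fun i j : Fin N => if i.1 < p ∧ j.1 < q then
      κ * mnr G.n (y i) (G.mat (u \ v) val + ref G.n (y' j)) else 0).rank = G.rk u v val := by
  set ev : Fn →ₗ[ℚ] (Fin N → ℚ) := LinearMap.pi fun j =>
    if j.1 < q then κ • LinearMap.proj (ref G.n (y' j)) else 0 with hev
  have ev_apply : ∀ (g : Fn) (j : Fin N),
      ev g j = if j.1 < q then κ * g (ref G.n (y' j)) else 0 := by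
    intro g j
    rw [hev, LinearMap.pi_apply]
    split_ifs <;> simp
  set M : Matrix (Fin N) (Fin N) ℚ := Matrix.of fun i j : Fin N => if i.1 < p ∧ j.1 < q then
      κ * mnr G.n (y i) (G.mat (u \ v) val + ref G.n (y' j)) else 0 with hM
  have hrow : ∀ i : Fin N, M.row i =
      if i.1 < p then ev (G.Cv u v val (mnr G.n (y i))) else 0 := by
    intro i
    funext j
    change (if i.1 < p ∧ j.1 < q then _ else _) = _
    by_cases hi : i.1 < p
    · rw [if_pos hi, ev_apply]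
      by_cases hj : j.1 < q
      · rw [if_pos ⟨hi, hj⟩, if_pos hj, cv_apply, mask_ref (h3 _ hj).2]
      · rw [if_neg fun h => hj h.2, if_neg hj]
    · rw [if_neg fun h => hi h.1, if_neg hi]
      rfl
  set W := (G.Dm u).map (G.Cv u v val) with hW
  have hspan : Submodule.span ℚ (Set.range M.row) = W.map ev := by
    apply le_antisymm
    · refine Submodule.span_le.2 ?_
      rintro _ ⟨i, rfl⟩
      rw [hrow]
      split_ifs with hi
      · exact Submodule.mem_map_of_mem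
          (Submodule.mem_map_of_mem (gen_mem (h1 _ hi).1 (h1 _ hi).2))
      · exact Submodule.zero_mem _
    · rw [hW, Submodule.map_le_iff_le_comap, Submodule.map_le_iff_le_comap]
      refine Submodule.span_le.2 ?_
      rintro _ ⟨Y, ha, hb, rfl⟩
      obtain ⟨i, hi, rfl⟩ := h2 Y ha hb
      change ev (G.Cv u v val (mnr G.n (y i))) ∈ Submodule.span ℚ _
      refine Submodule.subset_span ⟨⟨i, hi.trans_le hp⟩, ?_⟩
      rw [hrow, if_pos hi]
  have hinj : Function.Injective (ev.domRestrict W) := by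
    rw [injective_iff_map_eq_zero]
    rintro ⟨g, hg⟩ h0
    obtain ⟨f, hf, rfl⟩ := hg
    refine Subtype.ext (dm_inj hG (hv.trans hu) (map_mem hG hu hv val f hf) fun Y ha hb => ?_)
    obtain ⟨j, hj, rfl⟩ := h4 Y ha hb
    have := congrFun h0 ⟨j, hj.trans_le hq⟩
    rw [LinearMap.domRestrict_apply, ev_apply, if_pos hj] at this
    exact (mul_eq_zero.1 this).resolve_left hκ
  rw [Matrix.rank_eq_finrank_span_row, hspan, ← LinearMap.range_domRestrict,
    LinearMap.finrank_range_of_inj hinj]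
  rfl

theorem rk_root (G : Gr) (hG : G.Ok) (hV : G.vs G.All = Finset.range (2 * G.n)) (val : ℕ → ℚ) :
    G.rk G.All ∅ val = 0 ↔ (Matrix.of fun r c : Fin G.n => G.mat G.All val r c).det = 0 := by
  have _ := hG
  have hinn : G.inn G.All = Finset.range (2 * G.n) := by
    rw [Gr.inn, Finset.sdiff_self, vs_empty, Finset.sdiff_empty, hV]
  have hD : G.Dm G.All = Submodule.span ℚ {mnr G.n (Finset.range (2 * G.n))} := by
    unfold Gr.Dm
    congr 1
    ext f
    rw [hinn, hV]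
    constructor
    · rintro ⟨Y, h1, h2, rfl⟩
      rw [Finset.Subset.antisymm h2 h1]
      rfl
    · rintro rfl
      exact ⟨_, subset_rfl, subset_rfl, rfl⟩
  have hC : G.Cv G.All ∅ val (mnr G.n (Finset.range (2 * G.n))) =
      fun _ => (Matrix.of fun r c : Fin G.n => G.mat G.All val r c).det := by
    funext B
    rw [cv_apply, Finset.sdiff_empty, vs_empty, mask_empty, add_zero]
    unfold mnr
    congr 1
    ext r c
    have hr : (r : ℕ) ∈ Finset.range (2 * G.n) := Finset.mem_range.2 (by omega)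
    have hc : G.n + c ∈ Finset.range (2 * G.n) := Finset.mem_range.2 (by omega)
    simp only [Matrix.of_apply, mask, ref, Finset.sdiff_self, Finset.notMem_empty, false_and,
      if_false, add_zero]
    rw [if_pos ⟨hr, hc⟩]
  unfold Gr.rk
  rw [hD, Submodule.map_span, Set.image_singleton, hC, Submodule.finrank_eq_zero,
    Submodule.span_singleton_eq_bot]
  exact ⟨fun h => congrFun h 0, fun h => funext fun _ => h⟩

end Pool.Agent.P.MP_08e617_lc.Rk
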