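import Pool.Agent.P.MP_08e617_lc.RkB

/-! The determinant by the division-free recursion, and genericity of locally optimal points. -/

namespace Pool.Agent.P.MP_08e617_lc.Rk

open Pool.Agent.Lib.helper21 Module
open scoped Pointwise

namespace PE

open Matrix

section Det
open Polynomial

variable {n : Type} [Fintype n] [DecidableEq n] {R : Type} [CommRing R]

theorem deriv_det (N : Matrix n n R[X]) :
    derivative N.det = trace (adjugate N * N.map derivative) := by
  have h1 : ∀ i, (adjugate N * N.map derivative) i i =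
      (N.updateCol i fun j => derivative (N j i)).det := by
    intro i
    rw [← cramer_apply, cramer_eq_adjugate_mulVec]
    rfl
  simp only [trace, diag_apply, h1, det_apply', derivative_sum]
  rw [Finset.sum_comm]
  refine Finset.sum_congr rfl fun σ _ => ?_
  rw [derivative_mul, derivative_intCast, zero_mul, zero_add, derivative_prod_finset,
    Finset.mul_sum]
  refine Finset.sum_congr rfl fun i _ => ?_
  congr 1
  rw [← Finset.prod_erase_mul _ _ (Finset.mem_univ i), updateCol_self]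
  congr 1
  exact Finset.prod_congr rfl fun k hk => (updateCol_ne (Finset.ne_of_mem_erase hk)).symm

theorem flM_adj (B : Matrix n n R) (j : ℕ) :
    trace (B * flM B j) =
      ((j + 1).factorial : R) * (det (1 + (X : R[X]) • B.map C)).coeff (j + 1) := by
  set N : Matrix n n R[X] := 1 + (X : R[X]) • B.map C with hN
  let A : ℕ → Matrix n n R := fun j => (adjugate N).map fun f => f.coeff j
  have hm : adjugate N + (X : R[X]) • (B.map C * adjugate N) = N.det • (1 : Matrix n n R[X]) := by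
    rw [← mul_adjugate, hN, Matrix.add_mul, Matrix.one_mul, Matrix.smul_mul]
  have hc : ∀ j p q, ((B.map C * adjugate N) p q).coeff j = (B * A j) p q := by
    intro j p q
    simp [mul_apply, A, finsetSum_coeff]
  have h0 : A 0 = 1 := by
    have d0 : N.det.coeff 0 = 1 := by
      rw [hN, coeff_det_one_add_X_smul_eq_sum_minors]
      simp
    ext p q
    have := congrArg (fun M : Matrix n n R[X] => (M p q).coeff 0) hm
    by_cases h : p = q
    · subst h
      simpa [A, d0] using this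
    · simpa [A, h, one_apply_ne h] using this
  have hs : ∀ j, A (j + 1) = N.det.coeff (j + 1) • (1 : Matrix n n R) - B * A j := by
    intro j
    ext p q
    have := congrArg (fun M : Matrix n n R[X] => (M p q).coeff (j + 1)) hm
    simp only [Matrix.add_apply, Matrix.smul_apply, smul_eq_mul, coeff_add, coeff_X_mul,
      hc] at this
    rw [Matrix.sub_apply, eq_sub_iff_add_eq]
    refine this.trans ?_
    by_cases h : p = q
    · subst h; simp
    · simp [one_apply_ne h]
  have ht : ∀ j, trace (B * A j) = ((j : R) + 1) * N.det.coeff (j + 1) := by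
    intro j
    have h1 := congrArg (fun f : R[X] => f.coeff j) (deriv_det N)
    have h2 : N.map derivative = B.map C := by
      ext p q : 2
      by_cases h : p = q
      · subst h; simp [hN]
      · simp [hN, one_apply_ne h]
    simp only [coeff_derivative, h2] at h1
    rw [mul_comm, h1, trace_mul_comm (adjugate N)]
    simp only [trace, diag_apply, finsetSum_coeff, hc]
  have key : ∀ j, flM B j = (j.factorial : R) • A j := by
    intro j
    induction j with
    | zero => simp [flM, h0]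
    | succ j ih =>
      rw [flM, ih, hs, Matrix.mul_smul, trace_smul, ht, smul_sub, smul_smul, smul_smul,
        Nat.factorial_succ, smul_eq_mul]
      push_cast
      congr 2
      ring
  rw [key, Matrix.mul_smul, trace_smul, ht, Nat.factorial_succ, smul_eq_mul]
  push_cast
  ring

theorem top_coeff (B : Matrix n n R) :
    (det (1 + (X : R[X]) • B.map C)).coeff (Fintype.card n) = B.det := by
  rw [coeff_det_one_add_X_smul_eq_sum_minors, ← Finset.card_univ, Finset.powersetCard_self,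
    Finset.sum_singleton]
  exact det_submatrix_equiv_self (Equiv.subtypeUnivEquiv Finset.mem_univ) B

end Det

open MvPolynomial

theorem totalDegree_det_le {ι : Type} [Fintype ι] [DecidableEq ι]
    (M : Matrix ι ι (MvPolynomial ℕ ℚ)) {E : ℕ} (h : ∀ i j, (M i j).totalDegree ≤ E) :
    M.det.totalDegree ≤ Fintype.card ι * E := by
  rw [det_apply']
  refine totalDegree_finsetSum_le fun s _ => (totalDegree_mul _ _).trans ?_
  rw [← map_intCast (C : ℚ →+* MvPolynomial ℕ ℚ), totalDegree_C, zero_add]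
  refine (totalDegree_finsetProd _ _).trans ?_
  refine (Finset.sum_le_card_nsmul _ _ E fun i _ => h _ _).trans ?_
  simp

theorem exists_pq {N : ℕ} (A : Matrix (Fin N) (Fin N) ℚ) :
    ∃ (P : Matrix (Fin A.rank) (Fin N) ℚ) (Q : Matrix (Fin N) (Fin A.rank) ℚ), P * A * Q = 1 := by
  let W := LinearMap.range A.mulVecLin
  have e : W ≃ₗ[ℚ] (Fin A.rank → ℚ) := LinearEquiv.ofFinrankEq _ _ (by simp [W]; rfl)
  obtain ⟨g, hg⟩ := LinearMap.exists_rightInverse_of_surjective A.mulVecLin.rangeRestrict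
    (LinearMap.range_rangeRestrict _)
  obtain ⟨l, hl⟩ := LinearMap.exists_leftInverse_of_injective W.subtype (Submodule.ker_subtype _)
  refine ⟨LinearMap.toMatrix' (e.toLinearMap ∘ₗ l), LinearMap.toMatrix' (g ∘ₗ e.symm.toLinearMap),
    ?_⟩
  apply Matrix.toLin'.injective
  rw [toLin'_mul, toLin'_mul, toLin'_toMatrix', toLin'_toMatrix', toLin'_one]
  refine LinearMap.ext fun v => ?_
  have h1 := LinearMap.congr_fun hg (e.symm v)
  have h2 := LinearMap.congr_fun hl (e.symm v)
  have h3 : toLin' A (g (e.symm v)) = W.subtype (e.symm v) := congrArg Subtype.val h1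
  simp only [LinearMap.comp_apply, LinearEquiv.coe_coe, LinearMap.id_apply] at h2 ⊢
  rw [h3, h2, LinearEquiv.apply_symm_apply]

/-- A polynomial that certifies the rank at a point. -/
theorem exists_cert {N : ℕ} (M : Matrix (Fin N) (Fin N) (MvPolynomial ℕ ℚ)) (p : ℕ → ℚ) :
    ∃ f : MvPolynomial ℕ ℚ, eval p f ≠ 0 ∧ (∀ q, eval q f ≠ 0 → rkAt M p ≤ rkAt M q) ∧
      ∀ δ, (∀ i j, (M i j).totalDegree ≤ δ) → f.totalDegree ≤ N * δ := by
  obtain ⟨P, Q, h⟩ := exists_pq (M.map (eval p))
  let c : ℚ →+* MvPolynomial ℕ ℚ := C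
  have he : ∀ q, eval q (P.map c * M * Q.map c).det = (P * M.map (eval q) * Q).det := by
    intro q
    rw [RingHom.map_det, RingHom.mapMatrix_apply, Matrix.map_mul, Matrix.map_mul, Matrix.map_map,
      Matrix.map_map]
    congr 3 <;> ext <;> simp [c]
  refine ⟨(P.map c * M * Q.map c).det, by rw [he, h]; simp, fun q hq => ?_, fun δ hδ => ?_⟩
  · rw [he] at hq
    have h1 := rank_of_isUnit _ ((isUnit_iff_isUnit_det _).2 (Ne.isUnit hq))
    rw [Fintype.card_fin] at h1
    calc rkAt M p = (P * M.map (eval q) * Q).rank := h1.symm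
      _ ≤ _ := (rank_mul_le_left _ _).trans (rank_mul_le_right _ _)
  · refine (totalDegree_det_le _ (E := δ) fun i j => ?_).trans ?_
    · simp only [mul_apply, map_apply, c]
      refine totalDegree_finsetSum_le fun k _ => (totalDegree_mul _ _).trans ?_
      rw [totalDegree_C, add_zero]
      refine totalDegree_finsetSum_le fun l _ => (totalDegree_mul _ _).trans ?_
      rw [totalDegree_C, zero_add]
      exact hδ _ _
    · rw [Fintype.card_fin]
      exact Nat.mul_le_mul_right _ (rank_le_width _)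

/-- Substituting `a` outside `S \ Z`. -/
noncomputable def sub (a : ℕ → ℚ) (S Z : Finset ℕ) : MvPolynomial ℕ ℚ →ₐ[ℚ] MvPolynomial ℕ ℚ :=
  aeval fun j => if j ∈ S ∧ j ∉ Z then X j else C (a j)

theorem eval_sub (a y : ℕ → ℚ) (S Z : Finset ℕ) (f : MvPolynomial ℕ ℚ) :
    eval y (sub a S Z f) = eval (cub a y S Z) f := by
  induction f using MvPolynomial.induction_on with
  | C c => simp [sub]
  | add f g hf hg => simp [hf, hg]
  | mul_X f j hf =>
    rw [map_mul, map_mul, map_mul, hf]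
    congr 1
    simp only [sub, aeval_X, eval_X, cub]
    split_ifs <;> simp

theorem generic {T : Set (MvPolynomial ℕ ℚ)} (hT : T.Finite) (h0 : ∀ g ∈ T, ∃ y, eval y g ≠ 0) :
    ∃ y, ∀ g ∈ T, eval y g ≠ 0 := by
  have h1 : ∏ g ∈ hT.toFinset, g ≠ 0 := Finset.prod_ne_zero_iff.2 fun g hg h => by
    obtain ⟨y, hy⟩ := h0 g (hT.mem_toFinset.1 hg)
    exact hy (by rw [h, map_zero])
  by_contra h
  refine h1 (MvPolynomial.funext fun y => ?_)
  by_contra h2
  rw [map_zero, map_prod] at h2
  exact h ⟨y, fun g hg => Finset.prod_ne_zero_iff.1 h2 g (hT.mem_toFinset.2 hg)⟩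

theorem grid_one {T : ℕ} {f : MvPolynomial ℕ ℚ} (hf : f.totalDegree < T) {p : ℕ → ℚ}
    (hp : eval p f ≠ 0) (i : ℕ) :
    ∃ s < T, eval (Function.update p i ((s + 1 : ℕ) : ℚ)) f ≠ 0 := by
  let φ : MvPolynomial ℕ ℚ →ₐ[ℚ] Polynomial ℚ :=
    aeval fun j => if j = i then (Polynomial.X : Polynomial ℚ) else Polynomial.C (p j)
  have he' : ∀ t f, (φ f).eval t = eval (Function.update p i t) f := by
    intro t f
    induction f using MvPolynomial.induction_on with
    | C c => simp [φ]
    | add f g hf hg => simp [hf, hg]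
    | mul_X f j hf =>
      rw [map_mul, map_mul, Polynomial.eval_mul, hf]
      congr 1
      simp only [φ, aeval_X, eval_X, Function.update_apply]
      split_ifs <;> simp
  let g := φ f
  have hd : g.natDegree ≤ f.totalDegree * 1 := aeval_natDegree_le f le_rfl _ fun j => by
    split_ifs <;> simp
  have he : ∀ t, g.eval t = eval (Function.update p i t) f := fun t => he' t f
  by_contra h
  push Not at h
  have hg : g = 0 := by
    refine Polynomial.eq_zero_of_natDegree_lt_card_of_eval_eq_zero' g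
      ((Finset.range T).image fun s : ℕ => ((s + 1 : ℕ) : ℚ)) (fun x hx => ?_) ?_
    · obtain ⟨s, hs, rfl⟩ := Finset.mem_image.1 hx
      rw [he]
      exact h s (Finset.mem_range.1 hs)
    · rw [Finset.card_image_of_injective _ fun x y hxy => by simpa using hxy, Finset.card_range]
      omega
  have := he (p i)
  rw [hg, Function.update_eq_self] at this
  exact hp (by simpa using this.symm)

theorem grid {T : ℕ} {f : MvPolynomial ℕ ℚ} (hf : f.totalDegree < T) (U : Finset ℕ) :
    ∀ p : ℕ → ℚ, eval p f ≠ 0 → ∃ q : ℕ → ℚ, eval q f ≠ 0 ∧ (∀ j ∉ U, q j = p j) ∧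
      ∀ j ∈ U, ∃ s < T, q j = ((s + 1 : ℕ) : ℚ) := by
  induction U using Finset.induction_on with
  | empty => exact fun p hp => ⟨p, hp, fun _ _ => rfl, by simp⟩
  | insert i U hi ih =>
    intro p hp
    obtain ⟨q, h1, h2, h3⟩ := ih p hp
    obtain ⟨s, hs, h4⟩ := grid_one hf h1 i
    refine ⟨_, h4, fun j hj => ?_, fun j hj => ?_⟩
    · rw [Finset.mem_insert, not_or] at hj
      rw [Function.update_of_ne hj.1, h2 j hj.2]
    · by_cases hji : j = i
      · subst hji
        exact ⟨s, hs, Function.update_self _ _ _⟩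
      · rw [Function.update_of_ne hji]
        exact h3 j ((Finset.mem_insert.1 hj).resolve_left hji)

theorem nbr_succ {K T : ℕ} {a b : List ℕ} {t : ℕ} (h : b ∈ nbr K T a t) :
    b ∈ nbr K T a (t + 1) := List.mem_flatMap.2 ⟨b, h, List.mem_cons_self⟩

theorem self_nbr (K T : ℕ) (a : List ℕ) (t : ℕ) : a ∈ nbr K T a t := by
  induction t with
  | zero => simp [nbr]
  | succ t ih => exact nbr_succ ih

theorem exists_nbr (K T : ℕ) (a : List ℕ) (U : Finset ℕ) : ∀ t, U.card ≤ t → (∀ j ∈ U, j < K) →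
    ∀ q : ℕ → ℚ, (∀ j ∉ U, q j = fa a j) → (∀ j ∈ U, ∃ s < T, q j = ((s + 1 : ℕ) : ℚ)) →
    ∃ b ∈ nbr K T a t, ∀ j < K, fa b j = q j := by
  induction U using Finset.induction_on with
  | empty => exact fun t _ _ q h _ => ⟨a, self_nbr K T a t, fun j _ => (h j (by simp)).symm⟩
  | insert i U hi ih =>
    intro t ht hK q h1 h2
    rw [Finset.card_insert_of_notMem hi] at ht
    obtain ⟨t, rfl⟩ : ∃ t', t = t' + 1 := ⟨t - 1, by omega⟩
    obtain ⟨b, hb, h3⟩ := ih t (by omega) (fun j hj => hK j (Finset.mem_insert_of_mem hj))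
      (Function.update q i (fa a i)) (fun j hj => by
        by_cases hji : j = i
        · subst hji; simp
        · rw [Function.update_of_ne hji]
          exact h1 j (by simp [hji, hj])) (fun j hj => by
        rw [Function.update_of_ne (ne_of_mem_of_not_mem hj hi)]
        exact h2 j (Finset.mem_insert_of_mem hj))
    obtain ⟨s, hs, h4⟩ := h2 i (Finset.mem_insert_self _ _)
    refine ⟨upd K b i (s + 1), List.mem_flatMap.2 ⟨b, hb, List.mem_cons_of_mem _ ?_⟩,
      fun j hj => ?_⟩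
    · exact List.mem_flatMap.2 ⟨i, List.mem_range.2 (hK i (Finset.mem_insert_self _ _)),
        List.mem_map.2 ⟨s, List.mem_range.2 hs, rfl⟩⟩
    · rw [fa_upd _ _ _ j hj]
      by_cases hji : j = i
      · subst hji
        rw [Function.update_self, h4]
      · rw [Function.update_of_ne hji, h3 j hj, Function.update_of_ne hji]

theorem cub_self (a : ℕ → ℚ) (S Z : Finset ℕ) : cub a a S Z = a := by
  funext j
  simp [cub]

theorem cub_eq {a p : ℕ → ℚ} {U : Finset ℕ} (h : ∀ j ∉ U, p j = a j) : cub a p U ∅ = p := by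
  funext j
  by_cases hj : j ∈ U
  · simp [cub, hj]
  · simp [cub, hj, h j hj]

theorem deg_prod {ι : Type} (s : List ι) (N : ι → ℕ) (f : ι → MvPolynomial ℕ ℚ) (δ : ℕ)
    (h : ∀ x ∈ s, (f x).totalDegree ≤ N x * δ) :
    (s.map f).prod.totalDegree ≤ (s.map N).sum * δ := by
  induction s with
  | nil => simp
  | cons x s ih =>
    rw [List.map_cons, List.map_cons, List.prod_cons, List.sum_cons, add_mul]
    exact (totalDegree_mul _ _).trans (add_le_add (h x List.mem_cons_self)
      (ih fun y hy => h y (List.mem_cons_of_mem _ hy)))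

theorem eval_prod_ne {ι : Type} (s : List ι) (f : ι → MvPolynomial ℕ ℚ) (q : ℕ → ℚ) :
    eval q (s.map f).prod ≠ 0 ↔ ∀ x ∈ s, eval q (f x) ≠ 0 := by
  induction s with
  | nil => simp
  | cons x s ih =>
    rw [List.map_cons, List.prod_cons, map_mul, mul_ne_zero_iff, ih, List.forall_mem_cons]

end PE

theorem detL_spec {n : ℕ} (hn : 0 < n) (M : List (List ℤ)) :
    detL n M = n.factorial * (toM n M).det := by
  obtain ⟨n, rfl⟩ : ∃ m, n = m + 1 := ⟨n - 1, by omega⟩
  have h := PE.top_coeff (toM (n + 1) M)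
  rw [Fintype.card_fin] at h
  rw [detL, trL_eq, toM_mulL, (fl_spec _ _ _).2, Nat.add_sub_cancel, PE.flM_adj, h]

theorem local_gen {ι : Type} (s : List ι) (N : ι → ℕ)
    (M : ∀ x, Matrix (Fin (N x)) (Fin (N x)) (MvPolynomial ℕ ℚ)) (δ K T t : ℕ)
    (hδ : ∀ x ∈ s, ∀ i j, (M x i j).totalDegree ≤ δ)
    (hK : ∀ x ∈ s, ∀ p q : ℕ → ℚ, (∀ i < K, p i = q i) → rkAt (M x) p = rkAt (M x) q)
    (hT : (s.map N).sum * δ < T) (a : List ℕ)
    (hmin : ∀ b ∈ nbr K T a t, (s.map fun x => N x - rkAt (M x) (fa a)).sum ≤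
      (s.map fun x => N x - rkAt (M x) (fa b)).sum) :
    ∀ x ∈ s, ∀ U : Finset ℕ, U.card ≤ t → ∀ p : ℕ → ℚ, (∀ j ∉ U, p j = fa a j) →
      rkAt (M x) p ≤ rkAt (M x) (fa a) := by
  classical
  intro x₀ hx₀ U hU p hp
  by_contra hlt
  push Not at hlt
  let U' := U.filter (· < K)
  let p' : ℕ → ℚ := fun j => if j < K then p j else fa a j
  have hp' : ∀ j ∉ U', p' j = fa a j := fun j hj => by
    simp only [p']
    split_ifs with h
    · exact hp j fun h' => hj (Finset.mem_filter.2 ⟨h', h⟩)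
    · rfl
  rw [hK x₀ hx₀ p p' fun i hi => by simp [p', hi]] at hlt
  let π : ι → ℕ → ℚ := fun x => if x = x₀ then p' else fa a
  have hπ : ∀ x, ∀ j ∉ U', π x j = fa a j := fun x j hj => by
    simp only [π]
    split_ifs
    · exact hp' j hj
    · rfl
  choose f h1 h2 h3 using fun x => PE.exists_cert (M x) (π x)
  obtain ⟨y, hy⟩ := PE.generic (T := (fun x => PE.sub (fa a) U' ∅ (f x)) '' {x | x ∈ s})
    ((List.finite_toSet s).image _) (by
      rintro _ ⟨x, -, rfl⟩
      exact ⟨π x, by rw [PE.eval_sub, PE.cub_eq (hπ x)]; exact h1 x⟩)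
  obtain ⟨q, q1, q2, q3⟩ := PE.grid ((PE.deg_prod s N f δ fun x hx => h3 x δ (hδ x hx)).trans_lt hT)
    U' (cub (fa a) y U' ∅) ((PE.eval_prod_ne s f _).2 fun x hx => by
      rw [← PE.eval_sub]; exact hy _ ⟨x, hx, rfl⟩)
  obtain ⟨b, hb, h4⟩ := PE.exists_nbr K T a U' t ((Finset.card_filter_le _ _).trans hU)
    (fun j hj => (Finset.mem_filter.1 hj).2) q (fun j hj => by rw [q2 j hj]; simp [cub, hj]) q3
  have h5 : ∀ x ∈ s, rkAt (M x) (π x) ≤ rkAt (M x) (fa b) := fun x hx => by
    rw [hK x hx _ _ h4]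
    exact h2 x q ((PE.eval_prod_ne s f q).1 q1 x hx)
  refine (hmin b hb).not_gt (List.sum_lt_sum _ _ (fun x hx => ?_) ⟨x₀, hx₀, ?_⟩)
  · have := h5 x hx
    by_cases h : x = x₀
    · subst h
      simp only [π, if_pos] at this
      omega
    · simp only [π, if_neg h] at this
      omega
  · have h6 := h5 x₀ hx₀
    have h7 : rkAt (M x₀) (fa b) ≤ N x₀ := Matrix.rank_le_width _
    simp only [π, if_pos] at h6
    omega

theorem exists_cube {ι : Type} (s : List ι) (good : ι → Prop) (N : ι → ℕ)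
    (M : ∀ x, Matrix (Fin (N x)) (Fin (N x)) (MvPolynomial ℕ ℚ)) (a : ℕ → ℚ) (t : ℕ)
    (hloc : ∀ x ∈ s, ∀ U : Finset ℕ, U.card ≤ t → ∀ p : ℕ → ℚ, (∀ j ∉ U, p j = a j) →
      rkAt (M x) p ≤ rkAt (M x) a)
    {x₀ : ι} (hx₀ : x₀ ∈ s) (hg : good x₀) (U₀ : Finset ℕ) (p₀ : ℕ → ℚ)
    (hp₀ : ∀ j ∉ U₀, p₀ j = a j) (hlt : rkAt (M x₀) a < rkAt (M x₀) p₀) :
    ∃ (S : Finset ℕ) (y : ℕ → ℚ), t < S.card ∧ (∀ j, y j ≠ 0) ∧
      (∃ x ∈ s, good x ∧ rkAt (M x) a < rkAt (M x) (cub a y S ∅)) ∧
      ∀ x ∈ s, good x → ∀ Z ⊆ S, Z.Nonempty → rkAt (M x) (cub a y S Z) = rkAt (M x) a := by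
  classical
  have hex : ∃ m, ∃ x ∈ s, good x ∧ ∃ U : Finset ℕ, U.card = m ∧ ∃ p : ℕ → ℚ,
      (∀ j ∉ U, p j = a j) ∧ rkAt (M x) a < rkAt (M x) p :=
    ⟨_, x₀, hx₀, hg, U₀, rfl, p₀, hp₀, hlt⟩
  obtain ⟨x₁, hx₁, hg₁, S, hS, p, hp, hl⟩ := Nat.find_spec hex
  choose f h1 h2 _ using fun x => PE.exists_cert (M x) a
  obtain ⟨g, g1, g2, -⟩ := PE.exists_cert (M x₁) p
  obtain ⟨y, hy⟩ := PE.generic
    (T := insert (PE.sub a S ∅ g) ((MvPolynomial.X '' (S : Set ℕ)) ∪
      (fun z : ι × Finset ℕ => PE.sub a S z.2 (f z.1)) '' ({x | x ∈ s} ×ˢ (S.powerset : Set _))))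
    (((S.finite_toSet.image _).union
      (((List.finite_toSet s).prod S.powerset.finite_toSet).image _)).insert _) (by
      rintro _ (rfl | ⟨j, -, rfl⟩ | ⟨z, -, rfl⟩)
      · exact ⟨p, by rw [PE.eval_sub, PE.cub_eq hp]; exact g1⟩
      · exact ⟨fun _ => 1, by simp⟩
      · exact ⟨a, by rw [PE.eval_sub, PE.cub_self]; exact h1 _⟩)
  have hc : ∀ Z, cub a (fun j => if j ∈ S then y j else 1) S Z = cub a y S Z := fun Z => by
    funext j
    by_cases hj : j ∈ S <;> simp [cub, hj]
  refine ⟨S, fun j => if j ∈ S then y j else 1, ?_, fun j => ?_, ⟨x₁, hx₁, hg₁, ?_⟩,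
    fun x hx hgx Z hZ hne => ?_⟩
  · by_contra h
    exact (hloc x₁ hx₁ S (not_lt.1 h) p hp).not_gt hl
  · beta_reduce
    split_ifs with hj
    · simpa using hy (MvPolynomial.X j) (Or.inr (Or.inl ⟨j, hj, rfl⟩))
    · exact one_ne_zero
  · rw [hc]
    refine hl.trans_le (g2 _ ?_)
    rw [← PE.eval_sub]
    exact hy _ (Or.inl rfl)
  · rw [hc]
    refine le_antisymm ?_ (h2 x _ ?_)
    · by_contra h
      refine Nat.find_min hex (m := (S \ Z).card) ?_
        ⟨x, hx, hgx, S \ Z, rfl, cub a y S Z, fun j hj => ?_, not_le.1 h⟩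
      · rw [← hS]
        exact Finset.card_lt_card (Finset.sdiff_ssubset hZ hne)
      · rw [Finset.mem_sdiff] at hj
        simp only [cub, if_neg hj]
    · rw [← PE.eval_sub]
      exact hy _ (Or.inr (Or.inr ⟨(x, Z), ⟨hx, by simpa using hZ⟩, rfl⟩))

end Pool.Agent.P.MP_08e617_lc.Rk
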