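import Pool.Agent.P.MP_08e617_lc.RkB

/-! The recursive splitting of the edge set. -/

namespace Pool.Agent.P.MP_08e617_lc.Rk

open Pool.Agent.Lib.helper21 Module
open scoped Pointwise

namespace PF

/-- The edge `e` passes through the vertex `x`. -/
def Th (G : Gr) (e x : ℕ) : Prop := x = G.rw e ∨ x = G.n + G.cl e

theorem mem_vs {G : Gr} {R : Finset ℕ} {x : ℕ} : x ∈ G.vs R ↔ ∃ e ∈ R, Th G e x := by
  simp only [Gr.vs, Finset.mem_union, Finset.mem_image, Th]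
  constructor
  · rintro (⟨e, he, rfl⟩ | ⟨e, he, rfl⟩)
    · exact ⟨e, he, Or.inl rfl⟩
    · exact ⟨e, he, Or.inr rfl⟩
  · rintro ⟨e, he, rfl | rfl⟩
    · exact Or.inl ⟨e, he, rfl⟩
    · exact Or.inr ⟨e, he, rfl⟩

theorem vs_sub {G : Gr} (hG : G.Ok) {R : Finset ℕ} (hR : R ⊆ G.All) :
    G.vs R ⊆ Finset.range (2 * G.n) := fun x hx => by
  obtain ⟨e, he, h⟩ := mem_vs.1 hx
  have := hG e (hR he)
  rw [Finset.mem_range]
  rcases h with rfl | rfl <;> omega

theorem adj_of {G : Gr} (hG : G.Ok) {X : Finset ℕ} {a b x : ℕ} (ha : a ∈ G.All) (hb : b ∈ G.All)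
    (h1 : Th G a x) (h2 : Th G b x) (hx : x ∉ X) : G.Adj X a b := by
  have h3 := hG a ha
  have h4 := hG b hb
  rcases h1 with h1 | h1 <;> rcases h2 with h2 | h2
  · exact Or.inl ⟨h1.symm.trans h2, h1 ▸ hx⟩
  · omega
  · omega
  · exact Or.inr ⟨by omega, h1 ▸ hx⟩

theorem of_adj {G : Gr} {X : Finset ℕ} {a b : ℕ} (h : G.Adj X a b) :
    ∃ x, Th G a x ∧ Th G b x ∧ x ∉ X := by
  rcases h with ⟨h1, h2⟩ | ⟨h1, h2⟩
  · exact ⟨_, Or.inl rfl, Or.inl h1, h2⟩
  · exact ⟨_, Or.inr rfl, Or.inr (by rw [h1]), h2⟩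

/-- the closure of few edges behaves like a given part -/
theorem split_of {G : Gr} (hG : G.Ok) {R R1 : Finset ℕ} (hR : R ⊆ G.All) {e : ℕ → ℕ}
    (he : ∀ x ∈ G.bd R, e x ∈ R ∧ Th G (e x) x) (h1 : R1 ⊆ R) (hn : R1.Nonempty) (hne : R1 ≠ R)
    {a b : ℕ} (hX : (G.vs R1 ∩ G.vs (R \ R1)).card ≤ a)
    (hm : ((G.bd R).filter fun x => e x ∈ R1).card + a ≤ b)
    (hm' : (G.bd R).card + a ≤ b + ((G.bd R).filter fun x => e x ∈ R1).card) :
    ∃ X Z : Finset ℕ, X ⊆ Finset.range (2 * G.n) ∧ X.card ≤ a ∧ Z ⊆ R ∧ Z.card ≤ b + 1 ∧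
      ∀ A, G.IsCl R X Z A → A.Nonempty ∧ A ≠ R ∧ (G.bd A).card ≤ b ∧ (G.bd (R \ A)).card ≤ b := by
  obtain ⟨e0, h0⟩ := hn
  set B1 := (G.bd R).filter fun x => e x ∈ R1 with hB1
  set X := G.vs R1 ∩ G.vs (R \ R1) with hXd
  have hZ : insert e0 (B1.image e) ⊆ R1 := by
    refine Finset.insert_subset h0 fun y hy => ?_
    obtain ⟨x, hx, rfl⟩ := Finset.mem_image.1 hy
    exact (Finset.mem_filter.1 hx).2
  refine ⟨X, insert e0 (B1.image e), Finset.inter_subset_left.trans (vs_sub hG (h1.trans hR)), hX,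
    hZ.trans h1, ?_, ?_⟩
  · have := Finset.card_insert_le e0 (B1.image e)
    have := Finset.card_image_le (s := B1) (f := e)
    omega
  rintro A ⟨hZA, hAR, hcl, hmin⟩
  have hA1 : A ⊆ R1 := hmin R1 hZ fun c hc c' hc' hadj => by
    obtain ⟨x, hx1, hx2, hx⟩ := of_adj hadj
    by_contra hcn
    exact hx (Finset.mem_inter.2 ⟨mem_vs.2 ⟨c', hc', hx2⟩,
      mem_vs.2 ⟨c, Finset.mem_sdiff.2 ⟨hc, hcn⟩, hx1⟩⟩)
  refine ⟨⟨e0, hZA (Finset.mem_insert_self _ _)⟩, fun h => hne (h1.antisymm (h ▸ hA1)), ?_, ?_⟩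
  · have hs : G.bd A ⊆ X ∪ B1 := fun x hx => by
      by_cases hxX : x ∈ X
      · exact Finset.mem_union_left _ hxX
      obtain ⟨hx1, hx2⟩ := Finset.mem_inter.1 hx
      obtain ⟨c, hc, hcx⟩ := mem_vs.1 hx1
      obtain ⟨d, hd, hdx⟩ := mem_vs.1 hx2
      obtain ⟨hd1, hd2⟩ := Finset.mem_sdiff.1 hd
      have hdR : d ∉ R := fun h => hd2 (hcl d h c hc (adj_of hG hd1 (hR (hAR hc)) hdx hcx hxX))
      have hb : x ∈ G.bd R := Finset.mem_inter.2 ⟨mem_vs.2 ⟨c, hAR hc, hcx⟩,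
        mem_vs.2 ⟨d, Finset.mem_sdiff.2 ⟨hd1, hdR⟩, hdx⟩⟩
      exact Finset.mem_union_right _ (Finset.mem_filter.2 ⟨hb, hA1 (hcl _ (he x hb).1 c hc
        (adj_of hG (hR (he x hb).1) (hR (hAR hc)) (he x hb).2 hcx hxX))⟩)
    have := (Finset.card_le_card hs).trans (Finset.card_union_le _ _)
    omega
  · have hs : G.bd (R \ A) ⊆ X ∪ (G.bd R \ B1) := fun x hx => by
      by_cases hxX : x ∈ X
      · exact Finset.mem_union_left _ hxX
      obtain ⟨hx1, hx2⟩ := Finset.mem_inter.1 hx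
      obtain ⟨c, hc, hcx⟩ := mem_vs.1 hx1
      obtain ⟨d, hd, hdx⟩ := mem_vs.1 hx2
      obtain ⟨hc1, hc2⟩ := Finset.mem_sdiff.1 hc
      obtain ⟨hd1, hd2⟩ := Finset.mem_sdiff.1 hd
      have hdR : d ∉ R := fun h => by
        have hdA : d ∈ A := by
          by_contra h'
          exact hd2 (Finset.mem_sdiff.2 ⟨h, h'⟩)
        exact hc2 (hcl c hc1 d hdA (adj_of hG (hR hc1) hd1 hcx hdx hxX))
      have hb : x ∈ G.bd R := Finset.mem_inter.2 ⟨mem_vs.2 ⟨c, hc1, hcx⟩,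
        mem_vs.2 ⟨d, Finset.mem_sdiff.2 ⟨hd1, hdR⟩, hdx⟩⟩
      refine Finset.mem_union_right _ (Finset.mem_sdiff.2 ⟨hb, fun hxB => hc2 ?_⟩)
      exact hcl c hc1 (e x) (hZA (Finset.mem_insert_of_mem (Finset.mem_image_of_mem _ hxB)))
        (adj_of hG (hR hc1) (hR (he x hb).1) hcx (he x hb).2 hxX)
    have h2 := (Finset.card_le_card hs).trans (Finset.card_union_le _ _)
    have h3 : B1 ⊆ G.bd R := Finset.filter_subset _ _
    have h4 := Finset.card_sdiff_add_card_eq_card h3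
    omega

/-- The edges of `R` at the positions in `P`. -/
def Lp (G : Gr) (R : Finset ℕ) (P : Finset (Fin G.n × Fin G.n)) : Finset ℕ :=
  R.filter fun e => ∃ p ∈ P, p.1.1 = G.rw e ∧ p.2.1 = G.cl e

theorem mem_Lp {G : Gr} {R : Finset ℕ} {P : Finset (Fin G.n × Fin G.n)} {e : ℕ} :
    e ∈ Lp G R P ↔ e ∈ R ∧ ∃ p ∈ P, p.1.1 = G.rw e ∧ p.2.1 = G.cl e := Finset.mem_filter

theorem cut_le {G : Gr} (hG : G.Ok) {R : Finset ℕ} (hR : R ⊆ G.All)
    {Q : Finset (Fin G.n × Fin G.n)} (hQ : ∀ e ∈ G.All, ∀ h1 h2, (⟨G.rw e, h1⟩, ⟨G.cl e, h2⟩) ∈ Q)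
    (P : Finset (Fin G.n × Fin G.n)) :
    (G.vs (Lp G R P) ∩ G.vs (R \ Lp G R P)).card ≤ cutw Q P := by
  have hs : G.vs (Lp G R P) ∩ G.vs (R \ Lp G R P) ⊆
      (P.image Prod.fst ∩ (Q \ P).image Prod.fst).image Fin.val ∪
      (P.image Prod.snd ∩ (Q \ P).image Prod.snd).image fun c => G.n + c.1 := fun x hx => by
    obtain ⟨hx1, hx2⟩ := Finset.mem_inter.1 hx
    obtain ⟨c, hc, hcx⟩ := mem_vs.1 hx1
    obtain ⟨d, hd, hdx⟩ := mem_vs.1 hx2
    obtain ⟨hc1, p, hp, hp1, hp2⟩ := mem_Lp.1 hc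
    obtain ⟨hd1, hd2⟩ := Finset.mem_sdiff.1 hd
    obtain ⟨h3, h4⟩ := hG d (hR hd1)
    obtain ⟨h5, h6⟩ := hG c (hR hc1)
    have hq : ((⟨G.rw d, h3⟩, ⟨G.cl d, h4⟩) : Fin G.n × Fin G.n) ∈ Q \ P :=
      Finset.mem_sdiff.2 ⟨hQ d (hR hd1) h3 h4, fun h => hd2 (mem_Lp.2 ⟨hd1, _, h, rfl, rfl⟩)⟩
    rcases hcx with h1 | h1 <;> rcases hdx with h2 | h2
    · refine Finset.mem_union_left _ (Finset.mem_image.2 ⟨p.1, Finset.mem_inter.2
        ⟨Finset.mem_image_of_mem _ hp, Finset.mem_image.2 ⟨_, hq, Fin.ext ?_⟩⟩, by omega⟩)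
      change G.rw d = p.1.1
      omega
    · omega
    · omega
    · refine Finset.mem_union_right _ (Finset.mem_image.2 ⟨p.2, Finset.mem_inter.2
        ⟨Finset.mem_image_of_mem _ hp, Finset.mem_image.2 ⟨_, hq, Fin.ext ?_⟩⟩, by omega⟩)
      change G.cl d = p.2.1
      omega
  exact (Finset.card_le_card hs).trans ((Finset.card_union_le _ _).trans
    (add_le_add Finset.card_image_le Finset.card_image_le))

theorem mu_one {G : Gr} {R B : Finset ℕ} {e : ℕ → ℕ} (he : ∀ x ∈ B, Th G (e x) x)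
    {P : Finset (Fin G.n × Fin G.n)} (hP : P.card ≤ 1) :
    (B.filter fun x => e x ∈ Lp G R P).card ≤ 2 := by
  have hs : (B.filter fun x => e x ∈ Lp G R P) ⊆
      (P.image fun p => p.1.1) ∪ P.image fun p => G.n + p.2.1 := fun x hx => by
    obtain ⟨h1, h2⟩ := Finset.mem_filter.1 hx
    obtain ⟨-, p, hp, h3, h4⟩ := mem_Lp.1 h2
    rcases he x h1 with h | h
    · exact Finset.mem_union_left _ (Finset.mem_image.2 ⟨p, hp, by omega⟩)
    · exact Finset.mem_union_right _ (Finset.mem_image.2 ⟨p, hp, by omega⟩)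
  have h1 := (Finset.card_le_card hs).trans ((Finset.card_union_le _ _).trans
    (add_le_add Finset.card_image_le Finset.card_image_le))
  omega

theorem mu_add {G : Gr} (R B : Finset ℕ) (e : ℕ → ℕ) (P P' : Finset (Fin G.n × Fin G.n)) :
    (B.filter fun x => e x ∈ Lp G R P).card ≤
      (B.filter fun x => e x ∈ Lp G R P').card + (B.filter fun x => e x ∈ Lp G R (P \ P')).card := by
  refine (Finset.card_le_card fun x hx => ?_).trans (Finset.card_union_le _ _)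
  obtain ⟨h1, h2⟩ := Finset.mem_filter.1 hx
  obtain ⟨h0, p, hp, h3⟩ := mem_Lp.1 h2
  by_cases h : p ∈ P'
  · exact Finset.mem_union_left _ (Finset.mem_filter.2 ⟨h1, mem_Lp.2 ⟨h0, p, h, h3⟩⟩)
  · exact Finset.mem_union_right _ (Finset.mem_filter.2
      ⟨h1, mem_Lp.2 ⟨h0, p, Finset.mem_sdiff.2 ⟨hp, h⟩, h3⟩⟩)

/-- a member of the family of medium weight -/
theorem medium {α : Type} [DecidableEq α] {𝓛 : Set (Finset α)} {μ : Finset α → ℕ} {t : ℕ}
    (hs : ∀ P ∈ 𝓛, 2 ≤ P.card → ∃ P' ∈ 𝓛, P' ⊆ P ∧ P'.Nonempty ∧ P' ≠ P ∧ P \ P' ∈ 𝓛)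
    (h1 : ∀ P, P.card ≤ 1 → μ P < 2 * t) (h2 : ∀ P P', μ P ≤ μ P' + μ (P \ P')) (c : ℕ) :
    ∀ P ∈ 𝓛, P.card ≤ c → t ≤ μ P → ∃ P' ∈ 𝓛, t ≤ μ P' ∧ μ P' < 2 * t := by
  induction c with
  | zero => exact fun P hP hc ht => ⟨P, hP, ht, h1 P (by omega)⟩
  | succ c ih =>
    intro P hP hc ht
    by_cases h : μ P < 2 * t
    · exact ⟨P, hP, ht, h⟩
    have h3 : 2 ≤ P.card := by
      by_contra h4
      exact h (h1 P (by omega))
    obtain ⟨P', hP', h4, h5, h6, h7⟩ := hs P hP h3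
    have h8 := Finset.card_lt_card (Finset.ssubset_iff_subset_ne.2 ⟨h4, h6⟩)
    have h9 := Finset.card_sdiff_add_card_eq_card h4
    have h10 := h5.card_pos
    have h11 := h2 P P'
    by_cases h12 : t ≤ μ P'
    · exact ih P' hP' (by omega) h12
    · exact ih _ h7 (by omega) (by omega)

/-! ### lists -/

theorem memL_iff {x : ℕ} {l : List ℕ} : memL x l = true ↔ x ∈ l := by
  simp [memL]

theorem mem_diffL {x : ℕ} {l l' : List ℕ} : x ∈ diffL l l' ↔ x ∈ l ∧ x ∉ l' := by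
  rw [diffL, List.mem_filter, Bool.not_eq_true', ← Bool.not_eq_true, memL_iff]

theorem diffL_fin (l l' : List ℕ) : (diffL l l').toFinset = l.toFinset \ l'.toFinset := by
  ext x
  simp [mem_diffL]

variable {k w : ℕ} {I : Inp}

theorem vsL_fin (k : ℕ) (I : Inp) (l : List ℕ) : (vsL I l).toFinset = (gr k I).vs l.toFinset := by
  ext x
  simp [vsL, Gr.vs, gr]

theorem mem_vsL (k : ℕ) {l : List ℕ} {x : ℕ} : x ∈ vsL I l ↔ x ∈ (gr k I).vs l.toFinset := by
  rw [← vsL_fin, List.mem_toFinset]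

theorem innL_fin (k : ℕ) (I : Inp) (l : List ℕ) :
    (innL k I l).toFinset = (gr k I).inn l.toFinset := by
  rw [innL, diffL_fin, vsL_fin k, vsL_fin k, diffL_fin]
  rfl

theorem bdL_fin (hG : (gr k I).Ok) {l : List ℕ} (hl : l.toFinset ⊆ (gr k I).All) :
    (bdL k I l).toFinset = (gr k I).bd l.toFinset := by
  ext x
  rw [List.mem_toFinset, bdL, List.mem_filter, Bool.and_eq_true, memL_iff, memL_iff, mem_vsL k,
    mem_vsL k, diffL_fin, Gr.bd, Finset.mem_inter, List.mem_range]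
  exact ⟨fun h => h.2, fun h => ⟨Finset.mem_range.1 (vs_sub hG hl h.1), h⟩⟩

theorem bdL_len (hG : (gr k I).Ok) {l : List ℕ} (hl : l.toFinset ⊆ (gr k I).All) :
    (bdL k I l).length = ((gr k I).bd l.toFinset).card := by
  rw [← bdL_fin hG hl]
  exact (List.toFinset_card_of_nodup (List.nodup_range.filter _)).symm

theorem adjL_iff (k : ℕ) {X : List ℕ} {e e' : ℕ} :
    adjL I X e e' = true ↔ (gr k I).Adj X.toFinset e e' := by
  simp only [adjL, Gr.Adj, gr, Bool.or_eq_true, Bool.and_eq_true, decide_eq_true_eq,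
    Bool.not_eq_true', ← Bool.not_eq_true, memL_iff, List.mem_toFinset]

theorem mem_cloStep (k : ℕ) {R X s : List ℕ} {e : ℕ} : e ∈ cloStep I R X s ↔
    e ∈ R ∧ (e ∈ s ∨ ∃ e' ∈ s, (gr k I).Adj X.toFinset e e') := by
  simp only [cloStep, List.mem_filter, Bool.or_eq_true, memL_iff, List.any_eq_true, adjL_iff k]

theorem clo_sub (I : Inp) (R X Z : List ℕ) : (clo I R X Z).Sublist R := by
  unfold clo
  cases R.length with
  | zero => exact List.filter_sublist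
  | succ i => rw [Function.iterate_succ_apply']; exact List.filter_sublist

theorem clo_iter (k : ℕ) (I : Inp) (R X Z : List ℕ) (hZ : Z.toFinset ⊆ R.toFinset) (i : ℕ) :
    ∀ S, S = ((cloStep I R X)^[i] (R.filter fun e => memL e Z)).toFinset →
      Z.toFinset ⊆ S ∧ S ⊆ R.toFinset ∧
      (∀ A', Z.toFinset ⊆ A' → (gr k I).Closed R.toFinset X.toFinset A' → S ⊆ A') ∧
      ((gr k I).Closed R.toFinset X.toFinset S ∨ i ≤ S.card) := by
  induction i with
  | zero =>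
    rintro S rfl
    have e : (R.filter fun e => memL e Z).toFinset = Z.toFinset := by
      ext x
      rw [List.mem_toFinset, List.mem_filter, memL_iff, List.mem_toFinset]
      exact ⟨fun h => h.2, fun h => ⟨List.mem_toFinset.1 (hZ (List.mem_toFinset.2 h)), h⟩⟩
    rw [Function.iterate_zero_apply, e]
    exact ⟨subset_rfl, hZ, fun _ h _ => h, Or.inr (Nat.zero_le _)⟩
  | succ i ih =>
    rintro S rfl
    obtain ⟨h1, h2, h3, h4⟩ := ih _ rfl
    rw [Function.iterate_succ_apply']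
    generalize (cloStep I R X)^[i] (R.filter fun e => memL e Z) = s at h1 h2 h3 h4
    have hm : ∀ e, e ∈ (cloStep I R X s).toFinset ↔ e ∈ R.toFinset ∧
        (e ∈ s.toFinset ∨ ∃ e' ∈ s.toFinset, (gr k I).Adj X.toFinset e e') := fun e => by
      simp only [List.mem_toFinset, mem_cloStep k]
    generalize (cloStep I R X s).toFinset = S' at hm
    have h5 : s.toFinset ⊆ S' := fun e he => (hm e).2 ⟨h2 he, Or.inl he⟩
    refine ⟨h1.trans h5, fun e he => ((hm e).1 he).1, fun A' hA hc e he => ?_, ?_⟩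
    · obtain ⟨h6, h7 | ⟨e', h7, h8⟩⟩ := (hm e).1 he
      · exact h3 A' hA hc h7
      · exact hc e h6 e' (h3 A' hA hc h7) h8
    · by_cases h6 : s.toFinset = S'
      · refine Or.inl fun e he e' he' h => (hm e).2 ⟨he, Or.inr ⟨e', h6 ▸ he', h⟩⟩
      · have h7 := Finset.card_lt_card (Finset.ssubset_iff_subset_ne.2 ⟨h5, h6⟩)
        rcases h4 with h4 | h4
        · refine absurd (h5.antisymm fun e he => ?_) h6
          obtain ⟨h8, h9 | ⟨e', h9, h10⟩⟩ := (hm e).1 he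
          · exact h9
          · exact h4 e h8 e' h9 h10
        · exact Or.inr (by omega)

theorem clo_isCl (k : ℕ) (I : Inp) (R X Z : List ℕ) (hZ : Z.toFinset ⊆ R.toFinset) :
    (gr k I).IsCl R.toFinset X.toFinset Z.toFinset (clo I R X Z).toFinset := by
  obtain ⟨h1, h2, h3, h4⟩ := clo_iter k I R X Z hZ R.length _ rfl
  refine ⟨h1, h2, ?_, h3⟩
  rcases h4 with h4 | h4
  · exact h4
  · have e := Finset.eq_of_subset_of_card_le h2 ((List.toFinset_card_le R).trans h4)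
    intro c hc _ _ _
    exact e ▸ hc

end PF

open PF

theorem exists_split (G : Gr) (hG : G.Ok) (M : Matrix (Fin G.n) (Fin G.n) (MvPolynomial ℕ ℚ))
    {w : ℕ} (hB : BranchLE M w)
    (hpos : ∀ e ∈ G.All, ∀ h1 h2, M ⟨G.rw e, h1⟩ ⟨G.cl e, h2⟩ ≠ 0) {R : Finset ℕ}
    (hR : R ⊆ G.All) (h2 : 2 ≤ R.card) (hb : (G.bd R).card ≤ bw w) :
    ∃ X Z : Finset ℕ, X ⊆ Finset.range (2 * G.n) ∧ X.card ≤ w + 2 ∧ Z ⊆ R ∧ Z.card ≤ bw w + 1 ∧
      ∀ A, G.IsCl R X Z A → A.Nonempty ∧ A ≠ R ∧ (G.bd A).card ≤ bw w ∧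
        (G.bd (R \ A)).card ≤ bw w := by
  have h0 : ∀ x, ∃ e, x ∈ G.bd R → e ∈ R ∧ Th G e x := fun x => by
    by_cases hx : x ∈ G.bd R
    · obtain ⟨e, he⟩ := mem_vs.1 (Finset.mem_inter.1 hx).1
      exact ⟨e, fun _ => he⟩
    · exact ⟨0, fun h => absurd h hx⟩
  choose e he using h0
  unfold bw at hb ⊢
  by_cases hm : (G.bd R).card ≤ 2 * (w + 2) + 3
  · obtain ⟨e0, h0⟩ := Finset.card_pos.1 (by omega : 0 < R.card)
    have h3 := Finset.card_filter_le (G.bd R) fun x => e x ∈ ({e0} : Finset ℕ)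
    refine split_of hG hR he (Finset.singleton_subset_iff.2 h0) (Finset.singleton_nonempty _)
      (fun h => by rw [← h] at h2; simp at h2) ?_ (by omega) (by omega)
    refine (Finset.card_le_card Finset.inter_subset_left).trans ((Finset.card_union_le _ _).trans ?_)
    rw [Finset.image_singleton, Finset.image_singleton, Finset.card_singleton,
      Finset.card_singleton]
    omega
  obtain ⟨𝓛, hQ, h𝓛⟩ := hB
  have hQ' : ∀ e ∈ G.All, ∀ h1 h2, (⟨G.rw e, h1⟩, ⟨G.cl e, h2⟩) ∈ supp M := fun e he h1 h2 => by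
    unfold supp
    exact Finset.mem_filter.2 ⟨Finset.mem_univ _, hpos e he h1 h2⟩
  have hall : ∀ R', R' = R → ((G.bd R).filter fun x => e x ∈ R').card = (G.bd R).card := by
    rintro R' rfl
    rw [Finset.filter_true_of_mem fun x hx => (he x hx).1]
  have hL : Lp G R (supp M) = R := Finset.filter_true_of_mem fun c hc =>
    ⟨_, hQ' c (hR hc) (hG c (hR hc)).1 (hG c (hR hc)).2, rfl, rfl⟩
  obtain ⟨P, hP, h3, h4⟩ := medium (μ := fun P => ((G.bd R).filter fun x => e x ∈ Lp G R P).card)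
    (t := w + 4) (fun P hP => (h𝓛 P hP).2)
    (fun P hP => (mu_one (fun x hx => (he x hx).2) hP).trans_lt (by omega)) (mu_add R _ e) _ _ hQ
    le_rfl (by rw [hall _ hL]; omega)
  have h5 := (cut_le hG hR hQ' P).trans (h𝓛 P hP).1
  refine split_of hG hR he (R1 := Lp G R P) (Finset.filter_subset _ _) ?_ (fun h => ?_)
    (by omega) (by omega) (by omega)
  · obtain ⟨x, hx⟩ := Finset.card_pos.1 (lt_of_lt_of_le (by omega) h3)
    exact ⟨_, (Finset.mem_filter.1 hx).2⟩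
  · rw [hall _ h] at h4
    omega

theorem mem_tup {b : ℕ} {l : List ℕ} {T : List ℕ} :
    T ∈ tup b l ↔ T.length ≤ b ∧ ∀ x ∈ T, x ∈ l := by
  induction b generalizing T with
  | zero => cases T <;> simp [tup]
  | succ b ih =>
    cases T with
    | nil => simp [tup]
    | cons y T =>
      simp only [tup, List.mem_cons, reduceCtorEq, List.mem_flatMap, List.mem_map, false_or, ih,
        List.cons.injEq, List.length_cons, forall_eq_or_imp]
      constructor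
      · rintro ⟨x, hx, t, ⟨h1, h2⟩, rfl, rfl⟩
        exact ⟨by omega, hx, h2⟩
      · rintro ⟨h1, h2, h3⟩
        exact ⟨y, h2, T, ⟨by omega, h3⟩, rfl, rfl⟩

namespace PF

variable {k w : ℕ} {I : Inp}

/-- the two shapes of a splitting -/
theorem sp_cases (hG : (gr k I).Ok)
    (hs : ∀ R ⊆ (gr k I).All, 2 ≤ R.card → ((gr k I).bd R).card ≤ bw w →
      ∃ X Z : Finset ℕ, X ⊆ Finset.range (2 * I.length) ∧ X.card ≤ w + 2 ∧ Z ⊆ R ∧
        Z.card ≤ bw w + 1 ∧ ∀ A, (gr k I).IsCl R X Z A → A.Nonempty ∧ A ≠ R ∧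
          ((gr k I).bd A).card ≤ bw w ∧ ((gr k I).bd (R \ A)).card ≤ bw w)
    {l : List ℕ} (hl : l.toFinset ⊆ (gr k I).All) (hb : ((gr k I).bd l.toFinset).card ≤ bw w) :
    (sp k w I l = [l] ∧ l.toFinset.card ≤ 1) ∨ ∃ R1 : List ℕ, sp k w I l = [R1, diffL l R1] ∧
      R1.Sublist l ∧ R1 ≠ [] ∧ diffL l R1 ≠ [] ∧ ((gr k I).bd R1.toFinset).card ≤ bw w ∧
      ((gr k I).bd (diffL l R1).toFinset).card ≤ bw w := by
  have hsub : ∀ {R1 : List ℕ}, R1.Sublist l → R1.toFinset ⊆ (gr k I).All := fun h x hx =>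
    hl (List.mem_toFinset.2 (h.subset (List.mem_toFinset.1 hx)))
  have hok : ∀ R1 : List ℕ, R1.Sublist l → (okL k w I l R1 = true ↔ R1 ≠ [] ∧ diffL l R1 ≠ [] ∧
      ((gr k I).bd R1.toFinset).card ≤ bw w ∧
      ((gr k I).bd (diffL l R1).toFinset).card ≤ bw w) := fun R1 h => by
    rw [← bdL_len hG (hsub h), ← bdL_len hG (l := diffL l R1) (hsub List.filter_sublist)]
    simp [okL, and_assoc]
  unfold sp
  generalize hc : (((tup (w + 2) (List.range (2 * I.length))).flatMap fun X =>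
    (tup (bw w + 1) l).map fun Z => clo I l X Z).filter fun R1 => okL k w I l R1) = c
  cases c with
  | nil =>
    refine Or.inl ⟨rfl, ?_⟩
    by_contra h2
    obtain ⟨X, Z, h3, h4, h5, h6, h7⟩ := hs _ hl (by omega) hb
    have h8 := clo_isCl k I l X.toList Z.toList (by rwa [Finset.toList_toFinset])
    rw [Finset.toList_toFinset, Finset.toList_toFinset] at h8
    obtain ⟨h9, h10, h11, h12⟩ := h7 _ h8
    have : clo I l X.toList Z.toList ∈ ([] : List (List ℕ)) := by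
      rw [← hc, List.mem_filter, hok _ (clo_sub I l _ _), diffL_fin]
      refine ⟨List.mem_flatMap.2 ⟨X.toList, mem_tup.2 ⟨by rwa [Finset.length_toList], fun x hx =>
        List.mem_range.2 (Finset.mem_range.1 (h3 (Finset.mem_toList.1 hx)))⟩,
        List.mem_map.2 ⟨Z.toList, mem_tup.2 ⟨by rwa [Finset.length_toList], fun x hx =>
          List.mem_toFinset.1 (h5 (Finset.mem_toList.1 hx))⟩, rfl⟩⟩, fun e => ?_, fun e => ?_,
        h11, h12⟩
      · rw [e] at h9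
        simp at h9
      · have e' := diffL_fin l (clo I l X.toList Z.toList)
        rw [e, List.toFinset_nil] at e'
        exact h10 (h8.2.1.antisymm (Finset.sdiff_eq_empty_iff_subset.1 e'.symm))
    simp at this
  | cons R1 t =>
    have h1 : R1 ∈ R1 :: t := List.mem_cons_self
    rw [← hc, List.mem_filter] at h1
    obtain ⟨X, -, h2⟩ := List.mem_flatMap.1 h1.1
    obtain ⟨Z, -, h3⟩ := List.mem_map.1 h2
    have h4 : R1.Sublist l := h3 ▸ clo_sub I l X Z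
    exact Or.inr ⟨R1, rfl, h4, (hok R1 h4).1 h1.2⟩

theorem cur_succ (k w : ℕ) (I : Inp) (j : ℕ) :
    cur k w I (j + 1) = (cur k w I j).flatMap (sp k w I) := by
  rw [cur, Function.iterate_succ_apply']
  rfl

theorem len_lt {l R1 : List ℕ} (h1 : R1.Sublist l) (h2 : R1 ≠ []) (h3 : diffL l R1 ≠ []) :
    R1.length < l.length ∧ (diffL l R1).length < l.length := by
  constructor
  · refine lt_of_le_of_ne h1.length_le fun e => h3 ?_
    rw [h1.eq_of_length e]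
    exact List.eq_nil_iff_forall_not_mem.2 fun x hx => (mem_diffL.1 hx).2 (mem_diffL.1 hx).1
  · have h4 : (diffL l R1).Sublist l := List.filter_sublist
    refine lt_of_le_of_ne h4.length_le fun e => ?_
    obtain ⟨x, hx⟩ := List.exists_mem_of_ne_nil _ h2
    have h5 := h1.subset hx
    rw [← h4.eq_of_length e] at h5
    exact (mem_diffL.1 h5).2 hx

theorem cur_inv (hG : (gr k I).Ok)
    (hs : ∀ R ⊆ (gr k I).All, 2 ≤ R.card → ((gr k I).bd R).card ≤ bw w →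
      ∃ X Z : Finset ℕ, X ⊆ Finset.range (2 * I.length) ∧ X.card ≤ w + 2 ∧ Z ⊆ R ∧
        Z.card ≤ bw w + 1 ∧ ∀ A, (gr k I).IsCl R X Z A → A.Nonempty ∧ A ≠ R ∧
          ((gr k I).bd A).card ≤ bw w ∧ ((gr k I).bd (R \ A)).card ≤ bw w) (j : ℕ) :
    ∀ l ∈ cur k w I j, l.Nodup ∧ l.toFinset ⊆ (gr k I).All ∧
      ((gr k I).bd l.toFinset).card ≤ bw w ∧
      (l.length + j ≤ (edges k I).length ∨ l.length ≤ 1) := by
  induction j with
  | zero =>
    intro l hl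
    obtain rfl : l = edges k I := List.mem_singleton.1 hl
    refine ⟨List.nodup_range.filter _, subset_rfl, ?_, Or.inl le_rfl⟩
    have : (gr k I).All \ (edges k I).toFinset = ∅ := Finset.sdiff_self _
    simp [Gr.bd, this, Gr.vs]
  | succ j ih =>
    intro l' hl'
    rw [cur_succ] at hl'
    obtain ⟨l, hl, h⟩ := List.mem_flatMap.1 hl'
    obtain ⟨h1, h2, h3, h4⟩ := ih l hl
    have hsub : ∀ {R1 : List ℕ}, R1.Sublist l → R1.toFinset ⊆ (gr k I).All := fun h x hx =>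
      h2 (List.mem_toFinset.2 (h.subset (List.mem_toFinset.1 hx)))
    rcases sp_cases hG hs h2 h3 with ⟨e, h5⟩ | ⟨R1, e, h5, h6, h7, h8, h9⟩
    · rw [e] at h
      obtain rfl : l' = l := List.mem_singleton.1 h
      exact ⟨h1, h2, h3, Or.inr (by rwa [List.toFinset_card_of_nodup h1] at h5)⟩
    · obtain ⟨h10, h11⟩ := len_lt h5 h6 h7
      rw [e] at h
      rcases List.mem_pair.1 h with rfl | rfl
      · exact ⟨h5.nodup h1, hsub h5, h8, by omega⟩
      · exact ⟨h1.filter _, hsub List.filter_sublist, h9, by omega⟩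

theorem mem_fam {l : List ℕ} {j : ℕ} (hj : j ≤ (edges k I).length) (hl : l ∈ cur k w I j) :
    l ∈ fam k w I :=
  List.mem_cons_of_mem _ (List.mem_flatMap.2 ⟨j, List.mem_range.2 (by omega), hl⟩)

end PF

theorem fam_spec (k w : ℕ) (I : Inp) (hG : (gr k I).Ok)
    (hs : ∀ R ⊆ (gr k I).All, 2 ≤ R.card → ((gr k I).bd R).card ≤ bw w →
      ∃ X Z : Finset ℕ, X ⊆ Finset.range (2 * I.length) ∧ X.card ≤ w + 2 ∧ Z ⊆ R ∧
        Z.card ≤ bw w + 1 ∧ ∀ A, (gr k I).IsCl R X Z A → A.Nonempty ∧ A ≠ R ∧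
          ((gr k I).bd A).card ≤ bw w ∧ ((gr k I).bd (R \ A)).card ≤ bw w) :
    [] ∈ fam k w I ∧ edges k I ∈ fam k w I ∧ ∀ l ∈ fam k w I, l.Nodup ∧
      l.toFinset ⊆ (gr k I).All ∧ ((gr k I).bd l.toFinset).card ≤ bw w ∧
      (2 ≤ l.toFinset.card → ∃ l₁ ∈ fam k w I, ∃ l₂ ∈ fam k w I, l₁.toFinset ⊆ l.toFinset ∧
        l₁.toFinset.Nonempty ∧ l₁.toFinset ≠ l.toFinset ∧
        l₂.toFinset = l.toFinset \ l₁.toFinset) := by
  refine ⟨List.mem_cons_self, mem_fam (Nat.zero_le _) (List.mem_singleton.2 rfl), fun l hl => ?_⟩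
  rcases List.mem_cons.1 hl with rfl | hl
  · simp [Gr.bd, Gr.vs]
  obtain ⟨j, -, hj⟩ := List.mem_flatMap.1 hl
  obtain ⟨h1, h2, h3, h4⟩ := cur_inv hG hs j l hj
  refine ⟨h1, h2, h3, fun h => ?_⟩
  have h' := h
  rw [List.toFinset_card_of_nodup h1] at h'
  rcases sp_cases hG hs h2 h3 with ⟨-, h5⟩ | ⟨R1, e, h5, h6, h7, -, -⟩
  · omega
  have hm : ∀ l' ∈ sp k w I l, l' ∈ fam k w I := fun l' hl' =>
    mem_fam (j := j + 1) (by omega) (by rw [cur_succ]; exact List.mem_flatMap.2 ⟨l, hj, hl'⟩)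
  rw [e] at hm
  refine ⟨R1, hm _ (by simp), diffL l R1, hm _ (by simp), fun x hx =>
    List.mem_toFinset.2 (h5.subset (List.mem_toFinset.1 hx)), List.toFinset_nonempty_iff _ |>.2 h6,
    fun e' => h7 ?_, diffL_fin _ _⟩
  rw [← List.toFinset_eq_empty_iff, diffL_fin, e', Finset.sdiff_self]

theorem idx_spec (k w : ℕ) (I : Inp) (hG : (gr k I).Ok) (l : List ℕ)
    (hl : l.toFinset ⊆ (gr k I).All) (hb : ((gr k I).bd l.toFinset).card ≤ bw w) :
    (∀ i < (idx k w I l).length, (gr k I).inn l.toFinset ⊆ ((idx k w I l).getD i []).toFinset ∧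
      ((idx k w I l).getD i []).toFinset ⊆ (gr k I).vs l.toFinset) ∧
    ∀ Y, (gr k I).inn l.toFinset ⊆ Y → Y ⊆ (gr k I).vs l.toFinset →
      ∃ i < (idx k w I l).length, ((idx k w I l).getD i []).toFinset = Y := by
  constructor
  · intro i hi
    rw [List.getD_eq_getElem _ _ hi]
    obtain ⟨T, hT, e⟩ := List.mem_map.1 (List.getElem_mem hi)
    rw [← e, List.toFinset_append, innL_fin]
    refine ⟨Finset.subset_union_left, Finset.union_subset Finset.sdiff_subset fun x hx => ?_⟩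
    have := List.mem_toFinset.2 ((mem_tup.1 hT).2 x (List.mem_toFinset.1 hx))
    rw [bdL_fin hG hl] at this
    exact (Finset.mem_inter.1 this).1
  · intro Y h1 h2
    have h3 : Y \ (gr k I).inn l.toFinset ⊆ (gr k I).bd l.toFinset := fun x hx => by
      obtain ⟨h4, h5⟩ := Finset.mem_sdiff.1 hx
      refine Finset.mem_inter.2 ⟨h2 h4, ?_⟩
      by_contra h6
      exact h5 (Finset.mem_sdiff.2 ⟨h2 h4, h6⟩)
    have h4 : innL k I l ++ (Y \ (gr k I).inn l.toFinset).toList ∈ idx k w I l := by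
      refine List.mem_map.2 ⟨_, mem_tup.2 ⟨?_, fun x hx => ?_⟩, rfl⟩
      · rw [Finset.length_toList]
        exact (Finset.card_le_card h3).trans hb
      · rw [← List.mem_toFinset, bdL_fin hG hl]
        exact h3 (Finset.mem_toList.1 hx)
    obtain ⟨i, hi, e⟩ := List.getElem_of_mem h4
    refine ⟨i, hi, ?_⟩
    rw [List.getD_eq_getElem _ _ hi, e, List.toFinset_append, innL_fin, Finset.toList_toFinset,
      Finset.union_sdiff_of_subset h1]

end Pool.Agent.P.MP_08e617_lc.Rk
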