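import Pool.Agent.P.MP_08e617_lc.Defs

/-! Arithmetic formulas: definitions used in the statement. -/

namespace Pool.Agent.P.MP_08e617_lc

/-- Arithmetic formulas over `ℚ`. -/
inductive Fml : Type
  | var (i : ℕ) : Fml
  | cst (c : ℚ) : Fml
  | add (f g : Fml) : Fml
  | mul (f g : Fml) : Fml

namespace Fml

/-- The polynomial computed by a formula. -/
noncomputable def poly : Fml → MvPolynomial ℕ ℚ
  | var i => MvPolynomial.X i
  | cst c => MvPolynomial.C c
  | add f g => f.poly + g.poly
  | mul f g => f.poly * g.poly

/-- The number of leaves labelled by the variable `x`. -/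
def reads (x : ℕ) : Fml → ℕ
  | var i => if i = x then 1 else 0
  | cst _ => 0
  | add f g => f.reads x + g.reads x
  | mul f g => f.reads x + g.reads x

/-- The gates in postfix order: a leaf carries its label, an inner gate the number of gates of its
right subformula. -/
def code : Fml → List (ℚ × List ℕ)
  | var i => [(0, [0, i])]
  | cst c => [(c, [1, 0])]
  | add f g => f.code ++ g.code ++ [(0, [2, g.code.length])]
  | mul f g => f.code ++ g.code ++ [(0, [3, g.code.length])]

end Fml

end Pool.Agent.P.MP_08e617_lc
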