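import Pool.Agent.P.MP_08e617_lc.Defs

/-! Matrices of arithmetic formulas: definitions used in the statement. -/

namespace Pool.Agent.P.MP_08e617_lc

/-- Arithmetic formulas whose leaves are polynomials given as lists of monomials. -/
inductive Frm : Type
  | leaf (p : List (ℚ × List ℕ)) : Frm
  | add (f g : Frm) : Frm
  | mul (f g : Frm) : Frm

/-- The polynomial computed by a formula. -/
noncomputable def Frm.poly : Frm → MvPolynomial ℕ ℚ
  | leaf p => (p.map monoPoly).sum
  | add f g => f.poly + g.poly
  | mul f g => f.poly * g.poly

/-- The polynomials at the leaves. -/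
noncomputable def Frm.leaves : Frm → List (MvPolynomial ℕ ℚ)
  | leaf p => [(p.map monoPoly).sum]
  | add f g => f.leaves ++ g.leaves
  | mul f g => f.leaves ++ g.leaves

/-- The gates, children first: a leaf carries its monomials, an inner gate the number of gates of
its right subformula. -/
def Frm.code : Frm → List (List ℕ × List (ℚ × List ℕ))
  | leaf p => [([0], p)]
  | add f g => f.code ++ g.code ++ [([1, g.code.length], [])]
  | mul f g => f.code ++ g.code ++ [([2, g.code.length], [])]

/-- Code of a gate. -/
def encGate (g : List ℕ × List (ℚ × List ℕ)) : List Bool :=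
  encPair (encList (fun e => List.replicate e true) g.1) (encList encMono g.2)

/-- Code of an input: a list of rows, each a list of formulas, each a list of gates. -/
def encFrm (J : List (List Frm)) : List Bool :=
  encList (encList fun F : Frm => encList encGate F.code) J

/-- The square polynomial matrix described by an input. -/
noncomputable def frmMatrix (J : List (List Frm)) :
    Matrix (Fin J.length) (Fin J.length) (MvPolynomial ℕ ℚ) :=
  Matrix.of fun p q => ((J.getD p []).getD q (.leaf [])).poly

/-- Every member of `L` is a sum of parts, every part has at most `k` variables or is a single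
monomial, and every variable occurs in at most `k` parts altogether. -/
def ReadsLE (L : List (MvPolynomial ℕ ℚ)) (k : ℕ) : Prop :=
  ∃ D : List (List (MvPolynomial ℕ ℚ)), D.map List.sum = L ∧
    (∀ p ∈ D.flatten, p.vars.card ≤ k ∨ p.support.card ≤ 1) ∧
    ∀ x, (D.flatten.countP fun p => x ∈ p.vars) ≤ k

end Pool.Agent.P.MP_08e617_lc
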