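import Pool.Agent.P.MP_08e617_lc.RkB

/-! Bounded reads and bounded branch-width: the running time of the algorithm, and the local
minimality of the point that it finds. -/

namespace Pool.Agent.P.MP_08e617_lc.Rk

open Pool.Agent.Lib.helper21 Module Function
open scoped Pointwise

namespace PG

variable {α : Type} [Enc α]

theorem sz_sub {β : Type} [Enc β] {l m : List β} (h : l.Sublist m) : sz l ≤ sz m := by
  induction h with
  | slnil => exact le_rfl
  | cons a _ ih => simp only [sz_cons]; omega
  | cons_cons a _ ih => simp only [sz_cons]; omega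

@[fun_prop] theorem pt_mons : PT mons := by unfold mons; fun_prop

@[fun_prop] theorem pt_mo {I : α → Inp} {j : α → ℕ} (hI : PT I) (hj : PT j) :
    PT fun a => mo (I a) (j a) := by unfold mo; fun_prop

@[fun_prop] theorem pt_sameE {K : α → ℕ} {l l' : α → List ℕ} (hK : PT K) (hl : PT l)
    (hl' : PT l') : PT fun a => sameE (K a) (l a) (l' a) := by unfold sameE; fun_prop

@[fun_prop] theorem pt_sameS {K : α → ℕ} {l l' : α → List ℕ} (hK : PT K) (hl : PT l)
    (hl' : PT l') : PT fun a => sameS (K a) (l a) (l' a) := by unfold sameS; fun_prop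

@[fun_prop] theorem pt_small (k : ℕ) {K : α → ℕ} {l : α → List ℕ} (hK : PT K) (hl : PT l) :
    PT fun a => small k (K a) (l a) := by unfold small; fun_prop

@[fun_prop] theorem pt_sameP {m m' : α → Mo} (hm : PT m) (hm' : PT m') :
    PT fun a => sameP (m a) (m' a) := by unfold sameP; fun_prop

@[fun_prop] theorem pt_sameK (k : ℕ) {K : α → ℕ} {m m' : α → Mo} (hK : PT K) (hm : PT m)
    (hm' : PT m') : PT fun a => sameK k (K a) (m a) (m' a) := by unfold sameK; fun_prop

@[fun_prop] theorem pt_ones : PT ones := by unfold ones; fun_prop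

@[fun_prop] theorem pt_live {I : α → Inp} {m : α → Mo} (hI : PT I) (hm : PT m) :
    PT fun a => live (I a) (m a) := by unfold live; fun_prop

@[fun_prop] theorem pt_edges (k : ℕ) : PT (edges k) := by unfold edges; fun_prop

@[fun_prop] theorem pt_valL (k : ℕ) {I : α → Inp} {b : α → List ℕ} {j : α → ℕ} (hI : PT I)
    (hb : PT b) (hj : PT j) : PT fun a => valL k (I a) (b a) (j a) := by unfold valL; fun_prop

@[fun_prop] theorem pt_memL {x : α → ℕ} {l : α → List ℕ} (hx : PT x) (hl : PT l) :
    PT fun a => memL (x a) (l a) := by unfold memL; fun_prop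

@[fun_prop] theorem pt_diffL {l l' : α → List ℕ} (hl : PT l) (hl' : PT l') :
    PT fun a => diffL (l a) (l' a) := by unfold diffL; fun_prop

@[fun_prop] theorem pt_vsL {I : α → Inp} {R : α → List ℕ} (hI : PT I) (hR : PT R) :
    PT fun a => vsL (I a) (R a) := by unfold vsL; fun_prop

@[fun_prop] theorem pt_bdL (k : ℕ) {I : α → Inp} {R : α → List ℕ} (hI : PT I) (hR : PT R) :
    PT fun a => bdL k (I a) (R a) := by unfold bdL; fun_prop

@[fun_prop] theorem pt_innL (k : ℕ) {I : α → Inp} {R : α → List ℕ} (hI : PT I) (hR : PT R) :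
    PT fun a => innL k (I a) (R a) := by unfold innL; fun_prop

@[fun_prop] theorem pt_adjL {I : α → Inp} {X : α → List ℕ} {e e' : α → ℕ} (hI : PT I)
    (hX : PT X) (he : PT e) (he' : PT e') : PT fun a => adjL (I a) (X a) (e a) (e' a) := by
  unfold adjL; fun_prop

@[fun_prop] theorem pt_cloStep {I : α → Inp} {R X s : α → List ℕ} (hI : PT I) (hR : PT R)
    (hX : PT X) (hs : PT s) : PT fun a => cloStep (I a) (R a) (X a) (s a) := by
  unfold cloStep; fun_prop

theorem clo_filter (I : Inp) (R X Z : List ℕ) (j : ℕ) : ∃ p : ℕ → Bool,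
    (cloStep I R X)^[j] (R.filter fun e => memL e Z) = R.filter p := by
  cases j with
  | zero => exact ⟨_, rfl⟩
  | succ j => rw [iterate_succ_apply']; exact ⟨_, rfl⟩

@[fun_prop] theorem pt_clo {I : α → Inp} {R X Z : α → List ℕ} (hI : PT I) (hR : PT R)
    (hX : PT X) (hZ : PT Z) : PT fun a => clo (I a) (R a) (X a) (Z a) := by
  refine PT.iterate (f := fun a => cloStep (I a) (R a) (X a)) (by fun_prop) (by fun_prop)
    (by fun_prop) (fun a => sz (R a)) hR.bd fun a j _ => ?_
  obtain ⟨p, hp⟩ := clo_filter (I a) (R a) (X a) (Z a) j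
  rw [hp]
  exact sz_sub List.filter_sublist

@[fun_prop] theorem pt_tup (b : ℕ) : PT (tup b) := by
  induction b with
  | zero => exact (PT.const [[]]).of_eq fun _ => rfl
  | succ b ih =>
    exact PT.of_eq (f := fun l : List ℕ => [] :: l.flatMap fun x => (tup b l).map fun t => x :: t)
      (by fun_prop) fun _ => rfl

@[fun_prop] theorem pt_okL (k w : ℕ) {I : α → Inp} {R R1 : α → List ℕ} (hI : PT I) (hR : PT R)
    (h1 : PT R1) : PT fun a => okL k w (I a) (R a) (R1 a) := by unfold okL; fun_prop

@[fun_prop] theorem pt_sp (k w : ℕ) {I : α → Inp} {R : α → List ℕ} (hI : PT I) (hR : PT R) :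
    PT fun a => sp k w (I a) (R a) := by unfold sp; fun_prop

/-- the weight of a list of pieces -/
def wt (l : List (List ℕ)) : ℕ := (l.map fun R => max 1 R.length).sum

theorem length_le_wt (l : List (List ℕ)) : l.length ≤ wt l := by
  induction l with
  | nil => simp
  | cons R l ih => simp only [wt, List.map_cons, List.sum_cons, List.length_cons] at ih ⊢; omega

theorem len_split (R : List ℕ) (p : ℕ → Bool) :
    (R.filter p).length + (diffL R (R.filter p)).length ≤ R.length := by
  have : diffL R (R.filter p) = R.filter fun x => !p x := by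
    refine List.filter_congr fun x hx => ?_
    congr 1
    rw [Bool.eq_iff_iff]
    simp [memL, hx]
  rw [this]
  exact (List.length_eq_length_filter_add p).ge

theorem sp_spec (k w : ℕ) (I : Inp) (R : List ℕ) :
    wt (sp k w I R) ≤ max 1 R.length ∧ ∀ S ∈ sp k w I R, S.Sublist R := by
  unfold sp
  generalize hl : List.filter _ _ = l
  cases l with
  | nil => simp [lcase, wt]
  | cons R1 l =>
    have h := hl ▸ (List.mem_cons_self : R1 ∈ R1 :: l)
    rw [List.mem_filter, List.mem_flatMap] at h
    obtain ⟨⟨X, -, h1⟩, h2⟩ := h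
    obtain ⟨Z, -, h1⟩ := List.mem_map.1 h1
    obtain ⟨p, hp⟩ := clo_filter I R X Z R.length
    obtain rfl : R1 = R.filter p := h1.symm.trans hp
    simp only [okL, Bool.and_eq_true, Bool.not_eq_true', List.isEmpty_eq_false_iff] at h2
    have a1 := List.length_pos_iff.2 h2.1.1.1
    have a2 := List.length_pos_iff.2 h2.1.1.2
    have a3 := len_split R p
    refine ⟨?_, fun S hS => ?_⟩
    · simp only [lcase, wt, List.map_cons, List.sum_cons, List.map_nil, List.sum_nil]
      omega
    · simp only [lcase, List.mem_cons, List.not_mem_nil, or_false] at hS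
      rcases hS with rfl | rfl <;> exact List.filter_sublist

theorem cur_spec (k w : ℕ) (I : Inp) (j : ℕ) : wt (cur k w I j) ≤ (edges k I).length + 1 ∧
    ∀ S ∈ cur k w I j, S.Sublist (edges k I) := by
  unfold cur
  induction j with
  | zero => simp [wt]
  | succ j ih =>
    rw [iterate_succ_apply']
    refine ⟨le_trans ?_ ih.1, fun S hS => ?_⟩
    · generalize (fun l : List (List ℕ) => l.flatMap (sp k w I))^[j] [edges k I] = l
      induction l with
      | nil => simp
      | cons R l ih =>
        have := (sp_spec k w I R).1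
        simp only [wt, List.flatMap_cons, List.map_append, List.sum_append, List.map_cons,
          List.sum_cons] at this ih ⊢
        omega
    · obtain ⟨R, h1, h2⟩ := List.mem_flatMap.1 hS
      exact ((sp_spec k w I R).2 S h2).trans (ih.2 R h1)

@[fun_prop] theorem pt_cur (k w : ℕ) {I : α → Inp} {j : α → ℕ} (hI : PT I) (hj : PT j) :
    PT fun a => cur k w (I a) (j a) := by
  refine PT.iterate (f := fun a (l : List (List ℕ)) => l.flatMap (sp k w (I a))) (by fun_prop) hj
    (by fun_prop) (fun a => ((edges k (I a)).length + 1) * (2 * sz (edges k (I a)) + 2) + 1)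
    (PT.bdNat (by fun_prop)) fun a i _ => ?_
  obtain ⟨h1, h2⟩ := cur_spec k w (I a) i
  exact (sz_list_le _ _ fun S hS => sz_sub (h2 S hS)).trans
    (Nat.add_le_add_right (Nat.mul_le_mul_right _ ((length_le_wt _).trans h1)) _)

@[fun_prop] theorem pt_fam (k w : ℕ) : PT (fam k w) := by unfold fam; fun_prop

@[fun_prop] theorem pt_prs (k w : ℕ) : PT (prs k w) := by unfold prs; fun_prop

@[fun_prop] theorem pt_idx (k w : ℕ) {I : α → Inp} {R : α → List ℕ} (hI : PT I) (hR : PT R) :
    PT fun a => idx k w (I a) (R a) := by unfold idx; fun_prop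

@[fun_prop] theorem pt_matL (k : ℕ) {I : α → Inp} {R b : α → List ℕ} {r c : α → ℕ} (hI : PT I)
    (hR : PT R) (hb : PT b) (hr : PT r) (hc : PT c) :
    PT fun a => matL k (I a) (R a) (b a) (r a) (c a) := by unfold matL; fun_prop

@[fun_prop] theorem pt_cntL {Y : α → List ℕ} {o x : α → ℕ} (hY : PT Y) (ho : PT o) (hx : PT x) :
    PT fun a => cntL (Y a) (o a) (x a) := by unfold cntL; fun_prop

@[fun_prop] theorem pt_refL {Y : α → List ℕ} {n r c : α → ℕ} (hn : PT n) (hY : PT Y) (hr : PT r)
    (hc : PT c) : PT fun a => refL (n a) (Y a) (r a) (c a) := by unfold refL; fun_prop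

@[fun_prop] theorem pt_detL {n : α → ℕ} {M : α → List (List ℤ)} (hn : PT n) (hM : PT M) :
    PT fun a => detL (n a) (M a) := by unfold detL; fun_prop

@[fun_prop] theorem pt_mnrL {n : α → ℕ} {Y : α → List ℕ} {M : α → List (List ℤ)} (hn : PT n)
    (hY : PT Y) (hM : PT M) : PT fun a => mnrL (n a) (Y a) (M a) := by unfold mnrL; fun_prop

@[fun_prop] theorem pt_szC (k w : ℕ) {I : α → Inp} {x : α → List ℕ × List ℕ} (hI : PT I)
    (hx : PT x) : PT fun a => szC k w (I a) (x a) := by unfold szC; fun_prop

@[fun_prop] theorem pt_evC (k w : ℕ) {I : α → Inp} {x : α → List ℕ × List ℕ} {b : α → List ℕ}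
    (hI : PT I) (hx : PT x) (hb : PT b) : PT fun a => evC k w (I a) (x a) (b a) := by
  unfold evC; fun_prop

@[fun_prop] theorem pt_pot (k w : ℕ) {I : α → Inp} {b : α → List ℕ} (hI : PT I) (hb : PT b) :
    PT fun a => pot k w (I a) (b a) := by unfold pot; fun_prop

@[fun_prop] theorem pt_dg : PT dg := by unfold dg; fun_prop

@[fun_prop] theorem pt_grid (k w : ℕ) : PT (grid k w) := by unfold grid; fun_prop

@[fun_prop] theorem pt_nbr (t : ℕ) {K T : α → ℕ} {b : α → List ℕ} (hK : PT K) (hT : PT T)
    (hb : PT b) : PT fun a => nbr (K a) (T a) (b a) t := by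
  induction t with
  | zero => exact PT.of_eq (f := fun a => [b a]) (by fun_prop) fun _ => rfl
  | succ t ih =>
    exact PT.of_eq (f := fun a => (nbr (K a) (T a) (b a) t).flatMap fun c =>
      c :: (List.range (K a)).flatMap fun i => (List.range (T a)).map fun s =>
        upd (K a) c i (s + 1)) (ih.flatMap (by fun_prop)) fun _ => rfl

@[fun_prop] theorem pt_stpR (k w t : ℕ) {I : α → Inp} {b : α → List ℕ} (hI : PT I) (hb : PT b) :
    PT fun a => stpR k w t (I a) (b a) := by unfold stpR; fun_prop

theorem stpR_cases (k w t : ℕ) (I : Inp) (a : List ℕ) :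
    (stpR k w t I a = a ∧ ∀ b ∈ nbr (nv I) (grid k w I) a t, pot k w I a ≤ pot k w I b) ∨
      (stpR k w t I a ∈ nbr (nv I) (grid k w I) a t ∧ pot k w I (stpR k w t I a) < pot k w I a) := by
  unfold stpR
  cases h : (nbr (nv I) (grid k w I) a t).filter fun b => decide (pot k w I b < pot k w I a) with
  | nil =>
    refine Or.inl ⟨rfl, fun b hb => ?_⟩
    simpa using List.filter_eq_nil_iff.1 h b hb
  | cons b l =>
    have : b ∈ (nbr (nv I) (grid k w I) a t).filter fun b => decide (pot k w I b < pot k w I a) :=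
      h ▸ List.mem_cons_self
    exact Or.inr (by simpa using this)

/-- the invariant of the local search -/
def Good (K T : ℕ) (a : List ℕ) : Prop :=
  a.length ≤ K ∧ (∀ j, a.getD j 0 ≤ T) ∧ ∀ j < K, a.getD j 0 ≠ 0

theorem good_nbr {K T : ℕ} {a : List ℕ} (h : Good K T a) (t : ℕ) :
    ∀ b ∈ nbr K T a t, Good K T b := by
  induction t with
  | zero =>
    intro b hb
    rwa [show b = a from List.mem_singleton.1 hb]
  | succ t ih =>
    intro b hb
    obtain ⟨c, hc, hb⟩ := List.mem_flatMap.1 hb
    rcases List.mem_cons.1 hb with rfl | hb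
    · exact ih _ hc
    obtain ⟨i, -, hb⟩ := List.mem_flatMap.1 hb
    obtain ⟨s, hs, rfl⟩ := List.mem_map.1 hb
    have hs := List.mem_range.1 hs
    obtain ⟨-, h2, h3⟩ := ih c hc
    refine ⟨by simp [upd], fun j => ?_, fun j hj => ?_⟩
    · rw [getD_upd]
      have := h2 j
      split_ifs <;> omega
    · rw [getD_upd, if_pos hj]
      have := h3 j hj
      split_ifs <;> omega

theorem good_iter (k w t : ℕ) (I : Inp) (j : ℕ) :
    Good (nv I) (grid k w I) ((stpR k w t I)^[j] (ones I)) := by
  induction j with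
  | zero =>
    refine ⟨by simp [ones], fun j => ?_, fun j hj => ?_⟩
    · have : 1 ≤ grid k w I := Nat.le_add_left _ _
      by_cases hj : j < nv I <;> simp [ones, List.getD_eq_getElem?_getD, hj, this]
    · simp [ones, List.getD_eq_getElem?_getD, hj]
  | succ j ih =>
    rw [iterate_succ_apply']
    rcases stpR_cases k w t I ((stpR k w t I)^[j] (ones I)) with h | h
    · rw [h.1]; exact ih
    · exact good_nbr ih t _ h.1

theorem pt_finR (k w t : ℕ) : PT (finR k w t) := by
  refine PT.iterate (f := stpR k w t) (by fun_prop) (by fun_prop) (by fun_prop)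
    (fun I => nv I * (2 * grid k w I + 2) + 1) (PT.bdNat (by fun_prop)) fun I j _ => ?_
  obtain ⟨h1, h2, -⟩ := good_iter k w t I j
  refine (sz_list_le _ (grid k w I) fun x hx => ?_).trans
    (Nat.add_le_add_right (Nat.mul_le_mul_right _ h1) _)
  obtain ⟨i, hi, rfl⟩ := List.getElem_of_mem hx
  have := h2 i
  rw [List.getD_eq_getElem _ _ hi] at this
  simpa using this

end PG

open PG

theorem pt_algR (k w t : ℕ) : PT (algR k w t) := by
  have := pt_finR k w t
  unfold algR; fun_prop

theorem finR_min (k w t : ℕ) (I : Inp) :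
    (∀ b ∈ nbr (nv I) (grid k w I) (finR k w t I) t, pot k w I (finR k w t I) ≤ pot k w I b) ∧
    ∀ j < nv I, fa (finR k w t I) j ≠ 0 := by
  have key : ∀ j, (∀ b ∈ nbr (nv I) (grid k w I) ((stpR k w t I)^[j] (ones I)) t,
      pot k w I ((stpR k w t I)^[j] (ones I)) ≤ pot k w I b) ∨
      pot k w I ((stpR k w t I)^[j] (ones I)) + j ≤ pot k w I (ones I) := by
    intro j
    induction j with
    | zero => exact Or.inr le_rfl
    | succ j ih =>
      rw [iterate_succ_apply']
      rcases stpR_cases k w t I ((stpR k w t I)^[j] (ones I)) with h | h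
      · rw [h.1]; exact Or.inl h.2
      · rcases ih with h' | h'
        · exact absurd (h' _ h.1) (not_le.2 h.2)
        · exact Or.inr (by omega)
  refine ⟨?_, fun j hj => ?_⟩
  · rcases key (pot k w I (ones I) + 1) with h | h
    · exact h
    · omega
  · exact Nat.cast_ne_zero.2 ((good_iter k w t I _).2.2 j hj)

end Pool.Agent.P.MP_08e617_lc.Rk
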