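import Pool.Agent.P.MP_08e617_lc.RkB

/-! Bounded reads and bounded branch-width: the parts of the entries. -/

namespace Pool.Agent.P.MP_08e617_lc.Rk

open Pool.Agent.Lib.helper21 Module
open scoped Pointwise

namespace PH

open MvPolynomial

theorem expo_apply (l : List ℕ) (i : ℕ) : expo l i = l.getD i 0 := rfl

theorem supp_sub (l : List ℕ) : (expo l).support ⊆ Finset.range l.length :=
  Finsupp.support_onFinset_subset

theorem monoPoly_eq (m : ℚ × List ℕ) : monoPoly m = monomial (expo m.2) m.1 := by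
  rw [monomial_eq, monoPoly, Finsupp.prod_of_support_subset _ (supp_sub _) _ (by simp)]
  rfl

theorem sum_range_getD (l : List ℕ) : ∑ i ∈ Finset.range l.length, l.getD i 0 = l.sum := by
  induction l with
  | nil => simp
  | cons a l ih =>
    rw [List.length_cons, Finset.sum_range_succ', List.sum_cons, ← ih, add_comm]
    simp

theorem expo_sum (l : List ℕ) : ((expo l).sum fun _ e => e) = l.sum := by
  rw [Finsupp.sum_of_support_subset _ (supp_sub _) _ (by simp), ← sum_range_getD]
  rfl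

theorem mem_mons {I : Inp} {m : Mo} : m ∈ mons I ↔
    m.1 < I.length ∧ m.2.1 < I.length ∧ m.2.2 ∈ (I.getD m.1 []).getD m.2.1 [] := by
  obtain ⟨p, q, m⟩ := m
  simp only [mons, List.mem_flatMap, List.mem_range, List.mem_map, Prod.mk.injEq]
  constructor
  · rintro ⟨p', hp, q', hq, m', hm, rfl, rfl, rfl⟩
    exact ⟨hp, hq, hm⟩
  · rintro ⟨hp, hq, hm⟩
    exact ⟨p, hp, q, hq, m, hm, rfl, rfl, rfl⟩

theorem len_le {I : Inp} {m : Mo} (h : m ∈ mons I) : m.2.2.2.length ≤ nv I :=
  List.single_le_sum (fun _ _ => Nat.zero_le _) _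
    (List.mem_map.2 ⟨m.2.2, mem_flat (mem_mons.1 h).2.2, rfl⟩)

theorem den_mem {I : Inp} {m : Mo} (h : m ∈ mons I) : denZ m.2.2.1 ∈ dens I :=
  List.mem_map.2 ⟨m.2.2, mem_flat (mem_mons.1 h).2.2, rfl⟩

theorem mo_mem {I : Inp} {j : ℕ} (h : j < (mons I).length) : mo I j ∈ mons I := by
  rw [mo, List.getD_eq_getElem _ _ h]
  exact List.getElem_mem h

theorem exists_mo {I : Inp} {m : Mo} (h : m ∈ mons I) : ∃ j < (mons I).length, mo I j = m := by
  obtain ⟨j, hj, rfl⟩ := List.getElem_of_mem h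
  exact ⟨j, hj, by rw [mo, List.getD_eq_getElem _ _ hj]⟩

theorem mo_len (I : Inp) (j : ℕ) : (mo I j).2.2.2.length ≤ nv I := by
  by_cases h : j < (mons I).length
  · exact len_le (mo_mem h)
  · rw [mo, List.getD_eq_default _ _ (not_lt.1 h)]
    exact Nat.zero_le _

theorem getD_zero {l : List ℕ} {K i : ℕ} (h : l.length ≤ K) (hi : ¬ i < K) : l.getD i 0 = 0 :=
  List.getD_eq_default _ _ (h.trans (not_lt.1 hi))

theorem sameE_iff {K : ℕ} {l l' : List ℕ} (h : l.length ≤ K) (h' : l'.length ≤ K) :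
    sameE K l l' = true ↔ expo l = expo l' := by
  simp only [sameE, List.all_eq_true, List.mem_range, decide_eq_true_eq]
  constructor
  · intro H
    ext i
    by_cases hi : i < K
    · exact H i hi
    · rw [expo_apply, expo_apply, getD_zero h hi, getD_zero h' hi]
  · intro H i _
    rw [← expo_apply, ← expo_apply, H]

theorem sameS_iff {K : ℕ} {l l' : List ℕ} (h : l.length ≤ K) (h' : l'.length ≤ K) :
    sameS K l l' = true ↔ (expo l).support = (expo l').support := by
  have e : ∀ a b : ℕ, ((!xor (decide (a = 0)) (decide (b = 0))) = true) ↔ (a ≠ 0 ↔ b ≠ 0) := by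
    intro a b
    by_cases ha : a = 0 <;> by_cases hb : b = 0 <;> simp [ha, hb]
  simp only [sameS, List.all_eq_true, List.mem_range, e]
  constructor
  · intro H
    ext i
    rw [Finsupp.mem_support_iff, Finsupp.mem_support_iff, expo_apply, expo_apply]
    by_cases hi : i < K
    · exact H i hi
    · rw [getD_zero h hi, getD_zero h' hi]
  · intro H i _
    rw [← expo_apply, ← expo_apply, ← Finsupp.mem_support_iff, ← Finsupp.mem_support_iff, H]

theorem small_iff {k K : ℕ} {l : List ℕ} (h : l.length ≤ K) :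
    small k K l = true ↔ (expo l).support.card ≤ k := by
  have e : (expo l).support =
      ((List.range K).filter fun i => !decide (l.getD i 0 = 0)).toFinset := by
    ext i
    rw [Finsupp.mem_support_iff, expo_apply, List.mem_toFinset, List.mem_filter, List.mem_range]
    by_cases hi : i < K
    · simp [hi]
    · simp only [hi, false_and, iff_false, not_not]
      exact getD_zero h hi
  rw [small, decide_eq_true_eq, e, List.toFinset_card_of_nodup (List.nodup_range.filter _)]

/-- The class of an exponent vector. -/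
noncomputable def kk (k : ℕ) (d : ℕ →₀ ℕ) : Finset ℕ ⊕ (ℕ →₀ ℕ) :=
  if d.support.card ≤ k then Sum.inl d.support else Sum.inr d

theorem kk_supp {k : ℕ} {d d' : ℕ →₀ ℕ} (h : kk k d = kk k d') : d.support = d'.support := by
  unfold kk at h
  split_ifs at h
  · exact Sum.inl.inj h
  · rw [Sum.inr.inj h]

theorem kk_big {k : ℕ} {d d' : ℕ →₀ ℕ} (h : kk k d = kk k d') (hd : ¬ d'.support.card ≤ k) :
    d = d' := by
  have h1 := kk_supp h
  unfold kk at h
  rw [if_neg hd, if_neg (by rwa [h1])] at h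
  exact Sum.inr.inj h

theorem kk_small {k : ℕ} {d d' : ℕ →₀ ℕ} (h : d.support = d'.support) (hd : d.support.card ≤ k) :
    kk k d = kk k d' := by
  unfold kk
  rw [if_pos hd, if_pos (by rwa [← h]), h]

theorem sameP_iff {m m' : Mo} : sameP m m' = true ↔ m.1 = m'.1 ∧ m.2.1 = m'.2.1 := by
  simp [sameP]

theorem sameK_iff {k K : ℕ} {m m' : Mo} (h : m.2.2.2.length ≤ K) (h' : m'.2.2.2.length ≤ K) :
    sameK k K m m' = true ↔
      (m.1 = m'.1 ∧ m.2.1 = m'.2.1) ∧ kk k (expo m.2.2.2) = kk k (expo m'.2.2.2) := by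
  rw [sameK, Bool.and_eq_true, sameP_iff]
  refine and_congr_right fun _ => ?_
  by_cases hs : small k K m.2.2.2 = true
  · rw [hs, cond_true, sameS_iff h h']
    exact ⟨fun H => kk_small H ((small_iff h).1 hs), kk_supp⟩
  · have hs' := hs
    rw [small_iff h] at hs'
    rw [Bool.not_eq_true] at hs
    rw [hs, cond_false, sameE_iff h h']
    exact ⟨fun H => by rw [H], fun H => (kk_big H.symm hs').symm⟩

theorem sum_filter {β M : Type} [AddCommMonoid M] (l : List β) (p : β → Bool) (f : β → M) :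
    ((l.filter p).map f).sum = (l.map fun x => if p x = true then f x else 0).sum := by
  induction l with
  | nil => simp
  | cons a l ih =>
    by_cases h : p a = true
    · simp [h, ih]
    · simp [h, ih]

theorem sum_flatMap {β γ M : Type} [AddCommMonoid M] (l : List β) (g : β → List γ) (f : γ → M) :
    ((l.flatMap g).map f).sum = (l.map fun x => ((g x).map f).sum).sum := by
  induction l with
  | nil => simp
  | cons a l ih => simp [ih]

/-- The entry at a position, as a sum over all monomials. -/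
noncomputable def ent (I : Inp) (r c : ℕ) : MvPolynomial ℕ ℚ :=
  ((mons I).map fun m => if m.1 = r ∧ m.2.1 = c then monoPoly m.2.2 else 0).sum

theorem ent_eq (I : Inp) (r c : Fin I.length) : polyMatrix I r c = ent I r c := by
  rw [ent, mons, sum_flatMap, list_sum_range, Finset.sum_eq_single r.1]
  · rw [sum_flatMap, list_sum_range, Finset.sum_eq_single c.1]
    · simp [polyMatrix, List.map_map, Function.comp_def]
    · intro q _ hq
      simp [List.map_map, Function.comp_def, hq]
    · intro h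
      exact absurd (Finset.mem_range.2 c.2) h
  · intro p _ hp
    rw [sum_flatMap]
    simp [List.map_map, Function.comp_def, hp]
  · intro h
    exact absurd (Finset.mem_range.2 r.2) h

theorem coeff_sum {β : Type} (l : List β) (f : β → MvPolynomial ℕ ℚ) (d : ℕ →₀ ℕ) :
    coeff d (l.map f).sum = (l.map fun x => coeff d (f x)).sum := by
  induction l with
  | nil => simp
  | cons a l ih => simp [ih]

theorem coeff_ent (I : Inp) (r c : ℕ) (d : ℕ →₀ ℕ) : coeff d (ent I r c) =
    ((mons I).map fun m => if (m.1 = r ∧ m.2.1 = c) ∧ expo m.2.2.2 = d then m.2.2.1 else 0).sum := by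
  rw [ent, coeff_sum]
  congr 1
  refine List.map_congr_left fun m _ => ?_
  by_cases h : m.1 = r ∧ m.2.1 = c
  · rw [if_pos h, monoPoly_eq, coeff_monomial]
    simp [h]
  · rw [if_neg h, if_neg fun H => h H.1, coeff_zero]

theorem exists_of_coeff {I : Inp} {r c : ℕ} {d : ℕ →₀ ℕ} (h : coeff d (ent I r c) ≠ 0) :
    ∃ m ∈ mons I, (m.1 = r ∧ m.2.1 = c) ∧ expo m.2.2.2 = d := by
  by_contra H
  apply h
  rw [coeff_ent]
  refine List.sum_eq_zero fun x hx => ?_
  obtain ⟨m, hm, rfl⟩ := List.mem_map.1 hx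
  exact if_neg fun H' => H ⟨m, hm, H'⟩

theorem eval_ones {I : Inp} {m : ℚ × List ℕ} (h : m.2.length ≤ nv I) :
    eval (fa (ones I)) (monoPoly m) = m.1 := by
  rw [eval_monoPoly, Finset.prod_eq_one, mul_one]
  intro i hi
  have hi' : i < nv I := (Finset.mem_range.1 hi).trans_le h
  simp [fa, ones, List.getD_eq_getElem?_getD, hi']

theorem live_iff {I : Inp} {m : Mo} (h : m.2.2.2.length ≤ nv I) :
    live I m = true ↔ coeff (expo m.2.2.2) (ent I m.1 m.2.1) ≠ 0 := by
  have e : (((((mons I).filter fun m' => sameP m m' && sameE (nv I) m.2.2.2 m'.2.2.2).map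
      fun m' => mval (dens I) (ones I) m'.2.2).sum : ℤ) : ℚ) =
      (((dens I).prod : ℤ) : ℚ) * coeff (expo m.2.2.2) (ent I m.1 m.2.1) := by
    rw [sum_filter, coeff_ent, ← List.sum_map_mul_left, Int.cast_list_sum, List.map_map]
    congr 1
    refine List.map_congr_left fun m' hm' => ?_
    have e1 : (sameP m m' && sameE (nv I) m.2.2.2 m'.2.2.2) = true ↔
        (m'.1 = m.1 ∧ m'.2.1 = m.2.1) ∧ expo m'.2.2.2 = expo m.2.2.2 := by
      rw [Bool.and_eq_true, sameP_iff, sameE_iff h (len_le hm')]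
      simp only [eq_comm]
    by_cases H : (m'.1 = m.1 ∧ m'.2.1 = m.2.1) ∧ expo m'.2.2.2 = expo m.2.2.2
    · rw [Function.comp, if_pos (e1.2 H), if_pos H, mval_spec _ _ _ (den_mem hm'),
        eval_ones (len_le hm')]
    · rw [Function.comp, if_neg (fun H' => H (e1.1 H')), if_neg H]
      simp
  rw [live, Bool.not_eq_true', decide_eq_false_iff_not, ← Int.cast_inj (α := ℚ), e, Int.cast_zero,
    mul_eq_zero, or_iff_right (dens_ne I)]

open Classical in
theorem coeff_part (k : ℕ) (I : Inp) (j : ℕ) (d : ℕ →₀ ℕ) : coeff d (part k I j) =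
    (((dens I).prod : ℤ) : ℚ) * if kk k (expo (mo I j).2.2.2) = kk k d then
      coeff d (ent I (mo I j).1 (mo I j).2.1) else 0 := by
  rw [part, coeff_C_mul, sum_filter, coeff_sum]
  congr 1
  split_ifs with H
  · rw [coeff_ent]
    congr 1
    refine List.map_congr_left fun m hm => ?_
    by_cases h1 : (m.1 = (mo I j).1 ∧ m.2.1 = (mo I j).2.1) ∧ expo m.2.2.2 = d
    · rw [if_pos h1, if_pos, monoPoly_eq, coeff_monomial, if_pos h1.2]
      rw [sameK_iff (mo_len I j) (len_le hm), h1.2]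
      exact ⟨⟨h1.1.1.symm, h1.1.2.symm⟩, H⟩
    · rw [if_neg h1]
      split_ifs with h2
      · rw [sameK_iff (mo_len I j) (len_le hm)] at h2
        rw [monoPoly_eq, coeff_monomial, if_neg fun h3 => h1 ⟨⟨h2.1.1.symm, h2.1.2.symm⟩, h3⟩]
      · exact coeff_zero _
  · refine List.sum_eq_zero fun x hx => ?_
    obtain ⟨m, hm, rfl⟩ := List.mem_map.1 hx
    split_ifs with h2
    · rw [sameK_iff (mo_len I j) (len_le hm)] at h2
      rw [monoPoly_eq, coeff_monomial, if_neg]
      intro h3
      exact H (h3 ▸ h2.2)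
    · exact coeff_zero _

theorem of_coeff_part {k : ℕ} {I : Inp} {j : ℕ} {d : ℕ →₀ ℕ} (h : coeff d (part k I j) ≠ 0) :
    kk k (expo (mo I j).2.2.2) = kk k d ∧ coeff d (ent I (mo I j).1 (mo I j).2.1) ≠ 0 := by
  rw [coeff_part] at h
  by_cases H : kk k (expo (mo I j).2.2.2) = kk k d
  · rw [if_pos H] at h
    exact ⟨H, right_ne_zero_of_mul h⟩
  · rw [if_neg H, mul_zero] at h
    exact absurd rfl h

theorem mem_all {k : ℕ} {I : Inp} {e : ℕ} : e ∈ (gr k I).All ↔
    e < (mons I).length ∧ live I (mo I e) = true ∧ ∀ i < e, live I (mo I i) = true →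
      ¬ (((mo I i).1 = (mo I e).1 ∧ (mo I i).2.1 = (mo I e).2.1) ∧
        kk k (expo (mo I i).2.2.2) = kk k (expo (mo I e).2.2.2)) := by
  simp only [gr, edges, List.mem_toFinset, List.mem_filter, List.mem_range, Bool.and_eq_true,
    Bool.not_eq_true', List.any_eq_false, sameK_iff (mo_len I _) (mo_len I _), not_and]

theorem edge_inj {k : ℕ} {I : Inp} {e e' : ℕ} (he : e ∈ (gr k I).All) (he' : e' ∈ (gr k I).All)
    (h1 : (mo I e).1 = (mo I e').1) (h2 : (mo I e).2.1 = (mo I e').2.1)
    (h3 : kk k (expo (mo I e).2.2.2) = kk k (expo (mo I e').2.2.2)) : e = e' := by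
  rw [mem_all] at he he'
  rcases lt_trichotomy e e' with h | h | h
  · exact absurd ⟨⟨h1, h2⟩, h3⟩ (he'.2.2 e h he.2.1)
  · exact h
  · exact absurd ⟨⟨h1.symm, h2.symm⟩, h3.symm⟩ (he.2.2 e' h he'.2.1)

theorem exists_edge (k : ℕ) {I : Inp} {r c : ℕ} {d : ℕ →₀ ℕ} (h : coeff d (ent I r c) ≠ 0) :
    ∃ e ∈ (gr k I).All, ((mo I e).1 = r ∧ (mo I e).2.1 = c) ∧
      kk k (expo (mo I e).2.2.2) = kk k d := by
  classical
  have hex : ∃ j, j < (mons I).length ∧ live I (mo I j) = true ∧
      ((mo I j).1 = r ∧ (mo I j).2.1 = c) ∧ kk k (expo (mo I j).2.2.2) = kk k d := by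
    obtain ⟨m, hm, ⟨h1, h2⟩, h3⟩ := exists_of_coeff h
    obtain ⟨j, hj, rfl⟩ := exists_mo hm
    refine ⟨j, hj, ?_, ⟨h1, h2⟩, by rw [h3]⟩
    rw [live_iff (mo_len I j), h1, h2, h3]
    exact h
  obtain ⟨a1, a2, a3, a4⟩ := Nat.find_spec hex
  refine ⟨Nat.find hex, mem_all.2 ⟨a1, a2, fun i hi hl H => ?_⟩, a3, a4⟩
  exact Nat.find_min hex hi
    ⟨hi.trans a1, hl, ⟨H.1.1.trans a3.1, H.1.2.trans a3.2⟩, H.2.trans a4⟩

theorem edge_coeff {k : ℕ} {I : Inp} {e : ℕ} (he : e ∈ (gr k I).All) :
    coeff (expo (mo I e).2.2.2) (ent I (mo I e).1 (mo I e).2.1) ≠ 0 :=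
  (live_iff (mo_len I e)).1 (mem_all.1 he).2.1

end PH

open PH

theorem gr_ok (k : ℕ) (I : Inp) : (gr k I).Ok := fun _ he =>
  have h := mem_mons.1 (mo_mem (mem_all.1 he).1)
  ⟨h.1, h.2.1⟩

theorem valL_spec (k : ℕ) (I : Inp) (a : List ℕ) (j : ℕ) :
    (valL k I a j : ℚ) = MvPolynomial.eval (fa a) (part k I j) := by
  rw [valL, part, map_mul, MvPolynomial.eval_C, map_list_sum, Int.cast_list_sum, List.map_map,
    List.map_map, ← List.sum_map_mul_left]
  congr 1
  refine List.map_congr_left fun m hm => ?_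
  exact mval_spec _ a m.2.2 (den_mem (List.mem_filter.1 hm).1)

theorem mat_part (k : ℕ) (I : Inp) (r c : Fin I.length) :
    (gr k I).mat (gr k I).All (part k I) r c =
      MvPolynomial.C (((dens I).prod : ℤ) : ℚ) * polyMatrix I r c := by
  classical
  ext d
  rw [ent_eq, MvPolynomial.coeff_C_mul, Gr.mat, MvPolynomial.coeff_sum]
  by_cases h : MvPolynomial.coeff d (ent I r c) = 0
  · rw [h, mul_zero]
    refine Finset.sum_eq_zero fun e he => ?_
    obtain ⟨-, h1, h2⟩ := Finset.mem_filter.1 he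
    by_contra H
    apply (of_coeff_part H).2
    rw [show (mo I e).1 = r from h1, show (mo I e).2.1 = c from h2, h]
  · obtain ⟨e, he, ⟨h1, h2⟩, h3⟩ := exists_edge k h
    rw [Finset.sum_eq_single e]
    · rw [coeff_part, if_pos h3, h1, h2]
    · intro e' he' hne
      obtain ⟨he', h1', h2'⟩ := Finset.mem_filter.1 he'
      by_contra H
      exact hne (edge_inj he' he (Eq.trans h1' h1.symm) (Eq.trans h2' h2.symm)
        ((of_coeff_part H).1.trans h3.symm))
    · intro H
      exact absurd (Finset.mem_filter.2 ⟨he, h1, h2⟩) H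

theorem edge_ne (k : ℕ) (I : Inp) : ∀ e ∈ (gr k I).All, ∀ h1 h2,
    polyMatrix I ⟨(gr k I).rw e, h1⟩ ⟨(gr k I).cl e, h2⟩ ≠ 0 := by
  intro e he h1 h2 H
  rw [ent_eq] at H
  apply edge_coeff he
  rw [show ent I (mo I e).1 (mo I e).2.1 = 0 from H, MvPolynomial.coeff_zero]

theorem part_spec (k : ℕ) (I : Inp) : ∀ e ∈ (gr k I).All,
    affE I e ⊆ Finset.range (nv I) ∧
    (∀ p q : ℕ → ℚ, (∀ i ∈ affE I e, p i = q i) →
      MvPolynomial.eval p (part k I e) = MvPolynomial.eval q (part k I e)) ∧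
    ((affE I e).card ≤ k ∨ ∃ c, part k I e = MvPolynomial.monomial (expo (mo I e).2.2.2) c) := by
  intro e _
  refine ⟨(supp_sub _).trans (Finset.range_mono (mo_len I e)), fun p q h => ?_, ?_⟩
  · rw [MvPolynomial.eval_eq, MvPolynomial.eval_eq]
    refine Finset.sum_congr rfl fun d hd => ?_
    have h1 := kk_supp (of_coeff_part (MvPolynomial.mem_support_iff.1 hd)).1
    congr 1
    refine Finset.prod_congr rfl fun i hi => ?_
    rw [h i (by rw [affE, h1]; exact hi)]
  · by_cases h : (affE I e).card ≤ k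
    · exact Or.inl h
    · refine Or.inr ⟨MvPolynomial.coeff (expo (mo I e).2.2.2) (part k I e), ?_⟩
      classical
      ext d
      rw [MvPolynomial.coeff_monomial]
      split_ifs with H
      · rw [H]
      · by_contra H'
        exact H (kk_big (of_coeff_part H').1.symm h).symm

theorem part_deg (k : ℕ) (I : Inp) (e : ℕ) : (part k I e).totalDegree ≤ dg I := by
  rw [MvPolynomial.totalDegree]
  refine Finset.sup_le fun d hd => ?_
  obtain ⟨m, hm, -, rfl⟩ := exists_of_coeff (of_coeff_part (MvPolynomial.mem_support_iff.1 hd)).2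
  rw [expo_sum]
  exact List.single_le_sum (fun _ _ => Nat.zero_le _) _ (List.mem_map.2 ⟨m, hm, rfl⟩)

theorem read_le (k : ℕ) (I : Inp) (h : ReadLE (polyMatrix I) k) (i : ℕ) :
    ((gr k I).All.filter fun e => i ∈ affE I e).card ≤ k * 2 ^ k := by
  classical
  obtain ⟨m, pos, p, h1, h2, h3⟩ := h
  let fib : Fin m → Finset ℕ := fun j => (gr k I).All.filter fun e =>
    ((pos j).1.1 = (mo I e).1 ∧ (pos j).2.1 = (mo I e).2.1) ∧
      expo (mo I e).2.2.2 ∈ (p j).support
  have hsub : ((gr k I).All.filter fun e => i ∈ affE I e) ⊆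
      (Finset.univ.filter fun j => i ∈ (p j).vars).biUnion fib := by
    intro e he
    obtain ⟨he, hi⟩ := Finset.mem_filter.1 he
    obtain ⟨a1, a2⟩ := gr_ok k I e he
    have hc := edge_coeff he
    have e1 : ent I (mo I e).1 (mo I e).2.1 = _ :=
      (ent_eq I ⟨_, a1⟩ ⟨_, a2⟩).symm.trans (h1 _ _)
    rw [e1, MvPolynomial.coeff_sum] at hc
    obtain ⟨j, hj, hj'⟩ := Finset.exists_ne_zero_of_sum_ne_zero hc
    have hp := (Finset.mem_filter.1 hj).2
    have hs := MvPolynomial.mem_support_iff.2 hj'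
    refine Finset.mem_biUnion.2 ⟨j, Finset.mem_filter.2 ⟨Finset.mem_univ _, ?_⟩,
      Finset.mem_filter.2 ⟨he, ⟨by rw [hp]; rfl, by rw [hp]; rfl⟩, hs⟩⟩
    exact (MvPolynomial.mem_vars_iff_mem_support i).2 ⟨_, hs, hi⟩
  have hfib : ∀ j, (fib j).card ≤ 2 ^ k := by
    intro j
    rcases h2 j with hv | hv
    · have hs : ∀ e ∈ fib j, (expo (mo I e).2.2.2).support ⊆ (p j).vars := fun e he x hx =>
        (MvPolynomial.mem_vars_iff_mem_support x).2 ⟨_, (Finset.mem_filter.1 he).2.2, hx⟩
      calc (fib j).card ≤ (p j).vars.powerset.card := by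
            refine Finset.card_le_card_of_injOn (fun e => (expo (mo I e).2.2.2).support)
              (fun e he => Finset.mem_coe.2 (Finset.mem_powerset.2 (hs e he))) ?_
            intro e he e' he' H
            obtain ⟨b1, ⟨b2, b3⟩, -⟩ := Finset.mem_filter.1 (Finset.mem_coe.1 he)
            obtain ⟨c1, ⟨c2, c3⟩, -⟩ := Finset.mem_filter.1 (Finset.mem_coe.1 he')
            exact edge_inj b1 c1 (b2.symm.trans c2) (b3.symm.trans c3)
              (kk_small H ((Finset.card_le_card (hs e he)).trans hv))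
        _ ≤ 2 ^ k := by
            rw [Finset.card_powerset]
            exact Nat.pow_le_pow_right two_pos hv
    · refine le_trans (Finset.card_le_one.2 fun e he e' he' => ?_) Nat.one_le_two_pow
      obtain ⟨b1, ⟨b2, b3⟩, b4⟩ := Finset.mem_filter.1 he
      obtain ⟨c1, ⟨c2, c3⟩, c4⟩ := Finset.mem_filter.1 he'
      exact edge_inj b1 c1 (b2.symm.trans c2) (b3.symm.trans c3)
        (by rw [Finset.card_le_one.1 hv _ b4 _ c4])
  exact (Finset.card_le_card hsub).trans ((Finset.card_biUnion_le_card_mul _ _ _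
    fun j _ => hfib j).trans (Nat.mul_le_mul_right _ (h3 i)))

end Pool.Agent.P.MP_08e617_lc.Rk
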