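import Pool.Agent.P.MP_08e617_lc.RkJ0
import Pool.Agent.P.MP_08e617_lc.RkE
import Pool.Agent.P.MP_08e617_lc.RkH

/-! The matrices of the contexts: degree bound and the potential as a sum of coranks. -/

namespace Pool.Agent.P.MP_08e617_lc.Rk

open Pool.Agent.Lib.helper21 Module
open scoped Pointwise

theorem evP_deg (k w : ℕ) (I : Inp) (x : List ℕ × List ℕ) (i j : Fin (szC k w I x)) :
    (evP k w I x i j).totalDegree ≤ I.length * dg I :=
  PJ.evP_deg_of k w I (part_deg k I) x i j

theorem pot_spec (k w : ℕ) (I : Inp) (hn : 0 < I.length) (hd : ∀ l ∈ fam k w I, l.Nodup)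
    (a : List ℕ) : pot k w I a =
      ((prs k w I).map fun x => szC k w I x - rkAt (evP k w I x) (fa a)).sum :=
  PJ.pot_spec_of k w I (detL_spec hn) a (valL_spec k I a) hd

end Pool.Agent.P.MP_08e617_lc.Rk
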