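import Pool.Agent.P.MP_08e617_lc.RkB

/-! The matrices of the contexts: degrees, values, and the potential. -/

namespace Pool.Agent.P.MP_08e617_lc.Rk

open Pool.Agent.Lib.helper21 Module
open scoped Pointwise

namespace PJ

theorem ref_map {K K' : Type} [CommRing K] [CommRing K'] (φ : K →+* K') (n : ℕ) (Y : Finset ℕ)
    (r c : ℕ) : φ (ref n Y r c) = ref n Y r c := by
  unfold ref
  split_ifs <;> simp

theorem mnr_map' {K K' : Type} [CommRing K] [CommRing K'] (φ : K →+* K') (n : ℕ) (Y : Finset ℕ)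
    (B : ℕ → ℕ → K) : φ (mnr n Y B) = mnr n Y fun r c => φ (B r c) := by
  unfold mnr
  rw [RingHom.map_det]
  congr 1
  ext r c
  simp only [RingHom.mapMatrix_apply, Matrix.map_apply, Matrix.of_apply, map_add, ref_map]
  congr 1
  unfold mask
  split_ifs <;> simp

theorem mat_map {K K' : Type} [CommRing K] [CommRing K'] (φ : K →+* K') (G : Gr) (R : Finset ℕ)
    (val : ℕ → K) (r c : ℕ) : φ (G.mat R val r c) = G.mat R (fun e => φ (val e)) r c := by
  unfold Gr.mat
  rw [map_sum]

theorem mnr_congr {K : Type} [CommRing K] (n : ℕ) (Y : Finset ℕ) {A B : ℕ → ℕ → K}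
    (h : ∀ r < n, ∀ c < n, A r c = B r c) : mnr n Y A = mnr n Y B := by
  unfold mnr
  congr 1
  ext r c
  simp only [Matrix.of_apply, mask, h r r.2 c c.2]

theorem deg_det {n E : ℕ} (M : Matrix (Fin n) (Fin n) (MvPolynomial ℕ ℚ))
    (h : ∀ i j, (M i j).totalDegree ≤ E) : M.det.totalDegree ≤ n * E := by
  rw [Matrix.det_apply']
  refine MvPolynomial.totalDegree_finsetSum_le fun s _ => (MvPolynomial.totalDegree_mul _ _).trans ?_
  rw [← map_intCast (MvPolynomial.C : ℚ →+* MvPolynomial ℕ ℚ), MvPolynomial.totalDegree_C,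
    zero_add]
  refine (MvPolynomial.totalDegree_finsetProd _ _).trans ?_
  refine (Finset.sum_le_card_nsmul _ _ E fun i _ => h _ _).trans ?_
  simp

theorem deg_ref (n : ℕ) (Y : Finset ℕ) (r c : ℕ) :
    (ref n Y r c : MvPolynomial ℕ ℚ).totalDegree = 0 := by
  unfold ref
  split_ifs <;> simp

theorem deg_mnr {n E : ℕ} (Y : Finset ℕ) (B : ℕ → ℕ → MvPolynomial ℕ ℚ)
    (h : ∀ i j, (B i j).totalDegree ≤ E) : (mnr n Y B).totalDegree ≤ n * E := by
  refine deg_det _ fun i j => ?_
  simp only [Matrix.of_apply]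
  refine (MvPolynomial.totalDegree_add _ _).trans (max_le ?_ (by rw [deg_ref]; exact Nat.zero_le _))
  unfold mask
  split_ifs
  · exact h _ _
  · simp

theorem evP_deg_of (k w : ℕ) (I : Inp) (hp : ∀ e, (part k I e).totalDegree ≤ dg I)
    (x : List ℕ × List ℕ) (i j : Fin (szC k w I x)) :
    (evP k w I x i j).totalDegree ≤ I.length * dg I := by
  unfold evP
  simp only [Matrix.of_apply]
  split_ifs
  · refine (MvPolynomial.totalDegree_mul _ _).trans ?_
    rw [← map_natCast (MvPolynomial.C : ℚ →+* MvPolynomial ℕ ℚ), MvPolynomial.totalDegree_C,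
      zero_add]
    refine deg_mnr _ _ fun r c => ?_
    simp only [Pi.add_apply]
    refine (MvPolynomial.totalDegree_add _ _).trans
      (max_le ?_ (by rw [deg_ref]; exact Nat.zero_le _))
    exact MvPolynomial.totalDegree_finsetSum_le fun e _ => hp e
  · simp

theorem memL_iff (x : ℕ) (l : List ℕ) : memL x l = true ↔ x ∈ l := by
  simp [memL]

theorem mem_diffL (x : ℕ) (l l' : List ℕ) : x ∈ diffL l l' ↔ x ∈ l ∧ x ∉ l' := by
  rw [diffL, List.mem_filter, ← memL_iff x l']
  simp

theorem toFinset_diffL (l l' : List ℕ) : (diffL l l').toFinset = l.toFinset \ l'.toFinset := by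
  ext x
  simp [mem_diffL]

theorem cntL_eq (Y : List ℕ) (o x : ℕ) : cntL Y o x = cnt Y.toFinset o x := by
  unfold cntL cnt
  rw [← List.toFinset_card_of_nodup (List.nodup_range.filter _)]
  congr 1
  ext y
  simp [memL_iff]

theorem refL_eq (n : ℕ) (Y : List ℕ) (r c : ℕ) : refL n Y r c = ref n Y.toFinset r c := by
  unfold refL ref
  rw [Bool.cond_eq_ite]
  simp only [Bool.and_eq_true, memL_iff, decide_eq_true_eq, cntL_eq, List.mem_toFinset, and_assoc]

theorem mnrL_eq {n : ℕ} (hdet : ∀ M, detL n M = n.factorial * (toM n M).det) (Y : List ℕ)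
    (M : List (List ℤ)) : mnrL n Y M = n.factorial * mnr n Y.toFinset (gm M) := by
  rw [mnrL, hdet, toM_mk, mnr]
  congr 2
  ext r c
  simp only [Matrix.of_apply, refL_eq, toFinset_diffL, List.toFinset_range, mask]
  rw [Bool.cond_eq_ite]
  simp only [Bool.and_eq_true, memL_iff, List.mem_toFinset]

theorem matL_eq (k : ℕ) (I : Inp) {R : List ℕ} (hR : R.Nodup) (a : List ℕ) (r c : ℕ) :
    matL k I R a r c = (gr k I).mat R.toFinset (valL k I a) r c := by
  unfold matL Gr.mat
  rw [← List.sum_toFinset _ (hR.filter _)]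
  refine Finset.sum_congr ?_ fun _ _ => rfl
  ext e
  simp [gr]

theorem rank_ker {N : ℕ} (M : Matrix (Fin N) (Fin N) ℚ) :
    finrank ℚ (LinearMap.ker M.mulVecLin) = N - M.rank := by
  have h := LinearMap.finrank_range_add_finrank_ker M.mulVecLin
  rw [Module.finrank_fintype_fun_eq_card, Fintype.card_fin] at h
  unfold Matrix.rank
  omega

end PJ

theorem evP_eval (k w : ℕ) (I : Inp) (x : List ℕ × List ℕ) (p : ℕ → ℚ) :
    (evP k w I x).map (MvPolynomial.eval p) = Matrix.of fun i j : Fin (szC k w I x) =>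
      if i.1 < (idx k w I x.1).length ∧ j.1 < (idx k w I x.2).length then
        (I.length.factorial : ℚ) * mnr (gr k I).n ((idx k w I x.1).getD i []).toFinset
          ((gr k I).mat (x.1.toFinset \ x.2.toFinset)
            (fun e => MvPolynomial.eval p (part k I e)) +
            ref (gr k I).n ((idx k w I x.2).getD j []).toFinset) else 0 := by
  ext i j
  simp only [Matrix.map_apply, evP, Matrix.of_apply]
  split_ifs
  · rw [map_mul, map_natCast, PJ.mnr_map']
    congr 1
    refine PJ.mnr_congr _ _ fun r _ c _ => ?_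
    simp only [Pi.add_apply, map_add, PJ.ref_map, PJ.mat_map]
    rfl
  · simp

namespace PJ

theorem evC_eq (k w : ℕ) (I : Inp)
    (hdet : ∀ M, detL I.length M = I.length.factorial * (toM I.length M).det)
    (a : List ℕ) (hval : ∀ j, (valL k I a j : ℚ) = MvPolynomial.eval (fa a) (part k I j))
    (x : List ℕ × List ℕ) (hx : x.1.Nodup) :
    (toM (szC k w I x) (evC k w I x a)).map (Int.castRingHom ℚ) =
      (evP k w I x).map (MvPolynomial.eval (fa a)) := by
  rw [evP_eval, evC, toM_mk]
  ext i j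
  simp only [Matrix.map_apply, Matrix.of_apply]
  rw [Bool.cond_eq_ite]
  simp only [Bool.and_eq_true, decide_eq_true_eq]
  split_ifs
  · rw [mnrL_eq hdet, map_mul, map_natCast, mnr_map']
    congr 1
    refine mnr_congr _ _ fun r hr c hc => ?_
    have hx' : (diffL x.1 x.2).Nodup := hx.filter _
    rw [gm_mk, if_pos ⟨hr, hc⟩, map_add, refL_eq, ref_map, matL_eq k I hx', mat_map,
      toFinset_diffL]
    simp only [Pi.add_apply, eq_intCast, hval]
    rfl
  · simp

theorem pot_spec_of (k w : ℕ) (I : Inp)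
    (hdet : ∀ M, detL I.length M = I.length.factorial * (toM I.length M).det)
    (a : List ℕ) (hval : ∀ j, (valL k I a j : ℚ) = MvPolynomial.eval (fa a) (part k I j))
    (hd : ∀ l ∈ fam k w I, l.Nodup) : pot k w I a =
      ((prs k w I).map fun x => szC k w I x - rkAt (evP k w I x) (fa a)).sum := by
  unfold pot
  congr 1
  refine List.map_congr_left fun x hx => ?_
  have h1 : x.1 ∈ fam k w I := by
    simp only [prs, List.mem_flatMap, List.mem_map] at hx
    obtain ⟨u, hu, v, -, rfl⟩ := hx
    exact hu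
  rw [kd_spec, inf_idem, evC_eq k w I hdet a hval x (hd _ h1), rank_ker, rkAt]

end PJ

end Pool.Agent.P.MP_08e617_lc.Rk
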