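import Pool.Agent.P.MP_08e617_lc.RkV

/-! The matrix of a formula is singular exactly when the formula computes zero. -/

namespace Pool.Agent.P.MP_08e617_lc.Rk

open Pool.Agent.Lib.helper21 Module

namespace PK1

/-- The weighted sum of `x` over the heads of the arcs leaving `v`. -/
noncomputable def out (L : List Mo) (x : ℕ → MvPolynomial ℕ ℚ) (v : ℕ) : MvPolynomial ℕ ℚ :=
  (L.map fun m => if m.1 = v then monoPoly m.2.2 * x m.2.1 else 0).sum

theorem out_nil (x : ℕ → MvPolynomial ℕ ℚ) (v : ℕ) : out [] x v = 0 := rfl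

theorem out_cons (m : Mo) (L : List Mo) (x : ℕ → MvPolynomial ℕ ℚ) (v : ℕ) :
    out (m :: L) x v = (if m.1 = v then monoPoly m.2.2 * x m.2.1 else 0) + out L x v := by
  simp [out]

theorem out_append (L L' : List Mo) (x : ℕ → MvPolynomial ℕ ℚ) (v : ℕ) :
    out (L ++ L') x v = out L x v + out L' x v := by
  simp [out]

theorem out_congr (L : List Mo) (x y : ℕ → MvPolynomial ℕ ℚ) (v : ℕ)
    (h : ∀ m ∈ L, x m.2.1 = y m.2.1) : out L x v = out L y v := by
  induction L with
  | nil => rfl
  | cons m L ih =>
    rw [out_cons, out_cons, h m List.mem_cons_self,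
      ih fun m' hm' => h m' (List.mem_cons_of_mem _ hm')]

theorem out_zero (L : List Mo) (x : ℕ → MvPolynomial ℕ ℚ) (v : ℕ) (h : ∀ m ∈ L, m.1 ≠ v) :
    out L x v = 0 := by
  induction L with
  | nil => rfl
  | cons m L ih =>
    rw [out_cons, if_neg (h m List.mem_cons_self),
      ih fun m' hm' => h m' (List.mem_cons_of_mem _ hm'), add_zero]

theorem arcs_block (F : Fml) (o : ℕ) : ∀ m ∈ arcsF o F,
    2 * o ≤ m.1 ∧ m.1 + 1 < 2 * (o + gates F) ∧ 2 * o ≤ m.2.1 ∧ m.2.1 < 2 * (o + gates F) := by
  induction F generalizing o with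
  | var i => simp [arcsF, gates]; omega
  | cst c => simp [arcsF, gates]; omega
  | add f g hf hg =>
    intro m hm
    have h1 := gates_pos f
    have h2 := gates_pos g
    simp only [arcsF, List.mem_append, List.mem_cons, List.not_mem_nil, or_false] at hm
    rw [gates]
    rcases hm with (hm | hm) | rfl | rfl | rfl | rfl
    · have := hf o m hm; omega
    · have := hg _ m hm; omega
    all_goals dsimp only; omega
  | mul f g hf hg =>
    intro m hm
    have h1 := gates_pos f
    have h2 := gates_pos g
    simp only [arcsF, List.mem_append, List.mem_cons, List.not_mem_nil, or_false] at hm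
    rw [gates]
    rcases hm with (hm | hm) | rfl | rfl | rfl
    · have := hf o m hm; omega
    · have := hg _ m hm; omega
    all_goals dsimp only; omega

theorem out_off (F : Fml) (o : ℕ) (x : ℕ → MvPolynomial ℕ ℚ) (v : ℕ)
    (h : v < 2 * o ∨ 2 * (o + gates F) ≤ v + 1) : out (arcsF o F) x v = 0 :=
  out_zero _ _ _ fun m hm => by have := arcs_block F o m hm; omega

theorem out_block (F : Fml) (o : ℕ) (x y : ℕ → MvPolynomial ℕ ℚ) (v : ℕ)
    (h : ∀ u, 2 * o ≤ u → u < 2 * (o + gates F) → x u = y u) :
    out (arcsF o F) x v = out (arcsF o F) y v :=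
  out_congr _ _ _ _ fun m hm => by
    have := arcs_block F o m hm
    exact h _ (by omega) (by omega)

/-- The equations of the block of `F` placed at `o`. -/
def Sol (F : Fml) (o : ℕ) (x : ℕ → MvPolynomial ℕ ℚ) : Prop :=
  ∀ v, 2 * o ≤ v → v + 1 < 2 * (o + gates F) → x v = out (arcsF o F) x v

theorem mono_one : monoPoly (1, []) = 1 := by rw [monoPoly_nil, map_one]

theorem sol_add (f g : Fml) (o a b : ℕ) (ha : a + 1 = o + gates f) (hb : b = a + gates g)
    (x : ℕ → MvPolynomial ℕ ℚ) : Sol (.add f g) o x ↔
      Sol f o x ∧ Sol g (o + gates f) x ∧ x (2 * a + 1) = x (2 * b + 3) ∧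
        x (2 * b + 1) = x (2 * b + 3) ∧ x (2 * b + 2) = x (2 * a) + x (2 * b) := by
  have h1 := gates_pos f
  have h2 := gates_pos g
  have e1 : o + gates f - 1 = a := by omega
  have e2 : o + gates f + gates g - 1 = b := by omega
  have e3 : 2 * (o + gates f + gates g) = 2 * b + 2 := by omega
  have key : ∀ v, out (arcsF o (.add f g)) x v =
      out (arcsF o f) x v + out (arcsF (o + gates f) g) x v +
        ((if 2 * b + 2 = v then x (2 * a) else 0) + ((if 2 * b + 2 = v then x (2 * b) else 0) +
        ((if 2 * a + 1 = v then x (2 * b + 3) else 0) +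
          (if 2 * b + 1 = v then x (2 * b + 3) else 0)))) := fun v => by
    rw [arcsF, out_append, out_append, e1, e2, e3]
    simp only [out_cons, out_nil, mono_one, one_mul, add_zero]
  have eg : gates (.add f g) = gates f + gates g + 1 := rfl
  constructor
  · intro h
    refine ⟨fun v h3 h4 => ?_, fun v h3 h4 => ?_, ?_, ?_, ?_⟩
    · rw [h v h3 (by omega), key, out_off g _ x v (by omega), if_neg (by omega),
        if_neg (by omega), if_neg (by omega), if_neg (by omega)]
      simp
    · rw [h v (by omega) (by omega), key, out_off f _ x v (by omega), if_neg (by omega),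
        if_neg (by omega), if_neg (by omega), if_neg (by omega)]
      simp
    · rw [h (2 * a + 1) (by omega) (by omega), key, out_off f _ x _ (by omega),
        out_off g _ x _ (by omega), if_neg (by omega),
        if_neg (by omega), if_pos rfl, if_neg (by omega)]
      simp
    · rw [h (2 * b + 1) (by omega) (by omega), key, out_off f _ x _ (by omega),
        out_off g _ x _ (by omega), if_neg (by omega),
        if_neg (by omega), if_neg (by omega), if_pos rfl]
      simp
    · rw [h (2 * b + 2) (by omega) (by omega), key, out_off f _ x _ (by omega),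
        out_off g _ x _ (by omega), if_pos rfl,
        if_pos rfl, if_neg (by omega), if_neg (by omega)]
      simp
  · rintro ⟨hf, hg, h3, h4, h5⟩ v h6 h7
    rw [key]
    by_cases c1 : v < 2 * a + 1
    · rw [out_off g _ x v (by omega), if_neg (by omega),
        if_neg (by omega), if_neg (by omega), if_neg (by omega), ← hf v h6 (by omega)]
      simp
    by_cases c2 : v = 2 * a + 1
    · rw [out_off f _ x _ (by omega), out_off g _ x _ (by omega), if_neg (by omega),
        if_neg (by omega), if_pos c2.symm, if_neg (by omega), c2, h3]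
      simp
    by_cases c3 : v < 2 * b + 1
    · rw [out_off f _ x v (by omega), if_neg (by omega),
        if_neg (by omega), if_neg (by omega), if_neg (by omega), ← hg v (by omega) (by omega)]
      simp
    by_cases c4 : v = 2 * b + 1
    · rw [out_off f _ x _ (by omega), out_off g _ x _ (by omega), if_neg (by omega),
        if_neg (by omega), if_neg (by omega), if_pos c4.symm, c4, h4]
      simp
    have c5 : v = 2 * b + 2 := by omega
    rw [out_off f _ x _ (by omega), out_off g _ x _ (by omega), if_pos c5.symm,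
      if_pos c5.symm, if_neg (by omega), if_neg (by omega), c5, h5]
    simp

theorem sol_mul (f g : Fml) (o a b : ℕ) (ha : a + 1 = o + gates f) (hb : b = a + gates g)
    (x : ℕ → MvPolynomial ℕ ℚ) : Sol (.mul f g) o x ↔
      Sol f o x ∧ Sol g (o + gates f) x ∧ x (2 * a + 1) = x (2 * b) ∧
        x (2 * b + 1) = x (2 * b + 3) ∧ x (2 * b + 2) = x (2 * a) := by
  have h1 := gates_pos f
  have h2 := gates_pos g
  have e1 : o + gates f - 1 = a := by omega
  have e2 : o + gates f + gates g - 1 = b := by omega
  have e3 : 2 * (o + gates f + gates g) = 2 * b + 2 := by omega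
  have key : ∀ v, out (arcsF o (.mul f g)) x v =
      out (arcsF o f) x v + out (arcsF (o + gates f) g) x v +
        ((if 2 * b + 2 = v then x (2 * a) else 0) +
        ((if 2 * a + 1 = v then x (2 * b) else 0) +
          (if 2 * b + 1 = v then x (2 * b + 3) else 0))) := fun v => by
    rw [arcsF, out_append, out_append, e1, e2, e3]
    simp only [out_cons, out_nil, mono_one, one_mul, add_zero]
  have eg : gates (.mul f g) = gates f + gates g + 1 := rfl
  constructor
  · intro h
    refine ⟨fun v h3 h4 => ?_, fun v h3 h4 => ?_, ?_, ?_, ?_⟩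
    · rw [h v h3 (by omega), key, out_off g _ x v (by omega), if_neg (by omega),
        if_neg (by omega), if_neg (by omega)]
      simp
    · rw [h v (by omega) (by omega), key, out_off f _ x v (by omega), if_neg (by omega),
        if_neg (by omega), if_neg (by omega)]
      simp
    · rw [h (2 * a + 1) (by omega) (by omega), key, out_off f _ x _ (by omega),
        out_off g _ x _ (by omega), if_neg (by omega), if_pos rfl, if_neg (by omega)]
      simp
    · rw [h (2 * b + 1) (by omega) (by omega), key, out_off f _ x _ (by omega),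
        out_off g _ x _ (by omega), if_neg (by omega), if_neg (by omega), if_pos rfl]
      simp
    · rw [h (2 * b + 2) (by omega) (by omega), key, out_off f _ x _ (by omega),
        out_off g _ x _ (by omega), if_pos rfl, if_neg (by omega), if_neg (by omega)]
      simp
  · rintro ⟨hf, hg, h3, h4, h5⟩ v h6 h7
    rw [key]
    by_cases c1 : v < 2 * a + 1
    · rw [out_off g _ x v (by omega), if_neg (by omega),
        if_neg (by omega), if_neg (by omega), ← hf v h6 (by omega)]
      simp
    by_cases c2 : v = 2 * a + 1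
    · rw [out_off f _ x _ (by omega), out_off g _ x _ (by omega), if_neg (by omega),
        if_pos c2.symm, if_neg (by omega), c2, h3]
      simp
    by_cases c3 : v < 2 * b + 1
    · rw [out_off f _ x v (by omega), if_neg (by omega),
        if_neg (by omega), if_neg (by omega), ← hg v (by omega) (by omega)]
      simp
    by_cases c4 : v = 2 * b + 1
    · rw [out_off f _ x _ (by omega), out_off g _ x _ (by omega), if_neg (by omega),
        if_neg (by omega), if_pos c4.symm, c4, h4]
      simp
    have c5 : v = 2 * b + 2 := by omega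
    rw [out_off f _ x _ (by omega), out_off g _ x _ (by omega), if_pos c5.symm,
      if_neg (by omega), if_neg (by omega), c5, h5]
    simp

theorem sol_var (i o : ℕ) (x : ℕ → MvPolynomial ℕ ℚ) :
    Sol (.var i) o x ↔ x (2 * o) = MvPolynomial.X i * x (2 * o + 1) := by
  have eg : gates (.var i) = 1 := rfl
  constructor
  · intro h
    rw [h (2 * o) le_rfl (by omega)]
    simp [arcsF, out_cons, out_nil, monoPoly_unit]
  · intro h v h1 h2
    obtain rfl : v = 2 * o := by omega
    rw [h]
    simp [arcsF, out_cons, out_nil, monoPoly_unit]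

theorem sol_cst (c : ℚ) (o : ℕ) (x : ℕ → MvPolynomial ℕ ℚ) :
    Sol (.cst c) o x ↔ x (2 * o) = MvPolynomial.C c * x (2 * o + 1) := by
  have eg : gates (.cst c) = 1 := rfl
  constructor
  · intro h
    rw [h (2 * o) le_rfl (by omega)]
    simp [arcsF, out_cons, out_nil, monoPoly_nil]
  · intro h v h1 h2
    obtain rfl : v = 2 * o := by omega
    rw [h]
    simp [arcsF, out_cons, out_nil, monoPoly_nil]

theorem sol_congr (F : Fml) (o : ℕ) (x y : ℕ → MvPolynomial ℕ ℚ)
    (h : ∀ u, 2 * o ≤ u → u < 2 * (o + gates F) → x u = y u) (hx : Sol F o x) : Sol F o y :=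
  fun v h1 h2 => by rw [← h v h1 (by omega), ← out_block F o x y v h, ← hx v h1 h2]

/-- A solution has source value `poly * sink value`, and vanishes when the sink value does. -/
theorem sol_val (F : Fml) (o a : ℕ) (ha : a + 1 = o + gates F) (x : ℕ → MvPolynomial ℕ ℚ)
    (hx : Sol F o x) : x (2 * a) = F.poly * x (2 * a + 1) ∧
      (x (2 * a + 1) = 0 → ∀ v, 2 * o ≤ v → v < 2 * a + 2 → x v = 0) := by
  induction F generalizing o a with
  | var i =>
    obtain rfl : a = o := by simp [gates] at ha; omega
    have h := (sol_var i a x).1 hx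
    refine ⟨h, fun h0 v h1 h2 => ?_⟩
    by_cases c : v = 2 * a
    · rw [c, h, h0, mul_zero]
    · rwa [show v = 2 * a + 1 by omega]
  | cst c =>
    obtain rfl : a = o := by simp [gates] at ha; omega
    have h := (sol_cst c a x).1 hx
    refine ⟨h, fun h0 v h1 h2 => ?_⟩
    by_cases c : v = 2 * a
    · rw [c, h, h0, mul_zero]
    · rwa [show v = 2 * a + 1 by omega]
  | add f g hf hg =>
    have h1 := gates_pos f
    have h2 := gates_pos g
    have eg : gates (.add f g) = gates f + gates g + 1 := rfl
    obtain ⟨p, hp⟩ : ∃ p, p + 1 = o + gates f := ⟨o + gates f - 1, by omega⟩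
    obtain ⟨b, hb⟩ : ∃ b, b = p + gates g := ⟨_, rfl⟩
    obtain ⟨sf, sg, h3, h4, h5⟩ := (sol_add f g o p b hp hb x).1 hx
    obtain ⟨f1, f2⟩ := hf o p hp sf
    obtain ⟨g1, g2⟩ := hg _ b (by omega) sg
    have e1 : 2 * a = 2 * b + 2 := by omega
    have e2 : 2 * b + 2 + 1 = 2 * b + 3 := rfl
    rw [e1, e2]
    have hv : x (2 * b + 2) = (Fml.add f g).poly * x (2 * b + 3) := by
      rw [h5, f1, g1, h3, h4, Fml.poly, add_mul]
    refine ⟨hv, fun h0 v h6 h7 => ?_⟩
    by_cases c1 : v < 2 * p + 2
    · exact f2 (h3.trans h0) v h6 c1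
    by_cases c2 : v < 2 * b + 2
    · exact g2 (h4.trans h0) v (by omega) c2
    by_cases c3 : v = 2 * b + 2
    · rw [c3, hv, h0, mul_zero]
    · rwa [show v = 2 * b + 3 by omega]
  | mul f g hf hg =>
    have h1 := gates_pos f
    have h2 := gates_pos g
    have eg : gates (.mul f g) = gates f + gates g + 1 := rfl
    obtain ⟨p, hp⟩ : ∃ p, p + 1 = o + gates f := ⟨o + gates f - 1, by omega⟩
    obtain ⟨b, hb⟩ : ∃ b, b = p + gates g := ⟨_, rfl⟩
    obtain ⟨sf, sg, h3, h4, h5⟩ := (sol_mul f g o p b hp hb x).1 hx
    obtain ⟨f1, f2⟩ := hf o p hp sf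
    obtain ⟨g1, g2⟩ := hg _ b (by omega) sg
    have e1 : 2 * a = 2 * b + 2 := by omega
    have e2 : 2 * b + 2 + 1 = 2 * b + 3 := rfl
    rw [e1, e2]
    have hv : x (2 * b + 2) = (Fml.mul f g).poly * x (2 * b + 3) := by
      rw [h5, f1, h3, g1, h4, Fml.poly, mul_assoc]
    refine ⟨hv, fun h0 v h6 h7 => ?_⟩
    have gz := g2 (h4.trans h0)
    by_cases c1 : v < 2 * p + 2
    · exact f2 (h3.trans (gz _ (by omega) (by omega))) v h6 c1
    by_cases c2 : v < 2 * b + 2
    · exact gz v (by omega) c2
    by_cases c3 : v = 2 * b + 2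
    · rw [c3, hv, h0, mul_zero]
    · rwa [show v = 2 * b + 3 by omega]

/-- There is a solution with any prescribed sink value. -/
theorem sol_exists (F : Fml) (o a : ℕ) (ha : a + 1 = o + gates F) (c : MvPolynomial ℕ ℚ) :
    ∃ x : ℕ → MvPolynomial ℕ ℚ, Sol F o x ∧ x (2 * a + 1) = c := by
  induction F generalizing o a c with
  | var i =>
    obtain rfl : a = o := by simp [gates] at ha; omega
    refine ⟨fun v => if v = 2 * a then MvPolynomial.X i * c else c, (sol_var i a _).2 ?_, ?_⟩ <;>
      simp
  | cst d =>
    obtain rfl : a = o := by simp [gates] at ha; omega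
    refine ⟨fun v => if v = 2 * a then MvPolynomial.C d * c else c, (sol_cst d a _).2 ?_, ?_⟩ <;>
      simp
  | add f g hf hg =>
    have h1 := gates_pos f
    have h2 := gates_pos g
    have eg : gates (.add f g) = gates f + gates g + 1 := rfl
    obtain ⟨p, hp⟩ : ∃ p, p + 1 = o + gates f := ⟨o + gates f - 1, by omega⟩
    obtain ⟨b, hb⟩ : ∃ b, b = p + gates g := ⟨_, rfl⟩
    obtain ⟨y, sy, hy⟩ := hg (o + gates f) b (by omega) c
    obtain ⟨z, sz, hz⟩ := hf o p hp c
    refine ⟨fun v => if v < 2 * p + 2 then z v else if v < 2 * b + 2 then y v else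
      if v = 2 * b + 2 then z (2 * p) + y (2 * b) else c, (sol_add f g o p b hp hb _).2
        ⟨sol_congr f o z _ (fun u h3 h4 => ?_) sz, sol_congr g _ y _ (fun u h3 h4 => ?_) sy,
          ?_, ?_, ?_⟩, ?_⟩
    · rw [if_pos (by omega)]
    · rw [if_neg (by omega), if_pos (by omega)]
    · rw [if_pos (by omega), if_neg (by omega), if_neg (by omega), if_neg (by omega), hz]
    · rw [if_neg (by omega), if_pos (by omega), if_neg (by omega), if_neg (by omega),
        if_neg (by omega), hy]
    · rw [if_neg (by omega), if_neg (by omega), if_pos rfl, if_pos (by omega), if_neg (by omega),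
        if_pos (by omega)]
    · beta_reduce
      rw [if_neg (by omega), if_neg (by omega), if_neg (by omega)]
  | mul f g hf hg =>
    have h1 := gates_pos f
    have h2 := gates_pos g
    have eg : gates (.mul f g) = gates f + gates g + 1 := rfl
    obtain ⟨p, hp⟩ : ∃ p, p + 1 = o + gates f := ⟨o + gates f - 1, by omega⟩
    obtain ⟨b, hb⟩ : ∃ b, b = p + gates g := ⟨_, rfl⟩
    obtain ⟨y, sy, hy⟩ := hg (o + gates f) b (by omega) c
    obtain ⟨z, sz, hz⟩ := hf o p hp (y (2 * b))
    refine ⟨fun v => if v < 2 * p + 2 then z v else if v < 2 * b + 2 then y v else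
      if v = 2 * b + 2 then z (2 * p) else c, (sol_mul f g o p b hp hb _).2
        ⟨sol_congr f o z _ (fun u h3 h4 => ?_) sz, sol_congr g _ y _ (fun u h3 h4 => ?_) sy,
          ?_, ?_, ?_⟩, ?_⟩
    · rw [if_pos (by omega)]
    · rw [if_neg (by omega), if_pos (by omega)]
    · rw [if_pos (by omega), if_neg (by omega), if_pos (by omega), hz]
    · rw [if_neg (by omega), if_pos (by omega), if_neg (by omega), if_neg (by omega),
        if_neg (by omega), hy]
    · rw [if_neg (by omega), if_neg (by omega), if_pos rfl, if_pos (by omega)]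
    · beta_reduce
      rw [if_neg (by omega), if_neg (by omega), if_neg (by omega)]

theorem sum_filter (n : ℕ) (L : List Mo) (hL : ∀ m ∈ L, m.2.1 < n) (x : ℕ → MvPolynomial ℕ ℚ)
    (r : ℕ) : ∑ c : Fin n, ((L.filter fun m => decide (m.1 = r) && decide (m.2.1 = c.1)).map
      fun m => monoPoly m.2.2).sum * x c.1 = out L x r := by
  induction L with
  | nil => simp [out_nil]
  | cons m L ih =>
    rw [out_cons, ← ih fun m' hm' => hL m' (List.mem_cons_of_mem _ hm')]
    have hm := hL m List.mem_cons_self
    have e : (if m.1 = r then monoPoly m.2.2 * x m.2.1 else 0) =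
        ∑ c : Fin n, if m.1 = r ∧ m.2.1 = c.1 then monoPoly m.2.2 * x c.1 else 0 := by
      rw [Finset.sum_eq_single (⟨m.2.1, hm⟩ : Fin n)]
      · simp
      · intro c _ hc
        exact if_neg fun h => hc (Fin.ext h.2.symm)
      · simp
    rw [e, ← Finset.sum_add_distrib]
    refine Finset.sum_congr rfl fun c _ => ?_
    by_cases h : m.1 = r ∧ m.2.1 = c.1
    · rw [if_pos h, List.filter_cons_of_pos (by simp [h.1, h.2]), List.map_cons, List.sum_cons,
        add_mul]
    · rw [if_neg h, List.filter_cons_of_neg (by simpa using h), zero_add]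

theorem out_diag (n : ℕ) (x : ℕ → MvPolynomial ℕ ℚ) (r : ℕ) :
    out ((List.range n).map fun v => ((v, v, -1, []) : Mo)) x r = if r < n then -x r else 0 := by
  induction n with
  | zero => simp [out_nil]
  | succ n ih =>
    rw [List.range_succ, List.map_append, out_append, ih, List.map_singleton, out_cons, out_nil,
      monoPoly_nil]
    dsimp only
    by_cases h1 : r < n
    · rw [if_pos h1, if_neg (by omega), if_pos (by omega)]; simp
    · by_cases h2 : n = r
      · rw [if_neg h1, if_pos h2, if_pos (by omega), h2]; simp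
      · rw [if_neg h1, if_neg h2, if_neg (by omega)]; simp

theorem mulVec_emb (F : Fml) (a : ℕ) (ha : a + 1 = gates F) (x : ℕ → MvPolynomial ℕ ℚ)
    (r : Fin (emb F.code).length) :
    (polyMatrix (emb F.code)).mulVec (fun c => x c.1) r =
      if r.1 < 2 * a + 1 then out (arcsF 0 F) x r.1 - x r.1 else x (2 * a) := by
  have hn : (emb F.code).length = 2 * a + 2 := by rw [emb_length, code_length]; omega
  have hr := r.2.trans_eq hn
  have e1 : 2 * gates F - 1 = 2 * a + 1 := by omega
  have e2 : 2 * gates F - 2 = 2 * a := by omega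
  have hall : allM F.code = (2 * a + 1, 2 * a, 1, []) ::
      (((List.range (2 * a + 1)).map fun v => ((v, v, -1, []) : Mo)) ++ arcsF 0 F) := by
    rw [allM, arcsP_code, code_length, e1, e2]
  have hL : ∀ m ∈ allM F.code, m.2.1 < (emb F.code).length := by
    intro m hm
    rw [hall] at hm
    simp only [List.mem_cons, List.mem_append, List.mem_map, List.mem_range] at hm
    rcases hm with rfl | ⟨v, hv, rfl⟩ | hm
    · dsimp only; omega
    · dsimp only; omega
    · have := arcs_block F 0 m hm; omega
  have e : (polyMatrix (emb F.code)).mulVec (fun c => x c.1) r = out (allM F.code) x r.1 := by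
    rw [← sum_filter _ _ hL]
    simp only [Matrix.mulVec, dotProduct, polyMatrix_emb]
  rw [e, hall, out_cons, out_append, out_diag, mono_one]
  dsimp only
  by_cases h : r.1 < 2 * a + 1
  · rw [if_neg (by omega), if_pos h, if_pos h]; ring
  · rw [if_pos (by omega), if_neg h, if_neg h, out_off F 0 x _ (by omega)]; simp

end PK1

open PK1 in
theorem emb_det (F : Fml) : (polyMatrix (emb F.code)).det = 0 ↔ F.poly = 0 := by
  have h0 := gates_pos F
  obtain ⟨a, ha⟩ : ∃ a, a + 1 = gates F := ⟨gates F - 1, by omega⟩
  have hn : (emb F.code).length = 2 * a + 2 := by rw [emb_length, code_length]; omega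
  rw [← Matrix.exists_mulVec_eq_zero_iff]
  constructor
  · rintro ⟨y, hy, hM⟩
    by_contra hF
    obtain ⟨x, hx⟩ : ∃ x : ℕ → MvPolynomial ℕ ℚ, y = fun c => x c.1 :=
      ⟨fun v => if h : v < (emb F.code).length then y ⟨v, h⟩ else 0, by funext c; simp⟩
    subst hx
    have hs : Sol F 0 x := fun v _ h2 => by
      have h := mulVec_emb F a ha x ⟨v, by omega⟩
      rw [hM, if_pos (by dsimp only; omega)] at h
      exact (sub_eq_zero.1 h.symm).symm
    have h1 : x (2 * a) = 0 := by
      have h := mulVec_emb F a ha x ⟨2 * a + 1, by omega⟩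
      rw [hM, if_neg (by dsimp only; omega)] at h
      exact h.symm
    obtain ⟨h2, h3⟩ := sol_val F 0 a (by omega) x hs
    have h4 : x (2 * a + 1) = 0 := (mul_eq_zero.1 (h2.symm.trans h1)).resolve_left hF
    exact hy (funext fun c => h3 h4 c.1 (by omega) (c.2.trans_eq hn))
  · intro hF
    obtain ⟨x, hs, hx⟩ := sol_exists F 0 a (by omega) 1
    refine ⟨fun c => x c.1, fun h => ?_, funext fun r => ?_⟩
    · have h1 := congrFun h ⟨2 * a + 1, by omega⟩
      exact one_ne_zero (hx.symm.trans h1)
    · rw [mulVec_emb F a ha x r]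
      by_cases h : r.1 < 2 * a + 1
      · rw [if_pos h, ← hs r.1 (by omega) (by omega), sub_self]; rfl
      · rw [if_neg h, (sol_val F 0 a (by omega) x hs).1, hF, zero_mul]; rfl

end Pool.Agent.P.MP_08e617_lc.Rk
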