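import Pool.Agent.P.MP_08e617_lc.RkV

/-! The matrix of a formula has bounded branch-width. -/

namespace Pool.Agent.P.MP_08e617_lc.Rk

open Pool.Agent.Lib.helper21 Module

namespace PK2

open Finset

section

variable {n : ℕ} {Q : Finset (Fin n × Fin n)} {w : ℕ}

/-- Recursive splittings; trivial splits are allowed. -/
inductive Dec (Q : Finset (Fin n × Fin n)) (w : ℕ) : Finset (Fin n × Fin n) → Prop
  | small (P : Finset (Fin n × Fin n)) : cutw Q P ≤ w → P.card ≤ 1 → Dec Q w P
  | join (A B : Finset (Fin n × Fin n)) : cutw Q (A ∪ B) ≤ w → Disjoint A B → Dec Q w A →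
      Dec Q w B → Dec Q w (A ∪ B)

theorem Dec.cut {P : Finset (Fin n × Fin n)} (h : Dec Q w P) : cutw Q P ≤ w := by
  cases h with
  | small _ h _ => exact h
  | join _ _ h _ _ _ => exact h

theorem Dec.split {P : Finset (Fin n × Fin n)} (h : Dec Q w P) (h2 : 2 ≤ P.card) :
    ∃ P', Dec Q w P' ∧ P' ⊆ P ∧ P'.Nonempty ∧ P' ≠ P ∧ Dec Q w (P \ P') := by
  induction h with
  | small P _ h => omega
  | join A B _ hd hA hB ihA ihB =>
    rcases A.eq_empty_or_nonempty with rfl | hA'
    · rw [empty_union] at h2 ⊢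
      exact ihB h2
    rcases B.eq_empty_or_nonempty with rfl | ⟨x, hx⟩
    · rw [union_empty] at h2 ⊢
      exact ihA h2
    refine ⟨A, hA, subset_union_left, hA', fun e => ?_, ?_⟩
    · exact disjoint_left.1 hd (e ▸ mem_union_right _ hx) hx
    · rwa [union_sdiff_cancel_left hd]

theorem Dec.branch {M : Matrix (Fin n) (Fin n) (MvPolynomial ℕ ℚ)} (h : Dec (supp M) w (supp M)) :
    BranchLE M w :=
  ⟨{P | Dec (supp M) w P}, h, fun _ hP => ⟨Dec.cut hP, fun h2 => Dec.split hP h2⟩⟩

theorem inter_union (A B : Finset (Fin n × Fin n)) (f : Fin n × Fin n → Fin n) :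
    ((A ∪ B).image f ∩ (Q \ (A ∪ B)).image f).card ≤
      (A.image f ∩ (Q \ A).image f).card + (B.image f ∩ (Q \ B).image f).card := by
  refine le_trans (card_le_card fun r hr => ?_) (card_union_le _ _)
  simp only [mem_inter, mem_image, mem_union, mem_sdiff, not_or] at hr ⊢
  obtain ⟨⟨x, hx | hx, e⟩, y, ⟨h1, h2, h3⟩, e'⟩ := hr
  · exact .inl ⟨⟨x, hx, e⟩, y, ⟨h1, h2⟩, e'⟩
  · exact .inr ⟨⟨x, hx, e⟩, y, ⟨h1, h3⟩, e'⟩

theorem cutw_union (A B : Finset (Fin n × Fin n)) : cutw Q (A ∪ B) ≤ cutw Q A + cutw Q B := by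
  have h1 := inter_union (Q := Q) A B Prod.fst
  have h2 := inter_union (Q := Q) A B Prod.snd
  unfold cutw
  omega

theorem cutw_le (P : Finset (Fin n × Fin n)) : cutw Q P ≤ 2 * P.card := by
  have h : ∀ f : Fin n × Fin n → Fin n, (P.image f ∩ (Q \ P).image f).card ≤ P.card := fun f =>
    (card_le_card inter_subset_left).trans card_image_le
  have h1 := h Prod.fst
  have h2 := h Prod.snd
  unfold cutw
  omega

/-- A few more positions are added one at a time. -/
theorem Dec.add {A : Finset (Fin n × Fin n)} (h : Dec Q w A) (R : Finset (Fin n × Fin n))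
    (hd : Disjoint A R) (hw : cutw Q A + 2 * R.card ≤ w) : Dec Q w (A ∪ R) := by
  induction R using Finset.induction_on with
  | empty => rwa [union_empty]
  | insert x R hx ih =>
    rw [card_insert_of_notMem hx] at hw
    rw [disjoint_insert_right] at hd
    have e : A ∪ insert x R = (A ∪ R) ∪ {x} := by
      ext y
      simp only [mem_union, mem_insert, mem_singleton]
      tauto
    have h1 := cutw_union (Q := Q) (A ∪ R) {x}
    have h2 := cutw_union (Q := Q) A R
    have h3 := cutw_le (Q := Q) R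
    have h4 := cutw_le (Q := Q) {x}
    rw [card_singleton] at h4
    rw [e]
    refine .join _ _ (by omega) ?_ (ih hd.2 (by omega)) (.small _ (by omega) (by simp))
    simp [hd.1, hx]

theorem card_le_grid {P : Finset (Fin n × Fin n)} (R C : Finset ℕ)
    (h : ∀ x ∈ P, x.1.1 ∈ R ∧ x.2.1 ∈ C) : P.card ≤ R.card * C.card := by
  rw [← card_product]
  refine card_le_card_of_injOn (fun x => (x.1.1, x.2.1)) (fun x hx => ?_) fun x _ y _ e => ?_
  · exact mem_coe.2 (mem_product.2 (h x hx))
  · simp only [Prod.mk.injEq] at e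
    exact Prod.ext (Fin.ext e.1) (Fin.ext e.2)

/-- The positions inside the block `[a, b)`. -/
def box (Q : Finset (Fin n × Fin n)) (a b : ℕ) : Finset (Fin n × Fin n) :=
  Q.filter fun x => (a ≤ x.1.1 ∧ x.1.1 < b) ∧ a ≤ x.2.1 ∧ x.2.1 < b

theorem mem_box {a b : ℕ} {x : Fin n × Fin n} :
    x ∈ box Q a b ↔ x ∈ Q ∧ (a ≤ x.1.1 ∧ x.1.1 < b) ∧ a ≤ x.2.1 ∧ x.2.1 < b := mem_filter

/-- Only the last row and the column before the last one connect the block with the rest. -/
def Tight (Q : Finset (Fin n × Fin n)) (a b : ℕ) : Prop :=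
  ∀ x ∈ Q, x.1.1 = x.2.1 ∨ ((a ≤ x.1.1 ∧ x.1.1 < b) ∧ a ≤ x.2.1 ∧ x.2.1 < b) ∨
    ((x.1.1 < a ∨ b ≤ x.1.1 + 1) ∧ (x.2.1 < a ∨ b ≤ x.2.1 ∨ x.2.1 + 2 = b))

theorem card_val_le {S : Finset (Fin n)} (t : ℕ) (h : ∀ r ∈ S, r.1 = t) : S.card ≤ 1 :=
  card_le_one.2 fun r hr r' hr' => Fin.ext ((h r hr).trans (h r' hr').symm)

theorem Tight.cut {a b : ℕ} (h : Tight Q a b) : cutw Q (box Q a b) ≤ 2 := by
  refine add_le_add (card_val_le (b - 1) fun r hr => ?_) (card_val_le (b - 2) fun r hr => ?_)
  · simp only [mem_inter, mem_image, mem_sdiff, mem_box] at hr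
    obtain ⟨⟨x, ⟨-, hx⟩, rfl⟩, y, ⟨h1, h2⟩, e⟩ := hr
    have h3 := h y h1
    have h4 := congrArg Fin.val e
    simp only [h1, true_and] at h2
    omega
  · simp only [mem_inter, mem_image, mem_sdiff, mem_box] at hr
    obtain ⟨⟨x, ⟨-, hx⟩, rfl⟩, y, ⟨h1, h2⟩, e⟩ := hr
    have h3 := h y h1
    have h4 := congrArg Fin.val e
    simp only [h1, true_and] at h2
    omega

theorem dec_leaf (a : ℕ) : Dec Q 36 (box Q a (a + 2)) := by
  have h1 : (box Q a (a + 2)).card ≤ 4 := by
    refine (card_le_grid {a, a + 1} {a, a + 1} fun x hx => ?_).trans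
      (Nat.mul_le_mul card_le_two card_le_two)
    rw [mem_box] at hx
    simp only [mem_insert, mem_singleton]
    omega
  have h2 := cutw_le (Q := Q) ∅
  rw [card_empty] at h2
  have h3 := Dec.add (.small ∅ (by omega) (by simp) : Dec Q 36 ∅) _ (disjoint_empty_left _)
    (show _ + 2 * (box Q a (a + 2)).card ≤ _ by omega)
  rwa [empty_union] at h3

theorem dec_node {a m b : ℕ} (ham : a ≤ m) (hmb : m ≤ b) (h1 : Tight Q a m) (h2 : Tight Q m b)
    (d1 : Dec Q 36 (box Q a m)) (d2 : Dec Q 36 (box Q m b)) : Dec Q 36 (box Q a (b + 2)) := by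
  have c1 := h1.cut
  have c2 := h2.cut
  have c3 := cutw_union (Q := Q) (box Q a m) (box Q m b)
  have d3 : Dec Q 36 (box Q a m ∪ box Q m b) := by
    refine .join _ _ (by omega) (disjoint_left.2 fun x hx hx' => ?_) d1 d2
    rw [mem_box] at hx hx'
    omega
  have c4 : (box Q a (b + 2) \ (box Q a m ∪ box Q m b)).card ≤ 16 := by
    refine (card_le_grid {m - 1, b - 1, b, b + 1} {m - 2, b - 2, b, b + 1} fun x hx => ?_).trans
      (Nat.mul_le_mul card_le_four card_le_four)
    simp only [mem_sdiff, mem_union, mem_box, not_or] at hx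
    obtain ⟨⟨hQ, hx⟩, hx'⟩ := hx
    have h3 := h1 x hQ
    have h4 := h2 x hQ
    simp only [hQ, true_and] at hx'
    simp only [mem_insert, mem_singleton]
    omega
  have d4 := d3.add _ disjoint_sdiff (show _ + 2 * (box Q a (b + 2) \ _).card ≤ _ by omega)
  rwa [union_sdiff_of_subset] at d4
  intro x hx
  simp only [mem_union, mem_box] at hx ⊢
  rcases hx with hx | hx <;> exact ⟨hx.1, by omega⟩

end

theorem arc_block (G : Fml) : ∀ o, ∀ m ∈ arcsF o G,
    (2 * o ≤ m.1 ∧ m.1 < 2 * (o + gates G)) ∧ 2 * o ≤ m.2.1 ∧ m.2.1 < 2 * (o + gates G) := by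
  induction G with
  | var i =>
    intro o m hm
    simp only [arcsF, List.mem_singleton] at hm
    subst hm
    simp only [gates]
    omega
  | cst c =>
    intro o m hm
    simp only [arcsF, List.mem_singleton] at hm
    subst hm
    simp only [gates]
    omega
  | add f g hf hg =>
    intro o m hm
    have := gates_pos f
    have := gates_pos g
    simp only [arcsF, List.mem_append, List.mem_cons, List.not_mem_nil, or_false] at hm
    simp only [gates]
    rcases hm with (hm | hm) | rfl | rfl | rfl | rfl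
    · have := hf o m hm
      omega
    · have := hg _ m hm
      omega
    all_goals
      dsimp only
      omega
  | mul f g hf hg =>
    intro o m hm
    have := gates_pos f
    have := gates_pos g
    simp only [arcsF, List.mem_append, List.mem_cons, List.not_mem_nil, or_false] at hm
    simp only [gates]
    rcases hm with (hm | hm) | rfl | rfl | rfl
    · have := hf o m hm
      omega
    · have := hg _ m hm
      omega
    all_goals
      dsimp only
      omega

variable {n : ℕ} {Q : Finset (Fin n × Fin n)}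

/-- Every position is diagonal, an arc of `G`, or external to the block of `G`. -/
def Legal (Q : Finset (Fin n × Fin n)) (o : ℕ) (G : Fml) : Prop :=
  ∀ x ∈ Q, x.1.1 = x.2.1 ∨ (∃ m ∈ arcsF o G, m.1 = x.1.1 ∧ m.2.1 = x.2.1) ∨
    ((x.1.1 < 2 * o ∨ 2 * (o + gates G) ≤ x.1.1 + 1) ∧
      (x.2.1 < 2 * o ∨ 2 * (o + gates G) ≤ x.2.1 ∨ x.2.1 + 2 = 2 * (o + gates G)))

theorem Legal.tight {o : ℕ} {G : Fml} (h : Legal Q o G) : Tight Q (2 * o) (2 * (o + gates G)) :=
  fun x hx => (h x hx).imp_right fun h => h.imp_left fun ⟨m, hm, e1, e2⟩ =>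
    e1 ▸ e2 ▸ arc_block G o m hm

theorem Legal.sub {o : ℕ} {G f g : Fml} (h : Legal Q o G) (hG : G = .add f g ∨ G = .mul f g) :
    Legal Q o f ∧ Legal Q (o + gates f) g := by
  have hf := gates_pos f
  have hg := gates_pos g
  have e : gates G = gates f + gates g + 1 := by rcases hG with rfl | rfl <;> rfl
  have key : ∀ m ∈ arcsF o G, m ∈ arcsF o f ∨ m ∈ arcsF (o + gates f) g ∨
      ((m.1 + 1 = 2 * (o + gates f) ∨ 2 * (o + gates f + gates g) ≤ m.1 + 1) ∧
        (m.2.1 + 2 = 2 * (o + gates f) ∨ m.2.1 + 2 = 2 * (o + gates f + gates g) ∨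
          2 * (o + gates f + gates g) ≤ m.2.1)) := by
    intro m hm
    rcases hG with rfl | rfl
    · simp only [arcsF, List.mem_append, List.mem_cons, List.not_mem_nil, or_false] at hm
      rcases hm with (hm | hm) | rfl | rfl | rfl | rfl
      · exact .inl hm
      · exact .inr (.inl hm)
      all_goals
        refine .inr (.inr ?_)
        dsimp only
        omega
    · simp only [arcsF, List.mem_append, List.mem_cons, List.not_mem_nil, or_false] at hm
      rcases hm with (hm | hm) | rfl | rfl | rfl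
      · exact .inl hm
      · exact .inr (.inl hm)
      all_goals
        refine .inr (.inr ?_)
        dsimp only
        omega
  constructor
  · intro x hx
    rcases h x hx with h1 | ⟨m, hm, e1, e2⟩ | h1
    · exact .inl h1
    · rcases key m hm with h2 | h2 | h2
      · exact .inr (.inl ⟨m, h2, e1, e2⟩)
      · have := arc_block g _ m h2
        exact .inr (.inr (by omega))
      · exact .inr (.inr (by omega))
    · exact .inr (.inr (by omega))
  · intro x hx
    rcases h x hx with h1 | ⟨m, hm, e1, e2⟩ | h1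
    · exact .inl h1
    · rcases key m hm with h2 | h2 | h2
      · have := arc_block f _ m h2
        exact .inr (.inr (by omega))
      · exact .inr (.inl ⟨m, h2, e1, e2⟩)
      · exact .inr (.inr (by omega))
    · exact .inr (.inr (by omega))

theorem dec_fml (G : Fml) : ∀ o, Legal Q o G → Dec Q 36 (box Q (2 * o) (2 * (o + gates G))) := by
  induction G with
  | var i => exact fun o _ => dec_leaf (2 * o)
  | cst c => exact fun o _ => dec_leaf (2 * o)
  | add f g hf hg =>
    intro o h
    obtain ⟨h1, h2⟩ := h.sub (.inl rfl)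
    rw [show 2 * (o + gates (.add f g)) = 2 * (o + gates f + gates g) + 2 by
      simp only [gates]; omega]
    exact dec_node (by omega) (by omega) h1.tight h2.tight (hf _ h1) (hg _ h2)
  | mul f g hf hg =>
    intro o h
    obtain ⟨h1, h2⟩ := h.sub (.inr rfl)
    rw [show 2 * (o + gates (.mul f g)) = 2 * (o + gates f + gates g) + 2 by
      simp only [gates]; omega]
    exact dec_node (by omega) (by omega) h1.tight h2.tight (hf _ h1) (hg _ h2)

theorem legal_root (F : Fml) : Legal (supp (polyMatrix (emb F.code))) 0 F := by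
  intro x hx
  simp only [supp, mem_filter, mem_univ, true_and] at hx
  rw [polyMatrix_emb] at hx
  obtain ⟨m, hm⟩ := List.exists_mem_of_ne_nil ((allM F.code).filter fun m =>
      decide (m.1 = x.1.1) && decide (m.2.1 = x.2.1)) fun e => hx (by rw [e]; rfl)
  simp only [List.mem_filter, Bool.and_eq_true, decide_eq_true_eq, allM, List.mem_cons,
    List.mem_append, List.mem_map, arcsP_code, code_length] at hm
  have := gates_pos F
  obtain ⟨rfl | ⟨v, -, rfl⟩ | hm, e1, e2⟩ := hm
  · dsimp only at e1 e2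
    exact .inr (.inr (by omega))
  · exact .inl (e1.symm.trans e2)
  · exact .inr (.inl ⟨m, hm, e1, e2⟩)

end PK2

theorem emb_branch : ∃ w, ∀ F : Fml, BranchLE (polyMatrix (emb F.code)) w := by
  refine ⟨36, fun F => PK2.Dec.branch ?_⟩
  have h := PK2.dec_fml F 0 (PK2.legal_root F)
  rwa [PK2.box, Finset.filter_true_of_mem] at h
  intro x _
  have h1 := x.1.2.trans_eq (emb_length _)
  have h2 := x.2.2.trans_eq (emb_length _)
  rw [code_length] at h1 h2
  omega

end Pool.Agent.P.MP_08e617_lc.Rk
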