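import Pool.Agent.P.MP_08e617_lc.RkV

/-! The matrix of a formula: number of reads, running time and coding. -/

namespace Pool.Agent.P.MP_08e617_lc.Rk

open Pool.Agent.Lib.helper21 Module

namespace PK3

theorem sum_filter {α β : Type} [AddCommMonoid β] (L : List α) (q : α → Bool) (f : α → β) :
    ((L.filter q).map f).sum = (L.map fun x => if q x = true then f x else 0).sum := by
  induction L with
  | nil => rfl
  | cons x L ih => by_cases h : q x = true <;> simp [h, ih]

theorem arcs_range (F : Fml) (o : ℕ) :
    ∀ m ∈ arcsF o F, m.1 < 2 * (o + gates F) ∧ m.2.1 < 2 * (o + gates F) := by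
  induction F generalizing o with
  | var i => simp [arcsF, gates]; omega
  | cst c => simp [arcsF, gates]; omega
  | add f g hf hg =>
    intro m hm
    simp only [arcsF, List.mem_append, List.mem_cons, List.not_mem_nil, or_false] at hm
    rw [gates]
    rcases hm with (hm | hm) | rfl | rfl | rfl | rfl
    · have := hf o m hm; omega
    · have := hg _ m hm; omega
    all_goals dsimp only; omega
  | mul f g hf hg =>
    intro m hm
    simp only [arcsF, List.mem_append, List.mem_cons, List.not_mem_nil, or_false] at hm
    rw [gates]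
    rcases hm with (hm | hm) | rfl | rfl | rfl
    · have := hf o m hm; omega
    · have := hg _ m hm; omega
    all_goals dsimp only; omega

theorem all_range (F : Fml) : ∀ m ∈ allM F.code,
    m.1 < (emb F.code).length ∧ m.2.1 < (emb F.code).length := by
  intro m hm
  have h0 := gates_pos F
  rw [emb_length, code_length]
  simp only [allM, arcsP_code, code_length, List.mem_cons, List.mem_append, List.mem_map,
    List.mem_range] at hm
  rcases hm with rfl | ⟨v, hv, rfl⟩ | hm
  · dsimp only; omega
  · dsimp only; omega
  · simpa using arcs_range F 0 m hm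

theorem card_C (c : ℚ) : (MvPolynomial.C c : MvPolynomial ℕ ℚ).support.card ≤ 1 :=
  (Finset.card_le_card MvPolynomial.support_monomial_subset).trans (Finset.card_singleton _).le

theorem card_X (i : ℕ) : (MvPolynomial.X i : MvPolynomial ℕ ℚ).support.card ≤ 1 :=
  (Finset.card_le_card MvPolynomial.support_monomial_subset).trans (Finset.card_singleton _).le

theorem arcs_mono (F : Fml) (o : ℕ) : ∀ m ∈ arcsF o F, (monoPoly m.2.2).support.card ≤ 1 := by
  induction F generalizing o with
  | var i => simpa [arcsF, monoPoly_unit] using card_X i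
  | cst c => simpa [arcsF, monoPoly_nil] using card_C c
  | add f g hf hg =>
    intro m hm
    simp only [arcsF, List.mem_append, List.mem_cons, List.not_mem_nil, or_false] at hm
    rcases hm with (hm | hm) | rfl | rfl | rfl | rfl
    · exact hf o m hm
    · exact hg _ m hm
    all_goals exact (monoPoly_nil 1).symm ▸ card_C 1
  | mul f g hf hg =>
    intro m hm
    simp only [arcsF, List.mem_append, List.mem_cons, List.not_mem_nil, or_false] at hm
    rcases hm with (hm | hm) | rfl | rfl | rfl
    · exact hf o m hm
    · exact hg _ m hm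
    all_goals exact (monoPoly_nil 1).symm ▸ card_C 1

theorem all_mono (F : Fml) : ∀ m ∈ allM F.code, (monoPoly m.2.2).support.card ≤ 1 := by
  intro m hm
  simp only [allM, arcsP_code, List.mem_cons, List.mem_append, List.mem_map] at hm
  rcases hm with rfl | ⟨v, -, rfl⟩ | hm
  · exact (monoPoly_nil 1).symm ▸ card_C 1
  · exact (monoPoly_nil (-1)).symm ▸ card_C (-1)
  · exact arcs_mono F 0 m hm

/-- The number of monomials that contain the variable `x`. -/
noncomputable def occ (x : ℕ) (L : List Mo) : ℕ :=
  (L.map fun m => if x ∈ (monoPoly m.2.2).vars then 1 else 0).sum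

theorem occ_append (x : ℕ) (L M : List Mo) : occ x (L ++ M) = occ x L + occ x M := by
  simp [occ]

theorem occ_nil (x : ℕ) (L : List Mo) (h : ∀ m ∈ L, m.2.2.2 = []) : occ x L = 0 := by
  refine List.sum_eq_zero fun y hy => ?_
  obtain ⟨⟨a, b, c, l⟩, hm, rfl⟩ := List.mem_map.1 hy
  obtain rfl : l = [] := h _ hm
  simp [monoPoly_nil]

theorem occ_arcs (x : ℕ) (F : Fml) (o : ℕ) : occ x (arcsF o F) = F.reads x := by
  induction F generalizing o with
  | var i => simp [arcsF, occ, monoPoly_unit, Fml.reads, eq_comm]
  | cst c => exact occ_nil x _ (by simp [arcsF])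
  | add f g hf hg =>
    rw [arcsF, occ_append, occ_append, hf, hg, occ_nil x _ (by simp), Fml.reads, add_zero]
  | mul f g hf hg =>
    rw [arcsF, occ_append, occ_append, hf, hg, occ_nil x _ (by simp), Fml.reads, add_zero]

theorem occ_all (x : ℕ) (F : Fml) : occ x (allM F.code) = F.reads x := by
  rw [allM, ← List.cons_append, occ_append, arcsP_code, occ_arcs, occ_nil x _ ?_, zero_add]
  intro m hm
  simp only [List.mem_cons, List.mem_map] at hm
  rcases hm with rfl | ⟨v, -, rfl⟩ <;> rfl

@[fun_prop] theorem pt_unitL {α : Type} [Enc α] {i : α → ℕ} (hi : PT i) :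
    PT fun a => unitL (i a) := by
  unfold unitL
  fun_prop

@[fun_prop] theorem pt_arcsG {α : Type} [Enc α] {j : α → ℕ} {g : α → ℚ × List ℕ} (hj : PT j)
    (hg : PT g) : PT fun a => arcsG (j a) (g a) := by
  unfold arcsG
  fun_prop

@[fun_prop] theorem pt_allM {α : Type} [Enc α] {P : α → List (ℚ × List ℕ)} (hP : PT P) :
    PT fun a => allM (P a) := by
  unfold allM arcsP
  fun_prop

end PK3

open PK3

theorem emb_read (F : Fml) (k : ℕ) (h : ∀ i, F.reads i ≤ k) :
    ReadLE (polyMatrix (emb F.code)) k := by
  refine ⟨(allM F.code).length, fun j => (⟨(allM F.code)[j].1, (all_range F _ (by simp)).1⟩,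
    ⟨(allM F.code)[j].2.1, (all_range F _ (by simp)).2⟩), fun j => monoPoly (allM F.code)[j].2.2,
    fun r c => ?_, fun j => Or.inr (all_mono F _ (by simp)), fun x => ?_⟩
  · rw [polyMatrix_emb, sum_filter, Finset.sum_filter, ← Fin.sum_univ_fun_getElem]
    refine Finset.sum_congr rfl fun j _ => if_congr ?_ rfl rfl
    simp [Prod.ext_iff, Fin.ext_iff]
  · refine le_trans (le_of_eq ?_) ((occ_all x F).trans_le (h x))
    rw [Finset.card_filter, occ, ← Fin.sum_univ_fun_getElem]
    rfl

theorem pt_emb : PT emb := by
  unfold emb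
  fun_prop

theorem encCode_eq : encList encMono = (Enc.enc : List (ℚ × List ℕ) → List Bool) := by
  have h : encMono = (Enc.enc : ℚ × List ℕ → List Bool) := by
    funext m
    unfold encMono
    rw [encList_eq]
    rfl
  rw [encList_eq, h]
  rfl

end Pool.Agent.P.MP_08e617_lc.Rk
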