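import Pool.Agent.P.MP_08e617_lc.RkW

/-! The big matrix of a list of formulas is singular exactly when the small matrix is. -/

namespace Pool.Agent.P.MP_08e617_lc.Rk

open Pool.Agent.Lib.helper21 Module

namespace PL1

/-- The weight of an arc. -/
noncomputable def wt (p : List (ℚ × List ℕ)) : MvPolynomial ℕ ℚ := (p.map monoPoly).sum

/-- The weighted sum of `x` over the heads of the arcs leaving `v`. -/
noncomputable def out (L : List Ar) (x : ℕ → MvPolynomial ℕ ℚ) (v : ℕ) : MvPolynomial ℕ ℚ :=
  (L.map fun m => if m.1 = v then wt m.2.2 * x m.2.1 else 0).sum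

theorem out_nil (x : ℕ → MvPolynomial ℕ ℚ) (v : ℕ) : out [] x v = 0 := rfl

theorem out_cons (m : Ar) (L : List Ar) (x : ℕ → MvPolynomial ℕ ℚ) (v : ℕ) :
    out (m :: L) x v = (if m.1 = v then wt m.2.2 * x m.2.1 else 0) + out L x v := by
  simp [out]

theorem out_append (L L' : List Ar) (x : ℕ → MvPolynomial ℕ ℚ) (v : ℕ) :
    out (L ++ L') x v = out L x v + out L' x v := by
  simp [out]

theorem out_congr (L : List Ar) (x y : ℕ → MvPolynomial ℕ ℚ) (v : ℕ)
    (h : ∀ m ∈ L, x m.2.1 = y m.2.1) : out L x v = out L y v := by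
  induction L with
  | nil => rfl
  | cons m L ih =>
    rw [out_cons, out_cons, h m List.mem_cons_self,
      ih fun m' hm' => h m' (List.mem_cons_of_mem _ hm')]

theorem out_zero (L : List Ar) (x : ℕ → MvPolynomial ℕ ℚ) (v : ℕ) (h : ∀ m ∈ L, m.1 ≠ v) :
    out L x v = 0 := by
  induction L with
  | nil => rfl
  | cons m L ih =>
    rw [out_cons, if_neg (h m List.mem_cons_self),
      ih fun m' hm' => h m' (List.mem_cons_of_mem _ hm'), add_zero]

theorem arcs_block (F : Frm) (o : ℕ) : ∀ m ∈ arcF o F,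
    2 * o ≤ m.1 ∧ m.1 + 1 < 2 * (o + gts F) ∧ 2 * o ≤ m.2.1 ∧ m.2.1 < 2 * (o + gts F) := by
  induction F generalizing o with
  | leaf p => simp [arcF, gts]; omega
  | add f g hf hg =>
    intro m hm
    have h1 := gts_pos f
    have h2 := gts_pos g
    simp only [arcF, List.mem_append, List.mem_cons, List.not_mem_nil, or_false] at hm
    rw [gts]
    rcases hm with (hm | hm) | rfl | rfl | rfl | rfl
    · have := hf o m hm; omega
    · have := hg _ m hm; omega
    all_goals dsimp only; omega
  | mul f g hf hg =>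
    intro m hm
    have h1 := gts_pos f
    have h2 := gts_pos g
    simp only [arcF, List.mem_append, List.mem_cons, List.not_mem_nil, or_false] at hm
    rw [gts]
    rcases hm with (hm | hm) | rfl | rfl | rfl
    · have := hf o m hm; omega
    · have := hg _ m hm; omega
    all_goals dsimp only; omega

theorem out_off (F : Frm) (o : ℕ) (x : ℕ → MvPolynomial ℕ ℚ) (v : ℕ)
    (h : v < 2 * o ∨ 2 * (o + gts F) ≤ v + 1) : out (arcF o F) x v = 0 :=
  out_zero _ _ _ fun m hm => by have := arcs_block F o m hm; omega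

theorem out_block (F : Frm) (o : ℕ) (x y : ℕ → MvPolynomial ℕ ℚ) (v : ℕ)
    (h : ∀ u, 2 * o ≤ u → u < 2 * (o + gts F) → x u = y u) :
    out (arcF o F) x v = out (arcF o F) y v :=
  out_congr _ _ _ _ fun m hm => by
    have := arcs_block F o m hm
    exact h _ (by omega) (by omega)

/-- The equations of the block of `F` placed at `o`. -/
def Sol (F : Frm) (o : ℕ) (x : ℕ → MvPolynomial ℕ ℚ) : Prop :=
  ∀ v, 2 * o ≤ v → v + 1 < 2 * (o + gts F) → x v = out (arcF o F) x v

theorem mono_one : wt [(1, [])] = 1 := by simp [wt, monoPoly_cst]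

theorem sol_add (f g : Frm) (o a b : ℕ) (ha : a + 1 = o + gts f) (hb : b = a + gts g)
    (x : ℕ → MvPolynomial ℕ ℚ) : Sol (.add f g) o x ↔
      Sol f o x ∧ Sol g (o + gts f) x ∧ x (2 * a + 1) = x (2 * b + 3) ∧
        x (2 * b + 1) = x (2 * b + 3) ∧ x (2 * b + 2) = x (2 * a) + x (2 * b) := by
  have h1 := gts_pos f
  have h2 := gts_pos g
  have e1 : o + gts f - 1 = a := by omega
  have e2 : o + gts f + gts g - 1 = b := by omega
  have e3 : 2 * (o + gts f + gts g) = 2 * b + 2 := by omega
  have key : ∀ v, out (arcF o (.add f g)) x v =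
      out (arcF o f) x v + out (arcF (o + gts f) g) x v +
        ((if 2 * b + 2 = v then x (2 * a) else 0) + ((if 2 * b + 2 = v then x (2 * b) else 0) +
        ((if 2 * a + 1 = v then x (2 * b + 3) else 0) +
          (if 2 * b + 1 = v then x (2 * b + 3) else 0)))) := fun v => by
    rw [arcF, out_append, out_append, e1, e2, e3]
    simp only [out_cons, out_nil, mono_one, one_mul, add_zero]
  have eg : gts (.add f g) = gts f + gts g + 1 := rfl
  constructor
  · intro h
    refine ⟨fun v h3 h4 => ?_, fun v h3 h4 => ?_, ?_, ?_, ?_⟩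
    · rw [h v h3 (by omega), key, out_off g _ x v (by omega), if_neg (by omega),
        if_neg (by omega), if_neg (by omega), if_neg (by omega)]
      simp
    · rw [h v (by omega) (by omega), key, out_off f _ x v (by omega), if_neg (by omega),
        if_neg (by omega), if_neg (by omega), if_neg (by omega)]
      simp
    · rw [h (2 * a + 1) (by omega) (by omega), key, out_off f _ x _ (by omega),
        out_off g _ x _ (by omega), if_neg (by omega),
        if_neg (by omega), if_pos rfl, if_neg (by omega)]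
      simp
    · rw [h (2 * b + 1) (by omega) (by omega), key, out_off f _ x _ (by omega),
        out_off g _ x _ (by omega), if_neg (by omega),
        if_neg (by omega), if_neg (by omega), if_pos rfl]
      simp
    · rw [h (2 * b + 2) (by omega) (by omega), key, out_off f _ x _ (by omega),
        out_off g _ x _ (by omega), if_pos rfl,
        if_pos rfl, if_neg (by omega), if_neg (by omega)]
      simp
  · rintro ⟨hf, hg, h3, h4, h5⟩ v h6 h7
    rw [key]
    by_cases c1 : v < 2 * a + 1
    · rw [out_off g _ x v (by omega), if_neg (by omega),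
        if_neg (by omega), if_neg (by omega), if_neg (by omega), ← hf v h6 (by omega)]
      simp
    by_cases c2 : v = 2 * a + 1
    · rw [out_off f _ x _ (by omega), out_off g _ x _ (by omega), if_neg (by omega),
        if_neg (by omega), if_pos c2.symm, if_neg (by omega), c2, h3]
      simp
    by_cases c3 : v < 2 * b + 1
    · rw [out_off f _ x v (by omega), if_neg (by omega),
        if_neg (by omega), if_neg (by omega), if_neg (by omega), ← hg v (by omega) (by omega)]
      simp
    by_cases c4 : v = 2 * b + 1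
    · rw [out_off f _ x _ (by omega), out_off g _ x _ (by omega), if_neg (by omega),
        if_neg (by omega), if_neg (by omega), if_pos c4.symm, c4, h4]
      simp
    have c5 : v = 2 * b + 2 := by omega
    rw [out_off f _ x _ (by omega), out_off g _ x _ (by omega), if_pos c5.symm,
      if_pos c5.symm, if_neg (by omega), if_neg (by omega), c5, h5]
    simp

theorem sol_mul (f g : Frm) (o a b : ℕ) (ha : a + 1 = o + gts f) (hb : b = a + gts g)
    (x : ℕ → MvPolynomial ℕ ℚ) : Sol (.mul f g) o x ↔
      Sol f o x ∧ Sol g (o + gts f) x ∧ x (2 * a + 1) = x (2 * b) ∧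
        x (2 * b + 1) = x (2 * b + 3) ∧ x (2 * b + 2) = x (2 * a) := by
  have h1 := gts_pos f
  have h2 := gts_pos g
  have e1 : o + gts f - 1 = a := by omega
  have e2 : o + gts f + gts g - 1 = b := by omega
  have e3 : 2 * (o + gts f + gts g) = 2 * b + 2 := by omega
  have key : ∀ v, out (arcF o (.mul f g)) x v =
      out (arcF o f) x v + out (arcF (o + gts f) g) x v +
        ((if 2 * b + 2 = v then x (2 * a) else 0) +
        ((if 2 * a + 1 = v then x (2 * b) else 0) +
          (if 2 * b + 1 = v then x (2 * b + 3) else 0))) := fun v => by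
    rw [arcF, out_append, out_append, e1, e2, e3]
    simp only [out_cons, out_nil, mono_one, one_mul, add_zero]
  have eg : gts (.mul f g) = gts f + gts g + 1 := rfl
  constructor
  · intro h
    refine ⟨fun v h3 h4 => ?_, fun v h3 h4 => ?_, ?_, ?_, ?_⟩
    · rw [h v h3 (by omega), key, out_off g _ x v (by omega), if_neg (by omega),
        if_neg (by omega), if_neg (by omega)]
      simp
    · rw [h v (by omega) (by omega), key, out_off f _ x v (by omega), if_neg (by omega),
        if_neg (by omega), if_neg (by omega)]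
      simp
    · rw [h (2 * a + 1) (by omega) (by omega), key, out_off f _ x _ (by omega),
        out_off g _ x _ (by omega), if_neg (by omega), if_pos rfl, if_neg (by omega)]
      simp
    · rw [h (2 * b + 1) (by omega) (by omega), key, out_off f _ x _ (by omega),
        out_off g _ x _ (by omega), if_neg (by omega), if_neg (by omega), if_pos rfl]
      simp
    · rw [h (2 * b + 2) (by omega) (by omega), key, out_off f _ x _ (by omega),
        out_off g _ x _ (by omega), if_pos rfl, if_neg (by omega), if_neg (by omega)]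
      simp
  · rintro ⟨hf, hg, h3, h4, h5⟩ v h6 h7
    rw [key]
    by_cases c1 : v < 2 * a + 1
    · rw [out_off g _ x v (by omega), if_neg (by omega),
        if_neg (by omega), if_neg (by omega), ← hf v h6 (by omega)]
      simp
    by_cases c2 : v = 2 * a + 1
    · rw [out_off f _ x _ (by omega), out_off g _ x _ (by omega), if_neg (by omega),
        if_pos c2.symm, if_neg (by omega), c2, h3]
      simp
    by_cases c3 : v < 2 * b + 1
    · rw [out_off f _ x v (by omega), if_neg (by omega),
        if_neg (by omega), if_neg (by omega), ← hg v (by omega) (by omega)]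
      simp
    by_cases c4 : v = 2 * b + 1
    · rw [out_off f _ x _ (by omega), out_off g _ x _ (by omega), if_neg (by omega),
        if_neg (by omega), if_pos c4.symm, c4, h4]
      simp
    have c5 : v = 2 * b + 2 := by omega
    rw [out_off f _ x _ (by omega), out_off g _ x _ (by omega), if_pos c5.symm,
      if_neg (by omega), if_neg (by omega), c5, h5]
    simp

theorem sol_leaf (p : List (ℚ × List ℕ)) (o : ℕ) (x : ℕ → MvPolynomial ℕ ℚ) :
    Sol (.leaf p) o x ↔ x (2 * o) = wt p * x (2 * o + 1) := by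
  have eg : gts (.leaf p) = 1 := rfl
  constructor
  · intro h
    rw [h (2 * o) le_rfl (by omega)]
    simp [arcF, out_cons, out_nil]
  · intro h v h1 h2
    obtain rfl : v = 2 * o := by omega
    rw [h]
    simp [arcF, out_cons, out_nil]

theorem sol_congr (F : Frm) (o : ℕ) (x y : ℕ → MvPolynomial ℕ ℚ)
    (h : ∀ u, 2 * o ≤ u → u < 2 * (o + gts F) → x u = y u) (hx : Sol F o x) : Sol F o y :=
  fun v h1 h2 => by rw [← h v h1 (by omega), ← out_block F o x y v h, ← hx v h1 h2]

/-- A solution has source value `poly * sink value`, and vanishes when the sink value does. -/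
theorem sol_val (F : Frm) (o a : ℕ) (ha : a + 1 = o + gts F) (x : ℕ → MvPolynomial ℕ ℚ)
    (hx : Sol F o x) : x (2 * a) = F.poly * x (2 * a + 1) ∧
      (x (2 * a + 1) = 0 → ∀ v, 2 * o ≤ v → v < 2 * a + 2 → x v = 0) := by
  induction F generalizing o a with
  | leaf p =>
    obtain rfl : a = o := by simp [gts] at ha; omega
    have h := (sol_leaf p a x).1 hx
    refine ⟨h, fun h0 v h1 h2 => ?_⟩
    by_cases c : v = 2 * a
    · rw [c, h, h0, mul_zero]
    · rwa [show v = 2 * a + 1 by omega]
  | add f g hf hg =>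
    have h1 := gts_pos f
    have h2 := gts_pos g
    have eg : gts (.add f g) = gts f + gts g + 1 := rfl
    obtain ⟨p, hp⟩ : ∃ p, p + 1 = o + gts f := ⟨o + gts f - 1, by omega⟩
    obtain ⟨b, hb⟩ : ∃ b, b = p + gts g := ⟨_, rfl⟩
    obtain ⟨sf, sg, h3, h4, h5⟩ := (sol_add f g o p b hp hb x).1 hx
    obtain ⟨f1, f2⟩ := hf o p hp sf
    obtain ⟨g1, g2⟩ := hg _ b (by omega) sg
    have e1 : 2 * a = 2 * b + 2 := by omega
    have e2 : 2 * b + 2 + 1 = 2 * b + 3 := rfl
    rw [e1, e2]
    have hv : x (2 * b + 2) = (Frm.add f g).poly * x (2 * b + 3) := by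
      rw [h5, f1, g1, h3, h4, Frm.poly, add_mul]
    refine ⟨hv, fun h0 v h6 h7 => ?_⟩
    by_cases c1 : v < 2 * p + 2
    · exact f2 (h3.trans h0) v h6 c1
    by_cases c2 : v < 2 * b + 2
    · exact g2 (h4.trans h0) v (by omega) c2
    by_cases c3 : v = 2 * b + 2
    · rw [c3, hv, h0, mul_zero]
    · rwa [show v = 2 * b + 3 by omega]
  | mul f g hf hg =>
    have h1 := gts_pos f
    have h2 := gts_pos g
    have eg : gts (.mul f g) = gts f + gts g + 1 := rfl
    obtain ⟨p, hp⟩ : ∃ p, p + 1 = o + gts f := ⟨o + gts f - 1, by omega⟩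
    obtain ⟨b, hb⟩ : ∃ b, b = p + gts g := ⟨_, rfl⟩
    obtain ⟨sf, sg, h3, h4, h5⟩ := (sol_mul f g o p b hp hb x).1 hx
    obtain ⟨f1, f2⟩ := hf o p hp sf
    obtain ⟨g1, g2⟩ := hg _ b (by omega) sg
    have e1 : 2 * a = 2 * b + 2 := by omega
    have e2 : 2 * b + 2 + 1 = 2 * b + 3 := rfl
    rw [e1, e2]
    have hv : x (2 * b + 2) = (Frm.mul f g).poly * x (2 * b + 3) := by
      rw [h5, f1, h3, g1, h4, Frm.poly, mul_assoc]
    refine ⟨hv, fun h0 v h6 h7 => ?_⟩
    have gz := g2 (h4.trans h0)
    by_cases c1 : v < 2 * p + 2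
    · exact f2 (h3.trans (gz _ (by omega) (by omega))) v h6 c1
    by_cases c2 : v < 2 * b + 2
    · exact gz v (by omega) c2
    by_cases c3 : v = 2 * b + 2
    · rw [c3, hv, h0, mul_zero]
    · rwa [show v = 2 * b + 3 by omega]

/-- There is a solution with any prescribed sink value. -/
theorem sol_exists (F : Frm) (o a : ℕ) (ha : a + 1 = o + gts F) (c : MvPolynomial ℕ ℚ) :
    ∃ x : ℕ → MvPolynomial ℕ ℚ, Sol F o x ∧ x (2 * a + 1) = c := by
  induction F generalizing o a c with
  | leaf p =>
    obtain rfl : a = o := by simp [gts] at ha; omega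
    refine ⟨fun v => if v = 2 * a then wt p * c else c, (sol_leaf p a _).2 ?_, ?_⟩ <;> simp
  | add f g hf hg =>
    have h1 := gts_pos f
    have h2 := gts_pos g
    have eg : gts (.add f g) = gts f + gts g + 1 := rfl
    obtain ⟨p, hp⟩ : ∃ p, p + 1 = o + gts f := ⟨o + gts f - 1, by omega⟩
    obtain ⟨b, hb⟩ : ∃ b, b = p + gts g := ⟨_, rfl⟩
    obtain ⟨y, sy, hy⟩ := hg (o + gts f) b (by omega) c
    obtain ⟨z, sz, hz⟩ := hf o p hp c
    refine ⟨fun v => if v < 2 * p + 2 then z v else if v < 2 * b + 2 then y v else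
      if v = 2 * b + 2 then z (2 * p) + y (2 * b) else c, (sol_add f g o p b hp hb _).2
        ⟨sol_congr f o z _ (fun u h3 h4 => ?_) sz, sol_congr g _ y _ (fun u h3 h4 => ?_) sy,
          ?_, ?_, ?_⟩, ?_⟩
    · rw [if_pos (by omega)]
    · rw [if_neg (by omega), if_pos (by omega)]
    · rw [if_pos (by omega), if_neg (by omega), if_neg (by omega), if_neg (by omega), hz]
    · rw [if_neg (by omega), if_pos (by omega), if_neg (by omega), if_neg (by omega),
        if_neg (by omega), hy]
    · rw [if_neg (by omega), if_neg (by omega), if_pos rfl, if_pos (by omega), if_neg (by omega),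
        if_pos (by omega)]
    · beta_reduce
      rw [if_neg (by omega), if_neg (by omega), if_neg (by omega)]
  | mul f g hf hg =>
    have h1 := gts_pos f
    have h2 := gts_pos g
    have eg : gts (.mul f g) = gts f + gts g + 1 := rfl
    obtain ⟨p, hp⟩ : ∃ p, p + 1 = o + gts f := ⟨o + gts f - 1, by omega⟩
    obtain ⟨b, hb⟩ : ∃ b, b = p + gts g := ⟨_, rfl⟩
    obtain ⟨y, sy, hy⟩ := hg (o + gts f) b (by omega) c
    obtain ⟨z, sz, hz⟩ := hf o p hp (y (2 * b))
    refine ⟨fun v => if v < 2 * p + 2 then z v else if v < 2 * b + 2 then y v else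
      if v = 2 * b + 2 then z (2 * p) else c, (sol_mul f g o p b hp hb _).2
        ⟨sol_congr f o z _ (fun u h3 h4 => ?_) sz, sol_congr g _ y _ (fun u h3 h4 => ?_) sy,
          ?_, ?_, ?_⟩, ?_⟩
    · rw [if_pos (by omega)]
    · rw [if_neg (by omega), if_pos (by omega)]
    · rw [if_pos (by omega), if_neg (by omega), if_pos (by omega), hz]
    · rw [if_neg (by omega), if_pos (by omega), if_neg (by omega), if_neg (by omega),
        if_neg (by omega), hy]
    · rw [if_neg (by omega), if_neg (by omega), if_pos rfl, if_pos (by omega)]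
    · beta_reduce
      rw [if_neg (by omega), if_neg (by omega), if_neg (by omega)]

theorem sum_filter {β : Type} (w : β → MvPolynomial ℕ ℚ) (n : ℕ) (L : List (ℕ × ℕ × β))
    (hL : ∀ m ∈ L, m.2.1 < n) (x : ℕ → MvPolynomial ℕ ℚ) (r : ℕ) :
    ∑ c : Fin n, ((L.filter fun m => decide (m.1 = r) && decide (m.2.1 = c.1)).map
      fun m => w m.2.2).sum * x c.1 =
      (L.map fun m => if m.1 = r then w m.2.2 * x m.2.1 else 0).sum := by
  induction L with
  | nil => simp
  | cons m L ih =>
    rw [List.map_cons, List.sum_cons, ← ih fun m' hm' => hL m' (List.mem_cons_of_mem _ hm')]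
    have hm := hL m List.mem_cons_self
    have e : (if m.1 = r then w m.2.2 * x m.2.1 else 0) =
        ∑ c : Fin n, if m.1 = r ∧ m.2.1 = c.1 then w m.2.2 * x c.1 else 0 := by
      rw [Finset.sum_eq_single (⟨m.2.1, hm⟩ : Fin n)]
      · simp
      · intro c _ hc
        exact if_neg fun h => hc (Fin.ext h.2.symm)
      · simp
    rw [e, ← Finset.sum_add_distrib]
    refine Finset.sum_congr rfl fun c _ => ?_
    by_cases h : m.1 = r ∧ m.2.1 = c.1
    · rw [if_pos h, List.filter_cons_of_pos (by simp [h.1, h.2]), List.map_cons, List.sum_cons,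
        add_mul]
    · rw [if_neg h, List.filter_cons_of_neg (by simpa using h), zero_add]

theorem out_diag' (n : ℕ) (x : ℕ → MvPolynomial ℕ ℚ) (r : ℕ) :
    out ((List.range n).map fun v => ((v, v, [(-1, [])]) : Ar)) x r =
      if r < n then -x r else 0 := by
  have hw : wt [(-1, [])] = -1 := by simp [wt, monoPoly_cst]
  induction n with
  | zero => simp [out_nil]
  | succ n ih =>
    rw [List.range_succ, List.map_append, out_append, ih, List.map_singleton, out_cons, out_nil,
      hw]
    dsimp only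
    by_cases h1 : r < n
    · rw [if_pos h1, if_neg (by omega), if_pos (by omega)]; simp
    · by_cases h2 : n = r
      · rw [if_neg h1, if_pos h2, if_pos (by omega), h2]; simp
      · rw [if_neg h1, if_neg h2, if_neg (by omega)]; simp

theorem totF_cons (e : ℕ × ℕ × Frm) (E : List (ℕ × ℕ × Frm)) :
    totF (e :: E) = gts e.2.2 + totF E := by simp [totF]

theorem all_block (m n : ℕ) (E : List (ℕ × ℕ × Frm)) (hE : ∀ e ∈ E, e.1 < n ∧ e.2.1 < n) (o : ℕ) :
    ∀ a ∈ allR m o E, ((2 * o ≤ a.1 ∧ a.1 < 2 * (o + totF E)) ∨ 2 * m ≤ a.1) ∧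
      ((2 * o ≤ a.2.1 ∧ a.2.1 < 2 * (o + totF E)) ∨ (2 * m ≤ a.2.1 ∧ a.2.1 < 2 * m + n)) := by
  induction E generalizing o with
  | nil => simp [allR]
  | cons e E ih =>
    intro a ha
    have h1 := gts_pos e.2.2
    have h2 := hE e List.mem_cons_self
    rw [totF_cons]
    simp only [allR, List.mem_append, List.mem_cons] at ha
    rcases ha with (rfl | rfl | ha) | ha
    · dsimp only; omega
    · dsimp only; omega
    · have := arcs_block e.2.2 o a ha; omega
    · have := ih (fun e' he' => hE e' (List.mem_cons_of_mem _ he')) _ a ha; omega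

/-- The equations of the gates of a list of entries. -/
def SolR (m o : ℕ) (E : List (ℕ × ℕ × Frm)) (x : ℕ → MvPolynomial ℕ ℚ) : Prop :=
  ∀ v, 2 * o ≤ v → v < 2 * (o + totF E) → x v = out (allR m o E) x v

theorem out_allR (m o a : ℕ) (e : ℕ × ℕ × Frm) (E : List (ℕ × ℕ × Frm))
    (ha : a + 1 = o + gts e.2.2) (x : ℕ → MvPolynomial ℕ ℚ) (v : ℕ) :
    out (allR m o (e :: E)) x v = (if 2 * m + e.1 = v then x (2 * a) else 0) +
      ((if 2 * a + 1 = v then x (2 * m + e.2.1) else 0) + out (arcF o e.2.2) x v) +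
      out (allR m (o + gts e.2.2) E) x v := by
  have e1 : o + gts e.2.2 - 1 = a := by omega
  rw [allR, out_append, out_cons, out_cons, e1]
  simp only [mono_one, one_mul]

theorem solR_cons (m n o a : ℕ) (e : ℕ × ℕ × Frm) (E : List (ℕ × ℕ × Frm))
    (hE : ∀ e ∈ E, e.1 < n ∧ e.2.1 < n) (ha : a + 1 = o + gts e.2.2)
    (hm : o + gts e.2.2 + totF E ≤ m) (x : ℕ → MvPolynomial ℕ ℚ) :
    SolR m o (e :: E) x ↔ Sol e.2.2 o x ∧ x (2 * a + 1) = x (2 * m + e.2.1) ∧
      SolR m (o + gts e.2.2) E x := by
  have h1 := gts_pos e.2.2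
  have ht := totF_cons e E
  have hz : ∀ v, v < 2 * a + 2 → out (allR m (o + gts e.2.2) E) x v = 0 := fun v hv =>
    out_zero _ _ _ fun b hb => by have := all_block m n E hE _ b hb; omega
  constructor
  · intro h
    refine ⟨fun v h3 h4 => ?_, ?_, fun v h3 h4 => ?_⟩
    · rw [h v h3 (by omega), out_allR m o a e E ha, hz v (by omega), if_neg (by omega),
        if_neg (by omega)]
      simp
    · rw [h (2 * a + 1) (by omega) (by omega), out_allR m o a e E ha, hz _ (by omega),
        if_neg (by omega), if_pos rfl, out_off _ _ x _ (by omega)]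
      simp
    · rw [h v (by omega) (by omega), out_allR m o a e E ha, if_neg (by omega),
        if_neg (by omega), out_off _ _ x _ (by omega)]
      simp
  · rintro ⟨hf, h3, hR⟩ v h6 h7
    rw [out_allR m o a e E ha, if_neg (by omega)]
    by_cases c1 : v < 2 * a + 1
    · rw [hz v (by omega), if_neg (by omega), ← hf v h6 (by omega)]
      simp
    by_cases c2 : v = 2 * a + 1
    · rw [hz v (by omega), if_pos c2.symm, out_off _ _ x _ (by omega), c2, h3]
      simp
    rw [if_neg (by omega), out_off _ _ x _ (by omega), ← hR v (by omega) (by omega)]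
    simp

theorem solR_val (m n : ℕ) (E : List (ℕ × ℕ × Frm)) (hE : ∀ e ∈ E, e.1 < n ∧ e.2.1 < n) (o : ℕ)
    (hm : o + totF E ≤ m) (x : ℕ → MvPolynomial ℕ ℚ) (hx : SolR m o E x) :
    (∀ p, out (allR m o E) x (2 * m + p) =
      (E.map fun e => if e.1 = p then e.2.2.poly * x (2 * m + e.2.1) else 0).sum) ∧
    ((∀ q < n, x (2 * m + q) = 0) → ∀ v, 2 * o ≤ v → v < 2 * (o + totF E) → x v = 0) := by
  induction E generalizing o with
  | nil => exact ⟨fun p => rfl, fun _ v h1 h2 => by simp [totF] at h2; omega⟩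
  | cons e E ih =>
    have h1 := gts_pos e.2.2
    have ht := totF_cons e E
    have hE' : ∀ e' ∈ E, e'.1 < n ∧ e'.2.1 < n := fun e' he' => hE e' (List.mem_cons_of_mem _ he')
    obtain ⟨a, ha⟩ : ∃ a, a + 1 = o + gts e.2.2 := ⟨o + gts e.2.2 - 1, by omega⟩
    obtain ⟨sf, h3, sR⟩ := (solR_cons m n o a e E hE' ha (by omega) x).1 hx
    obtain ⟨f1, f2⟩ := sol_val e.2.2 o a ha x sf
    obtain ⟨g1, g2⟩ := ih hE' _ (by omega) sR
    refine ⟨fun p => ?_, fun h0 v h6 h7 => ?_⟩
    · rw [out_allR m o a e E ha, g1, if_neg (show ¬ 2 * a + 1 = 2 * m + p by omega),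
        out_off _ _ x _ (by omega), List.map_cons, List.sum_cons, f1, h3]
      simp
    · by_cases c : v < 2 * a + 2
      · exact f2 (h3.trans (h0 _ (hE e List.mem_cons_self).2)) v h6 c
      · exact g2 h0 v (by omega) (by omega)

theorem solR_exists (m n : ℕ) (E : List (ℕ × ℕ × Frm)) (hE : ∀ e ∈ E, e.1 < n ∧ e.2.1 < n)
    (o : ℕ) (hm : o + totF E ≤ m) (z : ℕ → MvPolynomial ℕ ℚ) :
    ∃ x : ℕ → MvPolynomial ℕ ℚ, SolR m o E x ∧ ∀ q, x (2 * m + q) = z q := by
  induction E generalizing o with
  | nil =>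
    exact ⟨fun v => z (v - 2 * m), fun v h1 h2 => by simp [totF] at h2; omega, fun q => by simp⟩
  | cons e E ih =>
    have h1 := gts_pos e.2.2
    have ht := totF_cons e E
    have hE' : ∀ e' ∈ E, e'.1 < n ∧ e'.2.1 < n := fun e' he' => hE e' (List.mem_cons_of_mem _ he')
    obtain ⟨a, ha⟩ : ∃ a, a + 1 = o + gts e.2.2 := ⟨o + gts e.2.2 - 1, by omega⟩
    obtain ⟨y, sy, hy⟩ := ih hE' (o + gts e.2.2) (by omega)
    obtain ⟨u, su, hu⟩ := sol_exists e.2.2 o a ha (z e.2.1)
    refine ⟨fun v => if v < 2 * a + 2 then u v else y v,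
      (solR_cons m n o a e E hE' ha (by omega) _).2
        ⟨sol_congr _ o u _ (fun v h3 h4 => ?_) su, ?_, fun v h3 h4 => ?_⟩, fun q => ?_⟩
    · rw [if_pos (by omega)]
    · rw [if_pos (by omega), if_neg (by omega), hu, hy]
    · beta_reduce
      rw [if_neg (by omega), sy v h3 h4]
      refine out_congr _ _ _ _ fun b hb => ?_
      have := all_block m n E hE' _ b hb
      rw [if_neg (by omega)]
    · beta_reduce
      rw [if_neg (by omega), hy]

theorem mulVec_big (n : ℕ) (E : List (ℕ × ℕ × Frm)) (hE : ∀ e ∈ E, e.1 < n ∧ e.2.1 < n)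
    (x : ℕ → MvPolynomial ℕ ℚ) (r : Fin (bigM n (E.map cd)).length) :
    (polyMatrix (bigM n (E.map cd))).mulVec (fun c => x c.1) r =
      (if r.1 < 2 * totF E then -x r.1 else 0) + out (allR (totF E) 0 E) x r.1 := by
  have hn := bigM_length n E
  have hL : ∀ m ∈ diagA (totF E) ++ allR (totF E) 0 E, m.2.1 < (bigM n (E.map cd)).length := by
    intro m hm
    simp only [diagA, List.mem_append, List.mem_map, List.mem_range] at hm
    rcases hm with ⟨v, hv, rfl⟩ | hm
    · dsimp only; omega
    · have := all_block (totF E) n E hE 0 m hm; omega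
  have e : (polyMatrix (bigM n (E.map cd))).mulVec (fun c => x c.1) r =
      out (diagA (totF E) ++ allR (totF E) 0 E) x r.1 := by
    rw [out, ← sum_filter wt _ _ hL]
    simp only [Matrix.mulVec, dotProduct, polyMatrix_bigM, wt]
  rw [e, out_append, diagA, out_diag']

theorem mulVec_ent (n : ℕ) (E : List (ℕ × ℕ × Frm)) (hE : ∀ e ∈ E, e.1 < n ∧ e.2.1 < n)
    (z : ℕ → MvPolynomial ℕ ℚ) (p : Fin n) : (entM n E).mulVec (fun c => z c.1) p =
      (E.map fun e => if e.1 = p.1 then e.2.2.poly * z e.2.1 else 0).sum := by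
  rw [← sum_filter Frm.poly n E fun e he => (hE e he).2]
  simp only [Matrix.mulVec, dotProduct, entM, Matrix.of_apply]

end PL1

open PL1 in
theorem big_det (n : ℕ) (E : List (ℕ × ℕ × Frm)) (hE : ∀ e ∈ E, e.1 < n ∧ e.2.1 < n) :
    (polyMatrix (bigM n (E.map cd))).det = 0 ↔ (entM n E).det = 0 := by
  have hn := bigM_length n E
  rw [← Matrix.exists_mulVec_eq_zero_iff, ← Matrix.exists_mulVec_eq_zero_iff]
  constructor
  · rintro ⟨y, hy, hM⟩
    obtain ⟨x, hx⟩ : ∃ x : ℕ → MvPolynomial ℕ ℚ, y = fun c => x c.1 :=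
      ⟨fun v => if h : v < (bigM n (E.map cd)).length then y ⟨v, h⟩ else 0, by funext c; simp⟩
    subst hx
    have hs : SolR (totF E) 0 E x := fun v _ h2 => by
      have h := mulVec_big n E hE x ⟨v, by omega⟩
      rw [hM, if_pos (by dsimp only; omega)] at h
      exact (neg_add_eq_zero.1 h.symm)
    obtain ⟨h1, h2⟩ := solR_val (totF E) n E hE 0 (by omega) x hs
    refine ⟨fun c => x (2 * totF E + c.1), fun h0 => hy (funext fun c => ?_), funext fun p => ?_⟩
    · have h3 : ∀ q < n, x (2 * totF E + q) = 0 := fun q hq => congrFun h0 ⟨q, hq⟩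
      have hc := c.2.trans_eq hn
      by_cases c1 : c.1 < 2 * totF E
      · exact h2 h3 c.1 (by omega) (by omega)
      · have := h3 (c.1 - 2 * totF E) (by omega)
        rwa [show 2 * totF E + (c.1 - 2 * totF E) = c.1 by omega] at this
    · have hp := p.2
      have h := mulVec_big n E hE x ⟨2 * totF E + p.1, by omega⟩
      rw [hM, if_neg (by dsimp only; omega), zero_add, h1] at h
      rw [mulVec_ent n E hE (fun q => x (2 * totF E + q)) p]
      exact h.symm
  · rintro ⟨y, hy, hM⟩
    obtain ⟨z, hz⟩ : ∃ z : ℕ → MvPolynomial ℕ ℚ, y = fun c => z c.1 :=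
      ⟨fun v => if h : v < n then y ⟨v, h⟩ else 0, by funext c; simp⟩
    subst hz
    obtain ⟨x, hs, hx⟩ := solR_exists (totF E) n E hE 0 (by omega) z
    refine ⟨fun c => x c.1, fun h0 => hy (funext fun c => ?_), funext fun r => ?_⟩
    · have hc := c.2
      exact (hx c.1).symm.trans (congrFun h0 ⟨2 * totF E + c.1, by omega⟩)
    · have hr := r.2.trans_eq hn
      rw [mulVec_big n E hE x r]
      by_cases c1 : r.1 < 2 * totF E
      · rw [if_pos c1, ← hs r.1 (by omega) (by omega), neg_add_cancel]; rfl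
      · have h := mulVec_ent n E hE z ⟨r.1 - 2 * totF E, by omega⟩
        have h1 := (solR_val (totF E) n E hE 0 (by omega) x hs).1 (r.1 - 2 * totF E)
        rw [show 2 * totF E + (r.1 - 2 * totF E) = r.1 by omega] at h1
        rw [if_neg c1, zero_add, h1]
        simp only [hx]
        rw [hM] at h
        exact h.symm

end Pool.Agent.P.MP_08e617_lc.Rk
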