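import Pool.Agent.P.MP_08e617_lc.RkW
import Pool.Agent.P.MP_08e617_lc.RkK2

/-! The big matrix of a matrix of formulas has bounded branch-width. -/

namespace Pool.Agent.P.MP_08e617_lc.Rk

open Pool.Agent.Lib.helper21 Module

namespace PL2

open Finset PK2

section

variable {n : ℕ} {Q : Finset (Fin n × Fin n)} {w : ℕ}

theorem dec_mono {P : Finset (Fin n × Fin n)} (h : Dec Q w P) {w' : ℕ} (hw : w ≤ w') :
    Dec Q w' P := by
  induction h with
  | small P h1 h2 => exact .small P (h1.trans hw) h2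
  | join A B h1 h2 _ _ hA hB => exact .join A B (h1.trans hw) h2 hA hB

theorem dec_of_branch {M : Matrix (Fin n) (Fin n) (MvPolynomial ℕ ℚ)} (h : BranchLE M w) :
    Dec (supp M) w (supp M) := by
  obtain ⟨L, h0, hL⟩ := h
  have key : ∀ P, P ∈ L → Dec (supp M) w P := by
    intro P
    induction P using Finset.strongInduction with
    | H P ih =>
      intro hP
      obtain ⟨h1, h2⟩ := hL P hP
      by_cases hc : P.card ≤ 1
      · exact .small P h1 hc
      obtain ⟨P', h3, h4, h5, h6, h7⟩ := h2 (by omega)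
      have e := union_sdiff_of_subset h4
      have h8 := Dec.join P' (P \ P') (by rwa [e]) disjoint_sdiff
        (ih _ (ssubset_of_subset_of_ne h4 h6) h3) (ih _ (sdiff_ssubset h4 h5) h7)
      rwa [e] at h8
  exact key _ h0

theorem dec_empty : Dec Q w ∅ := by
  have h := cutw_le (Q := Q) ∅
  rw [card_empty] at h
  exact .small ∅ (by omega) (by simp)

variable {k : ℕ} {Q₀ : Finset (Fin k × Fin k)} {φ : Fin n × Fin n → ℕ × ℕ} {c : ℕ}

/-- The positions of `Q` that lie over `P`. -/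
def lift (Q : Finset (Fin n × Fin n)) (φ : Fin n × Fin n → ℕ × ℕ) (P : Finset (Fin k × Fin k)) :
    Finset (Fin n × Fin n) :=
  Q.filter fun x => ∃ z ∈ P, φ x = (z.1.1, z.2.1)

theorem mem_lift {P : Finset (Fin k × Fin k)} {x : Fin n × Fin n} :
    x ∈ lift Q φ P ↔ x ∈ Q ∧ ∃ z ∈ P, φ x = (z.1.1, z.2.1) := mem_filter

theorem side_lift (h0 : ∀ x ∈ Q, ∃ z ∈ Q₀, φ x = (z.1.1, z.2.1)) (f : Fin n × Fin n → Fin n)
    (g : Fin k × Fin k → Fin k) (g' : ℕ × ℕ → ℕ) (hg : ∀ z, g' (z.1.1, z.2.1) = (g z).1)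
    (h : ∀ x ∈ Q, ∀ y ∈ Q, f x = f y → φ x ≠ φ y → (f x).1 = c + g' (φ x))
    (P : Finset (Fin k × Fin k)) :
    ((lift Q φ P).image f ∩ (Q \ lift Q φ P).image f).card ≤
      (P.image g ∩ (Q₀ \ P).image g).card := by
  refine card_le_card_of_forall_subsingleton (fun r p => r.1 = c + p.1) (fun r hr => ?_)
    fun p _ r hr r' hr' => Fin.ext (hr.2.trans hr'.2.symm)
  simp only [mem_inter, mem_image, mem_sdiff, mem_lift] at hr ⊢
  obtain ⟨⟨x, ⟨hx, z, hz, e1⟩, rfl⟩, y, ⟨hy, hy'⟩, e⟩ := hr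
  obtain ⟨z', hz', e2⟩ := h0 y hy
  have hne : φ x ≠ φ y := fun e3 => hy' ⟨hy, z, hz, e3 ▸ e1⟩
  have h1 := h x hx y hy e.symm hne
  have h2 := h y hy x hx e hne.symm
  rw [e1, hg] at h1
  rw [e2, hg, e] at h2
  exact ⟨g z, ⟨⟨z, hz, rfl⟩, z', ⟨hz', fun hP => hy' ⟨hy, z', hP, e2⟩⟩, Fin.ext (by omega)⟩, h1⟩

theorem dec_lift (h0 : ∀ x ∈ Q, ∃ z ∈ Q₀, φ x = (z.1.1, z.2.1))
    (h1 : ∀ x ∈ Q, ∀ y ∈ Q, x.1 = y.1 → φ x ≠ φ y → x.1.1 = c + (φ x).1)
    (h2 : ∀ x ∈ Q, ∀ y ∈ Q, x.2 = y.2 → φ x ≠ φ y → x.2.1 = c + (φ x).2)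
    {W : ℕ} (hD : ∀ z, Dec Q W (Q.filter fun x => φ x = z)) {P : Finset (Fin k × Fin k)}
    (h : Dec Q₀ w P) : Dec Q (w + W) (lift Q φ P) := by
  induction h with
  | small P _ hc =>
    rcases P.eq_empty_or_nonempty with rfl | ⟨z, hz⟩
    · rw [show lift Q φ (∅ : Finset (Fin k × Fin k)) = ∅ by simp [lift]]
      exact dec_empty
    · rw [show lift Q φ P = Q.filter fun x => φ x = (z.1.1, z.2.1) from
        filter_congr fun x _ => ⟨fun ⟨z', hz', e⟩ => card_le_one.1 hc z' hz' z hz ▸ e,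
          fun e => ⟨z, hz, e⟩⟩]
      exact dec_mono (hD _) (Nat.le_add_left _ _)
  | join A B hw hd _ _ hA hB =>
    have e : lift Q φ (A ∪ B) = lift Q φ A ∪ lift Q φ B := by
      ext x
      simp only [mem_lift, mem_union, or_and_right, exists_or, and_or_left]
    have c1 := side_lift h0 Prod.fst Prod.fst Prod.fst (fun _ => rfl) h1 (A ∪ B)
    have c2 := side_lift h0 Prod.snd Prod.snd Prod.snd (fun _ => rfl) h2 (A ∪ B)
    rw [e] at c1 c2 ⊢
    refine .join _ _ ?_ (disjoint_left.2 fun x hx hx' => ?_) hA hB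
    · unfold cutw at hw ⊢
      omega
    · obtain ⟨-, z, hz, e1⟩ := mem_lift.1 hx
      obtain ⟨-, z', hz', e2⟩ := mem_lift.1 hx'
      rw [e1, Prod.mk.injEq] at e2
      exact disjoint_left.1 hd hz (Prod.ext (Fin.ext e2.1) (Fin.ext e2.2) ▸ hz')

end

theorem arc_blk (G : Frm) : ∀ o, ∀ m ∈ arcF o G,
    (2 * o ≤ m.1 ∧ m.1 < 2 * (o + gts G)) ∧ 2 * o ≤ m.2.1 ∧ m.2.1 < 2 * (o + gts G) := by
  induction G with
  | leaf p =>
    intro o m hm
    simp only [arcF, List.mem_singleton] at hm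
    subst hm
    simp only [gts]
    omega
  | add f g hf hg =>
    intro o m hm
    have := gts_pos f
    have := gts_pos g
    simp only [arcF, List.mem_append, List.mem_cons, List.not_mem_nil, or_false] at hm
    simp only [gts]
    rcases hm with (hm | hm) | rfl | rfl | rfl | rfl
    · have := hf o m hm
      omega
    · have := hg _ m hm
      omega
    all_goals
      dsimp only
      omega
  | mul f g hf hg =>
    intro o m hm
    have := gts_pos f
    have := gts_pos g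
    simp only [arcF, List.mem_append, List.mem_cons, List.not_mem_nil, or_false] at hm
    simp only [gts]
    rcases hm with (hm | hm) | rfl | rfl | rfl
    · have := hf o m hm
      omega
    · have := hg _ m hm
      omega
    all_goals
      dsimp only
      omega

variable {n : ℕ} {Q : Finset (Fin n × Fin n)}

/-- Every position is diagonal, an arc of `G`, or external to the block of `G`. -/
def Leg (Q : Finset (Fin n × Fin n)) (o : ℕ) (G : Frm) : Prop :=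
  ∀ x ∈ Q, x.1.1 = x.2.1 ∨ (∃ m ∈ arcF o G, m.1 = x.1.1 ∧ m.2.1 = x.2.1) ∨
    ((x.1.1 < 2 * o ∨ 2 * (o + gts G) ≤ x.1.1 + 1) ∧
      (x.2.1 < 2 * o ∨ 2 * (o + gts G) ≤ x.2.1 ∨ x.2.1 + 2 = 2 * (o + gts G)))

theorem Leg.tight {o : ℕ} {G : Frm} (h : Leg Q o G) : Tight Q (2 * o) (2 * (o + gts G)) :=
  fun x hx => (h x hx).imp_right fun h => h.imp_left fun ⟨m, hm, e1, e2⟩ =>
    e1 ▸ e2 ▸ arc_blk G o m hm

theorem Leg.sub {o : ℕ} {G f g : Frm} (h : Leg Q o G) (hG : G = .add f g ∨ G = .mul f g) :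
    Leg Q o f ∧ Leg Q (o + gts f) g := by
  have hf := gts_pos f
  have hg := gts_pos g
  have e : gts G = gts f + gts g + 1 := by rcases hG with rfl | rfl <;> rfl
  have key : ∀ m ∈ arcF o G, m ∈ arcF o f ∨ m ∈ arcF (o + gts f) g ∨
      ((m.1 + 1 = 2 * (o + gts f) ∨ 2 * (o + gts f + gts g) ≤ m.1 + 1) ∧
        (m.2.1 + 2 = 2 * (o + gts f) ∨ m.2.1 + 2 = 2 * (o + gts f + gts g) ∨
          2 * (o + gts f + gts g) ≤ m.2.1)) := by
    intro m hm
    rcases hG with rfl | rfl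
    · simp only [arcF, List.mem_append, List.mem_cons, List.not_mem_nil, or_false] at hm
      rcases hm with (hm | hm) | rfl | rfl | rfl | rfl
      · exact .inl hm
      · exact .inr (.inl hm)
      all_goals
        refine .inr (.inr ?_)
        dsimp only
        omega
    · simp only [arcF, List.mem_append, List.mem_cons, List.not_mem_nil, or_false] at hm
      rcases hm with (hm | hm) | rfl | rfl | rfl
      · exact .inl hm
      · exact .inr (.inl hm)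
      all_goals
        refine .inr (.inr ?_)
        dsimp only
        omega
  constructor
  · intro x hx
    rcases h x hx with h1 | ⟨m, hm, e1, e2⟩ | h1
    · exact .inl h1
    · rcases key m hm with h2 | h2 | h2
      · exact .inr (.inl ⟨m, h2, e1, e2⟩)
      · have := arc_blk g _ m h2
        exact .inr (.inr (by omega))
      · exact .inr (.inr (by omega))
    · exact .inr (.inr (by omega))
  · intro x hx
    rcases h x hx with h1 | ⟨m, hm, e1, e2⟩ | h1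
    · exact .inl h1
    · rcases key m hm with h2 | h2 | h2
      · have := arc_blk f _ m h2
        exact .inr (.inr (by omega))
      · exact .inr (.inl ⟨m, h2, e1, e2⟩)
      · exact .inr (.inr (by omega))
    · exact .inr (.inr (by omega))

theorem dec_frm (G : Frm) : ∀ o, Leg Q o G → Dec Q 36 (box Q (2 * o) (2 * (o + gts G))) := by
  induction G with
  | leaf p => exact fun o _ => dec_leaf (2 * o)
  | add f g hf hg =>
    intro o h
    obtain ⟨h1, h2⟩ := h.sub (.inl rfl)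
    rw [show 2 * (o + gts (.add f g)) = 2 * (o + gts f + gts g) + 2 by
      simp only [gts]; omega]
    exact dec_node (by omega) (by omega) h1.tight h2.tight (hf _ h1) (hg _ h2)
  | mul f g hf hg =>
    intro o h
    obtain ⟨h1, h2⟩ := h.sub (.inr rfl)
    rw [show 2 * (o + gts (.mul f g)) = 2 * (o + gts f + gts g) + 2 by
      simp only [gts]; omega]
    exact dec_node (by omega) (by omega) h1.tight h2.tight (hf _ h1) (hg _ h2)

/-- The entries with their offsets. -/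
def plc : ℕ → List (ℕ × ℕ × Frm) → List (ℕ × ℕ × ℕ × Frm)
  | _, [] => []
  | o, e :: E => (o, e) :: plc (o + gts e.2.2) E

theorem totF_cons (e : ℕ × ℕ × Frm) (E : List (ℕ × ℕ × Frm)) :
    totF (e :: E) = gts e.2.2 + totF E := by simp [totF]

theorem plc_mem (E : List (ℕ × ℕ × Frm)) : ∀ o, ∀ u ∈ plc o E,
    o ≤ u.1 ∧ u.1 + gts u.2.2.2 ≤ o + totF E ∧ u.2 ∈ E := by
  induction E with
  | nil => simp [plc]
  | cons e E ih =>
    intro o u hu
    rw [totF_cons]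
    rcases List.mem_cons.1 hu with rfl | hu
    · exact ⟨le_rfl, by dsimp only; omega, List.mem_cons_self⟩
    · obtain ⟨h1, h2, h3⟩ := ih _ u hu
      exact ⟨by omega, by omega, List.mem_cons_of_mem _ h3⟩

theorem plc_sep (E : List (ℕ × ℕ × Frm)) (hE : (E.map fun e => (e.1, e.2.1)).Nodup) :
    ∀ o, ∀ u ∈ plc o E, ∀ v ∈ plc o E, u = v ∨ ((u.2.1, u.2.2.1) ≠ (v.2.1, v.2.2.1) ∧
      (u.1 + gts u.2.2.2 ≤ v.1 ∨ v.1 + gts v.2.2.2 ≤ u.1)) := by
  induction E with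
  | nil => simp [plc]
  | cons e E ih =>
    intro o u hu v hv
    rw [List.map_cons, List.nodup_cons] at hE
    have key : ∀ v ∈ plc (o + gts e.2.2) E, (e.1, e.2.1) ≠ (v.2.1, v.2.2.1) ∧
        o + gts e.2.2 ≤ v.1 := fun v hv =>
      ⟨fun h => hE.1 (h ▸ List.mem_map_of_mem (plc_mem E _ v hv).2.2), (plc_mem E _ v hv).1⟩
    rcases List.mem_cons.1 hu with rfl | hu <;> rcases List.mem_cons.1 hv with rfl | hv
    · exact .inl rfl
    · exact .inr ⟨(key v hv).1, .inl (key v hv).2⟩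
    · exact .inr ⟨(key u hu).1.symm, .inr (key u hu).2⟩
    · exact ih hE.2 _ u hu v hv

theorem plc_cover (E : List (ℕ × ℕ × Frm)) : ∀ o v, 2 * o ≤ v → v < 2 * (o + totF E) →
    ∃ u ∈ plc o E, 2 * u.1 ≤ v ∧ v < 2 * (u.1 + gts u.2.2.2) := by
  induction E with
  | nil =>
    intro o v h1 h2
    simp only [totF, List.map_nil, List.sum_nil] at h2
    omega
  | cons e E ih =>
    intro o v h1 h2
    rw [totF_cons] at h2
    by_cases h : v < 2 * (o + gts e.2.2)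
    · exact ⟨(o, e), List.mem_cons_self, h1, h⟩
    · obtain ⟨u, hu, h3⟩ := ih (o + gts e.2.2) v (by omega) (by omega)
      exact ⟨u, List.mem_cons_of_mem _ hu, h3⟩

/-- The position `(r, c)` belongs to the placed entry `u`. -/
def Own (m : ℕ) (u : ℕ × ℕ × ℕ × Frm) (r c : ℕ) : Prop :=
  (r = c ∧ 2 * u.1 ≤ r ∧ r < 2 * (u.1 + gts u.2.2.2)) ∨
    (∃ a ∈ arcF u.1 u.2.2.2, a.1 = r ∧ a.2.1 = c) ∨
    (r = 2 * m + u.2.1 ∧ c + 2 = 2 * (u.1 + gts u.2.2.2)) ∨
    (r + 1 = 2 * (u.1 + gts u.2.2.2) ∧ c = 2 * m + u.2.2.1)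

theorem Own.num {m : ℕ} {u : ℕ × ℕ × ℕ × Frm} {r c : ℕ} (h : Own m u r c) :
    ((2 * u.1 ≤ r ∧ r < 2 * (u.1 + gts u.2.2.2)) ∧ 2 * u.1 ≤ c ∧ c < 2 * (u.1 + gts u.2.2.2)) ∨
    (r = 2 * m + u.2.1 ∧ c + 2 = 2 * (u.1 + gts u.2.2.2)) ∨
    (r + 1 = 2 * (u.1 + gts u.2.2.2) ∧ c = 2 * m + u.2.2.1) := by
  rcases h with h | ⟨a, ha, rfl, rfl⟩ | h
  · exact .inl (by omega)
  · exact .inl (arc_blk _ _ a ha)
  · exact .inr h

theorem own_allR (m : ℕ) (E : List (ℕ × ℕ × Frm)) : ∀ o, ∀ a ∈ allR m o E,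
    ∃ u ∈ plc o E, Own m u a.1 a.2.1 := by
  induction E with
  | nil => simp [allR]
  | cons e E ih =>
    intro o a ha
    have := gts_pos e.2.2
    simp only [allR, List.mem_append, List.mem_cons] at ha
    rcases ha with (rfl | rfl | ha) | ha
    · exact ⟨(o, e), List.mem_cons_self, .inr (.inr (.inl ⟨rfl, by dsimp only; omega⟩))⟩
    · exact ⟨(o, e), List.mem_cons_self, .inr (.inr (.inr ⟨by dsimp only; omega, rfl⟩))⟩
    · exact ⟨(o, e), List.mem_cons_self, .inr (.inl ⟨a, ha, rfl, rfl⟩)⟩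
    · obtain ⟨u, hu, h⟩ := ih _ a ha
      exact ⟨u, List.mem_cons_of_mem _ hu, h⟩

theorem own_supp (k : ℕ) (E : List (ℕ × ℕ × Frm)) :
    ∀ x ∈ supp (polyMatrix (bigM k (E.map cd))), ∃ u ∈ plc 0 E, Own (totF E) u x.1.1 x.2.1 := by
  intro x hx
  simp only [supp, mem_filter, mem_univ, true_and] at hx
  rw [polyMatrix_bigM] at hx
  obtain ⟨a, ha⟩ := List.exists_mem_of_ne_nil ((diagA (totF E) ++ allR (totF E) 0 E).filter
    fun a => decide (a.1 = x.1.1) && decide (a.2.1 = x.2.1)) fun e => hx (by rw [e]; rfl)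
  simp only [List.mem_filter, Bool.and_eq_true, decide_eq_true_eq, diagA, List.mem_append,
    List.mem_map, List.mem_range] at ha
  obtain ⟨⟨v, hv, rfl⟩ | ha, e1, e2⟩ := ha
  · obtain ⟨u, hu, h⟩ := plc_cover E 0 v (by omega) (by omega)
    dsimp only at e1 e2
    exact ⟨u, hu, .inl (by omega)⟩
  · exact e1 ▸ e2 ▸ own_allR _ E 0 a ha

theorem dec_own {m : ℕ} {L : List (ℕ × ℕ × ℕ × Frm)} {ψ : Fin n × Fin n → ℕ × ℕ × ℕ × Frm}
    (hψ : ∀ x ∈ Q, ψ x ∈ L ∧ Own m (ψ x) x.1.1 x.2.1) (hm : ∀ u ∈ L, u.1 + gts u.2.2.2 ≤ m)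
    (hs : ∀ u ∈ L, ∀ v ∈ L, u = v ∨ ((u.2.1, u.2.2.1) ≠ (v.2.1, v.2.2.1) ∧
      (u.1 + gts u.2.2.2 ≤ v.1 ∨ v.1 + gts v.2.2.2 ≤ u.1))) (z : ℕ × ℕ) :
    Dec Q 36 (Q.filter fun x => ((ψ x).2.1, (ψ x).2.2.1) = z) := by
  rcases (Q.filter fun x => ((ψ x).2.1, (ψ x).2.2.1) = z).eq_empty_or_nonempty with h | ⟨y, hy⟩
  · rw [h]
    exact dec_empty
  rw [mem_filter] at hy
  obtain ⟨hy, rfl⟩ := hy
  have hu := (hψ y hy).1
  generalize ψ y = u at hu ⊢
  have h1 := hm u hu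
  have hl : Leg Q u.1 u.2.2.2 := by
    intro x hx
    obtain ⟨h2, h3⟩ := hψ x hx
    rcases hs _ h2 u hu with e | ⟨-, h4⟩
    · rw [e] at h3
      rcases h3 with h3 | h3 | h3
      · exact .inl h3.1
      · exact .inr (.inl h3)
      · exact .inr (.inr (by omega))
    · have h5 := h3.num
      have h6 := gts_pos (ψ x).2.2.2
      exact .inr (.inr (by omega))
  have hsub : box Q (2 * u.1) (2 * (u.1 + gts u.2.2.2)) ⊆
      Q.filter fun x => ((ψ x).2.1, (ψ x).2.2.1) = (u.2.1, u.2.2.1) := by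
    intro x hx
    obtain ⟨hx, h0⟩ := mem_box.1 hx
    obtain ⟨h2, h3⟩ := hψ x hx
    rcases hs _ h2 u hu with e | ⟨-, h4⟩
    · exact mem_filter.2 ⟨hx, by rw [e]⟩
    · have h5 := h3.num
      omega
  have c1 := hl.tight.cut
  have c2 : ((Q.filter fun x => ((ψ x).2.1, (ψ x).2.2.1) = (u.2.1, u.2.2.1)) \
      box Q (2 * u.1) (2 * (u.1 + gts u.2.2.2))).card ≤ 4 := by
    refine (card_le_grid {2 * m + u.2.1, 2 * (u.1 + gts u.2.2.2) - 1}
      {2 * (u.1 + gts u.2.2.2) - 2, 2 * m + u.2.2.1} fun x hx => ?_).trans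
      (Nat.mul_le_mul card_le_two card_le_two)
    simp only [mem_sdiff, mem_filter, mem_box] at hx
    obtain ⟨⟨hx, e⟩, h0⟩ := hx
    obtain ⟨h2, h3⟩ := hψ x hx
    rcases hs _ h2 u hu with e' | ⟨h4, -⟩
    · have h5 := h3.num
      rw [e'] at h5
      simp only [hx, true_and] at h0
      simp only [mem_insert, mem_singleton]
      omega
    · exact absurd e h4
  have d := (dec_frm _ _ hl).add _ disjoint_sdiff (le_trans (add_le_add c1
    (Nat.mul_le_mul_left 2 c2)) (by norm_num))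
  rwa [union_sdiff_of_subset hsub] at d

end PL2

theorem big_branch : ∃ w₀, ∀ (n w : ℕ) (E : List (ℕ × ℕ × Frm))
    (M : Matrix (Fin n) (Fin n) (MvPolynomial ℕ ℚ)), BranchLE M w →
    (E.map fun e => (e.1, e.2.1)).Nodup →
    (∀ e ∈ E, ∃ h1 h2, M ⟨e.1, h1⟩ ⟨e.2.1, h2⟩ ≠ 0) →
    BranchLE (polyMatrix (bigM n (E.map cd))) (w + w₀) := by
  refine ⟨36, fun n w E M hM hE hp => PK2.Dec.branch ?_⟩
  have h0 := PL2.own_supp n E
  generalize supp (polyMatrix (bigM n (E.map cd))) = Q at h0 ⊢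
  have : Nonempty Frm := ⟨.leaf []⟩
  choose! ψ h1 h2 using h0
  have hm : ∀ u ∈ PL2.plc 0 E, u.1 + gts u.2.2.2 ≤ totF E := fun u hu => by
    have := (PL2.plc_mem E 0 u hu).2.1
    omega
  have hs := PL2.plc_sep E hE 0
  have h3 : ∀ x ∈ Q, ∃ z ∈ supp M, ((ψ x).2.1, (ψ x).2.2.1) = (z.1.1, z.2.1) := fun x hx => by
    obtain ⟨a, b, h⟩ := hp _ (PL2.plc_mem E 0 _ (h1 x hx)).2.2
    exact ⟨(⟨_, a⟩, ⟨_, b⟩), by simpa [supp] using h, rfl⟩
  have key : ∀ x ∈ Q, ∀ y ∈ Q, ((ψ x).2.1, (ψ x).2.2.1) ≠ ((ψ y).2.1, (ψ y).2.2.1) →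
      (x.1 = y.1 → x.1.1 = 2 * totF E + (ψ x).2.1) ∧
        (x.2 = y.2 → x.2.1 = 2 * totF E + (ψ x).2.2.1) := fun x hx y hy hne => by
    rcases hs _ (h1 x hx) _ (h1 y hy) with e | ⟨-, h4⟩
    · exact absurd (by rw [e]) hne
    have a1 := (h2 x hx).num
    have a2 := (h2 y hy).num
    have a3 := hm _ (h1 x hx)
    have a4 := hm _ (h1 y hy)
    have a5 := gts_pos (ψ x).2.2.2
    have a6 := gts_pos (ψ y).2.2.2
    refine ⟨fun e => ?_, fun e => ?_⟩
    · have := congrArg Fin.val e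
      omega
    · have := congrArg Fin.val e
      omega
  have d := PL2.dec_lift (φ := fun x => ((ψ x).2.1, (ψ x).2.2.1)) h3
    (fun x hx y hy e hne => (key x hx y hy hne).1 e)
    (fun x hx y hy e hne => (key x hx y hy hne).2 e)
    (PL2.dec_own (fun x hx => ⟨h1 x hx, h2 x hx⟩) hm hs) (PL2.dec_of_branch hM)
  rwa [PL2.lift, Finset.filter_true_of_mem h3] at d

end Pool.Agent.P.MP_08e617_lc.Rk
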