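import Pool.Agent.P.MP_08e617_lc.RkW

/-! The matrix of a list of formulas: number of reads. -/

namespace Pool.Agent.P.MP_08e617_lc.Rk

open Pool.Agent.Lib.helper21 Module

namespace PL3

/-- Polynomials. -/
abbrev Pl := MvPolynomial ℕ ℚ

theorem sum_filter {α β : Type} [AddCommMonoid β] (L : List α) (q : α → Bool) (f : α → β) :
    ((L.filter q).map f).sum = (L.map fun x => if q x = true then f x else 0).sum := by
  induction L with
  | nil => rfl
  | cons x L ih => by_cases h : q x = true <;> simp [h, ih]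

theorem countP_eq {α : Type} (L : List α) (q : α → Bool) :
    L.countP q = (L.map fun x => if q x = true then 1 else 0).sum := by
  induction L with
  | nil => rfl
  | cons x L ih => by_cases h : q x = true <;> simp [h, ih, add_comm]

/-- The arcs `A` are cut into parts `T`, each a member of `D` or a constant. -/
def Rel (A : List Ar) (D : List Pl) : Prop := ∃ T : List (ℕ × ℕ × Pl),
  (∀ r c : ℕ, (A.map fun a => if a.1 = r ∧ a.2.1 = c then (a.2.2.map monoPoly).sum else 0).sum =
    (T.map fun t => if t.1 = r ∧ t.2.1 = c then t.2.2 else 0).sum) ∧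
  (∀ t ∈ T, ∃ a ∈ A, t.1 = a.1 ∧ t.2.1 = a.2.1) ∧
  (∀ t ∈ T, t.2.2 ∈ D ∨ ∃ c, t.2.2 = MvPolynomial.C c) ∧
  ∀ x, (T.countP fun t => x ∈ t.2.2.vars) ≤ D.countP fun p => x ∈ p.vars

theorem Rel.append {A A' : List Ar} {D D' : List Pl} (h : Rel A D) (h' : Rel A' D') :
    Rel (A ++ A') (D ++ D') := by
  obtain ⟨T, h1, h2, h3, h4⟩ := h
  obtain ⟨T', g1, g2, g3, g4⟩ := h'
  refine ⟨T ++ T', fun r c => ?_, fun t ht => ?_, fun t ht => ?_, fun x => ?_⟩
  · rw [List.map_append, List.sum_append, h1, g1, List.map_append, List.sum_append]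
  · rcases List.mem_append.1 ht with ht | ht
    · obtain ⟨a, ha, e⟩ := h2 t ht
      exact ⟨a, List.mem_append_left _ ha, e⟩
    · obtain ⟨a, ha, e⟩ := g2 t ht
      exact ⟨a, List.mem_append_right _ ha, e⟩
  · rcases List.mem_append.1 ht with ht | ht
    · exact (h3 t ht).imp_left (List.mem_append_left _)
    · exact (g3 t ht).imp_left (List.mem_append_right _)
  · rw [List.countP_append, List.countP_append]
    exact add_le_add (h4 x) (g4 x)

theorem Rel.const {A : List Ar} (h : ∀ a ∈ A, ∃ c, a.2.2 = [(c, [])]) : Rel A [] := by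
  have hc : ∀ a ∈ A, ∃ c, (a.2.2.map monoPoly).sum = MvPolynomial.C c := fun a ha => by
    obtain ⟨c, e⟩ := h a ha
    exact ⟨c, by simp [e, monoPoly_cst]⟩
  refine ⟨A.map fun a => (a.1, a.2.1, (a.2.2.map monoPoly).sum), fun r c => ?_, fun t ht => ?_,
    fun t ht => ?_, fun x => ?_⟩
  · rw [List.map_map]; rfl
  · obtain ⟨a, ha, rfl⟩ := List.mem_map.1 ht
    exact ⟨a, ha, rfl, rfl⟩
  · obtain ⟨a, ha, rfl⟩ := List.mem_map.1 ht
    exact Or.inr (hc a ha)
  · refine le_of_eq (List.countP_eq_zero.2 fun t ht => ?_)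
    obtain ⟨a, ha, rfl⟩ := List.mem_map.1 ht
    obtain ⟨c, e⟩ := hc a ha
    simp [e]

theorem Rel.leaf (r c : ℕ) (p : List (ℚ × List ℕ)) (d : List Pl)
    (h : d.sum = (p.map monoPoly).sum) : Rel [(r, c, p)] d := by
  refine ⟨d.map fun q => (r, c, q), fun r' c' => ?_, fun t ht => ?_, fun t ht => ?_, fun x => ?_⟩
  · by_cases e : r = r' ∧ c = c' <;> simp [e, ← h, Function.comp_def]
  · obtain ⟨q, -, rfl⟩ := List.mem_map.1 ht
    exact ⟨_, List.mem_singleton_self _, rfl, rfl⟩
  · obtain ⟨q, hq, rfl⟩ := List.mem_map.1 ht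
    exact Or.inl hq
  · rw [List.countP_map]; rfl

theorem rel_arcF (F : Frm) (o : ℕ) (D : List (List Pl)) (h : D.map List.sum = F.leaves) :
    Rel (arcF o F) D.flatten := by
  induction F generalizing o D with
  | leaf p =>
    obtain ⟨d, D', rfl, e, h'⟩ := List.map_eq_cons_iff.1 h
    obtain rfl := List.map_eq_nil_iff.1 h'
    simpa [arcF] using Rel.leaf _ _ p d e
  | add f g hf hg =>
    obtain ⟨D₁, D₂, rfl, e₁, e₂⟩ := List.map_eq_append_iff.1 h
    rw [List.flatten_append, ← List.append_nil (_ ++ D₂.flatten), arcF]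
    exact ((hf o D₁ e₁).append (hg _ D₂ e₂)).append (Rel.const (by simp))
  | mul f g hf hg =>
    obtain ⟨D₁, D₂, rfl, e₁, e₂⟩ := List.map_eq_append_iff.1 h
    rw [List.flatten_append, ← List.append_nil (_ ++ D₂.flatten), arcF]
    exact ((hf o D₁ e₁).append (hg _ D₂ e₂)).append (Rel.const (by simp))

theorem rel_allR (m : ℕ) (E : List (ℕ × ℕ × Frm)) (o : ℕ) (D : List (List Pl))
    (h : D.map List.sum = E.flatMap fun e => e.2.2.leaves) : Rel (allR m o E) D.flatten := by
  induction E generalizing o D with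
  | nil =>
    obtain rfl := List.map_eq_nil_iff.1 h
    exact Rel.const (by simp [allR])
  | cons e E ih =>
    rw [List.flatMap_cons] at h
    obtain ⟨D₁, D₂, rfl, e₁, e₂⟩ := List.map_eq_append_iff.1 h
    rw [List.flatten_append, allR]
    refine Rel.append ?_ (ih _ D₂ e₂)
    exact (Rel.const (A := [(2 * m + e.1, 2 * (o + gts e.2.2 - 1), [(1, [])]),
      (2 * (o + gts e.2.2 - 1) + 1, 2 * m + e.2.1, [(1, [])])]) (by simp)).append
      (rel_arcF e.2.2 o D₁ e₁)

theorem arcF_range (F : Frm) (o : ℕ) :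
    ∀ a ∈ arcF o F, a.1 < 2 * (o + gts F) ∧ a.2.1 < 2 * (o + gts F) := by
  induction F generalizing o with
  | leaf p => simp [arcF, gts]; omega
  | add f g hf hg =>
    intro m hm
    simp only [arcF, List.mem_append, List.mem_cons, List.not_mem_nil, or_false] at hm
    rw [gts]
    rcases hm with (hm | hm) | rfl | rfl | rfl | rfl
    · have := hf o m hm; omega
    · have := hg _ m hm; omega
    all_goals dsimp only; omega
  | mul f g hf hg =>
    intro m hm
    simp only [arcF, List.mem_append, List.mem_cons, List.not_mem_nil, or_false] at hm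
    rw [gts]
    rcases hm with (hm | hm) | rfl | rfl | rfl
    · have := hf o m hm; omega
    · have := hg _ m hm; omega
    all_goals dsimp only; omega

theorem allR_range (m n : ℕ) (E : List (ℕ × ℕ × Frm)) (hE : ∀ e ∈ E, e.1 < n ∧ e.2.1 < n) (o : ℕ)
    (ho : o + totF E ≤ m) : ∀ a ∈ allR m o E, a.1 < 2 * m + n ∧ a.2.1 < 2 * m + n := by
  induction E generalizing o with
  | nil => simp [allR]
  | cons e E ih =>
    intro a ha
    have h0 := gts_pos e.2.2
    have h1 := hE e List.mem_cons_self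
    have h2 : totF (e :: E) = gts e.2.2 + totF E := by simp [totF]
    simp only [allR, List.mem_append, List.mem_cons] at ha
    rcases ha with (rfl | rfl | ha) | ha
    · dsimp only; omega
    · dsimp only; omega
    · have := arcF_range _ _ a ha; omega
    · exact ih (fun e he => hE e (List.mem_cons_of_mem _ he)) _ (by omega) a ha

end PL3

open PL3

theorem readsLE_sublist {L L' : List (MvPolynomial ℕ ℚ)} {k : ℕ} (h : ReadsLE L k)
    (hs : L'.Sublist L) : ReadsLE L' k := by
  obtain ⟨D, rfl, h2, h3⟩ := h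
  obtain ⟨D', hD, rfl⟩ := List.sublist_map_iff.1 hs
  exact ⟨D', rfl, fun p hp => h2 p (hD.flatten.subset hp),
    fun x => (hD.flatten.countP_le).trans (h3 x)⟩

theorem big_read (n k : ℕ) (E : List (ℕ × ℕ × Frm)) (hE : ∀ e ∈ E, e.1 < n ∧ e.2.1 < n)
    (h : ReadsLE (E.flatMap fun e => e.2.2.leaves) k) :
    ReadLE (polyMatrix (bigM n (E.map cd))) k := by
  obtain ⟨D, h1, h2, h3⟩ := h
  obtain ⟨T, g1, g2, g3, g4⟩ : Rel (diagA (totF E) ++ allR (totF E) 0 E) ([] ++ D.flatten) :=
    (Rel.const (by simp [diagA])).append (rel_allR _ E 0 D h1)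
  rw [List.nil_append] at g3 g4
  have hr : ∀ t ∈ T, t.1 < (bigM n (E.map cd)).length ∧ t.2.1 < (bigM n (E.map cd)).length := by
    intro t ht
    obtain ⟨a, ha, e1, e2⟩ := g2 t ht
    rw [bigM_length, e1, e2]
    rcases List.mem_append.1 ha with ha | ha
    · obtain ⟨v, hv, rfl⟩ := List.mem_map.1 ha
      have := List.mem_range.1 hv
      dsimp only; omega
    · exact allR_range _ n E hE 0 (by omega) a ha
  refine ⟨T.length, fun j => (⟨T[j].1, (hr _ (by simp)).1⟩, ⟨T[j].2.1, (hr _ (by simp)).2⟩),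
    fun j => T[j].2.2, fun r c => ?_, fun j => ?_, fun x => ?_⟩
  · rw [polyMatrix_bigM, sum_filter]
    simp only [Bool.and_eq_true, decide_eq_true_eq]
    rw [g1, Finset.sum_filter, ← Fin.sum_univ_fun_getElem]
    refine Finset.sum_congr rfl fun j _ => if_congr ?_ rfl rfl
    simp [Prod.ext_iff, Fin.ext_iff]
  · rcases g3 T[j] (by simp) with e | ⟨c, e⟩
    · exact h2 _ e
    · exact Or.inl (by dsimp only; rw [e]; simp)
  · refine le_trans (le_of_eq ?_) ((g4 x).trans (h3 x))
    rw [Finset.card_filter, countP_eq, ← Fin.sum_univ_fun_getElem]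
    simp

end Pool.Agent.P.MP_08e617_lc.Rk
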