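import Pool.Agent.P.MP_08e617_lc.RkC
import Pool.Agent.P.MP_08e617_lc.RkD2
import Pool.Agent.P.MP_08e617_lc.RkF
import Pool.Agent.P.MP_08e617_lc.RkG
import Pool.Agent.P.MP_08e617_lc.RkJ

/-! Correctness of the algorithm for matrices of sparse polynomials. -/

namespace Pool.Agent.P.MP_08e617_lc.Rk

open Pool.Agent.Lib.helper21 Module MvPolynomial

namespace PM

theorem mem_prs {k w : ℕ} {I : Inp} {x : List ℕ × List ℕ} :
    x ∈ prs k w I ↔ x.1 ∈ fam k w I ∧ x.2 ∈ fam k w I := by
  obtain ⟨u, v⟩ := x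
  simp [prs]

theorem mat_eval (k : ℕ) (I : Inp) (p : ℕ → ℚ) :
    (Matrix.of fun r c : Fin (gr k I).n => (gr k I).mat (gr k I).All
      (fun e => eval p (part k I e)) r c) =
      (((dens I).prod : ℤ) : ℚ) • (polyMatrix I).map (eval p) := by
  ext r c
  have := congrArg (eval p) (mat_part k I r c)
  simp only [Gr.mat, map_sum, map_mul, eval_C] at this
  exact this

theorem det_smul_eq (I : Inp) (p : ℕ → ℚ) :
    ((((dens I).prod : ℤ) : ℚ) • (polyMatrix I).map (eval p)).det = 0 ↔
      eval p (polyMatrix I).det = 0 := by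
  rw [Matrix.det_smul, RingHom.map_det, RingHom.mapMatrix_apply, mul_eq_zero,
    or_iff_right (pow_ne_zero _ (dens_ne I))]

theorem algR_iff (k w t : ℕ) (I : Inp) :
    algR k w t I = true ↔ eval (fa (finR k w t I)) (polyMatrix I).det = 0 := by
  rw [algR, decide_eq_true_eq, kd_spec, inf_idem, ev_spec, ker_smul' (dens_ne I), RingHom.map_det,
    RingHom.mapMatrix_apply, ← Matrix.exists_mulVec_eq_zero_iff, Nat.pos_iff_ne_zero, Ne,
    Submodule.finrank_eq_zero, ← Ne, Submodule.ne_bot_iff]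
  simp [and_comm]

theorem vs_all (k : ℕ) (I : Inp) (h : (polyMatrix I).det ≠ 0) :
    (gr k I).vs (gr k I).All = Finset.range (2 * (gr k I).n) := by
  have hG := gr_ok k I
  have hz : ∀ r c : Fin I.length, (∀ e ∈ (gr k I).All, ¬ ((gr k I).rw e = r ∧ (gr k I).cl e = c)) →
      polyMatrix I r c = 0 := fun r c he => by
    have := mat_part k I r c
    rw [Gr.mat, Finset.filter_false_of_mem he, Finset.sum_empty] at this
    exact (mul_eq_zero.1 this.symm).resolve_left (by simpa using dens_ne I)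
  ext x
  simp only [Gr.vs, Finset.mem_union, Finset.mem_image, Finset.mem_range]
  constructor
  · rintro (⟨e, he, rfl⟩ | ⟨e, he, rfl⟩) <;> have := hG e he <;> omega
  · intro hx
    by_contra hn
    push Not at hn
    by_cases hlt : x < I.length
    · exact h (Matrix.det_eq_zero_of_row_eq_zero ⟨x, hlt⟩ fun c =>
        hz _ _ fun e he h => hn.1 e he h.1)
    · have hx' : x < 2 * I.length := hx
      refine h (Matrix.det_eq_zero_of_column_eq_zero ⟨x - I.length, by omega⟩ fun r =>
        hz _ _ fun e he h => hn.2 e he ?_)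
      have h2 : (gr k I).cl e = x - I.length := h.2
      show I.length + _ = x
      omega

theorem eval_cub (α : ℕ →₀ ℕ) (c : ℚ) (a y : ℕ → ℚ) (hy : ∀ j, y j ≠ 0) (S Z : Finset ℕ) :
    eval (cub a y S Z) (monomial α c) = eval (cub a y S ∅) (monomial α c) *
      ∏ i ∈ Z, if i ∈ S then (a i / y i) ^ α i else 1 := by
  have h1 : (∏ i ∈ Z, if i ∈ S then (a i / y i) ^ α i else 1) =
      ∏ i ∈ α.support, if i ∈ Z then (if i ∈ S then (a i / y i) ^ α i else 1) else 1 := by
    rw [Finset.prod_ite_mem α.support Z]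
    refine (Finset.prod_subset Finset.inter_subset_right fun i h1 h2 => ?_).symm
    have : α i = 0 := by simpa [h1] using h2
    simp [this]
  rw [eval_monomial, eval_monomial, h1, Finsupp.prod, Finsupp.prod, mul_assoc,
    ← Finset.prod_mul_distrib]
  congr 1
  refine Finset.prod_congr rfl fun i _ => ?_
  by_cases h2 : i ∈ S <;> by_cases h3 : i ∈ Z <;> simp [cub, h2, h3, ← mul_pow, mul_div_cancel₀, hy]

end PM

open PM

theorem algR_correct (k w : ℕ) : ∃ t, ∀ I : Inp, ReadLE (polyMatrix I) k →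
    BranchLE (polyMatrix I) w → (algR k w t I = true ↔ (polyMatrix I).det = 0) := by
  obtain ⟨t, ht⟩ := core k (2 ^ bw w) (k * 2 ^ k)
  refine ⟨t, fun I hR hB => ?_⟩
  rw [algR_iff]
  refine ⟨fun h0 => ?_, fun h => by rw [h, map_zero]⟩
  by_contra hdet
  have hn : 0 < I.length := by
    refine Nat.pos_of_ne_zero fun hn => ?_
    have : IsEmpty (Fin I.length) := by rw [hn]; infer_instance
    simp at h0
  have hG := gr_ok k I
  obtain ⟨f0, f1, f2⟩ := fam_spec k w I hG fun R hR h2 hb =>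
    exists_split (gr k I) hG (polyMatrix I) hB (edge_ne k I) hR h2 hb
  set a := finR k w t I with ha
  obtain ⟨m1, m2⟩ := finR_min k w t I
  let N : Finset ℕ → Prop := fun R => ∃ l ∈ fam k w I, l.toFinset = R
  have n0 : N ∅ := ⟨[], f0, rfl⟩
  have spl : ∀ R, N R → 2 ≤ R.card → ∃ R', N R' ∧ R' ⊆ R ∧ R'.Nonempty ∧ R' ≠ R ∧ N (R \ R') := by
    rintro _ ⟨l, hl, rfl⟩ h2
    obtain ⟨l₁, a1, l₂, a2, a3, a4, a5, a6⟩ := (f2 l hl).2.2.2 h2
    exact ⟨_, ⟨l₁, a1, rfl⟩, a3, a4, a5, l₂, a2, a6⟩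
  have hrk : ∀ x ∈ prs k w I, x.2.toFinset ⊆ x.1.toFinset → ∀ p, rkAt (evP k w I x) p =
      (gr k I).rk x.1.toFinset x.2.toFinset fun e => eval p (part k I e) := fun x hx hs p => by
    obtain ⟨x1, x2⟩ := mem_prs.1 hx
    obtain ⟨i1, i2⟩ := idx_spec k w I hG x.1 (f2 _ x1).2.1 (f2 _ x1).2.2.1
    obtain ⟨j1, j2⟩ := idx_spec k w I hG x.2 (f2 _ x2).2.1 (f2 _ x2).2.2.1
    rw [rkAt, evP_eval]
    exact rank_ev (gr k I) hG (f2 _ x1).2.1 hs _ (Nat.le_add_right _ _) (Nat.le_add_left _ _)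
      (fun i => ((idx k w I x.1).getD i []).toFinset)
      (fun i => ((idx k w I x.2).getD i []).toFinset) i1 i2 j1 j2
      (Nat.cast_ne_zero.2 (Nat.factorial_ne_zero _))
  have hgen := local_gen (prs k w I) (szC k w I) (evP k w I) (I.length * dg I) (nv I) (grid k w I) t
    (fun x _ => evP_deg k w I x) (fun x hx p q hpq => by
      have e : (gr k I).mat (x.1.toFinset \ x.2.toFinset) (fun e => eval p (part k I e)) =
          (gr k I).mat (x.1.toFinset \ x.2.toFinset) fun e => eval q (part k I e) := by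
        funext r c
        refine Finset.sum_congr rfl fun e he => ?_
        have he' := (f2 _ (mem_prs.1 hx).1).2.1
          (Finset.mem_sdiff.1 (Finset.mem_filter.1 he).1).1
        obtain ⟨b1, b2, -⟩ := part_spec k I e he'
        exact b2 p q fun i hi => hpq i (Finset.mem_range.1 (b1 hi))
      rw [rkAt, rkAt, evP_eval, evP_eval, e]) (Nat.lt_succ_self _) a fun b hb => by
      rw [← pot_spec k w I hn fun l hl => (f2 l hl).1, ← pot_spec k w I hn fun l hl => (f2 l hl).1]
      exact m1 b hb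
  obtain ⟨p₁, hp₁⟩ : ∃ p, eval p (polyMatrix I).det ≠ 0 := by
    by_contra hh
    push Not at hh
    exact hdet (MvPolynomial.funext fun p => by rw [hh, map_zero])
  have hp₀ : eval (fun j => if j < nv I then p₁ j else fa a j) (polyMatrix I).det ≠ 0 := by
    rwa [RingHom.map_det, RingHom.mapMatrix_apply, eval_congr I (c := p₁) fun i hi => if_pos hi,
      ← RingHom.mapMatrix_apply, ← RingHom.map_det]
  have hx₀ : (edges k I, []) ∈ prs k w I := mem_prs.2 ⟨f1, f0⟩
  have hroot : ∀ p, rkAt (evP k w I (edges k I, [])) p = 0 ↔ eval p (polyMatrix I).det = 0 :=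
    fun p => by
      rw [hrk _ hx₀ (by simp), ← det_smul_eq, ← mat_eval k]
      exact rk_root (gr k I) hG (vs_all k I hdet) _
  obtain ⟨S, y, s1, s2, ⟨x, hx, gx, s3⟩, s4⟩ := exists_cube (prs k w I)
    (fun x => Desc N x.1.toFinset x.2.toFinset) (szC k w I) (evP k w I) (fa a) t hgen hx₀
    (desc_empty n0 spl ⟨_, f1, rfl⟩) (Finset.range (nv I))
    (fun j => if j < nv I then p₁ j else fa a j) (fun j hj => if_neg (by simpa using hj)) (by
      rw [(hroot _).2 h0]
      exact Nat.pos_of_ne_zero fun h => hp₀ ((hroot _).1 h))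
  obtain ⟨X, e1, e2, e3⟩ := exists_sys (gr k I) hG k (bw w) N (affE I)
    (fun Z e => eval (cub (fa a) y S Z) (part k I e)) n0 spl
    (by rintro _ ⟨l, hl, rfl⟩; exact ⟨(f2 l hl).2.1, (f2 l hl).2.2.1⟩)
    (fun e he Z Z' h => (part_spec k I e he).2.1 _ _ fun i hi => by simp [cub, h i hi])
    (fun e he => (part_spec k I e he).2.2.imp_right fun ⟨c, hc⟩ =>
      ⟨fun i => if i ∈ S then (fa a i / y i) ^ expo (mo I e).2.2.2 i else 1, fun i => by
        dsimp only
        split_ifs
        · by_cases h : expo (mo I e).2.2.2 i = 0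
          · simp [h]
          · exact pow_ne_zero _ (div_ne_zero (m2 i (Finset.mem_range.1
              ((part_spec k I e he).1 (Finsupp.mem_support_iff.2 h)))) (s2 i))
        · exact one_ne_zero, fun Z => by rw [hc]; exact eval_cub _ _ _ _ s2 _ _⟩)
  have hSne : S.Nonempty := Finset.card_pos.1 (by omega)
  have hyp : X.Hyp S := by
    intro u h d Z hZ hne
    rw [e1] at d
    obtain ⟨⟨l, hl, rfl⟩, ⟨l', hl', rfl⟩, hs⟩ := PC.desc_props d
    have hx' : (l, l') ∈ prs k w I := mem_prs.2 ⟨hl, hl'⟩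
    rw [e3, e3]
    exact ((hrk _ hx' hs _).symm.trans (s4 _ hx' d Z hZ hne)).trans
      ((s4 _ hx' d S (Finset.Subset.refl _) hSne).symm.trans (hrk _ hx' hs _))
  have hs := (PC.desc_props gx).2.2
  have := ht Fn X S hyp s1 _ _ (e1 ▸ gx) fun i => by
    rw [e2]
    exact (Finset.card_le_card (Finset.filter_subset_filter _ (Finset.sdiff_subset.trans
      (f2 _ (mem_prs.1 hx).1).2.1))).trans (read_le k I hR i)
  rw [e3, e3, ← hrk x hx hs, ← hrk x hx hs, s4 x hx gx S (Finset.Subset.refl _) hSne] at this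
  omega

end Pool.Agent.P.MP_08e617_lc.Rk
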