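import Pool.Agent.P.MP_08e617_lc.RkM
import Pool.Agent.P.MP_08e617_lc.RkL1
import Pool.Agent.P.MP_08e617_lc.RkL2
import Pool.Agent.P.MP_08e617_lc.RkL3

/-! Correctness of the algorithm for matrices of formulas. -/

namespace Pool.Agent.P.MP_08e617_lc.Rk

open Pool.Agent.Lib.helper21

namespace PN

theorem mem_ents {β : Type} {J : List (List β)} {d : β} {e : ℕ × ℕ × β} : e ∈ ents J d ↔
    e.1 < J.length ∧ e.2.1 < (J.getD e.1 []).length ∧ e.2.2 = (J.getD e.1 []).getD e.2.1 d := by
  obtain ⟨p, q, x⟩ := e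
  simp only [ents, List.mem_flatMap, List.mem_range, List.mem_map, Prod.mk.injEq]
  constructor
  · rintro ⟨p, hp, q, hq, rfl, rfl, rfl⟩
    exact ⟨hp, hq, rfl⟩
  · rintro ⟨hp, hq, rfl⟩
    exact ⟨p, hp, q, hq, rfl, rfl, rfl⟩

theorem map_getD_range {β : Type} (l : List β) (d : β) :
    ((List.range l.length).map fun q => l.getD q d) = l := by
  refine List.ext_getElem (by simp) fun i h1 h2 => ?_
  simp [List.getD_eq_getElem?_getD, h2]

theorem ents_snd {β : Type} (J : List (List β)) (d : β) :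
    ((ents J d).map fun e => e.2.2) = J.flatten := by
  rw [ents, List.map_flatMap]
  simp only [List.map_map, Function.comp_def, map_getD_range]
  rw [List.flatMap_def, map_getD_range]

theorem ents_nodup {β : Type} (J : List (List β)) (d : β) :
    ((ents J d).map fun e => (e.1, e.2.1)).Nodup := by
  rw [ents, List.map_flatMap, List.nodup_flatMap]
  simp only [List.map_map, Function.comp_def]
  refine ⟨fun p _ => List.nodup_range.map fun a b h => (Prod.ext_iff.1 h).2,
    List.nodup_range.imp fun {a b} hab => ?_⟩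
  intro x h1 h2
  obtain ⟨_, -, rfl⟩ := List.mem_map.1 h1
  obtain ⟨_, -, h⟩ := List.mem_map.1 h2
  exact hab (Prod.ext_iff.1 h).1.symm

theorem ents_code (J : List (List Frm)) :
    ents (J.map fun r => r.map Frm.code) [] = (ents J (.leaf [])).map cd := by
  rw [ents, ents, List.map_flatMap, List.length_map]
  refine List.flatMap_congr fun p hp => ?_
  have e : (J.map fun r => r.map Frm.code).getD p [] = (J.getD p []).map Frm.code := by
    simp [List.getD_eq_getElem?_getD, List.mem_range.1 hp]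
  rw [e, List.length_map, List.map_map]
  refine List.map_congr_left fun q hq => ?_
  generalize J.getD p [] = r at hq ⊢
  simp [cd, List.getD_eq_getElem?_getD, List.mem_range.1 hq]

theorem sum_filter_nodup {β γ M : Type} [AddCommMonoid M] (L : List β) (f : β → γ)
    (hn : (L.map f).Nodup) (q : β → Bool) (g : β → M) (x : β) (hx : x ∈ L) (hq : q x = true)
    (h : ∀ y ∈ L, q y = true → f y = f x) : ((L.filter q).map g).sum = g x := by
  have h1 : L.filter q = [x] := by
    have hL := hn.of_map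
    refine List.perm_singleton.1 ((List.perm_ext_iff_of_nodup (hL.filter _) (by simp)).2 fun y => ?_)
    simp only [List.mem_filter, List.mem_singleton]
    exact ⟨fun hy => List.inj_on_of_nodup_map hn hy.1 hx (h y hy.1 hy.2), fun e => e ▸ ⟨hx, hq⟩⟩
  simp [h1]

theorem branch_one : BranchLE (1 : Matrix (Fin 1) (Fin 1) (MvPolynomial ℕ ℚ)) 0 := by
  refine ⟨{supp 1}, rfl, ?_⟩
  rintro _ rfl
  refine ⟨by simp [cutw], fun h => absurd (h.trans (Finset.card_le_univ _)) (by simp)⟩

/-- A machine for codes is a machine for the coded objects. -/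
def tmComp {α β γ : Type} {e : β → List Bool} {e' : γ → List Bool} {f : β → γ}
    (M : Turing.TM2ComputableInPolyTime e e' f) (c : α → β) (e₀ : α → List Bool)
    (h : ∀ a, e₀ a = e (c a)) : Turing.TM2ComputableInPolyTime e₀ e' fun a => f (c a) :=
  ⟨M.toTM2ComputableAux, M.time, fun a => h a ▸ M.outputsFun (c a)⟩

end PN

open PN

theorem algF_correct (k w : ℕ) : ∃ w₀ t₀ w₁ t₁, ∀ J : List (List Frm),
    ReadsLE (J.flatten.flatMap Frm.leaves) k → BranchLE (frmMatrix J) w →
    (algF k w₀ t₀ w₁ t₁ (J.map fun r => r.map Frm.code) = true ↔ (frmMatrix J).det = 0) := by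
  classical
  obtain ⟨b, hb⟩ := big_branch
  obtain ⟨t₀, h₀⟩ := algR_correct k (0 + b)
  obtain ⟨t₁, h₁⟩ := algR_correct k (w + b)
  refine ⟨0 + b, t₀, w + b, t₁, fun J hR hB => ?_⟩
  have hR' : ReadsLE ((ents J (.leaf [])).flatMap fun e => e.2.2.leaves) k := by
    rwa [← ents_snd J (.leaf []), List.flatMap_map] at hR
  have hz : ∀ e ∈ ents J (.leaf []),
      algR k (0 + b) t₀ (bigM 1 [(0, 0, e.2.2.code)]) = decide (e.2.2.poly = 0) := fun e he => by
    have e1 : ∀ x ∈ [((0, 0, e.2.2) : ℕ × ℕ × Frm)], x.1 < 1 ∧ x.2.1 < 1 := by simp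
    have := (h₀ _ (big_read 1 k _ e1 (readsLE_sublist hR' (by
      simpa [List.flatMap_def] using List.sublist_flatten_of_mem
        (List.mem_map_of_mem (f := fun e : ℕ × ℕ × Frm => e.2.2.leaves) he))))
      (hb 1 0 _ 1 branch_one (by simp) (by simp))).trans (big_det 1 _ e1)
    rw [Bool.eq_iff_iff, decide_eq_true_eq]
    simpa [entM, cd] using this
  let E := (ents J (.leaf [])).filter fun e => decide (e.2.1 < J.length) && !decide (e.2.2.poly = 0)
  have hE : ∀ e, e ∈ E ↔ e ∈ ents J (.leaf []) ∧ e.2.1 < J.length ∧ e.2.2.poly ≠ 0 := by simp [E]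
  have hlt : ∀ e ∈ E, e.1 < J.length ∧ e.2.1 < J.length := fun e he =>
    ⟨(mem_ents.1 ((hE e).1 he).1).1, ((hE e).1 he).2.1⟩
  have hnd : (E.map fun e => (e.1, e.2.1)).Nodup :=
    (ents_nodup J (.leaf [])).sublist (List.filter_sublist.map _)
  have hM : entM J.length E = frmMatrix J := by
    ext1 p q
    rw [entM, frmMatrix, Matrix.of_apply, Matrix.of_apply]
    by_cases h : ((J.getD p []).getD q (.leaf [])).poly = 0
    · rw [h]
      refine List.sum_eq_zero fun x hx => ?_
      obtain ⟨e, he, rfl⟩ := List.mem_map.1 hx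
      simp only [List.mem_filter, Bool.and_eq_true, decide_eq_true_eq] at he
      rw [(mem_ents.1 ((hE e).1 he.1).1).2.2, he.2.1, he.2.2, h]
    · refine sum_filter_nodup E _ hnd _ (fun e => e.2.2.poly)
        (p.1, q.1, (J.getD p []).getD q (.leaf [])) ((hE _).2 ⟨mem_ents.2 ⟨p.2, ?_, rfl⟩, q.2, h⟩)
        (by simp) fun y _ hy => by simpa using hy
      by_contra hh
      exact h (by rw [List.getD_eq_default _ _ (Nat.le_of_not_lt hh)]; rfl)
  have hA : algF k (0 + b) t₀ (w + b) t₁ (J.map fun r => r.map Frm.code) =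
      algR k (w + b) t₁ (bigM J.length (E.map cd)) := by
    rw [algF, ents_code, List.length_map, List.filter_map]
    congr 3
    exact List.filter_congr fun e he => by
      simp only [Function.comp, cd, hz e he]
      rfl
  rw [hA, h₁ _ (big_read _ k E hlt (readsLE_sublist hR' (List.filter_sublist.flatMap _)))
    (hb _ w E _ hB hnd fun e he => ⟨(hlt e he).1, (hlt e he).2, ?_⟩), big_det _ E hlt, hM]
  have := (hE e).1 he
  rw [frmMatrix, Matrix.of_apply, ← (mem_ents.1 this.1).2.2]
  exact this.2.2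

theorem main_frm (k w : ℕ) : ∃ f : List (List Frm) → Bool,
    Nonempty (Turing.TM2ComputableInPolyTime encFrm Computability.encodeBool f) ∧
    ∀ J : List (List Frm), ReadsLE (J.flatten.flatMap Frm.leaves) k → BranchLE (frmMatrix J) w →
      (f J = true ↔ (frmMatrix J).det = 0) := by
  obtain ⟨w₀, t₀, w₁, t₁, h⟩ := algF_correct k w
  obtain ⟨M⟩ := (pt_algF (pt_algR k w₀ t₀) (pt_algR k w₁ t₁)).toTM2
  generalize algF k w₀ t₀ w₁ t₁ = g at h M
  have M' := tmComp M (fun J : List (List Frm) => J.map fun r => r.map Frm.code) encFrm encFrm_eq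
  exact ⟨_, ⟨M'⟩, h⟩

end Pool.Agent.P.MP_08e617_lc.Rk
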