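import Mathlib

/-! The points of the hitting set: definitions used in the statement. -/

namespace Pool.Agent.P.MP_08e617_lc

/-- The Lagrange polynomial for the node `i` among the nodes `0, …, N - 1`, evaluated at `y`. -/
def lag (N i : ℕ) (y : ℚ) : ℚ := ∏ l ∈ (Finset.range N).erase i, (y - l) / (i - l)

/-- The point with coordinates `∑ j, z j * lag N i (y j)`. -/
def svPt (N : ℕ) {T : ℕ} (y z : Fin T → ℕ) : ℕ → ℚ := fun i => ∑ j, (z j : ℚ) * lag N i (y j)

end Pool.Agent.P.MP_08e617_lc
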