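import Pool.Agent.P.MP_08e617_lc.RkB
import Pool.Agent.P.MP_08e617_lc.RkFml

/-! The matrix of a formula: gate `j` has a source `2 j` and a sink `2 j + 1`. -/

namespace Pool.Agent.P.MP_08e617_lc.Rk

open Pool.Agent.Lib.helper21

/-- The exponent list of the variable `i`. -/
def unitL (i : ℕ) : List ℕ := (List.range (i + 1)).map fun x => cond (decide (x = i)) 1 0

/-- The weighted arcs of the gate `g` at place `j`. -/
def arcsG (j : ℕ) (g : ℚ × List ℕ) : List Mo :=
  cond (decide (g.2.getD 0 0 = 0)) [(2 * j, 2 * j + 1, 1, unitL (g.2.getD 1 0))]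
    (cond (decide (g.2.getD 0 0 = 1)) [(2 * j, 2 * j + 1, g.1, [])]
      (cond (decide (g.2.getD 0 0 = 2))
        [(2 * j, 2 * (j - 1 - g.2.getD 1 0), 1, []), (2 * j, 2 * (j - 1), 1, []),
          (2 * (j - 1 - g.2.getD 1 0) + 1, 2 * j + 1, 1, []), (2 * (j - 1) + 1, 2 * j + 1, 1, [])]
        [(2 * j, 2 * (j - 1 - g.2.getD 1 0), 1, []),
          (2 * (j - 1 - g.2.getD 1 0) + 1, 2 * (j - 1), 1, []), (2 * (j - 1) + 1, 2 * j + 1, 1, [])]))

/-- All arcs of a list of gates. -/
def arcsP (P : List (ℚ × List ℕ)) : List Mo :=
  (List.range P.length).flatMap fun j => arcsG j (P.getD j (0, []))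

/-- All monomials of the matrix: the row of the last sink points to the last source, the other rows
have `-1` on the diagonal, and the arcs. -/
def allM (P : List (ℚ × List ℕ)) : List Mo :=
  (2 * P.length - 1, 2 * P.length - 2, 1, []) ::
    (((List.range (2 * P.length - 1)).map fun v => (v, v, -1, [])) ++ arcsP P)

/-- The matrix of a list of gates. -/
def emb (P : List (ℚ × List ℕ)) : Inp :=
  (List.range (2 * P.length)).map fun r => (List.range (2 * P.length)).map fun c =>
    ((allM P).filter fun m => decide (m.1 = r) && decide (m.2.1 = c)).map fun m => m.2.2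

/-- The number of gates. -/
def gates : Fml → ℕ
  | .var _ => 1
  | .cst _ => 1
  | .add f g => gates f + gates g + 1
  | .mul f g => gates f + gates g + 1

/-- The arcs of a formula whose first gate is at place `o`. -/
def arcsF (o : ℕ) : Fml → List Mo
  | .var i => [(2 * o, 2 * o + 1, 1, unitL i)]
  | .cst c => [(2 * o, 2 * o + 1, c, [])]
  | .add f g => arcsF o f ++ arcsF (o + gates f) g ++
      [(2 * (o + gates f + gates g), 2 * (o + gates f - 1), 1, []),
        (2 * (o + gates f + gates g), 2 * (o + gates f + gates g - 1), 1, []),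
        (2 * (o + gates f - 1) + 1, 2 * (o + gates f + gates g) + 1, 1, []),
        (2 * (o + gates f + gates g - 1) + 1, 2 * (o + gates f + gates g) + 1, 1, [])]
  | .mul f g => arcsF o f ++ arcsF (o + gates f) g ++
      [(2 * (o + gates f + gates g), 2 * (o + gates f - 1), 1, []),
        (2 * (o + gates f - 1) + 1, 2 * (o + gates f + gates g - 1), 1, []),
        (2 * (o + gates f + gates g - 1) + 1, 2 * (o + gates f + gates g) + 1, 1, [])]

theorem gates_pos (F : Fml) : 0 < gates F := by cases F <;> simp [gates]

theorem code_length (F : Fml) : F.code.length = gates F := by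
  induction F with
  | var i => rfl
  | cst c => rfl
  | add f g hf hg => simp [Fml.code, gates, hf, hg, add_assoc]
  | mul f g hf hg => simp [Fml.code, gates, hf, hg, add_assoc]

/-- The arcs of a list of gates placed at `o`. -/
def arcsO (o : ℕ) : List (ℚ × List ℕ) → List Mo
  | [] => []
  | g :: P => arcsG o g ++ arcsO (o + 1) P

theorem arcsO_append (P Q : List (ℚ × List ℕ)) (o : ℕ) :
    arcsO o (P ++ Q) = arcsO o P ++ arcsO (o + P.length) Q := by
  induction P generalizing o with
  | nil => simp [arcsO]
  | cons g P ih => simp [arcsO, ih, add_assoc, add_comm 1]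

theorem arcsO_eq (P : List (ℚ × List ℕ)) (o : ℕ) :
    arcsO o P = (List.range P.length).flatMap fun j => arcsG (o + j) (P.getD j (0, [])) := by
  induction P generalizing o with
  | nil => simp [arcsO]
  | cons g P ih =>
    simp [arcsO, ih, List.range_succ_eq_map, List.flatMap_map, add_assoc, add_comm 1]

theorem arcsO_code (F : Fml) (o : ℕ) : arcsO o F.code = arcsF o F := by
  induction F generalizing o with
  | var i => simp [Fml.code, arcsO, arcsF, arcsG]
  | cst c => simp [Fml.code, arcsO, arcsF, arcsG]
  | add f g hf hg =>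
    have e : o + gates f + gates g - 1 - gates g = o + gates f - 1 := by omega
    simp [Fml.code, arcsO_append, arcsO, arcsF, arcsG, hf, hg, code_length, e]
  | mul f g hf hg =>
    have e : o + gates f + gates g - 1 - gates g = o + gates f - 1 := by omega
    simp [Fml.code, arcsO_append, arcsO, arcsF, arcsG, hf, hg, code_length, e]

theorem arcsP_code (F : Fml) : arcsP F.code = arcsF 0 F := by
  rw [← arcsO_code, arcsO_eq, arcsP]; simp

theorem emb_length (P : List (ℚ × List ℕ)) : (emb P).length = 2 * P.length := by simp [emb]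

theorem polyMatrix_emb (P : List (ℚ × List ℕ)) (r c : Fin (emb P).length) :
    polyMatrix (emb P) r c = (((allM P).filter fun m =>
      decide (m.1 = r.1) && decide (m.2.1 = c.1)).map fun m => monoPoly m.2.2).sum := by
  have hr := r.2.trans_eq (emb_length P)
  have hc := c.2.trans_eq (emb_length P)
  rw [polyMatrix, Matrix.of_apply]
  generalize r.1 = r at hr ⊢
  generalize c.1 = c at hc ⊢
  simp [emb, List.getD_eq_getElem?_getD, hr, hc, Function.comp_def]

theorem monoPoly_unit (i : ℕ) : monoPoly (1, unitL i) = MvPolynomial.X i := by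
  simp only [monoPoly, unitL, map_one, one_mul, List.length_map, List.length_range]
  rw [Finset.prod_eq_single i]
  · simp [List.getD_eq_getElem?_getD]
  · intro b hb hi
    simp [List.getD_eq_getElem?_getD, Finset.mem_range.1 hb, hi]
  · simp

theorem monoPoly_nil (c : ℚ) : monoPoly (c, []) = MvPolynomial.C c := by simp [monoPoly]

end Pool.Agent.P.MP_08e617_lc.Rk
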