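import Pool.Agent.P.MP_08e617_lc.RkB
import Pool.Agent.P.MP_08e617_lc.RkFrm

/-! The matrix of a list of formulas placed at positions: gate `j` has a source `2 j` and a sink
`2 j + 1`; the rows and columns of the small matrix come last. -/

namespace Pool.Agent.P.MP_08e617_lc.Rk

open Pool.Agent.Lib.helper21

/-- Gates. -/
abbrev Gt := List ℕ × List (ℚ × List ℕ)
/-- Arcs: row, column and a list of monomials. -/
abbrev Ar := ℕ × ℕ × List (ℚ × List ℕ)

/-- The arcs of the gate `g` at place `j`. -/
def arcG (j : ℕ) (g : Gt) : List Ar :=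
  cond (decide (g.1.getD 0 0 = 0)) [(2 * j, 2 * j + 1, g.2)]
    (cond (decide (g.1.getD 0 0 = 1))
      [(2 * j, 2 * (j - 1 - g.1.getD 1 0), [(1, [])]), (2 * j, 2 * (j - 1), [(1, [])]),
        (2 * (j - 1 - g.1.getD 1 0) + 1, 2 * j + 1, [(1, [])]),
        (2 * (j - 1) + 1, 2 * j + 1, [(1, [])])]
      [(2 * j, 2 * (j - 1 - g.1.getD 1 0), [(1, [])]),
        (2 * (j - 1 - g.1.getD 1 0) + 1, 2 * (j - 1), [(1, [])]),
        (2 * (j - 1) + 1, 2 * j + 1, [(1, [])])])

/-- The arcs of a list of gates placed at `o`. -/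
def arcP (o : ℕ) (P : List Gt) : List Ar :=
  (List.range P.length).flatMap fun j => arcG (o + j) (P.getD j ([], []))

/-- The arcs of an entry, with the two arcs that connect it to its row and its column. -/
def blk (m o : ℕ) (e : ℕ × ℕ × List Gt) : List Ar :=
  (2 * m + e.1, 2 * (o + e.2.2.length - 1), [(1, [])]) ::
    (2 * (o + e.2.2.length - 1) + 1, 2 * m + e.2.1, [(1, [])]) :: arcP o e.2.2

/-- The number of gates in the first `i` entries. -/
def off (E : List (ℕ × ℕ × List Gt)) (i : ℕ) : ℕ :=
  ((List.range i).map fun j => (E.getD j (0, 0, [])).2.2.length).sum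

/-- The diagonal. -/
def diagA (m : ℕ) : List Ar := (List.range (2 * m)).map fun v => (v, v, [(-1, [])])

/-- All arcs. -/
def allB (E : List (ℕ × ℕ × List Gt)) : List Ar :=
  diagA (off E E.length) ++
    (List.range E.length).flatMap fun i => blk (off E E.length) (off E i) (E.getD i (0, 0, []))

/-- The big matrix. -/
def bigM (n : ℕ) (E : List (ℕ × ℕ × List Gt)) : Inp :=
  (List.range (2 * off E E.length + n)).map fun r =>
    (List.range (2 * off E E.length + n)).map fun c =>
      ((allB E).filter fun a => decide (a.1 = r) && decide (a.2.1 = c)).flatMap fun a => a.2.2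

/-- All entries with their positions. -/
def ents {β : Type} (J : List (List β)) (d : β) : List (ℕ × ℕ × β) :=
  (List.range J.length).flatMap fun p =>
    (List.range (J.getD p []).length).map fun q => (p, q, (J.getD p []).getD q d)

/-- The algorithm for matrices of formulas: drop the zero entries, then test the big matrix. -/
def algF (k w₀ t₀ w₁ t₁ : ℕ) (C : List (List (List Gt))) : Bool :=
  algR k w₁ t₁ (bigM C.length ((ents C []).filter fun e =>
    decide (e.2.1 < C.length) && !algR k w₀ t₀ (bigM 1 [(0, 0, e.2.2)])))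

/-- The code of an entry. -/
def cd (e : ℕ × ℕ × Frm) : ℕ × ℕ × List Gt := (e.1, e.2.1, e.2.2.code)

/-- The number of gates. -/
def gts : Frm → ℕ
  | .leaf _ => 1
  | .add f g => gts f + gts g + 1
  | .mul f g => gts f + gts g + 1

/-- The arcs of a formula whose first gate is at place `o`. -/
def arcF (o : ℕ) : Frm → List Ar
  | .leaf p => [(2 * o, 2 * o + 1, p)]
  | .add f g => arcF o f ++ arcF (o + gts f) g ++
      [(2 * (o + gts f + gts g), 2 * (o + gts f - 1), [(1, [])]),
        (2 * (o + gts f + gts g), 2 * (o + gts f + gts g - 1), [(1, [])]),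
        (2 * (o + gts f - 1) + 1, 2 * (o + gts f + gts g) + 1, [(1, [])]),
        (2 * (o + gts f + gts g - 1) + 1, 2 * (o + gts f + gts g) + 1, [(1, [])])]
  | .mul f g => arcF o f ++ arcF (o + gts f) g ++
      [(2 * (o + gts f + gts g), 2 * (o + gts f - 1), [(1, [])]),
        (2 * (o + gts f - 1) + 1, 2 * (o + gts f + gts g - 1), [(1, [])]),
        (2 * (o + gts f + gts g - 1) + 1, 2 * (o + gts f + gts g) + 1, [(1, [])])]

/-- The arcs of a list of entries whose first gate is at place `o`. -/
def allR (m : ℕ) : ℕ → List (ℕ × ℕ × Frm) → List Ar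
  | _, [] => []
  | o, e :: E => ((2 * m + e.1, 2 * (o + gts e.2.2 - 1), [(1, [])]) ::
      (2 * (o + gts e.2.2 - 1) + 1, 2 * m + e.2.1, [(1, [])]) :: arcF o e.2.2) ++
      allR m (o + gts e.2.2) E

/-- The total number of gates. -/
def totF (E : List (ℕ × ℕ × Frm)) : ℕ := (E.map fun e => gts e.2.2).sum

/-- The small matrix. -/
noncomputable def entM (n : ℕ) (E : List (ℕ × ℕ × Frm)) :
    Matrix (Fin n) (Fin n) (MvPolynomial ℕ ℚ) :=
  Matrix.of fun p q =>
    ((E.filter fun e => decide (e.1 = p.1) && decide (e.2.1 = q.1)).map fun e => e.2.2.poly).sum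

theorem gts_pos (F : Frm) : 0 < gts F := by cases F <;> simp [gts]

theorem code_len (F : Frm) : F.code.length = gts F := by
  induction F with
  | leaf p => rfl
  | add f g hf hg => simp [Frm.code, gts, hf, hg, add_assoc]
  | mul f g hf hg => simp [Frm.code, gts, hf, hg, add_assoc]

theorem arcP_cons (g : Gt) (P : List Gt) (o : ℕ) : arcP o (g :: P) = arcG o g ++ arcP (o + 1) P := by
  simp [arcP, List.range_succ_eq_map, List.flatMap_map, add_assoc, add_comm 1]

theorem arcP_append (P Q : List Gt) (o : ℕ) :
    arcP o (P ++ Q) = arcP o P ++ arcP (o + P.length) Q := by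
  induction P generalizing o with
  | nil => simp [arcP]
  | cons g P ih => simp [arcP_cons, ih, add_assoc, add_comm 1]

theorem arcP_code (F : Frm) (o : ℕ) : arcP o F.code = arcF o F := by
  induction F generalizing o with
  | leaf p => simp [Frm.code, arcP, arcF, arcG]
  | add f g hf hg =>
    have e : o + gts f + gts g - 1 - gts g = o + gts f - 1 := by omega
    rw [Frm.code, arcP_append, arcP_append, hf, hg]
    simp [arcP, arcF, arcG, code_len, e, ← add_assoc]
  | mul f g hf hg =>
    have e : o + gts f + gts g - 1 - gts g = o + gts f - 1 := by omega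
    rw [Frm.code, arcP_append, arcP_append, hf, hg]
    simp [arcP, arcF, arcG, code_len, e, ← add_assoc]

theorem off_cons (e : ℕ × ℕ × List Gt) (E : List (ℕ × ℕ × List Gt)) (i : ℕ) :
    off (e :: E) (i + 1) = e.2.2.length + off E i := by
  simp [off, List.range_succ_eq_map, Function.comp_def]

theorem off_code (E : List (ℕ × ℕ × Frm)) : off (E.map cd) (E.map cd).length = totF E := by
  induction E with
  | nil => rfl
  | cons e E ih => rw [List.map_cons, List.length_cons, off_cons, ih]; simp [totF, cd, code_len]

theorem blk_code (m : ℕ) (E : List (ℕ × ℕ × Frm)) (o : ℕ) :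
    ((List.range (E.map cd).length).flatMap fun i =>
      blk m (o + off (E.map cd) i) ((E.map cd).getD i (0, 0, []))) = allR m o E := by
  induction E generalizing o with
  | nil => rfl
  | cons e E ih =>
    rw [List.map_cons, List.length_cons, List.range_succ_eq_map, List.flatMap_cons,
      List.flatMap_map, allR, ← ih]
    simp [off_cons, blk, cd, code_len, arcP_code, add_assoc, show off _ 0 = 0 from rfl]

theorem allB_code (E : List (ℕ × ℕ × Frm)) :
    allB (E.map cd) = diagA (totF E) ++ allR (totF E) 0 E := by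
  rw [allB, off_code, ← blk_code]; simp

theorem bigM_length (n : ℕ) (E : List (ℕ × ℕ × Frm)) :
    (bigM n (E.map cd)).length = 2 * totF E + n := by
  rw [bigM, off_code]; simp

theorem polyMatrix_bigM (n : ℕ) (E : List (ℕ × ℕ × Frm)) (r c : Fin (bigM n (E.map cd)).length) :
    polyMatrix (bigM n (E.map cd)) r c = (((diagA (totF E) ++ allR (totF E) 0 E).filter fun a =>
      decide (a.1 = r.1) && decide (a.2.1 = c.1)).map fun a => (a.2.2.map monoPoly).sum).sum := by
  have hr := r.2.trans_eq (bigM_length n E)
  have hc := c.2.trans_eq (bigM_length n E)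
  rw [polyMatrix, Matrix.of_apply, ← allB_code]
  generalize r.1 = r at hr ⊢
  generalize c.1 = c at hc ⊢
  rw [bigM, off_code]
  simp only [List.getD_eq_getElem?_getD, List.getElem?_map, List.getElem?_range hr,
    List.getElem?_range hc, Option.map_some, Option.getD_some]
  generalize List.filter _ _ = L
  induction L with
  | nil => rfl
  | cons a L ih => simp [← ih]

theorem monoPoly_cst (c : ℚ) : monoPoly (c, []) = MvPolynomial.C c := by simp [monoPoly]

@[fun_prop] theorem pt_arcG {α : Type} [Enc α] {j : α → ℕ} {g : α → Gt} (hj : PT j) (hg : PT g) :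
    PT fun a => arcG (j a) (g a) := by unfold arcG; fun_prop

@[fun_prop] theorem pt_blk {α : Type} [Enc α] {m o : α → ℕ} {e : α → ℕ × ℕ × List Gt} (hm : PT m)
    (ho : PT o) (he : PT e) : PT fun a => blk (m a) (o a) (e a) := by unfold blk arcP; fun_prop

@[fun_prop] theorem pt_off {α : Type} [Enc α] {i : α → ℕ} {E : α → List (ℕ × ℕ × List Gt)}
    (hE : PT E) (hi : PT i) : PT fun a => off (E a) (i a) := by unfold off; fun_prop

@[fun_prop] theorem pt_allB {α : Type} [Enc α] {E : α → List (ℕ × ℕ × List Gt)} (hE : PT E) :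
    PT fun a => allB (E a) := by unfold allB diagA; fun_prop

@[fun_prop] theorem pt_bigM {α : Type} [Enc α] {n : α → ℕ} {E : α → List (ℕ × ℕ × List Gt)}
    (hn : PT n) (hE : PT E) : PT fun a => bigM (n a) (E a) := by unfold bigM; fun_prop

theorem pt_algF {k w₀ t₀ w₁ t₁ : ℕ} (h0 : PT (algR k w₀ t₀)) (h1 : PT (algR k w₁ t₁)) :
    PT (algF k w₀ t₀ w₁ t₁) := by
  have a1 : PT fun C : List (List (List Gt)) => ents C [] := by unfold ents; fun_prop
  have a2 : PT fun p : List (List (List Gt)) × ℕ × ℕ × List Gt =>
      algR k w₀ t₀ (bigM 1 [(0, 0, p.2.2.2)]) := h0.comp (by fun_prop)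
  exact h1.comp (pt_bigM PT.id.length (PT.filter a1 (PT.and (by fun_prop) a2.not)))

theorem encFrm_eq (J : List (List Frm)) :
    encFrm J = Enc.enc (J.map fun r => r.map Frm.code) := by
  have h : encMono = (Enc.enc : ℚ × List ℕ → List Bool) := by
    funext m
    unfold encMono
    rw [encList_eq]
    rfl
  have h1 : encGate = (Enc.enc : Gt → List Bool) := by
    funext m
    unfold encGate
    rw [encList_eq, encList_eq, h]
    rfl
  have h2 : ∀ {α β : Type} (e : β → List Bool) (f : α → β) (l : List α),
      encList e (l.map f) = encList (fun a => e (f a)) l := fun e f l => by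
    simp [encList, List.foldr_map]
  have h3 : (Enc.enc : List (List (List Gt)) → List Bool) = encList (encList (encList encGate)) := by
    rw [encList_eq, encList_eq, encList_eq, h1]
    rfl
  rw [h3, h2]
  simp only [h2]
  rfl

end Pool.Agent.P.MP_08e617_lc.Rk
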