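import Pool.Agent.P.MP_08e617_lc.RkN
import Pool.Agent.P.MP_08e617_lc.RkSv

/-! Black-box version: definitions used in the proof. -/

namespace Pool.Agent.P.MP_08e617_lc.Rk

/-- The image of the generator with `T` seeds. -/
def SV (N T : ℕ) : Set (ℕ → ℚ) :=
  {p | ∃ y z : Fin T → ℚ, p = fun i => ∑ j, z j * lag N i (y j)}

end Pool.Agent.P.MP_08e617_lc.Rk
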