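import Pool.Agent.P.MP_08e617_lc.RkX

/-! A balanced recursive splitting of the edge set. -/

namespace Pool.Agent.P.MP_08e617_lc.Rk

open Pool.Agent.Lib.helper21 Module MvPolynomial

namespace PX1

open PF

theorem bd_le {G : Gr} {R R1 : Finset ℕ} {e : ℕ → ℕ}
    (he : ∀ x ∈ G.bd R, e x ∈ R ∧ Th G (e x) x) (h1 : R1 ⊆ R) :
    (G.bd R1).card ≤ (G.vs R1 ∩ G.vs (R \ R1)).card +
      ((G.bd R).filter fun x => e x ∈ R1).card := by
  refine (Finset.card_le_card fun x hx => ?_).trans (Finset.card_union_le _ _)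
  by_cases hX : x ∈ G.vs R1 ∩ G.vs (R \ R1)
  · exact Finset.mem_union_left _ hX
  obtain ⟨hx1, hx2⟩ := Finset.mem_inter.1 hx
  obtain ⟨c, hc, hcx⟩ := mem_vs.1 hx1
  obtain ⟨d, hd, hdx⟩ := mem_vs.1 hx2
  obtain ⟨hd1, hd2⟩ := Finset.mem_sdiff.1 hd
  have key : ∀ a ∈ R, Th G a x → a ∈ R1 := fun a ha h => by
    by_contra h'
    exact hX (Finset.mem_inter.2 ⟨hx1, mem_vs.2 ⟨a, Finset.mem_sdiff.2 ⟨ha, h'⟩, h⟩⟩)
  have hb : x ∈ G.bd R := Finset.mem_inter.2 ⟨mem_vs.2 ⟨c, h1 hc, hcx⟩,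
    mem_vs.2 ⟨d, Finset.mem_sdiff.2 ⟨hd1, fun h => hd2 (key d h hdx)⟩, hdx⟩⟩
  exact Finset.mem_union_right _ (Finset.mem_filter.2 ⟨hb, key _ (he x hb).1 (he x hb).2⟩)

theorem bd_le' {G : Gr} {R R1 : Finset ℕ} {e : ℕ → ℕ}
    (he : ∀ x ∈ G.bd R, e x ∈ R ∧ Th G (e x) x) (h1 : R1 ⊆ R) :
    (G.bd (R \ R1)).card + ((G.bd R).filter fun x => e x ∈ R1).card ≤
      (G.vs R1 ∩ G.vs (R \ R1)).card + (G.bd R).card := by
  have h2 := bd_le he (R1 := R \ R1) Finset.sdiff_subset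
  rw [Finset.sdiff_sdiff_eq_self h1, Finset.inter_comm] at h2
  have h3 := Finset.card_filter_add_card_filter_not (s := G.bd R) fun x => e x ∈ R1
  have h4 : ((G.bd R).filter fun x => e x ∈ R \ R1).card ≤
      ((G.bd R).filter fun x => ¬ e x ∈ R1).card := Finset.card_le_card fun x hx =>
    Finset.mem_filter.2 ⟨(Finset.mem_filter.1 hx).1,
      (Finset.mem_sdiff.1 (Finset.mem_filter.1 hx).2).2⟩
  omega

theorem ex_edge (G : Gr) (R : Finset ℕ) : ∃ e : ℕ → ℕ, ∀ x ∈ G.bd R, e x ∈ R ∧ Th G (e x) x := by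
  have h0 : ∀ x, ∃ e, x ∈ G.bd R → e ∈ R ∧ Th G e x := fun x => by
    by_cases hx : x ∈ G.bd R
    · obtain ⟨e, he⟩ := mem_vs.1 (Finset.mem_inter.1 hx).1
      exact ⟨e, fun _ => he⟩
    · exact ⟨0, fun h => absurd h hx⟩
  choose e he using h0
  exact ⟨e, he⟩

theorem medium2 {α : Type} [DecidableEq α] {𝓛 : Set (Finset α)} {μ : Finset α → ℕ} {m : ℕ}
    (hs : ∀ P ∈ 𝓛, 2 ≤ P.card → ∃ P' ∈ 𝓛, P' ⊆ P ∧ P'.Nonempty ∧ P' ≠ P ∧ P \ P' ∈ 𝓛)
    (h2 : ∀ P P', μ P ≤ μ P' + μ (P \ P')) (c : ℕ) :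
    ∀ P ∈ 𝓛, P.card ≤ c → 2 * m < 3 * μ P → (∃ P' ∈ 𝓛, m ≤ 3 * μ P' ∧ 3 * μ P' ≤ 2 * m) ∨
      ∃ P' : Finset α, P'.card ≤ 1 ∧ 2 * m < 3 * μ P' := by
  induction c with
  | zero => exact fun P _ hc ht => Or.inr ⟨P, by omega, ht⟩
  | succ c ih =>
    intro P hP hc ht
    by_cases h3 : P.card ≤ 1
    · exact Or.inr ⟨P, h3, ht⟩
    obtain ⟨P', hP', h4, h5, h6, h7⟩ := hs P hP (by omega)
    have h8 := Finset.card_lt_card (Finset.ssubset_iff_subset_ne.2 ⟨h4, h6⟩)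
    have h9 := Finset.card_sdiff_add_card_eq_card h4
    have h10 := h5.card_pos
    have h11 := h2 P P'
    by_cases h12 : 2 * m < 3 * μ P'
    · exact ih P' hP' (by omega) h12
    by_cases h13 : 2 * m < 3 * μ (P \ P')
    · exact ih _ h7 (by omega) h13
    by_cases h14 : m ≤ 3 * μ P'
    · exact Or.inl ⟨P', hP', h14, by omega⟩
    · exact Or.inl ⟨_, h7, by omega, by omega⟩

/-- A family below `R` of height at most `h`. -/
def Fam (G : Gr) (b : ℕ) (R : Finset ℕ) (h : ℕ) : Prop :=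
  ∃ (𝓝 : Finset (Finset ℕ)) (ht : Finset ℕ → ℕ), ∅ ∈ 𝓝 ∧ R ∈ 𝓝 ∧ ht ∅ = 0 ∧
    (∀ u ∈ 𝓝, u ⊆ R ∧ (G.bd u).card ≤ b ∧ ht u ≤ h ∧
      (2 ≤ u.card → ∃ R' ∈ 𝓝, R' ⊆ u ∧ R'.Nonempty ∧ R' ≠ u ∧ u \ R' ∈ 𝓝)) ∧
    ∀ u ∈ 𝓝, ∀ v ∈ 𝓝, v ⊂ u → ht v < ht u

variable {G : Gr} {b h : ℕ} {R R1 : Finset ℕ}

theorem Fam.mono {h' : ℕ} (a : Fam G b R h) (hh : h ≤ h') : Fam G b R h' :=
  let ⟨𝓝, ht, a1, a2, a3, a4, a5⟩ := a
  ⟨𝓝, ht, a1, a2, a3, fun u hu => let ⟨c1, c2, c3, c4⟩ := a4 u hu; ⟨c1, c2, c3.trans hh, c4⟩, a5⟩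

theorem Fam.one (h1 : R.card ≤ 1) (h2 : (G.bd R).card ≤ b) : Fam G b R 1 := by
  refine ⟨{∅, R}, Finset.card, by simp, by simp, rfl, fun u hu => ?_,
    fun u _ v _ h => Finset.card_lt_card h⟩
  rcases Finset.mem_insert.1 hu with rfl | hu
  · simp [Gr.bd, Gr.vs]
  · obtain rfl := Finset.mem_singleton.1 hu
    exact ⟨subset_rfl, h2, h1, fun h => by omega⟩

theorem Fam.join (a : Fam G b R1 h) (a' : Fam G b (R \ R1) h) (h1 : R1 ⊆ R) (h2 : R1.Nonempty)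
    (h3 : R1 ≠ R) (h4 : (G.bd R).card ≤ b) : Fam G b R (h + 1) := by
  obtain ⟨𝓝, ht, a1, a2, a3, a4, a5⟩ := a
  obtain ⟨𝓝', ht', b1, b2, b3, b4, b5⟩ := a'
  have e0 : ∀ u, u ⊆ R1 → u ⊆ R \ R1 → u = ∅ := fun u c d =>
    Finset.eq_empty_of_forall_notMem fun x hx => (Finset.mem_sdiff.1 (d hx)).2 (c hx)
  have n1 : ∀ u ∈ 𝓝, u ≠ R := fun u hu e => h3 (h1.antisymm (e ▸ (a4 u hu).1))
  have n2 : ∀ u ∈ 𝓝', u ≠ R := fun u hu e => by
    obtain ⟨x, hx⟩ := h2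
    exact (Finset.mem_sdiff.1 ((b4 u hu).1 (e ▸ h1 hx))).2 hx
  let H : Finset ℕ → ℕ := fun u => if u = R then h + 1 else if u ⊆ R1 then ht u else ht' u
  have e1 : ∀ u ∈ 𝓝, H u = ht u := fun u hu => by
    simp only [H, n1 u hu, (a4 u hu).1, if_true, if_false]
  have e2 : ∀ u ∈ 𝓝', H u = ht' u := fun u hu => by
    simp only [H, n2 u hu, if_false]
    split_ifs with c
    · rw [e0 u c (b4 u hu).1, a3, b3]
    · rfl
  have e3 : H R = h + 1 := if_pos rfl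
  have m1 : ∀ u ∈ 𝓝, u ∈ insert R (𝓝 ∪ 𝓝') := fun u hu =>
    Finset.mem_insert_of_mem (Finset.mem_union_left _ hu)
  have m2 : ∀ u ∈ 𝓝', u ∈ insert R (𝓝 ∪ 𝓝') := fun u hu =>
    Finset.mem_insert_of_mem (Finset.mem_union_right _ hu)
  refine ⟨insert R (𝓝 ∪ 𝓝'), H, m1 _ a1, Finset.mem_insert_self _ _, (e1 _ a1).trans a3,
    fun u hu => ?_, fun u hu v hv c => ?_⟩
  · rcases Finset.mem_insert.1 hu with rfl | hu
    · exact ⟨subset_rfl, h4, e3.le, fun _ => ⟨R1, m1 _ a2, h1, h2, h3, m2 _ b2⟩⟩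
    rcases Finset.mem_union.1 hu with hu | hu
    · obtain ⟨c1, c2, c3, c4⟩ := a4 u hu
      refine ⟨c1.trans h1, c2, by rw [e1 u hu]; omega, fun c => ?_⟩
      obtain ⟨R', d1, d2, d3, d4, d5⟩ := c4 c
      exact ⟨R', m1 _ d1, d2, d3, d4, m1 _ d5⟩
    · obtain ⟨c1, c2, c3, c4⟩ := b4 u hu
      refine ⟨c1.trans Finset.sdiff_subset, c2, by rw [e2 u hu]; omega, fun c => ?_⟩
      obtain ⟨R', d1, d2, d3, d4, d5⟩ := c4 c
      exact ⟨R', m2 _ d1, d2, d3, d4, m2 _ d5⟩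
  · have hu' : u ⊆ R := by
      rcases Finset.mem_insert.1 hu with rfl | hu
      · exact subset_rfl
      · exact (Finset.mem_union.1 hu).elim (fun c => (a4 u c).1.trans h1)
          fun c => (b4 u c).1.trans Finset.sdiff_subset
    have hv' := (Finset.mem_insert.1 hv).resolve_left fun e => c.2 (e ▸ hu')
    rcases Finset.mem_insert.1 hu with rfl | hu
    · rw [e3]
      rcases Finset.mem_union.1 hv' with d | d
      · rw [e1 v d]
        exact Nat.lt_succ_of_le (a4 v d).2.2.1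
      · rw [e2 v d]
        exact Nat.lt_succ_of_le (b4 v d).2.2.1
    rcases Finset.mem_union.1 hu with hu | hu
    · have d : v ∈ 𝓝 := (Finset.mem_union.1 hv').elim id fun d =>
        e0 v (c.1.trans (a4 u hu).1) (b4 v d).1 ▸ a1
      rw [e1 u hu, e1 v d]
      exact a5 u hu v d c
    · have d : v ∈ 𝓝' := (Finset.mem_union.1 hv').elim (fun d =>
        e0 v (a4 v d).1 (c.1.trans (b4 u hu).1) ▸ b1) id
      rw [e2 u hu, e2 v d]
      exact b5 u hu v d c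

end PX1

open PF PX1

theorem exists_tree (G : Gr) (hG : G.Ok) (M : Matrix (Fin G.n) (Fin G.n) (MvPolynomial ℕ ℚ))
    {w : ℕ} (hB : BranchLE M w)
    (hpos : ∀ e ∈ G.All, ∀ h1 h2, M ⟨G.rw e, h1⟩ ⟨G.cl e, h2⟩ ≠ 0) :
    ∃ (𝓝 : Finset (Finset ℕ)) (ht : Finset ℕ → ℕ), ∅ ∈ 𝓝 ∧ G.All ∈ 𝓝 ∧
      (∀ R ∈ 𝓝, R ⊆ G.All ∧ (G.bd R).card ≤ 6 * (w + 2) ∧
        ht R ≤ 4 * Nat.log 2 G.All.card + 8 ∧
        (2 ≤ R.card → ∃ R' ∈ 𝓝, R' ⊆ R ∧ R'.Nonempty ∧ R' ≠ R ∧ R \ R' ∈ 𝓝)) ∧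
      ∀ u ∈ 𝓝, ∀ v ∈ 𝓝, v ⊂ u → ht v < ht u := by
  obtain ⟨𝓛, hQ, h𝓛⟩ := hB
  have hQ' : ∀ e ∈ G.All, ∀ h1 h2, (⟨G.rw e, h1⟩, ⟨G.cl e, h2⟩) ∈ supp M := fun e he h1 h2 => by
    unfold supp
    exact Finset.mem_filter.2 ⟨Finset.mem_univ _, hpos e he h1 h2⟩
  have hL : ∀ R ⊆ G.All, Lp G R (supp M) = R := fun R hR => Finset.filter_true_of_mem fun c hc =>
    ⟨_, hQ' c (hR hc) (hG c (hR hc)).1 (hG c (hR hc)).2, rfl, rfl⟩
  have sa : ∀ R ⊆ G.All, 2 ≤ R.card → ∃ R1 ⊆ R, R.card ≤ 3 * R1.card ∧ 3 * R1.card ≤ 2 * R.card ∧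
      (G.vs R1 ∩ G.vs (R \ R1)).card ≤ w + 2 := fun R hR h2 => by
    rcases medium2 (μ := fun P => (Lp G R P).card) (m := R.card) (fun P hP => (h𝓛 P hP).2)
      (fun P P' => (Finset.card_le_card fun c hc => by
        obtain ⟨h0, p, hp, h3⟩ := mem_Lp.1 hc
        by_cases h : p ∈ P'
        · exact Finset.mem_union_left _ (mem_Lp.2 ⟨h0, p, h, h3⟩)
        · exact Finset.mem_union_right _ (mem_Lp.2 ⟨h0, p, Finset.mem_sdiff.2 ⟨hp, h⟩, h3⟩)).trans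
          (Finset.card_union_le _ _)) _ _ hQ le_rfl (by rw [hL R hR]; omega) with
      ⟨P, hP, h3, h4⟩ | ⟨P, hP, h3⟩
    · exact ⟨_, Finset.filter_subset _ _, h3, h4,
        ((cut_le hG hR hQ' P).trans (h𝓛 P hP).1).trans (by omega)⟩
    · obtain ⟨R1, h4, h5⟩ := Finset.exists_subset_card_eq (s := Lp G R P) (n := R.card / 2)
        (by omega)
      refine ⟨R1, h4.trans (Finset.filter_subset _ _), by omega, by omega, ?_⟩
      have hs : G.vs R1 ∩ G.vs (R \ R1) ⊆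
          (P.image fun p => p.1.1) ∪ P.image fun p => G.n + p.2.1 := fun x hx => by
        obtain ⟨c, hc, h⟩ := mem_vs.1 (Finset.mem_inter.1 hx).1
        obtain ⟨-, p, hp, h6, h7⟩ := mem_Lp.1 (h4 hc)
        rcases h with h | h
        · exact Finset.mem_union_left _ (Finset.mem_image.2 ⟨p, hp, by omega⟩)
        · exact Finset.mem_union_right _ (Finset.mem_image.2 ⟨p, hp, by omega⟩)
      have h1 := (Finset.card_le_card hs).trans ((Finset.card_union_le _ _).trans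
        (add_le_add Finset.card_image_le Finset.card_image_le))
      omega
  have sb : ∀ j, (∀ R ⊆ G.All, 2 ^ j * R.card ≤ 3 ^ j → (G.bd R).card ≤ 5 * (w + 2) →
      Fam G (6 * (w + 2)) R (2 * j + 1)) → ∀ R ⊆ G.All, 2 ^ j * R.card ≤ 3 ^ j →
      (G.bd R).card ≤ 6 * (w + 2) → Fam G (6 * (w + 2)) R (2 * j + 2) := fun j hA R hR h1 h2 => by
    by_cases h3 : (G.bd R).card ≤ 5 * (w + 2)
    · exact (hA R hR h1 h3).mono (by omega)
    obtain ⟨e, he⟩ := ex_edge G R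
    have hall : ∀ R', R' = R → ((G.bd R).filter fun x => e x ∈ R').card = (G.bd R).card := by
      rintro R' rfl
      rw [Finset.filter_true_of_mem fun x hx => (he x hx).1]
    obtain ⟨P, hP, h4, h5⟩ := medium
      (μ := fun P => ((G.bd R).filter fun x => e x ∈ Lp G R P).card)
      (t := 2 * (w + 2)) (fun P hP => (h𝓛 P hP).2)
      (fun P hP => (mu_one (fun x hx => (he x hx).2) hP).trans_lt (by omega)) (mu_add R _ e) _ _ hQ
      le_rfl (by rw [hall _ (hL R hR)]; omega)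
    have h6 := (cut_le hG hR hQ' P).trans (h𝓛 P hP).1
    have h7 : Lp G R P ⊆ R := Finset.filter_subset _ _
    have h8 := bd_le he h7
    have h9 := bd_le' he h7
    refine Fam.join (hA _ (h7.trans hR) ((Nat.mul_le_mul_left _ (Finset.card_le_card h7)).trans h1)
      (by omega)) (hA _ (Finset.sdiff_subset.trans hR) ((Nat.mul_le_mul_left _
        (Finset.card_le_card Finset.sdiff_subset)).trans h1) (by omega)) h7 ?_ (fun h => ?_) h2
    · obtain ⟨x, hx⟩ := Finset.card_pos.1 (lt_of_lt_of_le (by omega) h4)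
      exact ⟨_, (Finset.mem_filter.1 hx).2⟩
    · rw [hall _ h] at h5
      omega
  have hA : ∀ j, ∀ R ⊆ G.All, 2 ^ j * R.card ≤ 3 ^ j → (G.bd R).card ≤ 5 * (w + 2) →
      Fam G (6 * (w + 2)) R (2 * j + 1) := fun j => by
    induction j with
    | zero => exact fun R _ h1 h2 => Fam.one (by simpa using h1) (by omega)
    | succ j ih =>
      intro R hR h1 h2
      by_cases h3 : R.card ≤ 1
      · exact (Fam.one h3 (by omega)).mono (by omega)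
      obtain ⟨R1, a1, a2, a3, a4⟩ := sa R hR (by omega)
      obtain ⟨e, he⟩ := ex_edge G R
      have h4 := bd_le he a1
      have h5 := bd_le' he a1
      have h6 := Finset.card_filter_le (G.bd R) fun x => e x ∈ R1
      have h7 := Finset.card_sdiff_add_card_eq_card a1
      have h8 : ∀ c, 3 * c ≤ 2 * R.card → 2 ^ j * c ≤ 3 ^ j := fun c hc => by
        have := Nat.mul_le_mul_left (2 ^ j) hc
        rw [pow_succ, pow_succ] at h1
        nlinarith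
      exact Fam.join (sb j ih _ (a1.trans hR) (h8 _ a3) (by omega))
        (sb j ih _ (Finset.sdiff_subset.trans hR) (h8 _ (by omega)) (by omega)) a1
        (Finset.card_pos.1 (by omega)) (fun h => by rw [h] at a3; omega) (by omega)
  obtain ⟨𝓝, ht, a1, a2, -, a4, a5⟩ := (hA (2 * (Nat.log 2 G.All.card + 1)) G.All subset_rfl (by
    have h1 := (Nat.lt_pow_succ_log_self one_lt_two G.All.card).le
    refine (Nat.mul_le_mul_left _ h1).trans ?_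
    rw [pow_mul, pow_mul, ← mul_pow]
    exact Nat.pow_le_pow_left (by norm_num) _) (by simp [Gr.bd, Gr.vs])).mono
      (h' := 4 * Nat.log 2 G.All.card + 8) (by omega)
  exact ⟨𝓝, ht, a1, a2, a4, a5⟩

end Pool.Agent.P.MP_08e617_lc.Rk
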