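import Pool.Agent.P.MP_08e617_lc.RkX

/-! Black-box version, package X2: properties of the image of the generator. -/

namespace Pool.Agent.P.MP_08e617_lc.Rk

open Pool.Agent.Lib.helper21 Module MvPolynomial

namespace PX2

/-- The coordinates of the generator as polynomials in the seeds. -/
noncomputable def gen (N T i : ℕ) : MvPolynomial (Fin T ⊕ Fin T) ℚ :=
  ∑ j : Fin T, X (Sum.inr j) *
    ∏ l ∈ (Finset.range N).erase i, ((X (Sum.inl j) - C (l : ℚ)) * C (((i : ℚ) - l)⁻¹))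

theorem eval_gen (N T i : ℕ) (x : Fin T ⊕ Fin T → ℚ) :
    eval x (gen N T i) = ∑ j, x (Sum.inr j) * lag N i (x (Sum.inl j)) := by
  simp [gen, lag, div_eq_mul_inv]

theorem eval_comp (N T : ℕ) (x : Fin T ⊕ Fin T → ℚ) (f : MvPolynomial ℕ ℚ) :
    eval x (aeval (gen N T) f) =
      eval (fun i => ∑ j, x (Sum.inr j) * lag N i (x (Sum.inl j))) f := by
  induction f using MvPolynomial.induction_on with
  | C c => simp
  | add f g hf hg => rw [map_add, map_add, map_add, hf, hg]
  | mul_X f j hf => rw [map_mul, map_mul, map_mul, hf, aeval_X, eval_X, eval_gen]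

theorem deg_gen (N T i : ℕ) : (gen N T i).totalDegree ≤ N + 1 := by
  refine totalDegree_finsetSum_le fun j _ => (totalDegree_mul _ _).trans ?_
  rw [totalDegree_X, add_comm]
  refine Nat.add_le_add_right ((totalDegree_finsetProd _ _).trans ?_) 1
  refine (Finset.sum_le_card_nsmul _ _ 1 fun l _ => ?_).trans ?_
  · refine (totalDegree_mul _ _).trans ?_
    rw [totalDegree_C, add_zero]
    refine (totalDegree_sub _ _).trans ?_
    rw [totalDegree_X, totalDegree_C]
    exact le_rfl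
  · simpa using (Finset.card_erase_le (s := Finset.range N) (a := i))

theorem deg_aeval {σ : Type} (g : ℕ → MvPolynomial σ ℚ) (B : ℕ)
    (hg : ∀ i, (g i).totalDegree ≤ B) (f : MvPolynomial ℕ ℚ) :
    (aeval g f).totalDegree ≤ f.totalDegree * B := by
  rw [aeval_def, eval₂_eq]
  refine totalDegree_finsetSum_le fun d hd => (totalDegree_mul _ _).trans ?_
  rw [algebraMap_eq, totalDegree_C, zero_add]
  refine (totalDegree_finsetProd _ _).trans ?_
  refine le_trans (Finset.sum_le_sum fun i _ =>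
    (totalDegree_pow _ _).trans (Nat.mul_le_mul_left _ (hg i))) ?_
  rw [← Finset.sum_mul]
  exact Nat.mul_le_mul_right _ (le_totalDegree hd)

theorem comp_ne {N T : ℕ} {f : MvPolynomial ℕ ℚ} {p : ℕ → ℚ} (hp : p ∈ SV N T)
    (h : eval p f ≠ 0) : aeval (gen N T) f ≠ 0 := by
  obtain ⟨y, z, rfl⟩ := hp
  intro h0
  have := eval_comp N T (Sum.elim y z) f
  rw [h0, map_zero] at this
  exact h this.symm

theorem lag_nat {N i l : ℕ} (hl : l < N) : lag N i l = if i = l then 1 else 0 := by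
  unfold lag
  split_ifs with h
  · subst h
    refine Finset.prod_eq_one fun m hm => div_self (sub_ne_zero.2 ?_)
    exact_mod_cast (Finset.ne_of_mem_erase hm).symm
  · exact Finset.prod_eq_zero (Finset.mem_erase.2 ⟨Ne.symm h, Finset.mem_range.2 hl⟩) (by simp)

theorem sv_succ {N T : ℕ} {a : ℕ → ℚ} (ha : a ∈ SV N T) (y z : ℚ) :
    (fun i => a i + z * lag N i y) ∈ SV N (T + 1) := by
  obtain ⟨y', z', rfl⟩ := ha
  refine ⟨Fin.cons y y', Fin.cons z z', funext fun i => ?_⟩
  simp [Fin.sum_univ_succ, add_comm]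

end PX2

theorem sv_irr (N T : ℕ) {𝓕 : Set (MvPolynomial ℕ ℚ)} (hf : 𝓕.Finite)
    (h : ∀ f ∈ 𝓕, ∃ p ∈ SV N T, eval p f ≠ 0) : ∃ p ∈ SV N T, ∀ f ∈ 𝓕, eval p f ≠ 0 := by
  have h1 : ∏ g ∈ hf.toFinset, aeval (PX2.gen N T) g ≠ 0 :=
    Finset.prod_ne_zero_iff.2 fun g hg => by
      obtain ⟨p, hp, h2⟩ := h g (hf.mem_toFinset.1 hg)
      exact PX2.comp_ne hp h2
  by_contra h3
  refine h1 (MvPolynomial.funext fun x => ?_)
  by_contra h2
  rw [map_zero, map_prod] at h2
  refine h3 ⟨_, ⟨fun j => x (Sum.inl j), fun j => x (Sum.inr j), rfl⟩, fun g hg => ?_⟩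
  rw [← PX2.eval_comp]
  exact Finset.prod_ne_zero_iff.1 h2 g (hf.mem_toFinset.2 hg)

theorem sv_mono (N : ℕ) {T T' : ℕ} (h : T ≤ T') : SV N T ⊆ SV N T' := by
  induction T', h using Nat.le_induction with
  | base => exact le_rfl
  | succ n _ ih =>
    intro a ha
    simpa using PX2.sv_succ (ih ha) 0 0

theorem sv_add {N T t : ℕ} {a : ℕ → ℚ} (ha : a ∈ SV N T) (U : Finset ℕ) (hU : U.card ≤ t)
    (p : ℕ → ℚ) (hp : ∀ j ∉ U, p j = a j) : ∃ q ∈ SV N (T + t), ∀ i < N, q i = p i := by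
  have key : ∀ V : Finset ℕ, ∃ q ∈ SV N (T + V.card),
      ∀ i < N, q i = if i ∈ V then p i else a i := by
    intro V
    induction V using Finset.induction_on with
    | empty => exact ⟨a, ha, fun i _ => by simp⟩
    | insert l V hl ih =>
      obtain ⟨q, hq, h1⟩ := ih
      rw [Finset.card_insert_of_notMem hl, ← add_assoc]
      by_cases hN : l < N
      · refine ⟨_, PX2.sv_succ hq l (p l - a l), fun i hi => ?_⟩
        rw [PX2.lag_nat hN, h1 i hi]
        by_cases h2 : i = l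
        · subst h2
          simp [hl]
        · simp [h2]
      · refine ⟨q, sv_mono N (Nat.le_succ _) hq, fun i hi => ?_⟩
        have h2 : i ≠ l := by omega
        simp [h1 i hi, h2]
  obtain ⟨q, hq, h1⟩ := key U
  refine ⟨q, sv_mono N (by omega) hq, fun i hi => ?_⟩
  rw [h1 i hi]
  split_ifs with h2
  · rfl
  · exact (hp i h2).symm

theorem sv_grid {N T D : ℕ} {f : MvPolynomial ℕ ℚ} (hf : f.totalDegree * (N + 1) ≤ D)
    {p : ℕ → ℚ} (hp : p ∈ SV N T) (h : eval p f ≠ 0) :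
    ∃ y z : Fin T → ℕ, (∀ j, y j ≤ D ∧ z j ≤ D) ∧ eval (svPt N y z) f ≠ 0 := by
  by_contra h3
  refine PX2.comp_ne hp h (eq_zero_of_eval_zero_at_prod_finset _
    (fun _ => (Finset.range (D + 1)).image fun s : ℕ => (s : ℚ)) (fun i => ?_) fun x hx => ?_)
  · rw [Finset.card_image_of_injective _ Nat.cast_injective, Finset.card_range]
    exact Nat.lt_succ_of_le ((degreeOf_le_totalDegree _ _).trans
      ((PX2.deg_aeval _ _ (PX2.deg_gen N T) f).trans hf))
  · simp only [Finset.mem_image, Finset.mem_range] at hx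
    choose s hs1 hs2 using hx
    by_contra h4
    refine h3 ⟨fun j => s (Sum.inl j), fun j => s (Sum.inr j),
      fun j => ⟨Nat.lt_succ_iff.1 (hs1 _), Nat.lt_succ_iff.1 (hs1 _)⟩, ?_⟩
    rw [PX2.eval_comp] at h4
    unfold svPt
    simpa only [hs2] using h4

end Pool.Agent.P.MP_08e617_lc.Rk
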