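import Pool.Agent.P.MP_08e617_lc.RkX

/-! Black-box version: the big matrix at a point, its size, and the degree of the determinant. -/

namespace Pool.Agent.P.MP_08e617_lc.Rk

open Pool.Agent.Lib.helper21 Module MvPolynomial

namespace PX3

theorem sum_getD_le (l : List ℕ) : ∑ i ∈ Finset.range l.length, l.getD i 0 ≤ sz l := by
  induction l with
  | nil => simp
  | cons a l ih =>
    rw [List.length_cons, Finset.sum_range_succ', sz_cons, sz_nat]
    simp only [List.getD_cons_succ, List.getD_cons_zero]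
    omega

theorem mono_deg (m : ℚ × List ℕ) : (monoPoly m).totalDegree ≤ sz m := by
  unfold monoPoly
  refine (totalDegree_mul _ _).trans ?_
  rw [totalDegree_C, zero_add]
  refine (totalDegree_finsetProd _ _).trans ?_
  refine (Finset.sum_le_sum (g := fun i => m.2.getD i 0) fun i _ => ?_).trans ?_
  · exact (totalDegree_X_pow _ _).le
  · have := sum_getD_le m.2
    rw [sz_prod]
    omega

theorem leaf_deg (p : List (ℚ × List ℕ)) : (p.map monoPoly).sum.totalDegree ≤ sz p := by
  induction p with
  | nil => simp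
  | cons m p ih =>
    rw [List.map_cons, List.sum_cons, sz_cons]
    have := mono_deg m
    refine (totalDegree_add _ _).trans (max_le ?_ ?_) <;> omega

theorem sz_node (l m : List Gt) (x : Gt) : sz l + sz m ≤ sz (l ++ m ++ [x]) := by
  have h1 := sz_append l m
  have h2 := sz_append (l ++ m) [x]
  rw [sz_cons, sz_nil] at h2
  omega

theorem sz_leaf (p : List (ℚ × List ℕ)) : sz p ≤ sz (Frm.leaf p).code := by
  rw [Frm.code, sz_cons, sz_pair]
  omega

theorem poly_deg (F : Frm) : F.poly.totalDegree ≤ sz F.code := by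
  induction F with
  | leaf p => exact (leaf_deg p).trans (sz_leaf p)
  | add f g hf hg =>
    have := sz_node f.code g.code ([1, g.code.length], [])
    rw [Frm.poly, Frm.code]
    refine (totalDegree_add _ _).trans (max_le ?_ ?_) <;> omega
  | mul f g hf hg =>
    have := sz_node f.code g.code ([2, g.code.length], [])
    rw [Frm.poly, Frm.code]
    refine (totalDegree_mul _ _).trans ?_
    omega

theorem len_enc (J : List (List Frm)) :
    (encFrm J).length = sz (J.map fun r => r.map Frm.code) := by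
  rw [encFrm_eq]; rfl

theorem rows_le (J : List (List Frm)) : J.length ≤ (encFrm J).length := by
  have := length_le_sz (J.map fun r => r.map Frm.code)
  rwa [List.length_map, ← len_enc] at this

theorem code_le {J : List (List Frm)} {F : Frm} (h : F ∈ J.flatten) :
    sz F.code ≤ (encFrm J).length := by
  obtain ⟨r, hr, hF⟩ := List.mem_flatten.1 h
  rw [len_enc]
  exact (sz_mem (List.mem_map_of_mem (f := Frm.code) hF)).trans
    (sz_mem (List.mem_map_of_mem (f := fun r : List Frm => r.map Frm.code) hr))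

theorem arcF_len (F : Frm) (o : ℕ) : ∀ a ∈ arcF o F, ∀ m ∈ a.2.2, m.2.length ≤ sz F.code := by
  induction F generalizing o with
  | leaf p =>
    intro a ha m hm
    obtain rfl := List.mem_singleton.1 ha
    have h1 := length_le_sz m.2
    have h2 := sz_mem hm
    have h3 := sz_leaf p
    rw [sz_prod] at h2
    dsimp only at h2
    omega
  | add f g hf hg =>
    intro a ha m hm
    have := sz_node f.code g.code ([1, g.code.length], [])
    rw [Frm.code]
    simp only [arcF, List.mem_append, List.mem_cons, List.not_mem_nil, or_false] at ha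
    rcases ha with (ha | ha) | rfl | rfl | rfl | rfl
    · have := hf o a ha m hm; omega
    · have := hg _ a ha m hm; omega
    all_goals
      obtain rfl := List.mem_singleton.1 hm
      exact Nat.zero_le _
  | mul f g hf hg =>
    intro a ha m hm
    have := sz_node f.code g.code ([2, g.code.length], [])
    rw [Frm.code]
    simp only [arcF, List.mem_append, List.mem_cons, List.not_mem_nil, or_false] at ha
    rcases ha with (ha | ha) | rfl | rfl | rfl
    · have := hf o a ha m hm; omega
    · have := hg _ a ha m hm; omega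
    all_goals
      obtain rfl := List.mem_singleton.1 hm
      exact Nat.zero_le _

theorem allR_len (N k : ℕ) (E : List (ℕ × ℕ × Frm)) (hE : ∀ e ∈ E, sz e.2.2.code ≤ N) (o : ℕ) :
    ∀ a ∈ allR k o E, ∀ m ∈ a.2.2, m.2.length ≤ N := by
  induction E generalizing o with
  | nil => intro a ha; simp [allR] at ha
  | cons e E ih =>
    intro a ha m hm
    simp only [allR, List.mem_append, List.mem_cons] at ha
    rcases ha with (rfl | rfl | ha) | ha
    · obtain rfl := List.mem_singleton.1 hm
      exact Nat.zero_le _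
    · obtain rfl := List.mem_singleton.1 hm
      exact Nat.zero_le _
    · exact (arcF_len _ _ a ha m hm).trans (hE e List.mem_cons_self)
    · exact ih (fun e' he' => hE e' (List.mem_cons_of_mem _ he')) _ a ha m hm

theorem mem_big {n : ℕ} {E : List (ℕ × ℕ × List Gt)} {m : Mo} (h : m ∈ mons (bigM n E)) :
    ∃ a ∈ allB E, m.2.2 ∈ a.2.2 := by
  obtain ⟨hr, hc, hm⟩ := PH.mem_mons.1 h
  have hl : (bigM n E).length = 2 * off E E.length + n := by simp [bigM]
  rw [hl] at hr hc
  rw [bigM] at hm
  simp only [List.getD_eq_getElem?_getD, List.getElem?_map, List.getElem?_range hr,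
    List.getElem?_range hc, Option.map_some, Option.getD_some] at hm
  obtain ⟨a, ha, hm⟩ := List.mem_flatMap.1 hm
  exact ⟨a, (List.mem_filter.1 ha).1, hm⟩

theorem eval_lt (q : Polynomial ℕ) :
    ∃ c, ∀ N, q.eval N < 2 ^ (c * (Nat.log 2 N + 1)) := by
  induction q using Polynomial.induction_on' with
  | add p q hp hq =>
    obtain ⟨a, ha⟩ := hp
    obtain ⟨b, hb⟩ := hq
    refine ⟨a + b + 1, fun N => ?_⟩
    have h1 : 2 ^ (a * (Nat.log 2 N + 1)) ≤ 2 ^ ((a + b) * (Nat.log 2 N + 1)) :=
      Nat.pow_le_pow_right (by omega) (Nat.mul_le_mul_right _ (by omega))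
    have h2 : 2 ^ (b * (Nat.log 2 N + 1)) ≤ 2 ^ ((a + b) * (Nat.log 2 N + 1)) :=
      Nat.pow_le_pow_right (by omega) (Nat.mul_le_mul_right _ (by omega))
    have h3 : 2 ^ ((a + b) * (Nat.log 2 N + 1) + 1) ≤ 2 ^ ((a + b + 1) * (Nat.log 2 N + 1)) :=
      Nat.pow_le_pow_right (by omega) (by rw [Nat.succ_mul (a + b)]; omega)
    have h4 := ha N
    have h5 := hb N
    rw [Polynomial.eval_add]
    rw [pow_succ] at h3
    omega
  | monomial k c =>
    refine ⟨c + k, fun N => ?_⟩
    have h1 : N ^ k ≤ (2 ^ (Nat.log 2 N + 1)) ^ k :=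
      Nat.pow_le_pow_left (Nat.lt_pow_succ_log_self (by omega) N).le k
    have h2 : c < 2 ^ (c * (Nat.log 2 N + 1)) :=
      Nat.lt_two_pow_self.trans_le
        (Nat.pow_le_pow_right (by omega) (Nat.le_mul_of_pos_right _ (by omega)))
    rw [Polynomial.eval_monomial, add_mul, pow_add, mul_comm k, pow_mul 2 _ k]
    exact Nat.mul_lt_mul_of_lt_of_le h2 h1 (by positivity)

theorem log_eval (q : Polynomial ℕ) :
    ∃ c, ∀ N x, x ≤ q.eval N → Nat.log 2 x + 1 ≤ c * (Nat.log 2 N + 1) := by
  obtain ⟨c, hc⟩ := eval_lt q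
  refine ⟨c + 1, fun N x hx => ?_⟩
  rw [Nat.succ_mul]
  rcases Nat.eq_zero_or_pos x with rfl | h0
  · simp only [Nat.log_zero_right]; omega
  · have := Nat.log_lt_of_lt_pow h0.ne' (hx.trans_lt (hc N))
    omega

end PX3

open PL1 in
theorem big_det_pt (n : ℕ) (E : List (ℕ × ℕ × Frm)) (hE : ∀ e ∈ E, e.1 < n ∧ e.2.1 < n)
    (p : ℕ → ℚ) (h : eval p (entM n E).det = 0) :
    eval p (polyMatrix (bigM n (E.map cd))).det = 0 := by
  have hn := bigM_length n E
  rw [RingHom.map_det, RingHom.mapMatrix_apply] at h ⊢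
  rw [← Matrix.exists_mulVec_eq_zero_iff] at h ⊢
  obtain ⟨y, hy, hM⟩ := h
  obtain ⟨z, hz⟩ : ∃ z : ℕ → MvPolynomial ℕ ℚ, y = eval p ∘ fun c : Fin n => z c.1 :=
    ⟨fun v => if h : v < n then C (y ⟨v, h⟩) else 0, by funext c; simp⟩
  subst hz
  obtain ⟨x, hs, hx⟩ := solR_exists (totF E) n E hE 0 (by omega) z
  refine ⟨eval p ∘ fun c => x c.1, fun h0 => hy (funext fun c => ?_), funext fun r => ?_⟩
  · have hc := c.2
    have := congrFun h0 ⟨2 * totF E + c.1, by omega⟩
    simp only [Function.comp, hx] at this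
    exact this
  · have hr := r.2.trans_eq hn
    rw [← RingHom.map_mulVec, mulVec_big n E hE x r]
    by_cases c1 : r.1 < 2 * totF E
    · rw [if_pos c1, ← hs r.1 (by omega) (by omega), neg_add_cancel, map_zero]; rfl
    · have h := mulVec_ent n E hE z ⟨r.1 - 2 * totF E, by omega⟩
      have h1 := (solR_val (totF E) n E hE 0 (by omega) x hs).1 (r.1 - 2 * totF E)
      rw [show 2 * totF E + (r.1 - 2 * totF E) = r.1 by omega] at h1
      rw [if_neg c1, zero_add, h1]
      simp only [hx]
      rw [← h, RingHom.map_mulVec, hM]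
      rfl

open PX3 in
theorem big_size : ∃ c, ∀ (N : ℕ) (J : List (List Frm)) (E : List (ℕ × ℕ × Frm)),
    (encFrm J).length ≤ N → E.Sublist (ents J (.leaf [])) →
    (∀ m ∈ mons (bigM J.length (E.map cd)), m.2.2.2.length ≤ N) ∧
    Nat.log 2 (mons (bigM J.length (E.map cd))).length + 1 ≤ c * (Nat.log 2 N + 1) := by
  have a1 : PT fun C : List (List (List Gt)) => ents C [] := by unfold ents; fun_prop
  have a2 : PT fun a : ℕ × List (ℕ × ℕ × List Gt) => (mons (bigM a.1 a.2)).length :=
    (PG.pt_mons.comp (pt_bigM PT.id.fst PT.id.snd)).length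
  obtain ⟨q₁, h₁⟩ := a1.bd
  obtain ⟨q₂, h₂⟩ := a2.bdNat
  obtain ⟨c, hc⟩ := log_eval (q₂.comp (2 * Polynomial.X + q₁ + 1))
  refine ⟨c, fun N J E hN hE => ⟨fun m hm => ?_, hc N _ ?_⟩⟩
  · obtain ⟨a, ha, hm⟩ := mem_big hm
    rw [allB_code, List.mem_append] at ha
    rcases ha with ha | ha
    · obtain ⟨v, -, rfl⟩ := List.mem_map.1 ha
      rw [List.mem_singleton.1 hm]
      exact Nat.zero_le _
    · refine allR_len N _ E (fun e he => (code_le (J := J) ?_).trans hN) 0 a ha _ hm
      rw [← PN.ents_snd J (.leaf [])]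
      exact List.mem_map_of_mem (f := fun e : ℕ × ℕ × Frm => e.2.2) (hE.subset he)
  · refine (h₂ (J.length, E.map cd)).trans ?_
    rw [Polynomial.eval_comp]
    refine eval_mono q₂ ?_
    have h3 := h₁ (J.map fun r => r.map Frm.code)
    have h4 := PG.sz_sub (hE.map cd)
    have h5 := rows_le J
    have h6 := eval_mono q₁ hN
    beta_reduce at h3
    rw [PN.ents_code, ← len_enc] at h3
    simp only [sz_pair, sz_nat, Polynomial.eval_add, Polynomial.eval_mul, Polynomial.eval_X,
      Polynomial.eval_one, Polynomial.eval_ofNat]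
    omega

open PX3 in
theorem frm_deg (J : List (List Frm)) :
    (frmMatrix J).det.totalDegree ≤ (encFrm J).length ^ 2 := by
  refine (PE.totalDegree_det_le _ (E := (encFrm J).length) fun p q => ?_).trans ?_
  · rw [frmMatrix, Matrix.of_apply]
    by_cases h : q.1 < (J.getD p []).length
    · refine (poly_deg _).trans (code_le ?_)
      rw [← PN.ents_snd J (.leaf [])]
      exact List.mem_map.2 ⟨(p.1, q.1, _), PN.mem_ents.2 ⟨p.2, h, rfl⟩, rfl⟩
    · rw [List.getD_eq_default _ _ (Nat.le_of_not_lt h)]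
      simp [Frm.poly]
  · rw [Fintype.card_fin, sq]
    exact Nat.mul_le_mul_right _ (rows_le J)

end Pool.Agent.P.MP_08e617_lc.Rk
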