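import Pool.Agent.P.MP_08e617_lc.RkC

/-! The core argument when only the contexts strictly below the top node have constant ranks. -/

namespace Pool.Agent.P.MP_08e617_lc.Rk

open Module

namespace PY

open PC

variable {V : Type} [AddCommGroup V] [Module ℚ V] {k w : ℕ} (X : Sys V k w)

/-- The nodes strictly below `u`. -/
def below (u : Finset ℕ) (hu : u.Nonempty) : Sys V k w where
  N R := X.N R ∧ R ⊂ u
  aff := X.aff
  D := X.D
  C := X.C
  n0 := ⟨X.n0, Finset.empty_ssubset.2 hu⟩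
  spl R h h2 := by
    obtain ⟨R', a1, a2, a3, a4, a5⟩ := X.spl R h.1 h2
    exact ⟨R', ⟨a1, Finset.ssubset_of_subset_of_ssubset a2 h.2⟩, a2, a3, a4, a5,
      Finset.ssubset_of_subset_of_ssubset Finset.sdiff_subset h.2⟩
  fin R h := X.fin R h.1
  map a b Z ha hb := X.map a b Z ha.1 hb.1
  comp := X.comp
  loc a b Z Z' ha := X.loc a b Z Z' ha.1
  step R R' h1 h2 h3 h4 := X.step R R' h1.1 h2.1 h3 h4.1
  leaf e h := X.leaf e h.1

theorem desc_mono {N N' : Finset ℕ → Prop} (hN : ∀ R, N R → N' R) {u h : Finset ℕ}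
    (d : Desc N u h) : Desc N' u h := by
  obtain ⟨c, L, hc, h0, hL⟩ := d
  exact ⟨c, L, ⟨fun j hj => hN _ (hc.1 j hj), fun j hj => ⟨(hc.2 j hj).1, hN _ (hc.2 j hj).2⟩⟩,
    h0, hL⟩

theorem desc_below {N : Finset ℕ → Prop} {u v h : Finset ℕ} (d : Desc N v h) (hv : v ⊂ u) :
    Desc (fun R => N R ∧ R ⊂ u) v h := by
  obtain ⟨c, L, hc, rfl, hL⟩ := d
  have s : ∀ j ≤ L, c j ⊂ u := fun j hj =>
    Finset.ssubset_of_subset_of_ssubset (chain_anti hc (Nat.zero_le _) hj) hv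
  exact ⟨c, L, ⟨fun j hj => ⟨hc.1 j hj, s j hj⟩, fun j hj => ⟨(hc.2 j hj).1, (hc.2 j hj).2,
    Finset.ssubset_of_subset_of_ssubset Finset.sdiff_subset (s j hj.le)⟩⟩, rfl, hL⟩

theorem first_step {u h : Finset ℕ} (d : Desc X.N u h) : u = h ∨ (h = ∅ ∧ u.card = 1) ∨
    ∃ v, v ⊂ u ∧ v.Nonempty ∧ X.N (u \ v) ∧ Desc X.N v h := by
  classical
  by_cases huh : u = h
  · exact Or.inl huh
  have hu := (desc_props d).1
  by_cases h0 : h = ∅
  · by_cases h2 : 2 ≤ u.card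
    · obtain ⟨v, a1, a2, a3, a4, a5⟩ := X.spl u hu h2
      exact Or.inr (Or.inr ⟨v, Finset.ssubset_iff_subset_ne.2 ⟨a2, a4⟩, a3, a5,
        h0 ▸ desc_empty X.n0 X.spl a1⟩)
    · have : u.card ≠ 0 := fun e => huh ((Finset.card_eq_zero.1 e).trans h0.symm)
      exact Or.inr (Or.inl ⟨h0, by omega⟩)
  obtain ⟨c, L, hc, rfl, rfl⟩ := d
  have ex : ∃ j, c j ≠ c 0 := ⟨L, Ne.symm huh⟩
  have hL : Nat.find ex ≤ L := Nat.find_min' ex (Ne.symm huh)
  have hs := Nat.find_spec ex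
  obtain ⟨j, hj⟩ : ∃ j, Nat.find ex = j + 1 := Nat.exists_eq_succ_of_ne_zero fun e => by
    rw [e] at hs
    exact hs rfl
  have e0 : c j = c 0 := not_not.1 (Nat.find_min ex (by omega))
  rw [hj] at hs hL
  refine Or.inr (Or.inr ⟨c (j + 1), Finset.ssubset_iff_subset_ne.2
    ⟨chain_anti hc (Nat.zero_le _) hL, hs⟩, ?_, e0 ▸ (hc.2 j hL).2, chain_desc hc hL le_rfl⟩)
  exact (Finset.nonempty_iff_ne_empty.2 h0).mono (chain_anti hc hL le_rfl)

theorem rank_and {u h S : Finset ℕ} (hu : X.N u) {D r : ℕ} (a3 : Rep D S (En X u h))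
    (hc : (D + 1) ^ w < S.card) (hr : ∀ Z ⊆ S, Z.Nonempty → X.rk u h Z = r) : X.rk u h ∅ ≤ r := by
  by_contra hlt
  have := (X.fin u hu).1
  have hw := rk_le X hu h ∅
  obtain ⟨g, hg⟩ := exists_linearIndependent_of_le_finrank (R := ℚ)
    (M := (X.D u).map (X.C u h ∅)) (n := r + 1) (by
      show r + 1 ≤ X.rk u h ∅
      omega)
  have hg' := hg.map' (Submodule.subtype _) (Submodule.ker_subtype _)
  choose f hf hf' using fun j => (g j).2
  choose l hl using fun i : Fin (r + 1) => LinearMap.exists_extend (Finsupp.lapply i ∘ₗ hg'.repr)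
  have h1 := (a3.det (fun Z => Matrix.of fun i j => l i (X.C u h Z (f j)))
    fun i j => ⟨f j, hf j, l i, rfl⟩).card_le ?_ ?_
  · have : D ^ (r + 1) ≤ (D + 1) ^ w := (Nat.pow_le_pow_left (Nat.le_succ D) _).trans
      (Nat.pow_le_pow_right (Nat.succ_pos D) (by omega))
    omega
  · have : (Matrix.of fun i j => l i (X.C u h ∅ (f j))) = 1 := by
      ext i j
      have h2 := LinearMap.congr_fun (hl i) ⟨g j, Submodule.subset_span ⟨j, rfl⟩⟩
      simp only [LinearMap.comp_apply, Submodule.subtype_apply, Finsupp.lapply_apply] at h2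
      rw [hg'.repr_eq_single j _ rfl] at h2
      rw [Matrix.of_apply, hf' j, h2, Matrix.one_apply, Finsupp.single_apply]
      simp [eq_comm]
    simp [this]
  · intro Z hZ hne
    have h2 : finrank ℚ ((X.D u).map (X.C u h Z)) = r := hr Z hZ hne
    have h3 : ¬ LinearIndependent ℚ fun j => (⟨X.C u h Z (f j), f j, hf j, rfl⟩ :
        (X.D u).map (X.C u h Z)) := fun hi => by
      have := hi.fintype_card_le_finrank
      simp [h2] at this
    obtain ⟨a, ha, j, hj⟩ := Fintype.not_linearIndependent_iff.1 h3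
    refine Matrix.exists_mulVec_eq_zero_iff.1 ⟨a, fun h0 => hj (congrFun h0 j), ?_⟩
    ext i
    have := congrArg (fun x : (X.D u).map (X.C u h Z) => l i x) ha
    simpa [Matrix.mulVec, dotProduct, mul_comm] using this

end PY

open PC PY

theorem core' (k w c : ℕ) : ∃ t, ∀ (V : Type) [AddCommGroup V] [Module ℚ V] (X : Sys V k w)
    (S : Finset ℕ), t < S.card → ∀ u h, Desc X.N u h →
    (∀ u' h', u' ⊂ u → Desc X.N u' h' → ∀ Z ⊆ S, Z.Nonempty → X.rk u' h' Z = X.rk u' h' S) →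
    (∀ Z ⊆ S, Z.Nonempty → X.rk u h Z = X.rk u h S) →
    (∀ i, (u.filter fun e => i ∈ X.aff e).card ≤ c) → X.rk u h ∅ ≤ X.rk u h S := by
  obtain ⟨D, p⟩ := pp k w c
  obtain ⟨s₁, p1⟩ := p ((D * D + 1) ^ w + 1)
  obtain ⟨s₂, p2⟩ := p s₁
  obtain ⟨q, hq⟩ : ∃ q, q = (2 + 1) ^ w := ⟨_, rfl⟩
  refine ⟨s₂ + k + q, fun V _ _ X S hc u h d h1 h2 ho => ?_⟩
  have hu := (desc_props d).1
  rcases first_step X d with rfl | ⟨rfl, h3⟩ | ⟨v, a1, a2, a3, a4⟩
  · unfold Sys.rk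
    rw [loc_empty X hu (Z := S) (by simp)]
  · obtain ⟨e, rfl⟩ := Finset.card_eq_one.1 h3
    obtain ⟨S', b1, b2, b3⟩ := X.leaf e hu S
    exact rank_and X hu b3 (by rw [← hq]; omega) fun Z hZ => h2 Z (hZ.trans b1)
  · have hne : u.Nonempty := a2.mono a1.1
    have hyp : (below X u hne).Hyp S := fun u' h' d' =>
      h1 u' h' (desc_props d').1.2 (desc_mono (fun _ h => h.1) d')
    obtain ⟨S1, b1, b2, b3⟩ := p2.qq V (below X u hne) S hyp (u \ v)
      ⟨a3, Finset.sdiff_ssubset a1.1 a2⟩ S (Finset.Subset.refl _) (by omega)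
      fun y _ => (oc_mono X Finset.sdiff_subset y).trans (ho y)
    obtain ⟨S2, c1, c2, c3⟩ := p1 V (below X u hne) S hyp v h (desc_below a4 a1) S1 b1 b2
      fun y _ => (oc_mono X (Finset.sdiff_subset.trans a1.1) y).trans (ho y)
    have hv := desc_props a4
    exact rank_and X hu (rep_comp X hu hv.1 hv.2.2 a1.1
      (rep_step X hu hv.1 a1.1 a3 (rep_mono b3 le_rfl c1)) c3) c2
      fun Z hZ => h2 Z (hZ.trans (c1.trans b1))

end Pool.Agent.P.MP_08e617_lc.Rk
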