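import Pool.Agent.P.MP_08e617_lc.RkY1
import Pool.Agent.P.MP_08e617_lc.RkX1
import Pool.Agent.P.MP_08e617_lc.RkX2
import Pool.Agent.P.MP_08e617_lc.RkX3

/-! The generator hits the determinant. -/

namespace Pool.Agent.P.MP_08e617_lc.Rk

open Pool.Agent.Lib.helper21 Module MvPolynomial

namespace PY

/-- The vertex sets that index the minors of a node. -/
noncomputable def enu (G : Gr) (u : Finset ℕ) : List (Finset ℕ) :=
  (Finset.Icc (G.inn u) (G.vs u)).toList

/-- The size of the matrix of a context. -/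
noncomputable def szP (G : Gr) (x : Finset ℕ × Finset ℕ) : ℕ :=
  (enu G x.1).length + (enu G x.2).length

/-- The polynomial matrix of a context. -/
noncomputable def cmP (G : Gr) (P : ℕ → MvPolynomial ℕ ℚ) (x : Finset ℕ × Finset ℕ) :
    Matrix (Fin (szP G x)) (Fin (szP G x)) (MvPolynomial ℕ ℚ) :=
  Matrix.of fun i j => if i.1 < (enu G x.1).length ∧ j.1 < (enu G x.2).length then
    mnr G.n ((enu G x.1).getD i ∅) (G.mat (x.1 \ x.2) P + ref G.n ((enu G x.2).getD j ∅)) else 0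

theorem enu_spec (G : Gr) (u : Finset ℕ) :
    (∀ i < (enu G u).length, G.inn u ⊆ (enu G u).getD i ∅ ∧ (enu G u).getD i ∅ ⊆ G.vs u) ∧
    ∀ Y, G.inn u ⊆ Y → Y ⊆ G.vs u → ∃ i < (enu G u).length, (enu G u).getD i ∅ = Y := by
  refine ⟨fun i hi => ?_, fun Y h1 h2 => ?_⟩
  · rw [List.getD_eq_getElem _ _ hi]
    exact Finset.mem_Icc.1 (Finset.mem_toList.1 (List.getElem_mem hi))
  · obtain ⟨i, hi, e⟩ := List.getElem_of_mem (l := enu G u)
      (Finset.mem_toList.2 (Finset.mem_Icc.2 ⟨h1, h2⟩))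
    exact ⟨i, hi, by rw [List.getD_eq_getElem _ _ hi, e]⟩

theorem rk_cmP (G : Gr) (hG : G.Ok) (P : ℕ → MvPolynomial ℕ ℚ) {u v : Finset ℕ} (hu : u ⊆ G.All)
    (hv : v ⊆ u) (p : ℕ → ℚ) : rkAt (cmP G P (u, v)) p = G.rk u v fun e => eval p (P e) := by
  rw [← rank_ev G hG hu hv _ (N := szP G (u, v)) (Nat.le_add_right _ _) (Nat.le_add_left _ _)
    (fun i => (enu G u).getD i ∅) (fun i => (enu G v).getD i ∅) (enu_spec G u).1 (enu_spec G u).2
    (enu_spec G v).1 (enu_spec G v).2 one_ne_zero, rkAt]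
  congr 1
  ext i j
  simp only [cmP, Matrix.map_apply, Matrix.of_apply, one_mul]
  split_ifs
  · rw [mnr_map]
    congr 1
    funext r c
    simp [Gr.mat, ref, apply_ite (eval p)]
  · simp

theorem exists_max {n : ℕ} (M : Matrix (Fin n) (Fin n) (MvPolynomial ℕ ℚ)) {A : Set (ℕ → ℚ)}
    (hA : A.Nonempty) : ∃ q ∈ A, ∀ p ∈ A, rkAt M p ≤ rkAt M q := by
  obtain ⟨_, ⟨q, hq, rfl⟩, h⟩ := Set.exists_max_image (rkAt M '' A) id
    ((Set.finite_le_nat n).subset (by
      rintro _ ⟨p, -, rfl⟩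
      exact Matrix.rank_le_width _)) (hA.image _)
  exact ⟨q, hq, fun p hp => h _ ⟨p, hp, rfl⟩⟩

theorem exists_gen (N T : ℕ) {ι : Type} (s : Finset ι) (n : ι → ℕ)
    (M : ∀ x, Matrix (Fin (n x)) (Fin (n x)) (MvPolynomial ℕ ℚ)) :
    ∃ a ∈ SV N (T + 1), (∀ i < N, a i ≠ 0) ∧
      ∀ x ∈ s, ∀ p ∈ SV N (T + 1), rkAt (M x) p ≤ rkAt (M x) a := by
  have h0 : ∀ T, (fun _ => 0) ∈ SV N T := fun T => ⟨0, 0, by simp⟩
  choose q hq hq' using fun x => exists_max (M x) ⟨_, h0 (T + 1)⟩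
  choose f f1 f2 _ using fun x => PE.exists_cert (M x) (q x)
  obtain ⟨a, ha, h⟩ := sv_irr N (T + 1) (𝓕 := f '' s ∪ X '' (Finset.range N : Set ℕ))
    ((s.finite_toSet.image _).union ((Finset.range N).finite_toSet.image _)) (by
      rintro _ (⟨x, -, rfl⟩ | ⟨i, hi, rfl⟩)
      · exact ⟨q x, hq x, f1 x⟩
      · obtain ⟨b, hb, e⟩ := sv_add (t := 1) (h0 T) {i} (by simp)
          (fun j => if j = i then 1 else 0) fun j hj => if_neg (by simpa using hj)
        exact ⟨b, hb, by simp [e i (by simpa using hi)]⟩)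
  exact ⟨a, ha, fun i hi => by simpa using h (X i) (Or.inr ⟨i, by simpa using hi, rfl⟩),
    fun x hx p hp => (hq' x p hp).trans (f2 x a (h _ (Or.inl ⟨x, hx, rfl⟩)))⟩

end PY

open PY

theorem bb_mat (k w : ℕ) : ∃ c, ∀ (N : ℕ) (I : Inp), (∀ m ∈ mons I, m.2.2.2.length ≤ N) →
    ReadLE (polyMatrix I) k → BranchLE (polyMatrix I) w → (polyMatrix I).det ≠ 0 →
    ∃ p ∈ SV N (c * (Nat.log 2 (mons I).length + 1)), eval p (polyMatrix I).det ≠ 0 := by
  classical
  obtain ⟨W, hW⟩ : ∃ W, W = 2 ^ (6 * (w + 2)) := ⟨_, rfl⟩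
  obtain ⟨t, ht⟩ := core' k W (k * 2 ^ k)
  refine ⟨9 * ((W + 1) * t) + 1, fun N I hN hR hB hdet => ?_⟩
  have hG := gr_ok k I
  obtain ⟨𝓝, H, n0, nA, n1, n2⟩ := exists_tree (gr k I) hG (polyMatrix I) hB (edge_ne k I)
  let Nd : Finset ℕ → Prop := fun R => R ∈ 𝓝
  let M := cmP (gr k I) (part k I)
  have spl : ∀ R, Nd R → 2 ≤ R.card →
      ∃ R', Nd R' ∧ R' ⊆ R ∧ R'.Nonempty ∧ R' ≠ R ∧ Nd (R \ R') := fun R hR h2 => (n1 R hR).2.2.2 h2
  have haff : ∀ e ∈ (gr k I).All, ∀ i ∈ affE I e, i < N := fun e he i hi =>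
    (Finset.mem_range.1 (PH.supp_sub _ hi)).trans_le (hN _ (PH.mo_mem (PH.mem_all.1 he).1))
  have hrk : ∀ u h, Desc Nd u h → ∀ p, rkAt (M (u, h)) p =
      (gr k I).rk u h fun e => eval p (part k I e) := fun u h d p =>
    rk_cmP _ hG _ (n1 u (PC.desc_props d).1).1 (PC.desc_props d).2.2 p
  have hK : ∀ u h, Desc Nd u h → ∀ p q : ℕ → ℚ, (∀ i < N, p i = q i) →
      rkAt (M (u, h)) p = rkAt (M (u, h)) q := fun u h d p q hpq => by
    have e : (gr k I).mat (u \ h) (fun e => eval p (part k I e)) =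
        (gr k I).mat (u \ h) fun e => eval q (part k I e) := by
      funext r c
      refine Finset.sum_congr rfl fun e he => ?_
      have he' := (n1 u (PC.desc_props d).1).1 (Finset.mem_sdiff.1 (Finset.mem_filter.1 he).1).1
      exact (part_spec k I e he').2.1 p q fun i hi => hpq i (haff e he' i hi)
    rw [hrk u h d, hrk u h d, Gr.rk, Gr.rk, Gr.Cv, Gr.Cv, e]
  have hle : ∀ u h, Desc Nd u h → ∀ p, rkAt (M (u, h)) p ≤ W := fun u h d p => by
    obtain ⟨f1, f2⟩ := PD2.fin_dm u (n1 u (PC.desc_props d).1).2.1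
    rw [hrk u h d, hW]
    exact (Submodule.finrank_map_le _ _).trans f2
  -- a context is good at level `T` if the generator attains its rank
  let Gd : ℕ → Finset ℕ → Finset ℕ → Prop := fun T u h =>
    ∃ a ∈ SV N (T + 1), ∀ p, rkAt (M (u, h)) p ≤ rkAt (M (u, h)) a
  have mono : ∀ T T' u h, T ≤ T' → Gd T u h → Gd T' u h := fun T T' u h hT ⟨a, ha, h'⟩ =>
    ⟨a, sv_mono N (by omega) ha, h'⟩
  have step : ∀ T u h, Desc Nd u h → (∀ u' h', u' ⊂ u → Desc Nd u' h' → Gd T u' h') →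
      Gd T u h ∨ ∃ b ∈ SV N (T + t + 1), ∀ p ∈ SV N (T + 1),
        rkAt (M (u, h)) p < rkAt (M (u, h)) b := by
    intro T u h d low
    obtain ⟨a, ha, a0, a1⟩ := exists_gen N T (𝓝 ×ˢ 𝓝) (szP (gr k I)) M
    have a2 : ∀ u' h', Desc Nd u' h' → ∀ p ∈ SV N (T + 1),
        rkAt (M (u', h')) p ≤ rkAt (M (u', h')) a := fun u' h' d' =>
      a1 _ (Finset.mk_mem_product (PC.desc_props d').1 (PC.desc_props d').2.1)
    have a3 : ∀ u' h', u' ⊂ u → Desc Nd u' h' → ∀ p,
        rkAt (M (u', h')) p ≤ rkAt (M (u', h')) a := fun u' h' s' d' p => by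
      obtain ⟨b, hb, hb'⟩ := low u' h' s' d'
      exact (hb' p).trans (a2 u' h' d' b hb)
    by_cases hg : ∀ p, rkAt (M (u, h)) p ≤ rkAt (M (u, h)) a
    · exact Or.inl ⟨a, ha, hg⟩
    by_cases hl : ∀ U : Finset ℕ, U.card ≤ t → ∀ p : ℕ → ℚ, (∀ j ∉ U, p j = a j) →
        rkAt (M (u, h)) p ≤ rkAt (M (u, h)) a
    swap
    · push Not at hl
      obtain ⟨U, hU, p, hp, hlt⟩ := hl
      obtain ⟨b, hb, e⟩ := sv_add ha U hU p hp
      refine Or.inr ⟨b, by rwa [add_right_comm], fun q hq => ?_⟩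
      rw [hK u h d b p e]
      exact (a2 u h d q hq).trans_lt hlt
    exfalso
    push Not at hg
    obtain ⟨p, hp⟩ := hg
    let s := ((𝓝 ×ˢ 𝓝).filter fun x => x = (u, h) ∨ (x.1 ⊂ u ∧ Desc Nd x.1 x.2)).toList
    have hs : ∀ x, x ∈ s ↔ x = (u, h) ∨ (x.1 ⊂ u ∧ Desc Nd x.1 x.2) := fun x => by
      simp only [s, Finset.mem_toList, Finset.mem_filter, and_iff_right_iff_imp]
      rintro (rfl | ⟨-, d'⟩)
      · exact Finset.mk_mem_product (PC.desc_props d).1 (PC.desc_props d).2.1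
      · exact Finset.mem_product.2 ⟨(PC.desc_props d').1, (PC.desc_props d').2.1⟩
    obtain ⟨S, y, s1, s2, ⟨x, hx, -, s3⟩, s4⟩ := exists_cube s (fun _ => True) (szP (gr k I)) M a t
      (fun x hx U hU p hp => by
        rcases (hs x).1 hx with rfl | ⟨s', d'⟩
        · exact hl U hU p hp
        · exact a3 _ _ s' d' p) ((hs _).2 (Or.inl rfl)) trivial (Finset.range N)
      (fun j => if j < N then p j else a j) (fun j hj => if_neg (by simpa using hj))
      (by rwa [hK u h d _ p fun i hi => if_pos hi])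
    obtain rfl : x = (u, h) := ((hs x).1 hx).resolve_right fun ⟨s', d'⟩ =>
      (a3 _ _ s' d' _).not_gt s3
    obtain ⟨X, e1, e2, e3⟩ := exists_sys (gr k I) hG k (6 * (w + 2)) Nd (affE I)
      (fun Z e => eval (cub a y S Z) (part k I e)) n0 spl
      (fun R hR => ⟨(n1 R hR).1, (n1 R hR).2.1⟩)
      (fun e he Z Z' h => (part_spec k I e he).2.1 _ _ fun i hi => by simp [cub, h i hi])
      (fun e he => (part_spec k I e he).2.2.imp_right fun ⟨c, hc⟩ =>
        ⟨fun i => if i ∈ S then (a i / y i) ^ expo (mo I e).2.2.2 i else 1, fun i => by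
          dsimp only
          split_ifs
          · by_cases h : expo (mo I e).2.2.2 i = 0
            · simp [h]
            · exact pow_ne_zero _ (div_ne_zero (a0 i (haff e he i (Finsupp.mem_support_iff.2 h)))
                (s2 i))
          · exact one_ne_zero, fun Z => by rw [hc]; exact PM.eval_cub _ _ _ _ s2 _ _⟩)
    subst hW
    have hSne : S.Nonempty := Finset.card_pos.1 (by omega)
    have cst : ∀ x ∈ s, Desc Nd x.1 x.2 → ∀ Z ⊆ S, Z.Nonempty →
        X.rk x.1 x.2 Z = X.rk x.1 x.2 S := fun x hx d' Z hZ hne => by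
      rw [e3, e3]
      exact ((hrk _ _ d' _).symm.trans (s4 x hx trivial Z hZ hne)).trans
        ((s4 x hx trivial S (Finset.Subset.refl _) hSne).symm.trans (hrk _ _ d' _))
    have := ht Fn X S s1 u h (e1 ▸ d)
      (fun u' h' s' d' => cst (u', h') ((hs _).2 (Or.inr ⟨s', e1 ▸ d'⟩)) (e1 ▸ d'))
      (cst _ hx d) fun i => by
        rw [e2]
        exact (Finset.card_le_card (Finset.filter_subset_filter _
          (n1 u (PC.desc_props d).1).1)).trans (read_le k I hR i)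
    rw [e3, e3, ← hrk u h d, ← hrk u h d, s4 _ hx trivial S (Finset.Subset.refl _) hSne] at this
    omega
  have level : ∀ j u h, H u < j → Desc Nd u h → Gd (j * ((W + 1) * t)) u h := by
    intro j
    induction j with
    | zero => exact fun u h hj => absurd hj (Nat.not_lt_zero _)
    | succ j ih =>
      intro u h hj d
      have low : ∀ T, ∀ u' h', u' ⊂ u → Desc Nd u' h' → Gd (j * ((W + 1) * t) + T) u' h' :=
        fun T u' h' s' d' => mono _ _ _ _ (Nat.le_add_right _ _) (ih u' h' (by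
          have := n2 u (PC.desc_props d).1 u' (PC.desc_props d').1 s'
          omega) d')
      have key : ∀ r, Gd (j * ((W + 1) * t) + r * t) u h ∨
          ∃ b ∈ SV N (j * ((W + 1) * t) + r * t + 1), r ≤ rkAt (M (u, h)) b := by
        intro r
        induction r with
        | zero => exact Or.inr ⟨fun _ => 0, ⟨0, 0, by simp⟩, Nat.zero_le _⟩
        | succ r ihr =>
          rw [Nat.succ_mul r, ← add_assoc]
          rcases ihr with g | ⟨b, hb, hb'⟩
          · exact Or.inl (mono _ _ _ _ (Nat.le_add_right _ _) g)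
          · rcases step _ u h d (low (r * t)) with g | ⟨b', c1, c2⟩
            · exact Or.inl (mono _ _ _ _ (Nat.le_add_right _ _) g)
            · exact Or.inr ⟨b', c1, hb'.trans_lt (c2 b hb)⟩
      rw [Nat.succ_mul j]
      exact (key (W + 1)).resolve_right fun ⟨b, _, hb⟩ => by
        have := hle u h d b
        omega
  have d0 : Desc Nd (gr k I).All ∅ := desc_empty n0 spl nA
  obtain ⟨a, ha, ha'⟩ := level _ _ _ (Nat.lt_succ_self _) d0
  have hroot : ∀ p, rkAt (M ((gr k I).All, ∅)) p = 0 ↔ eval p (polyMatrix I).det = 0 := fun p => by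
    rw [hrk _ _ d0, ← PM.det_smul_eq, ← PM.mat_eval k]
    exact rk_root (gr k I) hG (PM.vs_all k I hdet) _
  refine ⟨a, sv_mono N ?_ ha, fun h0 => hdet (MvPolynomial.funext fun p => ?_)⟩
  · have h1 := (n1 _ nA).2.2.1
    have h2 : Nat.log 2 (gr k I).All.card ≤ Nat.log 2 (mons I).length := Nat.log_mono_right (by
      simpa using Finset.card_le_card (t := Finset.range (mons I).length) fun e he =>
        Finset.mem_range.2 (PH.mem_all.1 he).1)
    generalize (W + 1) * t = A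
    have h3 : (H (gr k I).All).succ * A ≤ (9 * (Nat.log 2 (mons I).length + 1)) * A :=
      Nat.mul_le_mul_right _ (by omega)
    nlinarith
  · rw [map_zero, ← hroot]
    have := ha' p
    rw [(hroot a).2 h0] at this
    omega

theorem bb_frm (k w : ℕ) : ∃ c, ∀ (N : ℕ) (J : List (List Frm)), (encFrm J).length ≤ N →
    ReadsLE (J.flatten.flatMap Frm.leaves) k → BranchLE (frmMatrix J) w → (frmMatrix J).det ≠ 0 →
    ∃ y z : Fin (c * (Nat.log 2 N + 1)) → ℕ, (∀ j, y j ≤ (N + 1) ^ 3 ∧ z j ≤ (N + 1) ^ 3) ∧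
      eval (svPt N y z) (frmMatrix J).det ≠ 0 := by
  classical
  obtain ⟨b, hb⟩ := big_branch
  obtain ⟨c, hc⟩ := bb_mat k (w + b)
  obtain ⟨c', hc'⟩ := big_size
  refine ⟨c * c', fun N J hN hR hB hdet => ?_⟩
  have hR' : ReadsLE ((ents J (.leaf [])).flatMap fun e => e.2.2.leaves) k := by
    rwa [← PN.ents_snd J (.leaf []), List.flatMap_map] at hR
  let E := (ents J (.leaf [])).filter fun e => decide (e.2.1 < J.length) && !decide (e.2.2.poly = 0)
  have hE : ∀ e, e ∈ E ↔ e ∈ ents J (.leaf []) ∧ e.2.1 < J.length ∧ e.2.2.poly ≠ 0 := by simp [E]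
  have hlt : ∀ e ∈ E, e.1 < J.length ∧ e.2.1 < J.length := fun e he =>
    ⟨(PN.mem_ents.1 ((hE e).1 he).1).1, ((hE e).1 he).2.1⟩
  have hnd : (E.map fun e => (e.1, e.2.1)).Nodup :=
    (PN.ents_nodup J (.leaf [])).sublist (List.filter_sublist.map _)
  have hM : entM J.length E = frmMatrix J := by
    ext1 p q
    rw [entM, frmMatrix, Matrix.of_apply, Matrix.of_apply]
    by_cases h : ((J.getD p []).getD q (.leaf [])).poly = 0
    · rw [h]
      refine List.sum_eq_zero fun x hx => ?_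
      obtain ⟨e, he, rfl⟩ := List.mem_map.1 hx
      simp only [List.mem_filter, Bool.and_eq_true, decide_eq_true_eq] at he
      rw [(PN.mem_ents.1 ((hE e).1 he.1).1).2.2, he.2.1, he.2.2, h]
    · refine PN.sum_filter_nodup E _ hnd _ (fun e => e.2.2.poly)
        (p.1, q.1, (J.getD p []).getD q (.leaf []))
        ((hE _).2 ⟨PN.mem_ents.2 ⟨p.2, ?_, rfl⟩, q.2, h⟩) (by simp) fun y _ hy => by simpa using hy
      by_contra hh
      exact h (by rw [List.getD_eq_default _ _ (Nat.le_of_not_lt hh)]; rfl)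
  obtain ⟨s1, s2⟩ := hc' N J E hN List.filter_sublist
  obtain ⟨p, hp, hp'⟩ := hc N _ s1
    (big_read _ k E hlt (readsLE_sublist hR' (List.filter_sublist.flatMap _)))
    (hb _ w E _ hB hnd fun e he => ⟨(hlt e he).1, (hlt e he).2, by
      have := (hE e).1 he
      rw [frmMatrix, Matrix.of_apply, ← (PN.mem_ents.1 this.1).2.2]
      exact this.2.2⟩)
    fun h => hdet (hM ▸ (big_det _ E hlt).1 h)
  refine sv_grid ?_ (sv_mono N ?_ hp) fun h => hp' (big_det_pt _ E hlt p (hM ▸ h))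
  · have := (frm_deg J).trans (Nat.pow_le_pow_left (hN.trans (Nat.le_succ N)) 2)
    rw [pow_succ]
    exact Nat.mul_le_mul_right _ this
  · rw [mul_assoc]
    exact Nat.mul_le_mul_left _ s2

end Pool.Agent.P.MP_08e617_lc.Rk
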