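import Mathlib

/-! A folded Wronskian, and a count of nonsingular solutions of polynomial systems. -/

namespace Pool.Agent.P.MP_08e617_lc.Sx

open Polynomial Module Matrix Function

variable {K : Type} [Field K] [CharZero K]

/-- The polynomial `t (2 ^ i y)`. -/
noncomputable def Qp {n : ℕ} (t : Fin n → K) (i : ℕ) : K[X] :=
  ∑ l : Fin n, monomial l (((2 : K) ^ i) ^ (l : ℕ) * t l)

omit [CharZero K] in
theorem natDegree_det_le {s d : ℕ} (M : Matrix (Fin s) (Fin s) K[X])
    (h : ∀ i j, (M i j).natDegree ≤ d) : M.det.natDegree ≤ s * d := by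
  rw [det_apply]
  refine natDegree_sum_le_of_forall_le _ _ fun σ _ => (natDegree_smul_le _ _).trans ?_
  refine (natDegree_prod_le _ _).trans ((Finset.sum_le_sum fun i _ => h _ _).trans ?_)
  simp

theorem fold_ne {s n : ℕ} (b : Fin s → Fin n → K) (hb : LinearIndependent K b) :
    (Matrix.of fun (i c : Fin s) => Qp (b c) i).det ≠ 0 := fun h0 => by
  classical
  obtain ⟨G, hG, hM⟩ := exists_vecMul_eq_zero_iff.2 h0
  obtain ⟨i₁, hi₁⟩ := Function.ne_iff.1 hG
  obtain ⟨i₀, -, hi₀⟩ := Finset.exists_max_image Finset.univ (fun i => (G i).degree)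
    ⟨i₁, Finset.mem_univ _⟩
  have h1 : G i₀ ≠ 0 := fun e => hi₁ (by
    have := hi₀ i₁ (Finset.mem_univ _)
    rwa [e, degree_zero, le_bot_iff, degree_eq_bot] at this)
  set D := (G i₀).natDegree
  let z : K[X] := ∑ i : Fin s, monomial i ((G i).coeff D)
  have hz : z ≠ 0 := fun e => by
    have := congrArg (fun p => p.coeff i₀) e
    simp only [z, finsetSum_coeff, coeff_monomial, Fin.val_inj, Finset.sum_ite_eq',
      Finset.mem_univ, if_true, coeff_zero] at this
    exact h1 (leadingCoeff_eq_zero.1 this)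
  have hd : z.natDegree < s := by
    have : z.natDegree ≤ s - 1 := natDegree_sum_le_of_forall_le _ _ fun i _ =>
      (natDegree_monomial_le _).trans (Nat.le_sub_one_of_lt i.2)
    have := i₀.2
    omega
  let E := {e : Fin n // z.eval (2 ^ (e : ℕ)) = 0}
  have hE : Fintype.card E < s := by
    by_contra hc
    refine hz (eq_zero_of_natDegree_lt_card_of_eval_eq_zero z
      (f := fun e : E => (2 : K) ^ (e.1 : ℕ)) (fun e e' h => ?_) (fun e => e.2) (by omega))
    have : (2 : ℕ) ^ (e.1 : ℕ) = 2 ^ (e'.1 : ℕ) := by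
      beta_reduce at h
      exact_mod_cast h
    exact Subtype.ext (Fin.ext (Nat.pow_right_injective le_rfl this))
  let Λ : (Fin s → K) →ₗ[K] (E → K) :=
    (LinearMap.funLeft K K Subtype.val).comp (Fintype.linearCombination K b)
  obtain ⟨a, ha, ha0⟩ := (Submodule.ne_bot_iff _).1
    (Λ.ker_ne_bot_of_finrank_lt (by simpa using hE))
  let t := ∑ c, a c • b c
  have ht : t ≠ 0 := fun e => ha0 (funext (Fintype.linearIndependent_iff.1 hb a e))
  obtain ⟨l₁, hl₁⟩ := Function.ne_iff.1 ht
  obtain ⟨e, he, hmax⟩ := Finset.exists_max_image (Finset.univ.filter fun l => t l ≠ 0) id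
    ⟨l₁, by simpa using hl₁⟩
  have he : t e ≠ 0 := by simpa using he
  have h2 : ∑ i, G i * Qp t i = 0 := by
    have h3 : ∀ i : ℕ, Qp t i = ∑ c, a c • Qp (b c) i := fun i => by
      simp only [Qp, t, Finset.sum_apply, Pi.smul_apply, smul_eq_mul, Finset.smul_sum,
        smul_monomial, Finset.mul_sum, map_sum]
      rw [Finset.sum_comm]
      exact Finset.sum_congr rfl fun c _ => Finset.sum_congr rfl fun l _ => by rw [mul_left_comm]
    simp only [h3, Finset.mul_sum, mul_smul_comm]
    rw [Finset.sum_comm]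
    refine Finset.sum_eq_zero fun c _ => ?_
    rw [← Finset.smul_sum, show ∑ i, G i * Qp (b c) i = 0 from congrFun hM c, smul_zero]
  have h4 : ∀ i : Fin s, (G i * Qp t i).coeff (D + e) =
      (G i).coeff D * ((2 : K) ^ (e : ℕ)) ^ (i : ℕ) * t e := fun i => by
    rw [Qp, coeff_mul_add_eq_of_natDegree_le (natDegree_le_natDegree (hi₀ i (Finset.mem_univ _)))
      (natDegree_sum_le_of_forall_le _ _ fun l _ => ?_)]
    · simp only [finsetSum_coeff, coeff_monomial, Fin.val_inj, Finset.sum_ite_eq',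
        Finset.mem_univ, if_true]
      ring
    · by_cases h : t l = 0
      · simp [h]
      · exact (natDegree_monomial_le _).trans (hmax l (by simpa using h))
  have h5 : z.eval (2 ^ (e : ℕ)) = 0 := by
    have := congrArg (fun p => p.coeff (D + e)) h2
    simp only [finsetSum_coeff, h4, coeff_zero, ← Finset.sum_mul] at this
    simpa [z, eval_finsetSum] using (mul_eq_zero.1 this).resolve_right he
  exact he (by simpa [Λ, t, Fintype.linearCombination_apply] using congrFun ha ⟨e, h5⟩)

theorem extract {s n : ℕ} (T : Submodule K (Fin n → K)) (hT : s ≤ finrank K T)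
    (g : ℕ → Fin s → K) (hg : ∀ j ≤ s * n, g j ≠ 0) : ∃ j ≤ s * n, ∃ t ∈ T,
      ∑ i, g j i * ∑ l : Fin n, ((2 : K) ^ (i : ℕ) * j) ^ (l : ℕ) * t l ≠ 0 := by
  by_contra! h
  obtain ⟨b, hb⟩ := exists_linearIndependent_of_le_finrank hT
  refine fold_ne (fun c => (b c).1) (hb.map' T.subtype T.ker_subtype)
    (eq_zero_of_natDegree_lt_card_of_eval_eq_zero _ (f := fun j : Fin (s * n + 1) => ((j : ℕ) : K))
      (fun j j' e => Fin.ext (Nat.cast_injective e)) (fun j => ?_) ?_)
  · rw [← coe_evalRingHom, RingHom.map_det]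
    refine exists_vecMul_eq_zero_iff.1 ⟨g j, hg j (Nat.le_of_lt_succ j.2), funext fun c => ?_⟩
    refine Eq.trans ?_ (h j (Nat.le_of_lt_succ j.2) _ (b c).2)
    simp only [vecMul, dotProduct]
    refine Finset.sum_congr rfl fun i _ => ?_
    simp only [RingHom.mapMatrix_apply, map_apply, of_apply, coe_evalRingHom, Qp, eval_finsetSum,
      eval_monomial, mul_pow]
    exact congrArg _ (Finset.sum_congr rfl fun l _ => by ring)
  · rw [Fintype.card_fin, Nat.lt_succ_iff]
    refine natDegree_det_le _ fun i c => ?_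
    rw [of_apply, Qp]
    exact natDegree_sum_le_of_forall_le _ _ fun l _ => (natDegree_monomial_le _).trans l.2.le

omit [CharZero K] in
theorem select {s n M : ℕ} (v : ℕ → (Fin n → K) →ₗ[K] K)
    (h : ∀ T : Submodule K (Fin n → K), s ≤ finrank K T → ∃ j ≤ M, ∃ t ∈ T, v j t ≠ 0) (c : ℕ)
    (hc : c + s ≤ n) : ∃ ι : Fin c → Fin (M + 1), ∀ y : Fin c → K, ∃ ξ, ∀ k, v (ι k) ξ = y k := by
  induction c with
  | zero => exact ⟨Fin.elim0, fun _ => ⟨0, fun k => k.elim0⟩⟩
  | succ c ih =>
    obtain ⟨ι, hι⟩ := ih (by omega)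
    let L : (Fin n → K) →ₗ[K] (Fin c → K) := LinearMap.pi fun k => v (ι k)
    have h1 := L.finrank_range_add_finrank_ker
    have h2 := (LinearMap.range L).finrank_le
    simp only [finrank_fintype_fun_eq_card, Fintype.card_fin] at h1 h2
    obtain ⟨j, hj, t, ht, h0⟩ := h (LinearMap.ker L) (by omega)
    refine ⟨Fin.cons ⟨j, Nat.lt_succ_of_le hj⟩ ι, fun y => ?_⟩
    obtain ⟨ξ, hξ⟩ := hι (Fin.tail y)
    refine ⟨ξ + ((y 0 - v j ξ) / v j t) • t, Fin.cases ?_ fun k => ?_⟩
    · simp [h0]
    · have : v (ι k) t = 0 := congrFun (LinearMap.mem_ker.1 ht) k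
      simp [this, hξ, Fin.tail]

omit [CharZero K] in
theorem card_le {V ι : Type} [Fintype V] [Fintype ι] {f : ι → MvPolynomial V K}
    (hf : LinearIndependent K f) {D : ℕ} (h : ∀ i, (f i).totalDegree ≤ D) :
    Fintype.card ι ≤ (D + 1) ^ Fintype.card V := by
  classical
  let Λ : MvPolynomial V K →ₗ[K] ((V → Fin (D + 1)) → K) := LinearMap.pi fun e =>
    MvPolynomial.lcoeff K (Finsupp.equivFunOnFinite.symm fun v => (e v : ℕ))
  have h1 : LinearIndependent K fun i => Λ (f i) := Fintype.linearIndependent_iff.2 fun g hg => by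
    refine Fintype.linearIndependent_iff.1 hf g (MvPolynomial.eq_zero_iff.2 fun d => ?_)
    by_contra hd
    have h2 : (∑ i, g i • f i).totalDegree ≤ D := MvPolynomial.totalDegree_finsetSum_le fun i _ =>
      (MvPolynomial.totalDegree_smul_le _ _).trans (h i)
    have h3 : ∀ v, d v < D + 1 := fun v => Nat.lt_succ_of_le
      ((MvPolynomial.monomial_le_degreeOf v (MvPolynomial.mem_support_iff.2 hd)).trans
        ((MvPolynomial.degreeOf_le_totalDegree _ _).trans h2))
    have h4 := congrFun hg fun v => ⟨d v, h3 v⟩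
    simp only [← map_smul, ← map_sum] at h4
    exact hd (by simpa [Λ, MvPolynomial.coeff_sum] using h4)
  simpa using h1.fintype_card_le_finrank

/-- A line through `w` in the direction `ξ`. -/
noncomputable def ln {V : Type} (w ξ : V → K) : MvPolynomial V K →ₐ[K] K[X] :=
  MvPolynomial.aeval fun v => C (w v) + X * C (ξ v)

omit [CharZero K] in
theorem eval_ln {V : Type} (w ξ : V → K) (τ : K) (f : MvPolynomial V K) :
    (ln w ξ f).eval τ = MvPolynomial.eval (fun v => w v + τ * ξ v) f := by
  induction f using MvPolynomial.induction_on with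
  | C a => simp [ln]
  | add p q hp hq => simp [hp, hq]
  | mul_X p v hp => rw [map_mul, eval_mul, hp]; simp [ln, mul_comm τ]

omit [CharZero K] in
theorem coeff_ln {V : Type} (w ξ : V → K) (f : MvPolynomial V K) :
    (ln w ξ f).coeff 0 = MvPolynomial.eval w f := by
  simp [coeff_zero_eq_eval_zero, eval_ln]

omit [CharZero K] in
theorem deriv_ln {V : Type} [Fintype V] (w ξ : V → K) (f : MvPolynomial V K) :
    derivative (ln w ξ f) = ∑ v, C (ξ v) * ln w ξ (MvPolynomial.pderiv v f) := by
  classical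
  induction f using MvPolynomial.induction_on with
  | C a => simp [ln]
  | add p q hp hq => simp [hp, hq, mul_add, Finset.sum_add_distrib]
  | mul_X p v hp =>
    have : ln w ξ (MvPolynomial.X v) = C (w v) + X * C (ξ v) := by simp [ln]
    rw [map_mul, derivative_mul, hp]
    simp only [Derivation.leibniz, MvPolynomial.pderiv_X, smul_eq_mul, map_add, map_mul, mul_add,
      Finset.sum_add_distrib, Finset.sum_mul, Pi.single_apply, apply_ite (ln w ξ),
      map_zero, mul_ite, mul_one, mul_zero, Finset.sum_ite_eq, Finset.mem_univ, if_true]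
    rw [add_comm]
    congr 1
    · rw [this]; simp; ring
    · exact Finset.sum_congr rfl fun _ _ => by ring

theorem indep {V P : Type} [Fintype P] {c u : ℕ} (w : P → V → K) (q : P → MvPolynomial V K)
    (hq : ∀ p p', MvPolynomial.eval (w p) (q p') = 0 ↔ p ≠ p') (h : Fin c → MvPolynomial V K)
    (hh : ∀ p (y : Fin c → K), ∃ ξ, ∀ k,
      MvPolynomial.eval (w p) (h k) = 0 ∧ (ln (w p) ξ (h k)).coeff 1 = y k) :
    LinearIndependent K fun a : (Fin c → Fin u) × P => (∏ k, h k ^ (a.1 k : ℕ)) * q a.2 := by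
  classical
  refine Fintype.linearIndependent_iff.2 fun g hg => ?_
  by_contra! hne
  obtain ⟨a₁, ha₁⟩ := hne
  obtain ⟨⟨μ, p⟩, ha, hmin⟩ := Finset.exists_min_image (Finset.univ.filter fun a => g a ≠ 0)
    (fun a => ∑ k, (a.1 k : ℕ)) ⟨a₁, by simpa using ha₁⟩
  have ha : g (μ, p) ≠ 0 := by simpa using ha
  set m := ∑ k, (μ k : ℕ) with hm
  let ex : (Fin c → Fin u) → (Fin c →₀ ℕ) := fun ν =>
    Finsupp.equivFunOnFinite.symm fun k => (ν k : ℕ)
  have hZ : ∑ ν : Fin c → Fin u, MvPolynomial.monomial (ex ν)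
      (if ∑ k, (ν k : ℕ) = m then g (ν, p) * MvPolynomial.eval (w p) (q p) else 0) = 0 := by
    refine MvPolynomial.funext fun y => ?_
    obtain ⟨ξ, hξ⟩ := hh p y
    have h1 := congrArg (fun f => (ln (w p) ξ f).coeff m) hg
    simp only [map_sum, map_smul, map_mul, map_prod, map_pow, finsetSum_coeff, coeff_smul,
      map_zero, coeff_zero, Fintype.sum_prod_type] at h1
    rw [map_zero, map_sum]
    refine Eq.trans ?_ h1
    refine Finset.sum_congr rfl fun ν _ => ?_
    have h2 : ∀ p', ((∏ k, ln (w p) ξ (h k) ^ (ν k : ℕ)) * ln (w p) ξ (q p')).coeff m =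
        if ∑ k, (ν k : ℕ) ≤ m then ((∏ k, (ln (w p) ξ (h k)).divX ^ (ν k : ℕ)) *
          ln (w p) ξ (q p')).coeff (m - ∑ k, (ν k : ℕ)) else 0 := fun p' => by
      rw [← coeff_X_pow_mul', ← Finset.prod_pow_eq_pow_sum, ← mul_assoc, ← Finset.prod_mul_distrib]
      congr 2
      refine Finset.prod_congr rfl fun k _ => ?_
      rw [← mul_pow, mul_comm]
      conv_lhs => rw [← divX_mul_X_add (ln (w p) ξ (h k)), coeff_ln, (hξ k).1, C_0, add_zero]
    rw [MvPolynomial.eval_monomial, Finsupp.prod_fintype _ _ fun _ => pow_zero _]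
    simp only [h2]
    split_ifs with h3 h4 h4
    · rw [Finset.sum_eq_single p (fun p' _ hp => ?_) fun h => absurd (Finset.mem_univ _) h]
      · have h5 : ∀ k n, ((ln (w p) ξ (h k)).divX ^ n).coeff 0 = y k ^ n := fun k n => by
          rw [← constantCoeff_apply, map_pow, constantCoeff_apply, coeff_divX, zero_add, (hξ k).2]
        simp [h3, coeff_zero_prod, coeff_ln, h5, ex]
        ring
      · simp [h3, coeff_ln, (hq p p').2 hp.symm]
    · omega
    · rw [zero_mul]
      refine (Finset.sum_eq_zero fun p' _ => ?_).symm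
      rw [show g (ν, p') = 0 from by_contra fun h5 => h3
        (le_antisymm h4 (hmin (ν, p') (by simpa using h5))), zero_smul]
    · simp
  have h6 := congrArg (MvPolynomial.coeff (ex μ)) hZ
  rw [MvPolynomial.coeff_sum, Finset.sum_eq_single μ (fun ν _ hν => ?_)
    fun h => absurd (Finset.mem_univ _) h] at h6
  · simp [ha, hq, ← hm] at h6
  · rw [MvPolynomial.coeff_monomial, if_neg fun e => hν (funext fun k => Fin.ext ?_)]
    exact DFunLike.congr_fun e k

theorem count {V : Type} [Fintype V] {n c u δ : ℕ} (ρ : Fin n → V) (h : Fin c → MvPolynomial V K)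
    (hδ : ∀ k, (h k).totalDegree ≤ δ) (S : Finset (Fin n → Fin u))
    (hS : ∀ x ∈ S, ∃ w : V → K, (∀ l, w (ρ l) = (x l : ℕ) + 1) ∧ ∀ y : Fin c → K, ∃ ξ, ∀ k,
      MvPolynomial.eval w (h k) = 0 ∧ (ln w ξ (h k)).coeff 1 = y k) :
    u ^ c * S.card ≤ (c * (u * δ) + n * u + 1) ^ Fintype.card V := by
  classical
  choose w hw hh using hS
  let q : S → MvPolynomial V K := fun x => ∏ l, ∏ a ∈ Finset.univ.erase (x.1 l),
    (MvPolynomial.X (ρ l) - MvPolynomial.C (((a : ℕ) : K) + 1))
  have := card_le (indep (u := u) (fun x : S => w x.1 x.2) q (fun x x' => ?_) h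
    fun x => hh x.1 x.2) (D := c * (u * δ) + n * u) fun a => ?_
  · simpa using this
  · simp only [q, map_prod, map_sub, MvPolynomial.eval_X, MvPolynomial.eval_C, hw,
      Finset.prod_eq_zero_iff, Finset.mem_univ, true_and, Finset.mem_erase, and_true, sub_eq_zero,
      add_left_inj, Nat.cast_inj, Fin.val_inj, exists_eq_right', ne_eq, Subtype.ext_iff,
      funext_iff, not_forall]
  · refine (MvPolynomial.totalDegree_mul _ _).trans (add_le_add ?_ ?_)
    · refine (MvPolynomial.totalDegree_finsetProd _ _).trans ((Finset.sum_le_sum fun k _ =>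
        (MvPolynomial.totalDegree_pow _ _).trans (Nat.mul_le_mul (a.1 k).2.le (hδ k))).trans ?_)
      simp
    · refine (MvPolynomial.totalDegree_finsetProd _ _).trans
        ((Finset.sum_le_sum (g := fun _ => u) fun l _ => ?_).trans (by simp))
      refine (MvPolynomial.totalDegree_finsetProd _ _).trans ((Finset.sum_le_sum fun a _ =>
        (MvPolynomial.totalDegree_sub_C_le _ _).trans (MvPolynomial.totalDegree_X _).le).trans ?_)
      simp

end Pool.Agent.P.MP_08e617_lc.Sx
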