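import Pool.Agent.P.MP_08e617_lc.SxA

/-! Small hitting sets for families of polynomials with few parameters. -/

namespace Pool.Agent.P.MP_08e617_lc.Sx

open MvPolynomial Module
open Function hiding eval

variable {K : Type} [Field K] [CharZero K]

omit [CharZero K] in
theorem deg_aeval {σ τ : Type} (g : σ → MvPolynomial τ K) (hg : ∀ v, (g v).totalDegree ≤ 1)
    (f : MvPolynomial σ K) : (aeval g f).totalDegree ≤ f.totalDegree := by
  rw [aeval_def, eval₂_eq]
  refine totalDegree_finsetSum_le fun d hd => (totalDegree_mul _ _).trans ?_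
  rw [algebraMap_eq, totalDegree_C, zero_add]
  refine (totalDegree_finsetProd _ _).trans (le_trans (Finset.sum_le_sum fun v _ =>
    (totalDegree_pow _ _).trans ?_) (le_totalDegree hd))
  simpa using Nat.mul_le_mul_left (d v) (hg v)

omit [CharZero K] in
theorem deg_pderiv {σ : Type} (i : σ) (f : MvPolynomial σ K) :
    (pderiv i f).totalDegree ≤ f.totalDegree := by
  conv_lhs => rw [f.as_sum, map_sum]
  refine totalDegree_finsetSum_le fun d hd => ?_
  rw [pderiv_monomial]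
  exact (totalDegree_monomial_le _ _).trans
    ((Finsupp.degree_mono tsub_le_self).trans (le_totalDegree hd))

variable {Θ : Type} {s n : ℕ}

/-- The derivative in the direction of the base point. -/
noncomputable def Eu (f : MvPolynomial (Θ ⊕ Fin s ⊕ Fin s) K) : MvPolynomial (Θ ⊕ Fin s ⊕ Fin s) K :=
  ∑ i, (X (.inr (.inl i)) - X (.inr (.inr i))) * pderiv (.inr (.inr i)) f

omit [CharZero K] in
theorem deg_Eu (f : MvPolynomial (Θ ⊕ Fin s ⊕ Fin s) K) (μ : ℕ) :
    (Eu^[μ] f).totalDegree ≤ f.totalDegree + μ := by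
  induction μ with
  | zero => exact le_rfl
  | succ μ ih =>
    rw [iterate_succ_apply', Eu]
    refine totalDegree_finsetSum_le fun i _ => (totalDegree_mul _ _).trans ?_
    have h1 := totalDegree_sub (X (.inr (.inl i)) : MvPolynomial (Θ ⊕ Fin s ⊕ Fin s) K)
      (X (.inr (.inr i)))
    have h2 := deg_pderiv (.inr (.inr i)) (Eu^[μ] f)
    simp only [totalDegree_X, max_self] at h1
    omega

theorem ord (o : ℕ) : ∀ g : Polynomial K, g.coeff o ≠ 0 → ∃ μ ≤ o,
    ((fun g => (1 - Polynomial.X) * Polynomial.derivative g)^[μ] g).coeff 0 ≠ 0 := by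
  induction o with
  | zero => exact fun g h => ⟨0, le_rfl, h⟩
  | succ o ih =>
    intro g h
    by_cases h1 : g.coeff o = 0
    · obtain ⟨μ, h2, h3⟩ := ih ((1 - Polynomial.X) * Polynomial.derivative g) (by
        rw [sub_mul, one_mul, Polynomial.coeff_sub, Polynomial.coeff_derivative]
        have : (Polynomial.X * Polynomial.derivative g).coeff o = 0 := by
          cases o with
          | zero => simp
          | succ o => rw [Polynomial.coeff_X_mul, Polynomial.coeff_derivative, h1, zero_mul]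
        rw [this, sub_zero]
        exact mul_ne_zero h (by exact_mod_cast Nat.succ_ne_zero o))
      exact ⟨μ + 1, by omega, h3⟩
    · obtain ⟨μ, h2, h3⟩ := ih g h1
      exact ⟨μ, by omega, h3⟩

theorem exists_grad [Fintype Θ] (f : MvPolynomial (Θ ⊕ Fin s ⊕ Fin s) K) (θ : Θ → K)
    (a p : Fin s → K) (h0 : eval (Sum.elim θ (Sum.elim a p)) f = 0)
    (h1 : eval (Sum.elim θ (Sum.elim a a)) f ≠ 0) : ∃ μ ≤ f.totalDegree,
      eval (Sum.elim θ (Sum.elim a p)) (Eu^[μ] f) = 0 ∧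
      (fun i => eval (Sum.elim θ (Sum.elim a p)) (pderiv (.inr (.inr i)) (Eu^[μ] f))) ≠ 0 := by
  classical
  set w : Θ ⊕ Fin s ⊕ Fin s → K := Sum.elim θ (Sum.elim a p)
  let ξ : Θ ⊕ Fin s ⊕ Fin s → K := Sum.elim 0 (Sum.elim 0 (a - p))
  have e1 : ∀ f, ln w ξ (Eu f) = (1 - Polynomial.X) * Polynomial.derivative (ln w ξ f) := by
    intro f
    simp only [deriv_ln, Eu, map_sum, map_mul, map_sub, Fintype.sum_sum_type, ξ, Sum.elim_inl,
      Sum.elim_inr, Pi.zero_apply, map_zero, zero_mul, Finset.sum_const_zero, zero_add,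
      Finset.mul_sum]
    refine Finset.sum_congr rfl fun i _ => ?_
    simp only [ln, aeval_X, w, Sum.elim_inl, Sum.elim_inr, Pi.zero_apply, Pi.sub_apply, map_zero,
      map_sub]
    ring
  have e2 : ∀ μ, ln w ξ (Eu^[μ] f) =
      (fun g => (1 - Polynomial.X) * Polynomial.derivative g)^[μ] (ln w ξ f) := fun μ =>
    Semiconj.iterate_right (f := ln w ξ) (ga := Eu)
      (gb := fun g => (1 - Polynomial.X) * Polynomial.derivative g) e1 μ f
  have e3 : ln w ξ f ≠ 0 := fun e => h1 (by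
    have := eval_ln w ξ 1 f
    rw [e, Polynomial.eval_zero] at this
    rw [this]
    congr 2
    ext (v | v | v) <;> simp [w, ξ])
  have e4 : (ln w ξ f).natDegree ≤ f.totalDegree * 1 := aeval_natDegree_le f le_rfl _ fun v => by
    compute_degree
  obtain ⟨μ₀, h2, h3⟩ := ord _ _ (Polynomial.leadingCoeff_ne_zero.2 e3)
  rw [← e2, coeff_ln] at h3
  have hex : ∃ μ, eval w (Eu^[μ] f) ≠ 0 := ⟨μ₀, h3⟩
  obtain ⟨μ, hμ⟩ := Nat.exists_eq_succ_of_ne_zero ((Nat.find_eq_zero hex).not.2 (not_not.2 h0))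
  have h4 := Nat.find_min' hex h3
  have h5 := Nat.find_spec hex
  refine ⟨μ, by omega, not_not.1 (Nat.find_min hex (by omega)), fun e => h5 ?_⟩
  rw [hμ, iterate_succ_apply', Eu, map_sum]
  exact Finset.sum_eq_zero fun i _ => by rw [map_mul, congrFun e i, Pi.zero_apply, mul_zero]

/-- The points of the hitting set. -/
def pt (x : Fin n → K) (j i : ℕ) : K := ∑ l : Fin n, ((2 : K) ^ i * j) ^ (l : ℕ) * x l

/-- The substitution of these points. -/
noncomputable def sub (j : ℕ) : Θ ⊕ Fin s ⊕ Fin s → MvPolynomial (Θ ⊕ Fin s ⊕ Fin n) K :=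
  Sum.elim (fun θ => X (.inl θ)) (Sum.elim (fun i => X (.inr (.inl i))) fun i =>
    ∑ l : Fin n, C (((2 : K) ^ (i : ℕ) * j) ^ (l : ℕ)) * X (.inr (.inr l)))

omit [CharZero K] in
theorem deg_sub (j : ℕ) (v : Θ ⊕ Fin s ⊕ Fin s) : (sub (K := K) (n := n) j v).totalDegree ≤ 1 := by
  rcases v with v | v | v
  · simp [sub]
  · simp [sub]
  · rw [sub, Sum.elim_inr, Sum.elim_inr]
    exact totalDegree_finsetSum_le fun l _ => (totalDegree_mul _ _).trans
      (by rw [totalDegree_C, totalDegree_X])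

omit [CharZero K] in
theorem ln_sub (j : ℕ) (θ : Θ → K) (a : Fin s → K) (x ξ : Fin n → K)
    (f : MvPolynomial (Θ ⊕ Fin s ⊕ Fin s) K) :
    ln (Sum.elim θ (Sum.elim a x)) (Sum.elim 0 (Sum.elim 0 ξ)) (aeval (sub j) f) =
      ln (Sum.elim θ (Sum.elim a fun i : Fin s => pt x j i))
        (Sum.elim 0 (Sum.elim 0 fun i : Fin s => pt ξ j i)) f := by
  rw [← AlgHom.comp_apply]
  refine DFunLike.congr_fun (algHom_ext fun v => ?_) f
  rcases v with v | v | v
  · simp [sub, ln]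
  · simp [sub, ln]
  · simp only [sub, ln, pt, AlgHom.comp_apply, aeval_X, Sum.elim_inr, map_sum, map_mul, aeval_C,
      Polynomial.algebraMap_eq, Finset.mul_sum, ← Finset.sum_add_distrib]
    exact Finset.sum_congr rfl fun l _ => by ring

theorem witness [Fintype Θ] {c : ℕ} (hc : c + s ≤ n) (f : MvPolynomial (Θ ⊕ Fin s ⊕ Fin s) K)
    (θ : Θ → K) (a : Fin s → K) (x : Fin n → K) (h1 : eval (Sum.elim θ (Sum.elim a a)) f ≠ 0)
    (h0 : ∀ j ≤ s * n, eval (Sum.elim θ (Sum.elim a fun i : Fin s => pt x j i)) f = 0) {δ : ℕ}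
    (hδ : f.totalDegree ≤ δ) : ∃ (ι : Fin c → Fin (s * n + 1)) (μ : Fin c → Fin (δ + 1)),
      ∀ y : Fin c → K, ∃ ξ, ∀ k,
        eval (Sum.elim θ (Sum.elim a x)) (aeval (sub (ι k)) (Eu^[μ k] f)) = 0 ∧
        (ln (Sum.elim θ (Sum.elim a x)) ξ (aeval (sub (ι k)) (Eu^[μ k] f))).coeff 1 = y k := by
  choose! μ h2 h3 h4 using fun j hj => exists_grad f θ a _ (h0 j hj) h1
  let g : ℕ → Fin s → K := fun j i => eval (Sum.elim θ (Sum.elim a fun i : Fin s => pt x j i))
    (pderiv (.inr (.inr i)) (Eu^[μ j] f))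
  let v : ℕ → (Fin n → K) →ₗ[K] K := fun j => ∑ i, g j i • ∑ l : Fin n,
    ((2 : K) ^ (i : ℕ) * j) ^ (l : ℕ) • LinearMap.proj l
  have hv : ∀ j t, v j t = ∑ i, g j i * pt t j i := fun j t => by simp [v, pt]
  obtain ⟨ι, hι⟩ := select (s := s) (M := s * n) v (fun T hT => by
    simpa only [hv, pt] using extract T hT g h4) c hc
  have h5 : ∀ k, (ι k : ℕ) ≤ s * n := fun k => Nat.le_of_lt_succ (ι k).2
  refine ⟨ι, fun k => ⟨μ (ι k), Nat.lt_succ_of_le ((h2 _ (h5 k)).trans hδ)⟩, fun y => ?_⟩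
  obtain ⟨ξ, hξ⟩ := hι y
  refine ⟨Sum.elim 0 (Sum.elim 0 ξ), fun k => ⟨?_, ?_⟩⟩
  · rw [← coeff_ln _ (Sum.elim 0 (Sum.elim 0 ξ)), ln_sub, coeff_ln]
    exact h3 _ (h5 k)
  · have := Polynomial.coeff_derivative (ln (Sum.elim θ (Sum.elim a x)) (Sum.elim 0 (Sum.elim 0 ξ))
      (aeval (sub (ι k)) (Eu^[μ (ι k)] f))) 0
    simp only [zero_add, Nat.cast_zero, mul_one] at this
    rw [← this, ln_sub, deriv_ln, ← hξ, hv]
    simp [Fintype.sum_sum_type, coeff_ln, g, mul_comm]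

theorem hit {B : Type} [Fintype B] {Θ : B → Type} [∀ b, Fintype (Θ b)] {δ e u : ℕ}
    (F : ∀ b, MvPolynomial (Θ b ⊕ Fin s) K) (hF : ∀ b, (F b).totalDegree ≤ δ)
    (he : ∀ b, Fintype.card (Θ b) + s ≤ e) (hs : s ≤ e) (h0 : 0 < e)
    (hu : Fintype.card B * ((s * (3 * e) + 1) * (δ + 1)) ^ 2 * (4 * e * δ + 3 * e + 1) ^ 4 < u) :
    ∃ x : Fin (3 * e) → Fin u, ∀ b θ a, eval (Sum.elim θ a) (F b) ≠ 0 → ∃ j ≤ s * (3 * e),
      eval (Sum.elim θ fun i : Fin s => pt (fun l => ((x l : ℕ) : K) + 1) j i) (F b) ≠ 0 := by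
  classical
  by_contra! hx
  let f : ∀ b, MvPolynomial (Θ b ⊕ Fin s ⊕ Fin s) K := fun b => rename (Sum.map id .inr) (F b)
  have hf : ∀ b θ a p, eval (Sum.elim θ (Sum.elim a p)) (f b) = eval (Sum.elim θ p) (F b) := by
    intro b θ a p
    rw [eval_rename]
    congr 2
    ext (v | v) <;> rfl
  have hδ : ∀ b, (f b).totalDegree ≤ δ := fun b => (totalDegree_rename_le _ _).trans (hF b)
  let S : B × (Fin (2 * e) → Fin (s * (3 * e) + 1)) × (Fin (2 * e) → Fin (δ + 1)) →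
      Finset (Fin (3 * e) → Fin u) := fun σ => Finset.univ.filter fun x =>
    ∃ w : Θ σ.1 ⊕ Fin s ⊕ Fin (3 * e) → K, (∀ l, w (.inr (.inr l)) = (x l : ℕ) + 1) ∧
      ∀ y : Fin (2 * e) → K, ∃ ξ, ∀ k, eval w (aeval (sub (σ.2.1 k)) (Eu^[σ.2.2 k] (f σ.1))) = 0 ∧
        (ln w ξ (aeval (sub (σ.2.1 k)) (Eu^[σ.2.2 k] (f σ.1)))).coeff 1 = y k
  set G := 4 * e * δ + 3 * e + 1
  set Q := (s * (3 * e) + 1) * (δ + 1)
  have hu0 : 0 < u := by omega
  have h1 : ∀ σ, u ^ (2 * e) * (S σ).card ≤ (u * G) ^ (4 * e) := fun σ => by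
    refine (count (δ := 2 * δ) (fun l => Sum.inr (Sum.inr l)) _ (fun k => ?_) (S σ)
      fun x hx => (Finset.mem_filter.1 hx).2).trans ((Nat.pow_le_pow_left ?_ _).trans
        (Nat.pow_le_pow_right (by positivity) ?_))
    · have := (σ.2.2 k).2
      have := hδ σ.1
      exact (deg_aeval _ (deg_sub _) _).trans ((deg_Eu _ _).trans (by omega))
    · simp only [G]
      nlinarith
    · have := he σ.1
      simp only [Fintype.card_sum, Fintype.card_fin]
      omega
  have h2 : (Finset.univ : Finset (Fin (3 * e) → Fin u)) ⊆ Finset.univ.biUnion S := fun x _ => by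
    obtain ⟨b, θ, a, h3, h4⟩ := hx x
    obtain ⟨ι, μ, h5⟩ := witness (c := 2 * e) (n := 3 * e) (by omega) (f b) θ a
      (fun l => ((x l : ℕ) : K) + 1) (by rwa [hf]) (fun j hj => by rw [hf]; exact h4 j hj) (hδ b)
    exact Finset.mem_biUnion.2 ⟨(b, ι, μ), Finset.mem_univ _,
      Finset.mem_filter.2 ⟨Finset.mem_univ _, _, fun _ => rfl, h5⟩⟩
  have h3 := Nat.mul_le_mul_left (u ^ (2 * e))
    ((Finset.card_le_card h2).trans Finset.card_biUnion_le)
  rw [Finset.mul_sum] at h3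
  have h4 := h3.trans (Finset.sum_le_sum fun σ _ => h1 σ)
  simp only [Finset.card_univ, Fintype.card_fun, Fintype.card_fin, Finset.sum_const, smul_eq_mul,
    Fintype.card_prod] at h4
  have h5 : u ^ (4 * e) * u ^ e ≤ u ^ (4 * e) * (Fintype.card B * (Q ^ 2 * G ^ 4) ^ e) := by
    refine (le_of_eq (by ring)).trans (h4.trans (le_of_eq ?_))
    rw [← mul_pow, mul_pow u, mul_pow _ (G ^ 4), ← pow_mul, ← pow_mul]
    ring
  have h6 := Nat.le_of_mul_le_mul_left h5 (by positivity)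
  refine absurd (h6.trans ?_) (not_le.2 (Nat.pow_lt_pow_left hu h0.ne'))
  rw [mul_assoc, mul_pow (Fintype.card B)]
  exact Nat.mul_le_mul_right _ (Nat.le_self_pow h0.ne' _)

end Pool.Agent.P.MP_08e617_lc.Sx
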