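import Pool.Agent.P.MP_08e617_lc.SxB

/-! The restriction of a determinant to few variables lies in a family with few parameters. -/

namespace Pool.Agent.P.MP_08e617_lc.Sx

open MvPolynomial Module Matrix Finset

variable {n : ℕ}

theorem rank_fact (A : Matrix (Fin n) (Fin n) ℚ) :
    ∃ (U : Matrix (Fin n) (Fin A.rank) ℚ) (V : Matrix (Fin A.rank) (Fin n) ℚ), A = U * V := by
  let b := Module.finBasis ℚ (LinearMap.range A.mulVecLin)
  refine ⟨of fun p t => (b t).1 p,
    of fun t q => b.repr ⟨_, LinearMap.mem_range_self _ (Pi.single q 1)⟩ t, ?_⟩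
  ext p q
  have := congrArg (fun v => v.1 p) (b.sum_repr ⟨_, LinearMap.mem_range_self _ (Pi.single q 1)⟩)
  simp only [Submodule.coe_sum, Submodule.coe_smul, Finset.sum_apply, Pi.smul_apply,
    smul_eq_mul] at this
  rw [mul_apply]
  exact Eq.trans (by simp) (this.symm.trans (sum_congr rfl fun t _ => mul_comm _ _))

/-- The value of a monomial. -/
def mon (α : ℕ →₀ ℕ) (z : ℕ → ℚ) : ℚ := ∏ i ∈ α.support, z i ^ α i

theorem mon_piece (α : ℕ →₀ ℕ) (T : Finset ℕ) (y z : ℕ → ℚ) :
    mon α (T.piecewise y z) = (∏ i ∈ T, y i ^ α i) * mon α (T.piecewise 1 z) := by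
  rw [← prod_subset (inter_subset_right (s₁ := α.support)) fun i hi h => by
    rw [Finsupp.notMem_support_iff.1 fun h' => h (mem_inter.2 ⟨h', hi⟩), pow_zero],
    ← prod_ite_mem, mon, mon, ← prod_mul_distrib]
  refine prod_congr rfl fun i _ => ?_
  by_cases h : i ∈ T <;> simp [h]

variable (M : Matrix (Fin n) (Fin n) (MvPolynomial ℕ ℚ)) (S : Finset (ℕ →₀ ℕ))

theorem eval_exp (hS : ∀ α ∉ S, M.map (coeff α) = 0) (z : ℕ → ℚ) :
    M.map (eval z) = ∑ α ∈ S, mon α z • M.map (coeff α) := by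
  ext p q
  rw [map_apply, Matrix.sum_apply, eval_eq]
  refine (sum_subset (fun α h => by_contra fun h' => ?_) fun α _ h => ?_).trans
    (sum_congr rfl fun α _ => mul_comm _ _)
  · exact mem_support_iff.1 h (congrFun₂ (hS α h') p q)
  · rw [notMem_support_iff.1 h, zero_mul]

/-- The weight of a variable. -/
noncomputable def rw (i : ℕ) : ℕ := ∑ α ∈ S, α i * (M.map (coeff α)).rank

theorem eval_rel (hS : ∀ α ∉ S, M.map (coeff α) = 0) {y z : ℕ → ℚ}
    (h : ∀ i, rw M S i ≠ 0 → y i = z i) : M.map (eval y) = M.map (eval z) := by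
  rw [eval_exp M S hS, eval_exp M S hS]
  refine sum_congr rfl fun α hα => ?_
  by_cases h0 : M.map (coeff α) = 0
  · rw [h0, smul_zero, smul_zero]
  · congr 1
    refine prod_congr rfl fun i hi => by
      rw [h i fun e => mul_ne_zero (Finsupp.mem_support_iff.1 hi) (fun e => h0 ?_)
        (sum_eq_zero_iff.1 e α hα)]
      obtain ⟨U, V, e'⟩ := rank_fact (M.map (coeff α))
      rw [e']
      refine Matrix.ext fun p q => ?_
      rw [mul_apply]
      exact sum_eq_zero fun t _ => absurd t.2 (by omega)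

theorem family (hS : ∀ α ∉ S, M.map (coeff α) = 0) (T : Finset ℕ) {s ρ : ℕ}
    (hρ : ∑ i ∈ T, rw M S i ≤ ρ) (pos : ℕ → Fin s) :
    ∃ (Θ : Type) (_ : Fintype Θ) (F : MvPolynomial (Θ ⊕ Fin s) ℚ), Fintype.card Θ ≤ 2 * ρ ^ 2 ∧
      F.totalDegree ≤ 2 * ρ ∧ ∀ z, (M.map (eval z)).det ≠ 0 → ∃ θ, ∀ x : Fin s → ℚ,
        (M.map (eval (T.piecewise (x ∘ pos) z))).det =
          (M.map (eval z)).det * eval (Sum.elim θ x) F := by
  classical
  choose U V hUV using fun α => rank_fact (M.map (coeff α))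
  let S' := S.filter fun α => ∑ i ∈ T, α i ≠ 0
  let J := (α : S') × Fin (M.map (coeff α.1)).rank
  have h1 : ∑ t : J, ∑ i ∈ T, t.1.1 i ≤ ρ := by
    refine le_trans ?_ hρ
    unfold rw
    rw [sum_comm (s := T), Fintype.sum_sigma]
    simp only [sum_const, card_univ, Fintype.card_fin, smul_eq_mul, ← sum_mul]
    rw [sum_coe_sort S' fun α => (M.map (coeff α)).rank * ∑ i ∈ T, α i]
    exact (sum_le_sum_of_subset (filter_subset _ _)).trans
      (le_of_eq (sum_congr rfl fun α _ => mul_comm _ _))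
  have h2 : Fintype.card J ≤ ρ := by
    refine le_trans ?_ h1
    rw [← card_univ, card_eq_sum_ones]
    exact sum_le_sum fun t _ => Nat.pos_of_ne_zero (mem_filter.1 t.1.2).2
  let N : Matrix J J (MvPolynomial (((J × J) ⊕ (J × J)) ⊕ Fin s) ℚ) := of fun t t' =>
    X (.inl (.inl (t, t'))) + X (.inl (.inr (t, t'))) * ∏ i ∈ T, X (.inr (pos i)) ^ t'.1.1 i
  refine ⟨(J × J) ⊕ (J × J), inferInstance, N.det, ?_, ?_, fun z hz => ?_⟩
  · simp only [Fintype.card_sum, Fintype.card_prod]
    nlinarith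
  · rw [det_apply']
    refine totalDegree_finsetSum_le fun σ _ => (totalDegree_mul _ _).trans ?_
    rw [← map_intCast (C : ℚ →+* _), totalDegree_C, zero_add]
    refine (totalDegree_finsetProd _ _).trans ((sum_le_sum (g := fun t : J => 1 + ∑ i ∈ T, t.1.1 i)
      fun t _ => (totalDegree_add _ _).trans (max_le (by simp) ?_)).trans ?_)
    · refine (totalDegree_mul _ _).trans (add_le_add (by simp) ?_)
      exact (totalDegree_finsetProd _ _).trans (sum_le_sum fun i _ => by simp)
    · rw [sum_add_distrib, ← card_eq_sum_ones, card_univ]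
      omega
  · let U' : Matrix (Fin n) J ℚ := of fun p t => U t.1 p t.2
    let V' : Matrix J (Fin n) ℚ := of fun t q => V t.1 t.2 q
    let G := V' * (M.map (eval z))⁻¹ * U'
    refine ⟨Sum.elim (fun t => (1 : Matrix J J ℚ) t.1 t.2 - G t.1 t.2 * mon t.2.1 z)
      fun t => G t.1 t.2 * mon t.2.1 (T.piecewise 1 z), fun x => ?_⟩
    let d : J → ℚ := fun t => mon t.1 (T.piecewise (x ∘ pos) z) - mon t.1 z
    have e : M.map (eval (T.piecewise (x ∘ pos) z)) = M.map (eval z) + U' * diagonal d * V' := by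
      rw [← sub_eq_iff_eq_add', eval_exp M S hS, eval_exp M S hS, ← sum_sub_distrib,
        ← sum_subset (filter_subset (fun α => ∑ i ∈ T, α i ≠ 0) S) fun α hα h => by
          have h0 : ∀ i ∈ T, α i = 0 := sum_eq_zero_iff.1 (by simpa [hα] using h)
          rw [sub_eq_zero]
          congr 1
          exact prod_congr rfl fun i hi => by
            rw [piecewise_eq_of_notMem _ _ _ fun h => Finsupp.mem_support_iff.1 hi (h0 i h)],
        ← sum_coe_sort]
      ext p q
      rw [mul_apply, Fintype.sum_sigma, Matrix.sum_apply]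
      refine sum_congr rfl fun α _ => ?_
      rw [← sub_smul, Matrix.smul_apply, congrFun₂ (hUV α) p q, mul_apply, smul_eq_mul, mul_sum]
      refine sum_congr rfl fun c _ => ?_
      simp only [mul_diagonal, U', V', d, of_apply]
      ring
    rw [e, det_add_mul _ _ hz.isUnit, RingHom.map_det, ← Matrix.mul_assoc]
    congr 2
    ext t t'
    simp [N, d, G, mon_piece _ T (x ∘ pos)]
    ring

end Pool.Agent.P.MP_08e617_lc.Sx
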