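import Pool.Agent.P.MP_08e617_lc.SxC

/-! A hitting set for determinants of small total weight. -/

namespace Pool.Agent.P.MP_08e617_lc.Sx

open MvPolynomial Module Matrix Finset

/-- Partial sums of the weights. -/
def pre (r : ℕ → ℕ) (i : ℕ) : ℕ := ∑ i' ∈ range i, r i'
/-- The block of a variable. -/
def blk (B : ℕ) (r : ℕ → ℕ) (i : ℕ) : ℕ := 2 * (pre r i / B) + if B ≤ r i then 1 else 0

theorem pre_le (r : ℕ → ℕ) {i j : ℕ} (h : i < j) : pre r i + r i ≤ pre r j := by
  rw [pre, ← sum_range_succ]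
  exact sum_le_sum_of_subset (range_subset_range.2 h)

theorem light {B : ℕ} (hB : 0 < B) (r : ℕ → ℕ) (T : Finset ℕ) (c : ℕ)
    (h : ∀ i ∈ T, r i < B ∧ pre r i / B = c) : ∑ i ∈ T, r i ≤ 2 * B := by
  rcases T.eq_empty_or_nonempty with rfl | hT
  · simp
  have h1 := h _ (T.min'_mem hT)
  have h2 := h _ (T.max'_mem hT)
  have h3 : ∑ i ∈ T, r i ≤ ∑ i ∈ Ico (T.min' hT) (T.max' hT + 1), r i :=
    sum_le_sum_of_subset fun i hi => mem_Ico.2 ⟨T.min'_le i hi, Nat.lt_succ_of_le (T.le_max' i hi)⟩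
  have h4 := sum_range_add_sum_Ico r (Nat.le_succ_of_le (T.min'_le_max' hT))
  rw [sum_range_succ] at h4
  have h5 := Nat.div_mul_le_self (pre r (T.min' hT)) B
  have h6 := Nat.lt_div_mul_add (a := pre r (T.max' hT)) hB
  rw [h1.2] at h5
  rw [h2.2] at h6
  unfold pre at h5 h6
  simp only [Nat.succ_eq_add_one] at h4
  omega

theorem hybrid {P : (ℕ → ℚ) → Prop} {T : ℕ → Finset ℕ} {g : ℕ → ℕ → ℚ} {u : ℕ} (hu : 0 < u)
    (hT : ∀ b b', ∀ i ∈ T b, i ∈ T b' → b = b') (β : ℕ)
    (step : ∀ b < β, ∀ z, P z → ∃ j < u, P ((T b).piecewise (g j) z)) {z : ℕ → ℚ} (hz : P z) :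
    ∃ j : ℕ → ℕ, (∀ b, j b < u) ∧ ∃ z', P z' ∧ ∀ b < β, ∀ i ∈ T b, z' i = g (j b) i := by
  induction β with
  | zero => exact ⟨0, fun _ => hu, z, hz, fun _ h => absurd h (Nat.not_lt_zero _)⟩
  | succ β ih =>
    obtain ⟨j, h1, z', h2, h3⟩ := ih fun b hb => step b (by omega)
    obtain ⟨c, h4, h5⟩ := step β (by omega) z' h2
    refine ⟨Function.update j β c, fun b => ?_, _, h5, fun b hb i hi => ?_⟩
    · by_cases h : b = β
      · simp [h, h4]
      · simp [h, h1]
    · by_cases h : b = β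
      · subst h; simp [hi]
      · rw [piecewise_eq_of_notMem _ _ _ fun h' => h (hT _ _ i hi h'), Function.update_of_ne h]
        exact h3 b (by omega) i hi

theorem pt_mono {m : ℕ} (hm : 1 < m) (y : Fin m → ℚ) (hy : ∀ l, 0 < y l) (c : ℕ) :
    StrictMono fun j => pt y j c := fun j j' h => by
  have h1 : (j : ℚ) < j' := by exact_mod_cast h
  refine sum_lt_sum (fun l _ => ?_) ⟨⟨1, hm⟩, mem_univ _, ?_⟩
  · have := hy l
    gcongr
  · have := hy ⟨1, hm⟩
    gcongr

theorem params {B : ℕ} (hB : 2 ≤ B) : (2 * B ^ 2 + 2) * ((B * (3 * (9 * B ^ 2)) + 1) *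
    (2 * (2 * B) + 1)) ^ 2 * (4 * (9 * B ^ 2) * (2 * (2 * B)) + 3 * (9 * B ^ 2) + 1) ^ 4 <
    B ^ 75 := by
  have p : ∀ a b : ℕ, 2 ^ a * B ^ b ≤ B ^ (a + b) := fun a b => by rw [pow_add]; gcongr
  have q : ∀ a b : ℕ, a ≤ b → B ^ a ≤ B ^ b := fun a b h => Nat.pow_le_pow_right (by omega) h
  have h1 : 2 * B ^ 2 + 2 ≤ B ^ 4 := by
    have := p 2 2; have := q 1 2 (by omega); norm_num at *; omega
  have h2 : B * (3 * (9 * B ^ 2)) + 1 ≤ B ^ 8 := by
    have := p 5 3; have := q 0 3 (by omega)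
    have : B * (3 * (9 * B ^ 2)) = 27 * B ^ 3 := by ring
    norm_num at *; omega
  have h3 : 2 * (2 * B) + 1 ≤ B ^ 4 := by
    have := p 3 1; norm_num at *; omega
  have h4 : 4 * (9 * B ^ 2) * (2 * (2 * B)) + 3 * (9 * B ^ 2) + 1 ≤ B ^ 11 := by
    have := p 8 3; have := q 0 3 (by omega); have := q 2 3 (by omega)
    have : 4 * (9 * B ^ 2) * (2 * (2 * B)) = 144 * B ^ 3 := by ring
    norm_num at *; omega
  calc _ ≤ B ^ 4 * (B ^ 8 * B ^ 4) ^ 2 * (B ^ 11) ^ 4 := by gcongr
    _ = B ^ 72 := by ring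
    _ < _ := Nat.pow_lt_pow_right hB (by omega)

theorem hitting {n : ℕ} (M : Matrix (Fin n) (Fin n) (MvPolynomial ℕ ℚ)) (S : Finset (ℕ →₀ ℕ))
    (hS : ∀ α ∉ S, M.map (coeff α) = 0) {k B : ℕ} (hB : 2 ≤ B) (hk : ∀ i, rw M S i ≠ 0 → i < k)
    (hR : pre (rw M S) k ≤ B ^ 3) (hM : M.det ≠ 0) : ∃ w : ℕ → ℕ, (∀ l, w l < B ^ 75) ∧
      ∀ z : ℕ → ℚ, (∀ i < k, z i = ∑ l ∈ range (3 * (9 * B ^ 2)), ((2 : ℚ) ^ (pre (rw M S) i % B) *
        w (3 * (9 * B ^ 2) + blk B (rw M S) i)) ^ l * (w l + 1)) → (M.map (eval z)).det ≠ 0 := by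
  classical
  set r := rw M S
  have hB0 : 0 < B := by omega
  have hB2 : B ≤ B ^ 2 := Nat.le_self_pow (by omega) _
  let T : ℕ → Finset ℕ := fun b => (range k).filter fun i => r i ≠ 0 ∧ blk B r i = b
  let pos : ℕ → Fin B := fun i => ⟨pre r i % B, Nat.mod_lt _ hB0⟩
  choose Θ inst F h1 h2 h3 using fun b : Fin (2 * B ^ 2 + 2) => family M S hS
    ((T b).filter fun i => r i < B) (light hB0 r _ (b / 2) fun i hi => by
      obtain ⟨hi, h⟩ := mem_filter.1 hi
      have := (mem_filter.1 hi).2.2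
      rw [blk, if_neg (by omega)] at this
      exact ⟨h, by omega⟩) pos
  have hu := params hB
  obtain ⟨x, hx⟩ := hit (e := 9 * B ^ 2) (u := B ^ 75) F h2 (fun b => by
    have := h1 b
    rw [mul_pow] at this
    omega) (by omega) (by omega) (by rwa [Fintype.card_fin])
  have hu1 : B * (3 * (9 * B ^ 2)) < B ^ 75 := by
    refine lt_of_le_of_lt ?_ hu
    refine le_trans ?_ (Nat.le_mul_of_pos_right _ (by positivity))
    refine le_trans ?_ (Nat.le_mul_of_pos_left _ (by positivity))
    refine le_trans ?_ (Nat.le_self_pow (by omega) _)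
    exact le_trans (Nat.le_succ _) (Nat.le_mul_of_pos_right _ (by positivity))
  obtain ⟨z₀, hz₀⟩ : ∃ z : ℕ → ℚ, (M.map (eval z)).det ≠ 0 := by
    by_contra! hc
    exact hM (MvPolynomial.funext fun z => by rw [RingHom.map_det, map_zero]; exact hc z)
  obtain ⟨j, h4, z', h5, h6⟩ := hybrid (P := fun z => (M.map (eval z)).det ≠ 0) (T := T)
    (g := fun j i => pt (fun l => ((x l : ℕ) : ℚ) + 1) j (pos i)) (u := B ^ 75) (by positivity)
    (fun b b' i h h' => (mem_filter.1 h).2.2.symm.trans (mem_filter.1 h').2.2) (2 * B ^ 2 + 2)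
    (fun b hb z hz => by
      by_cases hl : ∀ i ∈ T b, r i < B
      · obtain ⟨θ, hθ⟩ := h3 ⟨b, hb⟩ z hz
        rw [filter_true_of_mem hl] at hθ
        have hi : Set.InjOn pos (T b) := by
          have key : ∀ i ∈ T b, ∀ i' ∈ T b, i < i' → pos i ≠ pos i' := fun i hi i' hi' h e => by
            have a1 := (mem_filter.1 hi).2
            have a2 := (mem_filter.1 hi').2.2
            rw [blk, if_neg (hl i hi).not_ge] at a1
            rw [blk, if_neg (hl i' hi').not_ge] at a2
            have a3 := pre_le r h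
            have a4 := Nat.div_add_mod (pre r i) B
            have a5 := Nat.div_add_mod (pre r i') B
            have a6 : pre r i % B = pre r i' % B := congrArg Fin.val e
            rw [show pre r i / B = pre r i' / B by omega] at a4
            omega
          intro i hi i' hi' e
          rcases lt_trichotomy i i' with h | h | h
          · exact absurd e (key i hi i' hi' h)
          · exact h
          · exact absurd e.symm (key i' hi' i hi h)
        have e := hθ (z ∘ Function.invFunOn pos (T b))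
        rw [piecewise_congr _ (f := (z ∘ Function.invFunOn pos (T b)) ∘ pos) (f' := z) (g' := z)
          (fun i h => congrArg z (hi.leftInvOn_invFunOn h)) fun _ _ => rfl, piecewise_same] at e
        obtain ⟨c, a1, a2⟩ := hx ⟨b, hb⟩ θ _ (right_ne_zero_of_mul (e ▸ hz))
        exact ⟨c, a1.trans_lt hu1, fun e => mul_ne_zero hz a2 ((hθ _).symm.trans e)⟩
      · push Not at hl
        obtain ⟨i, hi, hl⟩ := hl
        have a1 := mem_filter.1 hi
        have a2 : ∀ i' ∈ T b, i' = i := fun i' hi' => by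
          have b1 := a1.2.2
          have b2 := (mem_filter.1 hi').2.2
          rw [blk, if_pos hl] at b1
          rw [blk] at b2
          have key : ∀ i i', B ≤ r i → i < i' → pre r i / B + 1 ≤ pre r i' / B := fun i i' c h => by
            rw [← Nat.add_div_right _ hB0]
            exact Nat.div_le_div_right (le_trans (by omega) (pre_le r h))
          split_ifs at b2 with c
          · rcases lt_trichotomy i i' with h | h | h
            · have := key i i' hl h; omega
            · exact h.symm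
            · have := key i' i c h; omega
          · omega
        obtain ⟨Θ', _, F', -, a3, a4⟩ := family M S hS (T b) (ρ := B ^ 3) (s := 1)
          ((sum_le_sum_of_subset (filter_subset _ _)).trans hR) fun _ => 0
        obtain ⟨θ, hθ⟩ := a4 z hz
        have a5 : ∀ y : ℕ → ℚ, (M.map (eval ((T b).piecewise y z))).det = (M.map (eval z)).det *
            (ln (Sum.elim θ 0) (Sum.elim 0 1) F').eval (y i) := fun y => by
          rw [eval_ln, piecewise_congr _ (f' := (fun _ : Fin 1 => y i) ∘ fun _ => 0) (g' := z)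
            (fun i' h => congrArg y (a2 i' h)) fun _ _ => rfl, hθ]
          congr 3
          ext (v | v) <;> simp
        have a6 := aeval_natDegree_le F' a3 (fun v => Polynomial.C (Sum.elim θ 0 v) +
          Polynomial.X * Polynomial.C (Sum.elim (0 : Θ' → ℚ) (1 : Fin 1 → ℚ) v)) (n := 1)
          fun v => by compute_degree
        by_contra! hc
        have a7 := Polynomial.eq_zero_of_natDegree_lt_card_of_eval_eq_zero
          (ln (Sum.elim θ 0) (Sum.elim 0 1) F') (ι := Fin (B ^ 75))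
          ((pt_mono (by omega) (fun l => ((x l : ℕ) : ℚ) + 1) (fun l => by positivity)
            (pos i)).injective.comp Fin.val_injective)
          (fun c => (mul_eq_zero.1 ((a5 _).symm.trans (hc c c.2))).resolve_left hz)
          (a6.trans_lt (by
            rw [Fintype.card_fin]
            exact lt_of_le_of_lt (by nlinarith [pow_pos hB0 3]) hu1))
        have a8 := a5 z
        rw [piecewise_same, a7, Polynomial.eval_zero, mul_zero] at a8
        exact hz a8) hz₀
  refine ⟨fun l => if h : l < 3 * (9 * B ^ 2) then x ⟨l, h⟩ else j (l - 3 * (9 * B ^ 2)),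
    fun l => ?_, fun z hz => ?_⟩
  · beta_reduce
    split_ifs
    · exact (x _).2
    · exact h4 _
  · rw [eval_rel M S hS (z := z') fun i hi => ?_]
    · exact h5
    have a1 := hk i hi
    have a2 : blk B r i < 2 * B ^ 2 + 2 := by
      have : pre r i / B ≤ B ^ 2 := Nat.div_le_of_le_mul
        ((Nat.le_add_right _ _).trans ((pre_le r a1).trans (hR.trans (le_of_eq (by ring)))))
      unfold blk
      split_ifs <;> omega
    rw [hz i a1, h6 _ a2 i (mem_filter.2 ⟨mem_range.2 a1, hi, rfl⟩), pt, sum_range]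
    refine sum_congr rfl fun l _ => ?_
    beta_reduce
    rw [dif_neg (by omega), dif_pos l.2, Nat.add_sub_cancel_left]

end Pool.Agent.P.MP_08e617_lc.Sx
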