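import Pool.Agent.P.MP_08e617_lc.Defs

/-! The weight of a polynomial matrix. -/

namespace Pool.Agent.P.MP_08e617_lc

/-- Write `M = ∑ x ^ α A_α` with constant matrices `A_α`; the weight is `∑ |α| rank A_α`. -/
noncomputable def wt {n : ℕ} (M : Matrix (Fin n) (Fin n) (MvPolynomial ℕ ℚ)) : ℕ :=
  ∑ᶠ α : ℕ →₀ ℕ, α.degree * (M.map (MvPolynomial.coeff α)).rank

end Pool.Agent.P.MP_08e617_lc
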