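import Pool.Agent.Lib.helper26.PTExtra
import Pool.Agent.P.MP_08e617_lc.Main
import Pool.Agent.P.MP_08e617_lc.SxD
import Pool.Agent.P.MP_08e617_lc.SxDefs

/-! The algorithm that runs through the hitting set. -/

namespace Pool.Agent.P.MP_08e617_lc.Sx

open Pool.Agent.Lib.helper21 Pool.Agent.Lib.helper26 Function Matrix Module MvPolynomial

variable {α : Type} [Enc α]

@[fun_prop] theorem pt_listEq {l m : α → List ℕ} (hl : PT l) (hm : PT m) :
    PT fun a => decide (l a = m a) :=
  PT.of_eq (f := fun a => decide ((l a).length = (m a).length) && (List.range (l a).length).all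
    fun i => decide ((l a).getD i 0 = (m a).getD i 0)) (by fun_prop) fun a => by
      rw [Bool.eq_iff_iff]
      simp only [Bool.and_eq_true, decide_eq_true_eq, List.all_eq_true, List.mem_range]
      refine ⟨fun h => List.ext_getElem h.1 fun i h1 h2 => ?_, fun h => by simp [h]⟩
      rw [← List.getD_eq_getElem _ 0 h1, ← List.getD_eq_getElem _ 0 h2, h.2 i h1]

@[fun_prop] theorem pt_dedup {l : α → List (List ℕ)} (hl : PT l) : PT fun a => (l a).dedup :=
  (PT.foldl_add (f := fun _ (s : List (List ℕ)) x => cond (s.any fun y => decide (x = y)) s (x :: s))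
    (by fun_prop) hl.reverse (PT.const []) (fun p => 2 * sz p.2 + 2) (PT.bdNat (by fun_prop))
    fun a s x => by cases s.any fun y => decide (x = y) <;> simp; omega).of_eq fun a => by
      rw [List.foldl_reverse]
      induction l a with
      | nil => rfl
      | cons x t ih =>
        rw [List.foldr_cons, ih, List.dedup_cons']
        have : (t.dedup.any fun y => decide (x = y)) = decide (x ∈ t.dedup) := by
          rw [Bool.eq_iff_iff]; simp
        rw [this, Bool.cond_decide]
        split_ifs <;> rfl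

/-- A digit in base `u`. -/
def dg (u t l : ℕ) : ℕ := t / u ^ l % u

@[fun_prop] theorem pt_dg {u t l : α → ℕ} (hu : PT u) (ht : PT t) (hl : PT l) :
    PT fun a => dg (u a) (t a) (l a) :=
  PT_mod ((PT.iterate_add (f := fun a (s : ℕ) => s / u a) (by fun_prop) hl ht (fun _ => 0)
    (Bd.const _ _) fun a s => by simpa using Nat.div_le_self _ _).of_eq fun a => by
      induction l a with
      | zero => simp
      | succ n ih => rw [iterate_succ_apply', ih, Nat.div_div_eq_div_mul, pow_succ]) hu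

/-- An exponent vector, padded to length `k`. -/
def nrm (k : ℕ) (e : List ℕ) : List ℕ := (List.range k).map fun i => e.getD i 0
/-- The exponent vectors that occur. -/
def exps (I : Inp) : List (List ℕ) := (I.flatten.flatten.map fun m => nrm (nv I) m.2).dedup
/-- Scaled coefficient matrix of a monomial. -/
def cm (I : Inp) (e : List ℕ) : List (List ℤ) :=
  mk I.length fun p q => (((I.getD p []).getD q []).map fun m =>
    cond (decide (nrm (nv I) m.2 = e)) (m.1.num * cof (dens I) (denZ m.1)) 0).sum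
/-- The weight of a variable. -/
def rr (I : Inp) (i : ℕ) : ℕ :=
  ((exps I).map fun e => e.getD i 0 * (I.length - kd I.length (cm I e) (cm I e))).sum
/-- Partial sums of the weights. -/
def pr (I : Inp) (i : ℕ) : ℕ := ((List.range i).map (rr I)).sum
/-- The block size. -/
def BB (I : Inp) : ℕ :=
  ((List.range (pr I (nv I))).filter fun c => decide ((c + 2) ^ 3 < pr I (nv I))).length + 2
/-- The point with seed `t`. -/
def zz (I : Inp) (t : ℕ) : List ℤ :=
  (List.range (nv I)).map fun i => sm (3 * (9 * BB I ^ 2)) fun l =>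
    (2 ^ (pr I i % BB I) * (dg (BB I ^ 75) t (3 * (9 * BB I ^ 2) + (2 * (pr I i / BB I) +
      cond (decide (BB I ≤ rr I i)) 1 0)) : ℕ)) ^ l * ((dg (BB I ^ 75) t l : ℕ) + 1)
/-- Scaled value of the input matrix. -/
def evZ (I : Inp) (a : List ℤ) : List (List ℤ) :=
  mk I.length fun p q => (((I.getD p []).getD q []).map fun m => m.1.num * cof (dens I) (denZ m.1) *
    ((List.range m.2.length).map fun i => a.getD i 0 ^ m.2.getD i 0).prod).sum
/-- The test with the seeds below `P`. -/
def tst (I : Inp) (P : ℕ) : Bool :=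
  (List.range P).all fun t => decide (0 < kd I.length (evZ I (zz I t)) (evZ I (zz I t)))

@[fun_prop] theorem pt_nrm {k : α → ℕ} {e : α → List ℕ} (hk : PT k) (he : PT e) :
    PT fun a => nrm (k a) (e a) := by unfold nrm; fun_prop
@[fun_prop] theorem pt_exps : PT exps := by unfold exps; fun_prop
@[fun_prop] theorem pt_cm {I : α → Inp} {e : α → List ℕ} (hI : PT I) (he : PT e) :
    PT fun a => cm (I a) (e a) := by unfold cm; fun_prop
@[fun_prop] theorem pt_rr {I : α → Inp} {i : α → ℕ} (hI : PT I) (hi : PT i) :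
    PT fun a => rr (I a) (i a) := by unfold rr; fun_prop
@[fun_prop] theorem pt_pr {I : α → Inp} {i : α → ℕ} (hI : PT I) (hi : PT i) :
    PT fun a => pr (I a) (i a) := by unfold pr; fun_prop
@[fun_prop] theorem pt_BB : PT BB := by unfold BB; fun_prop
@[fun_prop] theorem pt_zz {I : α → Inp} {t : α → ℕ} (hI : PT I) (ht : PT t) :
    PT fun a => zz (I a) (t a) := by unfold zz; fun_prop
@[fun_prop] theorem pt_evZ {I : α → Inp} {b : α → List ℤ} (hI : PT I) (hb : PT b) :
    PT fun a => evZ (I a) (b a) := by unfold evZ; fun_prop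
theorem pt_tst : PT fun p : Inp × ℕ => tst p.1 p.2 := by unfold tst; fun_prop

theorem len_le {I : Inp} {m : ℚ × List ℕ} (h : m ∈ I.flatten.flatten) : m.2.length ≤ nv I :=
  List.single_le_sum (fun _ _ => Nat.zero_le _) _ (List.mem_map.2 ⟨m, h, rfl⟩)

theorem nrm_fs {k : ℕ} {e : List ℕ} (h : e.length ≤ k) : (nrm k e).toFinsupp = e.toFinsupp := by
  ext i
  simp only [List.toFinsupp_apply, nrm]
  by_cases hi : i < k
  · simp [List.getD_eq_getElem?_getD, hi]
  · rw [List.getD_eq_default _ _ (by simp; omega), List.getD_eq_default _ _ (by omega)]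

theorem nrm_inj {k : ℕ} {e e' : List ℕ} (h : e.length ≤ k) (h' : e'.length ≤ k) :
    nrm k e = nrm k e' ↔ e.toFinsupp = e'.toFinsupp :=
  ⟨fun e => by rw [← nrm_fs h, e, nrm_fs h'],
    fun e => List.map_congr_left fun i _ => DFunLike.congr_fun e i⟩

theorem mono_eq (m : ℚ × List ℕ) : monoPoly m = monomial m.2.toFinsupp m.1 := by
  rw [monomial_eq, Finsupp.prod_of_support_subset _ m.2.toFinsupp_support_subset _ (by simp)]
  rfl

theorem scale {I : Inp} {m : ℚ × List ℕ} (h : m ∈ I.flatten.flatten) :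
    ((m.1.num * cof (dens I) (denZ m.1) : ℤ) : ℚ) = ((dens I).prod : ℤ) * m.1 := by
  rw [← cof_mul (dens I) _ (List.mem_map.2 ⟨m, h, rfl⟩)]
  have := Rat.mul_den_eq_num m.1
  simp only [denZ] at this ⊢
  push_cast
  rw [← this]
  ring

/-- The exponents that occur. -/
noncomputable def supp (I : Inp) : Finset (ℕ →₀ ℕ) := ((exps I).map fun e => e.toFinsupp).toFinset

theorem mem_exps {I : Inp} {e : List ℕ} :
    e ∈ exps I ↔ ∃ m ∈ I.flatten.flatten, nrm (nv I) m.2 = e := by
  rw [exps, List.mem_dedup, List.mem_map]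

theorem supp_spec (I : Inp) : ∀ β ∉ supp I, (polyMatrix I).map (coeff β) = 0 := by
  intro β h
  ext p q
  simp only [map_apply, polyMatrix, of_apply, Matrix.zero_apply]
  rw [← coeffAddMonoidHom_apply, map_list_sum, List.map_map]
  refine List.sum_eq_zero fun x hx => ?_
  obtain ⟨m, hm, rfl⟩ := List.mem_map.1 hx
  rw [Function.comp_apply, coeffAddMonoidHom_apply, mono_eq, coeff_monomial, if_neg fun e => h ?_]
  exact List.mem_toFinset.2 (List.mem_map.2
    ⟨_, mem_exps.2 ⟨m, mem_flat hm, rfl⟩, (nrm_fs (len_le (mem_flat hm))).trans e⟩)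

theorem cm_spec {I : Inp} {e : List ℕ} (h : e ∈ exps I) :
    I.length - kd I.length (cm I e) (cm I e) = ((polyMatrix I).map (coeff e.toFinsupp)).rank := by
  obtain ⟨m₀, h₀, rfl⟩ := mem_exps.1 h
  have e1 : (toM I.length (cm I (nrm (nv I) m₀.2))).map (Int.castRingHom ℚ) =
      (((dens I).prod : ℤ) : ℚ) • (polyMatrix I).map (coeff (nrm (nv I) m₀.2).toFinsupp) := by
    rw [cm, toM_mk]
    ext p q
    simp only [map_apply, of_apply, Matrix.smul_apply, polyMatrix, smul_eq_mul]
    rw [← coeffAddMonoidHom_apply, map_list_sum, map_list_sum, List.map_map, List.map_map,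
      ← List.sum_map_mul_left]
    congr 1
    refine List.map_congr_left fun m hm => ?_
    rw [Function.comp_apply, Function.comp_apply, coeffAddMonoidHom_apply, mono_eq, coeff_monomial,
      nrm_fs (len_le h₀), mul_ite, mul_zero, ← scale (mem_flat hm)]
    simp only [nrm_inj (len_le (mem_flat hm)) (len_le h₀), Bool.cond_decide]
    split_ifs <;> rfl
  rw [kd_spec, inf_idem, e1, ker_smul' (dens_ne I)]
  have e2 := ((polyMatrix I).map
    (coeff (nrm (nv I) m₀.2).toFinsupp)).mulVecLin.finrank_range_add_finrank_ker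
  simp only [finrank_fintype_fun_eq_card, Fintype.card_fin] at e2
  unfold Matrix.rank
  omega

theorem rr_spec (I : Inp) : rr I = rw (polyMatrix I) (supp I) := by
  funext i
  rw [rr, rw, supp, List.sum_toFinset _ (List.Nodup.map_on (l := exps I) (fun x hx y hy e => ?_)
    (List.nodup_dedup _)), List.map_map]
  · exact congrArg _ (List.map_congr_left fun e he => by rw [cm_spec he]; rfl)
  · obtain ⟨m, h1, rfl⟩ := mem_exps.1 hx
    obtain ⟨m', h2, rfl⟩ := mem_exps.1 hy
    rwa [nrm_inj (len_le h1) (len_le h2), ← nrm_fs (len_le h1), ← nrm_fs (len_le h2)]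

theorem supp_lt {I : Inp} {β : ℕ →₀ ℕ} (h : β ∈ supp I) : β.support ⊆ Finset.range (nv I) := by
  obtain ⟨e, he, rfl⟩ := List.mem_map.1 (List.mem_toFinset.1 h)
  obtain ⟨m, -, rfl⟩ := mem_exps.1 he
  simpa [nrm] using (nrm (nv I) m.2).toFinsupp_support_subset

theorem pr_spec (I : Inp) (i : ℕ) : pr I i = pre (rw (polyMatrix I) (supp I)) i := by
  rw [pr, list_sum_range, rr_spec, pre]

theorem wt_spec (I : Inp) : wt (polyMatrix I) = pr I (nv I) := by
  rw [pr_spec, wt, finsum_eq_sum_of_support_subset (s := supp I) _ fun β h => by_contra fun h' =>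
    h (by rw [supp_spec I β h', rank_zero, mul_zero]), pre]
  unfold rw
  rw [Finset.sum_comm]
  refine Finset.sum_congr rfl fun β h => ?_
  rw [← Finset.sum_mul, Finsupp.degree_apply, Finset.sum_subset (supp_lt h) fun i _ h' =>
    Finsupp.notMem_support_iff.1 h']

theorem BB_spec (I : Inp) : 2 ≤ BB I ∧ pr I (nv I) ≤ BB I ^ 3 ∧
    ∀ ρ, 2 ≤ ρ → pr I (nv I) ≤ ρ ^ 3 → BB I ≤ ρ := by
  unfold BB
  generalize pr I (nv I) = R
  have hex : ∃ c, R ≤ (c + 2) ^ 3 := ⟨R, le_trans (by omega) (Nat.le_self_pow (by omega) _)⟩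
  have e : (fun c => decide ((c + 2) ^ 3 < R)) = fun c => decide (c < Nat.find hex) := by
    funext c
    rw [decide_eq_decide, Nat.lt_find_iff]
    exact ⟨fun h m hm => not_le.2 (lt_of_le_of_lt (by gcongr) h), fun h => not_le.1 (h c le_rfl)⟩
  have h1 : Nat.find hex ≤ R := Nat.find_min' _ (le_trans (by omega) (Nat.le_self_pow (by omega) _))
  rw [e, length_filter_lt, min_eq_left h1]
  refine ⟨by omega, Nat.find_spec hex, fun ρ h2 h3 => ?_⟩
  have := Nat.find_min' hex (m := ρ - 2) (by rwa [Nat.sub_add_cancel h2])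
  omega

theorem evZ_spec (I : Inp) (a : List ℤ) : 0 < kd I.length (evZ I a) (evZ I a) ↔
    ((polyMatrix I).map (eval fun i => ((a.getD i 0 : ℤ) : ℚ))).det = 0 := by
  have e1 : (toM I.length (evZ I a)).map (Int.castRingHom ℚ) =
      (((dens I).prod : ℤ) : ℚ) • (polyMatrix I).map (eval fun i => ((a.getD i 0 : ℤ) : ℚ)) := by
    rw [evZ, toM_mk]
    ext p q
    simp only [map_apply, of_apply, Matrix.smul_apply, polyMatrix, smul_eq_mul, map_list_sum,
      List.map_map, ← List.sum_map_mul_left]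
    congr 1
    refine List.map_congr_left fun m hm => ?_
    rw [Function.comp_apply, Function.comp_apply, eval_monoPoly, ← mul_assoc, ← scale (mem_flat hm), list_prod_range]
    simp
  rw [kd_spec, inf_idem, e1, ker_smul' (dens_ne I), ← exists_mulVec_eq_zero_iff,
    Nat.pos_iff_ne_zero, Ne, Submodule.finrank_eq_zero, ← Ne, Submodule.ne_bot_iff]
  simp [and_comm]

theorem seed {u L : ℕ} (w : ℕ → ℕ) (h : ∀ l, w l < u) : ∃ t < u ^ L, ∀ l < L, dg u t l = w l := by
  let t := finFunctionFinEquiv fun l : Fin L => (⟨w l, h l⟩ : Fin u)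
  refine ⟨t, t.2, fun l hl => ?_⟩
  have := finFunctionFinEquiv_symm_apply_val t ⟨l, hl⟩
  rw [Equiv.symm_apply_apply] at this
  exact this.symm

attribute [local irreducible] BB rr pr

/-- The number of seeds. -/
def pad (I : Inp) : ℕ := (BB I ^ 75) ^ (30 * BB I ^ 2)

theorem tst_spec (I : Inp) : tst I (pad I) = true ↔ (polyMatrix I).det = 0 := by
  simp only [tst, List.all_eq_true, List.mem_range, decide_eq_true_eq, evZ_spec]
  refine ⟨fun h => by_contra fun hM => ?_, fun h t _ => ?_⟩
  · obtain ⟨h1, h2, -⟩ := BB_spec I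
    have hk : ∀ i, rw (polyMatrix I) (supp I) i ≠ 0 → i < nv I := fun i hi => by
      obtain ⟨β, h3, h4⟩ := Finset.exists_ne_zero_of_sum_ne_zero hi
      exact Finset.mem_range.1 (supp_lt h3 (Finsupp.mem_support_iff.2 (left_ne_zero_of_mul h4)))
    rw [pr_spec] at h2
    obtain ⟨w, h3, h4⟩ := hitting _ _ (supp_spec I) h1 hk h2 hM
    obtain ⟨t, ht, h5⟩ := seed (L := 30 * BB I ^ 2) w h3
    refine h4 _ (fun i hi => ?_) (h t ht)
    have h6 : pr I i / BB I ≤ BB I ^ 2 := Nat.div_le_of_le_mul (by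
      rw [pr_spec]
      exact (Nat.le_add_right _ _).trans ((pre_le _ hi).trans (h2.trans (le_of_eq (by ring)))))
    have h7 : 2 ^ 2 ≤ BB I ^ 2 := Nat.pow_le_pow_left h1 2
    have h8 : (2 * (pr I i / BB I) + cond (decide (BB I ≤ rr I i)) 1 0) =
        blk (BB I) (rw (polyMatrix I) (supp I)) i := by
      rw [blk, ← pr_spec, ← rr_spec]
      simp
    have h9 : cond (decide (BB I ≤ rr I i)) 1 0 ≤ 1 := by cases decide (BB I ≤ rr I i) <;> simp
    rw [zz, List.getD_eq_getElem _ _ (by simpa using hi), List.getElem_map, List.getElem_range,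
      h5 _ (by omega), h8, sm, list_sum_range, pr_spec]
    push_cast
    exact Finset.sum_congr rfl fun l hl => by rw [h5 l (by have := Finset.mem_range.1 hl; omega)]
  · rw [← RingHom.mapMatrix_apply, ← RingHom.map_det, h, map_zero]

theorem real_tst : RealT (fun I : Inp => sz I + pad I) Enc.enc fun I => [tst I (pad I)] := by
  let step : Inp × ℕ × ℕ → Inp × ℕ × ℕ := fun s => (s.1, s.2.1 - 1, s.2.2 * BB s.1 ^ 75)
  let go : Inp × ℕ × ℕ → Bool := fun s => !decide (s.2.1 = 0)
  let init : Inp → Inp × ℕ × ℕ := fun I => (I, 30 * BB I ^ 2, 1)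
  have hs : PT step := by fun_prop
  have hg : PT go := by fun_prop
  have hi : PT init := by fun_prop
  have hit : ∀ (j : ℕ) (I : Inp), step^[j] (init I) = (I, 30 * BB I ^ 2 - j, (BB I ^ 75) ^ j) := by
    intro j I
    induction j with
    | zero => rfl
    | succ j ih => rw [iterate_succ_apply', ih]; rfl
  have b0 : Bd (fun I : Inp => sz I + pad I) sz := (Bd.self _).mono fun I => Nat.le_add_right _ _
  have b1 : Bd (fun I : Inp => sz I + pad I) pad := (Bd.self _).mono fun I => Nat.le_add_left _ _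
  have b2 : Bd (fun I : Inp => sz I + pad I) fun I => 30 * BB I ^ 2 :=
    b0.trans (PT.bdNat (by fun_prop))
  have h1 := RealT.whileLoop Enc.enc go step
    (Rl.reindex (Rl.consBit (hg.comp hs) hs) Subtype.val) (fun I : Inp => sz I + pad I) init
    (fun I => 30 * BB I ^ 2) (fun a j hj => by simp [hit, go]; omega) (fun a => by simp [hit, go])
    b2 (fun I => 2 * sz I + 2 * (30 * BB I ^ 2) + pad I + 2)
    (((((Bd.const _ _).mul b0).add ((Bd.const _ _).mul b2)).add b1).add (Bd.const _ _))
    fun I j hj => by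
      have : (BB I ^ 75) ^ j ≤ pad I :=
        Nat.pow_le_pow_right (pow_pos (by have := (BB_spec I).1; omega) _) hj.le
      show sz _ ≤ _
      simp only [hit, sz_pair, sz_nat]
      omega
  have h2 : PT fun s : Inp × ℕ × ℕ => tst s.1 s.2.2 :=
    pt_tst.comp (g := fun s : Inp × ℕ × ℕ => (s.1, s.2.2)) (by fun_prop)
  have h3 := (RealT.size (Rl.consBit (hg.comp hi) hi) b0).comp h1
  refine (h3.comp (RealT.size (Rl.reindex h2 _) (h3.bd b0))).congr fun I => ?_
  rw [hit]
  rfl

set_option exponentiation.threshold 3000 in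
theorem main : ∃ (tm : Turing.TM2ComputableAux Bool Bool) (q : Polynomial ℕ) (f : Inp → Bool),
    (∀ I, f I = true ↔ (polyMatrix I).det = 0) ∧
    ∀ I (ρ : ℕ), 2 ≤ ρ → wt (polyMatrix I) ≤ ρ ^ 3 →
      Nonempty (Turing.TM2OutputsInTime tm.tm ((encInput I).map tm.inputAlphabet.invFun)
        (some ((Computability.encodeBool (f I)).map tm.outputAlphabet.invFun))
        (q.eval ((encInput I).length + ρ ^ ρ ^ 2))) := by
  obtain ⟨ι, _, _, p, T, ⟨q, hT⟩, hp⟩ := real_tst
  refine ⟨⟨machine p, Equiv.refl _, Equiv.refl _⟩, q.comp (Polynomial.X + Polynomial.X ^ 2250) + 1,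
    fun I => tst I (pad I), tst_spec, fun I ρ h1 h2 => ?_⟩
  rw [wt_spec] at h2
  have h3 := (BB_spec I).2.2 ρ h1 h2
  have h4 : pad I ≤ (sz I + ρ ^ ρ ^ 2) ^ 2250 := by
    calc pad I = (BB I ^ BB I ^ 2) ^ 2250 := by
          rw [pad, ← pow_mul, ← pow_mul]; congr 1; ring
      _ ≤ (ρ ^ ρ ^ 2) ^ 2250 := by gcongr; omega
      _ ≤ _ := by gcongr; omega
  have h := machine_run p _ _ _ ((hp I).mono ((hT I).trans (eval_mono q
    (n := sz I + ρ ^ ρ ^ 2 + (sz I + ρ ^ ρ ^ 2) ^ 2250) (by beta_reduce; omega))))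
  have e1 : List.map (Equiv.refl Bool).invFun (encInput I) = Enc.enc I := by
    rw [encInput_eq]; exact List.map_id _
  have e2 : (q.comp (Polynomial.X + Polynomial.X ^ 2250) + 1).eval
      ((encInput I).length + ρ ^ ρ ^ 2) =
      q.eval (sz I + ρ ^ ρ ^ 2 + (sz I + ρ ^ ρ ^ 2) ^ 2250) + 1 := by
    rw [encInput_eq, Polynomial.eval_add, Polynomial.eval_one, Polynomial.eval_comp,
      Polynomial.eval_add, Polynomial.eval_pow, Polynomial.eval_X]
    rfl
  exact e1.symm ▸ e2.symm ▸ h

end Pool.Agent.P.MP_08e617_lc.Sx
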